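import Pool.Agent.Lib.MP_7f477e_gt.Iface

/-!
# MP_7f477e_gt, A01: normal forms in a group generated by two copies of `FF` which agree on `c`
-/

set_option autoImplicit false

namespace Pool.Agent.AllSurf

theorem A01_zpow {G : Type} [Group G] (x : Bool → FF →* G) (hx : x false fc = x true fc) (s s' : Bool)
    {e : FF} (he : e ∈ Subgroup.zpowers fc) : x s e = x s' e := by
  obtain ⟨k, rfl⟩ := Subgroup.mem_zpowers_iff.1 he
  rw [map_zpow, map_zpow]
  cases s <;> cases s' <;> simp [hx]

/-- the two kinds of normal forms -/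
def A01_Nf {G : Type} [Group G] (x : Bool → FF →* G) (g : G) : Prop :=
  (∃ e ∈ Subgroup.zpowers fc, g = x false e) ∨ ∃ L, L ≠ [] ∧ IsAlt L ∧ g = wval x L

theorem A01_isAlt_single {s : Bool} {e : FF} (he : e ∉ Subgroup.zpowers fc) : IsAlt [(s, e)] := by
  refine ⟨List.isChain_singleton _, ?_⟩
  intro p hp
  rw [List.mem_singleton] at hp
  rw [hp]; exact he

theorem A01_isAlt_tail {p : Bool × FF} {L : List (Bool × FF)} (h : IsAlt (p :: L)) : IsAlt L :=
  ⟨h.1.tail, fun q hq => h.2 q (List.mem_cons_of_mem _ hq)⟩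

theorem A01_isAlt_replace {p : Bool × FF} {L : List (Bool × FF)} (h : IsAlt (p :: L)) {e : FF}
    (he : e ∉ Subgroup.zpowers fc) : IsAlt ((p.1, e) :: L) := by
  refine ⟨?_, ?_⟩
  · have h1 := h.1
    rw [List.isChain_cons] at h1 ⊢
    exact h1
  · intro q hq
    rcases List.mem_cons.1 hq with rfl | hq
    · exact he
    · exact h.2 q (List.mem_cons_of_mem _ hq)

theorem A01_isAlt_cons {s : Bool} {e : FF} {p : Bool × FF} {L : List (Bool × FF)} (h : IsAlt (p :: L))
    (hs : s ≠ p.1) (he : e ∉ Subgroup.zpowers fc) : IsAlt ((s, e) :: p :: L) := by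
  refine ⟨List.isChain_cons_cons.2 ⟨hs, h.1⟩, ?_⟩
  intro q hq
  rcases List.mem_cons.1 hq with rfl | hq
  · exact he
  · exact h.2 q hq

theorem A01_wval_cons {G : Type} [Group G] (x : Bool → FF →* G) (p : Bool × FF) (L : List (Bool × FF)) :
    wval x (p :: L) = x p.1 p.2 * wval x L := by
  simp [wval]

theorem A01_step {G : Type} [Group G] (x : Bool → FF →* G) (hx : x false fc = x true fc) (s : Bool)
    (e : FF) {g : G} (hg : A01_Nf x g) : A01_Nf x (x s e * g) := by
  rcases hg with ⟨f, hf, rfl⟩ | ⟨L, hL, hA, rfl⟩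
  · rw [A01_zpow x hx false s hf, ← map_mul]
    by_cases h : e * f ∈ Subgroup.zpowers fc
    · left
      exact ⟨e * f, h, A01_zpow x hx s false h⟩
    · right
      refine ⟨[(s, e * f)], by simp, A01_isAlt_single h, ?_⟩
      simp [wval]
  · obtain ⟨p, L, rfl⟩ := List.exists_cons_of_ne_nil hL
    rw [A01_wval_cons]
    by_cases h : e ∈ Subgroup.zpowers fc
    · -- absorb into the first factor
      right
      refine ⟨(p.1, e * p.2) :: L, by simp, A01_isAlt_replace hA ?_, ?_⟩
      · intro h'
        apply hA.2 p List.mem_cons_self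
        have := Subgroup.mul_mem _ (Subgroup.inv_mem _ h) h'
        rwa [inv_mul_cancel_left] at this
      · rw [A01_wval_cons, A01_zpow x hx s p.1 h, map_mul, mul_assoc]
    · by_cases hs : s = p.1
      · subst hs
        by_cases h2 : e * p.2 ∈ Subgroup.zpowers fc
        · -- the first factor disappears
          rcases L with _ | ⟨q, L⟩
          · left
            refine ⟨e * p.2, h2, ?_⟩
            rw [show wval x [] = 1 from rfl, mul_one, ← map_mul, A01_zpow x hx p.1 false h2]
          · right
            have hA' := A01_isAlt_tail hA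
            refine ⟨(q.1, (e * p.2) * q.2) :: L, by simp, A01_isAlt_replace hA' ?_, ?_⟩
            · intro h'
              apply hA'.2 q List.mem_cons_self
              have := Subgroup.mul_mem _ (Subgroup.inv_mem _ h2) h'
              rwa [inv_mul_cancel_left] at this
            · rw [A01_wval_cons, A01_wval_cons, ← mul_assoc, ← map_mul, A01_zpow x hx p.1 q.1 h2,
                map_mul (x q.1) (e * p.2) q.2, mul_assoc]
        · right
          refine ⟨(p.1, e * p.2) :: L, by simp, A01_isAlt_replace hA h2, ?_⟩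
          rw [A01_wval_cons, map_mul, mul_assoc]
      · right
        refine ⟨(s, e) :: p :: L, by simp, A01_isAlt_cons hA hs h, ?_⟩
        rw [A01_wval_cons, A01_wval_cons]

/-- every element is the image of a power of `c` or the value of a nonempty alternating word -/
theorem normal_form {G : Type} [Group G] (x : Bool → FF →* G) (hx : x false fc = x true fc) (g : G)
    (hg : g ∈ genBy x) :
    (∃ e ∈ Subgroup.zpowers fc, g = x false e) ∨ ∃ L, L ≠ [] ∧ IsAlt L ∧ g = wval x L := by
  have h1 : A01_Nf x 1 := Or.inl ⟨1, Subgroup.one_mem _, by simp⟩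
  refine Subgroup.closure_induction_left (p := fun g _ => A01_Nf x g) h1 ?_ ?_ hg
  · rintro a ⟨s, e, rfl⟩ b _ hb
    exact A01_step x hx s e hb
  · rintro a ⟨s, e, rfl⟩ b _ hb
    rw [← map_inv]
    exact A01_step x hx s e⁻¹ hb

end Pool.Agent.AllSurf
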