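import Pool.Agent.Lib.MP_7f477e_gt.F00

/-!
# MP_7f477e_gt, F09: suspension data from a cocompact group and an action on the line

`Γ` acts on `ℍ` (hom `a`) freely, properly discontinuously and cocompactly, and on `ℝ` by order
automorphisms commuting with `t ↦ t + 1`. The group `Γ × ℤ` (as `Γ × Multiplicative ℤ`) acts on
`ℍ × ℝ` by `(γ, n) (z, t) = (a γ z, b γ t + n)`.

* `free`: `a γ z = z` gives `γ = 1`, then `t + n = t`.
* `finite`: let `K` be compact, `K₁`, `K₂` its projections, `K₂ ⊂ [-R, R]`. There are finitely many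
  `γ` with `a γ '' K₁ ∩ K₁ ≠ ∅`; for each of them `b γ` is bounded on `[-R, R]`, so `n` is bounded.
* `cocompact`: `K × [0, 1]`: first `γ`, then `n = -⌊b γ t⌋`.
* `stab`: `(γ, n)` fixes `t` iff `b γ t + n = t`; the orbits of `stab t` on `ℍ` are the orbits of
  `{γ | ∃ n : ℤ, b γ t + n = t}`.
-/

set_option autoImplicit false

open Set Topology UpperHalfPlane
open scoped MatrixGroups

namespace Pool.Agent.AllSurf

/-- a surface group acting on the line, commuting with the unit translation -/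
structure LineData where
  Γ : Type
  grp : Group Γ
  a : Γ →* (ℍ ≃ᵢ ℍ)
  b : Γ →* (ℝ ≃o ℝ)
  orient : ∀ g : Γ, ∃ m : SL(2, ℝ), ∀ z : ℍ, a g z = m • z
  comm : ∀ (g : Γ) (t : ℝ), b g (t + 1) = b g t + 1
  free : ∀ (g : Γ) (z : ℍ), a g z = z → g = 1
  finite : ∀ K : Set ℍ, IsCompact K → {g : Γ | (a g '' K ∩ K).Nonempty}.Finite
  cocompact : ∃ K : Set ℍ, IsCompact K ∧ ∀ z : ℍ, ∃ g : Γ, a g z ∈ K

namespace LineData

variable (L : LineData)

instance : Group L.Γ := L.grp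

/-- the orbit relation on the hyperbolic plane of a subset of `Γ` (used for subgroups only) -/
def orb (B : Subgroup L.Γ) : Setoid ℍ where
  r z z' := ∃ g ∈ B, L.a g z = z'
  iseqv := {
    refl := fun z => ⟨1, B.one_mem, by rw [map_one]; rfl⟩
    symm := by
      rintro z z' ⟨g, hg, rfl⟩
      exact ⟨g⁻¹, B.inv_mem hg, by rw [map_inv]; exact (L.a g).symm_apply_apply z⟩
    trans := by
      rintro z z' z'' ⟨g, hg, rfl⟩ ⟨h, hh, rfl⟩
      exact ⟨h * g, B.mul_mem hh hg, by rw [map_mul]; rfl⟩ }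

/-- the surface `ℍ / B` -/
def quo (B : Subgroup L.Γ) : Type := Quotient (L.orb B)

instance (B : Subgroup L.Γ) : TopologicalSpace (L.quo B) :=
  inferInstanceAs (TopologicalSpace (Quotient (L.orb B)))

theorem F09_comm_nat (g : L.Γ) (t : ℝ) (n : ℕ) : L.b g (t + n) = L.b g t + n := by
  induction n with
  | zero => simp
  | succ n ih =>
    have h1 : t + ((n + 1 : ℕ) : ℝ) = (t + n) + 1 := by push_cast; ring
    rw [h1, L.comm, ih]
    push_cast
    ring

theorem F09_comm_int (g : L.Γ) (t : ℝ) (n : ℤ) : L.b g (t + n) = L.b g t + n := by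
  obtain ⟨m, rfl | rfl⟩ := n.eq_nat_or_neg
  · have h := L.F09_comm_nat g t m
    rw [Int.cast_natCast]
    exact h
  · have h := L.F09_comm_nat g (t - m) m
    rw [sub_add_cancel] at h
    rw [Int.cast_neg, Int.cast_natCast, h, ← sub_eq_add_neg]
    ring

/-- the group `Γ × ℤ` -/
abbrev F09_A : Type := L.Γ × Multiplicative ℤ

/-- the action of `Γ × ℤ` on the line -/
noncomputable def F09_b : L.F09_A →* (ℝ ≃ₜ ℝ) where
  toFun g := (L.b g.1).toHomeomorph.trans (Homeomorph.addRight ((Multiplicative.toAdd g.2 : ℤ) : ℝ))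
  map_one' := by
    ext t
    show L.b 1 t + ((0 : ℤ) : ℝ) = t
    rw [map_one, Int.cast_zero, add_zero]
    rfl
  map_mul' := by
    intro g h
    ext t
    show L.b (g.1 * h.1) t + ((Multiplicative.toAdd g.2 + Multiplicative.toAdd h.2 : ℤ) : ℝ) =
      L.b g.1 (L.b h.1 t + ((Multiplicative.toAdd h.2 : ℤ) : ℝ)) + ((Multiplicative.toAdd g.2 : ℤ) : ℝ)
    rw [L.F09_comm_int, map_mul]
    show L.b g.1 (L.b h.1 t) + _ = _
    push_cast
    ring

theorem F09_b_apply (g : L.F09_A) (t : ℝ) :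
    L.F09_b g t = L.b g.1 t + ((Multiplicative.toAdd g.2 : ℤ) : ℝ) := rfl

theorem F09_finite (K : Set (ℍ × ℝ)) (hK : IsCompact K) :
    {g : L.F09_A | ((fun x : ℍ × ℝ => (L.a g.1 x.1, L.F09_b g x.2)) '' K ∩ K).Nonempty}.Finite := by
  have hK1 : IsCompact (Prod.fst '' K) := hK.image continuous_fst
  have hK2 : IsCompact (Prod.snd '' K) := hK.image continuous_snd
  obtain ⟨R, hR⟩ := hK2.isBounded.subset_closedBall 0
  have hfin := L.finite _ hK1
  have hcov : {g : L.F09_A | ((fun x : ℍ × ℝ => (L.a g.1 x.1, L.F09_b g x.2)) '' K ∩ K).Nonempty} ⊆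
      ⋃ γ ∈ {g : L.Γ | (L.a g '' (Prod.fst '' K) ∩ (Prod.fst '' K)).Nonempty},
        (fun n : ℤ => ((γ, Multiplicative.ofAdd n) : L.F09_A)) ''
          (Set.Icc ⌈-R - L.b γ R⌉ ⌊R - L.b γ (-R)⌋) := by
    rintro ⟨γ, n⟩ ⟨w, ⟨x, hx, rfl⟩, hw⟩
    simp only [Set.mem_iUnion]
    refine ⟨γ, ⟨L.a γ x.1, ⟨x.1, ⟨x, hx, rfl⟩, rfl⟩, ⟨_, hw, rfl⟩⟩, Multiplicative.toAdd n, ?_, rfl⟩
    have h1 : x.2 ∈ Metric.closedBall (0 : ℝ) R := hR ⟨x, hx, rfl⟩
    have h2 : L.b γ x.2 + ((Multiplicative.toAdd n : ℤ) : ℝ) ∈ Metric.closedBall (0 : ℝ) R :=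
      hR ⟨_, hw, rfl⟩
    rw [Metric.mem_closedBall, Real.dist_0_eq_abs, abs_le] at h1 h2
    have h3 : L.b γ (-R) ≤ L.b γ x.2 := (L.b γ).monotone h1.1
    have h4 : L.b γ x.2 ≤ L.b γ R := (L.b γ).monotone h1.2
    constructor
    · rw [Int.ceil_le]; linarith [h2.1]
    · rw [Int.le_floor]; linarith [h2.2]
  exact (hfin.biUnion (fun γ _ => (Set.finite_Icc _ _).image _)).subset hcov

/-- the suspension data -/
noncomputable def F09_S : SuspData where
  A := L.F09_A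
  grp := inferInstance
  a := L.a.comp (MonoidHom.fst L.Γ (Multiplicative ℤ))
  b := L.F09_b
  orient := fun g => L.orient g.1
  free := by
    rintro ⟨γ, n⟩ z t h1 h2
    have hγ : γ = 1 := L.free γ z h1
    subst hγ
    have h3 : L.b 1 t + ((Multiplicative.toAdd n : ℤ) : ℝ) = t := h2
    rw [map_one] at h3
    have h4 : t + ((Multiplicative.toAdd n : ℤ) : ℝ) = t := h3
    have h5 : ((Multiplicative.toAdd n : ℤ) : ℝ) = 0 := by linarith
    have h6 : Multiplicative.toAdd n = 0 := by exact_mod_cast h5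
    have h7 : n = 1 := h6
    rw [h7]
    rfl
  finite := L.F09_finite
  cocompact := by
    obtain ⟨K, hK, hc⟩ := L.cocompact
    refine ⟨K ×ˢ Set.Icc (0 : ℝ) 1, hK.prod isCompact_Icc, ?_⟩
    rintro ⟨z, t⟩
    obtain ⟨g, hg⟩ := hc z
    refine ⟨(g, Multiplicative.ofAdd (-⌊L.b g t⌋)), hg, ?_⟩
    show L.b g t + ((-⌊L.b g t⌋ : ℤ) : ℝ) ∈ Set.Icc (0 : ℝ) 1
    push_cast
    constructor
    · linarith [Int.floor_le (L.b g t)]
    · linarith [Int.lt_floor_add_one (L.b g t)]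

theorem F09_quot {s s' : Setoid ℍ} (h : s = s') : Nonempty (Quotient s ≃ₜ Quotient s') := by
  subst h; exact ⟨Homeomorph.refl _⟩

/-- The suspension data of `L`, with all that is needed about them. -/
theorem exists_suspData : ∃ S : SuspData,
    ((∀ t : ℝ, Dense {t' : ℝ | ∃ (g : L.Γ) (n : ℤ), L.b g t + n = t'}) →
      ∀ y : ℝ, Dense {y' : ℝ | ∃ g : S.A, S.b g y = y'}) ∧
    ∀ (t : ℝ) (B : Subgroup L.Γ), (∀ g : L.Γ, g ∈ B ↔ ∃ n : ℤ, L.b g t + n = t) →
      Nonempty (S.quo (S.stab t) ≃ₜ L.quo B) := by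
  refine ⟨L.F09_S, ?_, ?_⟩
  · intro h y
    refine (h y).mono ?_
    rintro _ ⟨g, n, rfl⟩
    exact ⟨(g, Multiplicative.ofAdd n), rfl⟩
  · intro t B hB
    refine F09_quot ?_
    ext z z'
    constructor
    · rintro ⟨g, hg, hz⟩
      refine ⟨g.1, (hB _).2 ⟨Multiplicative.toAdd g.2, hg⟩, hz⟩
    · rintro ⟨g, hg, hz⟩
      obtain ⟨n, hn⟩ := (hB _).1 hg
      exact ⟨(g, Multiplicative.ofAdd n), hn, hz⟩

end LineData

end Pool.Agent.AllSurf
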