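import Pool.Agent.Lib.MP_7f477e_gt.F08
import Pool.Agent.Lib.MP_7f477e_gt.F09
import Pool.Agent.Lib.MP_7f477e_gt.A01

/-!
# MP_7f477e_gt, A02: assembly

`PlaneAction`, `LineAction` and the statements of the surface part give the final statement.
-/

set_option autoImplicit false

open Set Topology UpperHalfPlane
open scoped MatrixGroups

namespace Pool.Agent.AllSurf

section general

variable {G K : Type} [Group G] [Group K] (x : Bool → FF →* G) (r : Bool → FF →* K)

theorem A02_fst {g : G × K} (hg : g ∈ genBy (prodHom x r)) : g.1 ∈ genBy x := by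
  have h : (genBy (prodHom x r)).map (MonoidHom.fst G K) ≤ genBy x := by
    rw [genBy, MonoidHom.map_closure, Subgroup.closure_le]
    rintro _ ⟨_, ⟨s, e, rfl⟩, rfl⟩
    exact Subgroup.subset_closure ⟨s, e, rfl⟩
  exact h ⟨g, hg, rfl⟩

theorem A02_snd {g : G × K} (hg : g ∈ genBy (prodHom x r)) : g.2 ∈ genBy r := by
  have h : (genBy (prodHom x r)).map (MonoidHom.snd G K) ≤ genBy r := by
    rw [genBy, MonoidHom.map_closure, Subgroup.closure_le]
    rintro _ ⟨_, ⟨s, e, rfl⟩, rfl⟩
    exact Subgroup.subset_closure ⟨s, e, rfl⟩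
  exact h ⟨g, hg, rfl⟩

theorem A02_exists_fst {g : G} (hg : g ∈ genBy x) : ∃ g' ∈ genBy (prodHom x r), g'.1 = g := by
  have h : genBy x ≤ (genBy (prodHom x r)).map (MonoidHom.fst G K) := by
    rw [genBy, Subgroup.closure_le]
    rintro _ ⟨s, e, rfl⟩
    exact ⟨prodHom x r s e, Subgroup.subset_closure ⟨s, e, rfl⟩, rfl⟩
  exact h hg

theorem A02_exists_snd {g : K} (hg : g ∈ genBy r) : ∃ g' ∈ genBy (prodHom x r), g'.2 = g := by
  have h : genBy r ≤ (genBy (prodHom x r)).map (MonoidHom.snd G K) := by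
    rw [genBy, Subgroup.closure_le]
    rintro _ ⟨s, e, rfl⟩
    exact ⟨prodHom x r s e, Subgroup.subset_closure ⟨s, e, rfl⟩, rfl⟩
  exact h hg

theorem A02_wval (L : List (Bool × FF)) : (wval (prodHom x r) L).2 = wval r L := by
  induction L with
  | nil => rfl
  | cons p L ih => rw [A01_wval_cons, A01_wval_cons, Prod.snd_mul, ih]; rfl

/-- an alternating word without factor of the second kind has one letter -/
theorem A02_single {L : List (Bool × FF)} (hL : L ≠ []) (hA : IsAlt L) (h : ∀ p ∈ L, p.1 = false) :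
    ∃ e, L = [(false, e)] := by
  match L, hL, hA, h with
  | [p], _, _, h =>
    have := h p (by simp)
    exact ⟨p.2, by rw [← this]⟩
  | p :: q :: L, _, hA, h =>
    exfalso
    have h1 := (List.isChain_cons_cons.1 hA.1).1
    exact h1 (by rw [h p (by simp), h q (by simp)])

end general

variable (P : PlaneAction) (R : LineAction)

theorem A02_agree : twoHom R.rho R.h false fc = twoHom R.rho R.h true fc := by
  show R.rho fc = MulAut.conj R.h (R.rho fc)
  rw [MulAut.conj_apply, R.h_c, mul_inv_cancel_right]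

/-- the group of pairs -/
noncomputable def A02_Gam : Subgroup ((ℍ ≃ᵢ ℍ) × (ℝ ≃o ℝ)) :=
  genBy (prodHom (twoHom P.ga P.s4) (twoHom R.rho R.h))

theorem A02_comm {g : ℝ ≃o ℝ} (hg : g ∈ genBy (twoHom R.rho R.h)) (t : ℝ) : g (t + 1) = g t + 1 := by
  let S : Subgroup (ℝ ≃o ℝ) := {
    carrier := {g | ∀ t, g (t + 1) = g t + 1}
    one_mem' := fun t => rfl
    mul_mem' := by
      intro g g' h h' t
      show g (g' (t + 1)) = g (g' t) + 1
      rw [h', h]
    inv_mem' := by
      intro g h t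
      show g.symm (t + 1) = g.symm t + 1
      rw [OrderIso.symm_apply_eq, h, OrderIso.apply_symm_apply] }
  have h1 : R.h ∈ S := R.h_shift
  have h2 : genBy (twoHom R.rho R.h) ≤ S := by
    rw [genBy, Subgroup.closure_le]
    rintro _ ⟨s, e, rfl⟩
    have h3 : R.rho e ∈ S := R.rho_shift e
    cases s
    · exact h3
    · show MulAut.conj R.h (R.rho e) ∈ S
      rw [MulAut.conj_apply]
      exact S.mul_mem (S.mul_mem h1 h3) (S.inv_mem h1)
  exact h2 hg t

/-- the surface group with its two actions -/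
noncomputable def A02_line : LineData where
  Γ := A02_Gam P R
  grp := inferInstance
  a := (MonoidHom.fst _ _).comp (A02_Gam P R).subtype
  b := (MonoidHom.snd _ _).comp (A02_Gam P R).subtype
  orient := fun g => P.orient g.1.1 (A02_fst _ _ g.2)
  comm := fun g t => A02_comm R (A02_snd _ _ g.2) t
  free := by
    intro g z hz
    have := P.free (ℝ ≃o ℝ) inferInstance (twoHom R.rho R.h) (A02_agree R) g.1 g.2 z hz
    exact Subtype.ext this
  finite := by
    intro C hC
    have := P.finite (ℝ ≃o ℝ) inferInstance (twoHom R.rho R.h) (A02_agree R) C hC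
    refine Set.Finite.of_finite_image (f := Subtype.val) (this.subset ?_)
      Subtype.val_injective.injOn
    rintro _ ⟨g, hg, rfl⟩
    exact ⟨g.2, hg⟩
  cocompact := by
    obtain ⟨C, hC, h⟩ := P.cocompact
    refine ⟨C, hC, fun z => ?_⟩
    obtain ⟨g, hg, hz⟩ := h z
    obtain ⟨g', hg', rfl⟩ := A02_exists_fst _ (twoHom R.rho R.h) hg
    exact ⟨⟨g', hg'⟩, hz⟩

theorem A02_dense (t : ℝ) :
    Dense {t' : ℝ | ∃ (g : (A02_line P R).Γ) (n : ℤ), (A02_line P R).b g t + n = t'} := by
  rw [dense_iff_inter_open]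
  intro U hU ⟨u, hu⟩
  obtain ⟨ε, hε, hU'⟩ := Metric.isOpen_iff.1 hU u hu
  obtain ⟨g, hg, n, hn⟩ := R.dense t (u - ε) (u + ε) (by linarith)
  obtain ⟨g', hg', rfl⟩ := A02_exists_snd (twoHom P.ga P.s4) _ hg
  refine ⟨g'.2 t + n, hU' ?_, ⟨g', hg'⟩, n, rfl⟩
  rw [Metric.mem_ball, Real.dist_eq, abs_lt]
  exact ⟨by linarith [hn.1], by linarith [hn.2]⟩

/-- the embedding of `FF` -/
noncomputable def A02_emb : FF →* (A02_line P R).Γ :=
  (prodHom (twoHom P.ga P.s4) (twoHom R.rho R.h) false).codRestrict (A02_Gam P R)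
    fun e => Subgroup.subset_closure ⟨false, e, rfl⟩

theorem A02_stab (A : Set ℕ) (g : (A02_line P R).Γ) :
    g ∈ (KF A).map (A02_emb P R) ↔ ∃ n : ℤ, (A02_line P R).b g (R.point A) + n = R.point A := by
  constructor
  · rintro ⟨e, he, rfl⟩
    refine ⟨0, ?_⟩
    have h0 := (R.stab A e 0).2 ⟨rfl, he⟩
    show R.rho e (R.point A) + ((0 : ℤ) : ℝ) = R.point A
    rw [h0]; simp
  · rintro ⟨n, hn⟩
    have key : ∀ e : FF, g.1 = prodHom (twoHom P.ga P.s4) (twoHom R.rho R.h) false e →
        g ∈ (KF A).map (A02_emb P R) := by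
      intro e he
      refine ⟨e, ?_, Subtype.ext he.symm⟩
      refine ((R.stab A e (-n)).1 ?_).2
      have h1 : (A02_line P R).b g = R.rho e := by
        show g.1.2 = _
        rw [he]; rfl
      rw [h1] at hn
      push_cast
      linarith
    have hx : prodHom (twoHom P.ga P.s4) (twoHom R.rho R.h) false fc =
        prodHom (twoHom P.ga P.s4) (twoHom R.rho R.h) true fc := by
      refine Prod.ext ?_ (A02_agree R)
      show P.ga fc = MulAut.conj P.s4 (P.ga fc)
      rw [MulAut.conj_apply, P.s4_c, mul_inv_cancel_right]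
    rcases normal_form (prodHom (twoHom P.ga P.s4) (twoHom R.rho R.h)) hx g.1 g.2 with
      ⟨e, _, he⟩ | ⟨L, hL, hA, hg⟩
    · exact key e he
    · by_cases h : ∃ p ∈ L, p.1 = true
      · exfalso
        refine R.mixed A L hA h (-n) ?_
        have h1 : (A02_line P R).b g = wval (twoHom R.rho R.h) L := by
          show g.1.2 = _
          rw [hg, A02_wval]
        rw [h1] at hn
        push_cast
        linarith
      · have h' : ∀ p ∈ L, p.1 = false := by
          intro p hp
          by_contra h2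
          exact h ⟨p, hp, by simpa using h2⟩
        obtain ⟨e, rfl⟩ := A02_single hL hA h'
        refine key e ?_
        rw [hg]
        simp [wval]

theorem A02_quotHomeo {X : Type} [TopologicalSpace X] (s t : Setoid X) (h : s = t) :
    Nonempty (Quotient s ≃ₜ Quotient t) := by
  subst h; exact ⟨Homeomorph.refl _⟩

theorem A02_quo (A : Set ℕ) :
    Nonempty ((A02_line P R).quo ((KF A).map (A02_emb P R)) ≃ₜ P.quo (KF A)) := by
  refine A02_quotHomeo ((A02_line P R).orb ((KF A).map (A02_emb P R))) (P.orb (KF A)) ?_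
  ext z z'
  show (∃ g ∈ (KF A).map (A02_emb P R), (A02_line P R).a g z = z') ↔ ∃ g ∈ KF A, P.ga g z = z'
  constructor
  · rintro ⟨_, ⟨e, he, rfl⟩, h⟩
    exact ⟨e, he, h⟩
  · rintro ⟨e, he, h⟩
    exact ⟨_, ⟨e, he, rfl⟩, h⟩

/-- SURF S: every connected noncompact surface glued from polygons is the surface of a ribbon graph -/
def PolyStmt : Prop := ∀ (D : Type) (P : PolygonGluing D), Infinite D →
  ∃ (G : Type) (R : Ribbon G), Countable G ∧ Nonempty G ∧ Nonempty (P.Surface ≃ₜ R.Surface)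

/-- The assembly. -/
theorem assembly (poly : PolyStmt) (rib : RibStmt) (half : HalfStmt) (P : PlaneAction)
    (R : LineAction) : MainStmt := by
  obtain ⟨S, hd, hs⟩ := (A02_line P R).exists_suspData
  obtain ⟨M, tM, hM, F, hC, hm, hF⟩ := suspension S (hd (A02_dense P R))
  refine ⟨M, tM, hM, F, hC, hm, ?_⟩
  intro D G hD
  obtain ⟨D', Rb, hD', hD0, ⟨φ₁⟩⟩ := poly D G hD
  obtain ⟨E, oE, C, hE, ⟨φ₂⟩⟩ := rib D' Rb hD' hD0
  obtain ⟨A, ⟨φ₃⟩⟩ := half P E oE C hE
  obtain ⟨x, ⟨φ₄⟩⟩ := hF (R.point A)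
  obtain ⟨φ₅⟩ := hs (R.point A) ((KF A).map (A02_emb P R)) (A02_stab P R A)
  obtain ⟨φ₆⟩ := A02_quo P R A
  exact ⟨x, ⟨(((((φ₄.trans φ₅).trans φ₆).trans φ₃.symm).trans φ₂.symm).trans φ₁.symm)⟩⟩

end Pool.Agent.AllSurf
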