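import Pool.Agent.Lib.MP_7f477e_gt.Iface

/-!
# MP_7f477e_gt, RDefs: the interfaces E → R (`OrbitData`) and R → Q (`IntervalAction`)
-/

set_option autoImplicit false

open Set

namespace Pool.Agent.AllSurf

/-- Output of part E: the countable dense order `EE = FF · (0, r)` with its base point `e0` and the
cuts of the points `(0, y_A)`. -/
structure OrbitData where
  EE : Type
  lin : LinearOrder EE
  cnt : Countable EE
  dns : DenselyOrdered EE
  nomin : NoMinOrder EE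
  nomax : NoMaxOrder EE
  act : FF →* (EE ≃o EE)
  e0 : EE
  trans : ∀ e, ∃ g, act g e0 = e
  stab0 : ∀ g, act g e0 = e0 ↔ g ∈ Subgroup.zpowers fc
  free : ∀ e, e ≠ e0 → ∀ n : ℤ, act (fc ^ n) e = e → n = 0
  cut : Set ℕ → Set EE
  cut_lower : ∀ A e e', e' ≤ e → e ∈ cut A → e' ∈ cut A
  cut_nonempty : ∀ A, ∃ e, e ∈ cut A
  cut_compl : ∀ A, ∃ e, e ∉ cut A
  cut_nomax : ∀ A, ∀ e ∈ cut A, ∃ e' ∈ cut A, e < e'
  cut_nomin : ∀ A e, e ∉ cut A → ∃ e', e' ∉ cut A ∧ e' < e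
  cut_stab : ∀ A g, (∀ e, e ∈ cut A ↔ act g e ∈ cut A) ↔ g ∈ KF A

attribute [instance] OrbitData.lin OrbitData.cnt OrbitData.dns OrbitData.nomin OrbitData.nomax

/-- Output of part R: an action of `FF` on the line with intervals `J e = [l e, l e + w e]` in `(0,1)`,
permuted like the points of `EE`. -/
structure IntervalAction where
  EE : Type
  lin : LinearOrder EE
  dns : DenselyOrdered EE
  nomin : NoMinOrder EE
  nomax : NoMaxOrder EE
  act : FF →* (EE ≃o EE)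
  e0 : EE
  stab0 : ∀ g, act g e0 = e0 ↔ g ∈ Subgroup.zpowers fc
  l : EE → ℝ
  w : EE → ℝ
  w_pos : ∀ e, 0 < w e
  l_e0 : l e0 = 1 / 4
  w_e0 : w e0 = 1 / 2
  l_pos : ∀ e, 0 < l e
  r_lt : ∀ e, l e + w e < 1
  ord : ∀ e e', e < e' → l e + w e < l e'
  /-- every open interval inside `[0,1]` meets some `J e` -/
  meets : ∀ u v, 0 ≤ u → u < v → v ≤ 1 → ∃ e, l e < v ∧ u < l e + w e
  rho : FF →* (ℝ ≃o ℝ)
  rho_shift : ∀ (g : FF) (t : ℝ), rho g (t + 1) = rho g t + 1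
  rho_zero : ∀ g : FF, rho g 0 = 0
  rho_left : ∀ g e, rho g (l e) = l (act g e)
  rho_right : ∀ g e, rho g (l e + w e) = l (act g e) + w (act g e)
  /-- some element maps `J e0 = [1/4, 3/4]` affinely onto `J e` -/
  scale : ∀ e, ∃ g, act g e0 = e ∧ ∀ s : ℝ, 0 ≤ s → s ≤ 1 → rho g (1 / 4 + s / 2) = l e + s * w e
  h_c : ∀ t : ℝ, rho fc (t + 1 / 2) = rho fc t + 1 / 2
  point : Set ℕ → ℝ
  point_pos : ∀ A, 0 < point A
  point_lt : ∀ A, point A < 1
  point_notMem : ∀ A e, point A < l e ∨ l e + w e < point A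
  point_stab : ∀ A g, rho g (point A) = point A ↔ g ∈ KF A

attribute [instance] IntervalAction.lin IntervalAction.dns IntervalAction.nomin
  IntervalAction.nomax

end Pool.Agent.AllSurf
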