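import Pool.Agent.Lib.MP_7f477e_gt.E06
import Pool.Agent.Lib.MP_7f477e_gt.RDefs

/-!
# MP_7f477e_gt, E07: the output of part E in the form of RDefs
-/

set_option autoImplicit false

open Set

namespace Pool.Agent.AllSurf

theorem exists_orbitData : Nonempty OrbitData := by
  obtain ⟨O⟩ := exists_orbData
  letI := O.ord
  haveI := O.cnt
  haveI := O.dns
  haveI := O.nomax
  haveI := O.nomin
  refine ⟨{
    EE := O.E
    lin := O.ord
    cnt := O.cnt
    dns := O.dns
    nomin := O.nomin
    nomax := O.nomax
    act := O.act
    e0 := O.o
    trans := O.trans
    stab0 := O.stab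
    free := fun e he n hn => (O.free n e hn).resolve_right he
    cut := O.cut
    cut_lower := ?_
    cut_nonempty := O.cut_ne
    cut_compl := O.cut_ne'
    cut_nomax := O.cut_nomax
    cut_nomin := O.cut_nomin
    cut_stab := ?_ }⟩
  · intro A e e' h he
    rcases h.lt_or_eq with h | rfl
    · exact O.cut_lower A e he e' h
    · exact he
  · intro A g
    rw [← O.cut_stab A g]
    constructor
    · intro h
      ext e
      constructor
      · rintro ⟨e', he', rfl⟩
        exact (h e').1 he'
      · intro he
        refine ⟨(O.act g).symm e, ?_, OrderIso.apply_symm_apply _ e⟩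
        rw [h, OrderIso.apply_symm_apply]
        exact he
    · intro h e
      constructor
      · intro he
        rw [← h]
        exact ⟨e, he, rfl⟩
      · intro he
        rw [← h] at he
        obtain ⟨e', he', h2⟩ := he
        rwa [(O.act g).injective h2] at he'

end Pool.Agent.AllSurf
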