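import Pool.Agent.Lib.MP_7f477e_gt.Stmt

/-!
# MP_7f477e_gt: interface between the parts of the explicit construction (ALLSURF_H10.md)

Only definitions and statements. `FF` is the free group on `a`, `b`, `chord j` the universal chords,
`KF A` the subgroup generated by the chords with index in `A`. `PlaneAction` is the output of GEO
(form proposed by helper50), `LineAction` the output of DYN, `Ribbon` are ribbon graphs, `ChordDiag`
are linearly ordered sets with an involution, `TriGluing` are gluings of triangles.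
-/

set_option autoImplicit false

open Set Topology UpperHalfPlane ComplexConjugate
open scoped MatrixGroups

namespace Pool.Agent.AllSurf

/-! ### the free group on two letters and the chords -/

abbrev FF : Type := FreeGroup (Fin 2)

def fa : FF := FreeGroup.of 0
def fb : FF := FreeGroup.of 1

/-- the boundary word, `c = a b⁻¹ a⁻¹ b` -/
def fc : FF := fa * fb⁻¹ * fa⁻¹ * fb

/-- `G_L = a b⁻² a⁻¹ b²` -/
def gL : FF := fa * fb⁻¹ ^ 2 * fa⁻¹ * fb ^ 2
/-- `G_R = a⁻¹ b⁻² a⁻¹ b²` -/
def gR : FF := fa⁻¹ * fb⁻¹ ^ 2 * fa⁻¹ * fb ^ 2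

/-- binary words as elements of the free group: `false ↦ gL`, `true ↦ gR` -/
def wordG : List Bool → FF
  | [] => 1
  | false :: l => gL * wordG l
  | true :: l => gR * wordG l

/-- an enumeration of all pairs of binary words -/
noncomputable def pairE : ℕ ≃ List Bool × List Bool :=
  Classical.choice (nonempty_equiv_of_countable (α := ℕ) (β := List Bool × List Bool))

/-- the universal chords: `chord j` is `θ (x_{j+1}) = U a_{j+1} V⁻¹` with `a_n = b^n a b^-n` and
`(U, V) = pairE j` -/
noncomputable def chord (j : ℕ) : FF :=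
  wordG (pairE j).1 * fb ^ (j + 1) * fa * fb⁻¹ ^ (j + 1) * (wordG (pairE j).2)⁻¹

/-- the subgroup of the free group generated by the chords in `A` -/
noncomputable def KF (A : Set ℕ) : Subgroup FF := Subgroup.closure (chord '' A)

/-! ### alternating words in two copies of `FF` amalgamated along `c` -/

/-- `[(s₁,e₁), ..., (sₙ,eₙ)]` with `sᵢ ≠ sᵢ₊₁` and no `eᵢ` a power of `c` -/
def IsAlt (L : List (Bool × FF)) : Prop :=
  L.IsChain (fun p q => p.1 ≠ q.1) ∧ ∀ p ∈ L, p.2 ∉ Subgroup.zpowers fc

/-- the value of a word: `x s₁ e₁ * ... * x sₙ eₙ` -/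
def wval {G : Type} [Group G] (x : Bool → FF →* G) (L : List (Bool × FF)) : G :=
  (L.map fun p => x p.1 p.2).prod

/-- the subgroup generated by the two copies -/
def genBy {G : Type} [Group G] (x : Bool → FF →* G) : Subgroup G :=
  Subgroup.closure {g | ∃ s e, x s e = g}

/-- `r` and its conjugate by `h` -/
def twoHom {G : Type} [Group G] (r : FF →* G) (h : G) : Bool → FF →* G
  | false => r
  | true => (MulAut.conj h).toMonoidHom.comp r

/-- pairs of homomorphisms -/
def prodHom {G K : Type} [Group G] [Group K] (x : Bool → FF →* G) (r : Bool → FF →* K) :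
    Bool → FF →* G × K := fun s => (x s).prod (r s)

/-! ### the action on the hyperbolic plane (output of GEO) -/

/-- The action of the free group on the hyperbolic plane and the reflection `s4`, with all properties
which are needed. -/
structure PlaneAction where
  ga : FF →* (ℍ ≃ᵢ ℍ)
  s4 : ℍ ≃ᵢ ℍ
  ga_a : ∀ z : ℍ, ((ga fa z : ℍ) : ℂ) = 9 * (z : ℂ)
  ga_b : ∀ z : ℍ, ((ga fb z : ℍ) : ℂ) = (5 * (z : ℂ) - 4) / (5 - 4 * (z : ℂ))
  s4_c : s4 * ga fc = ga fc * s4
  /-- for every second coordinate, the group generated by the pairs `(ga e, r0 e)` and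
  `(s4 (ga e) s4⁻¹, r1 e)` acts freely on the plane ... -/
  free : ∀ (K : Type) (_ : Group K) (r : Bool → FF →* K), r false fc = r true fc →
    ∀ g ∈ genBy (prodHom (twoHom ga s4) r), ∀ z : ℍ, g.1 z = z → g = 1
  /-- ... properly discontinuously ... -/
  finite : ∀ (K : Type) (_ : Group K) (r : Bool → FF →* K), r false fc = r true fc →
    ∀ C : Set ℍ, IsCompact C →
      {g : (ℍ ≃ᵢ ℍ) × K | g ∈ genBy (prodHom (twoHom ga s4) r) ∧ (g.1 '' C ∩ C).Nonempty}.Finite
  /-- ... and cocompactly ... -/
  cocompact : ∃ C : Set ℍ, IsCompact C ∧ ∀ z : ℍ, ∃ g ∈ genBy (twoHom ga s4), g z ∈ C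
  /-- ... by orientation preserving isometries -/
  orient : ∀ g ∈ genBy (twoHom ga s4), ∃ m : SL(2, ℝ), ∀ z : ℍ, g z = m • z
  /-- a compact set meets finitely many translates of the line `|z| = 3` (used for H) -/
  lines_finite : ∀ C : Set ℍ, IsCompact C →
    {e : FF | (ga e '' {z : ℍ | ‖(z : ℂ)‖ = 3} ∩ C).Nonempty}.Finite

namespace PlaneAction

variable (P : PlaneAction)

/-- the orbit relation of a subgroup of the free group -/
def orb (B : Subgroup FF) : Setoid ℍ where
  r z z' := ∃ g ∈ B, P.ga g z = z'
  iseqv := {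
    refl := fun z => ⟨1, B.one_mem, by rw [map_one]; rfl⟩
    symm := by
      rintro z z' ⟨g, hg, rfl⟩
      exact ⟨g⁻¹, B.inv_mem hg, by rw [map_inv]; exact (P.ga g).symm_apply_apply z⟩
    trans := by
      rintro z z' z'' ⟨g, hg, rfl⟩ ⟨h, hh, rfl⟩
      exact ⟨h * g, B.mul_mem hh hg, by rw [map_mul]; rfl⟩ }

/-- the surface `ℍ / B` -/
def quo (B : Subgroup FF) : Type := Quotient (P.orb B)

instance (B : Subgroup FF) : TopologicalSpace (P.quo B) :=
  inferInstanceAs (TopologicalSpace (Quotient (P.orb B)))

end PlaneAction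

/-! ### the action on the line (output of DYN) -/

/-- The action of the free group on the line and the translation `h`, with all properties needed. -/
structure LineAction where
  rho : FF →* (ℝ ≃o ℝ)
  h : ℝ ≃o ℝ
  rho_shift : ∀ (e : FF) (t : ℝ), rho e (t + 1) = rho e t + 1
  h_shift : ∀ t : ℝ, h (t + 1) = h t + 1
  h_c : h * rho fc = rho fc * h
  /-- Q2: all orbits are dense modulo 1 -/
  dense : ∀ t u v : ℝ, u < v → ∃ g ∈ genBy (twoHom rho h), ∃ n : ℤ, g t + n ∈ Set.Ioo u v
  point : Set ℕ → ℝ
  /-- R4, E3, E5: the stabilisers in the free group -/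
  stab : ∀ (A : Set ℕ) (e : FF) (n : ℤ), rho e (point A) = point A + n ↔ (n = 0 ∧ e ∈ KF A)
  /-- Q1: alternating words with a factor of the second kind move the points -/
  mixed : ∀ (A : Set ℕ) (L : List (Bool × FF)), IsAlt L → (∃ p ∈ L, p.1 = true) →
    ∀ n : ℤ, wval (twoHom rho h) L (point A) ≠ point A + n

/-! ### ribbon graphs -/

/-- A ribbon graph: `D` is the set of half edges, `nu` the next half edge at the same vertex
(counterclockwise), `al` the other half of the edge. -/
structure Ribbon (D : Type) where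
  nu : Equiv.Perm D
  al : Equiv.Perm D
  al_al : ∀ d, al (al d) = d
  al_ne : ∀ d, al d ≠ d
  vertex_finite : ∀ d, ∃ n : ℕ, 0 < n ∧ (nu ^ n) d = d
  connected : ∀ d e, ∃ g ∈ Subgroup.closure {nu, al}, g d = e

/-- the strip `[0,1] × [0,1)` -/
abbrev Strip : Type := unitInterval × Set.Ico (0 : ℝ) 1

/-- the bottom point -/
def u0 : Set.Ico (0 : ℝ) 1 := ⟨0, by norm_num⟩

namespace Ribbon

variable {D : Type} (R : Ribbon D)

/-- The gluing of the strips. The strip `(d, true)` is on the left of the half edge `d`, the strip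
`(d, false)` on its right; the first coordinate is the position on the half edge (`0` the vertex,
`1` the middle of the edge), the second coordinate goes away from the graph. -/
inductive Rel : D × Bool × Strip → D × Bool × Strip → Prop
  | edge (d : D) (s : unitInterval) : Rel (d, true, (s, u0)) (d, false, (s, u0))
  | corner (d : D) (u : Set.Ico (0 : ℝ) 1) : Rel (d, true, (0, u)) (R.nu d, false, (0, u))
  | mid (d : D) (u : Set.Ico (0 : ℝ) 1) : Rel (d, true, (1, u)) (R.al d, false, (1, u))

/-- The open surface of a ribbon graph. -/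
def Surface : Type := Quot R.Rel

instance : TopologicalSpace R.Surface :=
  @instTopologicalSpaceQuot (D × Bool × Strip) R.Rel
    (@instTopologicalSpaceProd D (Bool × Strip) ⊥ inferInstance)

end Ribbon

/-! ### chord diagrams -/

/-- A chord diagram: a linearly ordered set with an involution without fixed points, and weights. -/
structure ChordDiag (E : Type) [LinearOrder E] where
  inv : E → E
  inv_inv : ∀ d, inv (inv d) = d
  inv_ne : ∀ d, inv d ≠ d
  wt : E → ℝ
  wt_pos : ∀ d, 0 < wt d
  wt_summable : Summable wt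

namespace ChordDiag

variable {E : Type} [LinearOrder E] (C : ChordDiag E)

/-- left end point of the interval of `d` -/
noncomputable def left (d : E) : ℝ := ∑' e : {e : E // e < d}, C.wt e

/-- the open upper half plane with the open intervals `(left d, left d + wt d)` added -/
def Dom : Type := {p : ℝ × ℝ // 0 ≤ p.2 ∧ (p.2 = 0 → ∃ d, C.left d < p.1 ∧ p.1 < C.left d + C.wt d)}

instance : TopologicalSpace C.Dom := instTopologicalSpaceSubtype

/-- the point of the interval of `d` with relative position `t` -/
noncomputable def bd (d : E) (t : Set.Ioo (0 : ℝ) 1) : C.Dom :=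
  ⟨(C.left d + t.1 * C.wt d, 0), le_refl _, fun _ => ⟨d, by
    have := C.wt_pos d
    have h1 := t.2.1
    have h2 := t.2.2
    constructor <;> dsimp only <;> nlinarith⟩⟩

/-- the interval of `d` is glued to the interval of `inv d`, reversing the direction -/
inductive Rel : C.Dom → C.Dom → Prop
  | glue (d : E) (t t' : Set.Ioo (0 : ℝ) 1) (h : t.1 + t'.1 = 1) : Rel (C.bd d t) (C.bd (C.inv d) t')

/-- the surface of the chord diagram -/
def Surface : Type := Quot C.Rel

instance : TopologicalSpace C.Surface := inferInstanceAs (TopologicalSpace (Quot C.Rel))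

end ChordDiag

/-! ### gluings of triangles (to be moved to Stmt.lean) -/

/-- A gluing of oriented triangles with vertices `0, 1, 2` (counterclockwise); side `i` goes from
vertex `i` to vertex `i + 1`; side `(t, i)` is glued to side `al (t, i)`, reversing the direction.
`next (t, i) = al (t, i + 2)` is the side which starts at the same vertex of the surface, the next one
counterclockwise: the sides starting at a vertex form a finite cycle. -/
structure TriGluing (T : Type) where
  al : Equiv.Perm (T × Fin 3)
  al_al : ∀ d, al (al d) = d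
  al_ne : ∀ d, al d ≠ d
  vertex_finite : ∀ d : T × Fin 3, ∃ n : ℕ, 0 < n ∧ ((fun e : T × Fin 3 => al (e.1, e.2 + 2))^[n]) d = d
  connected : ∀ t t' : T, Relation.ReflTransGen (fun x y => ∃ i j, al (x, i) = (y, j)) t t'

namespace TriGluing

variable {T : Type} (G : TriGluing T)

/-- the closed triangle, barycentric coordinates -/
abbrev Tri : Type := stdSimplex ℝ (Fin 3)

/-- side `i` of the triangle `t` (where the coordinate `i + 2` vanishes) is glued to the side `j` of the
triangle `t'` -/
inductive Rel : T × Tri → T × Tri → Prop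
  | glue (t : T) (i : Fin 3) (t' : T) (j : Fin 3) (x y : Tri) (h : G.al (t, i) = (t', j))
      (hx : x.1 (i + 2) = 0) (hy : y.1 (j + 2) = 0) (h0 : y.1 j = x.1 (i + 1))
      (h1 : y.1 (j + 1) = x.1 i) : Rel (t, x) (t', y)

/-- the surface -/
def Surface : Type := Quot G.Rel

instance : TopologicalSpace G.Surface :=
  @instTopologicalSpaceQuot (T × Tri) G.Rel (@instTopologicalSpaceProd T Tri ⊥ inferInstance)

end TriGluing

/-! ### the statements of the parts -/

/-- U1: the order lemma. `J` is an open interval (in the uses: `univ` or `Ioo 0 1`), the intervals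
`Ioo (lo d) (hi d)` are disjoint and ordered by `E`. -/
def OrderLemma : Prop := ∀ (E : Type) (_ : LinearOrder E) (C : ChordDiag E)
  (J : Set ℝ) (g : ℝ → ℝ) (lo hi : E → ℝ) (k : E → ℝ → ℝ),
  IsOpen J → StrictMonoOn g J → ContinuousOn g J → g '' J = univ →
  (∀ d, lo d < hi d) → (∀ d, Ioo (lo d) (hi d) ⊆ J) → (∀ d d', d < d' → hi d ≤ lo d') →
  (∀ d, StrictMonoOn (k d) (Ioo (lo d) (hi d)) ∧ k d '' Ioo (lo d) (hi d) = Ioo 0 1) →
  ∃ Φ : {p : ℝ × ℝ // p.1 ∈ J ∧ 0 ≤ p.2 ∧ (p.2 = 0 → ∃ d, p.1 ∈ Ioo (lo d) (hi d))} ≃ₜ C.Dom,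
    ∀ p d, p.1.2 = 0 → p.1.1 ∈ Ioo (lo d) (hi d) →
      (Φ p).1 = (C.left d + k d p.1.1 * C.wt d, 0)

/-- SURF S: faces of a triangulated noncompact surface can be moved to infinity -/
def TriStmt : Prop := ∀ (T : Type) (G : TriGluing T), Infinite T →
  ∃ (D : Type) (R : Ribbon D), Countable D ∧ Nonempty D ∧ Nonempty (G.Surface ≃ₜ R.Surface)

/-- SURF T: every ribbon surface is the surface of a chord diagram -/
def RibStmt : Prop := ∀ (D : Type) (R : Ribbon D), Countable D → Nonempty D →
  ∃ (E : Type) (_ : LinearOrder E) (C : ChordDiag E), Countable E ∧ Nonempty (R.Surface ≃ₜ C.Surface)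

/-- SURF H: every surface of a countable chord diagram is `ℍ / KF A` for some `A` -/
def HalfStmt : Prop := ∀ (P : PlaneAction) (E : Type) (_ : LinearOrder E) (C : ChordDiag E), Countable E →
  ∃ A : Set ℕ, Nonempty (C.Surface ≃ₜ P.quo (KF A))

/-- the final statement, for triangles -/
def TriMainStmt : Prop :=
  ∃ (M : Type) (_ : TopologicalSpace M), ClosedThreeManifold M ∧
    ∃ F : HypFoliation M, F.Complete ∧ F.Minimal ∧
      ∀ (T : Type) (G : TriGluing T), Infinite T → ∃ x : M, Nonempty (F.Leaf x ≃ₜ G.Surface)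

end Pool.Agent.AllSurf
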