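import Pool.Agent.Lib.MP_7f477e_gt.G10
import Pool.Agent.Lib.MP_7f477e_gt.Iface

/-!
G11: part GEO is complete: the structure PlaneAction of the interface is inhabited.
-/

open UpperHalfPlane
open scoped MatrixGroups

namespace Pool.Agent.AllSurf.Geo

theorem fc_eq_u : (fc : FF) = u := by decide

/-- A point within distance 1/2 of side pos y is not beyond another even side. -/
theorem near_side {y y' : Letter} (hne : y' ≠ y) {z w : ℍ} (hz : B (X z) (ev (pos y)) = 0)
    (hd : dist z w < 1 / 2) : B (X w) (ev (pos y')) < 0 := by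
  by_contra hc
  push Not at hc
  have h1 := far_pos hne z
  rw [hz] at h1
  have hn : B (-ev (pos y')) (-ev (pos y')) = 1 := by
    have := ev_unit (pos y')
    simp only [B, Prod.fst_neg, Prod.snd_neg] at this ⊢
    linarith
  have e1 : ∀ x : ℍ, B (X x) (-ev (pos y')) = -B (X x) (ev (pos y')) := by
    intro x
    simp only [B, Prod.fst_neg, Prod.snd_neg]
    ring
  have h2 := lip hn (z := w) (w := z) (by rw [e1]; linarith) (by rw [e1]; linarith)
  rw [e1] at h2
  have h3 : Real.sinh (dist w z) < Real.sinh (1 / 2) := Real.sinh_lt_sinh.2 (by rw [dist_comm]; exact hd)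
  have h4 := sinh_half_lt
  linarith

theorem near_R0 {y : Letter} {z w : ℍ} (hz : B (X z) (ev (pos y)) = 0)
    (hd : dist z w < 1 / 2) (hw : B (X w) (ev (pos y)) ≤ 0) : w ∈ R0 := by
  intro y'
  rcases eq_or_ne y' y with rfl | hne
  · exact hw
  · exact (near_side hne hz hd).le

theorem side_R0 {y : Letter} {z : ℍ} (hz : B (X z) (ev (pos y)) = 0) : z ∈ R0 :=
  near_R0 hz (by rw [dist_self]; norm_num) hz.le

/-- The side line of the letter a: |z| = 3. -/
theorem side_iff (z : ℍ) : ‖(z : ℂ)‖ = 3 ↔ B (X z) (ev 0) = 0 := by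
  have hy : 0 < z.im := z.im_pos
  have hev : ev 0 = (4 / 3, 5 / 3, 0) := by
    have hv : (0 : ZMod 8).val = 0 := rfl
    have hn : nv 0 = 3 := by simp [nv]
    unfold ev
    rw [hn]
    have hz : iz 0 = (4, 5, 0) := rfl
    ext <;> simp [iv, hz] <;> ring
  have hnorm : ‖(z : ℂ)‖ ^ 2 = z.re ^ 2 + z.im ^ 2 := by
    rw [Complex.sq_norm, Complex.normSq_apply]
    simp only [UpperHalfPlane.coe_re, UpperHalfPlane.coe_im]
    ring
  have h1 : B (X z) (ev 0) = (‖(z : ℂ)‖ ^ 2 - 9) / (6 * z.im) := by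
    rw [hev, hnorm]
    simp only [B, X]
    field_simp
    ring
  rw [h1, div_eq_zero_iff]
  constructor
  · intro h
    left; rw [h]; norm_num
  · rintro (h | h)
    · have h2 : ‖(z : ℂ)‖ ^ 2 = 3 ^ 2 := by linarith
      exact (pow_left_inj₀ (norm_nonneg _) (by norm_num) two_ne_zero).1 h2
    · exfalso
      have : 6 * z.im ≠ 0 := by positivity
      exact this h

/-- If two translates of side 0 are closer than 1/2 somewhere, they are equal. -/
theorem sep_aux {g : E} {z w : ℍ} (hz : B (X z) (ev 0) = 0) (hw : B (X w) (ev 0) = 0)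
    (hd : dist z (ga g w) < 1 / 2) : g = 1 := by
  have p0 : pos (0, true) = 0 := rfl
  have p4 : pos (0, false) = 4 := rfl
  rw [← p0] at hz hw
  have hwR := side_R0 hw
  rcases le_or_gt (B (X (ga g w)) (ev (pos (0, true)))) 0 with h0 | h0
  · have h1 := near_R0 hz hd h0
    rcases tile_inter hwR h1 with h2 | ⟨y, rfl, h3⟩
    · exact h2
    · exfalso
      rcases eq_or_ne y (0, true) with rfl | hne
      · rw [ga_lt] at h0
        rw [B_G_pos] at h0
        have h4 := far_pos (bar_ne (0, true)) w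
        rw [hw] at h4
        linarith
      · have := near_side hne hz hd
        linarith
  · exfalso
    have hz1 : B (X (G (0, false) z)) (ev (pos (0, false))) = 0 := by
      rw [B_G_pos]
      change -B (X z) (ev (pos (0, true))) = 0
      rw [hz]; norm_num
    have hw1 : B (X (G (0, false) (ga g w))) (ev (pos (0, false))) < 0 := by
      rw [B_G_pos]
      change -B (X (ga g w)) (ev (pos (0, true))) < 0
      linarith
    have hd1 : dist (G (0, false) z) (G (0, false) (ga g w)) < 1 / 2 := by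
      rw [(G (0, false)).isometry.dist_eq]; exact hd
    have h1 := near_R0 hz1 hd1 hw1.le
    have h2 : G (0, false) (ga g w) = ga (lt (0, false) * g) w := by
      rw [map_mul, ga_lt]; rfl
    rw [h2] at h1 hw1 hd1
    rcases tile_inter hwR h1 with h3 | ⟨y, h3, h4⟩
    · rw [h3, map_one] at hd1
      have h5 := near_side (y' := (0, true)) (y := (0, false)) (by decide) hz1 hd1
      change B (X w) (ev (pos (0, true))) < 0 at h5
      linarith
    · rcases eq_or_ne y (0, false) with rfl | hne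
      · linarith
      · have := near_side hne hz1 hd1
        linarith

theorem separated : ∀ e e' : FF,
    ga e '' {z : ℍ | ‖(z : ℂ)‖ = 3} ≠ ga e' '' {z : ℍ | ‖(z : ℂ)‖ = 3} →
    ∀ z ∈ ga e '' {z : ℍ | ‖(z : ℂ)‖ = 3}, ∀ z' ∈ ga e' '' {z : ℍ | ‖(z : ℂ)‖ = 3}, (1 / 2 : ℝ) ≤ dist z z' := by
  rintro e e' hne _ ⟨z, hz, rfl⟩ _ ⟨w, hw, rfl⟩
  by_contra hc
  push Not at hc
  apply hne
  have h1 : dist z (ga (e⁻¹ * e') w) < 1 / 2 := by
    have h2 : ga e (ga (e⁻¹ * e') w) = ga e' w := by
      have h3 : ga e * ga (e⁻¹ * e') = ga e' := by rw [← map_mul, mul_inv_cancel_left]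
      rw [← h3]; rfl
    rw [← (ga e).isometry.dist_eq, h2]
    exact hc
  have h2 := sep_aux ((side_iff z).1 hz) ((side_iff w).1 hw) h1
  have h3 : e = e' := by
    rw [inv_mul_eq_one] at h2; exact h2
  rw [h3]

/-- A compact set meets finitely many translates of side 0. -/
theorem lines_finite (C : Set ℍ) (hC : IsCompact C) :
    {e : FF | (ga e '' {z : ℍ | ‖(z : ℂ)‖ = 3} ∩ C).Nonempty}.Finite := by
  obtain ⟨t, ht, hcov⟩ := Metric.totallyBounded_iff.1 hC.totallyBounded (1 / 4) (by norm_num)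
  have hmem : ∀ e ∈ {e : FF | (ga e '' {z : ℍ | ‖(z : ℂ)‖ = 3} ∩ C).Nonempty}, ∃ y, y ∈ t ∧ ∃ z : ℍ,
      ‖(z : ℂ)‖ = 3 ∧ dist (ga e z) y < 1 / 4 := by
    rintro e ⟨_, ⟨z, hz, rfl⟩, hzC⟩
    have h2 := hcov hzC
    simp only [Set.mem_iUnion] at h2
    obtain ⟨y, hy, h3⟩ := h2
    exact ⟨y, hy, z, hz, h3⟩
  choose! f hf using hmem
  refine Set.Finite.of_injOn (f := f) (t := t) (fun a ha => (hf a ha).1) ?_ ht
  intro e he e' he' hee
  obtain ⟨-, z, hz, hd⟩ := hf e he
  obtain ⟨-, w, hw, hd'⟩ := hf e' he'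
  rw [← hee] at hd'
  have h1 : dist (ga e z) (ga e' w) < 1 / 2 := by
    have := dist_triangle_right (ga e z) (ga e' w) (f e)
    linarith
  have h2 : dist z (ga (e⁻¹ * e') w) < 1 / 2 := by
    have h2 : ga e (ga (e⁻¹ * e') w) = ga e' w := by
      have h3 : ga e * ga (e⁻¹ * e') = ga e' := by rw [← map_mul, mul_inv_cancel_left]
      rw [← h3]; rfl
    rw [← (ga e).isometry.dist_eq, h2]
    exact h1
  have h3 := sep_aux ((side_iff z).1 hz) ((side_iff w).1 hw) h2
  rw [inv_mul_eq_one] at h3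
  exact h3

theorem mem_genBy_iff {K : Type} [Group K] (r : Bool → FF →* K) (g : (ℍ ≃ᵢ ℍ) × K) :
    g ∈ genBy (prodHom (twoHom ga cc) r) ↔ g ∈ AA (r false) (r true) := by
  have h : genBy (prodHom (twoHom ga cc) r) = AA (r false) (r true) := by
    apply le_antisymm
    · rw [genBy, Subgroup.closure_le]
      rintro _ ⟨s, e, rfl⟩
      cases s
      · exact g0_mem (r false) (r true) e
      · exact g1_mem (r false) (r true) e
    · rw [AA, sup_le_iff]
      constructor
      · rintro _ ⟨e, rfl⟩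
        exact Subgroup.subset_closure ⟨false, e, rfl⟩
      · rintro _ ⟨e, rfl⟩
        exact Subgroup.subset_closure ⟨true, e, rfl⟩
  rw [h]

theorem mem_genBy_iff' (g : ℍ ≃ᵢ ℍ) : g ∈ genBy (twoHom ga cc) ↔ g ∈ A1 := by
  have h : genBy (twoHom ga cc) = A1 := by
    apply le_antisymm
    · rw [genBy, Subgroup.closure_le]
      rintro _ ⟨s, e, rfl⟩
      cases s
      · exact ga_mem_A1 e
      · exact gac_mem_A1 e
    · rw [A1, sup_le_iff]
      constructor
      · rintro _ ⟨e, rfl⟩
        exact Subgroup.subset_closure ⟨false, e, rfl⟩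
      · rintro _ ⟨e, rfl⟩
        exact Subgroup.subset_closure ⟨true, e, rfl⟩
  rw [h]

/-- Output of part GEO. -/
noncomputable def planeAction : PlaneAction where
  ga := ga
  s4 := cc
  ga_a := ga_a
  ga_b := ga_b
  s4_c := by
    rw [fc_eq_u]
    exact refl_u
  free := by
    intro K _ r hr g hg z hz
    rw [fc_eq_u] at hr
    exact AA_free hr ((mem_genBy_iff r g).1 hg) hz
  finite := by
    intro K _ r hr C hC
    rw [fc_eq_u] at hr
    refine (AA_proper hr hC hC).subset ?_
    rintro g ⟨hg, _, ⟨x, hx, rfl⟩, hgx⟩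
    exact ⟨(mem_genBy_iff r g).1 hg, x, hx, hgx⟩
  cocompact := by
    obtain ⟨F, hF, h⟩ := AA_cocompact (K := Unit) 1 1
    refine ⟨F, hF, fun z => ?_⟩
    obtain ⟨a, ha, x, hx, rfl⟩ := h z
    refine ⟨a.1⁻¹, (mem_genBy_iff' _).2 (inv_mem (AA_fst _ _ ha)), ?_⟩
    have : a.1⁻¹ (a.1 x) = x := by
      change (a.1⁻¹ * a.1) x = x
      rw [inv_mul_cancel]; rfl
    rw [this]; exact hx
  orient := by
    intro g hg
    exact A1_le_Or ((mem_genBy_iff' g).1 hg)
  lines_finite := lines_finite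

theorem nonempty_planeAction : Nonempty PlaneAction := ⟨planeAction⟩

end Pool.Agent.AllSurf.Geo
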