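import Mathlib

/-!
# MP_7f477e_gt, U00: chord surfaces

`E` is a countable linear order (the legs), `inv` a fixed point free involution, `w` summable
positive weights. The slots `(kap d, kap d + w d)` are disjoint open intervals of the real line in
the order of `E`. The chord surface is the set of `(x, y)` with `y > 0`, or `y = 0` and `x` in a slot,
where the slot of `d` is glued to the slot of `inv d`, reversing the direction.
-/

set_option autoImplicit false

open Set Topology

namespace Pool.Agent.AllSurf

/-- a chord system on a linear order -/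
structure Chords (E : Type) [LinearOrder E] where
  inv : E → E
  inv_inv : ∀ d, inv (inv d) = d
  inv_ne : ∀ d, inv d ≠ d
  w : E → ℝ
  w_pos : ∀ d, 0 < w d
  w_sum : Summable w

namespace Chords

variable {E : Type} [LinearOrder E] (C : Chords E)

/-- left end of the slot of `d` -/
noncomputable def kap (d : E) : ℝ := ∑' e, if e < d then C.w e else 0

/-- the closed half plane without the complement of the slots on its boundary line -/
def Base : Type := {p : ℝ × ℝ // 0 ≤ p.2 ∧ (0 < p.2 ∨ ∃ d, p.1 ∈ Ioo (C.kap d) (C.kap d + C.w d))}

instance : TopologicalSpace C.Base := instTopologicalSpaceSubtype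

/-- gluing of the slot of `d` to the slot of `inv d` -/
inductive Glue : C.Base → C.Base → Prop
  | mk (d : E) (s : ℝ) (h0 : 0 < s) (h1 : s < 1) (p p' : C.Base)
      (hp : p.1 = (C.kap d + C.w d * s, 0))
      (hp' : p'.1 = (C.kap (C.inv d) + C.w (C.inv d) * (1 - s), 0)) : Glue p p'

/-- the chord surface -/
def Surf : Type := Quot C.Glue

instance : TopologicalSpace C.Surf := instTopologicalSpaceQuot

end Chords

/-- Slots in general position: disjoint open intervals `(l d, r d)` in the order of `E`, glued by
decreasing bijections `f d : (l d, r d) → (l (inv d), r (inv d))`, `f (inv d) = (f d)⁻¹`. -/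
structure Slots {E : Type} [LinearOrder E] (C : Chords E) where
  l : E → ℝ
  r : E → ℝ
  lt : ∀ d, l d < r d
  sep : ∀ d e, d < e → r d ≤ l e
  f : E → ℝ → ℝ
  maps : ∀ d x, x ∈ Ioo (l d) (r d) → f d x ∈ Ioo (l (C.inv d)) (r (C.inv d))
  finv : ∀ d x, x ∈ Ioo (l d) (r d) → f (C.inv d) (f d x) = x
  anti : ∀ d, StrictAntiOn (f d) (Ioo (l d) (r d))

namespace Slots

variable {E : Type} [LinearOrder E] {C : Chords E} (S : Slots C)

/-- the closed half plane without the complement of the slots on its boundary line -/
def Base : Type := {p : ℝ × ℝ // 0 ≤ p.2 ∧ (0 < p.2 ∨ ∃ d, p.1 ∈ Ioo (S.l d) (S.r d))}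

instance : TopologicalSpace S.Base := instTopologicalSpaceSubtype

/-- gluing of the slots -/
inductive Glue : S.Base → S.Base → Prop
  | mk (d : E) (x : ℝ) (hx : x ∈ Ioo (S.l d) (S.r d)) (p p' : S.Base)
      (hp : p.1 = (x, 0)) (hp' : p'.1 = (S.f d x, 0)) : Glue p p'

/-- the glued surface -/
def Surf : Type := Quot S.Glue

instance : TopologicalSpace S.Surf := instTopologicalSpaceQuot

end Slots

end Pool.Agent.AllSurf
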