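import Pool.Agent.Lib.MP_7f477e_gt.U06
import Pool.Agent.Lib.MP_7f477e_gt.U00

/-!
# MP_7f477e_gt, U07: `Chords` (U00) and `ChordDiag` (Iface)

The two definitions are the same up to the form of the conditions.
-/

set_option autoImplicit false

open Set Topology

namespace Pool.Agent.AllSurf

/-- a chord diagram as a chord system -/
def ChordDiag.toChords {E : Type} [LinearOrder E] (C : ChordDiag E) : Chords E where
  inv := C.inv
  inv_inv := C.inv_inv
  inv_ne := C.inv_ne
  w := C.wt
  w_pos := C.wt_pos
  w_sum := C.wt_summable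

theorem U07_quot_homeo {X Y : Type} [TopologicalSpace X] [TopologicalSpace Y] (e : X ≃ₜ Y)
    (r : X → X → Prop) (s : Y → Y → Prop) (h : ∀ x x', r x x' ↔ s (e x) (e x')) :
    Nonempty (Quot r ≃ₜ Quot s) := by
  refine ⟨{ toEquiv := Quot.congr e.toEquiv h, continuous_toFun := ?_, continuous_invFun := ?_ }⟩
  · refine continuous_quot_lift _ ?_
    exact continuous_quot_mk.comp e.continuous
  · refine continuous_quot_lift _ ?_
    exact continuous_quot_mk.comp e.symm.continuous

theorem U07_kap {E : Type} [LinearOrder E] (C : ChordDiag E) (d : E) :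
    C.toChords.kap d = C.left d := (left_eq C d).symm

/-- the two half planes with slots are the same set -/
def U07_base {E : Type} [LinearOrder E] (C : ChordDiag E) : C.toChords.Base ≃ₜ C.Dom where
  toFun p := ⟨p.1, p.2.1, fun h => by
    rcases p.2.2 with h' | ⟨d, hd⟩
    · exact absurd h h'.ne'
    · refine ⟨d, ?_⟩
      rw [U07_kap] at hd
      exact hd⟩
  invFun p := ⟨p.1, p.2.1, by
    rcases eq_or_lt_of_le p.2.1 with h | h
    · obtain ⟨d, hd⟩ := p.2.2 h.symm
      refine Or.inr ⟨d, ?_⟩
      rw [U07_kap]
      exact hd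
    · exact Or.inl h⟩
  left_inv p := rfl
  right_inv p := rfl
  continuous_toFun := Continuous.subtype_mk continuous_subtype_val _
  continuous_invFun := Continuous.subtype_mk continuous_subtype_val _

theorem toChords_surf {E : Type} [LinearOrder E] (C : ChordDiag E) :
    Nonempty (C.toChords.Surf ≃ₜ C.Surface) := by
  refine U07_quot_homeo (U07_base C) _ _ (fun x x' => ?_)
  constructor
  · rintro ⟨d, s, h0, h1, _, _, hp, hp'⟩
    have e1 : U07_base C x = C.bd d ⟨s, h0, h1⟩ := by
      apply Subtype.ext
      show x.1 = (C.left d + s * C.wt d, 0)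
      rw [hp, U07_kap, mul_comm s]
      rfl
    have e2 : U07_base C x' = C.bd (C.inv d) ⟨1 - s, by linarith, by linarith⟩ := by
      apply Subtype.ext
      show x'.1 = (C.left (C.inv d) + (1 - s) * C.wt (C.inv d), 0)
      rw [hp', mul_comm (1 - s), ← U07_kap]
      rfl
    rw [e1, e2]
    exact ChordDiag.Rel.glue d _ _ (by show s + (1 - s) = 1; ring)
  · intro h
    generalize hx : U07_base C x = y at h
    generalize hx' : U07_base C x' = y' at h
    cases h with
    | glue d t t' htt =>
      have f1 : x.1 = (C.left d + t.1 * C.wt d, 0) := congrArg Subtype.val hx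
      have f2 : x'.1 = (C.left (C.inv d) + t'.1 * C.wt (C.inv d), 0) := congrArg Subtype.val hx'
      refine Chords.Glue.mk d t.1 t.2.1 t.2.2 x x' ?_ ?_
      · rw [f1, U07_kap, mul_comm t.1]
        rfl
      · have : t'.1 = 1 - t.1 := by linarith
        rw [f2, this, mul_comm (1 - t.1), ← U07_kap]
        rfl

end Pool.Agent.AllSurf
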