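import Pool.Agent.Lib.MP_7f477e_gt.H11
import Pool.Agent.Lib.MP_7f477e_gt.U07

/-!
# MP_7f477e_gt, H12: every chord surface is a quotient `ℍ / KF A`

* `summable_len`: disjoint intervals in `[-3, 3]` have a summable length
  (`summable_of_sum_le`, `Finset.induction_on_max`: the sum over `s` is at most `hiC (max s) + 3`);
* `schottkyOf`: the Schottky system (`disj`: `Qd p q z ≤ 0` implies `p < z.re < q`; `base`: the point `4 i`,
  `Qd p q (4 i) = p q + 16 > 0`; `p0 = 3 i`);
* `K_eq`: for `A = range idxC` the group generated by the `gdC d` is `b² (KF A) b⁻²`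
  (`gdC d = b² * chord (idxC d) * b⁻²` for `d < inv d`, since `pairE (idxC d) = (ι d, ι (inv d))`);
* the final statement: `chord_homeo` (H05) for `C.toChords`, `c = (loC + hiC) / 2`, `ρ = (hiC - loC) / 2`,
  `toChords_surf` (U07), and the homeomorphism `z ↦ b² z` of `ℍ`.
-/

set_option autoImplicit false

open Set Topology UpperHalfPlane

namespace Pool.Agent.AllSurf

theorem summable_len {E : Type} [LinearOrder E] (l r : E → ℝ) (hlr : ∀ d, l d < r d)
    (hsep : ∀ d e, d < e → r d < l e) (hl : ∀ d, l d ∈ Icc (-3 : ℝ) 3) (hr : ∀ d, r d ∈ Icc (-3 : ℝ) 3) :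
    Summable (fun d => r d - l d) := by
  have key : ∀ s : Finset E, ∀ x : ℝ, -3 ≤ x → (∀ d ∈ s, r d ≤ x) →
      ∑ d ∈ s, (r d - l d) ≤ x + 3 := by
    intro s
    refine Finset.induction_on_max s ?_ ?_
    · intro x hx _; simp; linarith
    · intro a s ha ih
      intro x hx h
      have ha' : a ∉ s := fun h => lt_irrefl _ (ha a h)
      rw [Finset.sum_insert ha']
      have h1 := ih (l a) (hl a).1 (fun d hd => (hsep d a (ha d hd)).le)
      have h2 := h a (Finset.mem_insert_self _ _)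
      linarith
  apply summable_of_sum_le (c := 6)
  · intro d
    have := hlr d
    simp only [Pi.zero_apply]
    linarith
  · intro s
    have := key s 3 (by norm_num) (fun d _ => (hr d).2)
    linarith

theorem continuous_Qd (p q : ℝ) : Continuous (Qd p q) := by
  unfold Qd
  have h1 : Continuous (fun z : ℍ => z.re) := UpperHalfPlane.continuous_re
  have h2 : Continuous (fun z : ℍ => z.im) := UpperHalfPlane.continuous_im
  exact ((h1.sub continuous_const).mul (h1.sub continuous_const)).add (h2.pow 2)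

theorem Qd_mem {p q : ℝ} (hpq : p < q) {z : ℍ} (hz : Qd p q z ≤ 0) : p < z.re ∧ z.re < q := by
  unfold Qd at hz
  have h0 := z.im_pos
  have h1 : (z.re - p) * (z.re - q) < 0 := by nlinarith [pow_pos h0 2]
  rcases mul_neg_iff.1 h1 with ⟨h2, h3⟩ | ⟨h2, h3⟩
  · exact ⟨by linarith, by linarith⟩
  · exfalso; linarith

section

variable {E : Type} [LinearOrder E] (C : Chords E) (ι : E → List Bool)
  (hι : ∀ d e, d < e → fW (ι d) (-0.99) < fW (ι e) (-1.01)) (P : PlaneAction)

/-- the Schottky system of the chord diagram -/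
noncomputable def schottkyOf (hι : ∀ d e, d < e → fW (ι d) (-0.99) < fW (ι e) (-1.01)) :
    Schottky FF E where
  a := P.ga
  inv := C.inv
  inv_inv := C.inv_inv
  inv_ne := C.inv_ne
  g := gdC C ι
  g_inv := gdC_inv C ι
  T d := {z | Qd (loC C ι d) (hiC C ι d) z ≤ 0}
  O d := {z | Qd (loC C ι d) (hiC C ι d) z < 0}
  closed d := isClosed_le (continuous_Qd _ _) continuous_const
  opn d := isOpen_lt (continuous_Qd _ _) continuous_const
  sub d z hz := by
    have h : Qd (loC C ι d) (hiC C ι d) z < 0 := hz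
    exact h.le
  disj d e hde := by
    rw [Set.disjoint_left]
    intro z hz hz'
    have h1 := Qd_mem (loC_lt_hiC C ι d) hz
    have h2 := Qd_mem (loC_lt_hiC C ι e) hz'
    rcases lt_or_gt_of_ne hde with h | h
    · have := hiC_lt_loC C ι hι d e h
      linarith
    · have := hiC_lt_loC C ι hι e d h
      linarith
  map1 d z hz := map1C C ι P d z hz
  map2 d z hz := map2C C ι P d z hz
  map3 d z hz := map3C C ι P d z hz
  L := {z : ℍ | ‖(z : ℂ)‖ = 3}
  p0 := ⟨3 * Complex.I, by simp⟩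
  p0_mem := by
    change ‖((3 : ℂ) * Complex.I)‖ = 3
    rw [norm_mul, Complex.norm_I, mul_one]
    norm_num
  s := sdC C ι
  line d := by
    rw [← lineC C ι P d]
    ext z
    simp only [Set.mem_sdiff, Set.mem_ofPred_eq, not_lt]
    exact ⟨fun h => le_antisymm h.1 h.2, fun h => ⟨h.le, h.ge⟩⟩
  finite := finite_translates P
  base := by
    refine ⟨⟨4 * Complex.I, by simp⟩, fun d => ?_⟩
    have h1 := loC_mem C ι d
    have h2 := hiC_mem C ι d
    have h3 : Qd (loC C ι d) (hiC C ι d) ⟨4 * Complex.I, by simp⟩ =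
        loC C ι d * hiC C ι d + 16 := by
      unfold Qd
      have e1 : (⟨4 * Complex.I, by simp⟩ : ℍ).re = 0 := by
        change ((4 : ℂ) * Complex.I).re = 0
        simp
      have e2 : (⟨4 * Complex.I, by simp⟩ : ℍ).im = 4 := by
        change ((4 : ℂ) * Complex.I).im = 4
        simp
      rw [e1, e2]; ring
    simp only [Set.mem_ofPred_eq, not_le]
    rw [h3]
    nlinarith [h1.1, h1.2, h2.1, h2.2]

theorem gdC_eq {d : E} (hd : d < C.inv d) :
    gdC C ι d = fb ^ 2 * chord (idxC C ι d) * (fb ^ 2)⁻¹ := by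
  have h1 : pairE (idxC C ι d) = (ι d, ι (C.inv d)) := by
    unfold idxC
    rw [if_pos hd, Equiv.apply_symm_apply]
  unfold gdC xdC xw chord
  rw [idxC_inv, h1, if_pos hd]
  simp only [mul_inv_rev, mul_assoc, inv_pow]

theorem K_eq (k : FF) : k ∈ (schottkyOf C ι P hι).K ↔ (fb ^ 2)⁻¹ * k * fb ^ 2 ∈ KF (range (idxC C ι)) := by
  have hgen : ∀ d : E, (fb ^ 2)⁻¹ * gdC C ι d * fb ^ 2 ∈ KF (range (idxC C ι)) := by
    intro d
    rcases lt_or_gt_of_ne (C.inv_ne d) with h | h
    · have h2 : C.inv d < C.inv (C.inv d) := by rw [C.inv_inv]; exact h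
      have h3 := gdC_eq C ι h2
      rw [gdC_inv, inv_eq_iff_eq_inv] at h3
      rw [h3]
      have : (fb ^ 2)⁻¹ * (fb ^ 2 * chord (idxC C ι (C.inv d)) * (fb ^ 2)⁻¹)⁻¹ * fb ^ 2 =
          (chord (idxC C ι (C.inv d)))⁻¹ := by group
      rw [this]
      exact Subgroup.inv_mem _ (Subgroup.subset_closure ⟨_, ⟨_, rfl⟩, rfl⟩)
    · rw [gdC_eq C ι h]
      have : (fb ^ 2)⁻¹ * (fb ^ 2 * chord (idxC C ι d) * (fb ^ 2)⁻¹) * fb ^ 2 =
          chord (idxC C ι d) := by group
      rw [this]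
      exact Subgroup.subset_closure ⟨_, ⟨_, rfl⟩, rfl⟩
  constructor
  · intro hk
    change k ∈ Subgroup.closure (Set.range (gdC C ι)) at hk
    induction hk using Subgroup.closure_induction with
    | mem x hx => obtain ⟨d, rfl⟩ := hx; exact hgen d
    | one =>
      have : (fb ^ 2)⁻¹ * (1 : FF) * fb ^ 2 = 1 := by group
      rw [this]; exact Subgroup.one_mem _
    | mul x y _ _ hx hy =>
      have : (fb ^ 2)⁻¹ * (x * y) * fb ^ 2 =
          ((fb ^ 2)⁻¹ * x * fb ^ 2) * ((fb ^ 2)⁻¹ * y * fb ^ 2) := by group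
      rw [this]; exact Subgroup.mul_mem _ hx hy
    | inv x _ hx =>
      have : (fb ^ 2)⁻¹ * x⁻¹ * fb ^ 2 = ((fb ^ 2)⁻¹ * x * fb ^ 2)⁻¹ := by group
      rw [this]; exact Subgroup.inv_mem _ hx
  · intro hk
    have key : ∀ x ∈ KF (range (idxC C ι)), fb ^ 2 * x * (fb ^ 2)⁻¹ ∈ (schottkyOf C ι P hι).K := by
      intro x hx
      unfold KF at hx
      induction hx using Subgroup.closure_induction with
      | mem x hx =>
        obtain ⟨_, ⟨d, rfl⟩, rfl⟩ := hx
        rcases lt_or_gt_of_ne (C.inv_ne d) with h | h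
        · have h2 : C.inv d < C.inv (C.inv d) := by rw [C.inv_inv]; exact h
          have h3 := gdC_eq C ι h2
          rw [idxC_inv] at h3
          rw [← h3]
          exact Subgroup.subset_closure ⟨C.inv d, rfl⟩
        · rw [← gdC_eq C ι h]
          exact Subgroup.subset_closure ⟨d, rfl⟩
      | one =>
        have : fb ^ 2 * (1 : FF) * (fb ^ 2)⁻¹ = 1 := by group
        rw [this]; exact Subgroup.one_mem _
      | mul x y _ _ hx hy =>
        have : fb ^ 2 * (x * y) * (fb ^ 2)⁻¹ =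
            (fb ^ 2 * x * (fb ^ 2)⁻¹) * (fb ^ 2 * y * (fb ^ 2)⁻¹) := by group
        rw [this]; exact Subgroup.mul_mem _ hx hy
      | inv x _ hx =>
        have : fb ^ 2 * x⁻¹ * (fb ^ 2)⁻¹ = (fb ^ 2 * x * (fb ^ 2)⁻¹)⁻¹ := by group
        rw [this]; exact Subgroup.inv_mem _ hx
    have := key _ hk
    have h2 : fb ^ 2 * ((fb ^ 2)⁻¹ * k * fb ^ 2) * (fb ^ 2)⁻¹ = k := by group
    rwa [h2] at this

theorem quo_homeo : Nonempty (P.quo (KF (range (idxC C ι))) ≃ₜ Quotient (schottkyOf C ι P hι).orb) := by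
  refine quot_homeo (P.ga (fb ^ 2)).toHomeomorph (P.orb (KF (range (idxC C ι)))).r
    (schottkyOf C ι P hι).orb.r ?_
  intro z z'
  constructor
  · rintro ⟨g, hg, rfl⟩
    refine ⟨fb ^ 2 * g * (fb ^ 2)⁻¹, ?_, ?_⟩
    · rw [K_eq]
      have h2 : (fb ^ 2)⁻¹ * (fb ^ 2 * g * (fb ^ 2)⁻¹) * fb ^ 2 = g := by group
      rw [h2]; exact hg
    · change P.ga (fb ^ 2 * g * (fb ^ 2)⁻¹) (P.ga (fb ^ 2) z) = P.ga (fb ^ 2) (P.ga g z)
      have h3 : P.ga (fb ^ 2 * g * (fb ^ 2)⁻¹) (P.ga (fb ^ 2) z) =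
          (P.ga (fb ^ 2 * g * (fb ^ 2)⁻¹) * P.ga (fb ^ 2)) z := rfl
      have h4 : P.ga (fb ^ 2) (P.ga g z) = (P.ga (fb ^ 2) * P.ga g) z := rfl
      rw [h3, h4, ← map_mul, ← map_mul, inv_mul_cancel_right]
  · rintro ⟨g, hg, h⟩
    refine ⟨(fb ^ 2)⁻¹ * g * fb ^ 2, (K_eq C ι hι P g).1 hg, ?_⟩
    change P.ga g (P.ga (fb ^ 2) z) = P.ga (fb ^ 2) z' at h
    have h3 : P.ga g (P.ga (fb ^ 2) z) = (P.ga g * P.ga (fb ^ 2)) z := rfl
    apply (P.ga (fb ^ 2)).injective
    rw [← h, h3]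
    have h4 : P.ga (fb ^ 2) (P.ga ((fb ^ 2)⁻¹ * g * fb ^ 2) z) =
      (P.ga (fb ^ 2) * P.ga ((fb ^ 2)⁻¹ * g * fb ^ 2)) z := rfl
    rw [h4, ← map_mul, ← map_mul]
    congr 2
    group

end

theorem halfStmt : HalfStmt := by
  intro P E _ C hE
  obtain ⟨ι, hι⟩ := exists_words E hE
  refine ⟨range (idxC C.toChords ι), ?_⟩
  obtain ⟨e1⟩ := toChords_surf C
  obtain ⟨e2⟩ := quo_homeo C.toChords ι hι P
  have key : ∀ d (z : ℍ), Qd (loC C.toChords ι d) (hiC C.toChords ι d) z =
      (z.re - (loC C.toChords ι d + hiC C.toChords ι d) / 2) ^ 2 + z.im ^ 2 -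
        ((hiC C.toChords ι d - loC C.toChords ι d) / 2) ^ 2 := by
    intro d z
    unfold Qd
    ring
  obtain ⟨e3⟩ := Schottky.chord_homeo C.toChords (schottkyOf C.toChords ι P hι) (fun _ => rfl)
    (fun d => (loC C.toChords ι d + hiC C.toChords ι d) / 2)
    (fun d => (hiC C.toChords ι d - loC C.toChords ι d) / 2)
    (fun d => by have := loC_lt_hiC C.toChords ι d; linarith)
    ((summable_len (loC C.toChords ι) (hiC C.toChords ι) (loC_lt_hiC C.toChords ι)
      (hiC_lt_loC C.toChords ι hι) (loC_mem C.toChords ι) (hiC_mem C.toChords ι)).div_const 2)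
    (fun d e hde => by
      have := hiC_lt_loC C.toChords ι hι d e hde
      change (loC C.toChords ι d + hiC C.toChords ι d) / 2 +
        (hiC C.toChords ι d - loC C.toChords ι d) / 2 ≤
        (loC C.toChords ι e + hiC C.toChords ι e) / 2 -
        (hiC C.toChords ι e - loC C.toChords ι e) / 2
      linarith)
    (fun d z => by
      change Qd (loC C.toChords ι d) (hiC C.toChords ι d) z ≤ 0 ↔ _
      rw [key d z, sub_nonpos])
    (fun d z => by
      change Qd (loC C.toChords ι d) (hiC C.toChords ι d) z < 0 ↔ _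
      rw [key d z, sub_neg])
    (fun d z z' hz hz' h => by
      have h1 : Qd (loC C.toChords ι d) (hiC C.toChords ι d) z = 0 := by
        rw [key d z]; exact sub_eq_zero.2 hz
      have h2 : Qd (loC C.toChords ι d) (hiC C.toChords ι d) z' = 0 := by
        rw [key d z']; exact sub_eq_zero.2 hz'
      exact antiC C.toChords ι P d z z' h1 h2 h)
  exact ⟨e1.symm.trans (e3.symm.trans e2.symm)⟩

end Pool.Agent.AllSurf
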