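import Pool.Agent.Lib.MP_7f477e_gt.RDefs

/-!
# MP_7f477e_gt, part Q: IntervalAction gives LineAction

Q1 (mixed): ping-pong on J + Z and L + Z. Q2 (dense): every open interval contains a translate of J or L
under the group (doubling argument).
-/

set_option autoImplicit false

open Set

namespace Pool.Agent.AllSurf

namespace IntervalAction

variable (I : IntervalAction)

/-- translation by 1/2 -/
noncomputable def hh : ℝ ≃o ℝ := OrderIso.addRight (1 / 2)

theorem hh_apply (t : ℝ) : hh t = t + 1 / 2 := rfl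

theorem hh_inv_apply (t : ℝ) : hh⁻¹ t = t - 1 / 2 := by
  have h1 : hh (hh⁻¹ t) = t := by
    change (hh * hh⁻¹) t = t
    rw [mul_inv_cancel]; rfl
  rw [hh_apply] at h1
  linarith

theorem rho_nat (g : FF) (t : ℝ) (n : ℕ) : I.rho g (t + n) = I.rho g t + n := by
  induction n with
  | zero => simp
  | succ n ih => rw [Nat.cast_succ, ← add_assoc, I.rho_shift, ih]; ring

theorem rho_int (g : FF) (t : ℝ) (n : ℤ) : I.rho g (t + n) = I.rho g t + n := by
  obtain ⟨m, rfl | rfl⟩ := n.eq_nat_or_neg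
  · rw [Int.cast_natCast]; exact I.rho_nat g t m
  · have h := I.rho_nat g (t + ((-(m : ℤ) : ℤ) : ℝ)) m
    push_cast at h ⊢
    rw [neg_add_cancel_right] at h
    linarith

/-- the union of all translates of the intervals -/
def Un : Set ℝ := {t | ∃ n : ℤ, ∃ e, I.l e + n ≤ t ∧ t ≤ I.l e + I.w e + n}

/-- J + Z -/
def PP : Set ℝ := {t | ∃ n : ℤ, 1 / 4 + n ≤ t ∧ t ≤ 3 / 4 + n}

/-- L + Z -/
def QQ : Set ℝ := {t | ∃ n : ℤ, -(1 / 4) + n ≤ t ∧ t ≤ 1 / 4 + n}

theorem PP_or_QQ (t : ℝ) : t ∈ PP ∨ t ∈ QQ := by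
  have h1 := Int.floor_le t
  have h2 := Int.lt_floor_add_one t
  rcases lt_or_ge (t - ⌊t⌋) (1 / 4) with h | h
  · exact Or.inr ⟨⌊t⌋, by linarith, by linarith⟩
  · rcases le_or_gt (t - ⌊t⌋) (3 / 4) with h' | h'
    · exact Or.inl ⟨⌊t⌋, by linarith, by linarith⟩
    · exact Or.inr ⟨⌊t⌋ + 1, by push_cast; linarith, by push_cast; linarith⟩

theorem PP_sub_Un {t : ℝ} (h : t ∈ PP) : t ∈ I.Un := by
  obtain ⟨n, h1, h2⟩ := h
  refine ⟨n, I.e0, ?_, ?_⟩
  · rw [I.l_e0]; exact h1
  · rw [I.l_e0, I.w_e0]; linarith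

theorem move {g : FF} {e : I.EE} {t : ℝ} {n : ℤ} (h1 : I.l e + n ≤ t) (h2 : t ≤ I.l e + I.w e + n) :
    I.l (I.act g e) + n ≤ I.rho g t ∧ I.rho g t ≤ I.l (I.act g e) + I.w (I.act g e) + n := by
  constructor
  · rw [← I.rho_left, ← I.rho_int]
    exact (I.rho g).monotone h1
  · rw [← I.rho_right, ← I.rho_int]
    exact (I.rho g).monotone h2

theorem Un_rho {g : FF} {t : ℝ} (h : t ∈ I.Un) : I.rho g t ∈ I.Un := by
  obtain ⟨n, e, h1, h2⟩ := h
  exact ⟨n, I.act g e, I.move h1 h2⟩

theorem Un_rho_iff {g : FF} {t : ℝ} : I.rho g t ∈ I.Un ↔ t ∈ I.Un := by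
  constructor
  · intro h
    have h2 := I.Un_rho (g := g⁻¹) h
    rw [map_inv] at h2
    have h3 : (I.rho g)⁻¹ (I.rho g t) = t := (I.rho g).symm_apply_apply t
    rwa [h3] at h2
  · exact I.Un_rho

theorem Un_int {t : ℝ} (n : ℤ) (h : t + n ∈ I.Un) : t ∈ I.Un := by
  obtain ⟨m, e, h1, h2⟩ := h
  exact ⟨m - n, e, by push_cast; linarith, by push_cast; linarith⟩

/-- the other intervals are outside J -/
theorem other {e : I.EE} (he : e ≠ I.e0) :
    (0 < I.l e ∧ I.l e + I.w e < 1 / 4) ∨ (3 / 4 < I.l e ∧ I.l e + I.w e < 1) := by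
  rcases lt_or_gt_of_ne he with h | h
  · left
    have := I.ord e I.e0 h
    rw [I.l_e0] at this
    exact ⟨I.l_pos e, this⟩
  · right
    have := I.ord I.e0 e h
    rw [I.l_e0, I.w_e0] at this
    exact ⟨by linarith, I.r_lt e⟩

theorem w_other {e : I.EE} (he : e ≠ I.e0) : I.w e < 1 / 4 := by
  rcases I.other he with h | h <;> linarith

/-- an element outside the stabiliser moves J + Z into L + Z -/
theorem PP_rho {g : FF} (hg : g ∉ Subgroup.zpowers fc) {t : ℝ} (h : t ∈ PP) :
    I.rho g t ∈ QQ ∧ I.rho g t ∈ I.Un := by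
  refine ⟨?_, I.Un_rho (I.PP_sub_Un h)⟩
  obtain ⟨n, h1, h2⟩ := h
  have h3 := I.move (g := g) (e := I.e0) (t := t) (n := n) (by rw [I.l_e0]; exact h1)
    (by rw [I.l_e0, I.w_e0]; linarith)
  have hne : I.act g I.e0 ≠ I.e0 := fun h => hg ((I.stab0 g).1 h)
  rcases I.other hne with h4 | h4
  · exact ⟨n, by linarith, by linarith⟩
  · exact ⟨n + 1, by push_cast; linarith, by push_cast; linarith⟩

theorem hh_inv_QQ {t : ℝ} (h : t ∈ QQ) : hh⁻¹ t ∈ PP := by
  obtain ⟨n, h1, h2⟩ := h
  rw [hh_inv_apply]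
  exact ⟨n - 1, by push_cast; linarith, by push_cast; linarith⟩

theorem hh_QQ {t : ℝ} (h : t ∈ QQ) : hh t ∈ PP := by
  obtain ⟨n, h1, h2⟩ := h
  rw [hh_apply]
  exact ⟨n, by linarith, by linarith⟩

/-- the mirror images move L + Z into J + Z -/
theorem QQ_rho {g : FF} (hg : g ∉ Subgroup.zpowers fc) {t : ℝ} (h : t ∈ QQ) :
    twoHom I.rho hh true g t ∈ PP := by
  have h1 : twoHom I.rho hh true g t = hh (I.rho g (hh⁻¹ t)) := rfl
  rw [h1]
  exact hh_QQ (I.PP_rho hg (hh_inv_QQ h)).1

theorem wval_cons {G : Type} [Group G] (x : Bool → FF →* G) (p : Bool × FF) (L : List (Bool × FF)) :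
    wval x (p :: L) = x p.1 p.2 * wval x L := by simp [wval]

/-- the position of the image of a point outside all intervals under an alternating word -/
theorem mixed_aux {y : ℝ} (hy : y ∉ I.Un) : ∀ (L : List (Bool × FF)), IsAlt L →
    (L = [] ∨ (∃ p L', L = p :: L' ∧ p.1 = true ∧ wval (twoHom I.rho hh) L y ∈ PP) ∨
      (∃ p L', L = p :: L' ∧ p.1 = false ∧ ((L' = [] ∧ wval (twoHom I.rho hh) L y ∉ I.Un) ∨
        (wval (twoHom I.rho hh) L y ∈ QQ ∧ wval (twoHom I.rho hh) L y ∈ I.Un)))) := by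
  intro L
  induction L with
  | nil => intro _; exact Or.inl rfl
  | cons p L ih =>
    intro hL
    right
    have hp : p.2 ∉ Subgroup.zpowers fc := hL.2 p (by simp)
    have hL' : IsAlt L := ⟨hL.1.tail, fun q hq => hL.2 q (List.mem_cons_of_mem _ hq)⟩
    have hyQ : y ∈ QQ := by
      rcases PP_or_QQ y with h | h
      · exact absurd (I.PP_sub_Un h) hy
      · exact h
    have hval : wval (twoHom I.rho hh) (p :: L) y =
        twoHom I.rho hh p.1 p.2 (wval (twoHom I.rho hh) L y) := by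
      rw [wval_cons]; rfl
    rcases hb : p.1 with _ | _
    · right
      refine ⟨p, L, rfl, hb, ?_⟩
      rw [hval, hb]
      change (L = [] ∧ I.rho p.2 (wval (twoHom I.rho hh) L y) ∉ I.Un) ∨
        (I.rho p.2 (wval (twoHom I.rho hh) L y) ∈ QQ ∧ I.rho p.2 (wval (twoHom I.rho hh) L y) ∈ I.Un)
      rcases ih hL' with rfl | ⟨q, L', rfl, hq, h⟩ | ⟨q, L', rfl, hq, h⟩
      · left
        refine ⟨rfl, ?_⟩
        rw [I.Un_rho_iff]
        exact hy
      · right
        exact I.PP_rho hp h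
      · exfalso
        have := (List.isChain_cons_cons.1 hL.1).1
        exact this (hb.trans hq.symm)
    · left
      refine ⟨p, L, rfl, hb, ?_⟩
      rw [hval, hb]
      rcases ih hL' with rfl | ⟨q, L', rfl, hq, h⟩ | ⟨q, L', rfl, hq, h⟩
      · exact I.QQ_rho hp hyQ
      · exfalso
        have := (List.isChain_cons_cons.1 hL.1).1
        exact this (hb.trans hq.symm)
      · apply I.QQ_rho hp
        rcases h with ⟨-, h⟩ | ⟨h, -⟩
        · rcases PP_or_QQ (wval (twoHom I.rho hh) (q :: L') y) with h' | h'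
          · exact absurd (I.PP_sub_Un h') h
          · exact h'
        · exact h

theorem point_Un (A : Set ℕ) : I.point A ∉ I.Un := by
  rintro ⟨n, e, h1, h2⟩
  have h3 := I.point_pos A
  have h4 := I.point_lt A
  have h5 := I.l_pos e
  have h6 := I.r_lt e
  have h7 := I.w_pos e
  have h8 : n = 0 := by
    have a1 : (n : ℝ) < 1 := by linarith
    have a2 : (-1 : ℝ) < n := by linarith
    have a1' : n < 1 := by exact_mod_cast a1
    have a2' : -1 < n := by exact_mod_cast a2
    omega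
  subst h8
  simp only [Int.cast_zero, add_zero] at h1 h2
  rcases I.point_notMem A e with h | h <;> linarith

theorem mixed (A : Set ℕ) (L : List (Bool × FF)) (hL : IsAlt L) (ht : ∃ p ∈ L, p.1 = true) (n : ℤ) :
    wval (twoHom I.rho hh) L (I.point A) ≠ I.point A + n := by
  have hy := I.point_Un A
  have hyn : I.point A + n ∉ I.Un := fun h => hy (I.Un_int n h)
  rcases I.mixed_aux hy L hL with rfl | ⟨p, L', rfl, hp, h⟩ | ⟨p, L', rfl, hp, h⟩
  · simp at ht
  · intro h2
    rw [h2] at h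
    exact hyn (I.PP_sub_Un h)
  · rcases h with ⟨rfl, -⟩ | ⟨-, h⟩
    · obtain ⟨q, hq, hq'⟩ := ht
      rw [List.mem_singleton] at hq
      rw [hq, hp] at hq'
      exact absurd hq' (by simp)
    · intro h2
      rw [h2] at h
      exact hyn h

theorem stab (A : Set ℕ) (e : FF) (n : ℤ) :
    I.rho e (I.point A) = I.point A + n ↔ (n = 0 ∧ e ∈ KF A) := by
  constructor
  · intro h
    have h1 : I.rho e 0 < I.rho e (I.point A) := (I.rho e).strictMono (I.point_pos A)
    have h2 : I.rho e (I.point A) < I.rho e (0 + 1) := (I.rho e).strictMono (by rw [zero_add]; exact I.point_lt A)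
    rw [I.rho_shift, I.rho_zero] at h2
    rw [I.rho_zero] at h1
    have h3 := I.point_pos A
    have h4 := I.point_lt A
    have h8 : n = 0 := by
      have a1 : (n : ℝ) < 1 := by linarith
      have a2 : (-1 : ℝ) < n := by linarith
      have a1' : n < 1 := by exact_mod_cast a1
      have a2' : -1 < n := by exact_mod_cast a2
      omega
    subst h8
    refine ⟨rfl, (I.point_stab A e).1 ?_⟩
    rw [h]; simp
  · rintro ⟨rfl, h⟩
    rw [(I.point_stab A e).2 h]; simp

/-! ### minimality -/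

/-- the group -/
noncomputable def Gam : Subgroup (ℝ ≃o ℝ) := genBy (twoHom I.rho hh)

theorem rho_mem (g : FF) : I.rho g ∈ I.Gam := Subgroup.subset_closure ⟨false, g, rfl⟩

theorem rho'_mem (g : FF) : twoHom I.rho hh true g ∈ I.Gam := Subgroup.subset_closure ⟨true, g, rfl⟩

theorem hh_hh (t : ℝ) : hh (hh t) = t + 1 := by rw [hh_apply, hh_apply]; ring

/-- elements of the group commute with integer translations -/
theorem Gam_int {g : ℝ ≃o ℝ} (hg : g ∈ I.Gam) (t : ℝ) (n : ℤ) : g (t + n) = g t + n := by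
  have key : I.Gam ≤ Subgroup.centralizer {OrderIso.addRight (1 : ℝ)} := by
    unfold Gam genBy
    rw [Subgroup.closure_le]
    rintro _ ⟨s, e, rfl⟩
    rw [SetLike.mem_coe, Subgroup.mem_centralizer_singleton_iff]
    ext t
    cases s
    · change I.rho e (t + 1) = I.rho e t + 1
      rw [I.rho_shift]
    · change hh (I.rho e (hh⁻¹ (t + 1))) = hh (I.rho e (hh⁻¹ t)) + 1
      rw [hh_inv_apply, hh_inv_apply, show t + 1 - 1 / 2 = (t - 1 / 2) + 1 by ring, I.rho_shift, hh_apply,
        hh_apply]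
      ring
  have h1 : ∀ g ∈ I.Gam, ∀ t, g (t + 1) = g t + 1 := by
    intro g hg t
    have h := key hg
    rw [Subgroup.mem_centralizer_singleton_iff] at h
    exact congrArg (fun T : ℝ ≃o ℝ => T t) h
  have h2 : ∀ n : ℕ, ∀ t, g (t + n) = g t + n := by
    intro n
    induction n with
    | zero => intro t; simp
    | succ n ih => intro t; rw [Nat.cast_succ, ← add_assoc, h1 g hg, ih]; ring
  obtain ⟨m, rfl | rfl⟩ := n.eq_nat_or_neg
  · rw [Int.cast_natCast]; exact h2 m t
  · have h := h2 m (t + ((-(m : ℤ) : ℤ) : ℝ))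
    push_cast at h ⊢
    rw [neg_add_cancel_right] at h
    linarith

/-- the group is normalised by hh -/
theorem Gam_conj {g : ℝ ≃o ℝ} (hg : g ∈ I.Gam) : hh⁻¹ * g * hh ∈ I.Gam := by
  have key : I.Gam ≤ I.Gam.comap (MulAut.conj hh⁻¹).toMonoidHom := by
    have : genBy (twoHom I.rho hh) ≤ I.Gam.comap (MulAut.conj hh⁻¹).toMonoidHom := by
      unfold genBy
      rw [Subgroup.closure_le]
      rintro _ ⟨s, e, rfl⟩
      rw [SetLike.mem_coe, Subgroup.mem_comap]
      cases s
      · have h : (MulAut.conj hh⁻¹).toMonoidHom (twoHom I.rho hh false e) = twoHom I.rho hh true e := by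
          ext t
          change hh⁻¹ (I.rho e ((hh⁻¹)⁻¹ t)) = hh (I.rho e (hh⁻¹ t))
          rw [inv_inv, hh_inv_apply, hh_inv_apply, hh_apply, hh_apply,
            show t + 1 / 2 = (t - 1 / 2) + 1 by ring, I.rho_shift]
          ring
        rw [h]
        exact I.rho'_mem e
      · have h : (MulAut.conj hh⁻¹).toMonoidHom (twoHom I.rho hh true e) = I.rho e := by
          change hh⁻¹ * (hh * I.rho e * hh⁻¹) * (hh⁻¹)⁻¹ = I.rho e
          group
        rw [h]
        exact I.rho_mem e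
    exact this
  have h := key hg
  rw [Subgroup.mem_comap] at h
  change hh⁻¹ * g * (hh⁻¹)⁻¹ ∈ I.Gam at h
  rwa [inv_inv] at h

/-- the interval contains a translate of J or L -/
def Good (u v : ℝ) : Prop := ∃ γ ∈ I.Gam, ∃ m : ℤ,
  (∀ t : ℝ, 1 / 4 ≤ t → t ≤ 3 / 4 → u < γ t + m ∧ γ t + m < v) ∨
  (∀ t : ℝ, -(1 / 4) ≤ t → t ≤ 1 / 4 → u < γ t + m ∧ γ t + m < v)

theorem Good.of_shift {u v : ℝ} (n : ℤ) (h : I.Good (u + n) (v + n)) : I.Good u v := by
  obtain ⟨γ, hγ, m, h⟩ := h
  refine ⟨γ, hγ, m - n, ?_⟩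
  rcases h with h | h
  · left
    intro t h1 h2
    have := h t h1 h2
    push_cast
    constructor <;> linarith
  · right
    intro t h1 h2
    have := h t h1 h2
    push_cast
    constructor <;> linarith

theorem Good.of_image {u v : ℝ} {δ : ℝ ≃o ℝ} (hδ : δ ∈ I.Gam) (h : I.Good u v) : I.Good (δ u) (δ v) := by
  obtain ⟨γ, hγ, m, h⟩ := h
  refine ⟨δ * γ, mul_mem hδ hγ, m, ?_⟩
  have e1 : ∀ t, (δ * γ) t + m = δ (γ t + m) := by
    intro t
    rw [I.Gam_int hδ]; rfl
  rcases h with h | h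
  · left
    intro t h1 h2
    rw [e1]
    exact ⟨δ.strictMono (h t h1 h2).1, δ.strictMono (h t h1 h2).2⟩
  · right
    intro t h1 h2
    rw [e1]
    exact ⟨δ.strictMono (h t h1 h2).1, δ.strictMono (h t h1 h2).2⟩

theorem Good.of_half {u v : ℝ} (h : I.Good (u - 1 / 2) (v - 1 / 2)) : I.Good u v := by
  obtain ⟨γ, hγ, m, h⟩ := h
  have hc := I.Gam_conj hγ
  -- (hh⁻¹ γ hh) t = γ (t + 1/2) - 1/2
  have e1 : ∀ t, (hh⁻¹ * γ * hh) t = γ (t + 1 / 2) - 1 / 2 := by
    intro t
    change hh⁻¹ (γ (hh t)) = _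
    rw [hh_inv_apply, hh_apply]
  rcases h with h | h
  · refine ⟨hh⁻¹ * γ * hh, hc, m + 1, Or.inr ?_⟩
    intro t h1 h2
    rw [e1]
    have := h (t + 1 / 2) (by linarith) (by linarith)
    push_cast
    constructor <;> linarith
  · refine ⟨hh⁻¹ * γ * hh, hc, m, Or.inl ?_⟩
    intro t h1 h2
    rw [e1]
    have h3 := h (t - 1 / 2) (by linarith) (by linarith)
    have h4 : γ (t + 1 / 2) = γ (t - 1 / 2) + 1 := by
      have := I.Gam_int hγ (t - 1 / 2) 1
      rw [Int.cast_one] at this
      rw [← this]; congr 1; ring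
    rw [h4]
    constructor <;> linarith

/-- an interval containing some translate of an interval of the family is good -/
theorem good_of_sub {u v : ℝ} {e : I.EE} {n : ℤ} (h1 : u < I.l e + n) (h2 : I.l e + I.w e + n < v) :
    I.Good u v := by
  obtain ⟨g, hg, hs⟩ := I.scale e
  refine ⟨I.rho g, I.rho_mem g, n, Or.inl ?_⟩
  intro t ht1 ht2
  have h3 := I.move (g := g) (e := I.e0) (t := t) (n := 0) (by rw [I.l_e0]; simpa using ht1)
    (by rw [I.l_e0, I.w_e0]; norm_num; linarith)
  rw [hg] at h3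
  simp only [Int.cast_zero, add_zero] at h3
  constructor <;> linarith

/-- an open interval contains a translate of some interval of the family or is contained in one -/
theorem key {u v : ℝ} (huv : u < v) : (∃ e, ∃ n : ℤ, u < I.l e + n ∧ I.l e + I.w e + n < v) ∨
    (∃ e, ∃ n : ℤ, I.l e + n ≤ u ∧ v ≤ I.l e + I.w e + n) := by
  set m := ⌊(u + v) / 2⌋ with hm
  have m1 : (m : ℝ) ≤ (u + v) / 2 := Int.floor_le _
  have m2 : (u + v) / 2 < m + 1 := Int.lt_floor_add_one _
  set u' := u - m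
  set v' := v - m
  have e1 : u' < v' := by simp only [u', v']; linarith
  have e2 : u' < 1 := by simp only [u']; linarith
  have e3 : 0 < v' := by simp only [v']; linarith
  have eu : u = u' + m := by simp only [u']; ring
  have ev : v = v' + m := by simp only [v']; ring
  have ldm : ∀ a b : I.EE, I.l a < I.l b → a < b := by
    intro a b h
    by_contra hc
    rcases lt_or_eq_of_le (not_lt.1 hc) with h' | rfl
    · have := I.ord b a h'
      have := I.w_pos b
      linarith
    · exact lt_irrefl _ h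
  have rdm : ∀ a b : I.EE, I.l a + I.w a < I.l b + I.w b → a < b := by
    intro a b h
    by_contra hc
    rcases lt_or_eq_of_le (not_lt.1 hc) with h' | rfl
    · have := I.ord b a h'
      have := I.w_pos a
      linarith
    · exact lt_irrefl _ h
  obtain ⟨e, he1, he2⟩ := I.meets (max u' 0) (min v' 1) (le_max_right _ _)
    (max_lt (lt_min e1 e2) (lt_min e3 one_pos)) (min_le_right _ _)
  have he1' : I.l e < v' := lt_of_lt_of_le he1 (min_le_left _ _)
  have he2' : u' < I.l e + I.w e := lt_of_le_of_lt (le_max_left _ _) he2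
  by_cases hA : u' < I.l e
  · left
    obtain ⟨f, hf1, hf2⟩ := I.meets (max u' 0) (I.l e) (le_max_right _ _) (max_lt hA (I.l_pos e)) (by
      have := I.r_lt e
      have := I.w_pos e
      linarith)
    obtain ⟨f', hf', hf''⟩ := exists_between (ldm _ _ hf1)
    have a1 := I.ord f f' hf'
    have a2 := I.ord f' e hf''
    have a3 : u' < I.l f + I.w f := lt_of_le_of_lt (le_max_left _ _) hf2
    exact ⟨f', m, by linarith, by linarith⟩
  · by_cases hB : I.l e + I.w e < v'
    · left
      obtain ⟨f, hf1, hf2⟩ := I.meets (I.l e + I.w e) (min v' 1) (by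
        have := I.l_pos e
        have := I.w_pos e
        linarith) (lt_min hB (I.r_lt e)) (min_le_right _ _)
      obtain ⟨f', hf', hf''⟩ := exists_between (rdm _ _ hf2)
      have a1 := I.ord e f' hf'
      have a2 := I.ord f' f hf''
      have a3 : I.l f < v' := lt_of_lt_of_le hf1 (min_le_left _ _)
      exact ⟨f', m, by linarith, by linarith⟩
    · right
      push Not at hA hB
      exact ⟨e, m, by linarith, by linarith⟩

/-- the doubling step -/
theorem good_double {c : ℝ} (ih : ∀ u v : ℝ, u < v → c ≤ v - u → I.Good u v) {u v : ℝ} (huv : u < v)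
    (hc : c / 2 ≤ v - u) {e : I.EE} {n : ℤ} (he : e ≠ I.e0) (h1 : I.l e + n ≤ u) (h2 : v ≤ I.l e + I.w e + n) :
    I.Good u v := by
  apply Good.of_shift I (-n)
  push_cast
  set u' := u + -(n : ℝ)
  set v' := v + -(n : ℝ)
  have hw := I.w_pos e
  have hw4 := I.w_other he
  obtain ⟨g, hg, hs⟩ := I.scale e
  have su : I.rho g (1 / 4 + ((u' - I.l e) / I.w e) / 2) = u' := by
    rw [hs _ (div_nonneg (by simp only [u']; linarith) hw.le) ((div_le_one hw).2 (by simp only [u']; linarith))]
    field_simp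
    ring
  have sv : I.rho g (1 / 4 + ((v' - I.l e) / I.w e) / 2) = v' := by
    rw [hs _ (div_nonneg (by simp only [v']; linarith) hw.le) ((div_le_one hw).2 (by simp only [v']; linarith))]
    field_simp
    ring
  rw [← su, ← sv]
  apply Good.of_image I (I.rho_mem g)
  have h5 : (v' - I.l e) / I.w e - (u' - I.l e) / I.w e = (v - u) / I.w e := by
    rw [← sub_div]; congr 1; simp only [u', v']; ring
  have h6 : 4 * (v - u) ≤ (v - u) / I.w e := by
    rw [le_div_iff₀ hw]
    nlinarith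
  apply ih
  · have : 0 < (v - u) / I.w e := div_pos (by linarith) hw
    linarith
  · have h7 : 1 / 4 + (v' - I.l e) / I.w e / 2 - (1 / 4 + (u' - I.l e) / I.w e / 2) =
        ((v' - I.l e) / I.w e - (u' - I.l e) / I.w e) / 2 := by ring
    rw [h7, h5]
    linarith

theorem good_all (k : ℕ) : ∀ u v : ℝ, u < v → 2 / 2 ^ k ≤ v - u → I.Good u v := by
  induction k with
  | zero =>
    intro u v _ h
    rw [pow_zero, div_one] at h
    set m := ⌊u - 1 / 4⌋ + 1 with hm
    have m1 : u - 1 / 4 < m := by rw [hm]; push_cast; exact Int.lt_floor_add_one _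
    have m2 : (m : ℝ) ≤ u - 1 / 4 + 1 := by
      rw [hm]; push_cast
      have := Int.floor_le (u - 1 / 4)
      linarith
    refine ⟨1, one_mem _, m, Or.inl ?_⟩
    intro t h1 h2
    change u < t + m ∧ t + m < v
    constructor <;> linarith
  | succ k ih =>
    intro u v huv h
    have hc : (2 / 2 ^ k : ℝ) / 2 ≤ v - u := by
      rw [pow_succ] at h
      rw [div_div]; exact h
    rcases I.key huv with ⟨e, n, h1, h2⟩ | ⟨e, n, h1, h2⟩
    · exact I.good_of_sub h1 h2
    · by_cases he : e = I.e0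
      · subst he
        rw [I.l_e0] at h1
        rw [I.l_e0, I.w_e0] at h2
        apply Good.of_half I
        rcases I.key (u := u - 1 / 2) (v := v - 1 / 2) (by linarith) with ⟨f, p, f1, f2⟩ | ⟨f, p, f1, f2⟩
        · exact I.good_of_sub f1 f2
        · have hf : f ≠ I.e0 := by
            rintro rfl
            rw [I.l_e0] at f1
            rw [I.l_e0, I.w_e0] at f2
            have a1 : (p : ℝ) < n := by linarith
            have a2 : (n : ℝ) < p + 1 := by linarith
            have b1 : p < n := by exact_mod_cast a1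
            have b2 : n < p + 1 := by exact_mod_cast a2
            omega
          exact I.good_double ih (by linarith) (by linarith) hf f1 f2
      · exact I.good_double ih huv hc he h1 h2

include I in
theorem exists_notMem : ∃ g : FF, g ∉ Subgroup.zpowers fc := by
  obtain ⟨e, he⟩ := exists_gt I.e0
  obtain ⟨g, hg, -⟩ := I.scale e
  exact ⟨g, fun h => he.ne' (hg.symm.trans ((I.stab0 g).2 h))⟩

theorem dense (t u v : ℝ) (huv : u < v) : ∃ g ∈ I.Gam, ∃ n : ℤ, g t + n ∈ Set.Ioo u v := by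
  obtain ⟨k, hk⟩ := exists_pow_lt_of_lt_one (show (0 : ℝ) < (v - u) / 2 by linarith)
    (show (1 / 2 : ℝ) < 1 by norm_num)
  have hk' : 2 / 2 ^ k ≤ v - u := by
    rw [div_pow, one_pow] at hk
    have : (2 : ℝ) / 2 ^ k = 2 * (1 / 2 ^ k) := by ring
    rw [this]; linarith
  obtain ⟨f, hf⟩ := I.exists_notMem
  obtain ⟨γ, hγ, m, h⟩ := I.good_all k u v huv hk'
  rcases h with h | h
  · have hPP : ∀ s, s ∈ PP → ∃ n : ℤ, γ s + n ∈ Set.Ioo u v := by
      rintro s ⟨n, h1, h2⟩
      have h3 := h (s - n) (by linarith) (by linarith)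
      refine ⟨m - n, ?_⟩
      have h4 := I.Gam_int hγ (s - n) n
      rw [sub_add_cancel] at h4
      rw [h4]; push_cast
      constructor <;> linarith
    rcases PP_or_QQ t with ht | ht
    · obtain ⟨n, hn⟩ := hPP t ht
      exact ⟨γ, hγ, n, hn⟩
    · obtain ⟨n, hn⟩ := hPP _ (I.QQ_rho hf ht)
      exact ⟨γ * twoHom I.rho hh true f, mul_mem hγ (I.rho'_mem f), n, hn⟩
  · have hQQ : ∀ s, s ∈ QQ → ∃ n : ℤ, γ s + n ∈ Set.Ioo u v := by
      rintro s ⟨n, h1, h2⟩
      have h3 := h (s - n) (by linarith) (by linarith)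
      refine ⟨m - n, ?_⟩
      have h4 := I.Gam_int hγ (s - n) n
      rw [sub_add_cancel] at h4
      rw [h4]; push_cast
      constructor <;> linarith
    rcases PP_or_QQ t with ht | ht
    · obtain ⟨n, hn⟩ := hQQ _ (I.PP_rho hf ht).1
      exact ⟨γ * I.rho f, mul_mem hγ (I.rho_mem f), n, hn⟩
    · obtain ⟨n, hn⟩ := hQQ t ht
      exact ⟨γ, hγ, n, hn⟩

/-- Output of part Q. -/
noncomputable def lineAction : LineAction where
  rho := I.rho
  h := hh
  rho_shift := I.rho_shift
  h_shift := fun t => by rw [hh_apply, hh_apply]; ring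
  h_c := by
    ext t
    change I.rho fc t + 1 / 2 = I.rho fc (t + 1 / 2)
    rw [I.h_c]
  dense := I.dense
  point := I.point
  stab := I.stab
  mixed := I.mixed

end IntervalAction

end Pool.Agent.AllSurf
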