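import Pool.Agent.Lib.MP_7f477e_gt.RLay

/-!
# MP_7f477e_gt, R04: transversal and cocycle

`fc ^ n` acts freely on `EE \ {e0}` (field `free`), so `n ↦ fc ^ n` is injective (there is an `e > e0`).
Choose representatives of the orbits of `⟨fc⟩` on `EE \ {e0}`: for `e ≠ e0` there are a unique
representative `x` and a unique `n` with `e = act (fc ^ n) x`; put `t e = fc ^ n * t' x`, where
`act (t' x) e0 = x` (`trans`), and `t e0 = 1`. Then `t (act fc e) = fc * t e` for `e ≠ e0` (note that
`act fc e ≠ e0`, because `act fc e0 = e0`). For `g`, `e` the element `(t (act g e))⁻¹ * g * t e` fixes `e0`, so it is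
a power `fc ^ m g e` (`stab0`). `m_mul`, `m_one`, `m_t`: injectivity of `n ↦ fc ^ n`. `m_fc`: from
`t (act fc e) = fc * t e`; `m_fc_e0`: `fc * 1 = 1 * fc ^ 1`.
-/

set_option autoImplicit false

open Set

namespace Pool.Agent.AllSurf

section
variable (O : OrbitData)

include O in
theorem R04_inj {n m : ℤ} (h : (fc ^ n : FF) = fc ^ m) : n = m := by
  obtain ⟨e, he⟩ := exists_gt O.e0
  have h1 : O.act (fc ^ (n - m)) e = e := by
    rw [zpow_sub, h, mul_inv_cancel, map_one]; rfl
  have := O.free e he.ne' _ h1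
  omega

theorem R04_fix (n : ℤ) : O.act (fc ^ n) O.e0 = O.e0 := (O.stab0 _).2 ⟨n, rfl⟩

theorem R04_ne {e : O.EE} (h : e ≠ O.e0) (n : ℤ) : O.act (fc ^ n) e ≠ O.e0 := by
  intro h2
  rw [← R04_fix O n] at h2
  exact h ((O.act (fc ^ n)).injective h2)

theorem R04_mul (g h : FF) (e : O.EE) : O.act (g * h) e = O.act g (O.act h e) := by
  rw [map_mul]; rfl

/-- the orbit relation of the powers of fc -/
def R04_setoid : Setoid O.EE where
  r e e' := ∃ n : ℤ, O.act (fc ^ n) e = e'
  iseqv := {
    refl := fun e => ⟨0, by rw [zpow_zero, map_one]; rfl⟩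
    symm := by
      rintro e e' ⟨n, rfl⟩
      refine ⟨-n, ?_⟩
      rw [← R04_mul, ← zpow_add, neg_add_cancel, zpow_zero, map_one]; rfl
    trans := by
      rintro e e' e'' ⟨n, rfl⟩ ⟨m, rfl⟩
      exact ⟨m + n, by rw [zpow_add, R04_mul]⟩ }

/-- representative of the orbit -/
noncomputable def R04_rep (e : O.EE) : O.EE := (Quotient.mk (R04_setoid O) e).out

theorem R04_rep_spec (e : O.EE) : ∃ n : ℤ, O.act (fc ^ n) (R04_rep O e) = e :=
  Quotient.exact (s := R04_setoid O) (Quotient.out_eq (Quotient.mk (R04_setoid O) e))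

theorem R04_rep_act (e : O.EE) : R04_rep O (O.act fc e) = R04_rep O e := by
  unfold R04_rep
  congr 1
  apply Quotient.sound (s := R04_setoid O)
  refine ⟨-1, ?_⟩
  rw [← R04_mul, zpow_neg, zpow_one, inv_mul_cancel, map_one]; rfl

open Classical in
/-- the transversal -/
noncomputable def R04_t (e : O.EE) : FF :=
  if e = O.e0 then 1 else fc ^ (R04_rep_spec O e).choose * (O.trans (R04_rep O e)).choose

theorem R04_t_spec (e : O.EE) : O.act (R04_t O e) O.e0 = e := by
  unfold R04_t
  split_ifs with h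
  · rw [map_one, h]; rfl
  · rw [R04_mul, (O.trans (R04_rep O e)).choose_spec, (R04_rep_spec O e).choose_spec]

theorem R04_t_fc {e : O.EE} (h : e ≠ O.e0) : R04_t O (O.act fc e) = fc * R04_t O e := by
  have h2 : O.act fc e ≠ O.e0 := by
    have := R04_ne O h 1
    rwa [zpow_one] at this
  unfold R04_t
  rw [if_neg h, if_neg h2]
  have h3 := R04_rep_act O e
  have h4 := (R04_rep_spec O (O.act fc e)).choose_spec
  have h5 := (R04_rep_spec O e).choose_spec
  set n := (R04_rep_spec O (O.act fc e)).choose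
  set m := (R04_rep_spec O e).choose
  have h6 : n = m + 1 := by
    have hr : R04_rep O e ≠ O.e0 := by
      intro hr
      rw [hr, R04_fix] at h5
      exact h h5.symm
    have h7 : O.act (fc ^ (n - (m + 1))) (R04_rep O e) = R04_rep O e := by
      apply (O.act (fc ^ (m + 1))).injective
      rw [← R04_mul, ← zpow_add, show m + 1 + (n - (m + 1)) = n by ring]
      rw [h3] at h4
      rw [h4, add_comm m 1, zpow_add, zpow_one, R04_mul, h5]
    have := O.free _ hr _ h7
    omega
  have h8 : (O.trans (R04_rep O (O.act fc e))).choose = (O.trans (R04_rep O e)).choose := by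
    rw [h3]
  rw [h8, h6, add_comm m 1, zpow_add, zpow_one, mul_assoc]

theorem R04_m_exists (g : FF) (e : O.EE) : ∃ n : ℤ, g * R04_t O e = R04_t O (O.act g e) * fc ^ n := by
  have h : O.act ((R04_t O (O.act g e))⁻¹ * (g * R04_t O e)) O.e0 = O.e0 := by
    rw [R04_mul, R04_mul, R04_t_spec]
    conv_lhs => rw [← R04_t_spec O (O.act g e)]
    rw [← R04_mul, R04_t_spec, inv_mul_cancel, map_one]; rfl
  obtain ⟨n, hn⟩ := (O.stab0 _).1 h
  refine ⟨n, ?_⟩
  have hn' : fc ^ n = (R04_t O (O.act g e))⁻¹ * (g * R04_t O e) := hn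
  rw [hn']; group

/-- the cocycle -/
noncomputable def R04_m (g : FF) (e : O.EE) : ℤ := (R04_m_exists O g e).choose

theorem R04_m_spec (g : FF) (e : O.EE) : g * R04_t O e = R04_t O (O.act g e) * fc ^ R04_m O g e :=
  (R04_m_exists O g e).choose_spec

theorem R04_m_unique {g : FF} {e : O.EE} {n : ℤ} (h : g * R04_t O e = R04_t O (O.act g e) * fc ^ n) :
    R04_m O g e = n := by
  have h1 := R04_m_spec O g e
  rw [h] at h1
  exact (R04_inj O (mul_left_cancel h1)).symm

end

theorem exists_coc (O : OrbitData) : Nonempty (Coc O) := by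
  have te0 : R04_t O O.e0 = 1 := if_pos rfl
  refine ⟨⟨R04_t O, R04_t_spec O, te0, R04_m O, R04_m_spec O, ?_, ?_, ?_, ?_, ?_⟩⟩
  · intro e
    apply R04_m_unique
    rw [map_one, zpow_zero, one_mul, mul_one]; rfl
  · intro g h e
    apply R04_m_unique
    rw [mul_assoc, R04_m_spec O h e, ← mul_assoc, R04_m_spec O g (O.act h e), R04_mul, mul_assoc, ← zpow_add]
  · intro e he
    apply R04_m_unique
    rw [R04_t_fc O he, zpow_zero, mul_one]
  · apply R04_m_unique
    have h1 : O.act fc O.e0 = O.e0 := by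
      have := R04_fix O 1
      rwa [zpow_one] at this
    rw [h1, te0, zpow_one, one_mul, mul_one]
  · intro e
    apply R04_m_unique
    rw [te0, R04_t_spec, zpow_zero]

end Pool.Agent.AllSurf
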