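import Pool.Agent.Lib.MP_7f477e_gt.RLay

/-!
# MP_7f477e_gt, R05: the map `c` of the line

`act fc` fixes `e0` (`stab0`), so it preserves `{e < e0}` and `{e > e0}`. For `e < e0` the interval `J e` is in
`(0, 1/4)`, for `e > e0` it is in `(3/4, 1)`, so `J e - 1` is in `(-1/4, 0)`. Put `lt e = l e` for `e < e0` and
`lt e = l e - 1` for `e > e0`. Apply `R01_glue` with `I = ℤ × {e // e ≠ e0}`, `p (k,e) = k/2 + lt e`,
`q (k,e) = k/2 + lt e + w e`, `p' (k,e) = k/2 + lt (act fc e)`, `q' (k,e) = k/2 + lt (act fc e) + w (act fc e)`,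
`χ (k,e) x = p' (k,e) + (x - p (k,e)) * (w (act fc e) / w e)`.
* `hsep`: different `k`: the intervals are in `(k/2 - 1/4, k/2 + 1/4)`. Equal `k`: the two sides of `0`, or
  `ord` for `e`, `e'` on the same side.
* `hd`: inside `(u, v)` find a smaller interval contained in some `[k/2, k/2 + 1/4]` or
  `[k/2 - 1/4, k/2]` (or argue with `k = round (2u)`...), then `meets`; an `e` with `l e < 1/4` is `< e0`, one with
  `3/4 < l e + w e` is `> e0`. `hd'` is `hd` for `act fc⁻¹ e`, since `act fc` is a bijection.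
`c_half`: `R01_unique` for `c` and `t ↦ c (t + 1/2) - 1/2`, both are `χ` on the intervals.
`c_quarter`: no interval contains `1/4`; the intervals left of `1/4` go to intervals left of `1/4`, those right
of `1/4` to intervals right of `1/4`. If `c (1/4) ≠ 1/4`, some `p'`-interval meets the open interval between
them (`hd'`); its preimage is on the wrong side of `1/4`.
`c_J`: `k = 0` for `e < e0`, `k = 2` for `e > e0` (`2/2 + l e - 1 = l e`).
-/

set_option autoImplicit false

open Set

namespace Pool.Agent.AllSurf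

theorem R05_affine {p q p' q' : ℝ} (h : p < q) (h' : p' < q') :
    StrictMonoOn (fun x => p' + (x - p) * ((q' - p') / (q - p))) (Icc p q) ∧
      (fun x => p' + (x - p) * ((q' - p') / (q - p))) '' Icc p q = Icc p' q' := by
  have h1 : 0 < q - p := by linarith
  have h2 : 0 < q' - p' := by linarith
  have h3 : 0 < (q' - p') / (q - p) := div_pos h2 h1
  constructor
  · intro x _ y _ hxy
    have : (x - p) * ((q' - p') / (q - p)) < (y - p) * ((q' - p') / (q - p)) :=
      mul_lt_mul_of_pos_right (by linarith) h3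
    change p' + (x - p) * ((q' - p') / (q - p)) < p' + (y - p) * ((q' - p') / (q - p))
    linarith
  · ext y
    constructor
    · rintro ⟨x, ⟨hx1, hx2⟩, rfl⟩
      constructor
      · have := mul_nonneg (sub_nonneg.2 hx1) h3.le
        change p' ≤ p' + (x - p) * ((q' - p') / (q - p))
        linarith
      · have h4 : (x - p) * ((q' - p') / (q - p)) ≤ (q - p) * ((q' - p') / (q - p)) :=
          mul_le_mul_of_nonneg_right (by linarith) h3.le
        have h5 : (q - p) * ((q' - p') / (q - p)) = q' - p' := by field_simp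
        change p' + (x - p) * ((q' - p') / (q - p)) ≤ q'
        linarith
    · rintro ⟨hy1, hy2⟩
      refine ⟨p + (y - p') * ((q - p) / (q' - p')), ⟨?_, ?_⟩, ?_⟩
      · have := mul_nonneg (sub_nonneg.2 hy1) (div_pos h1 h2).le
        linarith
      · have h4 : (y - p') * ((q - p) / (q' - p')) ≤ (q' - p') * ((q - p) / (q' - p')) :=
          mul_le_mul_of_nonneg_right (by linarith) (div_pos h1 h2).le
        have h5 : (q' - p') * ((q - p) / (q' - p')) = q - p := by field_simp
        linarith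
      · change p' + (p + (y - p') * ((q - p) / (q' - p')) - p) * ((q' - p') / (q - p)) = y
        field_simp
        ring

section
variable {O : OrbitData} (L : Lay O)

/-- position of the left end point in `(-1/4, 1/4)` -/
noncomputable def R05_lt (e : O.EE) : ℝ := if e < O.e0 then L.l e else L.l e - 1

theorem R05_left {e : O.EE} (h : e < O.e0) : L.l e + L.w e < 1 / 4 := by
  have := L.ord e O.e0 h
  rwa [L.l_e0] at this

theorem R05_right {e : O.EE} (h : O.e0 < e) : 3 / 4 < L.l e := by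
  have := L.ord O.e0 e h
  rw [L.l_e0, L.w_e0] at this
  linarith

theorem R05_lt_left {e : O.EE} (h : e < O.e0) : R05_lt L e = L.l e := if_pos h

theorem R05_lt_right {e : O.EE} (h : O.e0 < e) : R05_lt L e = L.l e - 1 := if_neg (not_lt.2 h.le)

theorem R05_bd {e : O.EE} (h : e ≠ O.e0) : -(1 / 4) < R05_lt L e ∧ R05_lt L e + L.w e < 1 / 4 := by
  rcases lt_or_gt_of_ne h with h | h
  · rw [R05_lt_left L h]
    have := L.l_pos e
    have := R05_left L h
    constructor <;> linarith
  · rw [R05_lt_right L h]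
    have := L.r_lt e
    have := R05_right L h
    constructor <;> linarith

/-- the order of the positions -/
def R05_less (e e' : O.EE) : Prop := (O.e0 < e ∧ e' < O.e0) ∨ (e < e' ∧ (e < O.e0 ↔ e' < O.e0))

theorem R05_less_lt {e e' : O.EE} (he : e ≠ O.e0) (he' : e' ≠ O.e0) (h : R05_less e e') :
    R05_lt L e + L.w e < R05_lt L e' := by
  rcases h with ⟨h1, h2⟩ | ⟨h1, h2⟩
  · rw [R05_lt_left L h2, R05_lt_right L h1]
    have := L.r_lt e
    have := L.l_pos e'
    linarith
  · have h3 := L.ord e e' h1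
    rcases lt_or_gt_of_ne he with h | h
    · rw [R05_lt_left L h, R05_lt_left L (h2.1 h)]; exact h3
    · have h4 : O.e0 < e' := h.trans h1
      rw [R05_lt_right L h, R05_lt_right L h4]; linarith

theorem R05_less_total {e e' : O.EE} (he : e ≠ O.e0) (he' : e' ≠ O.e0) (hne : e ≠ e') :
    R05_less e e' ∨ R05_less e' e := by
  rcases lt_or_gt_of_ne he with h | h <;> rcases lt_or_gt_of_ne he' with h' | h'
  · rcases lt_or_gt_of_ne hne with h2 | h2
    · exact Or.inl (Or.inr ⟨h2, iff_of_true h h'⟩)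
    · exact Or.inr (Or.inr ⟨h2, iff_of_true h' h⟩)
  · exact Or.inr (Or.inl ⟨h', h⟩)
  · exact Or.inl (Or.inl ⟨h, h'⟩)
  · rcases lt_or_gt_of_ne hne with h2 | h2
    · exact Or.inl (Or.inr ⟨h2, iff_of_false (not_lt.2 h.le) (not_lt.2 h'.le)⟩)
    · exact Or.inr (Or.inr ⟨h2, iff_of_false (not_lt.2 h'.le) (not_lt.2 h.le)⟩)

theorem R05_fix : O.act fc O.e0 = O.e0 := (O.stab0 fc).2 (Subgroup.mem_zpowers fc)

theorem R05_act_lt {e : O.EE} : O.act fc e < O.e0 ↔ e < O.e0 := by
  conv_lhs => rw [← R05_fix (O := O)]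
  exact (O.act fc).lt_iff_lt

theorem R05_act_gt {e : O.EE} : O.e0 < O.act fc e ↔ O.e0 < e := by
  conv_lhs => rw [← R05_fix (O := O)]
  exact (O.act fc).lt_iff_lt

theorem R05_act_ne {e : O.EE} (h : e ≠ O.e0) : O.act fc e ≠ O.e0 := by
  intro h2
  rw [← R05_fix (O := O)] at h2
  exact h ((O.act fc).injective h2)

theorem R05_less_act {e e' : O.EE} (h : R05_less e e') : R05_less (O.act fc e) (O.act fc e') := by
  rcases h with ⟨h1, h2⟩ | ⟨h1, h2⟩
  · exact Or.inl ⟨R05_act_gt.2 h1, R05_act_lt.2 h2⟩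
  · exact Or.inr ⟨(O.act fc).lt_iff_lt.2 h1, by rw [R05_act_lt, R05_act_lt]; exact h2⟩

/-- left end points -/
noncomputable def R05_p (i : ℤ × {e : O.EE // e ≠ O.e0}) : ℝ := i.1 / 2 + R05_lt L i.2.1

/-- right end points -/
noncomputable def R05_q (i : ℤ × {e : O.EE // e ≠ O.e0}) : ℝ := i.1 / 2 + R05_lt L i.2.1 + L.w i.2.1

/-- the permutation of the intervals -/
def R05_s (i : ℤ × {e : O.EE // e ≠ O.e0}) : ℤ × {e : O.EE // e ≠ O.e0} :=
  (i.1, ⟨O.act fc i.2.1, R05_act_ne i.2.2⟩)

theorem R05_pq (i : ℤ × {e : O.EE // e ≠ O.e0}) : R05_p L i < R05_q L i := by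
  have := L.w_pos i.2.1
  unfold R05_p R05_q; linarith

theorem R05_hd (u v : ℝ) (huv : u < v) : ∃ i, R05_p L i < v ∧ u < R05_q L i := by
  set k := ⌊u + v⌋ with hk
  have k1 : (k : ℝ) ≤ u + v := Int.floor_le _
  have k2 : u + v < k + 1 := Int.lt_floor_add_one _
  rcases lt_or_ge ((u + v) / 2) (k / 2 + 1 / 4 : ℝ) with h | h
  · obtain ⟨e, he1, he2⟩ := L.meets (max (u - k / 2) 0) (min (v - k / 2) (1 / 4)) (le_max_right _ _)
      (max_lt (lt_min (by linarith) (by linarith)) (lt_min (by linarith) (by norm_num)))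
      ((min_le_right _ _).trans (by norm_num))
    have e1 : L.l e < v - k / 2 := lt_of_lt_of_le he1 (min_le_left _ _)
    have e2 : L.l e < 1 / 4 := lt_of_lt_of_le he1 (min_le_right _ _)
    have e3 : u - k / 2 < L.l e + L.w e := lt_of_le_of_lt (le_max_left _ _) he2
    have e4 : e < O.e0 := by
      rcases lt_trichotomy e O.e0 with h5 | h5 | h5
      · exact h5
      · rw [h5, L.l_e0] at e2; exact absurd e2 (lt_irrefl _)
      · have := R05_right L h5; linarith
    refine ⟨(k, ⟨e, e4.ne⟩), ?_, ?_⟩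
    · simp only [R05_p, R05_lt_left L e4]; linarith
    · simp only [R05_q, R05_lt_left L e4]; linarith
  · obtain ⟨e, he1, he2⟩ := L.meets (max (u - (k + 1) / 2 + 1) (3 / 4)) (min (v - (k + 1) / 2 + 1) 1)
      ((by norm_num : (0 : ℝ) ≤ 3 / 4).trans (le_max_right _ _))
      (max_lt (lt_min (by linarith) (by linarith)) (lt_min (by linarith) (by norm_num)))
      (min_le_right _ _)
    have e1 : L.l e < v - (k + 1) / 2 + 1 := lt_of_lt_of_le he1 (min_le_left _ _)
    have e2 : 3 / 4 < L.l e + L.w e := lt_of_le_of_lt (le_max_right _ _) he2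
    have e3 : u - (k + 1) / 2 + 1 < L.l e + L.w e := lt_of_le_of_lt (le_max_left _ _) he2
    have e4 : O.e0 < e := by
      rcases lt_trichotomy e O.e0 with h5 | h5 | h5
      · have := R05_left L h5; linarith
      · rw [h5, L.l_e0, L.w_e0] at e2; linarith
      · exact h5
    refine ⟨(k + 1, ⟨e, e4.ne'⟩), ?_, ?_⟩
    · simp only [R05_p, R05_lt_right L e4]; push_cast; linarith
    · simp only [R05_q, R05_lt_right L e4]; push_cast; linarith

theorem R05_s_surj (i : ℤ × {e : O.EE // e ≠ O.e0}) : ∃ j, R05_s j = i := by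
  obtain ⟨k, e, he⟩ := i
  have h1 : O.act fc ((O.act fc).symm e) = e := (O.act fc).apply_symm_apply e
  refine ⟨(k, ⟨(O.act fc).symm e, ?_⟩), ?_⟩
  · intro h
    rw [h, R05_fix] at h1
    exact he h1.symm
  · unfold R05_s
    simp only [h1]

theorem R05_sep_aux {i j : ℤ × {e : O.EE // e ≠ O.e0}}
    (h : i.1 < j.1 ∨ (i.1 = j.1 ∧ R05_less i.2.1 j.2.1)) : R05_q L i < R05_p L j := by
  have hi := R05_bd L i.2.2
  have hj := R05_bd L j.2.2
  rcases h with h | ⟨h, h2⟩
  · have : (i.1 : ℝ) + 1 ≤ j.1 := by exact_mod_cast h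
    unfold R05_p R05_q
    linarith
  · have := R05_less_lt L i.2.2 j.2.2 h2
    unfold R05_p R05_q
    rw [h]; linarith

theorem R05_sep (i j : ℤ × {e : O.EE // e ≠ O.e0}) (hne : i ≠ j) :
    (R05_q L i < R05_p L j ∧ R05_q L (R05_s i) < R05_p L (R05_s j)) ∨
      (R05_q L j < R05_p L i ∧ R05_q L (R05_s j) < R05_p L (R05_s i)) := by
  rcases lt_trichotomy i.1 j.1 with h | h | h
  · exact Or.inl ⟨R05_sep_aux L (Or.inl h), R05_sep_aux L (Or.inl h)⟩
  · have h2 : i.2.1 ≠ j.2.1 := by
      intro h3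
      apply hne
      exact Prod.ext h (Subtype.ext h3)
    rcases R05_less_total i.2.2 j.2.2 h2 with h3 | h3
    · exact Or.inl ⟨R05_sep_aux L (Or.inr ⟨h, h3⟩), R05_sep_aux L (Or.inr ⟨h, R05_less_act h3⟩)⟩
    · exact Or.inr ⟨R05_sep_aux L (Or.inr ⟨h.symm, h3⟩), R05_sep_aux L (Or.inr ⟨h.symm, R05_less_act h3⟩)⟩
  · exact Or.inr ⟨R05_sep_aux L (Or.inl h), R05_sep_aux L (Or.inl h)⟩

end

theorem exists_cLine {O : OrbitData} (L : Lay O) : Nonempty (CLine L) := by
  obtain ⟨c, hc⟩ := R01_glue (R05_p L) (R05_q L) (fun i => R05_p L (R05_s i)) (fun i => R05_q L (R05_s i))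
    (fun i x => R05_p L (R05_s i) + (x - R05_p L i) *
      ((R05_q L (R05_s i) - R05_p L (R05_s i)) / (R05_q L i - R05_p L i)))
    (R05_pq L) (fun i => R05_pq L _) (R05_sep L) (R05_hd L)
    (by
      intro u v huv
      obtain ⟨i, h1, h2⟩ := R05_hd L u v huv
      obtain ⟨j, rfl⟩ := R05_s_surj i
      exact ⟨j, h1, h2⟩)
    (fun i => (R05_affine (R05_pq L i) (R05_pq L (R05_s i))).1)
    (fun i => (R05_affine (R05_pq L i) (R05_pq L (R05_s i))).2)
  have hdense : Dense (⋃ i, Icc (R05_p L i) (R05_q L i)) := R01_dense _ _ (R05_pq L) (R05_hd L)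
  have himg : ∀ i, ∀ t ∈ Icc (R05_p L i) (R05_q L i),
      c t ∈ Icc (R05_p L (R05_s i)) (R05_q L (R05_s i)) := by
    intro i t ht
    rw [hc i t ht, ← (R05_affine (R05_pq L i) (R05_pq L (R05_s i))).2]
    exact ⟨t, ht, rfl⟩
  have hval : ∀ i, ∀ s : ℝ, 0 ≤ s → s ≤ 1 → c (R05_p L i + s * L.w i.2.1) =
      R05_p L (R05_s i) + s * L.w (O.act fc i.2.1) := by
    intro i s h0 h1
    have hw := L.w_pos i.2.1
    have hmem : R05_p L i + s * L.w i.2.1 ∈ Icc (R05_p L i) (R05_q L i) := by
      constructor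
      · have := mul_nonneg h0 hw.le; linarith
      · have : s * L.w i.2.1 ≤ 1 * L.w i.2.1 := mul_le_mul_of_nonneg_right h1 hw.le
        unfold R05_p R05_q; linarith
    rw [hc i _ hmem]
    have e1 : R05_q L i - R05_p L i = L.w i.2.1 := by unfold R05_p R05_q; ring
    have e2 : R05_q L (R05_s i) - R05_p L (R05_s i) = L.w (O.act fc i.2.1) := by
      unfold R05_p R05_q R05_s; ring
    rw [e1, e2]
    field_simp
    ring
  have hhalf : ∀ t : ℝ, c (t + 1 / 2) = c t + 1 / 2 := by
    have h1 : ((OrderIso.addRight (1 / 2 : ℝ)).trans c).trans (OrderIso.addRight (-(1 / 2) : ℝ)) = c := by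
      refine R01_unique _ _ _ hdense ?_
      intro t ht
      obtain ⟨i, hi⟩ := mem_iUnion.1 ht
      have hi' : t + 1 / 2 ∈ Icc (R05_p L (i.1 + 1, i.2)) (R05_q L (i.1 + 1, i.2)) := by
        unfold R05_p R05_q at *
        simp only at *
        push_cast
        constructor <;> linarith [hi.1, hi.2]
      change c (t + 1 / 2) + -(1 / 2) = c t
      rw [hc i t hi, hc _ _ hi']
      have e1 : R05_p L (i.1 + 1, i.2) = R05_p L i + 1 / 2 := by unfold R05_p; push_cast; ring
      have e2 : R05_q L (i.1 + 1, i.2) = R05_q L i + 1 / 2 := by unfold R05_q; push_cast; ring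
      have e3 : R05_p L (R05_s (i.1 + 1, i.2)) = R05_p L (R05_s i) + 1 / 2 := by
        unfold R05_p R05_s; push_cast; ring
      have e4 : R05_q L (R05_s (i.1 + 1, i.2)) = R05_q L (R05_s i) + 1 / 2 := by
        unfold R05_q R05_s; push_cast; ring
      rw [e1, e2, e3, e4]
      rw [show R05_q L (R05_s i) + 1 / 2 - (R05_p L (R05_s i) + 1 / 2) =
        R05_q L (R05_s i) - R05_p L (R05_s i) by ring,
        show R05_q L i + 1 / 2 - (R05_p L i + 1 / 2) = R05_q L i - R05_p L i by ring,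
        show t + 1 / 2 - (R05_p L i + 1 / 2) = t - R05_p L i by ring]
      ring
    intro t
    have h2 := congrArg (fun T : ℝ ≃o ℝ => T t) h1
    change c (t + 1 / 2) + -(1 / 2) = c t at h2
    linarith
  have hlow : ∀ t ∈ (⋃ i, Icc (R05_p L i) (R05_q L i)), t < 1 / 4 → c t < 1 / 4 := by
    intro t ht h
    obtain ⟨i, hi⟩ := mem_iUnion.1 ht
    have h1 := himg i t hi
    have b1 := R05_bd L i.2.2
    have b2 := R05_bd L (R05_s i).2.2
    have h2 := hi.1
    have h3 := h1.2
    unfold R05_p at h2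
    unfold R05_q at h3
    have h4 : ((R05_s i).1 : ℝ) = i.1 := rfl
    rw [h4] at h3
    have h5 : (i.1 : ℝ) < 1 := by linarith
    have h6 : i.1 < 1 := by exact_mod_cast h5
    have h7 : (i.1 : ℝ) ≤ 0 := by
      have : i.1 ≤ 0 := by omega
      exact_mod_cast this
    linarith [b2.2]
  have hhigh : ∀ t ∈ (⋃ i, Icc (R05_p L i) (R05_q L i)), 1 / 4 < t → 1 / 4 < c t := by
    intro t ht h
    obtain ⟨i, hi⟩ := mem_iUnion.1 ht
    have h1 := himg i t hi
    have b1 := R05_bd L i.2.2
    have b2 := R05_bd L (R05_s i).2.2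
    have h2 := hi.2
    have h3 := h1.1
    unfold R05_q at h2
    unfold R05_p at h3
    have h4 : ((R05_s i).1 : ℝ) = i.1 := rfl
    rw [h4] at h3
    have h5 : (0 : ℝ) < i.1 := by linarith
    have h6 : 0 < i.1 := by exact_mod_cast h5
    have h7 : (1 : ℝ) ≤ i.1 := by
      have : 1 ≤ i.1 := by omega
      exact_mod_cast this
    linarith [b2.1]
  have hquarter : c (1 / 4) = 1 / 4 := by
    rcases lt_trichotomy (c (1 / 4)) (1 / 4) with h | h | h
    · exfalso
      have h2 : c (1 / 4) < c (c.symm (1 / 4)) := by rw [c.apply_symm_apply]; exact h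
      have h3 : 1 / 4 < c.symm (1 / 4) := c.lt_iff_lt.1 h2
      obtain ⟨t, ht, ht1, ht2⟩ := hdense.exists_between h3
      have h4 := hhigh t ht ht1
      have h5 : c t < c (c.symm (1 / 4)) := c.strictMono ht2
      rw [c.apply_symm_apply] at h5
      linarith
    · exact h
    · exfalso
      have h2 : c (c.symm (1 / 4)) < c (1 / 4) := by rw [c.apply_symm_apply]; exact h
      have h3 : c.symm (1 / 4) < 1 / 4 := c.lt_iff_lt.1 h2
      obtain ⟨t, ht, ht1, ht2⟩ := hdense.exists_between h3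
      have h4 := hlow t ht ht2
      have h5 : c (c.symm (1 / 4)) < c t := c.strictMono ht1
      rw [c.apply_symm_apply] at h5
      linarith
  refine ⟨⟨c, hhalf, hquarter, ?_⟩⟩
  intro e he s h0 h1
  rcases lt_or_gt_of_ne he with h | h
  · have h2 := hval (0, ⟨e, he⟩) s h0 h1
    have e1 : R05_p L (0, ⟨e, he⟩) = L.l e := by
      unfold R05_p; simp only [R05_lt_left L h]; push_cast; ring
    have e2 : R05_p L (R05_s (0, ⟨e, he⟩)) = L.l (O.act fc e) := by
      unfold R05_p R05_s
      simp only [R05_lt_left L (R05_act_lt.2 h)]; push_cast; ring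
    rw [e1, e2] at h2
    exact h2
  · have h2 := hval (2, ⟨e, he⟩) s h0 h1
    have e1 : R05_p L (2, ⟨e, he⟩) = L.l e := by
      unfold R05_p; simp only [R05_lt_right L h]; push_cast; ring
    have e2 : R05_p L (R05_s (2, ⟨e, he⟩)) = L.l (O.act fc e) := by
      unfold R05_p R05_s
      simp only [R05_lt_right L (R05_act_gt.2 h)]; push_cast; ring
    rw [e1, e2] at h2
    exact h2

end Pool.Agent.AllSurf
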