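import Pool.Agent.Lib.MP_7f477e_gt.RLay

/-!
# MP_7f477e_gt, R06: the action on the line

`exists_rho_map`: `R01_glue` with `I = ℤ × EE`, `p (n,e) = n + l e`, `q (n,e) = n + l e + w e`,
`p' (n,e) = n + l (act g e)`, `q' (n,e) = n + l (act g e) + w (act g e)`,
`χ (n,e) x = n + sc (act g e) ((c ^ m g e) (1/4 + (x - n - l e) / (2 w e)))`. All powers of `c` fix `1/4` and `3/4`, so they
map `[1/4, 3/4]` onto itself. Then `rho g` is a homomorphism by `R01_unique` (the points `n + sc e s`,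
`1/4 ≤ s ≤ 3/4`, are dense by `R01_dense`), `m_mul`, `m_one`.
-/

set_option autoImplicit false

open Set

namespace Pool.Agent.AllSurf

theorem R06_hd {O : OrbitData} (L : Lay O) (u v : ℝ) (huv : u < v) :
    ∃ i : ℤ × O.EE, (i.1 : ℝ) + L.l i.2 < v ∧ u < i.1 + L.l i.2 + L.w i.2 := by
  have h0 : (0 : ℝ) ≤ u - ⌊u⌋ := by linarith [Int.floor_le u]
  have h1 : u - ⌊u⌋ < min (v - ⌊u⌋) 1 := by
    rw [lt_min_iff]
    exact ⟨by linarith, by linarith [Int.lt_floor_add_one u]⟩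
  obtain ⟨e, he1, he2⟩ := L.meets (u - ⌊u⌋) (min (v - ⌊u⌋) 1) h0 h1 (min_le_right _ _)
  refine ⟨(⌊u⌋, e), ?_, ?_⟩
  · have := lt_of_lt_of_le he1 (min_le_left _ _)
    show (⌊u⌋ : ℝ) + L.l e < v
    linarith
  · show u < (⌊u⌋ : ℝ) + L.l e + L.w e
    linarith

theorem R06_sep {O : OrbitData} (i j : ℤ × O.EE) (h : i ≠ j) :
    (i.1 < j.1 ∨ (i.1 = j.1 ∧ i.2 < j.2)) ∨ (j.1 < i.1 ∨ (j.1 = i.1 ∧ j.2 < i.2)) := by
  rcases lt_trichotomy i.1 j.1 with h1 | h1 | h1
  · exact Or.inl (Or.inl h1)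
  · rcases lt_trichotomy i.2 j.2 with h2 | h2 | h2
    · exact Or.inl (Or.inr ⟨h1, h2⟩)
    · exact absurd (Prod.ext h1 h2) h
    · exact Or.inr (Or.inr ⟨h1.symm, h2⟩)
  · exact Or.inr (Or.inl h1)

theorem R06_lt {O : OrbitData} (L : Lay O) (i j : ℤ × O.EE)
    (h : i.1 < j.1 ∨ (i.1 = j.1 ∧ i.2 < j.2)) :
    (i.1 : ℝ) + L.l i.2 + L.w i.2 < j.1 + L.l j.2 := by
  rcases h with h | ⟨h, h'⟩
  · have h1 : (i.1 : ℝ) + 1 ≤ j.1 := by exact_mod_cast h
    have := L.r_lt i.2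
    have := L.l_pos j.2
    linarith
  · rw [h]
    have := L.ord _ _ h'
    linarith

/-- the points of the intervals `n + J e` are dense -/
theorem dense_sc {O : OrbitData} (L : Lay O) :
    Dense {x : ℝ | ∃ (n : ℤ) (e : O.EE) (s : ℝ), 1 / 4 ≤ s ∧ s ≤ 3 / 4 ∧ x = n + L.sc e s} := by
  refine (R01_dense (I := ℤ × O.EE) (fun i => i.1 + L.l i.2) (fun i => i.1 + L.l i.2 + L.w i.2) ?_
    (R06_hd L)).mono ?_
  · intro i
    have := L.w_pos i.2
    linarith
  · intro x hx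
    obtain ⟨i, h1, h2⟩ := mem_iUnion.1 hx
    have hw := L.w_pos i.2
    refine ⟨i.1, i.2, 1 / 4 + (x - i.1 - L.l i.2) / (2 * L.w i.2), ?_, ?_, ?_⟩
    · have : 0 ≤ (x - i.1 - L.l i.2) / (2 * L.w i.2) := div_nonneg (by linarith) (by linarith)
      linarith
    · have : (x - i.1 - L.l i.2) / (2 * L.w i.2) ≤ 1 / 2 := by
        rw [div_le_iff₀ (by linarith)]; linarith
      linarith
    · unfold Lay.sc
      field_simp
      ring

theorem R06_pow_fix (c : ℝ ≃o ℝ) (x : ℝ) (h : c x = x) (n : ℤ) : (c ^ n) x = x := by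
  have h1 : c ∈ MulAction.stabilizer (ℝ ≃o ℝ) x := h
  exact Subgroup.zpow_mem _ h1 n

theorem exists_rho_map {O : OrbitData} (L : Lay O) (C : Coc O) (c : ℝ ≃o ℝ) (h1 : c (1 / 4) = 1 / 4)
    (h2 : c (3 / 4) = 3 / 4) (g : FF) : ∃ F : ℝ ≃o ℝ, ∀ (n : ℤ) (e : O.EE) (s : ℝ), 1 / 4 ≤ s →
      s ≤ 3 / 4 → F (n + L.sc e s) = n + L.sc (O.act g e) ((c ^ C.m g e) s) := by
  have hc1 : ∀ e, (c ^ C.m g e) (1 / 4) = 1 / 4 := fun e => R06_pow_fix c _ h1 _
  have hc2 : ∀ e, (c ^ C.m g e) (3 / 4) = 3 / 4 := fun e => R06_pow_fix c _ h2 _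
  obtain ⟨F, hF⟩ := R01_glue (I := ℤ × O.EE) (fun i => i.1 + L.l i.2)
    (fun i => i.1 + L.l i.2 + L.w i.2) (fun i => i.1 + L.l (O.act g i.2))
    (fun i => i.1 + L.l (O.act g i.2) + L.w (O.act g i.2))
    (fun i x => i.1 + L.sc (O.act g i.2)
      ((c ^ C.m g i.2) (1 / 4 + (x - i.1 - L.l i.2) / (2 * L.w i.2))))
    (fun i => by have := L.w_pos i.2; show _ < _; linarith)
    (fun i => by have := L.w_pos (O.act g i.2); show _ < _; linarith)
    (by
      intro i j hij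
      rcases R06_sep i j hij with h | h
      · left
        refine ⟨R06_lt L i j h, R06_lt L (i.1, O.act g i.2) (j.1, O.act g j.2) ?_⟩
        rcases h with h | ⟨h, h'⟩
        · exact Or.inl h
        · exact Or.inr ⟨h, (O.act g).strictMono h'⟩
      · right
        refine ⟨R06_lt L j i h, R06_lt L (j.1, O.act g j.2) (i.1, O.act g i.2) ?_⟩
        rcases h with h | ⟨h, h'⟩
        · exact Or.inl h
        · exact Or.inr ⟨h, (O.act g).strictMono h'⟩)
    (R06_hd L)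
    (by
      intro u v huv
      obtain ⟨i, h3, h4⟩ := R06_hd L u v huv
      refine ⟨(i.1, (O.act g).symm i.2), ?_, ?_⟩
      · simpa using h3
      · simpa using h4)
    (by
      intro i x hx y hy hxy
      have hw := L.w_pos i.2
      have hw' := L.w_pos (O.act g i.2)
      have h3 : 1 / 4 + (x - i.1 - L.l i.2) / (2 * L.w i.2) <
          1 / 4 + (y - i.1 - L.l i.2) / (2 * L.w i.2) := by
        have := (div_lt_div_iff_of_pos_right (show (0 : ℝ) < 2 * L.w i.2 by linarith)).2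
          (show x - i.1 - L.l i.2 < y - i.1 - L.l i.2 by linarith)
        linarith
      have h4 := (c ^ C.m g i.2).strictMono h3
      simp only [Lay.sc]
      nlinarith)
    (by
      intro i
      have hw := L.w_pos i.2
      have hw' := L.w_pos (O.act g i.2)
      ext y
      constructor
      · rintro ⟨x, ⟨hx1, hx2⟩, rfl⟩
        have e1 : 1 / 4 ≤ 1 / 4 + (x - i.1 - L.l i.2) / (2 * L.w i.2) := by
          have : 0 ≤ (x - i.1 - L.l i.2) / (2 * L.w i.2) := div_nonneg (by linarith) (by linarith)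
          linarith
        have e2 : 1 / 4 + (x - i.1 - L.l i.2) / (2 * L.w i.2) ≤ 3 / 4 := by
          have : (x - i.1 - L.l i.2) / (2 * L.w i.2) ≤ 1 / 2 := by
            rw [div_le_iff₀ (by linarith)]; linarith
          linarith
        have e3 := (c ^ C.m g i.2).monotone e1
        have e4 := (c ^ C.m g i.2).monotone e2
        rw [hc1] at e3
        rw [hc2] at e4
        simp only [Lay.sc, mem_Icc]
        constructor <;> nlinarith
      · rintro ⟨hy1, hy2⟩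
        -- the parameter of `y`
        set s : ℝ := 1 / 4 + (y - i.1 - L.l (O.act g i.2)) / (2 * L.w (O.act g i.2)) with hs
        have s1 : 1 / 4 ≤ s := by
          have : 0 ≤ (y - i.1 - L.l (O.act g i.2)) / (2 * L.w (O.act g i.2)) :=
            div_nonneg (by linarith) (by linarith)
          linarith
        have s2 : s ≤ 3 / 4 := by
          have : (y - i.1 - L.l (O.act g i.2)) / (2 * L.w (O.act g i.2)) ≤ 1 / 2 := by
            rw [div_le_iff₀ (by linarith)]; linarith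
          linarith
        set s' : ℝ := (c ^ C.m g i.2).symm s with hs'
        have hs'' : (c ^ C.m g i.2) s' = s := OrderIso.apply_symm_apply _ _
        have t1 : 1 / 4 ≤ s' := by
          rw [← (c ^ C.m g i.2).le_iff_le, hs'', hc1]; exact s1
        have t2 : s' ≤ 3 / 4 := by
          rw [← (c ^ C.m g i.2).le_iff_le, hs'', hc2]; exact s2
        refine ⟨i.1 + L.sc i.2 s', ⟨?_, ?_⟩, ?_⟩
        · simp only [Lay.sc]; nlinarith
        · simp only [Lay.sc]; nlinarith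
        · have e1 : 1 / 4 + ((i.1 : ℝ) + L.sc i.2 s' - i.1 - L.l i.2) / (2 * L.w i.2) = s' := by
            simp only [Lay.sc]
            field_simp
            ring
          simp only
          rw [e1, hs'', hs]
          simp only [Lay.sc]
          field_simp
          ring)
  refine ⟨F, fun n e s hs1 hs2 => ?_⟩
  have hw := L.w_pos e
  have h3 := hF (n, e) (n + L.sc e s) ⟨by simp only [Lay.sc]; nlinarith, by
    simp only [Lay.sc]; nlinarith⟩
  rw [h3]
  have e1 : 1 / 4 + ((n : ℝ) + L.sc e s - n - L.l e) / (2 * L.w e) = s := by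
    simp only [Lay.sc]
    field_simp
    ring
  simp only
  rw [e1]

theorem R06_range {O : OrbitData} (C : Coc O) (c : ℝ ≃o ℝ) (h1 : c (1 / 4) = 1 / 4)
    (h2 : c (3 / 4) = 3 / 4) (g : FF) (e : O.EE) (s : ℝ) (hs1 : 1 / 4 ≤ s) (hs2 : s ≤ 3 / 4) :
    1 / 4 ≤ (c ^ C.m g e) s ∧ (c ^ C.m g e) s ≤ 3 / 4 := by
  have e3 := (c ^ C.m g e).monotone hs1
  have e4 := (c ^ C.m g e).monotone hs2
  rw [R06_pow_fix c _ h1] at e3
  rw [R06_pow_fix c _ h2] at e4
  exact ⟨e3, e4⟩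

theorem exists_rho {O : OrbitData} (L : Lay O) (C : Coc O) (c : ℝ ≃o ℝ) (h1 : c (1 / 4) = 1 / 4)
    (h2 : c (3 / 4) = 3 / 4) : ∃ rho : FF →* (ℝ ≃o ℝ), ∀ (g : FF) (n : ℤ) (e : O.EE) (s : ℝ),
      1 / 4 ≤ s → s ≤ 3 / 4 → rho g (n + L.sc e s) = n + L.sc (O.act g e) ((c ^ C.m g e) s) := by
  choose F hF using exists_rho_map L C c h1 h2
  refine ⟨{ toFun := F, map_one' := ?_, map_mul' := ?_ }, fun g => hF g⟩
  · refine R01_unique _ _ _ (dense_sc L) ?_
    rintro _ ⟨n, e, s, hs1, hs2, rfl⟩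
    rw [hF 1 n e s hs1 hs2, C.m_one, map_one, zpow_zero]
    rfl
  · intro g h
    refine R01_unique _ _ _ (dense_sc L) ?_
    rintro _ ⟨n, e, s, hs1, hs2, rfl⟩
    have hr := R06_range C c h1 h2 h e s hs1 hs2
    show F (g * h) (n + L.sc e s) = F g (F h (n + L.sc e s))
    rw [hF (g * h) n e s hs1 hs2, hF h n e s hs1 hs2, hF g n _ _ hr.1 hr.2, C.m_mul, map_mul, zpow_add]
    rfl

end Pool.Agent.AllSurf
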