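import Pool.Agent.Lib.MP_7f477e_gt.R03
import Pool.Agent.Lib.MP_7f477e_gt.R04
import Pool.Agent.Lib.MP_7f477e_gt.R05
import Pool.Agent.Lib.MP_7f477e_gt.R06

/-!
# MP_7f477e_gt, R07: the output of part R
-/

set_option autoImplicit false

open Set

namespace Pool.Agent.AllSurf

theorem R07_add_int {O : OrbitData} {L : Lay O} (K : CLine L) (t : ℝ) (n : ℤ) :
    K.c (t + n) = K.c t + n := by
  have h1 : ∀ t : ℝ, K.c (t + 1) = K.c t + 1 := by
    intro t
    have := K.c_half (t + 1 / 2)
    rw [K.c_half t] at this
    rw [show t + 1 = t + 1 / 2 + 1 / 2 by ring, this]; ring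
  induction n using Int.induction_on with
  | zero => simp
  | succ n ih =>
    rw [show t + ((n + 1 : ℤ) : ℝ) = t + (n : ℤ) + 1 by push_cast; ring, h1, ih]; push_cast; ring
  | pred n ih =>
    have h2 := h1 (t + ((-(n : ℤ) - 1 : ℤ) : ℝ))
    rw [show t + ((-(n : ℤ) - 1 : ℤ) : ℝ) + 1 = t + ((-(n : ℤ) : ℤ) : ℝ) by push_cast; ring, ih] at h2
    push_cast at h2 ⊢
    linarith

theorem nonempty_intervalAction (O : OrbitData) : Nonempty IntervalAction := by
  obtain ⟨L⟩ := exists_lay O
  obtain ⟨C⟩ := exists_coc O
  obtain ⟨K⟩ := exists_cLine L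
  have h1 := K.c_quarter
  have h2 : K.c (3 / 4) = 3 / 4 := by
    have := K.c_half (1 / 4)
    rw [h1] at this
    rw [show (3 / 4 : ℝ) = 1 / 4 + 1 / 2 by norm_num, this]
  obtain ⟨rho, hrho⟩ := exists_rho L C K.c h1 h2
  have sc_left : ∀ e, L.sc e (1 / 4) = L.l e := by intro e; simp [Lay.sc]
  have sc_right : ∀ e, L.sc e (3 / 4) = L.l e + L.w e := by intro e; simp only [Lay.sc]; ring
  have sc_e0 : ∀ s, L.sc O.e0 s = s := by
    intro s; simp only [Lay.sc, L.l_e0, L.w_e0]; ring
  have left : ∀ g e, rho g (L.l e) = L.l (O.act g e) := by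
    intro g e
    have := hrho g 0 e (1 / 4) le_rfl (by norm_num)
    rw [R06_pow_fix _ _ h1, sc_left, sc_left] at this
    simpa using this
  have right : ∀ g e, rho g (L.l e + L.w e) = L.l (O.act g e) + L.w (O.act g e) := by
    intro g e
    have := hrho g 0 e (3 / 4) (by norm_num) le_rfl
    rw [R06_pow_fix _ _ h2, sc_right, sc_right] at this
    simpa using this
  have shift : ∀ (g : FF) (t : ℝ), rho g (t + 1) = rho g t + 1 := by
    intro g t
    have h3 : ((OrderIso.addRight (1 : ℝ)).trans (rho g)).trans (OrderIso.addRight (1 : ℝ)).symm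
        = rho g := by
      refine R01_unique _ _ _ (dense_sc L) ?_
      rintro _ ⟨n, e, s, hs1, hs2, rfl⟩
      have h4 := hrho g (n + 1) e s hs1 hs2
      have h5 := hrho g n e s hs1 hs2
      show (OrderIso.addRight (1 : ℝ)).symm (rho g (n + L.sc e s + 1)) = rho g (n + L.sc e s)
      rw [OrderIso.symm_apply_eq]
      show rho g (n + L.sc e s + 1) = rho g (n + L.sc e s) + 1
      rw [h5, show (n : ℝ) + L.sc e s + 1 = ((n + 1 : ℤ) : ℝ) + L.sc e s by push_cast; ring, h4]
      push_cast; ring
    have h4 := congrArg (fun F : ℝ ≃o ℝ => F t) h3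
    have h5 : (OrderIso.addRight (1 : ℝ)).symm (rho g (t + 1)) = rho g t := h4
    rw [OrderIso.symm_apply_eq] at h5
    exact h5
  have zero : ∀ g : FF, rho g 0 = 0 := by
    intro g
    rcases lt_trichotomy (rho g 0) 0 with h | h | h
    · exfalso
      obtain ⟨e, he1, he2⟩ := L.meets (max (rho g 0 + 1) 0) 1 (le_max_right _ _)
        (max_lt (by linarith) one_pos) le_rfl
      have e1 : rho g 0 + 1 < L.l e + L.w e := lt_of_le_of_lt (le_max_left _ _) he2
      have e2 := right g ((O.act g).symm e)
      rw [OrderIso.apply_symm_apply] at e2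
      have e3 := L.r_lt ((O.act g).symm e)
      have e4 := (rho g).strictMono e3
      rw [e2] at e4
      have e5 := shift g 0
      rw [zero_add] at e5
      have e6 := L.r_lt e
      linarith [e5]
    · exact h
    · exfalso
      obtain ⟨e, he1, he2⟩ := L.meets 0 (min (rho g 0) 1) le_rfl (lt_min h one_pos) (min_le_right _ _)
      have e1 : L.l e < rho g 0 := lt_of_lt_of_le he1 (min_le_left _ _)
      have e2 := left g ((O.act g).symm e)
      rw [OrderIso.apply_symm_apply] at e2
      have e3 := (rho g).strictMono (L.l_pos ((O.act g).symm e))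
      rw [e2] at e3
      linarith
  have hc : rho fc = K.c := by
    refine R01_unique _ _ _ (dense_sc L) ?_
    rintro _ ⟨n, e, s, hs1, hs2, rfl⟩
    rw [hrho fc n e s hs1 hs2, add_comm (n : ℝ) (L.sc e s), R07_add_int K]
    by_cases he : e = O.e0
    · subst he
      have h3 : O.act fc O.e0 = O.e0 := (O.stab0 fc).2 (Subgroup.mem_zpowers _)
      rw [C.m_fc_e0, zpow_one, h3, sc_e0, sc_e0]
      ring
    · rw [C.m_fc e he, zpow_zero]
      have h3 := K.c_J e he (2 * (s - 1 / 4)) (by linarith) (by linarith)
      have h4 : L.sc e s = L.l e + 2 * (s - 1 / 4) * L.w e := rfl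
      rw [h4, h3]
      show (n : ℝ) + L.sc (O.act fc e) s = _
      simp only [Lay.sc]
      ring
  refine ⟨{
    EE := O.EE
    lin := O.lin
    dns := O.dns
    nomin := O.nomin
    nomax := O.nomax
    act := O.act
    e0 := O.e0
    stab0 := O.stab0
    l := L.l
    w := L.w
    w_pos := L.w_pos
    l_e0 := L.l_e0
    w_e0 := L.w_e0
    l_pos := L.l_pos
    r_lt := L.r_lt
    ord := L.ord
    meets := L.meets
    rho := rho
    rho_shift := shift
    rho_zero := zero
    rho_left := left
    rho_right := right
    scale := ?_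
    h_c := ?_
    point := L.pt
    point_pos := L.pt_pos
    point_lt := L.pt_lt
    point_notMem := ?_
    point_stab := ?_ }⟩
  · intro e
    refine ⟨C.t e, C.t_spec e, ?_⟩
    intro s hs0 hs1
    have h3 := hrho (C.t e) 0 O.e0 (1 / 4 + s / 2) (by linarith) (by linarith)
    rw [C.m_t, zpow_zero, C.t_spec, sc_e0] at h3
    simp only [Int.cast_zero, zero_add] at h3
    rw [h3]
    show L.sc e (1 / 4 + s / 2) = _
    simp only [Lay.sc]
    ring
  · intro t
    rw [hc]; exact K.c_half t
  · intro A e
    by_cases he : e ∈ O.cut A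
    · exact Or.inr (L.pt_cut A e he)
    · exact Or.inl (L.pt_ncut A e he)
  · intro A g
    rw [← O.cut_stab A g]
    constructor
    · intro h e
      constructor
      · intro he
        by_contra h3
        have e1 := L.pt_cut A e he
        have e2 := (rho g).strictMono e1
        rw [right, h] at e2
        have e3 := L.pt_ncut A _ h3
        have e4 := L.w_pos (O.act g e)
        linarith
      · intro he
        by_contra h3
        have e1 := L.pt_ncut A e h3
        have e2 := (rho g).strictMono e1
        rw [left, h] at e2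
        have e3 := L.pt_cut A _ he
        have e4 := L.w_pos (O.act g e)
        linarith
    · intro h
      by_contra hne
      have r0 : 0 < rho g (L.pt A) := by
        have := (rho g).strictMono (L.pt_pos A)
        rwa [zero] at this
      have r1 : rho g (L.pt A) < 1 := by
        have := (rho g).strictMono (L.pt_lt A)
        have h5 := shift g 0
        rw [zero_add, zero] at h5
        rw [h5] at this
        linarith
      have p0 := L.pt_pos A
      have p1 := L.pt_lt A
      have huv : min (L.pt A) (rho g (L.pt A)) < max (L.pt A) (rho g (L.pt A)) := by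
        rcases lt_or_gt_of_ne hne with h3 | h3
        · rw [min_eq_right h3.le, max_eq_left h3.le]; exact h3
        · rw [min_eq_left h3.le, max_eq_right h3.le]; exact h3
      obtain ⟨e, he1, he2⟩ := L.meets _ _ (le_min p0.le r0.le) huv (max_le p1.le r1.le)
      have hge : ∃ e', O.act g e' = e := ⟨(O.act g).symm e, OrderIso.apply_symm_apply _ _⟩
      obtain ⟨e', rfl⟩ := hge
      by_cases he : e' ∈ O.cut A
      · have e1 := L.pt_cut A _ ((h e').1 he)
        have e2 := (rho g).strictMono (L.pt_cut A _ he)
        rw [right] at e2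
        have := lt_min e1 e2
        linarith
      · have e1 := L.pt_ncut A _ (fun h' => he ((h e').2 h'))
        have e2 := (rho g).strictMono (L.pt_ncut A _ he)
        rw [left] at e2
        have := max_lt e1 e2
        linarith

end Pool.Agent.AllSurf
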