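import Mathlib

/-!
# S01: one-ended forests (pure graph theory)

`adj` is a symmetric relation (a graph) with finite neighbourhoods, connected, on an infinite countable type.
Take an injection `f : V → ℕ` and the finite sets `B n = {v | f v < n}` (so `B 0` is empty and every `v` lies in `B (f v + 1)`).
For a set `B` let `C B v = {w | Relation.ReflTransGen (fun a b => adj a b ∧ b ∉ B) v w}` (for `v ∉ B`: the component of `v` outside `B`; reachability is symmetric between points outside `B`)
and `U n = {v ∉ B n | (C (B n) v).Infinite}`. Then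
(i) `U 0` is everything (connectedness, `V` infinite); `U (n+1) ⊆ U n`.
(ii) the complement of `U n` is finite: if `v ∉ B n` has a finite component and `B n` is not empty then this component contains a neighbour `w` of a point of `B n` (follow a path from `v` to a point of `B n`: last point before it enters `B n`), `w` is in the finite set of the neighbours of
the points of `B n`, and `v ∈ C (B n) w`, which is finite: finite union of finite sets.
(iii) from every `v ∈ U n` one reaches a point of `U (n+1)` by a path inside `U n` (`C (B n) v` is infinite, contained in `U n`, and the complement of `U (n+1)` is finite).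
Level of `v`: the `L` with `v ∈ U L`, `v ∉ U (L+1)` (exists, since `v ∈ U 0` and `v ∉ U (f v + 1)`; unique by (i)). `r v` := length of a shortest path inside `U L` from `v` to `U (L+1)` (`r v ≥ 1`), `p v` := the second point of such a path.
Then the level of `p v` is larger than `L`, or equal to `L` and then `r (p v) < r v`. The set of the points of level `L` is finite, so `r ≤ R L` on it; the measure
`(level, R level - r)` increases lexicographically (in `ℕ ×ₗ ℕ`) from `v` to `p v`, so `fun a b => p a = b` is well founded (`Subrelation.wf`, `InvImage.wf`, `WellFounded.prod_lex`).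
-/

set_option autoImplicit false

namespace Pool.Agent.AllSurf

section

variable {V : Type} (adj : V → V → Prop)

/-- reachable outside `B` -/
def s01_R (B : Set V) (a b : V) : Prop := Relation.ReflTransGen (fun a b => adj a b ∧ b ∉ B) a b

/-- points outside `B` with infinite component -/
def s01_U (B : Set V) : Set V := {v | v ∉ B ∧ {w | s01_R adj B v w}.Infinite}

variable {adj}

theorem s01_symm (hs : ∀ a b, adj a b → adj b a) {B : Set V} {a b : V} (ha : a ∉ B)
    (h : s01_R adj B a b) : s01_R adj B b a ∧ b ∉ B := by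
  unfold s01_R at *
  induction h with
  | refl => exact ⟨Relation.ReflTransGen.refl, ha⟩
  | tail _ h2 ih => exact ⟨Relation.ReflTransGen.head ⟨hs _ _ h2.1, ih.2⟩ ih.1, h2.2⟩

theorem s01_U_of (hs : ∀ a b, adj a b → adj b a) {B : Set V} {a b : V} (ha : a ∈ s01_U adj B)
    (h : s01_R adj B a b) : b ∈ s01_U adj B := by
  obtain ⟨h1, h2⟩ := s01_symm hs ha.1 h
  refine ⟨h2, ha.2.mono ?_⟩
  intro x hx
  exact Relation.ReflTransGen.trans h1 hx

theorem s01_exit {B : Set V} {v b : V} (h : Relation.ReflTransGen adj v b) (hb : b ∈ B) :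
    v ∉ B → ∃ w, s01_R adj B v w ∧ ∃ b' ∈ B, adj w b' := by
  induction h using Relation.ReflTransGen.head_induction_on with
  | refl => exact fun h => absurd hb h
  | @head x y h1 _ ih =>
    intro hx
    by_cases hy : y ∈ B
    · exact ⟨x, Relation.ReflTransGen.refl, y, hy, h1⟩
    · obtain ⟨w, hw, b', hb', hwb⟩ := ih hy
      exact ⟨w, Relation.ReflTransGen.head ⟨h1, hy⟩ hw, b', hb', hwb⟩

theorem s01_fin [Infinite V] (hs : ∀ a b, adj a b → adj b a) (hf : ∀ a, {b | adj a b}.Finite)
    (hc : ∀ a b, Relation.ReflTransGen adj a b) {B : Set V} (hB : B.Finite) :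
    (s01_U adj B)ᶜ.Finite := by
  classical
  rcases B.eq_empty_or_nonempty with rfl | ⟨b0, hb0⟩
  · refine Set.Finite.subset Set.finite_empty ?_
    intro v hv
    apply hv
    refine ⟨fun h => h, ?_⟩
    have h1 : {w | s01_R adj (∅ : Set V) v w} = Set.univ := by
      ext w
      simp only [Set.mem_ofPred_eq, Set.mem_univ, iff_true]
      refine Relation.ReflTransGen.mono ?_ _ _ (hc v w)
      intro a b hab
      exact ⟨hab, fun h => h⟩
    rw [h1]
    exact Set.infinite_univ
  · have hN : (⋃ b ∈ B, {w | adj b w}).Finite := hB.biUnion (fun b _ => hf b)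
    have hN2 : (⋃ w ∈ (⋃ b ∈ B, {w | adj b w}) ∩ {w | {x | s01_R adj B w x}.Finite},
        {x | s01_R adj B w x}).Finite :=
      (hN.inter_of_left _).biUnion (fun w hw => hw.2)
    refine (hB.union hN2).subset ?_
    intro v hv
    by_cases hvB : v ∈ B
    · exact Or.inl hvB
    right
    have hfin : {w | s01_R adj B v w}.Finite := by
      by_contra hinf
      exact hv ⟨hvB, hinf⟩
    obtain ⟨w, hw, b', hb', hwb⟩ := s01_exit (hc v b0) hb0 hvB
    obtain ⟨h1, h2⟩ := s01_symm hs hvB hw
    rw [Set.mem_iUnion₂]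
    refine ⟨w, ⟨?_, ?_⟩, h1⟩
    · rw [Set.mem_iUnion₂]
      exact ⟨b', hb', hs _ _ hwb⟩
    · refine hfin.subset ?_
      intro x hx
      exact Relation.ReflTransGen.trans hw hx

theorem s01_mono {B B' : Set V} (h : B ⊆ B') : s01_U adj B' ⊆ s01_U adj B := by
  intro v hv
  refine ⟨fun h' => hv.1 (h h'), hv.2.mono ?_⟩
  intro w hw
  refine Relation.ReflTransGen.mono ?_ _ _ hw
  intro a b hab
  exact ⟨hab.1, fun h' => hab.2 (h h')⟩

variable (adj) in
/-- points from which one reaches `S` outside `B` in `k` steps -/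
def s01_T (B S : Set V) : ℕ → Set V
  | 0 => S
  | k + 1 => {v | ∃ w, adj v w ∧ w ∉ B ∧ w ∈ s01_T B S k}

theorem s01_exists_T {B S : Set V} {v w : V} (h : s01_R adj B v w) (hw : w ∈ S) :
    ∃ k, v ∈ s01_T adj B S k := by
  unfold s01_R at h
  induction h using Relation.ReflTransGen.head_induction_on with
  | refl => exact ⟨0, hw⟩
  | head h1 _ ih =>
    obtain ⟨k, hk⟩ := ih
    exact ⟨k + 1, _, h1.1, h1.2, hk⟩

end

theorem one_ended {V : Type} [Infinite V] [Countable V] (adj : V → V → Prop)
    (hs : ∀ a b, adj a b → adj b a) (hf : ∀ a, {b | adj a b}.Finite)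
    (hc : ∀ a b, Relation.ReflTransGen adj a b) :
    ∃ p : V → V, (∀ a, adj a (p a)) ∧ WellFounded (fun a b => p a = b) := by
  classical
  obtain ⟨f, hfi⟩ := exists_injective_nat V
  set B : ℕ → Set V := fun n => {v | f v < n} with hB
  have hBf : ∀ n, (B n).Finite := fun n =>
    (Set.finite_Iio n).preimage (hfi.injOn)
  set U : ℕ → Set V := fun n => s01_U adj (B n) with hU
  have hUfin : ∀ n, (U n)ᶜ.Finite := fun n => s01_fin hs hf hc (hBf n)
  have hU0 : ∀ v, v ∈ U 0 := by
    intro v
    refine ⟨fun h => absurd h (Nat.not_lt_zero _), ?_⟩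
    have h1 : {w | s01_R adj (B 0) v w} = Set.univ := by
      ext w
      simp only [Set.mem_ofPred_eq, Set.mem_univ, iff_true]
      refine Relation.ReflTransGen.mono ?_ _ _ (hc v w)
      intro a b hab
      exact ⟨hab, fun h => absurd h (Nat.not_lt_zero _)⟩
    rw [h1]
    exact Set.infinite_univ
  have hUmono : ∀ m n, m ≤ n → U n ⊆ U m := by
    intro m n hmn
    apply s01_mono
    intro v hv
    exact lt_of_lt_of_le hv hmn
  have hex : ∀ v, ∃ n, v ∉ U (n + 1) := fun v => ⟨f v, fun h => h.1 (Nat.lt_succ_self _)⟩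
  set L : V → ℕ := fun v => Nat.find (hex v) with hL
  have hL1 : ∀ v, v ∉ U (L v + 1) := fun v => Nat.find_spec (hex v)
  have hL2 : ∀ v, v ∈ U (L v) := by
    intro v
    rcases Nat.eq_zero_or_pos (L v) with h0 | h0
    · rw [h0]; exact hU0 v
    · have h1 := Nat.find_min (hex v) (show L v - 1 < L v by omega)
      rw [not_not, Nat.sub_add_cancel h0] at h1
      exact h1
  have hL3 : ∀ v n, v ∈ U n → n ≤ L v := by
    intro v n hv
    by_contra hlt
    push Not at hlt
    exact hL1 v (hUmono _ _ hlt hv)
  have hT : ∀ v, ∃ k, v ∈ s01_T adj (B (L v)) (U (L v + 1)) k := by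
    intro v
    have h1 := (hL2 v).2
    obtain ⟨w, hw1, hw2⟩ := (h1.sdiff (hUfin (L v + 1))).nonempty
    rw [Set.notMem_compl_iff] at hw2
    exact s01_exists_T hw1 hw2
  set r : V → ℕ := fun v => Nat.find (hT v) with hr
  have hr1 : ∀ v, v ∈ s01_T adj (B (L v)) (U (L v + 1)) (r v) := fun v => Nat.find_spec (hT v)
  have hstep : ∀ v, ∃ w, adj v w ∧ (L v < L w ∨ (L w = L v ∧ r w < r v)) := by
    intro v
    have h1 := hr1 v
    have h0 : r v ≠ 0 := by
      intro h0
      rw [h0] at h1
      exact hL1 v h1
    obtain ⟨k, hk⟩ := Nat.exists_eq_succ_of_ne_zero h0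
    rw [hk] at h1
    obtain ⟨w, hw1, hw2, hw3⟩ := h1
    refine ⟨w, hw1, ?_⟩
    have hwU : w ∈ U (L v) := s01_U_of hs (hL2 v) (Relation.ReflTransGen.single ⟨hw1, hw2⟩)
    rcases Nat.lt_or_ge (L v) (L w) with h2 | h2
    · exact Or.inl h2
    · have h3 : L w = L v := le_antisymm h2 (hL3 w _ hwU)
      refine Or.inr ⟨h3, ?_⟩
      have h4 : r w ≤ k := by
        apply Nat.find_min'
        rw [h3]
        exact hw3
      omega
  choose p hp1 hp2 using hstep
  refine ⟨p, hp1, ?_⟩
  have hbound : ∀ n, ∃ R, ∀ v, L v = n → r v ≤ R := by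
    intro n
    have h1 : {v | L v = n}.Finite := by
      refine (hUfin (n + 1)).subset ?_
      intro v hv
      have hv' : L v = n := hv
      rw [← hv']
      exact hL1 v
    obtain ⟨R, hR⟩ := (h1.image r).bddAbove
    exact ⟨R, fun v hv => hR ⟨v, hv, rfl⟩⟩
  choose R hR using hbound
  refine Subrelation.wf ?_ (InvImage.wf (fun v => (L v, R (L v) - r v))
    (WellFounded.prod_lex (α := ℕ) (β := ℕ) wellFounded_lt wellFounded_lt))
  intro a b hab
  show Prod.Lex _ _ (L a, R (L a) - r a) (L b, R (L b) - r b)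
  rw [← hab]
  rcases hp2 a with h1 | ⟨h1, h2⟩
  · exact Prod.Lex.left _ _ h1
  · rw [h1]
    apply Prod.Lex.right
    have h3 := hR (L a) a rfl
    omega

end Pool.Agent.AllSurf
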