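import Pool.Agent.Lib.MP_7f477e_gt.Rib
import Pool.Agent.Lib.MP_7f477e_gt.S01

/-!
# S02: exit darts of a triangulated surface

`countable_darts`: the subgroup generated by `sg`, `al` is countable (image of `FreeGroup (Fin 2)` or `Subgroup.closure` of a countable set) and acts transitively.
`forest_exists`: `V` := the quotient of `D` by the relation `x ~ y` iff `y = x ∨ y = sg x ∨ y = sg (sg x)` (an equivalence relation by `tri`); `adj t t'` iff there is a dart `d` in `t` with `al d` in `t'`. Every class has at most three elements, so
`V` is infinite and `adj` has finite neighbourhoods; connectedness from `P.connected` (`Subgroup.closure_induction`). `one_ended` (S01) gives `p`; for every class `t` choose a dart `e t` in `t` with `al (e t)` in `p t`; `ex d := e (class of d)`.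
Well-foundedness: if `ex a = a` and `ex (al a) = b` then `p (class a) = class b` (`Subrelation.wf`, `InvImage.wf`).
-/

set_option autoImplicit false

namespace Pool.Agent.AllSurf

theorem countable_darts {D : Type} (P : PolygonGluing D) : Countable D := by
  classical
  rcases isEmpty_or_nonempty D with h | ⟨⟨d0⟩⟩
  · infer_instance
  · have hcF : Countable (FreeGroup Bool) := by
      unfold FreeGroup
      infer_instance
    let φ : FreeGroup Bool →* Equiv.Perm D := FreeGroup.lift (fun b => if b then P.sg else P.al)
    have hr : φ.range = Subgroup.closure {P.sg, P.al} := by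
      rw [FreeGroup.range_lift_eq_closure]
      congr 1
      ext x
      constructor
      · rintro ⟨b, rfl⟩
        cases b
        · right; rfl
        · left; rfl
      · rintro (h | h)
        · exact ⟨true, h.symm⟩
        · exact ⟨false, h.symm⟩
    refine Function.Surjective.countable (f := fun w : FreeGroup Bool => φ w d0) ?_
    intro d
    obtain ⟨g, hg, hgd⟩ := P.connected d0 d
    rw [← hr] at hg
    obtain ⟨w, rfl⟩ := hg
    exact ⟨w, hgd⟩

theorem forest_exists {D : Type} [Infinite D] (P : PolygonGluing D)
    (tri : ∀ d, P.sg (P.sg (P.sg d)) = d) :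
    ∃ ex : D → D, (∀ d, ex d = d ∨ ex d = P.sg d ∨ ex d = P.sg (P.sg d)) ∧
      (∀ d, ex (P.sg d) = ex d) ∧ WellFounded fun a b : D => ex a = a ∧ ex (P.al a) = b := by
  classical
  have hcD : Countable D := countable_darts P
  let S : Setoid D :=
    { r := fun x y => y = x ∨ y = P.sg x ∨ y = P.sg (P.sg x)
      iseqv := {
        refl := fun x => Or.inl rfl
        symm := by
          rintro x y (h | h | h)
          · exact Or.inl h.symm
          · right; right; rw [h, tri]
          · right; left; rw [h, tri]
        trans := by
          rintro x y z (h | h | h) (h' | h' | h')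
          · left; rw [h', h]
          · right; left; rw [h', h]
          · right; right; rw [h', h]
          · right; left; rw [h', h]
          · right; right; rw [h', h]
          · left; rw [h', h, tri]
          · right; right; rw [h', h]
          · left; rw [h', h, tri]
          · right; left; rw [h', h, tri] } }
  let cls : D → Quotient S := fun d => Quotient.mk S d
  have hcls : ∀ x y, cls x = cls y ↔ (y = x ∨ y = P.sg x ∨ y = P.sg (P.sg x)) := by
    intro x y
    exact Quotient.eq (r := S)
  have hsg : ∀ d, cls (P.sg d) = cls d := fun d => ((hcls d (P.sg d)).2 (Or.inr (Or.inl rfl))).symm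
  let adj : Quotient S → Quotient S → Prop := fun t t' => ∃ d, cls d = t ∧ cls (P.al d) = t'
  have hs : ∀ a b, adj a b → adj b a := by
    rintro a b ⟨d, h1, h2⟩
    exact ⟨P.al d, h2, by rw [P.al_al]; exact h1⟩
  have hf : ∀ a, {b | adj a b}.Finite := by
    intro a
    obtain ⟨d0, rfl⟩ : ∃ d0, cls d0 = a := Quotient.exists_rep a
    refine Set.Finite.subset (Set.toFinite
      {cls (P.al d0), cls (P.al (P.sg d0)), cls (P.al (P.sg (P.sg d0)))}) ?_
    rintro b ⟨d, h1, h2⟩
    rcases (hcls d0 d).1 h1.symm with h | h | h
    · subst h; simp [← h2]
    · subst h; simp [← h2]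
    · subst h; simp [← h2]
  have hc : ∀ a b, Relation.ReflTransGen adj a b := by
    have hsymm : ∀ a b, Relation.ReflTransGen adj a b → Relation.ReflTransGen adj b a := by
      intro a b h
      induction h with
      | refl => exact Relation.ReflTransGen.refl
      | tail _ h2 ih => exact Relation.ReflTransGen.head (hs _ _ h2) ih
    have key : ∀ g ∈ Subgroup.closure {P.sg, P.al}, ∀ d,
        Relation.ReflTransGen adj (cls d) (cls (g d)) := by
      intro g hg
      induction hg using Subgroup.closure_induction with
      | mem x hx =>
        intro d
        rcases hx with h | h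
        · rw [h, hsg]
        · rw [h]
          exact Relation.ReflTransGen.single ⟨d, rfl, rfl⟩
      | one => intro d; exact Relation.ReflTransGen.refl
      | mul x y _ _ hx hy =>
        intro d
        exact (hy d).trans (hx (y d))
      | inv x _ hx =>
        intro d
        have h := hx (x⁻¹ d)
        have h' : x (x⁻¹ d) = d := x.apply_symm_apply d
        rw [h'] at h
        exact hsymm _ _ h
    intro a b
    obtain ⟨d, rfl⟩ : ∃ d, cls d = a := Quotient.exists_rep a
    obtain ⟨e, rfl⟩ : ∃ d, cls d = b := Quotient.exists_rep b
    obtain ⟨g, hg, rfl⟩ := P.connected d e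
    exact key g hg d
  have hinf : Infinite (Quotient S) := by
    by_contra hcon
    rw [not_infinite_iff_finite] at hcon
    have h1 : Function.Surjective (fun x : Quotient S × Fin 3 =>
        if x.2 = 0 then x.1.out else if x.2 = 1 then P.sg x.1.out else P.sg (P.sg x.1.out)) := by
      intro d
      have h2 : cls (cls d).out = cls d := Quotient.out_eq (cls d)
      rcases (hcls _ _).1 h2 with h | h | h
      · exact ⟨(cls d, 0), by simp [← h]⟩
      · exact ⟨(cls d, 1), by simp [← h]⟩
      · exact ⟨(cls d, 2), by simp [← h]⟩
    have h3 : Finite D := Finite.of_surjective _ h1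
    exact not_finite D
  have hcV : Countable (Quotient S) := inferInstance
  obtain ⟨p, hp1, hp2⟩ := one_ended adj hs hf hc
  choose e he1 he2 using hp1
  refine ⟨fun d => e (cls d), ?_, ?_, ?_⟩
  · intro d
    exact (hcls d (e (cls d))).1 (he1 (cls d)).symm
  · intro d
    show e (cls (P.sg d)) = e (cls d)
    rw [hsg]
  · refine Subrelation.wf ?_ (InvImage.wf cls hp2)
    rintro a b ⟨h1, h2⟩
    show p (cls a) = cls b
    have h3 : cls (P.al a) = p (cls a) := by
      have := he2 (cls a)
      rwa [show e (cls a) = a from h1] at this
    have h4 : cls b = cls (P.al a) := by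
      rw [← h2]
      exact he1 (cls (P.al a))
    rw [h4, h3]

end Pool.Agent.AllSurf
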