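import Mathlib

/-!
# S03: a coboundary lemma

`f : V → V` without cycles. Relation `a ~ b` iff `f^[n] a = f^[m] b` for some `n m` (an equivalence relation). Choose a representative `r a` of every class and `n a`, `m a` with `f^[n a] a = f^[m a] (r a)`.
`S n a := ∑ i ∈ range n, δ (f^[i] a)`, `o a := S (n a) a - S (m a) (r a)`. Independence of the choice: if `f^[n] a = f^[m] r` and `f^[n'] a = f^[m'] r`, say `n' = n + i`, then `f^[m + i] r = f^[m'] r`, so `m' = m + i` (no cycles:
`f^[k] r = f^[l] r`, `k < l`, is a cycle at `f^[k] r`), and `S (n + i) a = S n a + S i (f^[n] a)`, `S (m + i) r = S m r + S i (f^[m] r)`. Then `o a = o (f a) + δ a` by comparison with the data of `f a` shifted by one.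
-/

set_option autoImplicit false

namespace Pool.Agent.AllSurf

/-- partial sums along the orbit of `a` -/
def s03_S {V : Type} (f : V → V) (δ : V → ℤ) (n : ℕ) (a : V) : ℤ :=
  ∑ i ∈ Finset.range n, δ (f^[i] a)

theorem s03_add {V : Type} (f : V → V) (δ : V → ℤ) (n i : ℕ) (a : V) :
    s03_S f δ (n + i) a = s03_S f δ n a + s03_S f δ i (f^[n] a) := by
  unfold s03_S
  rw [Finset.sum_range_add]
  congr 1
  refine Finset.sum_congr rfl fun j _ => ?_
  rw [Nat.add_comm n j, Function.iterate_add_apply]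

theorem s03_inj {V : Type} (f : V → V) (hf : ∀ (v : V) (n : ℕ), 0 < n → f^[n] v ≠ v) (r : V)
    (k l : ℕ) (h : f^[k] r = f^[l] r) : k = l := by
  rcases lt_trichotomy k l with hkl | hkl | hkl
  · exfalso
    have h1 : f^[l] r = f^[l - k] (f^[k] r) := by
      rw [← Function.iterate_add_apply]
      congr 1
      omega
    exact hf (f^[k] r) (l - k) (by omega) (by rw [← h1, h])
  · exact hkl
  · exfalso
    have h1 : f^[k] r = f^[k - l] (f^[l] r) := by
      rw [← Function.iterate_add_apply]
      congr 1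
      omega
    exact hf (f^[l] r) (k - l) (by omega) (by rw [← h1, h])

theorem s03_indep_aux {V : Type} (f : V → V) (hf : ∀ (v : V) (n : ℕ), 0 < n → f^[n] v ≠ v)
    (δ : V → ℤ) (a r : V) (n m i m' : ℕ) (h : f^[n] a = f^[m] r)
    (h' : f^[n + i] a = f^[m'] r) :
    s03_S f δ n a - s03_S f δ m r = s03_S f δ (n + i) a - s03_S f δ m' r := by
  have h1 : f^[n + i] a = f^[m + i] r := by
    rw [Nat.add_comm n i, Nat.add_comm m i, Function.iterate_add_apply, h,
      ← Function.iterate_add_apply]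
  have h2 : m + i = m' := s03_inj f hf r _ _ (by rw [← h1, h'])
  subst h2
  rw [s03_add, s03_add, h]
  ring

theorem s03_indep {V : Type} (f : V → V) (hf : ∀ (v : V) (n : ℕ), 0 < n → f^[n] v ≠ v)
    (δ : V → ℤ) (a r : V) (n m n' m' : ℕ) (h : f^[n] a = f^[m] r)
    (h' : f^[n'] a = f^[m'] r) :
    s03_S f δ n a - s03_S f δ m r = s03_S f δ n' a - s03_S f δ m' r := by
  rcases le_total n n' with hn | hn
  · obtain ⟨i, rfl⟩ := Nat.exists_eq_add_of_le hn
    exact s03_indep_aux f hf δ a r n m i m' h h'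
  · obtain ⟨i, rfl⟩ := Nat.exists_eq_add_of_le hn
    exact (s03_indep_aux f hf δ a r n' m' i m h' h).symm

/-- two points whose orbits meet -/
def s03_setoid {V : Type} (f : V → V) : Setoid V where
  r a b := ∃ n m : ℕ, f^[n] a = f^[m] b
  iseqv := {
    refl := fun a => ⟨0, 0, rfl⟩
    symm := by
      rintro a b ⟨n, m, h⟩
      exact ⟨m, n, h.symm⟩
    trans := by
      rintro a b c ⟨n, m, h⟩ ⟨n', m', h'⟩
      refine ⟨n' + n, m + m', ?_⟩
      rw [Function.iterate_add_apply, h, ← Function.iterate_add_apply, Nat.add_comm n' m,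
        Function.iterate_add_apply, h', ← Function.iterate_add_apply] }

theorem cobound {V : Type} (f : V → V) (hf : ∀ (v : V) (n : ℕ), 0 < n → f^[n] v ≠ v) (δ : V → ℤ) :
    ∃ o : V → ℤ, ∀ v, o v = o (f v) + δ v := by
  classical
  let r : V → V := fun a => (Quotient.mk (s03_setoid f) a).out
  have hr : ∀ a, ∃ n m : ℕ, f^[n] a = f^[m] (r a) := by
    intro a
    have h1 : (Quotient.mk (s03_setoid f) (r a)) = Quotient.mk (s03_setoid f) a :=
      Quotient.out_eq _
    obtain ⟨n, m, h⟩ := Quotient.exact h1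
    exact ⟨m, n, h.symm⟩
  choose n m hnm using hr
  refine ⟨fun a => s03_S f δ (n a) a - s03_S f δ (m a) (r a), fun v => ?_⟩
  have hrr : r (f v) = r v := by
    have h1 : Quotient.mk (s03_setoid f) (f v) = Quotient.mk (s03_setoid f) v :=
      Quotient.sound ⟨0, 1, rfl⟩
    show (Quotient.mk (s03_setoid f) (f v)).out = (Quotient.mk (s03_setoid f) v).out
    rw [h1]
  have h2 := hnm (f v)
  rw [hrr] at h2
  have h3 : f^[n (f v) + 1] v = f^[m (f v)] (r v) := by
    rw [Function.iterate_succ_apply]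
    exact h2
  have h4 := s03_indep f hf δ v (r v) _ _ _ _ (hnm v) h3
  have h5 : s03_S f δ (n (f v) + 1) v = s03_S f δ (n (f v)) (f v) + δ v := by
    unfold s03_S
    rw [Finset.sum_range_succ']
    rfl
  show s03_S f δ (n v) v - s03_S f δ (m v) (r v) =
    s03_S f δ (n (f v)) (f v) - s03_S f δ (m (f v)) (r (f v)) + δ v
  rw [h4, h5, hrr]
  ring

end Pool.Agent.AllSurf
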