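import Pool.Agent.Lib.MP_7f477e_gt.Rib

/-!
# S04: number of edges below a side

Define `n : D → ℕ` by well-founded recursion (`WellFounded.fix`, `WellFounded.fix_eq`) along `r a b := ex a = a ∧ ex (al a) = b`: `n e := v (sg e) + v (sg (sg e))`, where `v d := if h : r (al d) e then n (al d) else 1`.
`M d := if ex d = d then n d else if ex (al d) = al d then n (al d) else 1`. If `ex e = e` and `d = sg e` or `sg (sg e)` then `ex (al (al d)) = ex d = e`, so `r (al d) e` iff `ex (al d) = al d`; and `ex d ≠ d` for these `d` (`ex d = e`, and `sg e ≠ e`, `sg (sg e) ≠ e` by `tri`, `sg_ne`).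
-/

set_option autoImplicit false

namespace Pool.Agent.AllSurf

theorem M_exists {D : Type} (P : PolygonGluing D) (tri : ∀ d, P.sg (P.sg (P.sg d)) = d)
    (sg_ne : ∀ d, P.sg d ≠ d) (ex : D → D)
    (ex_mem : ∀ d, ex d = d ∨ ex d = P.sg d ∨ ex d = P.sg (P.sg d))
    (ex_sg : ∀ d, ex (P.sg d) = ex d)
    (wf : WellFounded fun a b : D => ex a = a ∧ ex (P.al a) = b) :
    ∃ M : D → ℕ, (∀ e, ex e = e → M e = M (P.sg e) + M (P.sg (P.sg e))) ∧
      (∀ d, ex d ≠ d → ex (P.al d) = P.al d → M d = M (P.al d)) ∧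
      (∀ d, ex d ≠ d → ex (P.al d) ≠ P.al d → M d = 1) := by
  classical
  let n : D → ℕ := wf.fix (fun e rec =>
    (if h : ex (P.al (P.sg e)) = P.al (P.sg e) ∧ ex (P.al (P.al (P.sg e))) = e
      then rec (P.al (P.sg e)) h else 1) +
    (if h : ex (P.al (P.sg (P.sg e))) = P.al (P.sg (P.sg e)) ∧
        ex (P.al (P.al (P.sg (P.sg e)))) = e
      then rec (P.al (P.sg (P.sg e))) h else 1))
  have hn : ∀ e, n e =
    (if ex (P.al (P.sg e)) = P.al (P.sg e) ∧ ex (P.al (P.al (P.sg e))) = e
      then n (P.al (P.sg e)) else 1) +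
    (if ex (P.al (P.sg (P.sg e))) = P.al (P.sg (P.sg e)) ∧
        ex (P.al (P.al (P.sg (P.sg e)))) = e
      then n (P.al (P.sg (P.sg e))) else 1) := fun e => wf.fix_eq _ e
  have hsg2 : ∀ d, P.sg (P.sg d) ≠ d := by
    intro d h
    have h1 := tri d
    rw [h] at h1
    exact sg_ne d h1
  have hex2 : ∀ d, ex (P.sg (P.sg d)) = ex d := fun d => by rw [ex_sg, ex_sg]
  refine ⟨fun d => if ex d = d then n d else if ex (P.al d) = P.al d then n (P.al d) else 1,
    ?_, ?_, ?_⟩
  · intro e he
    have h1 : ex (P.sg e) ≠ P.sg e := by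
      rw [ex_sg, he]
      exact (sg_ne e).symm
    have h2 : ex (P.sg (P.sg e)) ≠ P.sg (P.sg e) := by
      rw [hex2, he]
      exact (hsg2 e).symm
    have h3 : ex (P.al (P.al (P.sg e))) = e := by rw [P.al_al, ex_sg, he]
    have h4 : ex (P.al (P.al (P.sg (P.sg e)))) = e := by rw [P.al_al, hex2, he]
    show (if ex e = e then n e else _) = (if ex (P.sg e) = P.sg e then _ else _) +
      (if ex (P.sg (P.sg e)) = P.sg (P.sg e) then _ else _)
    rw [if_pos he, if_neg h1, if_neg h2, hn e]
    simp only [h3, h4, and_true]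
  · intro d h1 h2
    show (if ex d = d then n d else if ex (P.al d) = P.al d then n (P.al d) else 1) =
      (if ex (P.al d) = P.al d then n (P.al d) else _)
    rw [if_neg h1, if_pos h2, if_pos h2]
  · intro d h1 h2
    show (if ex d = d then n d else if ex (P.al d) = P.al d then n (P.al d) else 1) = 1
    rw [if_neg h1, if_neg h2]

end Pool.Agent.AllSurf
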