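import Pool.Agent.Lib.MP_7f477e_gt.SDefs
import Pool.Agent.Lib.MP_7f477e_gt.S02
import Pool.Agent.Lib.MP_7f477e_gt.S03
import Pool.Agent.Lib.MP_7f477e_gt.S04

/-!
# S05: every triangulated surface with infinitely many triangles can be placed

`ex` from S02, `M` from S04. Positions: let `f d := ex (al (ex d))` (parent exit dart, as a map on all of `D`). `f` has no cycles: `f^[n] v = v`, `n > 0`, makes `v` an exit dart in a cycle of the well founded relation (`WellFounded` + `Relation.TransGen`: `WellFounded.transGen`, irreflexive).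
`cobound` (S03) with `δ v := if al (ex v) = sg (f v) then 0 else M (sg (f v))` gives `o`. Define `q d := if ex d = d then o d + M d else if sg (sg d) = ex d (so d = sg e) then o (ex d) else o (ex d) + M (sg (ex d))` (`d = sg (sg e)`).
`q_sg` by cases, with `M e = M (sg e) + M (sg (sg e))`. `q_al`: for an exit dart `e`, `b := ex (al e) = f e`; `al e ≠ b` (otherwise a cycle of length 2: `b` is an exit dart and `ex (al b) = ex e = e`), so `al e = sg b` or `sg (sg b)`, and in both cases `q (al e) = o e = q (sg e)`
(note `ex (sg e) = e`, `o e = o (f e) + δ e`).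
-/

set_option autoImplicit false

namespace Pool.Agent.AllSurf

theorem placed_exists {D : Type} [Infinite D] (P : PolygonGluing D)
    (tri : ∀ d, P.sg (P.sg (P.sg d)) = d) (sg_ne : ∀ d, P.sg d ≠ d) : Nonempty (Placed P) := by
  classical
  obtain ⟨ex, ex_mem, ex_sg, wf⟩ := forest_exists P tri
  obtain ⟨M, M_ex, M_in, M_dg⟩ := M_exists P tri sg_ne ex ex_mem ex_sg wf
  have hex2 : ∀ d, ex (P.sg (P.sg d)) = ex d := fun d => by rw [ex_sg, ex_sg]
  have hsg2 : ∀ d, P.sg (P.sg d) ≠ d := by
    intro d h
    have h1 := tri d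
    rw [h] at h1
    exact sg_ne d h1
  have hexex : ∀ d, ex (ex d) = ex d := by
    intro d
    rcases ex_mem d with h | h | h
    · rw [h]; exact h
    · rw [h, ex_sg]; exact h
    · rw [h, hex2]; exact h
  set f : D → D := fun d => ex (P.al (ex d)) with hf
  have hfe : ∀ v, ex (f v) = f v := fun v => hexex _
  have hstep : ∀ v, ex v = v → (ex v = v ∧ ex (P.al v) = f v) := by
    intro v hv
    refine ⟨hv, ?_⟩
    rw [hf]
    simp only [hv]
  have hiter : ∀ n v, ex v = v →
      Relation.TransGen (fun a b : D => ex a = a ∧ ex (P.al a) = b) v (f^[n + 1] v) := by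
    intro n v hv
    induction n with
    | zero => exact Relation.TransGen.single (hstep v hv)
    | succ n ih =>
      have h1 : f^[n + 1 + 1] v = f (f^[n + 1] v) := Function.iterate_succ_apply' f (n + 1) v
      rw [h1]
      refine Relation.TransGen.tail ih (hstep _ ?_)
      rw [Function.iterate_succ_apply']
      exact hfe _
  have hcyc : ∀ (v : D) (n : ℕ), 0 < n → f^[n] v ≠ v := by
    intro v n hn h
    obtain ⟨m, rfl⟩ := Nat.exists_eq_add_of_lt hn
    rw [Nat.zero_add] at h
    have hv : ex v = v := by
      rw [← h, Function.iterate_succ_apply']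
      exact hfe _
    have h1 := hiter m v hv
    rw [h] at h1
    exact wf.transGen.irrefl.irrefl v h1
  obtain ⟨o, ho⟩ := cobound f hcyc
    (fun v => if P.al (ex v) = P.sg (f v) then 0 else (M (P.sg (f v)) : ℤ))
  set q : D → ℤ := fun d => if ex d = d then o d + M d else
    if P.sg (P.sg d) = ex d then o (ex d) else o (ex d) + M (P.sg (ex d)) with hq
  have hq0 : ∀ e, ex e = e → q e = o e + M e := by
    intro e he
    rw [hq]
    simp only [he, if_true]
  have hq1 : ∀ e, ex e = e → q (P.sg e) = o e := by
    intro e he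
    have h1 : ex (P.sg e) ≠ P.sg e := by
      rw [ex_sg, he]
      exact (sg_ne e).symm
    show (if ex (P.sg e) = P.sg e then _ else
      if P.sg (P.sg (P.sg e)) = ex (P.sg e) then o (ex (P.sg e)) else _) = o e
    rw [if_neg h1, if_pos (by rw [tri, ex_sg, he]), ex_sg, he]
  have hq2 : ∀ e, ex e = e → q (P.sg (P.sg e)) = o e + M (P.sg e) := by
    intro e he
    have h1 : ex (P.sg (P.sg e)) ≠ P.sg (P.sg e) := by
      rw [hex2, he]
      exact (hsg2 e).symm
    have h2 : P.sg (P.sg (P.sg (P.sg e))) ≠ ex (P.sg (P.sg e)) := by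
      rw [tri, hex2, he]
      exact sg_ne e
    show (if ex (P.sg (P.sg e)) = P.sg (P.sg e) then _ else
      if P.sg (P.sg (P.sg (P.sg e))) = ex (P.sg (P.sg e)) then _ else
        o (ex (P.sg (P.sg e))) + (M (P.sg (ex (P.sg (P.sg e)))) : ℤ)) = o e + M (P.sg e)
    rw [if_neg h1, if_neg h2, hex2, he]
  refine ⟨{ tri := tri, sg_ne := sg_ne, ex := ex, ex_mem := ex_mem, ex_sg := ex_sg, wf := wf,
            M := M, M_ex := M_ex, M_in := M_in, M_dg := M_dg, q := q, q_sg := ?_, q_al := ?_ }⟩
  · intro d hd
    rcases ex_mem d with h | h | h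
    · exact absurd h hd
    · -- `d = sg (sg e)` with `e = sg d`
      have he : ex (P.sg d) = P.sg d := by rw [ex_sg]; exact h
      have h1 := hq0 _ he
      have h2 := hq2 _ he
      have h3 := M_ex _ he
      rw [tri] at h2 h3
      rw [h1, h2, h3]
      push_cast
      ring
    · -- `d = sg e` with `e = sg (sg d)`
      have he : ex (P.sg (P.sg d)) = P.sg (P.sg d) := by rw [hex2]; exact h
      have h1 := hq1 _ he
      have h2 := hq2 _ he
      rw [tri] at h1 h2
      rw [h1, h2, tri]
  · intro e he
    have hfe' : f e = ex (P.al e) := by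
      rw [hf]
      simp only [he]
    have hb : ex (f e) = f e := hfe e
    have h1 := hq1 e he
    have h2 := ho e
    simp only [he] at h2
    have hne : P.al e ≠ f e := by
      intro h
      have h3 := hcyc e 2 (by norm_num)
      apply h3
      show f (f e) = e
      rw [← h]
      have h4 : ex (P.al e) = P.al e := by rw [← hfe', h]
      show ex (P.al (ex (P.al e))) = e
      rw [h4, P.al_al, he]
    rw [h1, h2]
    have hcase : P.al e = P.sg (f e) ∨ P.al e = P.sg (P.sg (f e)) := by
      rcases ex_mem (P.al e) with h | h | h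
      · exact absurd (h.symm.trans hfe'.symm) hne
      · right
        rw [hfe', h, tri]
      · left
        rw [hfe', h, tri]
    rcases hcase with h | h
    · rw [if_pos h, h, hq1 _ hb]
      ring
    · have h5 : P.al e ≠ P.sg (f e) := by
        rw [h]
        exact sg_ne _
      rw [if_neg h5, h, hq2 _ hb]

end Pool.Agent.AllSurf
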