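import Pool.Agent.Lib.MP_7f477e_gt.SBasic

/-!
# S06: the intervals of the ancestors exhaust the line

Let `e m := par^[m] (ex d)` (exit darts), `a m := q (sg (e m))`, `b m := q (e m)`. By `al_cases` either (L) `al (e m) = sg (e (m+1))`: then `a (m+1) = a m` (`q_al`) and `b (m+1) > b m`, or (R) `al (e m) = sg (sg (e (m+1)))`: then `b (m+1) = b m` (`q_al2`, `tri`) and `a (m+1) < a m`
(`q_lt1`, `q_lt2`, `q_al`). So `a` is antitone and `b` monotone. (L) cannot hold for all `m ≥ m₀`: with `x m := sg (e m)` it says `x (m+1) = al (e m) = (sg * al)⁻¹ (x m)`, so all `x m` lie in one orbit of `sg * al`, which is finite (`P.vertex_finite`), so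
`x m = x m'` with `m < m'`, `e m = e m'`, a cycle of `par`, contradiction to `F.wfp`. (R) cannot hold for all `m ≥ m₀`: `e (m+1) = sg (al (e m))`, again one finite orbit of `sg * al`. So both kinds occur infinitely often, `a → -∞`, `b → ∞`.
-/

set_option autoImplicit false

namespace Pool.Agent.AllSurf

namespace Placed

variable {D : Type} {P : PolygonGluing D} (F : Placed P)

theorem s06_no_cycle {e : D} (he : F.IsE e) (n : ℕ) : F.par^[n + 1] e ≠ e := by
  have key : ∀ n : ℕ, Relation.TransGen (fun a b : D => F.IsE a ∧ F.par a = b) e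
      (F.par^[n + 1] e) := by
    intro n
    induction n with
    | zero => exact Relation.TransGen.single ⟨he, rfl⟩
    | succ n ih =>
      exact Relation.TransGen.tail ih ⟨F.isE_iter (n + 1) he,
        (Function.iterate_succ_apply' F.par (n + 1) e).symm⟩
  intro h
  have h1 := key n
  rw [h] at h1
  exact F.wfp.transGen.irrefl.irrefl e h1

theorem s06_step {e : D} (he : F.IsE e) :
    (P.al e = P.sg (F.par e) ∧ F.q (P.sg (F.par e)) = F.q (P.sg e) ∧ F.q e < F.q (F.par e)) ∨
      (P.al e = P.sg (P.sg (F.par e)) ∧ F.q (P.sg (F.par e)) < F.q (P.sg e) ∧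
        F.q (F.par e) = F.q e) := by
  have hp : F.IsE (F.par e) := F.isE_par e
  have h1 := F.q_lt1 hp
  have h2 := F.q_lt2 hp
  rcases F.al_cases he with h | h
  · refine Or.inl ⟨h, ?_, ?_⟩
    · rw [← h, F.q_al e he]
    · have h3 := F.q_al2 he
      rw [h] at h3
      omega
  · refine Or.inr ⟨h, ?_, ?_⟩
    · have h3 := F.q_al e he
      rw [h] at h3
      omega
    · have h3 := F.q_al2 he
      rw [h, F.tri] at h3
      exact h3

theorem s06_not_left {e : D} (he : F.IsE e) :
    ∃ n : ℕ, F.q (F.par^[n] e) < F.q (F.par^[n + 1] e) := by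
  by_contra hcon
  push Not at hcon
  -- all steps are of kind (R)
  have hR : ∀ j : ℕ, F.par^[j] e = ((P.sg * P.al) ^ j) e := by
    intro j
    induction j with
    | zero => rfl
    | succ j ih =>
      rw [pow_succ', Equiv.Perm.mul_apply, ← ih, Function.iterate_succ_apply']
      have hE := F.isE_iter j he
      rcases F.s06_step hE with h | h
      · have h1 := hcon j
        rw [Function.iterate_succ_apply'] at h1
        omega
      · rw [Equiv.Perm.mul_apply, h.1, F.tri]
  obtain ⟨n, hn, h1⟩ := P.vertex_finite e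
  obtain ⟨k, rfl⟩ : ∃ k, n = k + 1 := ⟨n - 1, by omega⟩
  exact F.s06_no_cycle he k (by rw [hR, h1])

theorem s06_not_right {e : D} (he : F.IsE e) :
    ∃ n : ℕ, F.q (P.sg (F.par^[n + 1] e)) < F.q (P.sg (F.par^[n] e)) := by
  by_contra hcon
  push Not at hcon
  -- all steps are of kind (L)
  have hL : ∀ j : ℕ, ((P.sg * P.al) ^ j) (P.sg (F.par^[j] e)) = P.sg e := by
    intro j
    induction j with
    | zero => rfl
    | succ j ih =>
      rw [pow_succ, Equiv.Perm.mul_apply, Function.iterate_succ_apply']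
      have hE := F.isE_iter j he
      rcases F.s06_step hE with h | h
      · rw [← h.1, Equiv.Perm.mul_apply, P.al_al]
        exact ih
      · have h1 := hcon j
        rw [Function.iterate_succ_apply'] at h1
        omega
  obtain ⟨n, hn, h1⟩ := P.vertex_finite (P.sg e)
  obtain ⟨k, rfl⟩ : ∃ k, n = k + 1 := ⟨n - 1, by omega⟩
  have h2 := hL (k + 1)
  rw [← h1] at h2
  have h3 := (Equiv.injective _ h2)
  exact F.s06_no_cycle he k (P.sg.injective h3)

theorem s06_mono_b {e : D} (he : F.IsE e) (n : ℕ) : F.q e ≤ F.q (F.par^[n] e) := by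
  induction n with
  | zero => exact le_rfl
  | succ n ih =>
    rw [Function.iterate_succ_apply']
    rcases F.s06_step (F.isE_iter n he) with h | h <;> omega

theorem s06_anti_a {e : D} (he : F.IsE e) (n : ℕ) :
    F.q (P.sg (F.par^[n] e)) ≤ F.q (P.sg e) := by
  induction n with
  | zero => exact le_rfl
  | succ n ih =>
    rw [Function.iterate_succ_apply']
    rcases F.s06_step (F.isE_iter n he) with h | h <;> omega

theorem s06_unb_b {e : D} (he : F.IsE e) (k : ℕ) : ∃ n, F.q e + k ≤ F.q (F.par^[n] e) := by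
  induction k with
  | zero => exact ⟨0, by simp⟩
  | succ k ih =>
    obtain ⟨n, hn⟩ := ih
    obtain ⟨m, hm⟩ := F.s06_not_left (F.isE_iter n he)
    have h1 := F.s06_mono_b (F.isE_iter n he) m
    refine ⟨m + 1 + n, ?_⟩
    rw [Function.iterate_add_apply]
    push_cast
    omega

theorem s06_unb_a {e : D} (he : F.IsE e) (k : ℕ) :
    ∃ n, F.q (P.sg (F.par^[n] e)) + k ≤ F.q (P.sg e) := by
  induction k with
  | zero => exact ⟨0, by simp⟩
  | succ k ih =>
    obtain ⟨n, hn⟩ := ih
    obtain ⟨m, hm⟩ := F.s06_not_right (F.isE_iter n he)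
    have h1 := F.s06_anti_a (F.isE_iter n he) m
    refine ⟨m + 1 + n, ?_⟩
    rw [Function.iterate_add_apply]
    push_cast
    omega

theorem growth (d : D) (K : ℤ) : ∃ n : ℕ, ∀ m, n ≤ m →
    F.q (P.sg (F.par^[m] (F.ex d))) < -K ∧ K < F.q (F.par^[m] (F.ex d)) := by
  have he : F.IsE (F.ex d) := F.isE_ex d
  obtain ⟨n₁, h₁⟩ := F.s06_unb_a he (F.q (P.sg (F.ex d)) + K + 1).toNat
  obtain ⟨n₂, h₂⟩ := F.s06_unb_b he (K + 1 - F.q (F.ex d)).toNat
  refine ⟨max n₁ n₂, fun m hm => ?_⟩
  constructor
  · obtain ⟨k, rfl⟩ : ∃ k, m = k + n₁ := ⟨m - n₁, by omega⟩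
    have h3 := F.s06_anti_a (F.isE_iter n₁ he) k
    rw [Function.iterate_add_apply]
    omega
  · obtain ⟨k, rfl⟩ : ∃ k, m = k + n₂ := ⟨m - n₂, by omega⟩
    have h3 := F.s06_mono_b (F.isE_iter n₂ he) k
    rw [Function.iterate_add_apply]
    omega

end Placed

end Pool.Agent.AllSurf
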