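import Pool.Agent.Lib.MP_7f477e_gt.SBasic
import Pool.Agent.Lib.MP_7f477e_gt.S06

/-!
# S07: the darts of the ribbon graph are numbered by (face tree, integer)

(a) existence below an exit dart `e`, by `F.wfp.induction`: for `q (sg e) ≤ k < q e` there is `d` with `IsG d`, `F.Bel e (F.ex d)`, `q d = k`. Let `m = q (sg (sg e))`. If `k < m`: if `IsE (al (sg e))`, use the child (`child1`, `child1_q`, `bel_par`); otherwise `IsG (sg e)` and `m = q (sg e) + 1` (`q_isG`), `d = sg e`.
If `m ≤ k` the same with `sg (sg e)` (`child2`, `child2_q`, `tri`).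
(b) bounds: `IsG d`, `Bel e (ex d)` imply `q (sg e) ≤ q d < q e`; (c) uniqueness: `IsG d`, `IsG d'`, `Bel e (ex d)`, `Bel e (ex d')`, `q d = q d'` imply `d = d'`; both by the same induction with `bel_cases` (applied to `a = ex d`; if `ex d = e` then `d = sg e` or `sg (sg e)`, since `d ≠ e`): the darts below the child at
`sg e` (or `sg e` itself) have `q (sg e) ≤ q d < m`, the others `m ≤ q d < q e`.
(d) `dart_bij`: existence: choose `d₀` with `cl d₀ = c` and by `growth` an ancestor `e` of `ex d₀` with `q (sg e) < k < q e`, `cl e = c` (`cl_iter`, `cl_ex`). The class of `d` is the class of `ex d` and of all ancestors. Uniqueness: common ancestor (`common`).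
-/

set_option autoImplicit false

namespace Pool.Agent.AllSurf

namespace Placed

variable {D : Type} {P : PolygonGluing D} (F : Placed P)

theorem s07_exists {e : D} (he : F.IsE e) : ∀ k : ℤ, F.q (P.sg e) ≤ k → k < F.q e →
    ∃ d, F.IsG d ∧ F.Bel e (F.ex d) ∧ F.q d = k := by
  induction e using F.wfp.induction with
  | _ e ih =>
    intro k hk1 hk2
    by_cases hk : k < F.q (P.sg (P.sg e))
    · by_cases hc : F.IsE (P.al (P.sg e))
      · have hp := F.child1 he hc
        have hq := F.child1_q hc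
        obtain ⟨d, h1, h2, h3⟩ := ih _ ⟨hc, hp⟩ hc k (by omega) (by omega)
        exact ⟨d, h1, F.bel_par hp h2, h3⟩
      · have hG : F.IsG (P.sg e) := ⟨F.not_isE_sg he, hc⟩
        have hq := F.q_isG hG
        refine ⟨P.sg e, hG, ⟨0, ?_⟩, by omega⟩
        show F.ex (P.sg e) = e
        rw [F.ex_sg]
        exact he
    · by_cases hc : F.IsE (P.al (P.sg (P.sg e)))
      · have hp := F.child2 he hc
        have hq := F.child2_q hc
        obtain ⟨d, h1, h2, h3⟩ := ih _ ⟨hc, hp⟩ hc k (by omega) (by omega)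
        exact ⟨d, h1, F.bel_par hp h2, h3⟩
      · have hG : F.IsG (P.sg (P.sg e)) := ⟨F.not_isE_sg2 he, hc⟩
        have hq := F.q_isG hG
        rw [F.tri] at hq
        refine ⟨P.sg (P.sg e), hG, ⟨0, ?_⟩, by omega⟩
        show F.ex (P.sg (P.sg e)) = e
        rw [F.ex_sg2]
        exact he

/-- a dart of the triangle with the exit dart `e` -/
theorem s07_mem {e d : D} (h : F.ex d = e) : d = e ∨ d = P.sg e ∨ d = P.sg (P.sg e) := by
  rcases F.ex_mem d with h1 | h1 | h1
  · exact Or.inl (by rw [← h, h1])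
  · exact Or.inr (Or.inr (by rw [← h, h1, F.tri]))
  · exact Or.inr (Or.inl (by rw [← h, h1, F.tri]))

/-- the side `sg e` or `sg (sg e)` below which the dart `d` lies -/
theorem s07_cases {e d : D} (he : F.IsE e) (hd : F.IsG d) (h : F.Bel e (F.ex d)) :
    (d = P.sg e ∨ (F.IsE (P.al (P.sg e)) ∧ F.Bel (P.al (P.sg e)) (F.ex d))) ∨
      (d = P.sg (P.sg e) ∨
        (F.IsE (P.al (P.sg (P.sg e))) ∧ F.Bel (P.al (P.sg (P.sg e))) (F.ex d))) := by
  rcases F.bel_cases (F.isE_ex d) h with h1 | h1 | h1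
  · rcases F.s07_mem h1 with h2 | h2 | h2
    · exact absurd (h2 ▸ he) hd.1
    · exact Or.inl (Or.inl h2)
    · exact Or.inr (Or.inl h2)
  · exact Or.inl (Or.inr h1)
  · exact Or.inr (Or.inr h1)

theorem s07_bounds {e : D} (he : F.IsE e) : ∀ d, F.IsG d → F.Bel e (F.ex d) →
    F.q (P.sg e) ≤ F.q d ∧ F.q d < F.q e := by
  induction e using F.wfp.induction with
  | _ e ih =>
    intro d hd hb
    have hl1 := F.q_lt1 he
    have hl2 := F.q_lt2 he
    rcases F.s07_cases he hd hb with (h | h) | (h | h)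
    · rw [h]
      omega
    · have h1 := ih _ ⟨h.1, F.child1 he h.1⟩ h.1 d hd h.2
      have hq := F.child1_q h.1
      omega
    · rw [h]
      omega
    · have h1 := ih _ ⟨h.1, F.child2 he h.1⟩ h.1 d hd h.2
      have hq := F.child2_q h.1
      omega

theorem s07_unique {e : D} (he : F.IsE e) : ∀ d d', F.IsG d → F.IsG d' → F.Bel e (F.ex d) →
    F.Bel e (F.ex d') → F.q d = F.q d' → d = d' := by
  induction e using F.wfp.induction with
  | _ e ih =>
    intro d d' hd hd' hb hb' hq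
    have hl1 := F.q_lt1 he
    have hl2 := F.q_lt2 he
    -- the two kinds of positions
    have hA : ∀ d, F.IsG d → (d = P.sg e ∨ (F.IsE (P.al (P.sg e)) ∧
        F.Bel (P.al (P.sg e)) (F.ex d))) → F.q d < F.q (P.sg (P.sg e)) := by
      intro d hd h
      rcases h with h | h
      · rw [h]; exact hl1
      · have h1 := F.s07_bounds h.1 d hd h.2
        have hq := F.child1_q h.1
        omega
    have hB : ∀ d, F.IsG d → (d = P.sg (P.sg e) ∨ (F.IsE (P.al (P.sg (P.sg e))) ∧
        F.Bel (P.al (P.sg (P.sg e))) (F.ex d))) → F.q (P.sg (P.sg e)) ≤ F.q d := by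
      intro d hd h
      rcases h with h | h
      · rw [h]
      · have h1 := F.s07_bounds h.1 d hd h.2
        have hq := F.child2_q h.1
        omega
    rcases F.s07_cases he hd hb with h | h
    · rcases F.s07_cases he hd' hb' with h' | h'
      · rcases h with h | h
        · rcases h' with h' | h'
          · rw [h, h']
          · exact absurd (h ▸ h'.1) hd.2
        · rcases h' with h' | h'
          · exact absurd (h' ▸ h.1) hd'.2
          · exact ih _ ⟨h.1, F.child1 he h.1⟩ h.1 d d' hd hd' h.2 h'.2 hq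
      · have h1 := hA d hd h
        have h2 := hB d' hd' h'
        omega
    · rcases F.s07_cases he hd' hb' with h' | h'
      · have h1 := hA d' hd' h'
        have h2 := hB d hd h
        omega
      · rcases h with h | h
        · rcases h' with h' | h'
          · rw [h, h']
          · exact absurd (h ▸ h'.1) hd.2
        · rcases h' with h' | h'
          · exact absurd (h' ▸ h.1) hd'.2
          · exact ih _ ⟨h.1, F.child2 he h.1⟩ h.1 d d' hd hd' h.2 h'.2 hq

theorem dart_bij (c : F.Cl) (k : ℤ) : ∃! d : D, F.IsG d ∧ F.cl d = c ∧ F.q d = k := by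
  obtain ⟨d₀, hd₀⟩ := F.exists_cl c
  obtain ⟨n, hn⟩ := F.growth d₀ (|k|)
  have h1 := hn n le_rfl
  have hE : F.IsE (F.par^[n] (F.ex d₀)) := F.isE_iter n (F.isE_ex d₀)
  have hk1 : -|k| ≤ k := neg_abs_le k
  have hk2 : k ≤ |k| := le_abs_self k
  obtain ⟨d, hd1, hd2, hd3⟩ := F.s07_exists hE k (by omega) (by omega)
  have hcl : F.cl (F.par^[n] (F.ex d₀)) = c := by rw [F.cl_iter, F.cl_ex, hd₀]
  refine ⟨d, ⟨hd1, ?_, hd3⟩, ?_⟩
  · obtain ⟨m, hm⟩ := hd2
    rw [← hcl, ← hm, F.cl_iter, F.cl_ex]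
  · rintro d' ⟨hg, hc, hq⟩
    have hdc : F.cl d = c := by
      obtain ⟨m, hm⟩ := hd2
      rw [← hcl, ← hm, F.cl_iter, F.cl_ex]
    obtain ⟨e, he, hb1, hb2⟩ := F.common (F.isE_ex d') (F.isE_ex d)
      (by rw [F.cl_ex, F.cl_ex, hc, hdc])
    exact F.s07_unique he d' d hg hd1 hb1 hb2 (by rw [hq, hd3])

theorem exists_j : ∃ j : F.G ≃ F.Cl × ℤ, ∀ g, j g = (F.cl g.1, F.q g.1) := by
  refine ⟨Equiv.ofBijective (fun g : F.G => (F.cl g.1, F.q g.1)) ⟨?_, ?_⟩, fun g => rfl⟩
  · rintro ⟨a, ha⟩ ⟨b, hb⟩ hab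
    have h1 : F.cl a = F.cl b ∧ F.q a = F.q b := Prod.mk.inj hab
    obtain ⟨d, hd, hu⟩ := F.dart_bij (F.cl b) (F.q b)
    have h2 := hu a ⟨ha, h1.1, h1.2⟩
    have h3 := hu b ⟨hb, rfl, rfl⟩
    exact Subtype.ext (h2.trans h3.symm)
  · rintro ⟨c, k⟩
    obtain ⟨d, hd, hu⟩ := F.dart_bij c k
    exact ⟨⟨d, hd.1⟩, Prod.ext hd.2.1 hd.2.2⟩

end Placed

end Pool.Agent.AllSurf
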