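import Pool.Agent.Lib.MP_7f477e_gt.SBasic
import Pool.Agent.Lib.MP_7f477e_gt.S07

/-!
# S08: the vertices of the ribbon graph are finite

Let `om := (sg * al)⁻¹`, `om x = al (sg⁻¹ x)`, so `om (sg y) = al y`. For `x ~> y` write: `y = om ^ m x` for some natural `m` (transitive).
(a) For a dart `x` which is no exit dart and `c = al x` an exit dart: `sg c ~> x` (`om (sg c) = al c = x`), and `al x = c`, `om c = al (sg⁻¹ c) = al (sg (sg c))`.
(b) FIRST: for an exit dart `e` and `d` with `IsG d`, `Bel e (ex d)`, `q d = q (sg e)`: `d ~> sg e`. Induction (`wfp`): if `IsG (sg e)` then `d = sg e` (uniqueness `dart_bij`, same class), otherwise with the child `c = al (sg e)`: `q (sg c) = q (sg e)` and (by `dart_bij` and existence below `c`, or directly by `bel_cases`)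
`d ~> sg c ~> sg e`. (c) LAST: for an exit dart `e` and `d` with `IsG d`, `Bel e (ex d)`, `q d + 1 = q e`: `al (sg (sg e)) ~> al d`. Induction: if `IsG (sg (sg e))` then `d = sg (sg e)`; otherwise, child `c = al (sg (sg e))`, `q c = q e`; `c ~> al (sg (sg c))` by (a) and `al (sg (sg c)) ~> al d` by induction.
(d) MIDDLE: `prev_orbit` for `c`, `d` both below an exit dart `e`, by induction: if `q d = q (sg (sg e)) =: m` then `c` is the last dart below the side `sg e` and `d` the first one below the side `sg (sg e)`: `d ~> sg (sg e)` [(b) for the child, `sg c' ~> sg (sg e)`], `om (sg (sg e)) = al (sg e)`, `al (sg e) ~> al c` [(c) for the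
child `c' = al (sg e)`: `c' ~> al (sg (sg c')) ~> al c`]. Otherwise both are below the same side (positions, see S07 (b); export `bounds` etc. from S07 if you like, or prove them here again) and the induction hypothesis applies. Any two darts of one class are below a common `e` (`common`).
`nu_finite`: the `nu`-orbit of `g` is contained in the `(sg * al)`-orbit of `g.1`, which is finite (`P.vertex_finite`; powers of the inverse), so two of the `nu ^ i g` are equal (`Finite.exists_ne_map_eq_of_infinite`), `nu` is injective.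
-/

set_option autoImplicit false

namespace Pool.Agent.AllSurf

namespace Placed

variable {D : Type} {P : PolygonGluing D} (F : Placed P)

/-- `y` is obtained from `x` by a power of `(sg * al)⁻¹` -/
def s08_R (P : PolygonGluing D) (x y : D) : Prop := ∃ m : ℕ, y = ((P.sg * P.al)⁻¹ ^ m) x

theorem s08_refl (x : D) : s08_R P x x := ⟨0, by simp⟩

theorem s08_trans {x y z : D} (h1 : s08_R P x y) (h2 : s08_R P y z) : s08_R P x z := by
  obtain ⟨m, rfl⟩ := h1
  obtain ⟨n, rfl⟩ := h2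
  exact ⟨n + m, by rw [pow_add]; rfl⟩

theorem s08_om (y : D) : (P.sg * P.al)⁻¹ (P.sg y) = P.al y := by
  rw [Equiv.Perm.inv_eq_iff_eq]
  show P.sg y = P.sg (P.al (P.al y))
  rw [P.al_al]

theorem s08_one (y : D) : s08_R P (P.sg y) (P.al y) := ⟨1, by rw [pow_one, s08_om]⟩

theorem s08_side {d : D} (hd : F.IsG d) : d = P.sg (F.ex d) ∨ d = P.sg (P.sg (F.ex d)) := by
  rcases F.ex_mem d with h | h | h
  · exact absurd h hd.1
  · exact Or.inr (by rw [h, F.tri])
  · exact Or.inl (by rw [h, F.tri])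

theorem s08_bounds (e : D) : F.IsE e → ∀ d, F.IsG d → F.Bel e (F.ex d) →
    F.q (P.sg e) ≤ F.q d ∧ F.q d + 1 ≤ F.q e := by
  induction e using F.wfp.induction with
  | _ e ih =>
    intro he d hd hb
    have h1 := F.q_lt1 he
    have h2 := F.q_lt2 he
    rcases F.bel_cases (F.isE_ex d) hb with h | ⟨hc, h⟩ | ⟨hc, h⟩
    · rcases F.s08_side hd with h3 | h3
      · rw [h] at h3
        rw [h3]
        omega
      · rw [h] at h3
        rw [h3]
        omega
    · have h3 := ih _ ⟨hc, F.child1 he hc⟩ hc d hd h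
      have h4 := F.child1_q hc
      omega
    · have h3 := ih _ ⟨hc, F.child2 he hc⟩ hc d hd h
      have h4 := F.child2_q hc
      omega

/-- on which side of the triangle `e` is `d` -/
theorem s08_cls {e : D} (he : F.IsE e) {d : D} (hd : F.IsG d) (hb : F.Bel e (F.ex d)) :
    (((F.IsG (P.sg e) ∧ d = P.sg e) ∨ (F.IsE (P.al (P.sg e)) ∧ F.Bel (P.al (P.sg e)) (F.ex d))) ∧
      F.q (P.sg e) ≤ F.q d ∧ F.q d + 1 ≤ F.q (P.sg (P.sg e))) ∨
    (((F.IsG (P.sg (P.sg e)) ∧ d = P.sg (P.sg e)) ∨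
        (F.IsE (P.al (P.sg (P.sg e))) ∧ F.Bel (P.al (P.sg (P.sg e))) (F.ex d))) ∧
      F.q (P.sg (P.sg e)) ≤ F.q d ∧ F.q d + 1 ≤ F.q e) := by
  have h1 := F.q_lt1 he
  have h2 := F.q_lt2 he
  rcases F.bel_cases (F.isE_ex d) hb with h | ⟨hc, h⟩ | ⟨hc, h⟩
  · rcases F.s08_side hd with h3 | h3
    · rw [h] at h3
      left
      rw [h3] at hd ⊢
      exact ⟨Or.inl ⟨hd, rfl⟩, by omega, by omega⟩
    · rw [h] at h3
      right
      rw [h3] at hd ⊢
      exact ⟨Or.inl ⟨hd, rfl⟩, by omega, by omega⟩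
  · left
    have h3 := F.s08_bounds _ hc d hd h
    have h4 := F.child1_q hc
    exact ⟨Or.inr ⟨hc, h⟩, by omega, by omega⟩
  · right
    have h3 := F.s08_bounds _ hc d hd h
    have h4 := F.child2_q hc
    exact ⟨Or.inr ⟨hc, h⟩, by omega, by omega⟩

theorem s08_first (e : D) : F.IsE e → ∀ d, F.IsG d → F.Bel e (F.ex d) → F.q d = F.q (P.sg e) →
    s08_R P d (P.sg e) := by
  induction e using F.wfp.induction with
  | _ e ih =>
    intro he d hd hb hq
    have h1 := F.q_lt1 he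
    rcases F.s08_cls he hd hb with ⟨h | ⟨hc, h⟩, h3, h4⟩ | ⟨_, h3, h4⟩
    · rw [h.2]; exact s08_refl _
    · have h5 := F.child1_q hc
      have h6 := ih _ ⟨hc, F.child1 he hc⟩ hc d hd h (by omega)
      have h7 := s08_one (P := P) (P.al (P.sg e))
      rw [P.al_al] at h7
      exact s08_trans h6 h7
    · omega

theorem s08_last (e : D) : F.IsE e → ∀ d, F.IsG d → F.Bel e (F.ex d) → F.q d + 1 = F.q e →
    s08_R P (P.al (P.sg (P.sg e))) (P.al d) := by
  induction e using F.wfp.induction with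
  | _ e ih =>
    intro he d hd hb hq
    have h2 := F.q_lt2 he
    rcases F.s08_cls he hd hb with ⟨_, h3, h4⟩ | ⟨h | ⟨hc, h⟩, h3, h4⟩
    · omega
    · rw [h.2]; exact s08_refl _
    · have h5 := F.child2_q hc
      have h6 := ih _ ⟨hc, F.child2 he hc⟩ hc d hd h (by omega)
      have h7 := s08_one (P := P) (P.sg (P.sg (P.al (P.sg (P.sg e)))))
      rw [F.tri] at h7
      exact s08_trans h7 h6

theorem s08_middle (e : D) : F.IsE e → ∀ c d, F.IsG c → F.IsG d → F.Bel e (F.ex c) →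
    F.Bel e (F.ex d) → F.q c + 1 = F.q d → s08_R P d (P.al c) := by
  induction e using F.wfp.induction with
  | _ e ih =>
    intro he c d hc hd hbc hbd hq
    rcases F.s08_cls he hc hbc with ⟨hc1, hc2, hc3⟩ | ⟨hc1, hc2, hc3⟩
    · rcases F.s08_cls he hd hbd with ⟨hd1, hd2, hd3⟩ | ⟨hd1, hd2, hd3⟩
      · rcases hc1 with ⟨hG, h1⟩ | ⟨hE, h1⟩
        · rcases hd1 with ⟨_, h2⟩ | ⟨hE, _⟩
          · rw [h1, h2] at hq
            omega
          · exact absurd hE hG.2
        · rcases hd1 with ⟨hG, _⟩ | ⟨_, h2⟩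
          · exact absurd hE hG.2
          · exact ih _ ⟨hE, F.child1 he hE⟩ hE c d hc hd h1 h2 hq
      · have k1 : s08_R P d (P.sg (P.sg e)) := by
          rcases hd1 with ⟨_, h1⟩ | ⟨hE, h1⟩
          · rw [h1]; exact s08_refl _
          · have h5 := F.child2_q hE
            have h6 := F.s08_first _ hE d hd h1 (by omega)
            have h7 := s08_one (P := P) (P.al (P.sg (P.sg e)))
            rw [P.al_al] at h7
            exact s08_trans h6 h7
        have k2 : s08_R P (P.sg (P.sg e)) (P.al (P.sg e)) := s08_one _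
        have k3 : s08_R P (P.al (P.sg e)) (P.al c) := by
          rcases hc1 with ⟨_, h1⟩ | ⟨hE, h1⟩
          · rw [h1]; exact s08_refl _
          · have h5 := F.child1_q hE
            have h6 := F.s08_last _ hE c hc h1 (by omega)
            have h7 := s08_one (P := P) (P.sg (P.sg (P.al (P.sg e))))
            rw [F.tri] at h7
            exact s08_trans h7 h6
        exact s08_trans k1 (s08_trans k2 k3)
    · rcases F.s08_cls he hd hbd with ⟨hd1, hd2, hd3⟩ | ⟨hd1, hd2, hd3⟩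
      · omega
      · rcases hc1 with ⟨hG, h1⟩ | ⟨hE, h1⟩
        · rcases hd1 with ⟨_, h2⟩ | ⟨hE, _⟩
          · rw [h1, h2] at hq
            omega
          · exact absurd hE hG.2
        · rcases hd1 with ⟨hG, _⟩ | ⟨_, h2⟩
          · exact absurd hE hG.2
          · exact ih _ ⟨hE, F.child2 he hE⟩ hE c d hc hd h1 h2 hq

theorem prev_orbit {c d : D} (hc : F.IsG c) (hd : F.IsG d) (hcl : F.cl c = F.cl d)
    (hq : F.q c + 1 = F.q d) : ∃ m : ℕ, P.al c = ((P.sg * P.al)⁻¹ ^ m) d := by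
  obtain ⟨e, he, h1, h2⟩ := F.common (F.isE_ex c) (F.isE_ex d) (by rw [F.cl_ex, F.cl_ex, hcl])
  exact F.s08_middle e he c d hc hd h1 h2 hq

theorem s08_pow_fix (x : D) (n : ℕ) (h : ((P.sg * P.al)⁻¹ ^ n) x = x) (k : ℕ) :
    (((P.sg * P.al)⁻¹ ^ n) ^ k) x = x := by
  induction k with
  | zero => simp
  | succ k ih =>
    rw [pow_succ]
    show (((P.sg * P.al)⁻¹ ^ n) ^ k) (((P.sg * P.al)⁻¹ ^ n) x) = x
    rw [h, ih]

theorem s08_pow_nu {G : Type} (nu : Equiv.Perm G) (om : Equiv.Perm D) (v : G → D)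
    (h : ∀ g, ∃ m : ℕ, v (nu g) = (om ^ m) (v g)) (g : G) (i : ℕ) :
    ∃ m : ℕ, v ((nu ^ i) g) = (om ^ m) (v g) := by
  induction i with
  | zero => exact ⟨0, by simp⟩
  | succ i ih =>
    obtain ⟨m, hm⟩ := ih
    obtain ⟨n, hn⟩ := h ((nu ^ i) g)
    refine ⟨n + m, ?_⟩
    rw [pow_succ', Equiv.Perm.mul_apply, hn, hm, pow_add, Equiv.Perm.mul_apply]

theorem nu_finite (nu : Equiv.Perm F.G)
    (hnu : ∀ g, ∃ m : ℕ, (nu g).1 = ((P.sg * P.al)⁻¹ ^ m) g.1) (g : F.G) :
    ∃ n : ℕ, 0 < n ∧ (nu ^ n) g = g := by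
  obtain ⟨n, hn, hfix⟩ := P.vertex_finite g.1
  have hfix' : ((P.sg * P.al)⁻¹ ^ n) g.1 = g.1 := by
    rw [inv_pow, Equiv.Perm.inv_eq_iff_eq]
    exact hfix.symm
  have hmod : ∀ m : ℕ, ((P.sg * P.al)⁻¹ ^ m) g.1 = ((P.sg * P.al)⁻¹ ^ (m % n)) g.1 := by
    intro m
    conv_lhs => rw [← Nat.mod_add_div m n, pow_add, pow_mul]
    rw [Equiv.Perm.mul_apply, s08_pow_fix g.1 n hfix']
  have hcase : ∀ i : ℕ, ∃ k : Fin n, ((nu ^ i) g).1 = ((P.sg * P.al)⁻¹ ^ (k : ℕ)) g.1 := by
    intro i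
    obtain ⟨m, hm⟩ := s08_pow_nu nu (P.sg * P.al)⁻¹ (fun g : F.G => g.1) hnu g i
    exact ⟨⟨m % n, Nat.mod_lt _ hn⟩, by rw [← hmod]; exact hm⟩
  choose k hk using hcase
  obtain ⟨i, j, hij, hkij⟩ := Finite.exists_ne_map_eq_of_infinite k
  have hval : (nu ^ i) g = (nu ^ j) g := Subtype.ext (by rw [hk i, hk j, hkij])
  have key : ∀ a b : ℕ, a < b → (nu ^ a) g = (nu ^ b) g → ∃ n : ℕ, 0 < n ∧ (nu ^ n) g = g := by
    intro a b hab h
    refine ⟨b - a, by omega, ?_⟩
    apply (nu ^ a).injective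
    rw [← Equiv.Perm.mul_apply, ← pow_add, h]
    congr 2
    omega
  rcases lt_or_gt_of_ne hij with h | h
  · exact key i j h hval
  · exact key j i h hval.symm

end Placed

end Pool.Agent.AllSurf
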