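import Pool.Agent.Lib.MP_7f477e_gt.S14

/-!
# S15: the triangulated surface is homeomorphic to the glued half planes

`Phi : P.Surface → HPS`: `Quot.lift` of `x ↦ Quot.mk _ (cl x.1, (pos x).1, ((pos x).2 - pl (pos x).1).toNNReal)`: continuous (for fixed `d` the map into `{c} × ℝ × NNReal`; `pos_cont`, `pl_cont`, `Real.toNNReal`; topology of a product with a discrete factor: `continuous_bot_prod`-like argument, or: continuity on `D × I × I` with `D` discrete is continuity for every fixed `d`).
Relations: `centre`: `pos_centre`; `next`: `pos_next`, `cl_sg`; `glue` at `d`: if `IsE d`: `pos_exit`, `cl_al`; if `IsE (al d)`: the same for `al d`, `al_al`, `unitInterval.symm` is an involution; otherwise `IsG d`: `pos_isG` for `d` and `al d`, so the two points are `(cl d, q d + t, 0)` and `(cl (al d), q (al d) + (1 - t), 0)` (`toNNReal` of `0`): relation of `HPS` by `hj`.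
`Psi : HPS → P.Surface`: `Quot.lift` of `(c, x, v) ↦ psi c (x, v + pl x)`: continuous by `psi_cont`. Relation: `(x, pl x)` with `x = q d + t` is `pos (d, 1, t)` (`pos_isG`), `psi_pos`, relation `glue`.
`Psi (Phi (pt P x)) = pt P x`: `pl (pos x).1 ≤ (pos x).2` (`T_sub`, `pos_mem_T`), `psi_pos`. `Phi (Psi [c, x, v]) = [c, x, v]`: `exists_T`, `exists_pos`: `(x, v + pl x) = pos y` with `ex y.1 = a`, `cl a = c`; `psi_pos`, `cl_ex`.
-/

set_option autoImplicit false

open Set Topology

namespace Pool.Agent.AllSurf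

namespace Placed

variable {D : Type} {P : PolygonGluing D} (F : Placed P)

/-- the opposite dart in the ribbon graph -/
def alG (g : F.G) : F.G := ⟨P.al g.1, F.isG_al g.2⟩

theorem s15_ptSurj (x : P.Surface) : ∃ y, x = pt P y := by
  obtain ⟨y, rfl⟩ := Quot.exists_rep x
  exact ⟨y, rfl⟩

theorem s15_cont_left {C Z W : Type} [TopologicalSpace Z] [TopologicalSpace W] (f : C × Z → W)
    (h : ∀ c, Continuous fun z => f (c, z)) :
    @Continuous (C × Z) W (@instTopologicalSpaceProd C Z ⊥ inferInstance) inferInstance f := by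
  letI : TopologicalSpace C := ⊥
  haveI : DiscreteTopology C := ⟨rfl⟩
  exact continuous_prod_of_discrete_left.2 h

theorem s15_slice {C Z W : Type} [TopologicalSpace Z] [TopologicalSpace W] (f : C × Z → W)
    (h : @Continuous (C × Z) W (@instTopologicalSpaceProd C Z ⊥ inferInstance) inferInstance f)
    (c : C) : Continuous fun z => f (c, z) := by
  letI : TopologicalSpace C := ⊥
  have h' : Continuous f := h
  exact h'.comp (continuous_const.prodMk continuous_id)

/-- the map to the half planes, upstairs -/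
noncomputable def s15_phi (j : F.G ≃ F.Cl × ℤ) (x : D × unitInterval × unitInterval) :
    HPS j F.alG :=
  Quot.mk _ (F.cl x.1, (F.pos x).1, ((F.pos x).2 - pl (F.pos x).1).toNNReal)

/-- the map from the half planes, upstairs -/
noncomputable def s15_psi (y : F.Cl × ℝ × NNReal) : P.Surface :=
  F.psi y.1 (y.2.1, (y.2.2 : ℝ) + pl y.2.1)

theorem s15_pt_cont : @Continuous (D × unitInterval × unitInterval) P.Surface
    (@instTopologicalSpaceProd D (unitInterval × unitInterval) ⊥ inferInstance) inferInstance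
    (pt P) :=
  @continuous_quot_mk _ (@instTopologicalSpaceProd D (unitInterval × unitInterval) ⊥ inferInstance)
    P.Rel

theorem s15_hpt_cont {G C : Type} (j : G ≃ C × ℤ) (al : G → G) :
    @Continuous (C × ℝ × NNReal) (HPS j al)
    (@instTopologicalSpaceProd C (ℝ × NNReal) ⊥ inferInstance) inferInstance
    (fun y => (Quot.mk (HRel j al) y : HPS j al)) :=
  @continuous_quot_mk _ (@instTopologicalSpaceProd C (ℝ × NNReal) ⊥ inferInstance) (HRel j al)

theorem s15_phi_cont (j : F.G ≃ F.Cl × ℤ) :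
    @Continuous (D × unitInterval × unitInterval) (HPS j F.alG)
    (@instTopologicalSpaceProd D (unitInterval × unitInterval) ⊥ inferInstance) inferInstance
    (F.s15_phi j) := by
  apply s15_cont_left
  intro d
  have h1 : Continuous (fun p : unitInterval × unitInterval => F.pos (d, p)) :=
    s15_slice F.pos F.pos_cont d
  have h2 : Continuous (fun p : unitInterval × unitInterval =>
      (((F.pos (d, p)).1, ((F.pos (d, p)).2 - pl (F.pos (d, p)).1).toNNReal) : ℝ × NNReal)) := by
    refine (continuous_fst.comp h1).prodMk ?_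
    refine continuous_real_toNNReal.comp ?_
    exact (continuous_snd.comp h1).sub (pl_cont.comp (continuous_fst.comp h1))
  exact (s15_slice _ (s15_hpt_cont j F.alG) (F.cl d)).comp h2

theorem s15_psi_cont :
    @Continuous (F.Cl × ℝ × NNReal) P.Surface
    (@instTopologicalSpaceProd F.Cl (ℝ × NNReal) ⊥ inferInstance) inferInstance
    F.s15_psi := by
  apply s15_cont_left
  intro c
  have h1 : Continuous (fun z : ℝ × NNReal => ((z.1, (z.2 : ℝ) + pl z.1) : ℝ × ℝ)) :=
    continuous_fst.prodMk ((NNReal.continuous_coe.comp continuous_snd).add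
      (pl_cont.comp continuous_fst))
  refine (F.psi_cont c).comp_continuous h1 ?_
  intro z
  show pl z.1 ≤ (z.2 : ℝ) + pl z.1
  have := z.2.2
  linarith

theorem s15_glue (d : D) (t : unitInterval) :
    pt P (d, 1, t) = pt P (P.al d, 1, unitInterval.symm t) :=
  Quot.sound (PolygonGluing.Rel.glue d t)

theorem s15_phi_exit (j : F.G ≃ F.Cl × ℤ) {e : D} (he : F.IsE e) (t : unitInterval) :
    F.s15_phi j (e, 1, t) = F.s15_phi j (P.al e, 1, unitInterval.symm t) := by
  unfold s15_phi
  rw [F.pos_exit he t, F.cl_al he]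

theorem s15_phi_rel (j : F.G ≃ F.Cl × ℤ) (hj : ∀ g, j g = (F.cl g.1, F.q g.1))
    (x y : D × unitInterval × unitInterval) (h : P.Rel x y) :
    F.s15_phi j x = F.s15_phi j y := by
  cases h with
  | centre d t t' =>
    unfold s15_phi
    rw [F.pos_centre d t t']
  | next d s =>
    unfold s15_phi
    rw [F.pos_next d s, F.cl_sg]
  | glue d t =>
    by_cases h1 : F.IsE d
    · exact F.s15_phi_exit j h1 t
    · by_cases h2 : F.IsE (P.al d)
      · have h3 := F.s15_phi_exit j h2 (unitInterval.symm t)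
        rw [P.al_al, unitInterval.symm_symm] at h3
        exact h3.symm
      · have hG : F.IsG d := ⟨h1, h2⟩
        unfold s15_phi
        rw [F.pos_isG hG, F.pos_isG (F.isG_al hG)]
        simp only [sub_self, Real.toNNReal_zero]
        have h3 := Quot.sound (HRel.glue (j := j) (al := F.alG) (⟨d, hG⟩ : F.G) t)
        rw [hj, hj] at h3
        exact h3

theorem s15_psi_rel (j : F.G ≃ F.Cl × ℤ) (hj : ∀ g, j g = (F.cl g.1, F.q g.1))
    (x y : F.Cl × ℝ × NNReal) (h : HRel j F.alG x y) :
    F.s15_psi x = F.s15_psi y := by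
  cases h with
  | glue g t =>
    rw [hj, hj]
    have h1 : F.s15_psi (F.cl g.1, ((F.q g.1 : ℤ) : ℝ) + (t : ℝ), 0) = pt P (g.1, 1, t) := by
      have h2 := F.psi_pos (g.1, 1, t)
      rw [F.pos_isG g.2 t] at h2
      show F.psi (F.cl g.1) (((F.q g.1 : ℤ) : ℝ) + (t : ℝ),
        ((0 : NNReal) : ℝ) + pl (((F.q g.1 : ℤ) : ℝ) + (t : ℝ))) = _
      rw [NNReal.coe_zero, zero_add]
      exact h2
    have h3 : F.s15_psi (F.cl (F.alG g).1, ((F.q (F.alG g).1 : ℤ) : ℝ) + (1 - (t : ℝ)), 0) =
        pt P (P.al g.1, 1, unitInterval.symm t) := by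
      have h2 := F.psi_pos (P.al g.1, 1, unitInterval.symm t)
      rw [F.pos_isG (F.isG_al g.2) (unitInterval.symm t), unitInterval.coe_symm_eq] at h2
      show F.psi (F.cl (P.al g.1)) (((F.q (P.al g.1) : ℤ) : ℝ) + (1 - (t : ℝ)),
        ((0 : NNReal) : ℝ) + pl (((F.q (P.al g.1) : ℤ) : ℝ) + (1 - (t : ℝ)))) = _
      rw [NNReal.coe_zero, zero_add]
      exact h2
    exact h1.trans ((s15_glue g.1 t).trans h3.symm)

theorem surface_hps (j : F.G ≃ F.Cl × ℤ) (hj : ∀ g, j g = (F.cl g.1, F.q g.1)) :
    Nonempty (P.Surface ≃ₜ HPS j F.alG) := by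
  let Phi : P.Surface → HPS j F.alG := Quot.lift (F.s15_phi j) (F.s15_phi_rel j hj)
  let Psi : HPS j F.alG → P.Surface := Quot.lift F.s15_psi (F.s15_psi_rel j hj)
  have hPhi : Continuous Phi :=
    @continuous_quot_lift _ _ (@instTopologicalSpaceProd D (unitInterval × unitInterval) ⊥
      inferInstance) _ _ _ (F.s15_phi_rel j hj) (F.s15_phi_cont j)
  have hPsi : Continuous Psi :=
    @continuous_quot_lift _ _ (@instTopologicalSpaceProd F.Cl (ℝ × NNReal) ⊥
      inferInstance) _ _ _ (F.s15_psi_rel j hj) F.s15_psi_cont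
  refine ⟨{ toFun := Phi, invFun := Psi, left_inv := ?_, right_inv := ?_,
            continuous_toFun := hPhi, continuous_invFun := hPsi }⟩
  · intro x
    obtain ⟨y, rfl⟩ := s15_ptSurj x
    show F.psi (F.cl y.1) ((F.pos y).1,
      ((((F.pos y).2 - pl (F.pos y).1).toNNReal : NNReal) : ℝ) + pl (F.pos y).1) = pt P y
    have h1 : pl (F.pos y).1 ≤ (F.pos y).2 := (F.T_sub (F.isE_ex y.1) (F.pos_mem_T y)).1
    rw [Real.coe_toNNReal _ (sub_nonneg.2 h1), sub_add_cancel]
    exact F.psi_pos y
  · intro x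
    obtain ⟨⟨c, x, v⟩, rfl⟩ := Quot.exists_rep x
    have hv : (0 : ℝ) ≤ v := v.2
    obtain ⟨a, ha, hac, hz⟩ := F.exists_T c (z := (x, (v : ℝ) + pl x))
      (by show pl x ≤ (v : ℝ) + pl x; linarith)
    obtain ⟨y, hy, hyz⟩ := F.exists_pos ha hz
    have hc : F.cl y.1 = c := by rw [← F.cl_ex, hy, hac]
    have h1 : F.psi c (x, (v : ℝ) + pl x) = pt P y := by
      rw [← hyz, ← hc]
      exact F.psi_pos y
    show Phi (F.psi c (x, (v : ℝ) + pl x)) = _
    rw [h1]
    show (Quot.mk _ (F.cl y.1, (F.pos y).1, ((F.pos y).2 - pl (F.pos y).1).toNNReal) :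
      HPS j F.alG) = _
    rw [hc, hyz]
    simp only [add_sub_cancel_right, Real.toNNReal_coe]

end Placed

end Pool.Agent.AllSurf
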