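import Pool.Agent.Lib.MP_7f477e_gt.SRib

/-!
# S17: from the glued half planes to the ribbon surface

Define `g₀ : C × ℝ × NNReal → R.Surface` by `(c, x, v) ↦ if x - k ≤ 1/2 then R.pt d true (2 (x - k)) (uOf v) else R.pt (al d) false (2 (k + 1 - x)) (uOf v)` with `k = ⌊x⌋`, `d = j.symm (c, k)` (`Set.projIcc` for the values in `unitInterval`).
Continuity for fixed `c`: the closed strips `[k, k + 1/2]` and `[k + 1/2, k + 1]`; on each of them `g₀` agrees with a continuous map; agreement at the end points: relations `mid`, `corner`.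
-/

set_option autoImplicit false

open Set Topology

namespace Pool.Agent.AllSurf

/-- projection to the unit interval -/
noncomputable def s17_pr (x : ℝ) : unitInterval := Set.projIcc 0 1 zero_le_one x

theorem s17_pr_cont : Continuous s17_pr := by
  unfold s17_pr
  exact continuous_projIcc (h := zero_le_one)

theorem s17_pr_of {x : ℝ} {s : unitInterval} (h : x = s) : s17_pr x = s := by
  subst h
  exact Set.projIcc_val zero_le_one s

/-- the map on the left half of the strip `k` -/
noncomputable def s17_L {G : Type} (R : RibbonGraph G) (d : ℤ → G) (k : ℤ)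
    (z : ℝ × NNReal) : R.Surface := R.pt (d k) true (s17_pr (2 * (z.1 - k))) (uOf z.2)

/-- the map on the right half of the strip `k` -/
noncomputable def s17_R {G : Type} (R : RibbonGraph G) (d : ℤ → G) (k : ℤ)
    (z : ℝ × NNReal) : R.Surface := R.pt (R.al (d k)) false (s17_pr (2 * (k + 1 - z.1))) (uOf z.2)

theorem s17_pt_cont {G : Type} (R : RibbonGraph G) (d : G) (b : Bool) {Y : Type}
    [TopologicalSpace Y] (s : Y → unitInterval) (u : Y → U01) (hs : Continuous s)
    (hu : Continuous u) : Continuous fun y => R.pt d b (s y) (u y) := by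
  letI : TopologicalSpace G := ⊥
  have h1 : Continuous fun y : Y => ((d, b, s y, u y) : G × Bool × unitInterval × U01) := by
    fun_prop
  exact continuous_quot_mk.comp h1

theorem s17_L_cont {G : Type} (R : RibbonGraph G) (d : ℤ → G) (k : ℤ) :
    Continuous (s17_L R d k) := by
  apply s17_pt_cont
  · exact s17_pr_cont.comp (by fun_prop)
  · exact uOf_cont.comp (by fun_prop)

theorem s17_R_cont {G : Type} (R : RibbonGraph G) (d : ℤ → G) (k : ℤ) :
    Continuous (s17_R R d k) := by
  apply s17_pt_cont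
  · exact s17_pr_cont.comp (by fun_prop)
  · exact uOf_cont.comp (by fun_prop)

open Classical in
/-- the map on one half plane -/
noncomputable def s17_F {G : Type} (R : RibbonGraph G) (d : ℤ → G) (z : ℝ × NNReal) : R.Surface :=
  if z.1 - ⌊z.1⌋ ≤ 1 / 2 then s17_L R d ⌊z.1⌋ z else s17_R R d ⌊z.1⌋ z

theorem s17_mid {G : Type} (R : RibbonGraph G) (d : ℤ → G) (k : ℤ) (z : ℝ × NNReal)
    (h : z.1 = k + 1 / 2) : s17_L R d k z = s17_R R d k z := by
  have h1 : s17_pr (2 * (z.1 - k)) = 1 := s17_pr_of (by rw [h]; push_cast; simp)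
  have h2 : s17_pr (2 * ((k : ℝ) + 1 - z.1)) = 1 := s17_pr_of (by rw [h]; push_cast; simp; ring)
  unfold s17_L s17_R
  rw [h1, h2]
  exact Quot.sound (RibbonGraph.Rel.mid (d k) (uOf z.2))

theorem s17_corner {G : Type} (R : RibbonGraph G) (d : ℤ → G)
    (hd : ∀ k, R.nu (d (k + 1)) = R.al (d k)) (k : ℤ) (z : ℝ × NNReal)
    (h : z.1 = k + 1) : s17_L R d (k + 1) z = s17_R R d k z := by
  have h1 : s17_pr (2 * (z.1 - ((k + 1 : ℤ) : ℝ))) = 0 :=
    s17_pr_of (by rw [h]; push_cast; simp)
  have h2 : s17_pr (2 * ((k : ℝ) + 1 - z.1)) = 0 := s17_pr_of (by rw [h]; simp)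
  unfold s17_L s17_R
  rw [h1, h2, ← hd k]
  exact Quot.sound (RibbonGraph.Rel.corner (d (k + 1)) (uOf z.2))

theorem s17_F_L {G : Type} (R : RibbonGraph G) (d : ℤ → G) (k : ℤ) (z : ℝ × NNReal)
    (h1 : (k : ℝ) ≤ z.1) (h2 : z.1 ≤ k + 1 / 2) : s17_F R d z = s17_L R d k z := by
  have hf : ⌊z.1⌋ = k := by
    rw [Int.floor_eq_iff]
    constructor
    · exact h1
    · linarith
  unfold s17_F
  rw [hf, if_pos (by linarith)]

theorem s17_F_R {G : Type} (R : RibbonGraph G) (d : ℤ → G)
    (hd : ∀ k, R.nu (d (k + 1)) = R.al (d k)) (k : ℤ) (z : ℝ × NNReal)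
    (h1 : (k : ℝ) + 1 / 2 ≤ z.1) (h2 : z.1 ≤ k + 1) : s17_F R d z = s17_R R d k z := by
  rcases eq_or_lt_of_le h2 with h | h
  · rw [s17_F_L R d (k + 1) z (by push_cast; linarith) (by push_cast; linarith)]
    exact s17_corner R d hd k z h
  · rcases eq_or_lt_of_le h1 with h' | h'
    · rw [s17_F_L R d k z (by linarith) (by linarith)]
      exact s17_mid R d k z h'.symm
    · have hf : ⌊z.1⌋ = k := by
        rw [Int.floor_eq_iff]
        constructor
        · linarith
        · linarith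
      unfold s17_F
      rw [hf, if_neg (by linarith)]

theorem s17_F_cont {G : Type} (R : RibbonGraph G) (d : ℤ → G)
    (hd : ∀ k, R.nu (d (k + 1)) = R.al (d k)) : Continuous (s17_F R d) := by
  let A : ℤ → Set (ℝ × NNReal) := fun k => {z | (k : ℝ) ≤ z.1 ∧ z.1 ≤ k + 1 / 2}
  let B : ℤ → Set (ℝ × NNReal) := fun k => {z | (k : ℝ) + 1 / 2 ≤ z.1 ∧ z.1 ≤ k + 1}
  have hA : ∀ k, IsClosed (A k) := fun k =>
    (isClosed_le continuous_const continuous_fst).inter (isClosed_le continuous_fst continuous_const)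
  have hB : ∀ k, IsClosed (B k) := fun k =>
    (isClosed_le continuous_const continuous_fst).inter (isClosed_le continuous_fst continuous_const)
  have hlf : LocallyFinite fun k => A k ∪ B k := by
    intro z
    refine ⟨{w | z.1 - 1 < w.1 ∧ w.1 < z.1 + 1}, ?_, ?_⟩
    · apply IsOpen.mem_nhds
      · exact (isOpen_lt continuous_const continuous_fst).inter
          (isOpen_lt continuous_fst continuous_const)
      · constructor <;> simp
    · apply (Set.finite_Icc (⌊z.1 - 2⌋) (⌈z.1 + 1⌉)).subset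
      rintro k ⟨w, hw1, hw2⟩
      have h1 : (k : ℝ) ≤ w.1 ∧ w.1 ≤ k + 1 := by
        rcases hw1 with hw1 | hw1
        · exact ⟨hw1.1, by have := hw1.2; linarith⟩
        · exact ⟨by have := hw1.1; linarith, hw1.2⟩
      have h2 := hw2.1
      have h3 := hw2.2
      constructor
      · have h4 : ((⌊z.1 - 2⌋ : ℤ) : ℝ) ≤ (k : ℝ) := by
          have := Int.floor_le (z.1 - 2)
          linarith [h1.2]
        exact_mod_cast h4
      · have h4 : (k : ℝ) ≤ ((⌈z.1 + 1⌉ : ℤ) : ℝ) := by
          have := Int.le_ceil (z.1 + 1)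
          linarith [h1.1]
        exact_mod_cast h4
  refine hlf.continuous ?_ (fun k => (hA k).union (hB k)) ?_
  · apply Set.eq_univ_of_forall
    intro z
    refine Set.mem_iUnion.2 ⟨⌊z.1⌋, ?_⟩
    have h1 := Int.floor_le z.1
    have h2 := (Int.lt_floor_add_one z.1).le
    by_cases h : z.1 ≤ (⌊z.1⌋ : ℝ) + 1 / 2
    · exact Or.inl ⟨h1, h⟩
    · exact Or.inr ⟨(not_le.1 h).le, h2⟩
  · intro k
    apply ContinuousOn.union_of_isClosed _ _ (hA k) (hB k)
    · exact (s17_L_cont R d k).continuousOn.congr fun z hz => s17_F_L R d k z hz.1 hz.2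
    · exact (s17_R_cont R d k).continuousOn.congr fun z hz => s17_F_R R d hd k z hz.1 hz.2

theorem hps_to_rib {G C : Type} (R : RibbonGraph G) (j : G ≃ C × ℤ)
    (hnu : ∀ g, R.nu g = R.al (j.symm ((j g).1, (j g).2 - 1))) :
    ∃ f : HPS j R.al → R.Surface, Continuous f ∧
      (∀ (d : G) (s : unitInterval) (v : NNReal),
        f (hpt j R.al (j d).1 (((j d).2 : ℝ) + s / 2) v) = R.pt d true s (uOf v)) ∧
      (∀ (d : G) (s : unitInterval) (v : NNReal),
        f (hpt j R.al (j d).1 (((j d).2 : ℝ) + 1 - s / 2) v) = R.pt (R.al d) false s (uOf v)) := by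
  have hd : ∀ (c : C) (k : ℤ), R.nu (j.symm (c, k + 1)) = R.al (j.symm (c, k)) := by
    intro c k
    rw [hnu]
    simp
  let g₀ : C × ℝ × NNReal → R.Surface := fun z => s17_F R (fun k => j.symm (z.1, k)) z.2
  have e1 : ∀ (d : G) (s : unitInterval) (v : NNReal),
      g₀ ((j d).1, ((j d).2 : ℝ) + s / 2, v) = R.pt d true s (uOf v) := by
    intro d s v
    have hs0 := s.2.1
    have hs1 := s.2.2
    show s17_F R (fun k => j.symm ((j d).1, k)) (((j d).2 : ℝ) + s / 2, v) = _
    rw [s17_F_L R _ (j d).2 _ (by show _ ≤ ((j d).2 : ℝ) + s / 2; linarith)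
      (by show ((j d).2 : ℝ) + s / 2 ≤ _; linarith)]
    unfold s17_L
    simp only [Prod.mk.eta, Equiv.symm_apply_apply]
    congr 1
    apply s17_pr_of
    ring
  have e2 : ∀ (d : G) (s : unitInterval) (v : NNReal),
      g₀ ((j d).1, ((j d).2 : ℝ) + 1 - s / 2, v) = R.pt (R.al d) false s (uOf v) := by
    intro d s v
    have hs0 := s.2.1
    have hs1 := s.2.2
    show s17_F R (fun k => j.symm ((j d).1, k)) (((j d).2 : ℝ) + 1 - s / 2, v) = _
    rw [s17_F_R R _ (hd (j d).1) (j d).2 _ (by show _ ≤ ((j d).2 : ℝ) + 1 - s / 2; linarith)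
      (by show ((j d).2 : ℝ) + 1 - s / 2 ≤ _; linarith)]
    unfold s17_R
    simp only [Prod.mk.eta, Equiv.symm_apply_apply]
    congr 1
    apply s17_pr_of
    ring
  have hrel : ∀ a b, HRel j R.al a b → g₀ a = g₀ b := by
    intro a b h
    cases h with
    | glue g t =>
      have ht0 := t.2.1
      have ht1 := t.2.2
      by_cases h : (t : ℝ) ≤ 1 / 2
      · have h1 := e1 g ⟨2 * t, by constructor <;> linarith⟩ 0
        have h2 := e2 (R.al g) ⟨2 * t, by constructor <;> linarith⟩ 0
        have h3 : ((j g).2 : ℝ) + (2 * (t : ℝ)) / 2 = ((j g).2 : ℝ) + t := by ring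
        have h4 : ((j (R.al g)).2 : ℝ) + 1 - (2 * (t : ℝ)) / 2
          = ((j (R.al g)).2 : ℝ) + (1 - t) := by ring
        simp only [h3] at h1
        simp only [h4] at h2
        rw [h1, h2, R.al_al, uOf_zero]
        exact Quot.sound (RibbonGraph.Rel.edge _ _)
      · have h' : 1 / 2 ≤ (t : ℝ) := (not_le.1 h).le
        have h1 := e2 g ⟨2 * (1 - t), by constructor <;> linarith⟩ 0
        have h2 := e1 (R.al g) ⟨2 * (1 - t), by constructor <;> linarith⟩ 0
        have h3 : ((j g).2 : ℝ) + 1 - (2 * (1 - (t : ℝ))) / 2 = ((j g).2 : ℝ) + t := by ring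
        have h4 : ((j (R.al g)).2 : ℝ) + (2 * (1 - (t : ℝ))) / 2
          = ((j (R.al g)).2 : ℝ) + (1 - t) := by ring
        simp only [h3] at h1
        simp only [h4] at h2
        rw [h1, h2, uOf_zero]
        exact (Quot.sound (RibbonGraph.Rel.edge _ _)).symm
  refine ⟨Quot.lift g₀ hrel, ?_, fun d s v => e1 d s v, fun d s v => e2 d s v⟩
  letI : TopologicalSpace C := ⊥
  haveI : DiscreteTopology C := ⟨rfl⟩
  apply continuous_quot_lift
  apply continuous_prod_of_discrete_left.2
  intro c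
  exact s17_F_cont R (fun k => j.symm (c, k)) (hd c)

end Pool.Agent.AllSurf
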