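import Pool.Agent.Lib.MP_7f477e_gt.S16
import Pool.Agent.Lib.MP_7f477e_gt.S17

/-!
# S18: glued half planes and ribbon surface are homeomorphic

The maps of S16 and S17 are inverse to each other: every point of `HPS` is `hpt (j d).1 ((j d).2 + s / 2) v` or `hpt (j d).1 ((j d).2 + 1 - s / 2) v` with `s` in `unitInterval` (`d = j.symm (c, ⌊x⌋)`); `R.al_al`, `uOf_vOf`, `vOf_uOf`.
-/

set_option autoImplicit false

open Set Topology

namespace Pool.Agent.AllSurf

theorem hps_rib {G C : Type} (R : RibbonGraph G) (j : G ≃ C × ℤ)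
    (hnu : ∀ g, R.nu g = R.al (j.symm ((j g).1, (j g).2 - 1))) :
    Nonempty (HPS j R.al ≃ₜ R.Surface) := by
  obtain ⟨f, hf, f1, f2⟩ := hps_to_rib R j hnu
  obtain ⟨g, hg, g1, g2⟩ := rib_to_hps R j hnu
  have hgf : ∀ x, g (f x) = x := by
    intro x
    induction x using Quot.ind with
    | mk x =>
      obtain ⟨c, x, v⟩ := x
      have h1 := Int.floor_le x
      have h2 := (Int.lt_floor_add_one x).le
      have hj : j (j.symm (c, ⌊x⌋)) = (c, ⌊x⌋) := j.apply_symm_apply _
      by_cases h : x ≤ (⌊x⌋ : ℝ) + 1 / 2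
      · have e1 := f1 (j.symm (c, ⌊x⌋)) ⟨2 * (x - ⌊x⌋), by constructor <;> linarith⟩ v
        have e2 := g1 (j.symm (c, ⌊x⌋)) ⟨2 * (x - ⌊x⌋), by constructor <;> linarith⟩ (uOf v)
        rw [hj] at e1 e2
        have e3 : (⌊x⌋ : ℝ) + (2 * (x - ⌊x⌋)) / 2 = x := by ring
        simp only [e3] at e1 e2
        rw [vOf_uOf] at e2
        show g (f (hpt j R.al c x v)) = hpt j R.al c x v
        rw [e1, e2]
      · have h' : (⌊x⌋ : ℝ) + 1 / 2 ≤ x := (not_le.1 h).le
        have e1 := f2 (j.symm (c, ⌊x⌋)) ⟨2 * (⌊x⌋ + 1 - x), by constructor <;> linarith⟩ v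
        have e2 := g2 (R.al (j.symm (c, ⌊x⌋))) ⟨2 * (⌊x⌋ + 1 - x), by constructor <;> linarith⟩
          (uOf v)
        rw [hj] at e1
        rw [R.al_al, hj] at e2
        have e3 : (⌊x⌋ : ℝ) + 1 - (2 * (⌊x⌋ + 1 - x)) / 2 = x := by ring
        simp only [e3] at e1 e2
        rw [vOf_uOf] at e2
        show g (f (hpt j R.al c x v)) = hpt j R.al c x v
        rw [e1, e2]
  have hfg : ∀ y, f (g y) = y := by
    intro y
    induction y using Quot.ind with
    | mk y =>
      obtain ⟨d, b, s, u⟩ := y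
      cases b with
      | true =>
        show f (g (R.pt d true s u)) = R.pt d true s u
        rw [g1, f1, uOf_vOf]
      | false =>
        show f (g (R.pt d false s u)) = R.pt d false s u
        rw [g2, f2, uOf_vOf, R.al_al]
  exact ⟨{ toEquiv := ⟨f, g, hgf, hfg⟩, continuous_toFun := hf, continuous_invFun := hg }⟩

end Pool.Agent.AllSurf
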