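import Pool.Agent.Lib.MP_7f477e_gt.SDefs

/-!
# S19: connectedness

`surface_conn`: `preconnectedSpace_of_forall_constant`: a continuous `f : P.Surface → Bool` is constant on every `{d} × I × I`; `(d, 1, 1)`.. relation `next`: equal for `d` and `sg d`; relation `glue`: equal for `d` and `al d`. By `P.connected` and `Subgroup.closure_induction` (the set of the permutations `g` with `F (g d) = F d` for all `d` is a subgroup) constant.
`hps_trans`: let `f : G → Prop` (or `Bool`, classical) be membership in the orbit of `d`: invariant under `al` and `nu`, hence (`hnu`) `f (j.symm ((j g).1, (j g).2 - 1)) = f g`, so `f` depends only on `(j g).1` (`Int.induction_on`): `f g = F (j g).1`; `(c, x, v) ↦ F c` is a continuous map on `HPS` (compatible with the relation as `f (al g) = f g`), so it is constant.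
-/

set_option autoImplicit false

open Set Topology

namespace Pool.Agent.AllSurf

theorem s19_orbit {D : Type} {F : D → Bool} {S : Set (Equiv.Perm D)}
    (hS : ∀ g ∈ S, ∀ d, F (g d) = F d) (g : Equiv.Perm D) (hg : g ∈ Subgroup.closure S) :
    ∀ d, F (g d) = F d := by
  induction hg using Subgroup.closure_induction with
  | mem x hx => exact hS x hx
  | one => intro d; rfl
  | mul x y _ _ hx hy =>
    intro d
    rw [Equiv.Perm.mul_apply, hx, hy]
  | inv x _ hx =>
    intro d
    have := hx (x⁻¹ d)
    rw [show x (x⁻¹ d) = d from x.apply_symm_apply d] at this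
    exact this.symm

theorem surface_conn {D : Type} (P : PolygonGluing D) : PreconnectedSpace P.Surface := by
  refine preconnectedSpace_of_forall_constant fun f hf => ?_
  letI : TopologicalSpace D := ⊥
  haveI : DiscreteTopology D := ⟨rfl⟩
  have hq : Continuous fun p : D × unitInterval × unitInterval =>
      f (Quot.mk P.Rel p : P.Surface) :=
    hf.comp (continuous_quot_mk (r := P.Rel))
  have h1 : ∀ (d : D) (s t s' t' : unitInterval),
      f (Quot.mk P.Rel (d, s, t) : P.Surface) = f (Quot.mk P.Rel (d, s', t') : P.Surface) := by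
    intro d s t s' t'
    have h2 : Continuous fun p : unitInterval × unitInterval =>
        f (Quot.mk P.Rel (d, p) : P.Surface) :=
      hq.comp (Continuous.prodMk continuous_const continuous_id)
    exact PreconnectedSpace.constant inferInstance h2 (x := (s, t)) (y := (s', t'))
  let F : D → Bool := fun d => f (Quot.mk P.Rel (d, 1, 1) : P.Surface)
  have h3 : ∀ g ∈ ({P.sg, P.al} : Set (Equiv.Perm D)), ∀ d, F (g d) = F d := by
    intro g hg d
    rcases hg with rfl | hg
    · show f (Quot.mk P.Rel (P.sg d, 1, 1) : P.Surface) = f (Quot.mk P.Rel (d, 1, 1) : P.Surface)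
      rw [h1 (P.sg d) 1 1 1 0]
      congr 1
      exact (Quot.sound (PolygonGluing.Rel.next d 1)).symm
    · rw [Set.mem_singleton_iff] at hg
      subst hg
      show f (Quot.mk P.Rel (P.al d, 1, 1) : P.Surface) = f (Quot.mk P.Rel (d, 1, 1) : P.Surface)
      rw [h1 (P.al d) 1 1 1 (unitInterval.symm 1)]
      congr 1
      exact (Quot.sound (PolygonGluing.Rel.glue d 1)).symm
  intro x y
  induction x using Quot.ind with
  | _ a =>
    induction y using Quot.ind with
    | _ b =>
      obtain ⟨d, s, t⟩ := a
      obtain ⟨e, s', t'⟩ := b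
      rw [h1 d s t 1 1, h1 e s' t' 1 1]
      obtain ⟨g, hg, hge⟩ := P.connected d e
      have h4 := s19_orbit h3 g hg d
      rw [hge] at h4
      exact h4.symm

theorem hps_trans {G C : Type} (j : G ≃ C × ℤ) (al nu : Equiv.Perm G)
    (hnu : ∀ g, nu g = al (j.symm ((j g).1, (j g).2 - 1)))
    (h : PreconnectedSpace (HPS j al)) (d e : G) : ∃ g ∈ Subgroup.closure {nu, al}, g d = e := by
  classical
  let F : G → Bool := fun x => decide (∃ g ∈ Subgroup.closure ({nu, al} : Set (Equiv.Perm G)), g d = x)
  have hmul : ∀ k ∈ Subgroup.closure ({nu, al} : Set (Equiv.Perm G)), ∀ x, F (k x) = F x := by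
    intro k hk x
    show decide _ = decide _
    congr 1
    apply propext
    constructor
    · rintro ⟨g, hg, hgx⟩
      refine ⟨k⁻¹ * g, mul_mem (inv_mem hk) hg, ?_⟩
      rw [Equiv.Perm.mul_apply, hgx]
      exact k.symm_apply_apply x
    · rintro ⟨g, hg, hgx⟩
      refine ⟨k * g, mul_mem hk hg, ?_⟩
      rw [Equiv.Perm.mul_apply, hgx]
  have hal : ∀ x, F (al x) = F x := hmul al (Subgroup.subset_closure (by simp))
  have hnu' : ∀ x, F (nu x) = F x := hmul nu (Subgroup.subset_closure (by simp))
  have hstep : ∀ (c : C) (k : ℤ), F (j.symm (c, k - 1)) = F (j.symm (c, k)) := by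
    intro c k
    have h1 := hnu' (j.symm (c, k))
    rw [hnu, Equiv.apply_symm_apply, hal] at h1
    exact h1
  have hc : ∀ (c : C) (k : ℤ), F (j.symm (c, k)) = F (j.symm (c, 0)) := by
    intro c k
    induction k using Int.induction_on with
    | zero => rfl
    | succ n ih =>
      rw [← ih, ← hstep c ((n : ℤ) + 1)]
      congr 3
      ring
    | pred n ih =>
      rw [← ih]
      exact hstep c (-(n : ℤ))
  have hF : ∀ g, F g = F (j.symm ((j g).1, 0)) := by
    intro g
    have h1 := hc (j g).1 (j g).2
    rw [Prod.mk.eta, Equiv.symm_apply_apply] at h1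
    exact h1
  letI : TopologicalSpace C := ⊥
  haveI : DiscreteTopology C := ⟨rfl⟩
  let Φ : C × ℝ × NNReal → Bool := fun p => F (j.symm (p.1, 0))
  have hΦ : Continuous Φ := by
    have : Continuous fun c : C => F (j.symm (c, 0)) := continuous_of_discreteTopology
    exact this.comp continuous_fst
  have hrel : ∀ a b, HRel j al a b → Φ a = Φ b := by
    intro a b hab
    cases hab with
    | glue g t =>
      show F (j.symm ((j g).1, 0)) = F (j.symm ((j (al g)).1, 0))
      rw [← hF, ← hF, hal]
  let Ψ : HPS j al → Bool := Quot.lift Φ hrel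
  have hΨ : Continuous Ψ := continuous_quot_lift hrel hΦ
  have h5 := PreconnectedSpace.constant h hΨ
    (x := (Quot.mk _ ((j e).1, 0, 0) : HPS j al)) (y := (Quot.mk _ ((j d).1, 0, 0) : HPS j al))
  have h6 : F e = F d := by
    rw [hF e, hF d]
    exact h5
  have h7 : F d = true := by
    show decide _ = true
    rw [decide_eq_true_iff]
    exact ⟨1, one_mem _, rfl⟩
  rw [h7] at h6
  have h8 : decide (∃ g ∈ Subgroup.closure ({nu, al} : Set (Equiv.Perm G)), g d = e) = true := h6
  rw [decide_eq_true_iff] at h8
  exact h8

end Pool.Agent.AllSurf
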