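import Pool.Agent.Lib.MP_7f477e_gt.C01
import Pool.Agent.Lib.MP_7f477e_gt.S05
import Pool.Agent.Lib.MP_7f477e_gt.S08
import Pool.Agent.Lib.MP_7f477e_gt.S15
import Pool.Agent.Lib.MP_7f477e_gt.S18
import Pool.Agent.Lib.MP_7f477e_gt.S19

/-!
# S20: every infinite triangulated surface is the surface of a ribbon graph
-/

set_option autoImplicit false

open Set Topology

namespace Pool.Agent.AllSurf

theorem S_tri {D : Type} [Infinite D] (P : PolygonGluing D)
    (tri : ∀ d, P.sg (P.sg (P.sg d)) = d) (sg_ne : ∀ d, P.sg d ≠ d) :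
    ∃ (G : Type) (R : Ribbon G), Countable G ∧ Nonempty G ∧ Nonempty (P.Surface ≃ₜ R.Surface) := by
  obtain ⟨F⟩ := placed_exists P tri sg_ne
  obtain ⟨j, hj⟩ := F.exists_j
  have hD : Countable D := countable_darts P
  let al : Equiv.Perm F.G := {
    toFun := F.alG
    invFun := F.alG
    left_inv := fun g => Subtype.ext (P.al_al g.1)
    right_inv := fun g => Subtype.ext (P.al_al g.1) }
  let sh : Equiv.Perm (F.Cl × ℤ) := {
    toFun := fun p => (p.1, p.2 - 1)
    invFun := fun p => (p.1, p.2 + 1)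
    left_inv := fun p => by simp
    right_inv := fun p => by simp }
  let nu : Equiv.Perm F.G := (j.trans (sh.trans j.symm)).trans al
  have hnu : ∀ g, nu g = al (j.symm ((j g).1, (j g).2 - 1)) := fun g => rfl
  obtain ⟨e1⟩ := F.surface_hps j hj
  have hc : PreconnectedSpace (HPS j al) := by
    have := surface_conn P
    exact e1.surjective.denseRange.preconnectedSpace e1.continuous
  have hfin : ∀ g : F.G, ∃ n : ℕ, 0 < n ∧ (nu ^ n) g = g := by
    intro g
    refine F.nu_finite nu ?_ g
    intro g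
    rw [hnu]
    show ∃ m : ℕ, P.al (j.symm ((j g).1, (j g).2 - 1)).1 = _
    have h1 := hj (j.symm ((j g).1, (j g).2 - 1))
    rw [Equiv.apply_symm_apply, hj g, Prod.mk.injEq] at h1
    refine F.prev_orbit (Subtype.property _) g.2 ?_ ?_
    · rw [hj g]; exact h1.1.symm
    · rw [hj g]
      have := h1.2
      omega
  let R : RibbonGraph F.G := {
    nu := nu
    al := al
    al_al := fun g => Subtype.ext (P.al_al g.1)
    al_ne := fun g h => P.al_ne g.1 (congrArg Subtype.val h)
    vertex_finite := hfin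
    connected := hps_trans j al nu hnu hc }
  obtain ⟨e2⟩ := hps_rib R j hnu
  have hne : Nonempty F.G := by
    obtain ⟨d⟩ := (inferInstance : Nonempty D)
    exact ⟨j.symm (F.cl d, 0)⟩
  exact ⟨F.G, R, inferInstanceAs (Countable {d : D // F.IsG d}), hne, ⟨e1.trans e2⟩⟩

/-- Every connected surface glued from infinitely many sides of polygons is the surface of a ribbon
graph. -/
theorem S_main {D : Type} [Infinite D] (P : PolygonGluing D) :
    ∃ (G : Type) (R : Ribbon G), Countable G ∧ Nonempty G ∧ Nonempty (P.Surface ≃ₜ R.Surface) := by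
  obtain ⟨Q, h3, hne, ⟨e⟩⟩ := tri_surface P
  obtain ⟨G, R, hG, hG0, ⟨e'⟩⟩ := S_tri Q h3 hne
  exact ⟨G, R, hG, hG0, ⟨e.symm.trans e'⟩⟩

end Pool.Agent.AllSurf
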