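import Pool.Agent.Lib.MP_7f477e_gt.Iface

/-!
# MP_7f477e_gt, U1: the order lemma
-/

set_option autoImplicit false

open Set Topology Filter

namespace Pool.Agent.AllSurf

/-- the clamped function: `0` left of the interval, `k` on the interval, `1` right of it -/
noncomputable def OL_K (lo hi : ℝ) (k : ℝ → ℝ) (x : ℝ) : ℝ :=
  if x ≤ lo then 0 else if hi ≤ x then 1 else k x

theorem OL_K_left {lo hi : ℝ} (k : ℝ → ℝ) {x : ℝ} (h : x ≤ lo) : OL_K lo hi k x = 0 := by
  unfold OL_K; rw [if_pos h]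

theorem OL_K_right {lo hi : ℝ} (k : ℝ → ℝ) {x : ℝ} (hlh : lo < hi) (h : hi ≤ x) :
    OL_K lo hi k x = 1 := by
  unfold OL_K; rw [if_neg (by linarith), if_pos h]

theorem OL_K_mid {lo hi : ℝ} (k : ℝ → ℝ) {x : ℝ} (h : x ∈ Ioo lo hi) :
    OL_K lo hi k x = k x := by
  unfold OL_K; rw [if_neg (by linarith [h.1]), if_neg (by linarith [h.2])]

theorem OL_k_mem {lo hi : ℝ} {k : ℝ → ℝ} (hk : k '' Ioo lo hi = Ioo 0 1) {x : ℝ}
    (h : x ∈ Ioo lo hi) : k x ∈ Ioo (0 : ℝ) 1 := by
  rw [← hk]; exact mem_image_of_mem k h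

theorem OL_K_mem {lo hi : ℝ} {k : ℝ → ℝ} (hk : k '' Ioo lo hi = Ioo 0 1) (x : ℝ) :
    OL_K lo hi k x ∈ Icc (0 : ℝ) 1 := by
  unfold OL_K
  split_ifs with h1 h2
  · exact ⟨le_refl _, zero_le_one⟩
  · exact ⟨zero_le_one, le_refl _⟩
  · have := OL_k_mem hk (x := x) ⟨not_le.1 h1, not_le.1 h2⟩
    exact ⟨this.1.le, this.2.le⟩

theorem OL_K_mono {lo hi : ℝ} {k : ℝ → ℝ} (hlh : lo < hi)
    (hm : StrictMonoOn k (Ioo lo hi)) (hk : k '' Ioo lo hi = Ioo 0 1) :
    Monotone (OL_K lo hi k) := by
  intro x y hxy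
  by_cases h1 : x ≤ lo
  · rw [OL_K_left k h1]; exact (OL_K_mem hk y).1
  · by_cases h2 : hi ≤ y
    · rw [OL_K_right k hlh h2]; exact (OL_K_mem hk x).2
    · push Not at h1 h2
      rw [OL_K_mid k ⟨h1, lt_of_le_of_lt hxy h2⟩, OL_K_mid k ⟨lt_of_lt_of_le h1 hxy, h2⟩]
      exact hm.monotoneOn ⟨h1, lt_of_le_of_lt hxy h2⟩ ⟨lt_of_lt_of_le h1 hxy, h2⟩ hxy

theorem OL_K_cont {lo hi : ℝ} {k : ℝ → ℝ} (hlh : lo < hi)
    (hm : StrictMonoOn k (Ioo lo hi)) (hk : k '' Ioo lo hi = Ioo 0 1) :
    Continuous (OL_K lo hi k) := by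
  let K' : ℝ → Icc (0 : ℝ) 1 := fun x => ⟨OL_K lo hi k x, OL_K_mem hk x⟩
  have hmono : Monotone K' := fun x y hxy => OL_K_mono hlh hm hk hxy
  have hsurj : Function.Surjective K' := by
    rintro ⟨y, hy⟩
    rcases eq_or_lt_of_le hy.1 with h0 | h0
    · refine ⟨lo, Subtype.ext ?_⟩
      show OL_K lo hi k lo = y
      rw [OL_K_left k le_rfl, h0]
    · rcases eq_or_lt_of_le hy.2 with h1 | h1
      · refine ⟨hi, Subtype.ext ?_⟩
        show OL_K lo hi k hi = y
        rw [OL_K_right k hlh le_rfl, h1]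
      · have : y ∈ k '' Ioo lo hi := by rw [hk]; exact ⟨h0, h1⟩
        obtain ⟨x, hx, rfl⟩ := this
        refine ⟨x, Subtype.ext ?_⟩
        show OL_K lo hi k x = k x
        exact OL_K_mid k hx
  have hc : Continuous K' := hmono.continuous_of_surjective hsurj
  exact continuous_subtype_val.comp hc

/-- an open set which is mapped onto the line by a strictly increasing function is an interval -/
theorem OL_ordConnected {J : Set ℝ} {g : ℝ → ℝ} (hJ : IsOpen J) (hg : StrictMonoOn g J)
    (hsurj : g '' J = univ) : J.OrdConnected := by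
  constructor
  intro x1 hx1 x2 hx2 x hx
  by_contra hxJ
  have h1 : x1 < x := lt_of_le_of_ne hx.1 (fun h => hxJ (h ▸ hx1))
  have h2 : x < x2 := lt_of_le_of_ne hx.2 (fun h => hxJ (h ▸ hx2))
  let S : Set ℝ := g '' (J ∩ Iio x)
  have hSne : S.Nonempty := ⟨g x1, x1, ⟨hx1, h1⟩, rfl⟩
  have hSb : BddAbove S := by
    refine ⟨g x2, ?_⟩
    rintro _ ⟨z, ⟨hz, hzx⟩, rfl⟩
    exact (hg hz hx2 (lt_trans hzx h2)).le
  obtain ⟨x0, hx0, hc⟩ : sSup S ∈ g '' J := by rw [hsurj]; trivial
  rcases lt_trichotomy x0 x with h | h | h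
  · -- a point of `J` between `x0` and `x`
    obtain ⟨ε, hε, hball⟩ := Metric.isOpen_iff.1 hJ x0 hx0
    have hz : x0 + min (ε / 2) ((x - x0) / 2) ∈ J := by
      apply hball
      rw [Metric.mem_ball, Real.dist_eq, add_sub_cancel_left, abs_of_pos (by
        apply lt_min <;> linarith)]
      exact lt_of_le_of_lt (min_le_left _ _) (by linarith)
    have hz1 : x0 < x0 + min (ε / 2) ((x - x0) / 2) := by
      have : 0 < min (ε / 2) ((x - x0) / 2) := by apply lt_min <;> linarith
      linarith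
    have hz2 : x0 + min (ε / 2) ((x - x0) / 2) < x := by
      have := min_le_right (ε / 2) ((x - x0) / 2)
      linarith
    have h3 := hg hx0 hz hz1
    have h4 : g (x0 + min (ε / 2) ((x - x0) / 2)) ≤ sSup S := le_csSup hSb ⟨_, ⟨hz, hz2⟩, rfl⟩
    rw [← hc] at h4
    linarith
  · exact hxJ (h ▸ hx0)
  · obtain ⟨ε, hε, hball⟩ := Metric.isOpen_iff.1 hJ x0 hx0
    have hp : 0 < min (ε / 2) ((x0 - x) / 2) := by apply lt_min <;> linarith
    have hz : x0 - min (ε / 2) ((x0 - x) / 2) ∈ J := by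
      apply hball
      rw [Metric.mem_ball, Real.dist_eq, show x0 - min (ε / 2) ((x0 - x) / 2) - x0 =
        -(min (ε / 2) ((x0 - x) / 2)) by ring, abs_neg, abs_of_pos hp]
      exact lt_of_le_of_lt (min_le_left _ _) (by linarith)
    have hz1 : x0 - min (ε / 2) ((x0 - x) / 2) < x0 := by linarith
    have hz2 : x < x0 - min (ε / 2) ((x0 - x) / 2) := by
      have := min_le_right (ε / 2) ((x0 - x) / 2)
      linarith
    have h3 := hg hz hx0 hz1
    rw [hc] at h3
    obtain ⟨_, ⟨z, ⟨hzJ, hzx⟩, rfl⟩, h4⟩ := exists_lt_of_lt_csSup hSne h3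
    have h5 := hg hzJ hz (lt_trans hzx hz2)
    linarith

section

variable {E : Type} [LinearOrder E] (C : ChordDiag E)
  (lo hi : E → ℝ) (k : E → ℝ → ℝ)

/-- the total weight of the intervals left of `x` -/
noncomputable def OL_kap (x : ℝ) : ℝ := ∑' d, OL_K (lo d) (hi d) (k d) x * C.wt d

variable {lo hi k} (hlh : ∀ d, lo d < hi d) (hord : ∀ d d', d < d' → hi d ≤ lo d')
  (hk : ∀ d, StrictMonoOn (k d) (Ioo (lo d) (hi d)) ∧ k d '' Ioo (lo d) (hi d) = Ioo 0 1)

include hk in
theorem OL_term_nonneg (d : E) (x : ℝ) : 0 ≤ OL_K (lo d) (hi d) (k d) x * C.wt d :=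
  mul_nonneg (OL_K_mem (hk d).2 x).1 (C.wt_pos d).le

include hk in
theorem OL_term_le (d : E) (x : ℝ) : OL_K (lo d) (hi d) (k d) x * C.wt d ≤ C.wt d := by
  have h1 := (OL_K_mem (hk d).2 x).2
  have h2 := C.wt_pos d
  nlinarith

include hk in
theorem OL_summable (x : ℝ) : Summable fun d => OL_K (lo d) (hi d) (k d) x * C.wt d :=
  Summable.of_nonneg_of_le (fun d => OL_term_nonneg C hk d x) (fun d => OL_term_le C hk d x)
    C.wt_summable

include hk in
theorem OL_kap_nonneg (x : ℝ) : 0 ≤ OL_kap C lo hi k x :=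
  tsum_nonneg fun d => OL_term_nonneg C hk d x

include hk in
theorem OL_kap_le (x : ℝ) : OL_kap C lo hi k x ≤ ∑' d, C.wt d :=
  (OL_summable C hk x).tsum_le_tsum (fun d => OL_term_le C hk d x) C.wt_summable

include hlh hk in
theorem OL_kap_mono : Monotone (OL_kap C lo hi k) := by
  intro x y hxy
  refine (OL_summable C hk x).tsum_le_tsum (fun d => ?_) (OL_summable C hk y)
  exact mul_le_mul_of_nonneg_right (OL_K_mono (hlh d) (hk d).1 (hk d).2 hxy) (C.wt_pos d).le

include hlh hk in
theorem OL_kap_cont : Continuous (OL_kap C lo hi k) := by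
  refine continuous_tsum (u := C.wt) (fun d => ?_) C.wt_summable (fun d x => ?_)
  · exact (OL_K_cont (hlh d) (hk d).1 (hk d).2).mul continuous_const
  · rw [Real.norm_of_nonneg (OL_term_nonneg C hk d x)]
    exact OL_term_le C hk d x

include hlh hord in
theorem OL_kap_mid {d : E} {x : ℝ} (hx : x ∈ Ioo (lo d) (hi d)) :
    OL_kap C lo hi k x = C.left d + k d x * C.wt d := by
  classical
  have h1 : ∀ e, OL_K (lo e) (hi e) (k e) x * C.wt e =
      ({e : E | e < d}.indicator C.wt e) + (if e = d then k d x * C.wt d else 0) := by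
    intro e
    rcases lt_trichotomy e d with h | h | h
    · rw [OL_K_right _ (hlh e) (by have := hord e d h; linarith [hx.1]),
        indicator_of_mem (by exact h), if_neg h.ne]
      ring
    · subst h
      rw [OL_K_mid _ hx, indicator_of_notMem (by simp), if_pos rfl]
      ring
    · rw [OL_K_left _ (by have := hord d e h; linarith [hx.2]),
        indicator_of_notMem (by simpa using h.le), if_neg h.ne']
      ring
  unfold OL_kap ChordDiag.left
  rw [tsum_congr h1, Summable.tsum_add, tsum_ite_eq]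
  · congr 1
    rw [← tsum_subtype]
    rfl
  · exact C.wt_summable.indicator _
  · exact summable_of_ne_finset_zero (s := {d}) (fun b hb => if_neg (by simpa using hb))

/-- consecutive intervals -/
theorem OL_left_le {d d' : E} (h : d < d') : C.left d + C.wt d ≤ C.left d' := by
  classical
  unfold ChordDiag.left
  have e1 : (∑' e : {e : E // e < d}, C.wt e) = ∑' e, ({e : E | e < d}.indicator C.wt e) := by
    rw [← tsum_subtype]; rfl
  have e2 : (∑' e : {e : E // e < d'}, C.wt e) = ∑' e, ({e : E | e < d'}.indicator C.wt e) := by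
    rw [← tsum_subtype]; rfl
  have e3 : C.wt d = ∑' e, (if e = d then C.wt d else 0) := by rw [tsum_ite_eq]
  have hs3 : Summable fun e : E => if e = d then C.wt d else 0 :=
    summable_of_ne_finset_zero (s := {d}) (fun b hb => if_neg (by simpa using hb))
  rw [e1, e2]
  calc (∑' e, ({e : E | e < d}.indicator C.wt e)) + C.wt d
      = (∑' e, ({e : E | e < d}.indicator C.wt e)) + ∑' e, (if e = d then C.wt d else 0) := by
        rw [← e3]
    _ = ∑' e, (({e : E | e < d}.indicator C.wt e) + if e = d then C.wt d else 0) :=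
        ((C.wt_summable.indicator _).tsum_add hs3).symm
    _ ≤ ∑' e, ({e : E | e < d'}.indicator C.wt e) := by
        refine Summable.tsum_le_tsum (fun e => ?_) ((C.wt_summable.indicator _).add hs3)
          (C.wt_summable.indicator _)
        rcases lt_trichotomy e d with h1 | h1 | h1
        · rw [indicator_of_mem (by exact h1), if_neg h1.ne, indicator_of_mem (by exact h1.trans h)]
          linarith
        · subst h1
          rw [indicator_of_notMem (by simp), if_pos rfl, indicator_of_mem (by exact h)]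
          linarith
        · rw [indicator_of_notMem (by simpa using h1.le), if_neg h1.ne']
          have := indicator_nonneg (s := {e : E | e < d'}) (f := C.wt)
            (fun e _ => (C.wt_pos e).le) e
          linarith

end

theorem orderLemma : OrderLemma := by
  intro E _ C J g lo hi k hJ hgm hgc hgs hlh hIJ hord hk
  have hJc : J.OrdConnected := OL_ordConnected hJ hgm hgs
  set κ := OL_kap C lo hi k with hκ
  have hκm : Monotone κ := OL_kap_mono C hlh hk
  have hκc : Continuous κ := OL_kap_cont C hlh hk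
  have hκ0 : ∀ x, 0 ≤ κ x := OL_kap_nonneg C hk
  have hκ1 : ∀ x, κ x ≤ ∑' d, C.wt d := OL_kap_le C hk
  have hκd : ∀ d x, x ∈ Ioo (lo d) (hi d) → κ x = C.left d + k d x * C.wt d :=
    fun d x hx => OL_kap_mid C hlh hord hx
  have hkm : ∀ d x, x ∈ Ioo (lo d) (hi d) → k d x ∈ Ioo (0 : ℝ) 1 :=
    fun d x hx => OL_k_mem (hk d).2 hx
  -- strict monotonicity in both cases
  have hs1 : ∀ y : ℝ, 0 < y → ∀ x ∈ J, ∀ x' ∈ J, x < x' → κ x + y * g x < κ x' + y * g x' := by
    intro y hy x hx x' hx' hxx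
    have h1 := hκm hxx.le
    have h2 := mul_lt_mul_of_pos_left (hgm hx hx' hxx) hy
    linarith
  have hs0 : ∀ d x d' x', x ∈ Ioo (lo d) (hi d) → x' ∈ Ioo (lo d') (hi d') → x < x' →
      κ x < κ x' := by
    intro d x d' x' hx hx' hxx
    rw [hκd d x hx, hκd d' x' hx']
    rcases lt_trichotomy d d' with h | h | h
    · have h1 := OL_left_le C h
      have h2 := hkm d x hx
      have h3 := hkm d' x' hx'
      have h4 := C.wt_pos d
      have h5 := C.wt_pos d'
      have h6 : k d x * C.wt d < C.wt d := by nlinarith [h2.2]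
      have h7 : 0 < k d' x' * C.wt d' := mul_pos h3.1 h5
      linarith
    · subst h
      have h1 := (hk d).1 hx hx' hxx
      have h4 := C.wt_pos d
      nlinarith
    · exfalso
      have h1 := hord d' d h
      linarith [hx.1, hx'.2]
  -- the common form
  have hs : ∀ p p' : {p : ℝ × ℝ // p.1 ∈ J ∧ 0 ≤ p.2 ∧ (p.2 = 0 → ∃ d, p.1 ∈ Ioo (lo d) (hi d))},
      p.1.2 = p'.1.2 → p.1.1 < p'.1.1 → κ p.1.1 + p.1.2 * g p.1.1 < κ p'.1.1 + p'.1.2 * g p'.1.1 := by
    rintro ⟨⟨x, y⟩, hx, hy, hxy⟩ ⟨⟨x', y'⟩, hx', hy', hxy'⟩ h1 h2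
    dsimp only at h1 h2 hx hy hxy hx' hy' hxy' ⊢
    subst h1
    rcases eq_or_lt_of_le hy with h | h
    · obtain ⟨d, hd⟩ := hxy h.symm
      obtain ⟨d', hd'⟩ := hxy' h.symm
      rw [← h]
      have := hs0 d x d' x' hd hd' h2
      linarith
    · exact hs1 y h x hx x' hx' h2
  let f : {p : ℝ × ℝ // p.1 ∈ J ∧ 0 ≤ p.2 ∧ (p.2 = 0 → ∃ d, p.1 ∈ Ioo (lo d) (hi d))} → C.Dom :=
    fun p => ⟨(κ p.1.1 + p.1.2 * g p.1.1, p.1.2), p.2.2.1, by
      intro h
      obtain ⟨d, hd⟩ := p.2.2.2 h
      refine ⟨d, ?_⟩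
      dsimp only at h ⊢
      have h2 := hkm d _ hd
      have h4 := C.wt_pos d
      have h6 : k d p.1.1 * C.wt d < C.wt d := by nlinarith [h2.2]
      have h7 : 0 < k d p.1.1 * C.wt d := mul_pos h2.1 h4
      rw [h, zero_mul, add_zero, hκd d _ hd]
      constructor <;> linarith⟩
  have hinj : Function.Injective f := by
    intro p p' hpp
    have h0 : (f p).1 = (f p').1 := by rw [hpp]
    have h1 : p.1.2 = p'.1.2 := (Prod.ext_iff.1 h0).2
    have h2 : κ p.1.1 + p.1.2 * g p.1.1 = κ p'.1.1 + p'.1.2 * g p'.1.1 := (Prod.ext_iff.1 h0).1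
    rcases lt_trichotomy p.1.1 p'.1.1 with h | h | h
    · exact absurd h2 (hs p p' h1 h).ne
    · exact Subtype.ext (Prod.ext h h1)
    · exact absurd h2 (hs p' p h1.symm h).ne'
  have hsurj : Function.Surjective f := by
    rintro ⟨⟨u, y⟩, hy, hyu⟩
    dsimp only at hy hyu
    rcases eq_or_lt_of_le hy with h | h
    · obtain ⟨d, hd1, hd2⟩ := hyu h.symm
      have h4 := C.wt_pos d
      have h5 : (u - C.left d) / C.wt d ∈ Ioo (0 : ℝ) 1 := by
        constructor
        · exact div_pos (by linarith) h4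
        · rw [div_lt_one h4]; linarith
      rw [← (hk d).2] at h5
      obtain ⟨x, hx, hxe⟩ := h5
      refine ⟨⟨(x, y), hIJ d hx, hy, fun _ => ⟨d, hx⟩⟩, ?_⟩
      apply Subtype.ext
      show (κ x + y * g x, y) = (u, y)
      rw [← h, zero_mul, add_zero, hκd d x hx, hxe]
      congr 1
      field_simp
      ring
    · set W := ∑' d, C.wt d with hW
      obtain ⟨x1, hx1, hg1⟩ : (u - W - 1) / y ∈ g '' J := by rw [hgs]; trivial
      obtain ⟨x2, hx2, hg2⟩ : (u + 1) / y ∈ g '' J := by rw [hgs]; trivial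
      have e1 : κ x1 + y * g x1 < u := by
        have := hκ1 x1
        rw [hg1, mul_div_cancel₀ _ h.ne']
        linarith
      have e2 : u < κ x2 + y * g x2 := by
        have := hκ0 x2
        rw [hg2, mul_div_cancel₀ _ h.ne']
        linarith
      have h12 : x1 ≤ x2 := by
        by_contra hcon
        push Not at hcon
        have := hs1 y h x2 hx2 x1 hx1 hcon
        linarith
      have hsub : Icc x1 x2 ⊆ J := hJc.out hx1 hx2
      have hcont : ContinuousOn (fun x => κ x + y * g x) (Icc x1 x2) :=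
        hκc.continuousOn.add (continuousOn_const.mul (hgc.mono hsub))
      obtain ⟨x, hx, hxe⟩ := intermediate_value_Icc h12 hcont ⟨e1.le, e2.le⟩
      refine ⟨⟨(x, y), hsub hx, hy, fun h' => absurd h' h.ne'⟩, ?_⟩
      apply Subtype.ext
      show (κ x + y * g x, y) = (u, y)
      rw [← hxe]
  have hcont : Continuous f := by
    refine Continuous.subtype_mk ?_ _
    refine Continuous.prodMk ?_ ?_
    · refine (hκc.comp (continuous_fst.comp continuous_subtype_val)).add
        ((continuous_snd.comp continuous_subtype_val).mul ?_)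
      exact hgc.comp_continuous (continuous_fst.comp continuous_subtype_val) (fun p => p.2.1)
    · exact continuous_snd.comp continuous_subtype_val
  let e := Equiv.ofBijective f ⟨hinj, hsurj⟩
  have hef : ∀ q, f (e.symm q) = q := fun q => e.apply_symm_apply q
  have he1 : ∀ q : C.Dom, κ (e.symm q).1.1 + (e.symm q).1.2 * g (e.symm q).1.1 = q.1.1 :=
    fun q => congrArg (fun r : C.Dom => r.1.1) (hef q)
  have he2 : ∀ q : C.Dom, (e.symm q).1.2 = q.1.2 :=
    fun q => congrArg (fun r : C.Dom => r.1.2) (hef q)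
  have hval : Continuous fun q : C.Dom => q.1 := continuous_subtype_val
  have hq1 : Continuous fun q : C.Dom => q.1.1 := continuous_fst.comp hval
  have hq2 : Continuous fun q : C.Dom => q.1.2 := continuous_snd.comp hval
  -- comparison with a fixed point of J, lower side
  have hlow : ∀ (a : ℝ), a ∈ J → ∀ q : C.Dom, κ a + q.1.2 * g a < q.1.1 → a < (e.symm q).1.1 := by
    intro a ha q hq
    by_contra hcon
    push Not at hcon
    have h1 := hκm hcon
    have h2 : g (e.symm q).1.1 ≤ g a := hgm.monotoneOn (e.symm q).2.1 ha hcon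
    have h3 : 0 ≤ (e.symm q).1.2 := (e.symm q).2.2.1
    have h4 := he1 q
    have h5 := mul_le_mul_of_nonneg_left h2 h3
    rw [he2 q] at h4 h5
    linarith
  have hupp : ∀ (a : ℝ), a ∈ J → ∀ q : C.Dom, q.1.1 < κ a + q.1.2 * g a → (e.symm q).1.1 < a := by
    intro a ha q hq
    by_contra hcon
    push Not at hcon
    have h1 := hκm hcon
    have h2 : g a ≤ g (e.symm q).1.1 := hgm.monotoneOn ha (e.symm q).2.1 hcon
    have h3 : 0 ≤ (e.symm q).1.2 := (e.symm q).2.2.1
    have h4 := he1 q
    have h5 := mul_le_mul_of_nonneg_left h2 h3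
    rw [he2 q] at h4 h5
    linarith
  -- near every point of the domain there are good comparison points
  have hgood : ∀ p : {p : ℝ × ℝ // p.1 ∈ J ∧ 0 ≤ p.2 ∧ (p.2 = 0 → ∃ d, p.1 ∈ Ioo (lo d) (hi d))},
      ∃ δ > 0, ∀ x : ℝ, |x - p.1.1| < δ → x ∈ J ∧ (p.1.2 = 0 → ∃ d, x ∈ Ioo (lo d) (hi d)) := by
    intro p
    rcases eq_or_lt_of_le p.2.2.1 with h | h
    · obtain ⟨d, hd⟩ := p.2.2.2 h.symm
      obtain ⟨δ, hδ, hb⟩ := Metric.isOpen_iff.1 isOpen_Ioo _ hd
      refine ⟨δ, hδ, fun x hx => ?_⟩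
      have : x ∈ Ioo (lo d) (hi d) := hb (by rw [Metric.mem_ball, Real.dist_eq]; exact hx)
      exact ⟨hIJ d this, fun _ => ⟨d, this⟩⟩
    · obtain ⟨δ, hδ, hb⟩ := Metric.isOpen_iff.1 hJ _ p.2.1
      refine ⟨δ, hδ, fun x hx => ?_⟩
      exact ⟨hb (by rw [Metric.mem_ball, Real.dist_eq]; exact hx), fun h' => absurd h' h.ne'⟩
  have hinv : Continuous e.symm := by
    refine Continuous.subtype_mk (f := fun q => (e.symm q).1) ?_ (fun q => (e.symm q).2)
    have c2 : Continuous fun q : C.Dom => (e.symm q).1.2 := by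
      have : (fun q : C.Dom => (e.symm q).1.2) = fun q => q.1.2 := funext he2
      rw [this]; exact hq2
    have c1 : Continuous fun q : C.Dom => (e.symm q).1.1 := by
      rw [continuous_iff_continuousAt]
      intro q
      obtain ⟨δ, hδ, hg⟩ := hgood (e.symm q)
      refine tendsto_order.2 ⟨fun a ha => ?_, fun a ha => ?_⟩
      · set x0 := (e.symm q).1.1 with hx0
        let a' := max ((a + x0) / 2) (x0 - δ / 2)
        have ha1 : a < a' := lt_of_lt_of_le (by linarith) (le_max_left _ _)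
        have ha2 : a' < x0 := max_lt (by linarith) (by linarith)
        have ha3 : x0 - δ / 2 ≤ a' := le_max_right _ _
        obtain ⟨haJ, had⟩ := hg a' (by rw [abs_lt]; constructor <;> linarith)
        have hlt : κ a' + q.1.2 * g a' < q.1.1 := by
          have := hs ⟨(a', (e.symm q).1.2), haJ, (e.symm q).2.2.1, had⟩ (e.symm q) rfl ha2
          rw [he1 q] at this
          dsimp only at this
          rw [he2 q] at this
          exact this
        have hev : ∀ᶠ q' : C.Dom in 𝓝 q, κ a' + q'.1.2 * g a' < q'.1.1 := by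
          have hc1 : ContinuousAt (fun q' : C.Dom => κ a' + q'.1.2 * g a') q :=
            (continuous_const.add (hq2.mul continuous_const)).continuousAt
          exact hc1.eventually_lt hq1.continuousAt hlt
        filter_upwards [hev] with q' hq'
        exact lt_trans ha1 (hlow a' haJ q' hq')
      · set x0 := (e.symm q).1.1 with hx0
        let a' := min ((a + x0) / 2) (x0 + δ / 2)
        have ha1 : a' < a := lt_of_le_of_lt (min_le_left _ _) (by linarith)
        have ha2 : x0 < a' := lt_min (by linarith) (by linarith)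
        have ha3 : a' ≤ x0 + δ / 2 := min_le_right _ _
        obtain ⟨haJ, had⟩ := hg a' (by rw [abs_lt]; constructor <;> linarith)
        have hlt : q.1.1 < κ a' + q.1.2 * g a' := by
          have := hs (e.symm q) ⟨(a', (e.symm q).1.2), haJ, (e.symm q).2.2.1, had⟩ rfl ha2
          rw [he1 q] at this
          dsimp only at this
          rw [he2 q] at this
          exact this
        have hev : ∀ᶠ q' : C.Dom in 𝓝 q, q'.1.1 < κ a' + q'.1.2 * g a' := by
          have hc1 : ContinuousAt (fun q' : C.Dom => κ a' + q'.1.2 * g a') q :=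
            (continuous_const.add (hq2.mul continuous_const)).continuousAt
          exact hq1.continuousAt.eventually_lt hc1 hlt
        filter_upwards [hev] with q' hq'
        exact lt_trans (hupp a' haJ q' hq') ha1
    exact Continuous.prodMk c1 c2
  refine ⟨{ toEquiv := e, continuous_toFun := hcont, continuous_invFun := hinv }, ?_⟩
  intro p d hp hd
  show (κ p.1.1 + p.1.2 * g p.1.1, p.1.2) = (C.left d + k d p.1.1 * C.wt d, 0)
  rw [hp, zero_mul, add_zero, hκd d _ hd]

end Pool.Agent.AllSurf
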