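import Pool.Agent.Lib.MP_7f477e_gt.TFlat3

/-! The flat star: assembly. -/

set_option autoImplicit false

open Set Topology

namespace Pool.Agent.AllSurf

theorem tkFun_edge (s : ℝ) : tkFun (s, 0) = (s, 0) := by
  unfold tkFun; simp

theorem tkFun_corner (u : ℝ) : tkFun (0, u) = (-u, 0) := by
  unfold tkFun; simp

theorem tkFun_one {u : ℝ} (h : u < 1) : tkFun (1, u) = (1, u) := by
  have : (1 - u) ≠ 0 := by linarith
  unfold tkFun
  simp [this]

theorem fan_edge (N k : ℕ) (s : ℝ) : fanF N k true (s, 0) = fanF N k false (s, 0) := by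
  unfold fanF; simp

theorem par_edge (s : ℝ) : parF true (s, 0) = parF false (s, 0) := by
  unfold parF; simp

theorem leaf_edge (s : ℝ) : leafF true (s, 0) = leafF false (s, 0) := by
  unfold leafF; simp

theorem star_edge {N k : ℕ} {root : Bool} {s : ℝ} (hs : 0 ≤ s) :
    starF N root k true (s, 0) = starF N root k false (s, 0) := by
  have hsp : ∀ e, spF N k e (s, 0) = fanF N k e (s, 0) := by
    intro e
    unfold spF
    rw [if_pos hs]
  unfold starF
  rw [tkFun_edge, hsp, hsp, fan_edge, par_edge, leaf_edge]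
  split_ifs <;> rfl

theorem star_corner {N k : ℕ} {root : Bool} (hk : Val N root k) {u : ℝ} (hu : 0 ≤ u) :
    starF N root k true (0, u) = starF N root (nxt N root k) false (0, u) := by
  rcases Nat.eq_zero_or_pos N with hN | hN
  · subst hN
    have hk0 : k = 0 := by have := hk.1; omega
    subst hk0
    have hroot : root = false := by
      cases root
      · rfl
      · exact absurd (hk.2 rfl) (by norm_num)
    subst hroot
    have h1 : nxt 0 false 0 = 0 := rfl
    rw [h1, star_zero0, star_zero0, tkFun_corner]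
    exact leaf_edge (-u)
  · have hN' : (N : ℝ) ≠ 0 := by positivity
    rcases Nat.lt_or_ge k N with hkN | hkN
    · have h1 : nxt N root k = k + 1 := by
        unfold nxt
        rw [if_pos hkN]
      rw [h1]
      rcases Nat.eq_zero_or_pos k with hk0 | hk0
      · subst hk0
        have hroot : root = false := by
          cases root
          · rfl
          · exact absurd (hk.2 rfl) (by norm_num)
        subst hroot
        rw [star_zeroN hN, star_fan (by omega) (fun h => by cases h.1)]
        unfold parF fanF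
        ext
        · simp
          ring
        · simp
      · rw [star_fan hk0, star_fan (by omega)]
        · unfold fanF
          ext
          · simp
          · simp
        · rintro ⟨_, h | h⟩
          · omega
          · exact absurd h.2 (by decide)
        · rintro ⟨_, h | h⟩
          · exact absurd h.2 (by decide)
          · omega
    · have hkN' : k = N := le_antisymm hk.1 hkN
      subst hkN'
      cases root
      · have h1 : nxt k false k = 0 := by
          unfold nxt
          rw [if_neg (by omega), if_neg (by decide)]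
        rw [h1, star_zeroN hN, star_fan hN (fun h => by cases h.1)]
        unfold parF fanF
        ext
        · simp
          field_simp
          ring
        · simp
      · have h1 : nxt k true k = 1 := by
          unfold nxt
          rw [if_neg (by omega), if_pos rfl]
        rw [h1, star_sp hN ⟨rfl, Or.inr ⟨rfl, rfl⟩⟩, star_sp le_rfl ⟨rfl, Or.inl ⟨rfl, rfl⟩⟩,
          tkFun_corner]
        rcases eq_or_lt_of_le hu with h2 | h2
        · rw [← h2]
          unfold spF
          rw [if_pos (by norm_num), if_pos (by norm_num)]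
          unfold fanF
          ext
          · simp
          · simp
        · unfold spF
          rw [if_neg (by simp only; linarith), if_neg (by simp only; linarith)]
          exact (par_edge _).symm

theorem star_lr {N : ℕ} {root : Bool} {a b : ℕ × Bool × Strip} (h : LR N root a b) :
    starF N root a.1 a.2.1 (sc2 a.2.2) = starF N root b.1 b.2.1 (sc2 b.2.2) := by
  cases h with
  | edge k hk s => exact star_edge s.2.1
  | corner k hk u => exact star_corner hk u.2.1

theorem star_eqv {N : ℕ} {root : Bool} {a b : ℕ × Bool × Strip}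
    (h : Relation.EqvGen (LR N root) a b) :
    starF N root a.1 a.2.1 (sc2 a.2.2) = starF N root b.1 b.2.1 (sc2 b.2.2) := by
  induction h with
  | rel x y h => exact star_lr h
  | refl x => rfl
  | symm x y _ ih => exact ih.symm
  | trans x y z _ _ ih1 ih2 => exact ih1.trans ih2

theorem fan_one_true {N k : ℕ} (hN : 1 ≤ N) (u : ℝ) :
    fanF N k true (1, u) = (((k : ℝ) - 1 / 2 + u / 2) / N, 0) := by
  have hN' : (N : ℝ) ≠ 0 := by positivity
  unfold fanF
  ext
  · simp
    field_simp
    ring
  · simp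

theorem fan_one_false {N k : ℕ} (hN : 1 ≤ N) (u : ℝ) :
    fanF N k false (1, u) = (((k : ℝ) - 1 / 2 - u / 2) / N, 0) := by
  have hN' : (N : ℝ) ≠ 0 := by positivity
  unfold fanF
  ext
  · simp
    field_simp
    ring
  · simp

theorem star_one {N k : ℕ} {root e : Bool} (hk : 1 ≤ k) {u : ℝ} (hu : u < 1) :
    starF N root k e (1, u) = fanF N k e (1, u) := by
  by_cases h : Spc N root k e
  · rw [star_sp hk h, tkFun_one hu]
    unfold spF
    rw [if_pos (by norm_num)]
  · rw [star_fan hk h]

theorem par_snd {e : Bool} {q : ℝ × ℝ} (hq : q ∈ HsSet) :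
    0 < (parF e q).2 ∧ ((parF e q).2 = 1 → q.1 = 1) := by
  obtain ⟨s, u⟩ := q
  obtain ⟨h0, h1, h2, h3⟩ := hq
  simp only at h0 h1 h2 h3
  have ht : (parF e (s, u)).2 = s + (1 - s) * (1 - u) / 2 := rfl
  rw [ht]
  constructor
  · nlinarith
  · intro h
    show s = 1
    have : (1 - s) * (1 + u) = 0 := by linarith
    rcases mul_eq_zero.1 this with h4 | h4 <;> linarith

theorem fan_snd {N k : ℕ} {e : Bool} {q : ℝ × ℝ} (hq : q ∈ HsSet) :
    (fanF N k e q).2 < 1 ∧ ((fanF N k e q).2 = 0 → q.1 = 1) := by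
  obtain ⟨s, u⟩ := q
  obtain ⟨h0, h1, h2, h3⟩ := hq
  simp only at h0 h1 h2 h3
  have ht : (fanF N k e (s, u)).2 = (1 - u) * (1 - s) / 2 := rfl
  rw [ht]
  constructor
  · nlinarith
  · intro h
    show s = 1
    have : (1 - u) * (1 - s) = 0 := by linarith
    rcases mul_eq_zero.1 this with h4 | h4 <;> linarith

theorem tk_fst_one {q : ℝ × ℝ} (hq : q ∈ HsSet) (h : (tkFun q).1 = 1) : q.1 = 1 := by
  obtain ⟨s, u⟩ := q
  obtain ⟨h0, h1, h2, h3⟩ := hq
  simp only at h0 h1 h2 h3
  have hd := tk_den h0 h1 h2 h3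
  have h4 : (s - u) / (1 - s * u) = 1 := h
  rw [div_eq_one_iff_eq hd.ne'] at h4
  show s = 1
  have : (1 - s) * (1 + u) = 0 := by linarith
  rcases mul_eq_zero.1 this with h5 | h5 <;> linarith

theorem star_snd {N k : ℕ} {root e : Bool} (hv : Val N root k) {q : ℝ × ℝ} (hq : q ∈ HsSet) :
    ((starF N root k e q).2 = 0 → 1 ≤ k ∧ q.1 = 1) ∧
    ((starF N root k e q).2 = 1 → k = 0 ∧ q.1 = 1) := by
  rcases Nat.eq_zero_or_pos N with hN | hN
  · subst hN
    have hk0 : k = 0 := by have := hv.1; omega
    subst hk0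
    rw [star_zero0]
    have hm := tkFun_mem hq
    have ht : (leafF e (tkFun q)).2 = (1 + (tkFun q).1) / 2 := rfl
    rw [ht]
    constructor
    · intro h
      have := hm.1
      linarith
    · intro h
      exact ⟨rfl, tk_fst_one hq (by linarith)⟩
  · rcases star_desc (e := e) hN hv hq with ⟨a1, a2, a3⟩ | ⟨a1, q1, a2, a3, a4⟩ |
      ⟨a1, a2, q1, a3, a4, a5, a6⟩
    · rw [a3]
      have h1 := par_snd (e := e) hq
      exact ⟨fun h => by linarith [h1.1], fun h => ⟨a1, h1.2 h⟩⟩
    · rw [a3]
      have h1 := fan_snd (N := N) (k := k) (e := e) a2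
      refine ⟨fun h => ⟨a1, ?_⟩, fun h => by linarith [h1.1]⟩
      have h2 := h1.2 h
      rcases a4 with ⟨_, h3⟩ | ⟨_, h3⟩
      · rw [h3, h2]
      · exact tk_fst_one hq (by rw [h3, h2])
    · rw [a6]
      have h1 := par_snd (e := !e) a3
      refine ⟨fun h => by linarith [h1.1], fun h => ?_⟩
      have h2 := h1.2 h
      have h3 := (tkFun_mem hq).1
      rw [a5] at h3
      simp only at h3
      linarith

/-! ### heights -/

theorem tstar_tri_nonneg (w : ℝ) : 0 ≤ tri w := abs_nonneg _

theorem tri_le (w : ℝ) (m : ℤ) : tri w ≤ |w - m| := round_le w m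

theorem tri_zero : tri 0 = 0 := by unfold tri; simp

theorem fan_hh {N k : ℕ} {e : Bool} (hk : 1 ≤ k) (hkN : k ≤ N) {q : ℝ × ℝ} (hq : q ∈ HsSet) :
    hh N (fanF N k e q) ≤ (1 - q.2) / 2 := by
  obtain ⟨s, u⟩ := q
  obtain ⟨h0, h1, h2, h3⟩ := hq
  simp only at h0 h1 h2 h3
  have hN : 1 ≤ N := hk.trans hkN
  have hk' : (1 : ℝ) ≤ k := by exact_mod_cast hk
  have hkN' : (k : ℝ) ≤ N := by exact_mod_cast hkN
  have hN' : (1 : ℝ) ≤ N := by exact_mod_cast hN
  have hN0 : (0 : ℝ) < N := by linarith
  have ht : (fanF N k e (s, u)).2 = (1 - u) * (1 - s) / 2 := rfl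
  have ht0 : 0 ≤ (1 - u) * (1 - s) := mul_nonneg (by linarith) (by linarith)
  have ht1 : (1 - u) * (1 - s) ≤ 1 - u := by nlinarith
  have htri : tri (N * (fanF N k e (s, u)).1) ≤ (1 - u) * (N / 2) := by
    cases e
    · refine (tri_le _ ((k : ℤ) - 1)).trans ?_
      have h4 : N * (fanF N k false (s, u)).1 - (((k : ℤ) - 1 : ℤ) : ℝ) =
          (1 - u) * ((1 - s) * (N / 2 - (k - 1)) + s * (1 / 2)) := by
        unfold fanF
        simp only [Bool.false_eq_true, if_false]
        push_cast
        field_simp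
        ring
      rw [h4, abs_mul, abs_of_nonneg (show 0 ≤ 1 - u by linarith)]
      apply mul_le_mul_of_nonneg_left _ (by linarith)
      rw [abs_le]
      constructor
      · nlinarith
      · nlinarith
    · refine (tri_le _ (k : ℤ)).trans ?_
      have h4 : N * (fanF N k true (s, u)).1 - ((k : ℤ) : ℝ) =
          (1 - u) * ((1 - s) * (N / 2 - k) + s * (-(1 / 2))) := by
        unfold fanF
        simp only [if_true]
        push_cast
        field_simp
        ring
      rw [h4, abs_mul, abs_of_nonneg (show 0 ≤ 1 - u by linarith)]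
      apply mul_le_mul_of_nonneg_left _ (by linarith)
      rw [abs_le]
      constructor
      · nlinarith
      · nlinarith
  have htri0 := tstar_tri_nonneg (N * (fanF N k e (s, u)).1)
  have h5 : tri (N * (fanF N k e (s, u)).1) / (2 * N) ≤ (1 - u) / 4 := by
    rw [div_le_iff₀ (by positivity)]
    linarith
  have h6 : 0 ≤ tri (N * (fanF N k e (s, u)).1) / (2 * N) := by positivity
  have h7 : min (fanF N k e (s, u)).1 (1 - (fanF N k e (s, u)).1) ≤ 1 / 2 := by
    rcases le_total (fanF N k e (s, u)).1 (1 / 2) with h | h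
    · exact (min_le_left _ _).trans h
    · exact (min_le_right _ _).trans (by linarith)
  unfold hh
  rw [ht]
  show (1 - (1 - u) * (1 - s) / 2) * (tri (N * (fanF N k e (s, u)).1) / (2 * N)) +
    (1 - u) * (1 - s) / 2 * min (fanF N k e (s, u)).1 (1 - (fanF N k e (s, u)).1) ≤ (1 - u) / 2
  have h8 : (1 - (1 - u) * (1 - s) / 2) * (tri (N * (fanF N k e (s, u)).1) / (2 * N)) ≤
      1 * ((1 - u) / 4) :=
    mul_le_mul (by linarith) h5 h6 (by norm_num)
  have h9 : (1 - u) * (1 - s) / 2 * min (fanF N k e (s, u)).1 (1 - (fanF N k e (s, u)).1) ≤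
      (1 - u) * (1 - s) / 2 * (1 / 2) :=
    mul_le_mul_of_nonneg_left h7 (by linarith)
  linarith

theorem par_min {e : Bool} {s u : ℝ} (h2 : 0 ≤ u) :
    min (parF e (s, u)).1 (1 - (parF e (s, u)).1) = (1 - u) / 2 := by
  unfold parF
  cases e
  · simp only [Bool.false_eq_true, if_false]
    rw [min_eq_right (by linarith)]
    ring
  · simp only [if_true]
    rw [min_eq_left (by linarith)]

theorem par_tri {N : ℕ} {e : Bool} {s u : ℝ} (h3 : u < 1) :
    tri (N * (parF e (s, u)).1) / (2 * N) ≤ (1 - u) / 4 := by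
  rcases Nat.eq_zero_or_pos N with hN | hN
  · subst hN
    simp
    linarith
  · have hN0 : (0 : ℝ) < N := by exact_mod_cast hN
    rw [div_le_iff₀ (by positivity)]
    cases e
    · refine (tri_le _ (N : ℤ)).trans ?_
      have h4 : N * (parF false (s, u)).1 - ((N : ℤ) : ℝ) = -(N * ((1 - u) / 2)) := by
        unfold parF
        simp only [Bool.false_eq_true, if_false]
        push_cast
        ring
      have h5 : 0 ≤ N * ((1 - u) / 2) := mul_nonneg hN0.le (by linarith)
      rw [h4, abs_neg, abs_of_nonneg h5]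
      linarith
    · refine (tri_le _ 0).trans ?_
      have h4 : N * (parF true (s, u)).1 - ((0 : ℤ) : ℝ) = N * ((1 - u) / 2) := by
        unfold parF
        simp
      have h5 : 0 ≤ N * ((1 - u) / 2) := mul_nonneg hN0.le (by linarith)
      rw [h4, abs_of_nonneg h5]
      linarith

theorem par_hh {N : ℕ} {e : Bool} {q : ℝ × ℝ} (hq : q ∈ HsSet) :
    hh N (parF e q) ≤ (1 - q.2) / 2 := by
  obtain ⟨s, u⟩ := q
  obtain ⟨h0, h1, h2, h3⟩ := hq
  simp only at h0 h1 h2 h3
  have ht : (parF e (s, u)).2 = s + (1 - s) * (1 - u) / 2 := rfl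
  have h4 := par_min (e := e) (s := s) h2
  have h5 := par_tri (N := N) (e := e) (s := s) h3
  unfold hh
  rw [ht, h4]
  show (1 - (s + (1 - s) * (1 - u) / 2)) * (tri (N * (parF e (s, u)).1) / (2 * N)) +
    (s + (1 - s) * (1 - u) / 2) * ((1 - u) / 2) ≤ (1 - u) / 2
  have h6 : s + (1 - s) * (1 - u) / 2 ≤ 1 := by nlinarith
  have h7 := mul_le_mul_of_nonneg_left h5
    (show 0 ≤ 1 - (s + (1 - s) * (1 - u) / 2) by linarith)
  nlinarith

/-- upper part of a special piece of the root: distance to the roof -/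
theorem par_roof {N : ℕ} {e : Bool} {s u : ℝ} (h0 : 0 ≤ s) (h1 : s ≤ 1) (h2 : 0 ≤ u) (h3 : u < 1) :
    min (parF e (s, u)).1 (1 - (parF e (s, u)).1) - hh N (parF e (s, u)) ≤
      (1 - s) * (1 - u) / 2 := by
  have ht : (parF e (s, u)).2 = s + (1 - s) * (1 - u) / 2 := rfl
  have h4 := par_min (e := e) (s := s) h2
  have h6 : 0 ≤ tri (N * (parF e (s, u)).1) / (2 * N) :=
    div_nonneg (tstar_tri_nonneg _) (by positivity)
  unfold hh
  rw [ht, h4]
  show (1 - u) / 2 - ((1 - (s + (1 - s) * (1 - u) / 2)) * (tri (N * (parF e (s, u)).1) / (2 * N)) +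
    (s + (1 - s) * (1 - u) / 2) * ((1 - u) / 2)) ≤ (1 - s) * (1 - u) / 2
  have h7 : 0 ≤ 1 - (s + (1 - s) * (1 - u) / 2) := by nlinarith
  have h8 := mul_nonneg h7 h6
  have h9 : (1 - u) / 2 - (s + (1 - s) * (1 - u) / 2) * ((1 - u) / 2) =
      (1 - s) * (1 + u) * (1 - u) / 4 := by ring
  have h10 : (1 - s) * (1 + u) * (1 - u) / 4 ≤ (1 - s) * (1 - u) / 2 := by
    have : 0 ≤ (1 - s) * (1 - u) := mul_nonneg (by linarith) (by linarith)
    nlinarith
  linarith

theorem leaf_hh {e : Bool} {q : ℝ × ℝ} (hq : q ∈ HsSet) :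
    hh 0 (leafF e (tkFun q)) ≤ (1 - q.2) / 2 := by
  obtain ⟨s, u⟩ := q
  obtain ⟨h0, h1, h2, h3⟩ := hq
  simp only at h0 h1 h2 h3
  have hd := tk_den h0 h1 h2 h3
  have hsu : 0 ≤ s * u := mul_nonneg h0 h2
  have hmin : min (leafF e (tkFun (s, u))).1 (1 - (leafF e (tkFun (s, u))).1) =
      (1 - s * u) / 2 := by
    unfold leafF tkFun
    cases e
    · simp only [Bool.false_eq_true, if_false]
      rw [min_eq_right (by linarith)]
      ring
    · simp only [if_true]
      rw [min_eq_left (by linarith)]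
  unfold hh
  rw [hmin]
  have ht : (leafF e (tkFun (s, u))).2 = (1 + (s - u) / (1 - s * u)) / 2 := rfl
  rw [ht]
  have h4 : (1 + (s - u) / (1 - s * u)) / 2 * ((1 - s * u) / 2) = (1 + s) * (1 - u) / 4 := by
    field_simp
    ring
  rw [h4]
  simp
  nlinarith

theorem star_low {N k : ℕ} {e : Bool} (hk : k ≤ N) {q : ℝ × ℝ} (hq : q ∈ HsSet) :
    hh N (starF N false k e q) ≤ 2 * (1 - q.2) := by
  have h3 : q.2 < 1 := hq.2.2.2
  rcases Nat.eq_zero_or_pos k with hk0 | hk0
  · subst hk0
    rcases Nat.eq_zero_or_pos N with hN | hN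
    · subst hN
      rw [star_zero0]
      have := leaf_hh (e := e) hq
      linarith
    · rw [star_zeroN hN]
      have := par_hh (N := N) (e := e) hq
      linarith
  · rw [star_fan hk0 (fun h => by cases h.1)]
    have := fan_hh (e := e) hk0 hk hq
    linarith

theorem star_low_root {N k : ℕ} {e : Bool} (hk : k ≤ N) (hk1 : 1 ≤ k) {q : ℝ × ℝ}
    (hq : q ∈ HsSet) :
    min (hh N (starF N true k e q))
      (min (starF N true k e q).1 (1 - (starF N true k e q).1) - hh N (starF N true k e q)) ≤
        2 * (1 - q.2) := by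
  have hN : 1 ≤ N := hk1.trans hk
  have hv : Val N true k := ⟨hk, fun _ => hk1⟩
  rcases star_desc (e := e) hN hv hq with ⟨a1, a2, a3⟩ | ⟨a1, q1, a2, a3, a4⟩ |
      ⟨a1, a2, q1, a3, a4, a5, a6⟩
  · omega
  · rw [a3]
    refine (min_le_left _ _).trans ((fan_hh (e := e) hk1 hk a2).trans ?_)
    rcases a4 with ⟨_, h⟩ | ⟨_, h⟩
    · rw [h]
      have := a2.2.2.2
      linarith
    · -- 1 - s u ≤ 2 (1 - u) because u ≤ s
      obtain ⟨s, u⟩ := q
      obtain ⟨h0, h1, h2, h3⟩ := hq
      simp only at h0 h1 h2 h3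
      have hd := tk_den h0 h1 h2 h3
      have h4 : 0 ≤ (s - u) / (1 - s * u) := by
        have := a2.1
        rw [← h] at this
        exact this
      have h5 : 0 ≤ s - u := by
        have := mul_nonneg h4 hd.le
        rwa [div_mul_cancel₀ _ hd.ne'] at this
      have h6 : q1.2 = s * u := by rw [← h]; rfl
      rw [h6]
      show (1 - s * u) / 2 ≤ 2 * (1 - u)
      nlinarith
  · rw [a6]
    refine (min_le_right _ _).trans ?_
    have h7 := par_roof (N := N) (e := !e) a3.1 a3.2.1 a3.2.2.1 a3.2.2.2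
    refine h7.trans ?_
    obtain ⟨s, u⟩ := q
    obtain ⟨h0, h1, h2, h3⟩ := hq
    simp only at h0 h1 h2 h3
    have hd := tk_den h0 h1 h2 h3
    have h8 : (s - u) / (1 - s * u) = -q1.1 := congrArg Prod.fst a5
    have h9 : s * u = q1.2 := congrArg Prod.snd a5
    have h10 : (1 - q1.1) * (1 - q1.2) = (1 + s) * (1 - u) := by
      have : 1 - q1.1 = 1 + (s - u) / (1 - s * u) := by rw [h8]; ring
      rw [this, ← h9]
      field_simp
      ring
    rw [h10]
    show (1 + s) * (1 - u) / 2 ≤ 2 * (1 - u)
    nlinarith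

/-- the flat star exists -/
theorem exists_star : ∃ star, IsStar star := by
  refine ⟨fun N root k e p => starF N root k e (sc2 p), ?_⟩
  constructor
  · intro N root k e p hv
    exact star_mem hv (sc2_mem p)
  · intro N root k e hv
    exact star_cont hv
  · intro N root z hr hz
    obtain ⟨k, e, hv, q, hq, h⟩ := star_surj N root z hr hz
    obtain ⟨p, hp⟩ := sc2_surj hq
    exact ⟨k, e, p, hv, by rw [hp]; exact h⟩
  · intro N root k e p k' e' p' hv hv'
    exact ⟨star_ker_mp hv hv', fun h => star_eqv h⟩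
  · intro N root k u hk hkN
    show starF N root k true (1, u.1) = _
    rw [star_one hk u.2.2, fan_one_true (hk.trans hkN)]
  · intro N root k u hk hkN
    show starF N root k false (1, u.1) = _
    rw [star_one hk u.2.2, fan_one_false (hk.trans hkN)]
  · intro N u
    show starF N false 0 true (1, u.1) = _
    rcases Nat.eq_zero_or_pos N with hN | hN
    · subst hN
      rw [star_zero0, tkFun_one u.2.2]
      unfold leafF
      ext
      · simp
      · simp
    · rw [star_zeroN hN]
      unfold parF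
      ext
      · simp
      · simp
  · intro N u
    show starF N false 0 false (1, u.1) = _
    rcases Nat.eq_zero_or_pos N with hN | hN
    · subst hN
      rw [star_zero0, tkFun_one u.2.2]
      unfold leafF
      ext
      · simp
      · simp
    · rw [star_zeroN hN]
      unfold parF
      ext
      · simp
      · simp
  · intro N root k e p hv h
    obtain ⟨h1, h2⟩ := (star_snd (e := e) hv (sc2_mem p)).1 h
    exact ⟨h1, Subtype.ext h2⟩
  · intro N root k e p hv h
    obtain ⟨h1, h2⟩ := (star_snd (e := e) hv (sc2_mem p)).2 h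
    exact ⟨h1, Subtype.ext h2⟩
  · intro N k e p hk
    exact star_low hk (sc2_mem p)
  · intro N k e p hk hk1
    exact star_low_root hk hk1 (sc2_mem p)

end Pool.Agent.AllSurf
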