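import Pool.Agent.Lib.MP_7f477e_gt.T12
import Pool.Agent.Lib.MP_7f477e_gt.TStar
import Pool.Agent.Lib.MP_7f477e_gt.OL

/-!
# Part T complete: every ribbon surface is the surface of a chord diagram
-/

set_option autoImplicit false

namespace Pool.Agent.AllSurf

theorem ribStmt : RibStmt := by
  obtain ⟨star, hs⟩ := exists_star
  exact rib_of_star star hs orderLemma

end Pool.Agent.AllSurf
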