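import Pool.Agent.Lib.MP_7f477e_gt.A02
import Pool.Agent.Lib.MP_7f477e_gt.G11
import Pool.Agent.Lib.MP_7f477e_gt.Q01
import Pool.Agent.Lib.MP_7f477e_gt.E07
import Pool.Agent.Lib.MP_7f477e_gt.R07
import Pool.Agent.Lib.MP_7f477e_gt.TEnd
import Pool.Agent.Lib.MP_7f477e_gt.H12
import Pool.Agent.Lib.MP_7f477e_gt.S20

/-!
# MP_7f477e_gt, A03: the final theorem
-/

set_option autoImplicit false

namespace Pool.Agent.AllSurf

theorem nonempty_lineAction : Nonempty LineAction := by
  obtain ⟨O⟩ := exists_orbitData
  obtain ⟨I⟩ := nonempty_intervalAction O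
  exact ⟨I.lineAction⟩

theorem polyStmt : PolyStmt := fun _ P hD => @S_main _ hD P

/-- There are a closed 3-manifold and a minimal foliation of it by complete hyperbolic surfaces in
which every connected noncompact surface glued from oriented polygons is a leaf. -/
theorem mainStmt : MainStmt := by
  obtain ⟨P⟩ := Geo.nonempty_planeAction
  obtain ⟨R⟩ := nonempty_lineAction
  exact assembly polyStmt ribStmt halfStmt P R

end Pool.Agent.AllSurf
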