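import Pool.Agent.Lib.MP_7f477e_gt.Stmt

/-!
# C01: polygon gluings reduce to triangle gluings

For a polygon gluing `P` on `D` the polygons are cut into triangles by the segments from the centre
to the vertices. The result is a gluing `P.tri` of triangles on `D × Fin 3`, and the surfaces are
homeomorphic (`tri_surface`).
-/

set_option autoImplicit false

open Set Topology

namespace Pool.Agent.AllSurf

namespace C01

noncomputable section

/-- the closed triangle -/
def Tri : Type := {p : ℝ × ℝ // 0 ≤ p.1 ∧ 0 ≤ p.2 ∧ p.1 + p.2 ≤ 1}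

instance : TopologicalSpace Tri := inferInstanceAs (TopologicalSpace {_p : ℝ × ℝ // _})
instance : T2Space Tri := inferInstanceAs (T2Space {_p : ℝ × ℝ // _})

/-- the retraction of the plane to the triangle -/
def ret (p : ℝ × ℝ) : Tri :=
  ⟨(min 1 (max p.1 0), min (1 - min 1 (max p.1 0)) (max p.2 0)), by
    have h1 : 0 ≤ min 1 (max p.1 0) := le_min zero_le_one (le_max_right _ _)
    have h2 : min 1 (max p.1 0) ≤ 1 := min_le_left _ _
    refine ⟨h1, le_min (by linarith) (le_max_right _ _), ?_⟩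
    have := min_le_left (1 - min 1 (max p.1 0)) (max p.2 0)
    show min 1 (max p.1 0) + min (1 - min 1 (max p.1 0)) (max p.2 0) ≤ 1
    linarith⟩

theorem continuous_ret : Continuous ret := by
  unfold ret
  refine Continuous.subtype_mk ?_ _
  fun_prop

theorem ret_of_mem {a b : ℝ} (ha : 0 ≤ a) (hb : 0 ≤ b) (hab : a + b ≤ 1) :
    (ret (a, b)).1 = (a, b) := by
  show (min 1 (max a 0), min (1 - min 1 (max a 0)) (max b 0)) = (a, b)
  rw [max_eq_left ha, max_eq_left hb, min_eq_right (by linarith : a ≤ 1),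
    min_eq_right (by linarith : b ≤ 1 - a)]

/-- polar coordinates on the triangle -/
def cone (x : unitInterval × unitInterval) : Tri :=
  ⟨((x.1 : ℝ) * (1 - x.2), (x.1 : ℝ) * x.2), by
    have h1 := x.1.2.1
    have h2 := x.1.2.2
    have h3 := x.2.2.1
    have h4 := x.2.2.2
    refine ⟨mul_nonneg h1 (by linarith), mul_nonneg h1 h3, ?_⟩
    show (x.1 : ℝ) * (1 - x.2) + (x.1 : ℝ) * x.2 ≤ 1
    nlinarith⟩

theorem continuous_cone : Continuous cone := by
  unfold cone
  refine Continuous.subtype_mk ?_ _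
  fun_prop

/-- first polar coordinate -/
def pS (p : Tri) : unitInterval :=
  ⟨p.1.1 + p.1.2, add_nonneg p.2.1 p.2.2.1, p.2.2.2⟩

/-- second polar coordinate -/
def pT (p : Tri) : unitInterval :=
  ⟨p.1.2 / (p.1.1 + p.1.2), div_nonneg p.2.2.1 (add_nonneg p.2.1 p.2.2.1), by
    have h := p.2
    exact div_le_one_of_le₀ (by linarith [h.1]) (add_nonneg h.1 h.2.1)⟩

theorem cone_polar (p : Tri) : cone (pS p, pT p) = p := by
  apply Subtype.ext
  have h := p.2
  show ((p.1.1 + p.1.2) * (1 - p.1.2 / (p.1.1 + p.1.2)),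
    (p.1.1 + p.1.2) * (p.1.2 / (p.1.1 + p.1.2))) = p.1
  by_cases h0 : p.1.1 + p.1.2 = 0
  · have h1 : p.1.1 = 0 := by linarith [h.1, h.2.1]
    have h2 : p.1.2 = 0 := by linarith [h.1, h.2.1]
    ext
    · simp [h1, h2]
    · simp [h1, h2]
  · ext
    · show (p.1.1 + p.1.2) * (1 - p.1.2 / (p.1.1 + p.1.2)) = p.1.1
      field_simp
      ring
    · show (p.1.1 + p.1.2) * (p.1.2 / (p.1.1 + p.1.2)) = p.1.2
      field_simp

theorem isQuotientMap_cone : IsQuotientMap cone := by
  refine IsClosedMap.isQuotientMap ?_ continuous_cone ?_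
  · exact continuous_cone.isClosedMap
  · exact fun p => ⟨_, cone_polar p⟩

variable {D : Type} (P : PolygonGluing D)

/-- the class of a point -/
def cl (d : D) (s t : unitInterval) : P.Surface := Quot.mk _ (d, s, t)

theorem continuous_cl (d : D) :
    Continuous fun x : unitInterval × unitInterval => cl P d x.1 x.2 := by
  letI : TopologicalSpace D := ⊥
  haveI : DiscreteTopology D := ⟨rfl⟩
  exact continuous_quot_mk.comp (continuous_const.prodMk continuous_id)

theorem cl_centre (d : D) (t t' : unitInterval) : cl P d 0 t = cl P d 0 t' :=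
  Quot.sound (PolygonGluing.Rel.centre d t t')

theorem cl_next (d : D) (s : unitInterval) : cl P d s 1 = cl P (P.sg d) s 0 :=
  Quot.sound (PolygonGluing.Rel.next d s)

theorem cl_glue (d : D) (t : unitInterval) :
    cl P d 1 t = cl P (P.al d) 1 (unitInterval.symm t) :=
  Quot.sound (PolygonGluing.Rel.glue d t)

/-- the triangle at the side `d` -/
def kap0 (d : D) (p : Tri) : P.Surface := cl P d (pS p) (pT p)

theorem kap0_cone (d : D) (s t : unitInterval) : kap0 P d (cone (s, t)) = cl P d s t := by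
  have hs : pS (cone (s, t)) = s := by
    apply Subtype.ext
    show (s : ℝ) * (1 - t) + s * t = s
    ring
  by_cases h0 : (s : ℝ) = 0
  · have h1 : s = 0 := Subtype.ext h0
    unfold kap0
    rw [hs, h1]
    exact cl_centre P d _ _
  · have ht : pT (cone (s, t)) = t := by
      apply Subtype.ext
      show (s : ℝ) * t / ((s : ℝ) * (1 - t) + s * t) = t
      rw [show (s : ℝ) * (1 - t) + s * t = s by ring]
      field_simp
    unfold kap0
    rw [hs, ht]

theorem continuous_kap0 (d : D) : Continuous (kap0 P d) := by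
  rw [isQuotientMap_cone.continuous_iff]
  have h : kap0 P d ∘ cone = fun x => cl P d x.1 x.2 := by
    funext x
    exact kap0_cone P d x.1 x.2
  rw [h]
  exact continuous_cl P d

/-- the triangle at the side `d`, in affine coordinates, extended to the plane -/
def kap (d : D) (p : ℝ × ℝ) : P.Surface := kap0 P d (ret p)

theorem continuous_kap (d : D) : Continuous (kap P d) :=
  (continuous_kap0 P d).comp continuous_ret

theorem kap_cone (d : D) (s t : unitInterval) :
    kap P d ((s : ℝ) * (1 - t), (s : ℝ) * t) = cl P d s t := by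
  rw [← kap0_cone P d s t]
  unfold kap
  congr 1
  apply Subtype.ext
  have h := (cone (s, t)).2
  exact ret_of_mem h.1 h.2.1 h.2.2

theorem exists_cone {a b : ℝ} (ha : 0 ≤ a) (hb : 0 ≤ b) (hab : a + b ≤ 1) :
    ∃ s t : unitInterval, a = (s : ℝ) * (1 - t) ∧ b = (s : ℝ) * t := by
  have h := cone_polar (⟨(a, b), ha, hb, hab⟩ : Tri)
  have h2 := congrArg Subtype.val h
  refine ⟨pS ⟨(a, b), ha, hb, hab⟩, pT ⟨(a, b), ha, hb, hab⟩, ?_, ?_⟩
  · exact (congrArg Prod.fst h2).symm
  · exact (congrArg Prod.snd h2).symm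

theorem kap_next (d : D) {s : ℝ} (h0 : 0 ≤ s) (h1 : s ≤ 1) :
    kap P d (0, s) = kap P (P.sg d) (s, 0) := by
  have e1 := kap_cone P d ⟨s, h0, h1⟩ 1
  have e2 := kap_cone P (P.sg d) ⟨s, h0, h1⟩ 0
  have e3 := cl_next P d ⟨s, h0, h1⟩
  simp only [Set.Icc.coe_one, Set.Icc.coe_zero, sub_self, mul_zero, mul_one,
    sub_zero] at e1 e2
  rw [e1, e3, e2]

theorem kap_glue (d : D) {t : ℝ} (h0 : 0 ≤ t) (h1 : t ≤ 1) :
    kap P d (1 - t, t) = kap P (P.al d) (t, 1 - t) := by
  have e1 := kap_cone P d 1 ⟨t, h0, h1⟩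
  have e2 := kap_cone P (P.al d) 1 (unitInterval.symm ⟨t, h0, h1⟩)
  have e3 := cl_glue P d ⟨t, h0, h1⟩
  simp only [Set.Icc.coe_one, unitInterval.coe_symm_eq, one_mul, sub_sub_cancel] at e1 e2
  rw [e1, e3, e2]

/-- maps out of the surface -/
def lift {Y : Type} (F : D → ℝ × ℝ → Y)
    (hn : ∀ d s, 0 ≤ s → s ≤ 1 → F d (0, s) = F (P.sg d) (s, 0))
    (hg : ∀ d t, 0 ≤ t → t ≤ 1 → F d (1 - t, t) = F (P.al d) (t, 1 - t)) : P.Surface → Y :=
  Quot.lift (fun x => F x.1 ((x.2.1 : ℝ) * (1 - x.2.2), (x.2.1 : ℝ) * x.2.2)) (by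
    rintro _ _ (⟨d, t, t'⟩ | ⟨d, s⟩ | ⟨d, t⟩)
    · simp
    · have := hn d s s.2.1 s.2.2
      simpa using this
    · have := hg d t t.2.1 t.2.2
      simpa using this)

theorem lift_cl {Y : Type} (F : D → ℝ × ℝ → Y)
    (hn : ∀ d s, 0 ≤ s → s ≤ 1 → F d (0, s) = F (P.sg d) (s, 0))
    (hg : ∀ d t, 0 ≤ t → t ≤ 1 → F d (1 - t, t) = F (P.al d) (t, 1 - t))
    (d : D) (s t : unitInterval) :
    lift P F hn hg (cl P d s t) = F d ((s : ℝ) * (1 - t), (s : ℝ) * t) := rfl

theorem lift_kap {Y : Type} (F : D → ℝ × ℝ → Y)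
    (hn : ∀ d s, 0 ≤ s → s ≤ 1 → F d (0, s) = F (P.sg d) (s, 0))
    (hg : ∀ d t, 0 ≤ t → t ≤ 1 → F d (1 - t, t) = F (P.al d) (t, 1 - t))
    (d : D) {a b : ℝ} (ha : 0 ≤ a) (hb : 0 ≤ b) (hab : a + b ≤ 1) :
    lift P F hn hg (kap P d (a, b)) = F d (a, b) := by
  obtain ⟨s, t, rfl, rfl⟩ := exists_cone ha hb hab
  rw [kap_cone, lift_cl]

theorem continuous_lift {Y : Type} [TopologicalSpace Y] (F : D → ℝ × ℝ → Y)
    (hc : ∀ d, Continuous (F d))
    (hn : ∀ d s, 0 ≤ s → s ≤ 1 → F d (0, s) = F (P.sg d) (s, 0))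
    (hg : ∀ d t, 0 ≤ t → t ≤ 1 → F d (1 - t, t) = F (P.al d) (t, 1 - t)) :
    Continuous (lift P F hn hg) := by
  letI : TopologicalSpace D := ⊥
  haveI : DiscreteTopology D := ⟨rfl⟩
  refine continuous_quot_lift (r := P.Rel) _ ?_
  rw [continuous_prod_of_discrete_left]
  intro d
  refine (hc d).comp ?_
  fun_prop

/-! ### the triangulation -/

/-- next side -/
def triSg : Equiv.Perm (D × Fin 3) where
  toFun x := (x.1, x.2 + 1)
  invFun x := (x.1, x.2 - 1)
  left_inv x := by simp
  right_inv x := by simp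

/-- partner -/
def triAlFun (x : D × Fin 3) : D × Fin 3 :=
  if x.2 = 0 then (P.al x.1, 0) else if x.2 = 1 then (P.sg x.1, 2) else (P.sg.symm x.1, 1)

theorem triAlFun_zero (d : D) : triAlFun P (d, 0) = (P.al d, 0) := rfl
theorem triAlFun_one (d : D) : triAlFun P (d, 1) = (P.sg d, 2) := rfl
theorem triAlFun_two (d : D) : triAlFun P (d, 2) = (P.sg.symm d, 1) := rfl

theorem triAlFun_invol (x : D × Fin 3) : triAlFun P (triAlFun P x) = x := by
  obtain ⟨d, i⟩ := x
  fin_cases i
  · show triAlFun P (triAlFun P (d, 0)) = (d, 0)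
    rw [triAlFun_zero, triAlFun_zero, P.al_al]
  · show triAlFun P (triAlFun P (d, 1)) = (d, 1)
    rw [triAlFun_one, triAlFun_two, Equiv.symm_apply_apply]
  · show triAlFun P (triAlFun P (d, 2)) = (d, 2)
    rw [triAlFun_two, triAlFun_one, Equiv.apply_symm_apply]

/-- partner -/
def triAl : Equiv.Perm (D × Fin 3) where
  toFun := triAlFun P
  invFun := triAlFun P
  left_inv := triAlFun_invol P
  right_inv := triAlFun_invol P

theorem triAl_zero (d : D) : triAl P (d, 0) = (P.al d, 0) := rfl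
theorem triAl_one (d : D) : triAl P (d, 1) = (P.sg d, 2) := rfl
theorem triAl_two (d : D) : triAl P (d, 2) = (P.sg.symm d, 1) := rfl
theorem triSg_zero (d : D) : triSg (d, (0 : Fin 3)) = (d, 1) := rfl
theorem triSg_one (d : D) : triSg (d, (1 : Fin 3)) = (d, 2) := rfl
theorem triSg_two (d : D) : triSg (d, (2 : Fin 3)) = (d, 0) := rfl

/-- rotation at the vertices -/
def vr : Equiv.Perm (D × Fin 3) := triSg * triAl P

theorem vr_apply (x : D × Fin 3) : vr P x = triSg (triAl P x) := rfl

theorem vert_two (d : D) (n : ℕ) :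
    (vr P ^ n) (d, 2) = ((P.sg⁻¹ ^ n) d, 2) := by
  induction n with
  | zero => rfl
  | succ n ih =>
    rw [pow_succ', Equiv.Perm.mul_apply, ih, vr_apply, triAl_two, triSg_one, pow_succ',
      Equiv.Perm.mul_apply]
    rfl

theorem vert_zero (d : D) (n : ℕ) :
    (vr P ^ (2 * n)) (d, 0) = (((P.sg * P.al) ^ n) d, 0) := by
  induction n with
  | zero => rfl
  | succ n ih =>
    rw [show 2 * (n + 1) = 2 * n + 1 + 1 by ring, pow_succ', pow_succ', Equiv.Perm.mul_apply,
      Equiv.Perm.mul_apply, ih, vr_apply, vr_apply, triAl_zero, triSg_zero,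
      triAl_one, triSg_two, pow_succ' (P.sg * P.al), Equiv.Perm.mul_apply, Equiv.Perm.mul_apply]

theorem vert_one (d : D) (n : ℕ) :
    (vr P ^ (2 * n)) (d, 1) =
      (P.al (((P.sg * P.al) ^ n) (P.al d)), 1) := by
  have h : (d, (1 : Fin 3)) = vr P (P.al d, 0) := by
    rw [vr_apply, triAl_zero, triSg_zero, P.al_al]
  rw [h, ← Equiv.Perm.mul_apply, ← pow_succ, pow_succ', Equiv.Perm.mul_apply, vert_zero,
    vr_apply, triAl_zero, triSg_zero]

/-- the triangulated gluing -/
def tri : PolygonGluing (D × Fin 3) where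
  sg := triSg
  al := triAl P
  al_al := triAlFun_invol P
  al_ne := by
    rintro ⟨d, i⟩
    fin_cases i
    · show triAl P (d, 0) ≠ (d, 0)
      rw [triAl_zero]
      intro h
      exact P.al_ne d (congrArg Prod.fst h)
    · show triAl P (d, 1) ≠ (d, 1)
      rw [triAl_one]
      intro h
      exact absurd (show (2 : Fin 3) = 1 from congrArg Prod.snd h) (by decide)
    · show triAl P (d, 2) ≠ (d, 2)
      rw [triAl_two]
      intro h
      exact absurd (show (1 : Fin 3) = 2 from congrArg Prod.snd h) (by decide)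
  face_finite := by
    rintro ⟨d, i⟩
    refine ⟨3, by norm_num, ?_⟩
    show triSg (triSg (triSg (d, i))) = (d, i)
    show (d, i + 1 + 1 + 1) = (d, i)
    congr 1
    revert i
    decide
  vertex_finite := by
    rintro ⟨d, i⟩
    fin_cases i
    · obtain ⟨n, hn, h⟩ := P.vertex_finite d
      refine ⟨2 * n, by omega, ?_⟩
      show (vr P ^ (2 * n)) (d, 0) = (d, 0)
      rw [vert_zero, h]
    · obtain ⟨n, hn, h⟩ := P.vertex_finite (P.al d)
      refine ⟨2 * n, by omega, ?_⟩
      show (vr P ^ (2 * n)) (d, 1) = (d, 1)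
      rw [vert_one, h, P.al_al]
    · obtain ⟨n, hn, h⟩ := P.face_finite d
      refine ⟨n, hn, ?_⟩
      show (vr P ^ n) (d, 2) = (d, 2)
      rw [vert_two]
      have : (P.sg⁻¹ ^ n) d = d := by
        rw [inv_pow, Equiv.Perm.inv_eq_iff_eq, h]
      rw [this]
  connected := by
    have key : ∀ g ∈ Subgroup.closure {P.sg, P.al}, ∀ d : D,
        ∃ g' ∈ Subgroup.closure {triSg, triAl P}, g' (d, (0 : Fin 3)) = (g d, 0) := by
      have hs : (triSg : Equiv.Perm (D × Fin 3)) ∈ Subgroup.closure {triSg, triAl P} :=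
        Subgroup.subset_closure (by simp)
      have ha : triAl P ∈ Subgroup.closure {triSg, triAl P} :=
        Subgroup.subset_closure (by simp)
      intro g hg
      induction hg using Subgroup.closure_induction with
      | mem x hx =>
        intro d
        rcases hx with rfl | rfl
        · refine ⟨triSg * triAl P * triSg, mul_mem (mul_mem hs ha) hs, ?_⟩
          rw [Equiv.Perm.mul_apply, Equiv.Perm.mul_apply, triSg_zero, triAl_one, triSg_two]
        · exact ⟨triAl P, ha, triAl_zero P d⟩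
      | one => exact fun d => ⟨1, one_mem _, rfl⟩
      | mul x y _ _ ihx ihy =>
        intro d
        obtain ⟨a, ha', ea⟩ := ihy d
        obtain ⟨b, hb', eb⟩ := ihx (y d)
        refine ⟨b * a, mul_mem hb' ha', ?_⟩
        rw [Equiv.Perm.mul_apply, ea, eb]
        rfl
      | inv x _ ih =>
        intro d
        obtain ⟨a, ha', ea⟩ := ih (x⁻¹ d)
        refine ⟨a⁻¹, inv_mem ha', ?_⟩
        rw [Equiv.Perm.inv_eq_iff_eq, ea]
        exact Prod.ext (x.apply_symm_apply d).symm rfl
    have hs : (triSg : Equiv.Perm (D × Fin 3)) ∈ Subgroup.closure {triSg, triAl P} :=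
      Subgroup.subset_closure (by simp)
    have toZero : ∀ x : D × Fin 3, ∃ g' ∈ Subgroup.closure {triSg, triAl P},
        g' x = (x.1, 0) := by
      rintro ⟨d, i⟩
      fin_cases i
      · exact ⟨1, one_mem _, rfl⟩
      · refine ⟨triSg * triSg, mul_mem hs hs, ?_⟩
        show triSg (triSg (d, 1)) = (d, 0)
        rw [triSg_one, triSg_two]
      · refine ⟨triSg, hs, ?_⟩
        show triSg (d, 2) = (d, 0)
        rw [triSg_two]
    intro x y
    obtain ⟨a, ha, ea⟩ := toZero x
    obtain ⟨b, hb, eb⟩ := toZero y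
    obtain ⟨g, hg, eg⟩ := P.connected x.1 y.1
    obtain ⟨c, hc, ec⟩ := key g hg x.1
    refine ⟨b⁻¹ * (c * a), mul_mem (inv_mem hb) (mul_mem hc ha), ?_⟩
    rw [Equiv.Perm.mul_apply, Equiv.Perm.mul_apply, ea, ec, Equiv.Perm.inv_eq_iff_eq, eb, eg]

/-! ### the map to the old surface -/

/-- the map on the cone at the side `(d, i)` of the triangle at `d` -/
def H0 (x : D × Fin 3) (q : ℝ × ℝ) : P.Surface :=
  if x.2 = 0 then kap P x.1 ((1 - q.1 - q.2) / 3 + q.1, (1 - q.1 - q.2) / 3 + q.2)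
  else if x.2 = 1 then kap P x.1 ((1 - q.1 - q.2) / 3, (1 - q.1 - q.2) / 3 + q.1)
  else kap P x.1 ((1 - q.1 - q.2) / 3 + q.2, (1 - q.1 - q.2) / 3)

theorem H0_zero (d : D) (q : ℝ × ℝ) : H0 P (d, 0) q =
    kap P d ((1 - q.1 - q.2) / 3 + q.1, (1 - q.1 - q.2) / 3 + q.2) := rfl
theorem H0_one (d : D) (q : ℝ × ℝ) : H0 P (d, 1) q =
    kap P d ((1 - q.1 - q.2) / 3, (1 - q.1 - q.2) / 3 + q.1) := rfl
theorem H0_two (d : D) (q : ℝ × ℝ) : H0 P (d, 2) q =
    kap P d ((1 - q.1 - q.2) / 3 + q.2, (1 - q.1 - q.2) / 3) := rfl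

theorem continuous_H0 (x : D × Fin 3) : Continuous (H0 P x) := by
  obtain ⟨d, i⟩ := x
  fin_cases i
  · exact (continuous_kap P d).comp (by fun_prop)
  · exact (continuous_kap P d).comp (by fun_prop)
  · exact (continuous_kap P d).comp (by fun_prop)

theorem H0_next (x : D × Fin 3) (s : ℝ) : H0 P x (0, s) = H0 P (triSg x) (s, 0) := by
  obtain ⟨d, i⟩ := x
  fin_cases i
  · show H0 P (d, 0) (0, s) = H0 P (d, 1) (s, 0)
    rw [H0_zero, H0_one]
    congr 1
    ext <;> simp <;> ring
  · show H0 P (d, 1) (0, s) = H0 P (d, 2) (s, 0)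
    rw [H0_one, H0_two]
    congr 1
    ext <;> simp <;> ring
  · show H0 P (d, 2) (0, s) = H0 P (d, 0) (s, 0)
    rw [H0_zero, H0_two]
    congr 1
    ext <;> simp <;> ring

theorem H0_glue (x : D × Fin 3) (t : ℝ) (h0 : 0 ≤ t) (h1 : t ≤ 1) :
    H0 P x (1 - t, t) = H0 P (triAl P x) (t, 1 - t) := by
  obtain ⟨d, i⟩ := x
  fin_cases i
  · show H0 P (d, 0) (1 - t, t) = H0 P (P.al d, 0) (t, 1 - t)
    rw [H0_zero, H0_zero]
    have e := kap_glue P d h0 h1
    convert e using 2 <;> ext <;> simp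
  · show H0 P (d, 1) (1 - t, t) = H0 P (P.sg d, 2) (t, 1 - t)
    rw [H0_one, H0_two]
    have e := kap_next P d (s := 1 - t) (by linarith) (by linarith)
    convert e using 2 <;> ext <;> simp
  · show H0 P (d, 2) (1 - t, t) = H0 P (P.sg.symm d, 1) (t, 1 - t)
    rw [H0_two, H0_one]
    have e := kap_next P (P.sg.symm d) (s := t) h0 h1
    rw [Equiv.apply_symm_apply] at e
    convert e.symm using 2 <;> ext <;> simp

/-- the map to the old surface -/
def H : (tri P).Surface → P.Surface :=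
  lift (tri P) (H0 P) (fun x s _ _ => H0_next P x s) (fun x t h0 h1 => H0_glue P x t h0 h1)

theorem continuous_H : Continuous (H P) :=
  continuous_lift (tri P) (H0 P) (continuous_H0 P) _ _

/-! ### the map to the new surface -/

theorem kap_next' (d : D) {s : ℝ} (h0 : 0 ≤ s) :
    kap P d (0, s) = kap P (P.sg d) (s, 0) := by
  have h1 : 0 ≤ min 1 s := le_min zero_le_one h0
  have h2 : min 1 s ≤ 1 := min_le_left _ _
  have e := kap_next P d h1 h2
  have e1 : ret (0, s) = ret (0, min 1 s) := by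
    apply Subtype.ext
    rw [ret_of_mem le_rfl h1 (by linarith)]
    show (min 1 (max (0 : ℝ) 0), min (1 - min 1 (max (0 : ℝ) 0)) (max s 0)) = (0, min 1 s)
    rw [max_eq_left h0]
    simp
  have e2 : ret (s, 0) = ret (min 1 s, 0) := by
    apply Subtype.ext
    rw [ret_of_mem h1 le_rfl (by linarith)]
    show (min 1 (max s 0), min (1 - min 1 (max s 0)) (max (0 : ℝ) 0)) = (min 1 s, 0)
    rw [max_eq_left h0, max_self, min_eq_right (by linarith : (0 : ℝ) ≤ 1 - min 1 s)]
  unfold kap at e ⊢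
  rw [e1, e2, e]

theorem kt01 (d : D) {s : ℝ} (h0 : 0 ≤ s) :
    kap (tri P) (d, 0) (0, s) = kap (tri P) (d, 1) (s, 0) := kap_next' (tri P) (d, 0) h0
theorem kt12 (d : D) {s : ℝ} (h0 : 0 ≤ s) :
    kap (tri P) (d, 1) (0, s) = kap (tri P) (d, 2) (s, 0) := kap_next' (tri P) (d, 1) h0
theorem kt20 (d : D) {s : ℝ} (h0 : 0 ≤ s) :
    kap (tri P) (d, 2) (0, s) = kap (tri P) (d, 0) (s, 0) := kap_next' (tri P) (d, 2) h0

/-- the cone at the side `(d, 0)` -/
def A0 (d : D) (p : ℝ × ℝ) : (tri P).Surface :=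
  kap (tri P) (d, 0) (max (p.1 - (1 - p.1 - p.2)) 0, max (p.2 - (1 - p.1 - p.2)) 0)
/-- the cone at the side `(d, 1)` -/
def A1 (d : D) (p : ℝ × ℝ) : (tri P).Surface :=
  kap (tri P) (d, 1) (max (p.2 - p.1) 0, max (1 - p.1 - p.2 - p.1) 0)
/-- the cone at the side `(d, 2)` -/
def A2 (d : D) (p : ℝ × ℝ) : (tri P).Surface :=
  kap (tri P) (d, 2) (max (1 - p.1 - p.2 - p.2) 0, max (p.1 - p.2) 0)

theorem continuous_A0 (d : D) : Continuous (A0 P d) := by
  unfold A0
  exact (continuous_kap (tri P) (d, 0)).comp (by fun_prop)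
theorem continuous_A1 (d : D) : Continuous (A1 P d) := by
  unfold A1
  exact (continuous_kap (tri P) (d, 1)).comp (by fun_prop)
theorem continuous_A2 (d : D) : Continuous (A2 P d) := by
  unfold A2
  exact (continuous_kap (tri P) (d, 2)).comp (by fun_prop)

theorem A01 (d : D) (p : ℝ × ℝ) (h : p.1 = 1 - p.1 - p.2) : A0 P d p = A1 P d p := by
  unfold A0 A1
  rw [show p.1 - (1 - p.1 - p.2) = 0 by linarith, show 1 - p.1 - p.2 - p.1 = 0 by linarith,
    show p.2 - (1 - p.1 - p.2) = p.2 - p.1 by linarith, max_self]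
  exact kt01 P d (le_max_right _ _)
theorem A12 (d : D) (p : ℝ × ℝ) (h : p.1 = p.2) : A1 P d p = A2 P d p := by
  unfold A1 A2
  rw [show p.2 - p.1 = 0 by linarith, show p.1 - p.2 = 0 by linarith,
    show 1 - p.1 - p.2 - p.1 = 1 - p.1 - p.2 - p.2 by linarith, max_self]
  exact kt12 P d (le_max_right _ _)
theorem A20 (d : D) (p : ℝ × ℝ) (h : p.2 = 1 - p.1 - p.2) : A2 P d p = A0 P d p := by
  unfold A2 A0
  rw [show 1 - p.1 - p.2 - p.2 = 0 by linarith, show p.2 - (1 - p.1 - p.2) = 0 by linarith,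
    show p.1 - (1 - p.1 - p.2) = p.1 - p.2 by linarith, max_self]
  exact kt20 P d (le_max_right _ _)

open Classical in
/-- the whole triangle at `d`; `(a, b)` are the coordinates at the ends of the side `d` -/
def phi (d : D) (p : ℝ × ℝ) : (tri P).Surface :=
  if p.1 ≤ p.2 then (if p.1 ≤ 1 - p.1 - p.2 then A1 P d p else A0 P d p)
  else (if p.2 ≤ 1 - p.1 - p.2 then A2 P d p else A0 P d p)

theorem continuous_phi (d : D) : Continuous (phi P d) := by
  classical
  unfold phi
  refine Continuous.if_le ?_ ?_ continuous_fst continuous_snd ?_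
  · exact Continuous.if_le (continuous_A1 P d) (continuous_A0 P d) continuous_fst (by fun_prop)
      (fun p h => (A01 P d p h).symm)
  · exact Continuous.if_le (continuous_A2 P d) (continuous_A0 P d) continuous_snd (by fun_prop)
      (fun p h => A20 P d p h)
  · intro p h
    by_cases h1 : p.1 ≤ 1 - p.1 - p.2
    · rw [if_pos h1, if_pos (h ▸ h1)]
      exact A12 P d p h
    · rw [if_neg h1, if_neg (h ▸ h1)]

theorem phi0 (d : D) {a b z : ℝ} (hz : z = 1 - a - b) (ha : z ≤ a) (hb : z ≤ b) :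
    phi P d (a, b) = kap (tri P) (d, 0) (a - z, b - z) := by
  have e : A0 P d (a, b) = kap (tri P) (d, 0) (a - z, b - z) := by
    unfold A0
    rw [hz, max_eq_left (by linarith), max_eq_left (by linarith)]
  rw [← e]
  unfold phi
  by_cases h1 : a ≤ b
  · rw [if_pos h1]
    by_cases h2 : a ≤ 1 - a - b
    · rw [if_pos h2]
      exact (A01 P d (a, b) (show a = 1 - a - b by linarith)).symm
    · rw [if_neg h2]
  · rw [if_neg h1]
    by_cases h2 : b ≤ 1 - a - b
    · rw [if_pos h2]
      exact A20 P d (a, b) (show b = 1 - a - b by linarith)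
    · rw [if_neg h2]

theorem phi1 (d : D) {a b z : ℝ} (hz : z = 1 - a - b) (ha : a ≤ z) (hb : a ≤ b) :
    phi P d (a, b) = kap (tri P) (d, 1) (b - a, z - a) := by
  unfold phi
  rw [if_pos hb, if_pos (show a ≤ 1 - a - b by linarith)]
  unfold A1
  rw [hz, max_eq_left (by linarith), max_eq_left (by linarith)]

theorem phi2 (d : D) {a b z : ℝ} (hz : z = 1 - a - b) (ha : b ≤ z) (hb : b ≤ a) :
    phi P d (a, b) = kap (tri P) (d, 2) (z - b, a - b) := by
  have e : A2 P d (a, b) = kap (tri P) (d, 2) (z - b, a - b) := by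
    unfold A2
    rw [hz, max_eq_left (by linarith), max_eq_left (by linarith)]
  rw [← e]
  unfold phi
  by_cases h1 : a ≤ b
  · rw [if_pos h1, if_pos (show a ≤ 1 - a - b by linarith)]
    exact A12 P d (a, b) (show a = b by linarith)
  · rw [if_neg h1, if_pos (show b ≤ 1 - a - b by linarith)]

theorem phi_next (d : D) (s : ℝ) (h0 : 0 ≤ s) (h1 : s ≤ 1) :
    phi P d (0, s) = phi P (P.sg d) (s, 0) := by
  rw [phi1 P d (z := 1 - s) (by ring) (by linarith) h0,
    phi2 P (P.sg d) (z := 1 - s) (by ring) (by linarith) h0]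
  have e := kap_glue (tri P) (d, 1) (t := 1 - s) (by linarith) (by linarith)
  have e2 : (tri P).al (d, 1) = (P.sg d, 2) := triAl_one P d
  rw [e2, sub_sub_cancel] at e
  simpa using e

theorem phi_glue (d : D) (t : ℝ) (h0 : 0 ≤ t) (h1 : t ≤ 1) :
    phi P d (1 - t, t) = phi P (P.al d) (t, 1 - t) := by
  rw [phi0 P d (z := 0) (by ring) (by linarith) h0,
    phi0 P (P.al d) (z := 0) (by ring) h0 (by linarith)]
  have e := kap_glue (tri P) (d, 0) (t := t) h0 h1
  have e2 : (tri P).al (d, 0) = (P.al d, 0) := triAl_zero P d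
  rw [e2] at e
  simpa using e

/-- the map to the new surface -/
def G : P.Surface → (tri P).Surface := lift P (phi P) (phi_next P) (phi_glue P)

theorem continuous_G : Continuous (G P) :=
  continuous_lift P (phi P) (continuous_phi P) _ _

theorem H_kap (x : D × Fin 3) {a b : ℝ} (ha : 0 ≤ a) (hb : 0 ≤ b) (hab : a + b ≤ 1) :
    H P (kap (tri P) x (a, b)) = H0 P x (a, b) := lift_kap (tri P) _ _ _ x ha hb hab

theorem G_kap (d : D) {a b : ℝ} (ha : 0 ≤ a) (hb : 0 ≤ b) (hab : a + b ≤ 1) :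
    G P (kap P d (a, b)) = phi P d (a, b) := lift_kap P _ _ _ d ha hb hab

theorem H_phi (d : D) {a b : ℝ} (ha : 0 ≤ a) (hb : 0 ≤ b) (hab : a + b ≤ 1) :
    H P (phi P d (a, b)) = kap P d (a, b) := by
  rcases le_total a b with h1 | h1
  · rcases le_total a (1 - a - b) with h2 | h2
    · rw [phi1 P d (z := 1 - a - b) rfl h2 h1,
        H_kap P _ (by linarith) (by linarith) (by linarith), H0_one]
      congr 1
      ext <;> simp <;> ring
    · rw [phi0 P d (z := 1 - a - b) rfl h2 (h2.trans h1),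
        H_kap P _ (by linarith) (by linarith) (by linarith), H0_zero]
      congr 1
      ext <;> simp <;> ring
  · rcases le_total b (1 - a - b) with h2 | h2
    · rw [phi2 P d (z := 1 - a - b) rfl h2 h1,
        H_kap P _ (by linarith) (by linarith) (by linarith), H0_two]
      congr 1
      ext <;> simp <;> ring
    · rw [phi0 P d (z := 1 - a - b) rfl (h2.trans h1) h2,
        H_kap P _ (by linarith) (by linarith) (by linarith), H0_zero]
      congr 1
      ext <;> simp <;> ring

theorem G_H0 (x : D × Fin 3) {a b : ℝ} (ha : 0 ≤ a) (hb : 0 ≤ b) (hab : a + b ≤ 1) :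
    G P (H0 P x (a, b)) = kap (tri P) x (a, b) := by
  obtain ⟨d, i⟩ := x
  fin_cases i
  · show G P (H0 P (d, 0) (a, b)) = kap (tri P) (d, 0) (a, b)
    rw [H0_zero]
    simp only
    rw [G_kap P d (by linarith) (by linarith) (by linarith),
      phi0 P d (z := (1 - a - b) / 3) (by ring) (by linarith) (by linarith)]
    congr 1
    ext <;> simp
  · show G P (H0 P (d, 1) (a, b)) = kap (tri P) (d, 1) (a, b)
    rw [H0_one]
    simp only
    rw [G_kap P d (by linarith) (by linarith) (by linarith),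
      phi1 P d (z := (1 - a - b) / 3 + b) (by ring) (by linarith) (by linarith)]
    congr 1
    ext <;> simp
  · show G P (H0 P (d, 2) (a, b)) = kap (tri P) (d, 2) (a, b)
    rw [H0_two]
    simp only
    rw [G_kap P d (by linarith) (by linarith) (by linarith),
      phi2 P d (z := (1 - a - b) / 3 + a) (by ring) (by linarith) (by linarith)]
    congr 1
    ext <;> simp

/-- the two surfaces are homeomorphic -/
def homeo : (tri P).Surface ≃ₜ P.Surface where
  toFun := H P
  invFun := G P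
  left_inv := by
    intro x
    induction x using Quot.ind with
    | mk x =>
      obtain ⟨x, s, t⟩ := x
      have h := (cone (s, t)).2
      show G P (H P (cl (tri P) x s t)) = cl (tri P) x s t
      rw [← kap_cone (tri P) x s t]
      exact (congrArg (G P) (H_kap P x h.1 h.2.1 h.2.2)).trans (G_H0 P x h.1 h.2.1 h.2.2)
  right_inv := by
    intro x
    induction x using Quot.ind with
    | mk x =>
      obtain ⟨d, s, t⟩ := x
      have h := (cone (s, t)).2
      show H P (G P (cl P d s t)) = cl P d s t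
      rw [← kap_cone P d s t]
      exact (congrArg (H P) (G_kap P d h.1 h.2.1 h.2.2)).trans (H_phi P d h.1 h.2.1 h.2.2)
  continuous_toFun := continuous_H P
  continuous_invFun := continuous_G P

end

end C01

/-- Every surface glued from polygons is glued from triangles. -/
theorem tri_surface {D : Type} (P : PolygonGluing D) :
    ∃ Q : PolygonGluing (D × Fin 3), (∀ x, Q.sg (Q.sg (Q.sg x)) = x) ∧ (∀ x, Q.sg x ≠ x) ∧
      Nonempty (Q.Surface ≃ₜ P.Surface) := by
  refine ⟨C01.tri P, ?_, ?_, ⟨C01.homeo P⟩⟩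
  · rintro ⟨d, i⟩
    show (d, i + 1 + 1 + 1) = (d, i)
    congr 1
    revert i
    decide
  · rintro ⟨d, i⟩ h
    have h2 : i + 1 = i := congrArg Prod.snd h
    have h3 : ∀ j : Fin 3, j + 1 ≠ j := by decide
    exact h3 i h2

end Pool.Agent.AllSurf
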