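import Pool.Agent.Lib.MP_7f477e_gt.EDefs

/-!
# MP_7f477e_gt, E01: the action on blocks

`actX_block`: the block of `f x` is the block of `x` plus the `b`-exponent (`FreeGroup.induction_on`, using
`actX_fa`, `actX_fb`; for inverse letters apply the rule at the image point).
`actX_fbpow`: `b^n` shifts the blocks by `n` (`n : ℤ`). `actX_conj`: `b^n a b^-n` acts on block `m` as `alw (n - m)`.
`actX_fc`: `c = a b⁻¹ a⁻¹ b` acts on block `m` as `alw (-m) * (alw (-m-1))⁻¹`.
-/

set_option autoImplicit false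

namespace Pool.Agent.AllSurf

theorem E01_fb_nat (n : ℕ) (m : ℤ) (y : Yl) : actX (fb ^ n) (px m y) = px (m + n) y := by
  induction n generalizing m with
  | zero => simp
  | succ n ih =>
    rw [pow_succ, actX_mul, actX_fb, ih]
    congr 1
    push_cast
    ring

theorem actX_fbpow (n : ℤ) (m : ℤ) (y : Yl) : actX (fb ^ n) (px m y) = px (m + n) y := by
  obtain ⟨k, rfl | rfl⟩ := n.eq_nat_or_neg
  · rw [zpow_natCast]
    exact E01_fb_nat k m y
  · apply (actX (fb ^ k)).injective
    rw [← actX_mul, E01_fb_nat, zpow_neg, zpow_natCast, mul_inv_cancel, actX_one]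
    congr 1
    ring

theorem E01_fa_inv (m : ℤ) (y : Yl) : actX fa⁻¹ (px m y) = px m (actM (alw (-m))⁻¹ y) := by
  apply (actX fa).injective
  rw [← actX_mul, mul_inv_cancel, actX_one, actX_fa, actM_actM_inv]

theorem actX_conj (n m : ℤ) (y : Yl) :
    actX (fb ^ n * fa * (fb ^ n)⁻¹) (px m y) = px m (actM (alw (n - m)) y) := by
  rw [actX_mul, actX_mul, ← zpow_neg, actX_fbpow, actX_fa, actX_fbpow]
  have h1 : m + -n + n = m := by ring
  have h2 : -(m + -n) = n - m := by ring
  rw [h1, h2]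

theorem actX_fc (m : ℤ) (y : Yl) :
    actX fc (px m y) = px m (actM (alw (-m) * (alw (-m - 1))⁻¹) y) := by
  have h0 : actX fb⁻¹ (px (m + 1) (actM (alw (-(m + 1)))⁻¹ y)) =
      px m (actM (alw (-(m + 1)))⁻¹ y) := by
    have := actX_fbpow (-1) (m + 1) (actM (alw (-(m + 1)))⁻¹ y)
    rw [zpow_neg_one] at this
    rw [this]
    congr 1
    ring
  unfold fc
  rw [actX_mul, actX_mul, actX_mul, actX_fb, E01_fa_inv, h0, actX_fa, actM_mul]
  have h2 : -(m + 1) = -m - 1 := by ring
  rw [h2]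

theorem E01_letter (i : Fin 2) (m : ℤ) (y : Yl) :
    ∃ z, actX (FreeGroup.of i) (px m y) =
      px (m + Multiplicative.toAdd (bexp (FreeGroup.of i))) z := by
  fin_cases i
  · refine ⟨actM (alw (-m)) y, ?_⟩
    show actX fa (px m y) = px (m + Multiplicative.toAdd (bexp fa)) _
    rw [actX_fa, bexp_fa, toAdd_one, add_zero]
  · refine ⟨y, ?_⟩
    show actX fb (px m y) = px (m + Multiplicative.toAdd (bexp fb)) _
    rw [actX_fb, bexp_fb, toAdd_ofAdd]

theorem actX_block (f : FF) (m : ℤ) (y : Yl) :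
    ∃ z, actX f (px m y) = px (m + Multiplicative.toAdd (bexp f)) z := by
  induction f using FreeGroup.induction_on generalizing m y with
  | C1 => exact ⟨y, by rw [actX_one, map_one, toAdd_one, add_zero]⟩
  | of i => exact E01_letter i m y
  | inv_of i ih =>
    obtain ⟨m', z, hz⟩ := exists_px (actX (FreeGroup.of i)⁻¹ (px m y))
    obtain ⟨z', hz'⟩ := ih m' z
    rw [← hz, ← actX_mul, mul_inv_cancel, actX_one] at hz'
    refine ⟨z, ?_⟩
    rw [hz, map_inv, toAdd_inv]
    congr 1
    have := (px_inj.1 hz').1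
    omega
  | mul f g h1 h2 =>
    obtain ⟨z, hz⟩ := h2 m y
    obtain ⟨z', hz'⟩ := h1 (m + Multiplicative.toAdd (bexp g)) z
    refine ⟨z', ?_⟩
    rw [actX_mul, hz, hz', map_mul, toAdd_mul]
    congr 1
    ring

end Pool.Agent.AllSurf
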