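import Pool.Agent.Lib.MP_7f477e_gt.E01

/-!
# MP_7f477e_gt, E02: `th w (0, y) = (0, w y)`

`th_wordZ`: `th (wordZ l) = wordG l` (induction; `th zL = gL`, `th zR = gR` from `th_zz0`, `th_zz 0`).
`th_alw`: `th (alw n) = b^n a b^-n`: four cases of the definition of `alw` (`n = 0`; `n = j + 1`: `th_wordZ`, `th_xx` and the
definition of `chord j`; `n = -1`: `th_xx0`, `fc = a b⁻¹ a⁻¹ b`; `n = -(k+2)`: `th_zz`).
`actX_th`: for letters `g`: `z_0 = alw 0`, `z_{k+1} = alw (-(k+2))`, `x_0 = alw 0 * (alw (-1))⁻¹`,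
`x_{j+1} = wordZ U * alw (j+1) * (wordZ V)⁻¹`; all of them are products of elements `alw n`, `zL = alw 0 * (alw (-2))⁻¹`,
`zR = (alw 0)⁻¹ * (alw (-2))⁻¹`. So: the set of `w` with `∀ y, actX (th w) (px 0 y) = px 0 (actM w y)` is a subgroup
(closed under products and inverses), it contains all `alw n` (`th_alw`, `actX_conj` with `m = 0`), hence all
letters, hence everything.
-/

set_option autoImplicit false

namespace Pool.Agent.AllSurf

theorem E02_thL : th zL = gL := by
  have h := th_zz 0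
  rw [zero_add, zero_add] at h
  unfold zL gL
  rw [map_mul, map_inv, th_zz0, h]
  group

theorem E02_thR : th zR = gR := by
  have h := th_zz 0
  rw [zero_add, zero_add] at h
  unfold zR gR
  rw [map_mul, map_inv, map_inv, th_zz0, h]
  group

theorem th_wordZ (l : List Bool) : th (wordZ l) = wordG l := by
  induction l with
  | nil => exact map_one th
  | cons x l ih =>
    cases x
    · show th (zL * wordZ l) = gL * wordG l
      rw [map_mul, ih, E02_thL]
    · show th (zR * wordZ l) = gR * wordG l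
      rw [map_mul, ih, E02_thR]

theorem th_alw (n : ℤ) : th (alw n) = fb ^ n * fa * (fb ^ n)⁻¹ := by
  match n with
  | Int.ofNat 0 =>
    show th (zz 0) = fb ^ (0 : ℤ) * fa * (fb ^ (0 : ℤ))⁻¹
    rw [th_zz0]
    group
  | Int.ofNat (j + 1) =>
    show th ((wordZ (pairE j).1)⁻¹ * xx (j + 1) * wordZ (pairE j).2) =
      fb ^ (((j + 1 : ℕ) : ℤ)) * fa * (fb ^ (((j + 1 : ℕ) : ℤ)))⁻¹
    rw [map_mul, map_mul, map_inv, th_wordZ, th_wordZ, th_xx, zpow_natCast]
    unfold chord
    rw [inv_pow]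
    group
  | Int.negSucc 0 =>
    show th ((xx 0)⁻¹ * zz 0) = fb ^ (Int.negSucc 0) * fa * (fb ^ (Int.negSucc 0))⁻¹
    rw [map_mul, map_inv, th_xx0, th_zz0, zpow_negSucc]
    unfold fc
    group
  | Int.negSucc (k + 1) =>
    show th (zz (k + 1)) = fb ^ (Int.negSucc (k + 1)) * fa * (fb ^ (Int.negSucc (k + 1)))⁻¹
    rw [th_zz, zpow_negSucc, inv_inv, inv_pow]

/-- the elements for which the formula is true -/
def E02_P (w : FreeGroup ℕ) : Prop := ∀ y : Yl, actX (th w) (px 0 y) = px 0 (actM w y)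

theorem E02_one : E02_P 1 := by
  intro y
  rw [map_one, actX_one, actM_one]

theorem E02_mul {v w : FreeGroup ℕ} (hv : E02_P v) (hw : E02_P w) : E02_P (v * w) := by
  intro y
  rw [map_mul, actX_mul, hw, hv, actM_mul]

theorem E02_inv {w : FreeGroup ℕ} (hw : E02_P w) : E02_P w⁻¹ := by
  intro y
  have h1 := hw (actM w⁻¹ y)
  rw [actM_actM_inv] at h1
  rw [map_inv, ← h1, ← actX_mul, inv_mul_cancel, actX_one]

theorem E02_alw (n : ℤ) : E02_P (alw n) := by
  intro y
  rw [th_alw, actX_conj, sub_zero]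

theorem E02_zz (k : ℕ) : E02_P (zz k) := by
  cases k with
  | zero => exact E02_alw 0
  | succ k => exact E02_alw (Int.negSucc (k + 1))

theorem E02_wordZ (l : List Bool) : E02_P (wordZ l) := by
  induction l with
  | nil => exact E02_one
  | cons x l ih =>
    cases x
    · exact E02_mul (E02_mul (E02_zz 0) (E02_inv (E02_zz 1))) ih
    · exact E02_mul (E02_mul (E02_inv (E02_zz 0)) (E02_inv (E02_zz 1))) ih

theorem E02_xx (j : ℕ) : E02_P (xx j) := by
  cases j with
  | zero =>
    have h1 : xx 0 = zz 0 * (alw (Int.negSucc 0))⁻¹ := by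
      show xx 0 = zz 0 * ((xx 0)⁻¹ * zz 0)⁻¹
      group
    rw [h1]
    exact E02_mul (E02_zz 0) (E02_inv (E02_alw _))
  | succ j =>
    have h1 : xx (j + 1) = wordZ (pairE j).1 * alw (Int.ofNat (j + 1)) * (wordZ (pairE j).2)⁻¹ := by
      show xx (j + 1) = wordZ (pairE j).1 * ((wordZ (pairE j).1)⁻¹ * xx (j + 1) *
        wordZ (pairE j).2) * (wordZ (pairE j).2)⁻¹
      group
    rw [h1]
    exact E02_mul (E02_mul (E02_wordZ _) (E02_alw _)) (E02_inv (E02_wordZ _))

theorem E02_of (g : ℕ) : E02_P (FreeGroup.of g) := by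
  rcases Nat.even_or_odd' g with ⟨k, rfl | rfl⟩
  · exact E02_zz k
  · exact E02_xx k

theorem actX_th (w : FreeGroup ℕ) (y : Yl) : actX (th w) (px 0 y) = px 0 (actM w y) := by
  have h : E02_P w := by
    induction w using FreeGroup.induction_on with
    | C1 => exact E02_one
    | of g => exact E02_of g
    | inv_of g ih => exact E02_inv ih
    | mul v w hv hw => exact E02_mul hv hw
  exact h y

end Pool.Agent.AllSurf
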