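import Pool.Agent.Lib.MP_7f477e_gt.M03

/-!
# MP_7f477e_gt, M04: the stabiliser of `y_A` is `⟨x_j : j ∈ A⟩`

`XA_fix`: `Subgroup.closure_induction`; a generator `x_j`, `j ∈ A` fixes `y_A`: compare coordinates
(`Yl.ext`; every position is `posc m` (`m ≠ []`), `posd j` or not `IsPos`): `c_[x_j] += d_j = 0`,
`c_{x_j :: m} += c_m = 0`, `d_k` unchanged because `2j+1 ≠ 2k+2`, others by `co_lett_other`.
`mem_XA_of_cc`: `w = sy l * k` (`exists_sy`), `actM w y_A = actM (sy l) y_A`; if `l ≠ []` then `cc_sy` gives a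
coordinate which is a product of nonzero integers (`List.prod_ne_zero`), contradiction; so `l = []`, `w = k`.
-/

set_option autoImplicit false

namespace Pool.Agent.AllSurf

/-- two points are equal if all coordinates in use and all others agree -/
theorem Yl.ext' {y y' : Yl} (h1 : ∀ m : List ℕ, m ≠ [] → cc y m = cc y' m)
    (h2 : ∀ j, dd y j = dd y' j) (h3 : ∀ n, ¬ IsPos n → co y n = co y' n) : y = y' := by
  apply Yl.ext
  intro n
  by_cases hn : IsPos n
  · rcases hn with ⟨m, hm, rfl⟩ | ⟨j, rfl⟩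
    · exact h1 m hm
    · exact h2 j
  · exact h3 n hn

theorem XA_fix (A : Set ℕ) (w : FreeGroup ℕ) (hw : w ∈ XA A) : actM w (yA A) = yA A := by
  refine Subgroup.closure_induction (p := fun w _ => actM w (yA A) = yA A) ?_ ?_ ?_ ?_ hw
  · rintro _ ⟨j, hj, rfl⟩
    show actM (FreeGroup.of (2 * j + 1)) (yA A) = yA A
    rw [actM_of]
    apply Yl.ext'
    · intro m hm
      cases m with
      | nil => exact absurd rfl hm
      | cons h m =>
        by_cases hh : h = 2 * j + 1
        · subst hh
          by_cases hm0 : m = []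
          · subst hm0
            rw [cc_lett_odd, dd_yA, if_pos hj, add_zero]
          · rw [cc_lett_cons _ _ hm0, cc_yA A m, add_zero]
        · rw [cc_lett_ne _ _ hh]
    · intro i
      rw [dd_lett, if_neg, add_zero]
      rintro ⟨h1, _⟩
      omega
    · intro n hn
      exact co_lett_other _ _ hn _
  · exact actM_one _
  · intro x y _ _ hx hy
    rw [actM_mul, hy, hx]
  · intro x _ hx
    have h1 := actM_inv_actM x (yA A)
    rwa [hx] at h1

theorem mem_XA_of_cc (A : Set ℕ) (w : FreeGroup ℕ)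
    (h : ∀ m : List ℕ, m ≠ [] → cc (actM w (yA A)) m = 0) : w ∈ XA A := by
  obtain ⟨l, k, hk, rfl, hl, hz⟩ := exists_sy A w
  cases l with
  | nil => rwa [sy_nil, one_mul]
  | cons p l =>
    exfalso
    have h1 := h ((p :: l).map Prod.fst) (by simp)
    rw [actM_mul, XA_fix A k hk, cc_sy A _ hl (by simp)] at h1
    rw [List.prod_eq_zero_iff, List.mem_map] at h1
    obtain ⟨q, hq, hq0⟩ := h1
    exact hz q hq hq0

theorem stab_yA (A : Set ℕ) (w : FreeGroup ℕ) : actM w (yA A) = yA A ↔ w ∈ XA A := by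
  refine ⟨fun h => mem_XA_of_cc A w fun m _ => ?_, XA_fix A w⟩
  rw [h]
  exact cc_yA A m

end Pool.Agent.AllSurf
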