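import Pool.Agent.Lib.MP_7f477e_gt.E02
import Pool.Agent.Lib.MP_7f477e_gt.M04

/-!
# MP_7f477e_gt, E03: the stabilisers in `FF`

`exists_th`: if the `b`-exponent of `f` is `0` then `f` is in the range of `th`. Let `N` be the closure of the elements
`a_n = b^n a b^-n`, `n : ℤ`; `b N b⁻¹ = N`, `a ∈ N`; by induction every `f` is `v * b^k` with `v ∈ N` and
`k = bexp f`; and `a_n = th (alw n)` (`th_alw`), so `N ≤ th.range`.
`stab_yS`: if `f (0, y_A) = (0, y_A)` then `bexp f = 1` (`actX_block`), `f = th w`, `actX_th`, so `w` fixes `y_A` and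
`w ∈ XA (Nat.succ '' A)` (`stab_yA`); `th` maps it into `KF A` because `th (x_{j+1}) = chord j` (`th_xx`; map of a closure).
Conversely the generators `chord j = th (x_{j+1})` fix the point (`XA_fix`).
`stab_ee0`: the same with `A = {0}`: `XA {0}` is generated by `x_0`, `th x_0 = fc` (`th_xx0`).
-/

set_option autoImplicit false

namespace Pool.Agent.AllSurf

/-- the normal closure of `a`, by generators -/
def E03_N : Subgroup FF := Subgroup.closure (Set.range (fun n : ℤ => fb ^ n * fa * (fb ^ n)⁻¹))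

theorem E03_gen (n : ℤ) : fb ^ n * fa * (fb ^ n)⁻¹ ∈ E03_N := Subgroup.subset_closure ⟨n, rfl⟩

theorem E03_conj (k : ℤ) (v : FF) (hv : v ∈ E03_N) : fb ^ k * v * (fb ^ k)⁻¹ ∈ E03_N := by
  refine Subgroup.closure_induction (p := fun v _ => fb ^ k * v * (fb ^ k)⁻¹ ∈ E03_N) ?_ ?_ ?_ ?_ hv
  · rintro _ ⟨n, rfl⟩
    have h := E03_gen (k + n)
    have h2 : fb ^ k * (fb ^ n * fa * (fb ^ n)⁻¹) * (fb ^ k)⁻¹
        = fb ^ (k + n) * fa * (fb ^ (k + n))⁻¹ := by
      rw [zpow_add]; group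
    rw [h2]; exact h
  · rw [mul_one, mul_inv_cancel]; exact E03_N.one_mem
  · intro x y _ _ hx hy
    have h2 : fb ^ k * (x * y) * (fb ^ k)⁻¹
        = (fb ^ k * x * (fb ^ k)⁻¹) * (fb ^ k * y * (fb ^ k)⁻¹) := by group
    rw [h2]; exact E03_N.mul_mem hx hy
  · intro x _ hx
    have h2 : fb ^ k * x⁻¹ * (fb ^ k)⁻¹ = (fb ^ k * x * (fb ^ k)⁻¹)⁻¹ := by group
    rw [h2]; exact E03_N.inv_mem hx

theorem E03_bexp (v : FF) (hv : v ∈ E03_N) : bexp v = 1 := by
  refine Subgroup.closure_induction (p := fun v _ => bexp v = 1) ?_ ?_ ?_ ?_ hv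
  · rintro _ ⟨n, rfl⟩
    show bexp (fb ^ n * fa * (fb ^ n)⁻¹) = 1
    rw [map_mul, map_mul, map_inv, bexp_fa, mul_one, mul_inv_cancel]
  · exact map_one _
  · intro x y _ _ hx hy
    rw [map_mul, hx, hy, mul_one]
  · intro x _ hx
    rw [map_inv, hx, inv_one]

theorem E03_form_mul {f g : FF} (hf : ∃ v ∈ E03_N, ∃ k : ℤ, f = v * fb ^ k)
    (hg : ∃ v ∈ E03_N, ∃ k : ℤ, g = v * fb ^ k) : ∃ v ∈ E03_N, ∃ k : ℤ, f * g = v * fb ^ k := by
  obtain ⟨v, hv, k, rfl⟩ := hf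
  obtain ⟨v', hv', l, rfl⟩ := hg
  refine ⟨v * (fb ^ k * v' * (fb ^ k)⁻¹), E03_N.mul_mem hv (E03_conj k v' hv'), k + l, ?_⟩
  rw [zpow_add]; group

theorem E03_form_inv {f : FF} (hf : ∃ v ∈ E03_N, ∃ k : ℤ, f = v * fb ^ k) :
    ∃ v ∈ E03_N, ∃ k : ℤ, f⁻¹ = v * fb ^ k := by
  obtain ⟨v, hv, k, rfl⟩ := hf
  refine ⟨fb ^ (-k) * v⁻¹ * (fb ^ (-k))⁻¹, E03_conj (-k) _ (E03_N.inv_mem hv), -k, ?_⟩
  group

theorem E03_form_of (i : Fin 2) : ∃ v ∈ E03_N, ∃ k : ℤ, (FreeGroup.of i : FF) = v * fb ^ k := by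
  fin_cases i
  · refine ⟨fa, ?_, 0, ?_⟩
    · have h := E03_gen 0
      rwa [zpow_zero, one_mul, inv_one, mul_one] at h
    · rw [zpow_zero, mul_one]; rfl
  · refine ⟨1, E03_N.one_mem, 1, ?_⟩
    rw [zpow_one, one_mul]; rfl

theorem E03_form (f : FF) : ∃ v ∈ E03_N, ∃ k : ℤ, f = v * fb ^ k := by
  induction f using FreeGroup.induction_on with
  | C1 => exact ⟨1, E03_N.one_mem, 0, by rw [zpow_zero, mul_one]⟩
  | of i => exact E03_form_of i
  | inv_of i _ => exact E03_form_inv (E03_form_of i)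
  | mul x y hx hy => exact E03_form_mul hx hy

theorem exists_th (f : FF) (hf : bexp f = 1) : ∃ w, f = th w := by
  obtain ⟨v, hv, k, rfl⟩ := E03_form f
  rw [map_mul, E03_bexp v hv, one_mul, map_zpow, bexp_fb, ← ofAdd_zsmul] at hf
  have hk : k = 0 := by
    have h1 : k • (1 : ℤ) = 0 := hf
    simpa using h1
  subst hk
  rw [zpow_zero, mul_one]
  have hle : E03_N ≤ th.range := by
    unfold E03_N
    rw [Subgroup.closure_le]
    rintro _ ⟨n, rfl⟩
    exact ⟨alw n, th_alw n⟩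
  obtain ⟨w, hw⟩ := hle hv
  exact ⟨w, hw.symm⟩

theorem E03_stab (A : Set ℕ) (f : FF) :
    actX f (px 0 (yA A)) = px 0 (yA A) ↔ f ∈ (XA A).map th := by
  constructor
  · intro h
    obtain ⟨z, hz⟩ := actX_block f 0 (yA A)
    rw [h, px_inj] at hz
    have h0 : Multiplicative.toAdd (bexp f) = 0 := by
      have := hz.1
      omega
    have h1 : bexp f = 1 := h0
    obtain ⟨w, rfl⟩ := exists_th f h1
    rw [actX_th, px_inj] at h
    exact ⟨w, (stab_yA A w).1 h.2, rfl⟩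
  · rintro ⟨w, hw, rfl⟩
    rw [actX_th, XA_fix A w hw]

theorem stab_yS (A : Set ℕ) (f : FF) : actX f (px 0 (yS A)) = px 0 (yS A) ↔ f ∈ KF A := by
  have h : (XA (Nat.succ '' A)).map th = KF A := by
    unfold XA KF
    rw [MonoidHom.map_closure]
    congr 1
    rw [Set.image_image, Set.image_image]
    apply Set.image_congr
    intro j _
    exact th_xx j
  rw [← h]
  exact E03_stab _ f

theorem stab_ee0 (f : FF) : actX f ee0 = ee0 ↔ f ∈ Subgroup.zpowers fc := by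
  have h : (XA {0}).map th = Subgroup.zpowers fc := by
    unfold XA
    rw [MonoidHom.map_closure, Set.image_singleton, Set.image_singleton, th_xx0,
      Subgroup.zpowers_eq_closure]
  rw [← h]
  exact E03_stab _ f

end Pool.Agent.AllSurf
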