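import Pool.Agent.Lib.MP_7f477e_gt.M04

/-!
# MP_7f477e_gt, M08: powers of `x_0` and of `u` fix few points of the orbit of `r = y_{0}`
-/

set_option autoImplicit false

namespace Pool.Agent.AllSurf

theorem M08_pow (y : Yl) (hd : dd y 0 = 0) (p : ℕ) (hp : ∀ m : List ℕ, m ≠ [] → m.length < p → cc y m = 0)
    (k : ℕ) : (∀ m : List ℕ, m ≠ [] → m.length ≤ p → cc (actM (xx 0 ^ k) y) m = cc y m) ∧
      (∀ m : List ℕ, m ≠ [] → m.length = p →
        cc (actM (xx 0 ^ k) y) (1 :: m) = cc y (1 :: m) + k * cc y m) ∧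
      dd (actM (xx 0 ^ k) y) 0 = 0 := by
  induction k with
  | zero =>
    rw [pow_zero, actM_one]
    refine ⟨fun m _ _ => rfl, fun m _ _ => by simp, hd⟩
  | succ k ih =>
    obtain ⟨h1, h2, h3⟩ := ih
    rw [pow_succ', actM_mul]
    set z := actM (xx 0 ^ k) y with hz
    have hx : actM (xx 0) z = lett 1 z := by
      rw [xx, actM_of]
    rw [hx]
    refine ⟨?_, ?_, ?_⟩
    · intro m hm hlen
      cases m with
      | nil => exact absurd rfl hm
      | cons a m' =>
        by_cases ha : a = 1
        · subst ha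
          by_cases hm' : m' = []
          · subst hm'
            have h4 := cc_lett_odd 0 z
            simp only [Nat.mul_zero, Nat.zero_add] at h4
            rw [h4, h3, add_zero]
            exact h1 _ hm hlen
          · rw [cc_lett_cons 1 m' hm' z]
            have hl : m'.length < p := by
              simp only [List.length_cons] at hlen
              omega
            rw [h1 m' hm' hl.le, hp m' hm' hl, add_zero]
            exact h1 _ hm hlen
        · rw [cc_lett_ne 1 a ha m' z]
          exact h1 _ hm hlen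
    · intro m hm hlen
      rw [cc_lett_cons 1 m hm z, h2 m hm hlen, h1 m hm hlen.le]
      push_cast
      ring
    · rw [dd_lett, h3, if_neg (by omega), add_zero]

theorem M08_nat (N : ℕ) (hN : N ≠ 0) (y : Yl) (h : actM (xx 0 ^ N) y = y) :
    ∀ m : List ℕ, m ≠ [] → cc y m = 0 := by
  have hNz : (N : ℤ) ≠ 0 := by exact_mod_cast hN
  have hd : dd y 0 = 0 := by
    have h1 := cc_zpow_odd 0 N y
    have h2 : actM (FreeGroup.of (2 * 0 + 1) ^ (N : ℤ)) y = y := by
      rw [zpow_natCast]
      exact h
    rw [h2] at h1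
    have h3 : (N : ℤ) * dd y 0 = 0 := by linarith
    exact (mul_eq_zero.1 h3).resolve_left hNz
  have key : ∀ p : ℕ, ∀ m : List ℕ, m ≠ [] → m.length < p → cc y m = 0 := by
    intro p
    induction p with
    | zero => intro m _ hl; omega
    | succ p ih =>
      intro m hm hl
      rcases Nat.lt_or_ge m.length p with hlt | hge
      · exact ih m hm hlt
      · have hlen : m.length = p := by omega
        have h1 := (M08_pow y hd p ih N).2.1 m hm hlen
        rw [h] at h1
        have h3 : (N : ℤ) * cc y m = 0 := by linarith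
        exact (mul_eq_zero.1 h3).resolve_left hNz
  intro m hm
  exact key (m.length + 1) m hm (Nat.lt_succ_self _)

theorem mem_XA_of_pow (n : ℤ) (hn : n ≠ 0) (g : FreeGroup ℕ)
    (h : actM (xx 0 ^ n * g) (yA {0}) = actM g (yA {0})) : g ∈ XA {0} := by
  apply mem_XA_of_cc
  rw [actM_mul] at h
  set y := actM g (yA {0}) with hy
  rcases Int.natAbs_eq n with h1 | h1
  · rw [h1, zpow_natCast] at h
    exact M08_nat n.natAbs (Int.natAbs_ne_zero.2 hn) y h
  · have h2 : actM (xx 0 ^ n.natAbs) y = y := by
      rw [h1, zpow_neg, zpow_natCast] at h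
      have h3 := actM_actM_inv (xx 0 ^ n.natAbs) y
      rw [h] at h3
      exact h3
    exact M08_nat n.natAbs (Int.natAbs_ne_zero.2 hn) y h2

theorem free_of_expo (w : FreeGroup ℕ) (e : FreeGroup ℕ →* Multiplicative ℤ) (he : e (xx 0) = 1)
    (hw : e w ≠ 1) (n : ℤ) (hn : n ≠ 0) (g : FreeGroup ℕ) :
    actM (w ^ n * g) (yA {0}) ≠ actM g (yA {0}) := by
  intro h
  have h1 : actM (g⁻¹ * (w ^ n * g)) (yA {0}) = yA {0} := by
    rw [actM_mul, h, actM_inv_actM]
  have h2 := (stab_yA {0} _).1 h1
  have h3 : XA {0} ≤ e.ker := by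
    unfold XA
    rw [Subgroup.closure_le]
    rintro _ ⟨j, hj, rfl⟩
    rw [Set.mem_singleton_iff] at hj
    subst hj
    exact he
  have h4 : e (g⁻¹ * (w ^ n * g)) = 1 := h3 h2
  rw [map_mul, map_mul, map_inv, map_zpow, mul_comm (e w ^ n) (e g), inv_mul_cancel_left] at h4
  have h5 : n * Multiplicative.toAdd (e w) = 0 := by
    have := congrArg Multiplicative.toAdd h4
    simpa using this
  apply hw
  have h6 := (mul_eq_zero.1 h5).resolve_left hn
  exact Multiplicative.toAdd.injective (by simpa using h6)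

end Pool.Agent.AllSurf
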