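import Pool.Agent.Lib.MP_7f477e_gt.E03
import Pool.Agent.Lib.MP_7f477e_gt.M08

/-!
# MP_7f477e_gt, E04: `c` acts freely on `EE` minus the base point

Let `e = g ee0`, `c^n e = e`, `n ≠ 0`. Let `m` be the block of `e` (`= toAdd (bexp g)` by `actX_block`, `ee0 = px 0 r`,
`r = yA {0}`) and `g = b^m * g'` with `bexp g' = 1`, `g' = th w` (`exists_th`), so `e = px m (actM w r)` (`actX_th`, `actX_fbpow`).
By `actX_fc` (its powers) `c^n` acts on block `m` as `u^n`, `u = alw (-m) * (alw (-m-1))⁻¹`, so `actM (u^n * w) r = actM w r`.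
* `m = 0`: `u = alw 0 * (alw (-1))⁻¹ = x_0`. `mem_XA_of_pow` gives `w ∈ XA {0}`, so `actM w r = r` (`XA_fix`), `e = ee0`.
* `m ≠ 0`: contradiction by `free_of_expo` with the exponent `e`: the homomorphism `FreeGroup.lift` that is `ofAdd 1` on one
 letter and `1` on the others; `he`: the letter is not `x_0`:
 `m ≥ 1`, `m = 1`: `u = (x_0⁻¹ z_0) z_1⁻¹`, letter `z_0`. `m ≥ 2`: `u = z_{m-1} z_m⁻¹`, letter `z_m`.
 `m ≤ -1`, `j = -m ≥ 1`: `u = alw j * (alw (j-1))⁻¹` where `alw j = U⁻¹ x_j V` and `alw (j-1)` is `z_0` or a word in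
 `z_0, z_1, x_{j-1}`: letter `x_j` (exponent `1`; words `wordZ l` have exponent `0` at odd letters).
-/

set_option autoImplicit false

namespace Pool.Agent.AllSurf

/-- the exponent of the letter `l` -/
noncomputable def E04_ex (l : ℕ) : FreeGroup ℕ →* Multiplicative ℤ :=
  FreeGroup.lift (fun g => if g = l then Multiplicative.ofAdd 1 else 1)

theorem E04_ex_of (l g : ℕ) :
    E04_ex l (FreeGroup.of g) = if g = l then Multiplicative.ofAdd 1 else 1 := by
  simp [E04_ex]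

theorem E04_ex_eq (l : ℕ) : E04_ex l (FreeGroup.of l) = Multiplicative.ofAdd 1 := by
  rw [E04_ex_of, if_pos rfl]

theorem E04_ex_ne {l g : ℕ} (h : g ≠ l) : E04_ex l (FreeGroup.of g) = 1 := by
  rw [E04_ex_of, if_neg h]

theorem E04_ex_zz (j k : ℕ) : E04_ex (2 * j + 1) (zz k) = 1 := E04_ex_ne (by omega)

theorem E04_ex_wordZ (j : ℕ) (l : List Bool) : E04_ex (2 * j + 1) (wordZ l) = 1 := by
  induction l with
  | nil => exact map_one _
  | cons b l ih =>
    cases b with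
    | false =>
      show E04_ex (2 * j + 1) (zz 0 * (zz 1)⁻¹ * wordZ l) = 1
      simp only [map_mul, map_inv, E04_ex_zz, ih, inv_one, mul_one]
    | true =>
      show E04_ex (2 * j + 1) ((zz 0)⁻¹ * (zz 1)⁻¹ * wordZ l) = 1
      simp only [map_mul, map_inv, E04_ex_zz, ih, inv_one, mul_one]

theorem E04_alw_pos (i j : ℕ) : E04_ex (2 * i + 1) (alw (Int.ofNat (j + 1))) =
    E04_ex (2 * i + 1) (xx (j + 1)) := by
  show E04_ex (2 * i + 1) ((wordZ (pairE j).1)⁻¹ * xx (j + 1) * wordZ (pairE j).2) = _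
  simp only [map_mul, map_inv, E04_ex_wordZ, inv_one, mul_one, one_mul]

theorem E04_ofAdd_ne : (Multiplicative.ofAdd (1 : ℤ)) ≠ 1 := by decide

theorem E04_ofAdd_inv_ne : (Multiplicative.ofAdd (1 : ℤ))⁻¹ ≠ 1 := by decide

/-- the exponent of `u` for the positive blocks `a ≥ 1` -/
theorem E04_pos (j : ℕ) : ∃ e : FreeGroup ℕ →* Multiplicative ℤ, e (xx 0) = 1 ∧
    e (alw (Int.ofNat (j + 1)) * (alw (Int.ofNat j))⁻¹) ≠ 1 := by
  refine ⟨E04_ex (2 * (j + 1) + 1), E04_ex_ne (by omega), ?_⟩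
  have h1 : E04_ex (2 * (j + 1) + 1) (alw (Int.ofNat j)) = 1 := by
    cases j with
    | zero => exact E04_ex_zz _ 0
    | succ j => rw [E04_alw_pos]; exact E04_ex_ne (by omega)
  rw [map_mul, map_inv, h1, E04_alw_pos, inv_one, mul_one]
  have h2 : E04_ex (2 * (j + 1) + 1) (xx (j + 1)) = Multiplicative.ofAdd 1 := E04_ex_eq _
  rw [h2]
  exact E04_ofAdd_ne

theorem E04_neg (k : ℕ) : ∃ e : FreeGroup ℕ →* Multiplicative ℤ, e (xx 0) = 1 ∧
    e (alw (Int.negSucc k) * (alw (Int.negSucc (k + 1)))⁻¹) ≠ 1 := by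
  refine ⟨E04_ex (2 * (k + 1)), E04_ex_ne (by omega), ?_⟩
  have h1 : E04_ex (2 * (k + 1)) (alw (Int.negSucc k)) = 1 := by
    cases k with
    | zero =>
      show E04_ex (2 * (0 + 1)) ((xx 0)⁻¹ * zz 0) = 1
      have h2 : E04_ex (2 * (0 + 1)) (xx 0) = 1 := E04_ex_ne (by omega)
      have h3 : E04_ex (2 * (0 + 1)) (zz 0) = 1 := E04_ex_ne (by omega)
      rw [map_mul, map_inv, h2, h3, inv_one, mul_one]
    | succ k => exact E04_ex_ne (by omega)
  have h2 : E04_ex (2 * (k + 1)) (alw (Int.negSucc (k + 1))) = Multiplicative.ofAdd 1 := E04_ex_eq _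
  rw [map_mul, map_inv, h1, h2, one_mul]
  exact E04_ofAdd_inv_ne

theorem E04_fc_nat (n : ℕ) (m : ℤ) (y : Yl) :
    actX (fc ^ n) (px m y) = px m (actM ((alw (-m) * (alw (-m - 1))⁻¹) ^ n) y) := by
  induction n with
  | zero => rw [pow_zero, pow_zero, actX_one, actM_one]
  | succ n ih => rw [pow_succ', actX_mul, ih, actX_fc, pow_succ', actM_mul _ (_ ^ n)]

theorem E04_fc (n : ℤ) (m : ℤ) (y : Yl) :
    actX (fc ^ n) (px m y) = px m (actM ((alw (-m) * (alw (-m - 1))⁻¹) ^ n) y) := by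
  obtain ⟨k, rfl | rfl⟩ := n.eq_nat_or_neg
  · rw [zpow_natCast, zpow_natCast]
    exact E04_fc_nat k m y
  · apply (actX (fc ^ k)).injective
    rw [← actX_mul, E04_fc_nat, ← actM_mul, zpow_neg, zpow_neg, zpow_natCast, zpow_natCast,
      mul_inv_cancel, mul_inv_cancel, actX_one, actM_one]

theorem free_EE (n : ℤ) (e : EE) (h : actE (fc ^ n) e = e) : n = 0 ∨ e = e0 := by
  by_cases hn : n = 0
  · exact Or.inl hn
  right
  obtain ⟨g, hg⟩ := e.2
  set m : ℤ := Multiplicative.toAdd (bexp g) with hm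
  have hb : bexp ((fb ^ m)⁻¹ * g) = 1 := by
    rw [map_mul, map_inv, map_zpow, bexp_fb]
    have : (Multiplicative.ofAdd (1 : ℤ)) ^ m = bexp g := by
      rw [← ofAdd_zsmul, smul_eq_mul, mul_one, hm]
      rfl
    rw [this, inv_mul_cancel]
  obtain ⟨w, hw⟩ := exists_th _ hb
  have hgw : g = fb ^ m * th w := by rw [← hw, mul_inv_cancel_left]
  have he : e.1 = px m (actM w (yA {0})) := by
    rw [← hg, hgw, actX_mul]
    have h1 : actX (th w) ee0 = px 0 (actM w (yA {0})) := actX_th w _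
    rw [h1, actX_fbpow, zero_add]
  have h2 : actX (fc ^ n) e.1 = e.1 := congrArg Subtype.val h
  rw [he, E04_fc] at h2
  have h3 := (px_inj.1 h2).2
  rw [← actM_mul] at h3
  obtain ⟨a, ha⟩ : ∃ a : ℤ, a = -m := ⟨_, rfl⟩
  rw [← ha] at h3
  cases a with
  | ofNat j =>
    cases j with
    | zero =>
      have hm0 : m = 0 := by
        have : (Int.ofNat 0 : ℤ) = 0 := rfl
        omega
      have h4 : alw (Int.ofNat 0) * (alw (Int.ofNat 0 - 1))⁻¹ = xx 0 := by
        show zz 0 * ((xx 0)⁻¹ * zz 0)⁻¹ = xx 0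
        rw [mul_inv_rev, inv_inv, mul_inv_cancel_left]
      rw [h4] at h3
      have h5 := mem_XA_of_pow n hn w h3
      have h6 := XA_fix {0} w h5
      apply Subtype.ext
      rw [he, h6, hm0]
      rfl
    | succ j =>
      exfalso
      obtain ⟨f, hf1, hf2⟩ := E04_pos j
      have h4 : (Int.ofNat (j + 1) - 1 : ℤ) = Int.ofNat j := by
        simp only [Int.ofNat_eq_natCast]; push_cast; ring
      rw [h4] at h3
      exact free_of_expo _ f hf1 hf2 n hn w h3
  | negSucc k =>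
    exfalso
    obtain ⟨f, hf1, hf2⟩ := E04_neg k
    have h4 : (Int.negSucc k - 1 : ℤ) = Int.negSucc (k + 1) := by
      omega
    rw [h4] at h3
    exact free_of_expo _ f hf1 hf2 n hn w h3

end Pool.Agent.AllSurf
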