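import Pool.Agent.Lib.MP_7f477e_gt.MDefs

/-!
# MP_7f477e_gt, M01: powers of a letter

All statements by induction on `k : ℤ` (`Int.induction_on`, or first `k : ℕ` and then the inverse via
`actM_actM_inv`), from the rules `cc_lett_cons`, `cc_lett_ne`, `cc_lett_even`, `cc_lett_odd`, `dd_lett`,
`co_lett_other` of MDefs. Remarks.
* `cc_zpow_ne` first: a power of `g` does not change `c_m` if `m` does not start with `g` (and `c_[]`,
  position `posc [] = 1`, is not in use: `co_lett_other`).
* `cc_zpow_cons`: `c_m` (`m` not starting with `g`) is not changed, so each `g` adds the same `c_m`.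
* `cc_zpow_odd`: `d_j` is not changed by odd letters.
* inverse letters: apply the rule at `y' = actM (of g)⁻¹ y`.
* `co_actM_other`: `FreeGroup.induction_on`.
-/

set_option autoImplicit false

namespace Pool.Agent.AllSurf

theorem M01_pow_succ (g : ℕ) (k : ℕ) (y : Yl) :
    actM (FreeGroup.of g ^ (k + 1)) y = lett g (actM (FreeGroup.of g ^ k) y) := by
  rw [pow_succ', actM_mul, actM_of]

theorem M01_nat (g : ℕ) (φ δ : Yl → ℤ) (h1 : ∀ y, φ (lett g y) = φ y + δ y)
    (h2 : ∀ y, δ (lett g y) = δ y) (k : ℕ) (y : Yl) :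
    φ (actM (FreeGroup.of g ^ k) y) = φ y + k * δ y ∧ δ (actM (FreeGroup.of g ^ k) y) = δ y := by
  induction k with
  | zero => simp
  | succ k ih =>
    rw [M01_pow_succ, h1, h2, ih.1, ih.2]
    push_cast
    exact ⟨by ring, rfl⟩

theorem M01_gen (g : ℕ) (φ δ : Yl → ℤ) (h1 : ∀ y, φ (lett g y) = φ y + δ y)
    (h2 : ∀ y, δ (lett g y) = δ y) (k : ℤ) (y : Yl) :
    φ (actM (FreeGroup.of g ^ k) y) = φ y + k * δ y := by
  obtain ⟨m, rfl | rfl⟩ := k.eq_nat_or_neg
  · rw [zpow_natCast]
    exact (M01_nat g φ δ h1 h2 m y).1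
  · have h3 := M01_nat g φ δ h1 h2 m (actM (FreeGroup.of g ^ (-(m : ℤ))) y)
    rw [← actM_mul] at h3
    have h4 : FreeGroup.of g ^ m * FreeGroup.of g ^ (-(m : ℤ)) = 1 := by
      rw [zpow_neg, zpow_natCast, mul_inv_cancel]
    rw [h4, actM_one] at h3
    rw [h3.2]
    linarith [h3.1]

theorem cc_zpow_ne (g h : ℕ) (hne : h ≠ g) (m : List ℕ) (k : ℤ) (y : Yl) :
    cc (actM (FreeGroup.of g ^ k) y) (h :: m) = cc y (h :: m) := by
  have := M01_gen g (fun y => cc y (h :: m)) (fun _ => 0)
    (fun y => by simpa using cc_lett_ne g h hne m y) (fun _ => rfl) k y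
  simpa using this

theorem cc_zpow_cons (g : ℕ) (m : List ℕ) (hm : m ≠ []) (hg : m.head? ≠ some g) (k : ℤ) (y : Yl) :
    cc (actM (FreeGroup.of g ^ k) y) (g :: m) = cc y (g :: m) + k * cc y m := by
  refine M01_gen g (fun y => cc y (g :: m)) (fun y => cc y m)
    (fun y => cc_lett_cons g m hm y) (fun y => ?_) k y
  cases m with
  | nil => exact absurd rfl hm
  | cons h m =>
    apply cc_lett_ne
    intro h1
    apply hg
    rw [h1, List.head?_cons]

theorem cc_zpow_even (i : ℕ) (k : ℤ) (y : Yl) :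
    cc (actM (FreeGroup.of (2 * i) ^ k) y) [2 * i] = cc y [2 * i] + k := by
  have := M01_gen (2 * i) (fun y => cc y [2 * i]) (fun _ => 1)
    (fun y => cc_lett_even i y) (fun _ => rfl) k y
  simpa using this

theorem dd_zpow_odd (j i : ℕ) (k : ℤ) (y : Yl) :
    dd (actM (FreeGroup.of (2 * j + 1) ^ k) y) i = dd y i := by
  have := M01_gen (2 * j + 1) (fun y => dd y i) (fun _ => 0)
    (fun y => by
      show dd (lett (2 * j + 1) y) i = dd y i + 0
      rw [dd_lett, if_neg (by omega)]) (fun _ => rfl) k y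
  simpa using this

theorem cc_zpow_odd (j : ℕ) (k : ℤ) (y : Yl) :
    cc (actM (FreeGroup.of (2 * j + 1) ^ k) y) [2 * j + 1] = cc y [2 * j + 1] + k * dd y j := by
  refine M01_gen (2 * j + 1) (fun y => cc y [2 * j + 1]) (fun y => dd y j)
    (fun y => cc_lett_odd j y) (fun y => ?_) k y
  show dd (lett (2 * j + 1) y) j = dd y j
  rw [dd_lett, if_neg (by omega), add_zero]

theorem co_actM_other (w : FreeGroup ℕ) (n : ℕ) (hn : ¬ IsPos n) (y : Yl) :
    co (actM w y) n = co y n := by
  induction w using FreeGroup.induction_on generalizing y with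
  | C1 => rw [actM_one]
  | of g => rw [actM_of]; exact co_lett_other g n hn y
  | inv_of g ih =>
    have h1 := ih (actM (FreeGroup.of g)⁻¹ y)
    rw [actM_actM_inv] at h1
    exact h1.symm
  | mul v w h1 h2 => rw [actM_mul, h1, h2]

end Pool.Agent.AllSurf
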