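import Pool.Agent.Lib.MP_7f477e_gt.M06
import Pool.Agent.Lib.MP_7f477e_gt.M01

/-!
# MP_7f477e_gt, M07: the orbit of `r = y_{0}` accumulates at every `y_A` from both sides

`exists_correct`: let `D` be given. For every finite set `S` of indices and every prescribed integers there is `w`
(a product of powers of `vk k D`, `k ∈ S`) such that from `r = yA {0}` it leads to a point with `c_m = 0` for all
`0 < length m ≤ D`, prescribed `d_k` for `k ∈ S`, and `d_k` as in `r` for `k ∉ S`, other coordinates unchanged.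
Induction on `S` (Finset), using `vk_cc0`, `vk_dd` (its integer powers: `d_k` changes by `n * (-1)^D` as long as
`c_[0] = 0`, `D ≥ 1`), `vk_dd_ne`, `vk_cc`, `co_actM_other`.
`approx_above`: given `A`, `N`. Take `J = N` (so `posd J ≥ J ≥ N`; `Nat.left_le_pair`), `D = posd J + 1`,
`S = {k | k ≤ J}` or any finite set containing all `k` with `posd k ≤ posd J` (`k ≤ posd k`), prescribe
`d_k = d_k(y_A)` for `k ≠ J`, `k ∈ S`, and `d_J = d_J(y_A) + 1` (resp. `- 1`). All positions `n < posd J` agree with `y_A`: `n = posc m`,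
`m ≠ []`: `length m ≤ mcode m ≤ n ≤ D`; `n = posd k`; or `n` not in use. And `Yl.lt_iff` at `posd J`.
-/

set_option autoImplicit false

namespace Pool.Agent.AllSurf

/-- the effect of the `n`-th power of `vk k D` -/
structure M07_R (k D : ℕ) (n : ℤ) (y y' : Yl) : Prop where
  c0 : cc y' [0] = cc y [0]
  cm : ∀ m : List ℕ, m ≠ [] → m.length ≤ D → cc y' m = cc y m
  dk : cc y [0] = 0 → dd y' k = dd y k + n * (-1) ^ D
  dj : ∀ j, j ≠ k → dd y' j = dd y j
  ot : ∀ i, ¬ IsPos i → co y' i = co y i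

theorem M07_R_refl (k D : ℕ) (y : Yl) : M07_R k D 0 y y :=
  ⟨rfl, fun _ _ _ => rfl, fun _ => by ring, fun _ _ => rfl, fun _ _ => rfl⟩

theorem M07_R_symm {k D : ℕ} {n : ℤ} {y y' : Yl} (h : M07_R k D n y y') :
    M07_R k D (-n) y' y :=
  ⟨h.c0.symm, fun m h1 h2 => (h.cm m h1 h2).symm,
    fun h0 => by rw [h.dk (by rw [← h.c0]; exact h0)]; ring,
    fun j hj => (h.dj j hj).symm, fun i hi => (h.ot i hi).symm⟩

theorem M07_R_trans {k D : ℕ} {n n' : ℤ} {y y' y'' : Yl} (h : M07_R k D n y y')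
    (h' : M07_R k D n' y' y'') : M07_R k D (n + n') y y'' :=
  ⟨h'.c0.trans h.c0, fun m h1 h2 => (h'.cm m h1 h2).trans (h.cm m h1 h2),
    fun h0 => by rw [h'.dk (by rw [h.c0]; exact h0), h.dk h0]; ring,
    fun j hj => (h'.dj j hj).trans (h.dj j hj), fun i hi => (h'.ot i hi).trans (h.ot i hi)⟩

theorem M07_R_one (k D : ℕ) (y : Yl) : M07_R k D 1 y (actM (vk k D) y) :=
  ⟨vk_cc0 k D y, fun m h1 h2 => vk_cc k D m h1 h2 y,
    fun h0 => by rw [vk_dd k D y h0, one_mul], fun j hj => vk_dd_ne k D j hj y,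
    fun i hi => co_actM_other _ i hi y⟩

theorem M07_R_inv (k D : ℕ) (y : Yl) : M07_R k D (-1) y (actM (vk k D)⁻¹ y) := by
  have h := M07_R_symm (M07_R_one k D (actM (vk k D)⁻¹ y))
  rwa [actM_actM_inv] at h

theorem M07_R_zpow (k D : ℕ) (n : ℤ) (y : Yl) : M07_R k D n y (actM (vk k D ^ n) y) := by
  induction n using Int.induction_on with
  | zero => rw [zpow_zero, actM_one]; exact M07_R_refl k D y
  | succ i ih =>
    rw [add_comm (i : ℤ) 1, zpow_one_add, actM_mul, add_comm (1 : ℤ)]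
    exact M07_R_trans ih (M07_R_one k D _)
  | pred i ih =>
    rw [sub_eq_add_neg, add_comm (-(i : ℤ)) (-1), zpow_add, zpow_neg_one, actM_mul,
      add_comm (-1 : ℤ)]
    exact M07_R_trans ih (M07_R_inv k D _)

theorem M07_correct (D : ℕ) (a : ℕ → ℤ) (S : Finset ℕ) :
    ∃ w : FreeGroup ℕ, cc (actM w (yA {0})) [0] = 0 ∧
      (∀ m : List ℕ, m ≠ [] → m.length ≤ D → cc (actM w (yA {0})) m = 0) ∧
      (∀ k ∈ S, dd (actM w (yA {0})) k = a k) ∧
      ∀ i, ¬ IsPos i → co (actM w (yA {0})) i = 0 := by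
  classical
  induction S using Finset.induction_on with
  | empty =>
    refine ⟨1, ?_, ?_, ?_, ?_⟩
    · rw [actM_one]; exact cc_yA _ _
    · intro m _ _
      rw [actM_one]; exact cc_yA _ _
    · intro k hk
      exact absurd hk (Finset.notMem_empty k)
    · intro i hi
      rw [actM_one]; exact co_yA_other _ _ hi
  | insert k S hk ih =>
    obtain ⟨w, h0, hm, hd, ho⟩ := ih
    set y := actM w (yA {0}) with hy
    set n : ℤ := (a k - dd y k) * (-1) ^ D with hn
    have hR := M07_R_zpow k D n y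
    refine ⟨vk k D ^ n * w, ?_, ?_, ?_, ?_⟩
    · rw [actM_mul, hR.c0, h0]
    · intro m h1 h2
      rw [actM_mul, hR.cm m h1 h2, hm m h1 h2]
    · intro j hj
      rw [actM_mul]
      rcases Finset.mem_insert.1 hj with rfl | hj'
      · rw [hR.dk h0, hn, mul_assoc, ← mul_pow]
        norm_num
      · rw [hR.dj j (by rintro rfl; exact hk hj'), hd j hj']
    · intro i hi
      rw [actM_mul, hR.ot i hi, ho i hi]

theorem M07_le_posd (j : ℕ) : j ≤ posd j := by
  have h : 2 * j + 1 ≤ Nat.pair (2 * j + 1) 0 := Nat.left_le_pair _ _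
  simp only [posd, mcode]
  omega

theorem M07_approx (A : Set ℕ) (N : ℕ) (e : ℤ) :
    ∃ w : FreeGroup ℕ, (∀ n < posd N, co (actM w (yA {0})) n = co (yA A) n) ∧
      co (actM w (yA {0})) (posd N) = co (yA A) (posd N) + e := by
  obtain ⟨w, _, hm, hd, ho⟩ := M07_correct (posd N)
    (fun k => if k = N then dd (yA A) k + e else dd (yA A) k) (Finset.range (posd N + 1))
  refine ⟨w, ?_, ?_⟩
  · intro n hn
    by_cases hp : IsPos n
    · rcases hp with ⟨m, hm0, rfl⟩ | ⟨k, rfl⟩
      · have h1 : cc (actM w (yA {0})) m = 0 := by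
          apply hm m hm0
          have h2 := length_le_mcode m
          have h3 : posc m = 2 * mcode m + 1 := rfl
          omega
        have h2 : cc (yA A) m = 0 := cc_yA A m
        exact h1.trans h2.symm
      · have hk := M07_le_posd k
        have h1 : dd (actM w (yA {0})) k = _ := hd k (Finset.mem_range.2 (by omega))
        have hkN : k ≠ N := by
          rintro rfl
          exact lt_irrefl _ hn
        rw [if_neg hkN] at h1
        exact h1
    · rw [ho n hp, co_yA_other A n hp]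
  · have hN := M07_le_posd N
    have h1 : dd (actM w (yA {0})) N = _ := hd N (Finset.mem_range.2 (by omega))
    rw [if_pos rfl] at h1
    exact h1

theorem approx_above (A : Set ℕ) (N : ℕ) :
    ∃ w : FreeGroup ℕ, (∀ n < N, co (actM w (yA {0})) n = co (yA A) n) ∧
      yA A < actM w (yA {0}) := by
  obtain ⟨w, h1, h2⟩ := M07_approx A N 1
  refine ⟨w, fun n hn => h1 n (lt_of_lt_of_le hn (M07_le_posd N)), ?_⟩
  refine Yl.lt_iff.2 ⟨posd N, fun i hi => (h1 i hi).symm, ?_⟩
  rw [h2]
  omega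

theorem approx_below (A : Set ℕ) (N : ℕ) :
    ∃ w : FreeGroup ℕ, (∀ n < N, co (actM w (yA {0})) n = co (yA A) n) ∧
      actM w (yA {0}) < yA A := by
  obtain ⟨w, h1, h2⟩ := M07_approx A N (-1)
  refine ⟨w, fun n hn => h1 n (lt_of_lt_of_le hn (M07_le_posd N)), ?_⟩
  refine Yl.lt_iff.2 ⟨posd N, fun i hi => h1 i hi, ?_⟩
  rw [h2]
  omega

end Pool.Agent.AllSurf
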