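import Pool.Agent.Lib.MP_7f477e_gt.E03
import Pool.Agent.Lib.MP_7f477e_gt.M07

/-!
# MP_7f477e_gt, E05: order properties of `EE` and of the cuts

`between`: for a set `B` of indices (`B = {0}` or `B = Nat.succ '' A`) and any `x : Xl` with `px 0 (yA B) < x` there is an
element `e` of `EE` with `px 0 (yA B) < e.1 < x`; the same on the other side. Proof: `x = px n y`. If `n > 0` take `w` from `approx_above`
(any `N`), `e = px 0 (actM w r) = actX (th w) ee0` (`actX_th`). If `n = 0`: `yA B < y`, let `i` be the first coordinate where they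
differ, take `w` from `approx_above B (i + 1)`: it agrees with `yA B` up to `i`, so it is below `y`. (`n < 0` impossible.)
Below: `approx_below`.
`dense_EE`: let `e < e'`; by transitivity (apply `g⁻¹` with `g ee0 = e`) we may assume `e = e0`; `between` with `B = {0}`.
No maximal/minimal element: `b` moves `px n y` to `px (n+1) y`.
Countable: `FF` is countable and maps onto `EE`.
`cut_no_max`, `cut_no_min`: `between` from below/above at `px 0 (yS A)`, together with `px 0 (yS A) ∉ EE` (`yS_not_mem`): if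
`actX f ee0 = px 0 (yS A)` then `bexp f = 1`, `f = th w`, `actM w r = yS A`, all `cc` of it vanish (`cc_yA`), so `w ∈ XA {0}`
(`mem_XA_of_cc`), so `yS A = r` (`XA_fix`), but `dd r 0 = 0` and `dd (yS A) 0 = 1` (`dd_yA`).
-/

set_option autoImplicit false

namespace Pool.Agent.AllSurf

theorem yS_not_mem (A : Set ℕ) (f : FF) : actX f ee0 ≠ px 0 (yS A) := by
  intro h
  obtain ⟨z, hz⟩ := actX_block f 0 (yA {0})
  have h1 : px (0 + Multiplicative.toAdd (bexp f)) z = px 0 (yS A) := by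
    rw [← hz]; exact h
  have h2 : Multiplicative.toAdd (bexp f) = 0 := by
    have := (px_inj.1 h1).1
    omega
  obtain ⟨w, rfl⟩ := exists_th f h2
  have h3 : px 0 (actM w (yA {0})) = px 0 (yS A) := by
    rw [← actX_th]; exact h
  have h4 : actM w (yA {0}) = yA (Nat.succ '' A) := (px_inj.1 h3).2
  have h5 : w ∈ XA {0} := mem_XA_of_cc {0} w (fun m _ => by rw [h4, cc_yA])
  have h6 := XA_fix {0} w h5
  have h7 : dd (yA {0}) 0 = dd (yA (Nat.succ '' A)) 0 := by rw [← h4, h6]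
  classical
  rw [dd_yA, dd_yA, if_pos (Set.mem_singleton 0), if_neg] at h7
  · omega
  · rintro ⟨j, _, hj⟩
    exact Nat.succ_ne_zero j hj

theorem between_above (B : Set ℕ) (x : Xl) (h : px 0 (yA B) < x) :
    ∃ e : EE, px 0 (yA B) < e.1 ∧ e.1 < x := by
  obtain ⟨n, y, rfl⟩ := exists_px x
  rcases (px_lt _ _ _ _).1 h with hn | ⟨rfl, hy⟩
  · obtain ⟨w, _, hw⟩ := approx_above B 0
    refine ⟨⟨px 0 (actM w (yA {0})), th w, actX_th w _⟩, ?_, ?_⟩
    · exact (px_lt _ _ _ _).2 (Or.inr ⟨rfl, hw⟩)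
    · exact (px_lt _ _ _ _).2 (Or.inl hn)
  · obtain ⟨i, hi1, hi2⟩ := Yl.lt_iff.1 hy
    obtain ⟨w, hw1, hw⟩ := approx_above B (i + 1)
    refine ⟨⟨px 0 (actM w (yA {0})), th w, actX_th w _⟩, ?_, ?_⟩
    · exact (px_lt _ _ _ _).2 (Or.inr ⟨rfl, hw⟩)
    · refine (px_lt _ _ _ _).2 (Or.inr ⟨rfl, Yl.lt_iff.2 ⟨i, ?_, ?_⟩⟩)
      · intro j hj
        rw [hw1 j (by omega), hi1 j hj]
      · rw [hw1 i (by omega)]
        exact hi2

theorem between_below (B : Set ℕ) (x : Xl) (h : x < px 0 (yA B)) :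
    ∃ e : EE, x < e.1 ∧ e.1 < px 0 (yA B) := by
  obtain ⟨n, y, rfl⟩ := exists_px x
  rcases (px_lt _ _ _ _).1 h with hn | ⟨rfl, hy⟩
  · obtain ⟨w, _, hw⟩ := approx_below B 0
    refine ⟨⟨px 0 (actM w (yA {0})), th w, actX_th w _⟩, ?_, ?_⟩
    · exact (px_lt _ _ _ _).2 (Or.inl hn)
    · exact (px_lt _ _ _ _).2 (Or.inr ⟨rfl, hw⟩)
  · obtain ⟨i, hi1, hi2⟩ := Yl.lt_iff.1 hy
    obtain ⟨w, hw1, hw⟩ := approx_below B (i + 1)
    refine ⟨⟨px 0 (actM w (yA {0})), th w, actX_th w _⟩, ?_, ?_⟩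
    · refine (px_lt _ _ _ _).2 (Or.inr ⟨rfl, Yl.lt_iff.2 ⟨i, ?_, ?_⟩⟩)
      · intro j hj
        rw [hw1 j (by omega), hi1 j hj]
      · rw [hw1 i (by omega)]
        exact hi2
    · exact (px_lt _ _ _ _).2 (Or.inr ⟨rfl, hw⟩)

theorem countable_EE : Countable EE := by
  have h1 : Countable FF :=
    inferInstanceAs (Countable (Quot (@FreeGroup.Red.Step (Fin 2))))
  refine Function.Surjective.countable
    (f := fun f : FF => (⟨actX f ee0, f, rfl⟩ : EE)) ?_
  rintro ⟨x, f, rfl⟩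
  exact ⟨f, rfl⟩

theorem dense_EE : DenselyOrdered EE := by
  constructor
  intro e e' h
  obtain ⟨g, hg⟩ := e.2
  have h1 : px 0 (yA {0}) < actX g⁻¹ e'.1 := by
    have h2 : actX g⁻¹ e.1 < actX g⁻¹ e'.1 := (actX g⁻¹).lt_iff_lt.2 h
    rw [← hg, ← actX_mul, inv_mul_cancel, actX_one] at h2
    exact h2
  obtain ⟨e'', h3, h4⟩ := between_above {0} _ h1
  refine ⟨actE g e'', ?_, ?_⟩
  · have h5 : actX g (px 0 (yA {0})) < actX g e''.1 := (actX g).lt_iff_lt.2 h3
    have h6 : actX g (px 0 (yA {0})) = e.1 := hg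
    rw [h6] at h5
    exact h5
  · have h5 : actX g e''.1 < actX g (actX g⁻¹ e'.1) := (actX g).lt_iff_lt.2 h4
    rw [← actX_mul, mul_inv_cancel, actX_one] at h5
    exact h5

theorem nomax_EE : NoMaxOrder EE := by
  constructor
  intro e
  refine ⟨actE fb e, ?_⟩
  show e.1 < actX fb e.1
  obtain ⟨n, y, hy⟩ := exists_px e.1
  rw [hy, actX_fb]
  exact (px_lt _ _ _ _).2 (Or.inl (by omega))

theorem nomin_EE : NoMinOrder EE := by
  constructor
  intro e
  refine ⟨actE fb⁻¹ e, ?_⟩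
  show actX fb⁻¹ e.1 < e.1
  rw [← (actX fb).lt_iff_lt, ← actX_mul, mul_inv_cancel, actX_one]
  obtain ⟨n, y, hy⟩ := exists_px e.1
  rw [hy, actX_fb]
  exact (px_lt _ _ _ _).2 (Or.inl (by omega))

end Pool.Agent.AllSurf
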