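import Pool.Agent.Lib.MP_7f477e_gt.E04
import Pool.Agent.Lib.MP_7f477e_gt.E05

/-!
# MP_7f477e_gt, E06: the combinatorial data of part R

All fields with `E = EE`, `act = actE`, `o = e0`, `cut = cutE`.
`cut_stab`: if `g ∈ KF A` then `g` fixes `px 0 (yS A)` (`stab_yS`), so it preserves the cut. Conversely let
`act g '' cut A = cut A` and suppose `x := actX g (px 0 (yS A)) ≠ px 0 (yS A)`. The image of the cut is the set of `e` with
`e.1 < x`. If `px 0 (yS A) < x` then `between_above` gives `e` in the image and not in the cut; if `x < px 0 (yS A)` then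
`between_below` gives `e` with `x < e.1`, in the cut but not in the image. So `g` fixes the point and `stab_yS` applies.
`cut_ne`, `cut_ne'`: elements of `EE` in blocks `-1` and `1` (`b^{±1} ee0`).
-/

set_option autoImplicit false

namespace Pool.Agent.AllSurf

theorem E06_cut_stab (A : Set ℕ) (g : FF) : actE g '' cutE A = cutE A ↔ g ∈ KF A := by
  rw [← stab_yS]
  have himg : ∀ e : EE, e ∈ actE g '' cutE A ↔ e.1 < actX g (px 0 (yS A)) := by
    intro e
    constructor
    · rintro ⟨e', he', rfl⟩
      exact (actX g).lt_iff_lt.2 he'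
    · intro h
      refine ⟨actE g⁻¹ e, ?_, ?_⟩
      · show actX g⁻¹ e.1 < px 0 (yS A)
        rw [← (actX g).lt_iff_lt, ← actX_mul, mul_inv_cancel, actX_one]
        exact h
      · apply Subtype.ext
        show actX g (actX g⁻¹ e.1) = e.1
        rw [← actX_mul, mul_inv_cancel, actX_one]
  constructor
  · intro h
    by_contra hne
    rcases lt_or_gt_of_ne hne with hlt | hlt
    · obtain ⟨e, h1, h2⟩ := between_below (Nat.succ '' A) _ hlt
      have h3 : e ∈ cutE A := h2
      rw [← h, himg] at h3
      exact absurd h3 (not_lt.2 h1.le)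
    · obtain ⟨e, h1, h2⟩ := between_above (Nat.succ '' A) _ hlt
      have h3 : e ∈ actE g '' cutE A := (himg e).2 h2
      rw [h] at h3
      exact absurd h3 (not_lt.2 (le_of_lt h1))
  · intro h
    ext e
    rw [himg, h]
    exact Iff.rfl

theorem exists_orbData : Nonempty OrbData := by
  refine ⟨{
    E := EE
    ord := inferInstance
    cnt := countable_EE
    dns := dense_EE
    nomax := nomax_EE
    nomin := nomin_EE
    act := actE
    o := e0
    trans := ?_
    stab := ?_
    free := free_EE
    cut := cutE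
    cut_lower := ?_
    cut_ne := ?_
    cut_ne' := ?_
    cut_nomax := ?_
    cut_nomin := ?_
    cut_stab := E06_cut_stab }⟩
  · rintro ⟨x, g, hg⟩
    exact ⟨g, Subtype.ext hg⟩
  · intro g
    rw [← stab_ee0]
    constructor
    · intro h
      exact congrArg Subtype.val h
    · intro h
      exact Subtype.ext h
  · intro A e he e' he'
    show e'.1 < px 0 (yS A)
    have h1 : e.1 < px 0 (yS A) := he
    have h2 : e'.1 < e.1 := he'
    exact lt_trans h2 h1
  · intro A
    refine ⟨actE (fb ^ (-1 : ℤ)) e0, ?_⟩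
    show actX (fb ^ (-1 : ℤ)) (px 0 (yA {0})) < px 0 (yS A)
    rw [actX_fbpow]
    exact (px_lt _ _ _ _).2 (Or.inl (by omega))
  · intro A
    refine ⟨actE (fb ^ (1 : ℤ)) e0, ?_⟩
    show ¬ actX (fb ^ (1 : ℤ)) (px 0 (yA {0})) < px 0 (yS A)
    rw [actX_fbpow, not_lt]
    exact ((px_lt _ _ _ _).2 (Or.inl (by omega))).le
  · intro A e he
    obtain ⟨e', h1, h2⟩ := between_below (Nat.succ '' A) e.1 he
    exact ⟨e', h2, h1⟩
  · intro A e he
    have h1 : px 0 (yS A) ≤ e.1 := not_lt.1 he
    have h2 : px 0 (yS A) ≠ e.1 := by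
      intro h3
      obtain ⟨g, hg⟩ := e.2
      exact yS_not_mem A g (hg.trans h3.symm)
    obtain ⟨e', h3, h4⟩ := between_above (Nat.succ '' A) e.1 (lt_of_le_of_ne h1 h2)
    exact ⟨e', not_lt.2 (le_of_lt h3), h4⟩

end Pool.Agent.AllSurf
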