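import Pool.Agent.Lib.MP_7f477e_gt.MDefs
import Pool.Agent.Lib.MP_7f477e_gt.Iface

/-!
# MP_7f477e_gt, part E: the ordered coset space

`FF` (free group on `a`, `b`) acts on `Xl = ℤ ×ₗ Yl`: `b (n, y) = (n + 1, y)`,
`a (n, y) = (n, alw (-n) y)`. So `b^n a b^-n` acts on the block `0` as `alw n`. `th : FreeGroup ℕ →* FF`
is the homomorphism with `th w (0, y) = (0, w y)`.
-/

set_option autoImplicit false

namespace Pool.Agent.AllSurf

/-- `gL`, `gR` in the letters `z_0`, `z_1` -/
def zL : FreeGroup ℕ := zz 0 * (zz 1)⁻¹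
def zR : FreeGroup ℕ := (zz 0)⁻¹ * (zz 1)⁻¹

/-- binary words in `zL`, `zR` -/
def wordZ : List Bool → FreeGroup ℕ
  | [] => 1
  | false :: l => zL * wordZ l
  | true :: l => zR * wordZ l

noncomputable section

/-- the automorphism `alw n` by which `b^n a b^-n` acts on the block `0` -/
def alw : ℤ → FreeGroup ℕ
  | Int.ofNat 0 => zz 0
  | Int.ofNat (j + 1) => (wordZ (pairE j).1)⁻¹ * xx (j + 1) * wordZ (pairE j).2
  | Int.negSucc 0 => (xx 0)⁻¹ * zz 0
  | Int.negSucc (k + 1) => zz (k + 1)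

/-- the ordered space on which `FF` acts -/
abbrev Xl : Type := ℤ ×ₗ Yl

/-- the point `y` of block `n` -/
def px (n : ℤ) (y : Yl) : Xl := toLex (n, y)

theorem px_lt (n m : ℤ) (y z : Yl) : px n y < px m z ↔ n < m ∨ n = m ∧ y < z := by
  unfold px; rw [Prod.Lex.toLex_lt_toLex]

theorem px_le (n m : ℤ) (y z : Yl) : px n y ≤ px m z ↔ n < m ∨ n = m ∧ y ≤ z := by
  unfold px; rw [Prod.Lex.toLex_le_toLex]

theorem px_inj {n m : ℤ} {y z : Yl} : px n y = px m z ↔ n = m ∧ y = z := by
  unfold px; rw [toLex_inj, Prod.mk_inj]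

theorem exists_px (x : Xl) : ∃ n y, x = px n y := ⟨(ofLex x).1, (ofLex x).2, rfl⟩

/-- a map which acts on block `n` by `f n` and shifts the blocks by `s` -/
def blockIso (s : ℤ) (f : ℤ → (Yl ≃o Yl)) : Xl ≃o Xl where
  toFun x := px ((ofLex x).1 + s) (f (ofLex x).1 (ofLex x).2)
  invFun x := px ((ofLex x).1 - s) ((f ((ofLex x).1 - s)).symm (ofLex x).2)
  left_inv x := by
    obtain ⟨n, y, rfl⟩ := exists_px x
    show px (n + s - s) ((f (n + s - s)).symm (f n y)) = px n y
    rw [add_sub_cancel_right, OrderIso.symm_apply_apply]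
  right_inv x := by
    obtain ⟨n, y, rfl⟩ := exists_px x
    show px (n - s + s) (f (n - s) ((f (n - s)).symm y)) = px n y
    rw [sub_add_cancel, OrderIso.apply_symm_apply]
  map_rel_iff' := by
    intro x x'
    obtain ⟨n, y, rfl⟩ := exists_px x
    obtain ⟨n', y', rfl⟩ := exists_px x'
    show px (n + s) (f n y) ≤ px (n' + s) (f n' y') ↔ px n y ≤ px n' y'
    rw [px_le, px_le]
    constructor
    · rintro (h | ⟨h, h2⟩)
      · left; omega
      · have : n = n' := by omega
        subst this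
        right; exact ⟨rfl, (f n).le_iff_le.1 h2⟩
    · rintro (h | ⟨rfl, h2⟩)
      · left; omega
      · right; exact ⟨rfl, (f n).le_iff_le.2 h2⟩

/-- the action of `a` -/
def aX : Xl ≃o Xl := blockIso 0 (fun n => actM (alw (-n)))

/-- the action of `b` -/
def bX : Xl ≃o Xl := blockIso 1 (fun _ => 1)

/-- the action of `FF` on `Xl` -/
def actX : FF →* (Xl ≃o Xl) := FreeGroup.lift ![aX, bX]

theorem actX_mul (f g : FF) (x : Xl) : actX (f * g) x = actX f (actX g x) := by
  rw [map_mul]; rfl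

theorem actX_one (x : Xl) : actX 1 x = x := by rw [map_one]; rfl

theorem actX_fa (n : ℤ) (y : Yl) : actX fa (px n y) = px n (actM (alw (-n)) y) := by
  have : actX fa = aX := by simp [actX, fa]
  rw [this]
  show px (n + 0) _ = _
  rw [add_zero]; rfl

theorem actX_fb (n : ℤ) (y : Yl) : actX fb (px n y) = px (n + 1) y := by
  have : actX fb = bX := by simp [actX, fb]
  rw [this]
  rfl

/-- the exponent of `b` -/
def bexp : FF →* Multiplicative ℤ := FreeGroup.lift ![1, Multiplicative.ofAdd 1]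

theorem bexp_fa : bexp fa = 1 := by simp [bexp, fa]

theorem bexp_fb : bexp fb = Multiplicative.ofAdd 1 := by simp [bexp, fb]

/-- images of the letters under `th` -/
def thl (g : ℕ) : FF :=
  if g % 2 = 0 then (if g = 0 then fa else fb⁻¹ ^ (g / 2 + 1) * fa * fb ^ (g / 2 + 1))
  else (if g = 1 then fc else chord ((g - 3) / 2))

/-- the homomorphism `th` with `th w (0, y) = (0, w y)` -/
def th : FreeGroup ℕ →* FF := FreeGroup.lift thl

theorem th_zz0 : th (zz 0) = fa := by simp [th, zz, thl]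

theorem th_zz (k : ℕ) : th (zz (k + 1)) = fb⁻¹ ^ (k + 2) * fa * fb ^ (k + 2) := by
  have h1 : 2 * (k + 1) % 2 = 0 := by omega
  have h2 : 2 * (k + 1) ≠ 0 := by omega
  have h3 : 2 * (k + 1) / 2 + 1 = k + 2 := by omega
  simp only [th, zz, FreeGroup.lift_apply_of, thl]
  rw [if_pos h1, if_neg h2, h3]

theorem th_xx0 : th (xx 0) = fc := by simp [th, xx, thl]

theorem th_xx (j : ℕ) : th (xx (j + 1)) = chord j := by
  have h1 : ¬ (2 * (j + 1) + 1) % 2 = 0 := by omega
  have h2 : 2 * (j + 1) + 1 ≠ 1 := by omega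
  have h3 : (2 * (j + 1) + 1 - 3) / 2 = j := by omega
  simp only [th, xx, FreeGroup.lift_apply_of, thl]
  rw [if_neg h1, if_neg h2, h3]

/-- the base point -/
def ee0 : Xl := px 0 (yA {0})

/-- the orbit of the base point -/
def EE : Type := {x : Xl // ∃ f : FF, actX f ee0 = x}

instance : LinearOrder EE := inferInstanceAs (LinearOrder {x : Xl // ∃ f : FF, actX f ee0 = x})

/-- the base point of `EE` -/
def e0 : EE := ⟨ee0, 1, actX_one _⟩

/-- one element of the action of `FF` on `EE` -/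
def actEf (f : FF) : EE ≃o EE where
  toFun x := ⟨actX f x.1, by
    obtain ⟨g, hg⟩ := x.2
    exact ⟨f * g, by rw [actX_mul, hg]⟩⟩
  invFun x := ⟨actX f⁻¹ x.1, by
    obtain ⟨g, hg⟩ := x.2
    exact ⟨f⁻¹ * g, by rw [actX_mul, hg]⟩⟩
  left_inv x := by
    apply Subtype.ext
    show actX f⁻¹ (actX f x.1) = x.1
    rw [← actX_mul, inv_mul_cancel, actX_one]
  right_inv x := by
    apply Subtype.ext
    show actX f (actX f⁻¹ x.1) = x.1
    rw [← actX_mul, mul_inv_cancel, actX_one]
  map_rel_iff' := by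
    intro x y
    exact (actX f).le_iff_le (x := x.1) (y := y.1)

/-- the action of `FF` on `EE` -/
def actE : FF →* (EE ≃o EE) where
  toFun := actEf
  map_one' := by
    ext x
    exact Subtype.ext (actX_one x.1)
  map_mul' f g := by
    ext x
    exact Subtype.ext (actX_mul f g x.1)

theorem actE_val (f : FF) (e : EE) : (actE f e).1 = actX f e.1 := rfl

/-- the point `y_A` with the indices shifted by one (so that `0` is not in the set) -/
def yS (A : Set ℕ) : Yl := yA (Nat.succ '' A)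

/-- the cut of `EE` at the point `(0, y_A)` -/
def cutE (A : Set ℕ) : Set EE := {e | e.1 < px 0 (yS A)}

end

/-- The combinatorial input of part R: a countable dense linear order without end points with an action
of `FF` such that the stabiliser of `e0` is generated by `c = fc`, `c` acts freely elsewhere, and cuts
with stabiliser `KF A`. -/
structure OrbData where
  E : Type
  ord : LinearOrder E
  cnt : Countable E
  dns : DenselyOrdered E
  nomax : NoMaxOrder E
  nomin : NoMinOrder E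
  act : FF →* (E ≃o E)
  o : E
  trans : ∀ e, ∃ g, act g o = e
  stab : ∀ g, act g o = o ↔ g ∈ Subgroup.zpowers fc
  free : ∀ (n : ℤ) (e : E), act (fc ^ n) e = e → n = 0 ∨ e = o
  cut : Set ℕ → Set E
  cut_lower : ∀ A, ∀ e ∈ cut A, ∀ e' < e, e' ∈ cut A
  cut_ne : ∀ A, (cut A).Nonempty
  cut_ne' : ∀ A, (cut A)ᶜ.Nonempty
  cut_nomax : ∀ A, ∀ e ∈ cut A, ∃ e' ∈ cut A, e < e'
  cut_nomin : ∀ A, ∀ e ∉ cut A, ∃ e' ∉ cut A, e' < e
  cut_stab : ∀ A g, act g '' cut A = cut A ↔ g ∈ KF A

end Pool.Agent.AllSurf
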