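import Pool.Agent.Lib.MP_7f477e_gt.Stmt

/-!
# MP_7f477e_gt, FOL: suspension data

A group `A` acts on the hyperbolic plane by orientation preserving isometries (`a`) and on the real
line by homeomorphisms (`b`); the diagonal action on `X = ℍ × ℝ` is free, properly discontinuous
and cocompact. `M = X / A`.
-/

set_option autoImplicit false

open Set Topology UpperHalfPlane
open scoped MatrixGroups

namespace Pool.Agent.AllSurf

/-- Input of the suspension construction. -/
structure SuspData where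
  A : Type
  grp : Group A
  a : A →* (ℍ ≃ᵢ ℍ)
  b : A →* (ℝ ≃ₜ ℝ)
  orient : ∀ g : A, ∃ m : SL(2, ℝ), ∀ z : ℍ, a g z = m • z
  free : ∀ (g : A) (z : ℍ) (t : ℝ), a g z = z → b g t = t → g = 1
  finite : ∀ K : Set (ℍ × ℝ), IsCompact K →
    {g : A | ((fun x : ℍ × ℝ => (a g x.1, b g x.2)) '' K ∩ K).Nonempty}.Finite
  cocompact : ∃ K : Set (ℍ × ℝ), IsCompact K ∧ ∀ x : ℍ × ℝ, ∃ g : A, (a g x.1, b g x.2) ∈ K

noncomputable section

namespace SuspData

variable (S : SuspData)

instance : Group S.A := S.grp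

/-- the space `ℍ × ℝ` on which `A` acts diagonally (a type synonym) -/
def X (_ : SuspData) : Type := ℍ × ℝ

instance : TopologicalSpace S.X := inferInstanceAs (TopologicalSpace (ℍ × ℝ))
instance : T2Space S.X := inferInstanceAs (T2Space (ℍ × ℝ))
instance : LocallyCompactSpace S.X := inferInstanceAs (LocallyCompactSpace (ℍ × ℝ))
instance : SecondCountableTopology S.X := inferInstanceAs (SecondCountableTopology (ℍ × ℝ))
instance : ConnectedSpace S.X := inferInstanceAs (ConnectedSpace (ℍ × ℝ))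

/-- the pair `(z, y)` as a point of `X` -/
def pt (z : ℍ) (y : ℝ) : S.X := (z, y)

theorem continuous_pt : Continuous (fun p : ℍ × ℝ => S.pt p.1 p.2) := continuous_id

instance : MulAction S.A S.X where
  smul g x := (S.a g x.1, S.b g x.2)
  one_smul x := by
    show (S.a 1 x.1, S.b 1 x.2) = x
    rw [map_one, map_one]; rfl
  mul_smul g h x := by
    show (S.a (g * h) x.1, S.b (g * h) x.2) = (S.a g (S.a h x.1), S.b g (S.b h x.2))
    rw [map_mul, map_mul]; rfl

@[simp] theorem smul_pt (g : S.A) (z : ℍ) (y : ℝ) : g • S.pt z y = S.pt (S.a g z) (S.b g y) := rfl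

theorem pt_inj {z z' : ℍ} {y y' : ℝ} : S.pt z y = S.pt z' y' ↔ z = z' ∧ y = y' := Prod.mk_inj

theorem exists_pt (x : S.X) : ∃ z y, x = S.pt z y := ⟨x.1, x.2, rfl⟩

/-- the quotient -/
def M : Type := MulAction.orbitRel.Quotient S.A S.X

instance : TopologicalSpace S.M :=
  inferInstanceAs (TopologicalSpace (MulAction.orbitRel.Quotient S.A S.X))

/-- the class of `(z, y)` -/
def cls (z : ℍ) (y : ℝ) : S.M := Quotient.mk (MulAction.orbitRel S.A S.X) (S.pt z y)

theorem exists_cls (x : S.M) : ∃ z y, x = S.cls z y := by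
  obtain ⟨⟨z, y⟩, rfl⟩ := Quotient.exists_rep x
  exact ⟨z, y, rfl⟩

theorem cls_eq_cls {z z' : ℍ} {y y' : ℝ} :
    S.cls z y = S.cls z' y' ↔ ∃ g : S.A, S.a g z = z' ∧ S.b g y = y' := by
  refine Iff.trans (Quotient.eq (r := MulAction.orbitRel S.A S.X)) ?_
  rw [MulAction.orbitRel_apply, MulAction.mem_orbit_iff]
  constructor
  · rintro ⟨g, hg⟩
    rw [smul_pt, pt_inj] at hg
    refine ⟨g⁻¹, ?_, ?_⟩
    · rw [← hg.1, map_inv]; exact (S.a g).symm_apply_apply z'
    · rw [← hg.2, map_inv]; exact (S.b g).symm_apply_apply y'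
  · rintro ⟨g, h1, h2⟩
    refine ⟨g⁻¹, ?_⟩
    rw [smul_pt, pt_inj]
    refine ⟨?_, ?_⟩
    · rw [← h1, map_inv]; exact (S.a g).symm_apply_apply z
    · rw [← h2, map_inv]; exact (S.b g).symm_apply_apply y

/-- the quotient map from `ℍ × ℝ` -/
def q (x : ℍ × ℝ) : S.M := S.cls x.1 x.2

theorem exists_q (x : S.M) : ∃ w : ℍ × ℝ, x = S.q w := by
  obtain ⟨z, y, rfl⟩ := S.exists_cls x
  exact ⟨(z, y), rfl⟩

theorem q_eq_q {x y : ℍ × ℝ} :
    S.q x = S.q y ↔ ∃ g : S.A, S.a g x.1 = y.1 ∧ S.b g x.2 = y.2 := S.cls_eq_cls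

/-- the stabiliser of a point of the line -/
def stab (y : ℝ) : Subgroup S.A where
  carrier := {g | S.b g y = y}
  one_mem' := by show S.b 1 y = y; rw [map_one]; rfl
  mul_mem' := by
    intro g h hg hh
    show S.b (g * h) y = y
    rw [map_mul]
    show S.b g (S.b h y) = y
    rw [show S.b h y = y from hh]; exact hg
  inv_mem' := by
    intro g hg
    show S.b g⁻¹ y = y
    rw [map_inv]
    show (S.b g).symm y = y
    rw [Homeomorph.symm_apply_eq]; exact hg.symm

/-- the orbit relation on the hyperbolic plane of a subgroup of `A` -/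
def orb (B : Subgroup S.A) : Setoid ℍ where
  r z z' := ∃ g ∈ B, S.a g z = z'
  iseqv := {
    refl := fun z => ⟨1, B.one_mem, by rw [map_one]; rfl⟩
    symm := by
      rintro z z' ⟨g, hg, rfl⟩
      exact ⟨g⁻¹, B.inv_mem hg, by rw [map_inv]; exact (S.a g).symm_apply_apply z⟩
    trans := by
      rintro z z' z'' ⟨g, hg, rfl⟩ ⟨h, hh, rfl⟩
      exact ⟨h * g, B.mul_mem hh hg, by rw [map_mul]; rfl⟩ }

/-- the surface `ℍ / B` -/
def quo (B : Subgroup S.A) : Type := Quotient (S.orb B)

instance (B : Subgroup S.A) : TopologicalSpace (S.quo B) :=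
  inferInstanceAs (TopologicalSpace (Quotient (S.orb B)))

end SuspData

end

end Pool.Agent.AllSurf
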