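import Pool.Agent.Lib.MP_7f477e_gt.F00

/-!
# MP_7f477e_gt, F01: topology of the quotient `M = (ℍ × ℝ) / A`
-/

set_option autoImplicit false

open Set Topology UpperHalfPlane

namespace Pool.Agent.AllSurf.SuspData

variable (S : SuspData)

instance instContinuousConstSMul : ContinuousConstSMul S.A S.X where
  continuous_const_smul g := by
    have h : Continuous (fun x : ℍ × ℝ => ((S.a g x.1, S.b g x.2) : ℍ × ℝ)) :=
      ((S.a g).continuous.comp continuous_fst).prodMk ((S.b g).continuous.comp continuous_snd)
    exact h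

instance instProperlyDiscontinuousSMul : ProperlyDiscontinuousSMul S.A S.X where
  finite_disjoint_inter_image := by
    intro K L hK hL
    have h := S.finite (show Set (ℍ × ℝ) from (K ∪ L : Set S.X)) (hK.union hL)
    refine h.subset ?_
    rintro g ⟨x, ⟨y, hy, hyx⟩, hx⟩
    exact ⟨x, ⟨y, Or.inl hy, hyx⟩, Or.inr hx⟩

theorem F01_free {g : S.A} {x : S.X} (h : g • x = x) : g = 1 := by
  have h1 : (S.a g x.1, S.b g x.2) = ((x.1, x.2) : ℍ × ℝ) := h
  rw [Prod.mk_inj] at h1
  exact S.free g x.1 x.2 h1.1 h1.2

instance instIsCancelSMul : IsCancelSMul S.A S.X where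
  left_cancel' := by
    intro g x y h
    exact smul_left_cancel g h
  right_cancel' := by
    intro g h x hx
    have h1 : (h⁻¹ * g) • x = x := by
      rw [mul_smul, hx, inv_smul_smul]
    have h2 := S.F01_free h1
    rw [inv_mul_eq_one] at h2
    exact h2.symm

theorem isQuotientCoveringMap_cls :
    IsQuotientCoveringMap (Quotient.mk (MulAction.orbitRel S.A S.X)) S.A :=
  isQuotientCoveringMap_quotientMk_of_properlyDiscontinuousSMul

theorem t2Space : T2Space S.M :=
  inferInstanceAs (T2Space (Quotient (MulAction.orbitRel S.A S.X)))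

theorem secondCountable : SecondCountableTopology S.M :=
  ContinuousConstSMul.secondCountableTopology (Γ := S.A) (T := S.X)

theorem continuous_q : Continuous S.q := by
  have h : Continuous (Quotient.mk (MulAction.orbitRel S.A S.X)) := continuous_quotient_mk'
  exact h.comp S.continuous_pt

theorem F01_surjective_q : Function.Surjective S.q := by
  intro x
  obtain ⟨w, hw⟩ := S.exists_q x
  exact ⟨w, hw.symm⟩

theorem connectedSpace : ConnectedSpace S.M :=
  S.F01_surjective_q.connectedSpace S.continuous_q

theorem compactSpace : CompactSpace S.M := by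
  obtain ⟨K, hK, hK'⟩ := S.cocompact
  have h : S.q '' K = Set.univ := by
    ext x
    simp only [Set.mem_image, Set.mem_univ, iff_true]
    obtain ⟨w, rfl⟩ := S.exists_q x
    obtain ⟨g, hg⟩ := hK' w
    exact ⟨_, hg, S.q_eq_q.2 ⟨g, rfl, rfl⟩ |>.symm⟩
  refine ⟨?_⟩
  rw [← h]
  exact hK.image S.continuous_q

theorem isOpenMap_q : IsOpenMap S.q := by
  have h : IsOpenMap (Quotient.mk (MulAction.orbitRel S.A S.X)) :=
    isOpenMap_quotient_mk'_mul
  intro U hU
  exact h U hU

end Pool.Agent.AllSurf.SuspData
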