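import Pool.Agent.Lib.MP_7f477e_gt.F01

/-!
# MP_7f477e_gt, F02: charts
-/

set_option autoImplicit false

open Set Topology UpperHalfPlane

namespace Pool.Agent.AllSurf.SuspData

variable (S : SuspData)

theorem exists_radius (x : ℍ × ℝ) :
    ∃ r > 0, ∀ (g : S.A) (w w' : ℍ × ℝ), w ∈ Metric.ball x.1 r ×ˢ Set.Ioo (x.2 - r) (x.2 + r) →
      w' ∈ Metric.ball x.1 r ×ˢ Set.Ioo (x.2 - r) (x.2 + r) →
      S.a g w.1 = w'.1 → S.b g w.2 = w'.2 → g = 1 := by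
  obtain ⟨U, hU, hd⟩ := S.isQuotientCoveringMap_cls.disjoint (S.pt x.1 x.2)
  have h1 : (fun p : ℍ × ℝ => S.pt p.1 p.2) ⁻¹' U ∈ 𝓝 x :=
    S.continuous_pt.continuousAt.preimage_mem_nhds hU
  obtain ⟨u, hu, v, hv, huv⟩ := mem_nhds_prod_iff.1 h1
  obtain ⟨r1, hr1, h1⟩ := Metric.mem_nhds_iff.1 hu
  obtain ⟨r2, hr2, h2⟩ := Metric.mem_nhds_iff.1 hv
  have hsub : Metric.ball x.1 (min r1 r2) ×ˢ Set.Ioo (x.2 - min r1 r2) (x.2 + min r1 r2) ⊆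
      (fun p : ℍ × ℝ => S.pt p.1 p.2) ⁻¹' U := by
    refine Subset.trans ?_ huv
    rw [← Real.ball_eq_Ioo]
    exact Set.prod_mono ((Metric.ball_subset_ball (min_le_left _ _)).trans h1)
      ((Metric.ball_subset_ball (min_le_right _ _)).trans h2)
  refine ⟨min r1 r2, lt_min hr1 hr2, ?_⟩
  intro g w w' hw hw' hg1 hg2
  apply hd g
  refine ⟨S.pt w'.1 w'.2, ⟨S.pt w.1 w.2, hsub hw, ?_⟩, hsub hw'⟩
  show g • S.pt w.1 w.2 = _
  rw [smul_pt, hg1, hg2]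

theorem exists_chart (x : ℍ × ℝ) :
    ∃ f : OpenPartialHomeomorph S.M (ℍ × ℝ),
      (∃ r > 0, f.target = Metric.ball x.1 r ×ˢ Set.Ioo (x.2 - r) (x.2 + r)) ∧
      ∀ w ∈ f.target, f.symm w = S.q w := by
  obtain ⟨r, hr, h⟩ := S.exists_radius x
  have hinj : InjOn S.q (Metric.ball x.1 r ×ˢ Set.Ioo (x.2 - r) (x.2 + r)) := by
    intro w hw w' hw' he
    obtain ⟨g, h1, h2⟩ := S.q_eq_q.1 he
    have hg := h g w w' hw hw' h1 h2
    subst hg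
    rw [map_one] at h1 h2
    exact Prod.ext h1 h2
  have hopen : IsOpen (Metric.ball x.1 r ×ˢ Set.Ioo (x.2 - r) (x.2 + r)) :=
    Metric.isOpen_ball.prod isOpen_Ioo
  haveI : Nonempty (ℍ × ℝ) := ⟨x⟩
  let e := hinj.toPartialEquiv S.q (Metric.ball x.1 r ×ˢ Set.Ioo (x.2 - r) (x.2 + r))
  let f := OpenPartialHomeomorph.ofContinuousOpen e S.continuous_q.continuousOn S.isOpenMap_q hopen
  refine ⟨f.symm, ⟨r, hr, rfl⟩, ?_⟩
  intro w hw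
  rfl

end Pool.Agent.AllSurf.SuspData
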