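import Pool.Agent.Lib.MP_7f477e_gt.F02

/-!
# MP_7f477e_gt, F03: the foliation

`charts` = all open partial homeomorphisms `f` of `M` to `ℍ × ℝ` with target (ball) × (interval)
whose inverse is the restriction of `q`.

Key lemma `chart_q`: let `f` be a chart, `w0` with `q w0 ∈ f.source`. Then `v0 := f (q w0)` has
`q v0 = f.symm v0 = q w0`, so there is `g` with `a g w0.1 = v0.1`, `b g w0.2 = v0.2`. For `w` near `w0`
the point `v = (a g w.1, b g w.2)` is in the open set `f.target` and `q v = q w`, so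
`q w = f.symm v`, hence `q w ∈ f.source` and `f (q w) = v`.

`charts_compat`: for charts `f, f'` and `x` in both sources apply `chart_q` to `f'` and
`w0 = f x` (`q (f x) = x`), and pull back by `f` (`q (f y) = y` for `y ∈ f.source`); the Moebius
transformation comes from `S.orient`, `t = S.b g`.
-/

set_option autoImplicit false

open Set Topology UpperHalfPlane
open scoped MatrixGroups

namespace Pool.Agent.AllSurf.SuspData

variable (S : SuspData)

/-- the foliated charts -/
def charts : Set (OpenPartialHomeomorph S.M (ℍ × ℝ)) :=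
  {f | (∃ (c : ℍ) (r a b : ℝ), f.target = Metric.ball c r ×ˢ Set.Ioo a b) ∧
    ∀ w ∈ f.target, f.symm w = S.q w}

theorem chart_q {f : OpenPartialHomeomorph S.M (ℍ × ℝ)} (hf : f ∈ S.charts) {w0 : ℍ × ℝ}
    (h : S.q w0 ∈ f.source) :
    ∃ g : S.A, f (S.q w0) = (S.a g w0.1, S.b g w0.2) ∧
      ∀ᶠ w in 𝓝 w0, S.q w ∈ f.source ∧ f (S.q w) = (S.a g w.1, S.b g w.2) := by
  have hv0 : f (S.q w0) ∈ f.target := f.map_source h
  have hq0 : S.q (f (S.q w0)) = S.q w0 := by
    rw [← hf.2 _ hv0, f.left_inv h]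
  obtain ⟨g, hg1, hg2⟩ := S.q_eq_q.mp hq0.symm
  refine ⟨g, Prod.ext hg1.symm hg2.symm, ?_⟩
  have hcont : Continuous (fun w : ℍ × ℝ => (S.a g w.1, S.b g w.2)) :=
    ((S.a g).continuous.comp continuous_fst).prodMk ((S.b g).continuous.comp continuous_snd)
  have h1 : ∀ᶠ w in 𝓝 w0, (S.a g w.1, S.b g w.2) ∈ f.target := by
    refine hcont.continuousAt.eventually_mem ?_
    rw [show (S.a g w0.1, S.b g w0.2) = f (S.q w0) from Prod.ext hg1 hg2]
    exact f.open_target.mem_nhds hv0
  filter_upwards [h1] with w hw1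
  have hqw : S.q (S.a g w.1, S.b g w.2) = S.q w := (S.q_eq_q.mpr ⟨g, rfl, rfl⟩).symm
  have hsy : f.symm (S.a g w.1, S.b g w.2) = S.q w := by
    rw [hf.2 _ hw1, hqw]
  refine ⟨?_, ?_⟩
  · rw [← hsy]; exact f.map_target hw1
  · rw [← hsy]; exact f.right_inv hw1

theorem charts_cover (x : S.M) : ∃ f ∈ S.charts, x ∈ f.source := by
  obtain ⟨w, rfl⟩ := S.exists_q x
  obtain ⟨f, ⟨r, hr, ht⟩, hf⟩ := S.exists_chart w
  have hw : w ∈ f.target := by
    rw [ht]
    exact ⟨Metric.mem_ball_self hr, by constructor <;> linarith⟩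
  refine ⟨f, ⟨⟨w.1, r, w.2 - r, w.2 + r, ht⟩, hf⟩, ?_⟩
  rw [← hf w hw]
  exact f.map_target hw

theorem charts_compat : ∀ f ∈ S.charts, ∀ g ∈ S.charts, ∀ x : S.M, x ∈ f.source → x ∈ g.source →
    ∃ (k : ℝ → SL(2, ℝ)) (t : ℝ → ℝ), ∀ᶠ y in 𝓝 x, g y = (k (f y).2 • (f y).1, t (f y).2) := by
  intro f hf f' hf' x hx hx'
  have hqf : ∀ y ∈ f.source, S.q (f y) = y := by
    intro y hy
    rw [← hf.2 _ (f.map_source hy), f.left_inv hy]
  have h0 : S.q (f x) ∈ f'.source := by rw [hqf x hx]; exact hx'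
  obtain ⟨g, -, hev⟩ := S.chart_q hf' h0
  obtain ⟨m, hm⟩ := S.orient g
  refine ⟨fun _ => m, S.b g, ?_⟩
  have hev2 := (f.continuousAt hx).eventually hev
  filter_upwards [hev2, f.open_source.mem_nhds hx] with y hy hys
  have := hy.2
  rw [hqf y hys] at this
  rw [this, hm]

/-- the foliation by the images of the planes `ℍ × {y}` -/
def fol : HypFoliation S.M where
  charts := S.charts
  product := fun _ hf => hf.1
  cover := S.charts_cover
  compat := S.charts_compat

end Pool.Agent.AllSurf.SuspData
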