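import Pool.Agent.Lib.MP_7f477e_gt.F03

/-!
# MP_7f477e_gt, F04: the leaf relation is the orbit relation on the line

`→`: `Relation.EqvGen` induction; one plaque: `x = q (z, s)`, `x' = q (z', s)` with
`(z, s) = f x`, `(z', s) = f x'`, so both have the circle coordinate `s` up to the action.
`←`: `cls z' y' = cls (a g⁻¹ z') y` if `b g y = y'`; so it is enough that `cls z y`, `cls z' y` are in
one leaf: for fixed `y = (s : T)` the set of `z'` with `LeafRel (q (z, s)) (q (z', s))` is open and its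
complement is open, because for every `z₀` there is a chart `f` with `q (z₀, s) ∈ f.source`, by
`chart_q` the points `q (w, s)` for `w` near `z₀` are in the same plaque; `ℍ` is connected
(`IsPreconnected`, or `IsClopen.eq_univ`).
-/

set_option autoImplicit false

open Set Topology UpperHalfPlane

namespace Pool.Agent.AllSurf.SuspData

variable (S : SuspData)

theorem F04_q_apply {f : OpenPartialHomeomorph S.M (ℍ × ℝ)} (hf : f ∈ S.charts) {x : S.M}
    (hx : x ∈ f.source) : S.q (f x) = x := by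
  rw [← hf.2 _ (f.map_source hx), f.left_inv hx]

theorem F04_inv {g : S.A} {y y' : ℝ} (h : S.b g y = y') : S.b g⁻¹ y' = y := by
  rw [← h, map_inv]
  exact (S.b g).symm_apply_apply y

theorem F04_mul {g h : S.A} {y y' y'' : ℝ} (h1 : S.b g y = y') (h2 : S.b h y' = y'') :
    S.b (h * g) y = y'' := by
  rw [map_mul, ← h2, ← h1]
  rfl

theorem F04_forward {x x' : S.M} (h : S.fol.LeafRel x x') :
    ∀ (z z' : ℍ) (y y' : ℝ), x = S.cls z y → x' = S.cls z' y' → ∃ g : S.A, S.b g y = y' := by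
  induction h with
  | rel x x' h =>
    obtain ⟨f, hf, hx, hx', h2⟩ := h
    intro z z' y y' h3 h4
    have e1 : S.cls (f x).1 (f x).2 = S.cls z y := by
      rw [← h3]; exact S.F04_q_apply hf hx
    have e2 : S.cls (f x').1 (f x').2 = S.cls z' y' := by
      rw [← h4]; exact S.F04_q_apply hf hx'
    obtain ⟨g, -, hg⟩ := S.cls_eq_cls.mp e1
    obtain ⟨g', -, hg'⟩ := S.cls_eq_cls.mp e2
    rw [← h2] at hg'
    exact ⟨g' * g⁻¹, S.F04_mul (S.F04_inv hg) hg'⟩
  | refl x =>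
    intro z z' y y' h3 h4
    obtain ⟨g, -, hg⟩ := S.cls_eq_cls.mp (h3.symm.trans h4)
    exact ⟨g, hg⟩
  | symm x x' _ ih =>
    intro z z' y y' h3 h4
    obtain ⟨g, hg⟩ := ih z' z y' y h4 h3
    exact ⟨g⁻¹, S.F04_inv hg⟩
  | trans x x' x'' _ _ ih1 ih2 =>
    intro z z'' y y'' h3 h4
    obtain ⟨z', y', h5⟩ := S.exists_cls x'
    obtain ⟨g, hg⟩ := ih1 z z' y y' h3 h5
    obtain ⟨g', hg'⟩ := ih2 z' z'' y' y'' h5 h4
    exact ⟨g' * g, S.F04_mul hg hg'⟩

theorem F04_local (s : ℝ) (z0 : ℍ) :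
    ∀ᶠ w in 𝓝 z0, S.fol.LeafRel (S.q (z0, s)) (S.q (w, s)) := by
  obtain ⟨f, hf, hx⟩ := S.charts_cover (S.q (z0, s))
  obtain ⟨g, h1, h2⟩ := S.chart_q hf hx
  have hc : ContinuousAt (fun w : ℍ => ((w, s) : ℍ × ℝ)) z0 :=
    (continuous_id.prodMk continuous_const).continuousAt
  have h3 := hc.eventually h2
  filter_upwards [h3] with w hw
  refine Relation.EqvGen.rel _ _ ⟨f, hf, hx, hw.1, ?_⟩
  rw [h1, hw.2]

theorem F04_plane (y : ℝ) (z z' : ℍ) : S.fol.LeafRel (S.cls z y) (S.cls z' y) := by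
  obtain ⟨s, rfl⟩ : ∃ s, s = y := ⟨y, rfl⟩
  have hcl : IsClopen {w : ℍ | S.fol.LeafRel (S.q (z, s)) (S.q (w, s))} := by
    constructor
    · rw [← isOpen_compl_iff, isOpen_iff_mem_nhds]
      intro w hw
      filter_upwards [S.F04_local s w] with v hv hv'
      exact hw (Relation.EqvGen.trans _ _ _ hv' (Relation.EqvGen.symm _ _ hv))
    · rw [isOpen_iff_mem_nhds]
      intro w hw
      filter_upwards [S.F04_local s w] with v hv
      exact Relation.EqvGen.trans _ _ _ hw hv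
  have huniv := hcl.eq_univ ⟨z, Relation.EqvGen.refl _⟩
  have : z' ∈ {w : ℍ | S.fol.LeafRel (S.q (z, s)) (S.q (w, s))} := by
    rw [huniv]; exact Set.mem_univ _
  exact this

theorem leafRel_cls {z z' : ℍ} {y y' : ℝ} :
    S.fol.LeafRel (S.cls z y) (S.cls z' y') ↔ ∃ g : S.A, S.b g y = y' := by
  constructor
  · intro h
    exact S.F04_forward h z z' y y' rfl rfl
  · rintro ⟨g, hg⟩
    have h1 : S.cls z' y' = S.cls (S.a g⁻¹ z') y := by
      rw [S.cls_eq_cls]
      exact ⟨g⁻¹, rfl, S.F04_inv hg⟩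
    rw [h1]
    exact S.F04_plane y z _

theorem mem_leaf_iff {z : ℍ} {y : ℝ} {x : S.M} :
    S.fol.LeafRel (S.cls z y) x ↔ ∃ z' : ℍ, x = S.cls z' y := by
  constructor
  · intro h
    obtain ⟨z', y', rfl⟩ := S.exists_cls x
    obtain ⟨g, hg⟩ := S.leafRel_cls.mp h
    refine ⟨S.a g⁻¹ z', ?_⟩
    rw [S.cls_eq_cls]
    exact ⟨g⁻¹, rfl, S.F04_inv hg⟩
  · rintro ⟨z', rfl⟩
    exact S.F04_plane y z z'

end Pool.Agent.AllSurf.SuspData
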