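import Pool.Agent.Lib.MP_7f477e_gt.F04

/-!
# MP_7f477e_gt, F05: the foliation is complete, and minimal if all orbits on the line are dense

Complete: `p w = cls w y`, use `chart_q` (F03) at `(z, y)`, and `S.orient`.
Minimal: the leaf of `cls z y` contains the image of `ℍ × (orbit of y)` under the continuous
surjective map `q` (`Dense.prod`, `DenseRange`/`Dense.image`).
-/

set_option autoImplicit false

open Set Topology UpperHalfPlane

namespace Pool.Agent.AllSurf.SuspData

variable (S : SuspData)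

theorem complete_fol : S.fol.Complete := by
  intro x
  obtain ⟨z0, y, rfl⟩ := S.exists_cls x
  refine ⟨fun w => S.cls w y, ⟨z0, rfl⟩, ?_⟩
  intro z f hf hz
  obtain ⟨g, hg, hev⟩ := S.chart_q (f := f) hf (w0 := (z, y)) hz
  obtain ⟨m, hm⟩ := S.orient g
  refine ⟨m, ?_⟩
  have hc : Continuous (fun w : ℍ => ((w, y) : ℍ × ℝ)) := by fun_prop
  have h1 := (hc.tendsto z).eventually hev
  filter_upwards [h1] with w hw
  refine ⟨hw.1, ?_⟩
  have e1 : f (S.cls w y) = (S.a g w, S.b g y) := hw.2
  have e2 : f (S.cls z y) = (S.a g z, S.b g y) := hg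
  rw [e1]
  simp only [e2]
  rw [hm w]

theorem minimal_fol (h : ∀ y : ℝ, Dense {y' : ℝ | ∃ g : S.A, S.b g y = y'}) :
    S.fol.Minimal := by
  intro x
  obtain ⟨z, y, rfl⟩ := S.exists_cls x
  have hd : Dense ((univ : Set ℍ) ×ˢ {y' : ℝ | ∃ g : S.A, S.b g y = y'}) :=
    dense_univ.prod (h y)
  have hr : DenseRange S.q := by
    have hs : Function.Surjective S.q := by
      intro m
      obtain ⟨w, hw⟩ := S.exists_q m
      exact ⟨w, hw.symm⟩
    exact hs.denseRange
  have h2 := hr.dense_image S.continuous_q hd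
  refine h2.mono ?_
  rintro _ ⟨⟨z', y'⟩, ⟨_, hy'⟩, rfl⟩
  show S.fol.LeafRel (S.cls z y) (S.cls z' y')
  exact (S.leafRel_cls).2 hy'

end Pool.Agent.AllSurf.SuspData
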