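import Pool.Agent.Lib.MP_7f477e_gt.F04

/-!
# MP_7f477e_gt, F06: the leaf of `cls z y` is `ℍ / Stab y`

`j : ℍ → Leaf (cls z y)`, `j w = cls w y`, is surjective (`mem_leaf_iff`), and
`j w = j w' ↔ ∃ g ∈ stab y, a g w = w'` (`cls_eq_cls`). `j` is continuous for the leaf topology
(`continuous_induced_rng`, `continuous_generateFrom_iff`): the preimage of
`{x ∈ f.source | (f x).2 = s' ∧ (f x).1 ∈ V}` is open: at a point `w` of it
`chart_q` (F03) at `(w, y)` gives `f (q (w', y)) = (a g w', b g y)` for `w'` near `w`,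
the second coordinate is constant and the first is continuous. `j` is open: for `U ⊂ ℍ` open and
`w ∈ U` take a chart `f` from F02 (`exists_chart (w, y)`), with target `ball w r × Ioo ..`; the
plaque-open set `{x ∈ f.source | (f x).2 = y ∧ (f x).1 ∈ U}` contains `j w` and its points are
`q (f x) = q ((f x).1, y) ∈ j '' U`. Then the homeomorphism from the quotient
(`IsOpenQuotientMap`/`IsQuotientMap.homeomorph`, or by hand with `Quotient.lift`).
-/

set_option autoImplicit false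

open Set Topology UpperHalfPlane

namespace Pool.Agent.AllSurf.SuspData

variable (S : SuspData)

/-- the map from the hyperbolic plane to the leaf -/
noncomputable def F06_j (z : ℍ) (y : ℝ) (w : ℍ) : S.fol.Leaf (S.cls z y) :=
  ⟨S.cls w y, S.mem_leaf_iff.2 ⟨w, rfl⟩⟩

theorem F06_j_surj (z : ℍ) (y : ℝ) : Function.Surjective (S.F06_j z y) := by
  rintro ⟨p, hp⟩
  obtain ⟨z', rfl⟩ := S.mem_leaf_iff.1 hp
  exact ⟨z', rfl⟩

theorem F06_j_eq (z : ℍ) (y : ℝ) (w w' : ℍ) :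
    S.F06_j z y w = S.F06_j z y w' ↔ ∃ g ∈ S.stab y, S.a g w = w' := by
  constructor
  · intro h
    have h1 : S.cls w y = S.cls w' y := congrArg Subtype.val h
    obtain ⟨g, hg1, hg2⟩ := S.cls_eq_cls.1 h1
    exact ⟨g, hg2, hg1⟩
  · rintro ⟨g, hg, hw⟩
    exact Subtype.ext (S.cls_eq_cls.2 ⟨g, hw, hg⟩)

theorem F06_j_cont (z : ℍ) (y : ℝ) : Continuous (S.F06_j z y) := by
  refine continuous_induced_rng.2 (continuous_generateFrom_iff.2 ?_)
  rintro P ⟨f, hf, s', V, hV, rfl⟩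
  rw [isOpen_iff_mem_nhds]
  rintro w ⟨hw1, hw2, hw3⟩
  obtain ⟨g, ht2, ht4⟩ := S.chart_q hf (w0 := (w, y)) hw1
  have hsl : Filter.Tendsto (fun w' : ℍ => ((w', y) : ℍ × ℝ)) (𝓝 w) (𝓝 (w, y)) :=
    (Continuous.prodMk_left y).tendsto w
  have h1 := hsl.eventually ht4
  have hfw : f (S.cls w y) = (S.a g w, S.b g y) := ht2
  have h2 : ∀ᶠ w' in 𝓝 w, S.a g w' ∈ V := by
    have hVw : V ∈ 𝓝 (S.a g w) := by
      apply hV.mem_nhds
      have := hw3
      change (f (S.cls w y)).1 ∈ V at this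
      rw [hfw] at this
      exact this
    exact (S.a g).continuous.continuousAt.eventually hVw
  have h3 : S.b g y = s' := by
    have := hw2
    change (f (S.cls w y)).2 = s' at this
    rw [hfw] at this
    exact this
  filter_upwards [h1, h2] with w' hw' hV'
  have hfw' : f (S.cls w' y) = (S.a g w', S.b g y) := hw'.2
  refine ⟨hw'.1, ?_, ?_⟩
  · change (f (S.cls w' y)).2 = s'
    rw [hfw']
    exact h3
  · change (f (S.cls w' y)).1 ∈ V
    rw [hfw']
    exact hV'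

theorem F06_j_open (z : ℍ) (y : ℝ) : IsOpenMap (S.F06_j z y) := by
  intro U hU
  rw [isOpen_iff_forall_mem_open]
  rintro p ⟨w, hwU, rfl⟩
  obtain ⟨f, ⟨r, hr, htar⟩, hsymm⟩ := S.exists_chart (w, y)
  have hf : f ∈ S.charts := ⟨⟨w, r, y - r, y + r, htar⟩, hsymm⟩
  have hmem : ((w, y) : ℍ × ℝ) ∈ f.target := by
    rw [htar]
    exact ⟨Metric.mem_ball_self hr, by constructor <;> dsimp <;> linarith⟩
  refine ⟨(fun u : S.fol.Leaf (S.cls z y) => u.1) ⁻¹'
    {x | x ∈ f.source ∧ (f x).2 = y ∧ (f x).1 ∈ U}, ?_, ?_, ?_⟩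
  · rintro ⟨p, hp⟩ ⟨hp1, hp2, hp3⟩
    refine ⟨(f p).1, hp3, ?_⟩
    apply Subtype.ext
    change S.cls (f p).1 y = p
    have h1 : f.symm (f p) = S.q (f p) := hsymm _ (f.map_source hp1)
    have h2 : f.symm (f p) = p := f.left_inv hp1
    rw [← h2]
    conv_rhs => rw [h1]
    rw [h2]
    change S.cls (f p).1 y = S.cls (f p).1 (f p).2
    have hp2' : (f p).2 = y := hp2
    rw [hp2']
  · exact ⟨_, TopologicalSpace.isOpen_generateFrom_of_mem ⟨f, hf, y, U, hU, rfl⟩, rfl⟩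
  · have h1 : S.cls w y = f.symm (w, y) := (hsymm _ hmem).symm
    change S.cls w y ∈ {x | x ∈ f.source ∧ (f x).2 = y ∧ (f x).1 ∈ U}
    rw [h1]
    refine ⟨f.map_target hmem, ?_, ?_⟩
    · rw [f.right_inv hmem]
    · rw [f.right_inv hmem]
      exact hwU

theorem leaf_homeo (z : ℍ) (y : ℝ) :
    Nonempty (S.fol.Leaf (S.cls z y) ≃ₜ S.quo (S.stab y)) := by
  have hq : Topology.IsQuotientMap (S.F06_j z y) :=
    (S.F06_j_open z y).isQuotientMap (S.F06_j_cont z y) (S.F06_j_surj z y)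
  have hker : S.orb (S.stab y) = Setoid.ker (S.F06_j z y) := by
    ext w w'
    rw [Setoid.ker_def]
    exact (S.F06_j_eq z y w w').symm
  change Nonempty (S.fol.Leaf (S.cls z y) ≃ₜ Quotient (S.orb (S.stab y)))
  rw [hker]
  exact ⟨(Topology.IsQuotientMap.homeomorph
    (f := (⟨S.F06_j z y, S.F06_j_cont z y⟩ : C(ℍ, S.fol.Leaf (S.cls z y)))) hq).symm⟩

end Pool.Agent.AllSurf.SuspData
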