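import Pool.Agent.Lib.MP_7f477e_gt.F02

/-!
# MP_7f477e_gt, F07: `M` is a closed 3-manifold

`ℍ × ℝ` is homeomorphic to an open subset of `ℝ³` (`(z, s) ↦ (re z, im z, s)`): an open embedding,
`IsOpenEmbedding.toOpenPartialHomeomorph`; compose with the charts of F02.
-/

set_option autoImplicit false

open Set Topology UpperHalfPlane

namespace Pool.Agent.AllSurf

theorem exists_euclidean_chart :
    ∃ e : OpenPartialHomeomorph (ℍ × ℝ) (EuclideanSpace ℝ (Fin 3)), e.source = Set.univ := by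
  have hrank : Module.finrank ℝ (ℂ × ℝ) = Module.finrank ℝ (EuclideanSpace ℝ (Fin 3)) := by
    rw [Module.finrank_prod, Complex.finrank_real_complex, Module.finrank_self,
      finrank_euclideanSpace_fin]
  let L : (ℂ × ℝ) ≃L[ℝ] EuclideanSpace ℝ (Fin 3) := ContinuousLinearEquiv.ofFinrankEq hrank
  have h : IsOpenEmbedding (fun p : ℍ × ℝ => L ((p.1 : ℂ), p.2)) := by
    have h1 : IsOpenEmbedding (fun p : ℍ × ℝ => (((p.1 : ℂ), p.2) : ℂ × ℝ)) :=
      UpperHalfPlane.isOpenEmbedding_coe.prodMap IsOpenEmbedding.id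
    exact L.toHomeomorph.isOpenEmbedding.comp h1
  exact ⟨h.toOpenPartialHomeomorph _, rfl⟩

theorem SuspData.closedThreeManifold (S : SuspData) : ClosedThreeManifold S.M := by
  refine ⟨S.compactSpace, S.connectedSpace, S.t2Space, S.secondCountable, fun x => ?_⟩
  obtain ⟨w, rfl⟩ := S.exists_q x
  obtain ⟨f, ⟨r, hr, hf⟩, hq⟩ := S.exists_chart w
  obtain ⟨e, he⟩ := exists_euclidean_chart
  refine ⟨f.trans e, ?_⟩
  rw [OpenPartialHomeomorph.trans_source, he, preimage_univ, inter_univ]
  have hw : w ∈ f.target := by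
    rw [hf]
    exact ⟨Metric.mem_ball_self hr, by constructor <;> linarith⟩
  rw [← hq w hw]
  exact f.map_target hw

end Pool.Agent.AllSurf
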