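import Pool.Agent.Lib.MP_7f477e_gt.F05
import Pool.Agent.Lib.MP_7f477e_gt.F06
import Pool.Agent.Lib.MP_7f477e_gt.F07

/-!
# MP_7f477e_gt, F08: summary of the foliation part
-/

set_option autoImplicit false

open Set Topology UpperHalfPlane

namespace Pool.Agent.AllSurf

/-- The suspension: a closed 3-manifold with a complete minimal hyperbolic foliation, whose leaves
include all surfaces `ℍ / Stab y`. -/
theorem suspension (S : SuspData) (h : ∀ y : ℝ, Dense {y' : ℝ | ∃ g : S.A, S.b g y = y'}) :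
    ∃ (M : Type) (_ : TopologicalSpace M), ClosedThreeManifold M ∧
      ∃ F : HypFoliation M, F.Complete ∧ F.Minimal ∧
        ∀ y : ℝ, ∃ x : M, Nonempty (F.Leaf x ≃ₜ S.quo (S.stab y)) :=
  ⟨S.M, inferInstance, S.closedThreeManifold, S.fol, S.complete_fol, S.minimal_fol h, fun y =>
    ⟨S.cls UpperHalfPlane.I y, S.leaf_homeo UpperHalfPlane.I y⟩⟩

end Pool.Agent.AllSurf
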