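import Pool.Agent.Lib.MP_7f477e_gt.GDefs

/-!
G01: the hyperboloid model and reflections.
-/

open UpperHalfPlane

namespace Pool.Agent.AllSurf.Geo

theorem B_comm (u v : V) : B u v = B v u := by simp only [B]; ring

theorem B_add_left (u v w : V) : B (u + v) w = B u w + B v w := by
  simp only [B, Prod.fst_add, Prod.snd_add]; ring

theorem B_sub_left (u v w : V) : B (u - v) w = B u w - B v w := by
  simp only [B, Prod.fst_sub, Prod.snd_sub]; ring

theorem B_smul_left (c : ℝ) (u w : V) : B (c • u) w = c * B u w := by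
  simp only [B, Prod.smul_fst, Prod.smul_snd, smul_eq_mul]; ring

theorem B_add_right (u v w : V) : B u (v + w) = B u v + B u w := by
  simp only [B, Prod.fst_add, Prod.snd_add]; ring

theorem B_sub_right (u v w : V) : B u (v - w) = B u v - B u w := by
  simp only [B, Prod.fst_sub, Prod.snd_sub]; ring

theorem B_smul_right (c : ℝ) (u w : V) : B u (c • w) = c * B u w := by
  simp only [B, Prod.smul_fst, Prod.smul_snd, smul_eq_mul]; ring

theorem continuous_X : Continuous X := by
  have h1 : Continuous fun z : ℍ => z.re := UpperHalfPlane.continuous_re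
  have h2 : Continuous fun z : ℍ => z.im := UpperHalfPlane.continuous_im
  have h3 : ∀ z : ℍ, z.im ≠ 0 := fun z => z.im_ne_zero
  unfold X
  refine Continuous.prodMk ?_ (Continuous.prodMk ?_ ?_)
  · exact ((h1.pow 2).add (h2.pow 2) |>.add continuous_const).div (continuous_const.mul h2)
      (fun z => mul_ne_zero two_ne_zero (h3 z))
  · exact ((h1.pow 2).add (h2.pow 2) |>.sub continuous_const).div (continuous_const.mul h2)
      (fun z => mul_ne_zero two_ne_zero (h3 z))
  · exact h1.div h2 h3

theorem continuous_B (v : V) : Continuous fun z : ℍ => B (X z) v := by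
  have h := continuous_X
  unfold B
  exact (((continuous_fst.comp h).mul continuous_const).neg.add
    ((continuous_fst.comp (continuous_snd.comp h)).mul continuous_const)).add
    ((continuous_snd.comp (continuous_snd.comp h)).mul continuous_const)

/-- The distance of the upper half plane in terms of the form. -/
theorem cosh_dist_eq (z w : ℍ) : Real.cosh (dist z w) = -B (X z) (X w) := by
  have hz : z.im ≠ 0 := z.im_ne_zero
  have hw : w.im ≠ 0 := w.im_ne_zero
  rw [UpperHalfPlane.cosh_dist']
  simp only [B, X]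
  field_simp
  ring

theorem B_X_X (z : ℍ) : B (X z) (X z) = -1 := by
  have h := cosh_dist_eq z z
  rw [dist_self, Real.cosh_zero] at h
  linarith

theorem X_fst_pos (z : ℍ) : 0 < (X z).1 := by
  have hz : 0 < z.im := z.im_pos
  simp only [X]
  positivity

theorem X_sub_pos (z : ℍ) : 0 < (X z).1 - (X z).2.1 := by
  have hz : 0 < z.im := z.im_pos
  have h : (X z).1 - (X z).2.1 = (z.im)⁻¹ := by
    simp only [X]
    field_simp
    ring
  rw [h]
  positivity

/-- A vector of the sheet is in the image of X. -/
theorem X_unX {v : V} (h : B v v = -1) (h0 : 0 < v.1) : X (unX v) = v := by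
  obtain ⟨t, a, b⟩ := v
  simp only [B] at h
  simp only at h0
  have h1 : 0 < t - a := by
    by_contra hc
    push Not at hc
    nlinarith [sq_nonneg b, mul_self_nonneg (a - t), mul_nonneg h0.le h0.le]
  have h3 : (t - a) ≠ 0 := h1.ne'
  have h2 : (unX (t, a, b)).re = b / (t - a) ∧ (unX (t, a, b)).im = (t - a)⁻¹ := by
    unfold unX
    rw [dif_pos h1]
    exact ⟨rfl, rfl⟩
  have h4 : t ^ 2 = 1 + a ^ 2 + b ^ 2 := by nlinarith
  simp only [X, h2.1, h2.2, Prod.mk.injEq]
  refine ⟨?_, ?_, ?_⟩
  · field_simp
    nlinarith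
  · field_simp
    nlinarith
  · field_simp

theorem unX_X (z : ℍ) : unX (X z) = z := by
  have hz : 0 < z.im := z.im_pos
  have h1 : (X z).1 - (X z).2.1 = (z.im)⁻¹ := by
    simp only [X]
    field_simp
    ring
  have h2 := X_sub_pos z
  unfold unX
  rw [dif_pos h2]
  apply UpperHalfPlane.ext
  apply Complex.ext
  · change (X z).2.2 / ((X z).1 - (X z).2.1) = z.re
    rw [h1]
    simp only [X]
    field_simp
  · change ((X z).1 - (X z).2.1)⁻¹ = z.im
    rw [h1, inv_inv]

theorem X_injective : Function.Injective X := Function.LeftInverse.injective unX_X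

/-- Two unit timelike vectors, the first in the upper sheet, with negative product: the second is in the
upper sheet too. -/
theorem fst_pos_of_B_neg {v w : V} (hv : B v v = -1) (hw : B w w = -1) (h0 : 0 < v.1) (h : B v w < 0) :
    0 < w.1 := by
  obtain ⟨t, a, b⟩ := v
  obtain ⟨t', a', b'⟩ := w
  simp only [B] at *
  by_contra hc
  push Not at hc
  have h1 : t ^ 2 = 1 + a ^ 2 + b ^ 2 := by nlinarith
  have h2 : t' ^ 2 = 1 + a' ^ 2 + b' ^ 2 := by nlinarith
  have h3 : a * a' + b * b' < t * t' := by linarith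
  have h4 : t * t' ≤ 0 := mul_nonpos_of_nonneg_of_nonpos h0.le hc
  have h5 : (t * t') ^ 2 < (a * a' + b * b') ^ 2 := by
    nlinarith
  have h6 : (t * t') ^ 2 = (1 + a ^ 2 + b ^ 2) * (1 + a' ^ 2 + b' ^ 2) := by rw [mul_pow, h1, h2]
  nlinarith [sq_nonneg (a * b' - b * a'), sq_nonneg a, sq_nonneg b, sq_nonneg a', sq_nonneg b']

theorem B_rf_rf {n : V} (hn : B n n = 1) (v w : V) : B (rf n v) (rf n w) = B v w := by
  simp only [rf, B_sub_left, B_sub_right, B_smul_left, B_smul_right, hn, B_comm n w]
  ring

theorem rf_rf {n : V} (hn : B n n = 1) (v : V) : rf n (rf n v) = v := by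
  have h : B (v - (2 * B v n) • n) n = -B v n := by
    rw [B_sub_left, B_smul_left, hn]; ring
  simp only [rf]
  rw [h]
  module

theorem B_rf_left {n : V} (v w : V) : B (rf n v) w = B v w - 2 * B v n * B n w := by
  simp only [rf, B_sub_left, B_smul_left]

theorem B_rf_swap {n : V} (v w : V) : B (rf n v) w = B v (rf n w) := by
  simp only [rf, B_sub_left, B_smul_left, B_sub_right, B_smul_right, B_comm n w]
  ring

theorem rf_X_mem {n : V} (hn : B n n = 1) (z : ℍ) :
    B (rf n (X z)) (rf n (X z)) = -1 ∧ 0 < (rf n (X z)).1 := by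
  have h1 : B (rf n (X z)) (rf n (X z)) = -1 := by rw [B_rf_rf hn, B_X_X]
  refine ⟨h1, fst_pos_of_B_neg (B_X_X z) h1 (X_fst_pos z) ?_⟩
  rw [B_comm, B_rf_left, B_X_X, B_comm n]
  nlinarith [mul_self_nonneg (B (X z) n)]

/-- The reflection of the hyperbolic plane in the geodesic orthogonal to n. -/
noncomputable def refl (n : V) : ℍ ≃ᵢ ℍ :=
  if hn : B n n = 1 then
    { toFun := fun z => unX (rf n (X z))
      invFun := fun z => unX (rf n (X z))
      left_inv := fun z => by
        change unX (rf n (X (unX (rf n (X z))))) = z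
        rw [X_unX (rf_X_mem hn z).1 (rf_X_mem hn z).2, rf_rf hn, unX_X]
      right_inv := fun z => by
        change unX (rf n (X (unX (rf n (X z))))) = z
        rw [X_unX (rf_X_mem hn z).1 (rf_X_mem hn z).2, rf_rf hn, unX_X]
      isometry_toFun := Isometry.of_dist_eq fun z w => by
        have h1 := cosh_dist_eq (unX (rf n (X z))) (unX (rf n (X w)))
        rw [X_unX (rf_X_mem hn z).1 (rf_X_mem hn z).2, X_unX (rf_X_mem hn w).1 (rf_X_mem hn w).2, B_rf_rf hn,
          ← cosh_dist_eq] at h1
        have h2 := Real.cosh_strictMonoOn.injOn (Set.mem_Ici.2 dist_nonneg) (Set.mem_Ici.2 dist_nonneg) h1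
        exact h2 }
  else 1

theorem X_refl {n : V} (hn : B n n = 1) (z : ℍ) : X (refl n z) = rf n (X z) := by
  unfold refl
  rw [dif_pos hn]
  exact X_unX (rf_X_mem hn z).1 (rf_X_mem hn z).2

theorem refl_mul_self {n : V} (hn : B n n = 1) : refl n * refl n = 1 := by
  ext z : 1
  apply X_injective
  change X (refl n (refl n z)) = X z
  rw [X_refl hn, X_refl hn, rf_rf hn]

theorem refl_inv {n : V} (hn : B n n = 1) : (refl n)⁻¹ = refl n :=
  inv_eq_of_mul_eq_one_left (refl_mul_self hn)

/-- Conjugate of a reflection by a reflection. -/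
theorem refl_conj {m n : V} (hm : B m m = 1) (hn : B n n = 1) : refl m * refl n * refl m = refl (rf m n) := by
  have h : B (rf m n) (rf m n) = 1 := by rw [B_rf_rf hm, hn]
  ext z : 1
  apply X_injective
  change X (refl m (refl n (refl m z))) = X (refl (rf m n) z)
  rw [X_refl hm, X_refl hn, X_refl hm, X_refl h]
  have h1 : B (X z) (rf m n) = B (rf m (X z)) n := (B_rf_swap _ _).symm
  simp only [rf] at *
  rw [h1]
  set t := B (X z - (2 * B (X z) m) • m) n
  rw [B_sub_left, B_sub_left, B_smul_left, B_smul_left, hm]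
  module

end Pool.Agent.AllSurf.Geo
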