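import Pool.Agent.Lib.MP_7f477e_gt.G01

/-!
G02: inequalities of hyperbolic geometry (reverse Cauchy-Schwarz, Lipschitz property).
-/

open UpperHalfPlane

namespace Pool.Agent.AllSurf.Geo

/-- Reverse Cauchy-Schwarz inequality. -/
theorem B_X_le {y : V} {q : ℝ} (_hq : 0 < q) (hy : B y y = -q ^ 2) (h0 : 0 < y.1) (z : ℍ) :
    B (X z) y ≤ -q := by
  have h1 := B_X_X z
  have h2 := X_fst_pos z
  obtain ⟨t, a, b⟩ := y
  generalize X z = v at h1 h2 ⊢
  obtain ⟨s, c, d⟩ := v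
  simp only [B] at *
  have e1 : s ^ 2 = 1 + c ^ 2 + d ^ 2 := by nlinarith
  have e2 : t ^ 2 = q ^ 2 + a ^ 2 + b ^ 2 := by nlinarith
  have h : (c * a + d * b + q) ^ 2 ≤ (s * t) ^ 2 := by
    rw [mul_pow, e1, e2]
    nlinarith [sq_nonneg (c * b - d * a), sq_nonneg (a - q * c), sq_nonneg (b - q * d)]
  have := (abs_le_of_sq_le_sq' h (by positivity)).2
  linarith

/-- Two disjoint half planes: no point is near both. -/
theorem pair_sum {m n : V} (hm : B m m = 1) (hn : B n n = 1) {q : ℝ} (hq : 0 < q)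
    (h : 2 * B m n = -q ^ 2 - 2) (m0 : 0 < m.1) (n0 : 0 < n.1) (z : ℍ) :
    B (X z) m + B (X z) n ≤ -q := by
  rw [← B_add_right]
  refine B_X_le hq ?_ ?_ z
  · rw [B_add_left, B_add_right, B_add_right, hm, hn, B_comm n m]
    linarith
  · rw [Prod.fst_add]; linarith

theorem gram_ineq {v w n : V} (hv : B v v = -1) (hw : B w w = -1) (hn : B n n = 1) :
    1 + B v n ^ 2 + B w n ^ 2 ≤ B v w ^ 2 - 2 * B v w * B v n * B w n := by
  have key : (v.1 * (w.2.1 * n.2.2 - w.2.2 * n.2.1) - v.2.1 * (w.1 * n.2.2 - w.2.2 * n.1) +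
      v.2.2 * (w.1 * n.2.1 - w.2.1 * n.1)) ^ 2 =
      -(B v v * (B w w * B n n - B w n ^ 2) - B v w * (B v w * B n n - B w n * B v n) +
        B v n * (B v w * B w n - B w w * B v n)) := by
    simp only [B]; ring
  rw [hv, hw, hn] at key
  nlinarith [sq_nonneg (v.1 * (w.2.1 * n.2.2 - w.2.2 * n.2.1) - v.2.1 * (w.1 * n.2.2 - w.2.2 * n.1) +
      v.2.2 * (w.1 * n.2.1 - w.2.1 * n.1))]

/-- The signed distance to a geodesic grows at most with speed one. -/
theorem lip {n : V} (hn : B n n = 1) {z w : ℍ} (hz : B (X z) n ≤ 0) (hw : 0 ≤ B (X w) n) :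
    B (X w) n ≤ Real.sinh (dist z w) := by
  have h1 := gram_ineq (B_X_X z) (B_X_X w) hn
  have h2 := cosh_dist_eq z w
  have h3 : 0 < Real.cosh (dist z w) := Real.cosh_pos _
  have h4 := Real.cosh_sq (dist z w)
  have h5 : 0 ≤ Real.sinh (dist z w) := Real.sinh_nonneg_iff.2 dist_nonneg
  have h6 : B (X z) (X w) = -Real.cosh (dist z w) := by linarith
  rw [h6] at h1
  have h7 : B (X z) n * B (X w) n ≤ 0 := mul_nonpos_of_nonpos_of_nonneg hz hw
  have h8 : Real.cosh (dist z w) * (B (X z) n * B (X w) n) ≤ 0 :=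
    mul_nonpos_of_nonneg_of_nonpos h3.le h7
  have h9 : B (X w) n ^ 2 ≤ Real.sinh (dist z w) ^ 2 := by nlinarith [sq_nonneg (B (X z) n)]
  exact (abs_le_of_sq_le_sq' h9 h5).2

end Pool.Agent.AllSurf.Geo
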