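import Pool.Agent.Lib.MP_7f477e_gt.G02

/-!
G03: the right-angled octagon: Gram matrix of the normals.
-/

open UpperHalfPlane

namespace Pool.Agent.AllSurf.Geo

/-- The form on integer vectors. -/
def Bz (u v : ℤ × ℤ × ℤ) : ℤ := -(u.1 * v.1) + u.2.1 * v.2.1 + u.2.2 * v.2.2

theorem B_iv (k j : ZMod 8) : B (iv k) (iv j) = (Bz (iz k) (iz j) : ℝ) := by
  simp only [B, iv, Bz]; push_cast; ring

theorem nv_pos (k : ZMod 8) : 0 < nv k := by
  unfold nv
  split_ifs
  · norm_num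
  · exact Real.sqrt_pos.2 (by norm_num)

theorem nv_sq (k : ZMod 8) : nv k * nv k = if k.val % 2 = 0 then 9 else 7 := by
  unfold nv
  split_ifs
  · norm_num
  · exact Real.mul_self_sqrt (by norm_num)

theorem B_ev_ev (k j : ZMod 8) : B (ev k) (ev j) = (nv k)⁻¹ * (nv j)⁻¹ * (Bz (iz k) (iz j) : ℝ) := by
  unfold ev
  rw [B_smul_left, B_smul_right, B_iv]; ring

theorem iz_self : ∀ k : ZMod 8, Bz (iz k) (iz k) = if k.val % 2 = 0 then 9 else 7 := by decide

theorem iz_adj : ∀ k j : ZMod 8, (k = j + 1 ∨ k = j - 1) → Bz (iz k) (iz j) = 0 := by decide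

theorem iz_far : ∀ k j : ZMod 8, k ≠ j → k ≠ j + 1 → k ≠ j - 1 →
    -57 ≤ Bz (iz k) (iz j) ∧ Bz (iz k) (iz j) ≤ -16 := by decide

theorem ev_unit (k : ZMod 8) : B (ev k) (ev k) = 1 := by
  have h := (nv_pos k).ne'
  have h2 : (Bz (iz k) (iz k) : ℝ) = nv k * nv k := by
    rw [nv_sq, iz_self]; split_ifs <;> norm_num
  rw [B_ev_ev, h2]
  field_simp

theorem fv_unit (y : Letter) : B (fv y) (fv y) = 1 := by
  unfold fv
  split_ifs <;> simp [B]

theorem B_adj {k j : ZMod 8} (h : k = j + 1 ∨ k = j - 1) : B (ev k) (ev j) = 0 := by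
  rw [B_ev_ev, iz_adj k j h]; simp

theorem nv_bd (k : ZMod 8) : (1 / 3 : ℝ) ≤ (nv k)⁻¹ ∧ (nv k)⁻¹ ≤ 2 / 5 := by
  have h0 := nv_pos k
  have h := nv_sq k
  have h1 : nv k ≤ 3 := by
    split_ifs at h <;> nlinarith
  have h2 : 5 / 2 ≤ nv k := by
    split_ifs at h <;> nlinarith
  constructor
  · rw [one_div]; exact inv_anti₀ h0 h1
  · rw [show (2 / 5 : ℝ) = (5 / 2 : ℝ)⁻¹ by norm_num]; exact inv_anti₀ (by norm_num) h2

theorem B_far {k j : ZMod 8} (h0 : k ≠ j) (h1 : k ≠ j + 1) (h2 : k ≠ j - 1) :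
    -10 < B (ev k) (ev j) ∧ B (ev k) (ev j) ≤ -(16 / 9) := by
  have h := iz_far k j h0 h1 h2
  have h3 : (-57 : ℝ) ≤ (Bz (iz k) (iz j) : ℝ) ∧ (Bz (iz k) (iz j) : ℝ) ≤ -16 := by
    constructor
    · exact_mod_cast h.1
    · exact_mod_cast h.2
  have hk := nv_bd k
  have hj := nv_bd j
  rw [B_ev_ev]
  have h4 : 1 / 9 ≤ (nv k)⁻¹ * (nv j)⁻¹ := by nlinarith
  have h5 : (nv k)⁻¹ * (nv j)⁻¹ ≤ 4 / 25 := by nlinarith
  constructor <;> nlinarith

/-- A point is never near two sides that are not adjacent. -/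
theorem far_sum {k j : ZMod 8} (h0 : k ≠ j) (h1 : k ≠ j + 1) (h2 : k ≠ j - 1) (z : ℍ) :
    B (X z) (ev k) + B (X z) (ev j) ≤ -√(-2 * B (ev k) (ev j) - 2) := by
  have h3 := (B_far h0 h1 h2).2
  have hpos : ∀ k : ZMod 8, 0 < (ev k).1 := by
    intro k
    have h6 : ∀ k : ZMod 8, 0 < (iz k).1 := by decide
    have h7 : (0 : ℝ) < ((iz k).1 : ℝ) := by exact_mod_cast h6 k
    have h8 := nv_pos k
    simp only [ev, iv, Prod.smul_fst, smul_eq_mul]
    positivity
  refine pair_sum (ev_unit k) (ev_unit j) (Real.sqrt_pos.2 (by linarith)) ?_ (hpos k) (hpos j) z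
  rw [Real.sq_sqrt (by linarith)]
  ring

theorem ev_fst_pos (k : ZMod 8) : 0 < (ev k).1 := by
  have h6 : ∀ k : ZMod 8, 0 < (iz k).1 := by decide
  have h7 : (0 : ℝ) < ((iz k).1 : ℝ) := by exact_mod_cast h6 k
  have h8 := nv_pos k
  simp only [ev, iv, Prod.smul_fst, smul_eq_mul]
  positivity

/-- Simple form. -/
theorem far_sum' {k j : ZMod 8} (h0 : k ≠ j) (h1 : k ≠ j + 1) (h2 : k ≠ j - 1) (z : ℍ) :
    B (X z) (ev k) + B (X z) (ev j) ≤ -1 := by
  have h3 := (B_far h0 h1 h2).2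
  refine (far_sum h0 h1 h2 z).trans ?_
  rw [neg_le_neg_iff, Real.one_le_sqrt]
  linarith

/-- Form used for reflected points. -/
theorem far_refl {k j : ZMod 8} (h0 : k ≠ j) (h1 : k ≠ j + 1) (h2 : k ≠ j - 1) (z : ℍ)
    (hk : 0 ≤ B (X z) (ev k)) (hk' : B (X z) (ev k) ≤ 1 / 50) :
    B (X z) (ev j) < 0 ∧ -2 * B (ev k) (ev j) * B (X z) (ev k) ≤ -(1 / 2) * B (X z) (ev j) := by
  have h3 := B_far h0 h1 h2
  have h4 := far_sum' h0 h1 h2 z
  constructor
  · linarith
  · set b := -B (ev k) (ev j) with hb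
    have h5 := far_sum h0 h1 h2 z
    have h6 : -2 * B (ev k) (ev j) - 2 = 2 * b - 2 := by rw [hb]; ring
    rw [h6] at h5
    have h7 : 16 / 9 ≤ b ∧ b < 10 := ⟨by linarith [h3.2], by linarith [h3.1]⟩
    have h8 : b * (2 / 25) ≤ √(2 * b - 2) := by
      apply Real.le_sqrt_of_sq_le
      nlinarith [h7.1, h7.2]
    have h9 : -2 * B (ev k) (ev j) * B (X z) (ev k) ≤ b * (1 / 25) := by
      have : -2 * B (ev k) (ev j) = 2 * b := by rw [hb]; ring
      rw [this]
      nlinarith [h7.1]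
    linarith

theorem X_I : X UpperHalfPlane.I = (1, 0, 0) := by
  simp [X]

theorem I_mem (k : ZMod 8) : B (X UpperHalfPlane.I) (ev k) < 0 := by
  rw [X_I]
  have := ev_fst_pos k
  simp only [B]
  linarith

theorem iz_tau : ∀ y : Letter, ∀ k : ZMod 8, iz (tau y k) =
    if y.1 = 0 then ((iz k).1, -(iz k).2.1, (iz k).2.2) else ((iz k).1, (iz k).2.1, -(iz k).2.2) := by
  decide

theorem nv_tau (y : Letter) (k : ZMod 8) : nv (tau y k) = nv k := by
  have h : ∀ y : Letter, ∀ k : ZMod 8, (tau y k).val % 2 = k.val % 2 := by decide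
  unfold nv
  rw [h]

/-- The dihedral reflections permute the normals. -/
theorem rf_fv_ev (y : Letter) (k : ZMod 8) : rf (fv y) (ev k) = ev (tau y k) := by
  have h := iz_tau y k
  unfold ev
  rw [nv_tau]
  have h2 : iv (tau y k) = rf (fv y) (iv k) := by
    simp only [iv, h, rf, fv]
    split_ifs
    · ext <;> simp [B]; ring
    · ext <;> simp [B]; ring
  rw [h2]
  simp only [rf, B_smul_left]
  module

theorem X_fst_refl_fv (y : Letter) (z : ℍ) : (X (refl (fv y) z)).1 = (X z).1 := by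
  rw [X_refl (fv_unit y)]
  unfold rf fv
  split_ifs <;> simp

theorem isClosed_P : IsClosed P := by
  have : P = ⋂ k, {z : ℍ | B (X z) (ev k) ≤ 0} := by ext z; simp [P]
  rw [this]
  exact isClosed_iInter fun k => isClosed_le (continuous_B _) continuous_const

theorem isClosed_R0 : IsClosed R0 := by
  have : R0 = ⋂ y, {z : ℍ | B (X z) (ev (pos y)) ≤ 0} := by ext z; simp [R0]
  rw [this]
  exact isClosed_iInter fun k => isClosed_le (continuous_B _) continuous_const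

theorem P_sub_R0 : P ⊆ R0 := fun _ h y => h (pos y)

theorem B_iv_nonpos {z : ℍ} (hz : z ∈ P) (k : ZMod 8) : B (X z) (iv k) ≤ 0 := by
  have h := hz k
  unfold ev at h
  rw [B_smul_right] at h
  have h2 := inv_pos.2 (nv_pos k)
  by_contra hc
  push Not at hc
  nlinarith [mul_pos h2 hc]

theorem P_fst {z : ℍ} (hz : z ∈ P) : (X z).1 ≤ 3 := by
  have hX := B_X_X z
  have h0 := B_iv_nonpos hz 0
  have h1 := B_iv_nonpos hz 1
  have h2 := B_iv_nonpos hz 2
  have h3 := B_iv_nonpos hz 3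
  have h4 := B_iv_nonpos hz 4
  have h5 := B_iv_nonpos hz 5
  have h6 := B_iv_nonpos hz 6
  have h7 := B_iv_nonpos hz 7
  have ht := X_fst_pos z
  generalize X z = v at *
  obtain ⟨t, x, y⟩ := v
  simp only [B, iv, iz] at *
  norm_num at *
  have key : ∀ a b : ℝ, 0 ≤ a → 0 ≤ b → 5 * a ≤ 4 * t → 5 * b ≤ 4 * t → 4 * a + 4 * b ≤ 5 * t →
      a ^ 2 + b ^ 2 ≤ 8425 / 10000 * t ^ 2 := by
    intro a b ha hb h1 h2 h3
    rcases le_total (45 / 100 * t) a with h | h
    · have e1 : b ^ 2 ≤ (5 / 4 * t - a) ^ 2 := by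
        apply pow_le_pow_left₀ hb; linarith
      nlinarith [mul_nonneg (by linarith : (0:ℝ) ≤ 4 / 5 * t - a) (by linarith : (0:ℝ) ≤ a - 45 / 100 * t)]
    · have e1 : a ^ 2 ≤ (45 / 100 * t) ^ 2 := pow_le_pow_left₀ ha h 2
      have e2 : b ^ 2 ≤ (4 / 5 * t) ^ 2 := pow_le_pow_left₀ hb (by linarith) 2
      nlinarith
  have h9 := key |x| |y| (abs_nonneg _) (abs_nonneg _)
    (by rcases abs_cases x with h | h <;> linarith) (by rcases abs_cases y with h | h <;> linarith)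
    (by rcases abs_cases x with h | h <;> rcases abs_cases y with h' | h' <;> linarith)
  rw [sq_abs, sq_abs] at h9
  nlinarith

/-- The octagon is compact. -/
theorem isCompact_P : IsCompact P := by
  refine (isCompact_closedBall UpperHalfPlane.I 3).of_isClosed_subset isClosed_P ?_
  intro z hz
  rw [Metric.mem_closedBall]
  by_contra hc
  push Not at hc
  have h1 := cosh_dist_eq z UpperHalfPlane.I
  have h2 : -B (X z) (X UpperHalfPlane.I) = (X z).1 := by
    rw [X_I]; simp only [B]; ring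
  rw [h2] at h1
  have h3 := P_fst hz
  have h4 : (3 : ℝ) < Real.cosh 3 := by
    have e1 : (2 : ℝ) ^ 3 ≤ Real.exp 3 := by
      have : Real.exp 3 = Real.exp 1 ^ 3 := by rw [← Real.exp_nat_mul]; norm_num
      rw [this]
      exact pow_le_pow_left₀ (by norm_num) (by linarith [Real.exp_one_gt_d9]) 3
    rw [Real.cosh_eq]
    have e2 := Real.exp_pos (-3)
    have e3 : (6 : ℝ) < 2 ^ 3 := by norm_num
    linarith
  have h5 : Real.cosh 3 < Real.cosh (dist z UpperHalfPlane.I) := by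
    rw [Real.cosh_lt_cosh, abs_of_pos (by norm_num), abs_of_nonneg dist_nonneg]; exact hc
  linarith

end Pool.Agent.AllSurf.Geo
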