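import Pool.Agent.Lib.MP_7f477e_gt.G03

/-!
G04: the side pairings and the Schottky representation.
-/

open UpperHalfPlane

namespace Pool.Agent.AllSurf.Geo

/-- The side pairing of the letter y: it maps side pos (bar y) to side pos y and the octagon to the tile
beyond side pos y. -/
noncomputable def G (y : Letter) : ℍ ≃ᵢ ℍ := refl (ev (pos y)) * refl (fv y)

theorem bar_bar (y : Letter) : bar (bar y) = y := by
  obtain ⟨i, b⟩ := y; simp [bar]

theorem fv_bar (y : Letter) : fv (bar y) = fv y := by simp [fv, bar]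

theorem tau_bar (y : Letter) (k : ZMod 8) : tau (bar y) k = tau y k := by simp [tau, bar_bar, add_comm]

theorem tau_tau (y : Letter) (k : ZMod 8) : tau y (tau y k) = k := by simp [tau]

theorem tau_pos (y : Letter) : tau y (pos y) = pos (bar y) := by
  rw [tau]; ring

theorem tau_pos_bar (y : Letter) : tau y (pos (bar y)) = pos y := by
  rw [tau]; ring

theorem pos_inj : Function.Injective pos := by decide

/-- Two different even sides are not adjacent. -/
theorem pos_far {y y' : Letter} (h : y ≠ y') : pos y ≠ pos y' ∧ pos y ≠ pos y' + 1 ∧ pos y ≠ pos y' - 1 := by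
  revert y y'; decide

theorem refl_fv_ev (y : Letter) (k : ZMod 8) (z : ℍ) :
    B (X (refl (fv y) z)) (ev k) = B (X z) (ev (tau y k)) := by
  rw [X_refl (fv_unit _), B_rf_swap, rf_fv_ev]

theorem refl_ev (j k : ZMod 8) (z : ℍ) :
    B (X (refl (ev j) z)) (ev k) = B (X z) (ev k) - 2 * B (ev j) (ev k) * B (X z) (ev j) := by
  rw [X_refl (ev_unit _), B_rf_left]; ring

theorem refl_ev_self (j : ZMod 8) (z : ℍ) : B (X (refl (ev j) z)) (ev j) = -B (X z) (ev j) := by
  rw [refl_ev, ev_unit]; ring

/-- Main formula. -/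
theorem B_G (y : Letter) (k : ZMod 8) (z : ℍ) :
    B (X (G y z)) (ev k) =
      B (X z) (ev (tau y k)) - 2 * B (ev (pos y)) (ev k) * B (X z) (ev (pos (bar y))) := by
  change B (X (refl (ev (pos y)) (refl (fv y) z))) (ev k) = _
  rw [refl_ev, refl_fv_ev, refl_fv_ev, tau_pos]

theorem B_G_pos (y : Letter) (z : ℍ) : B (X (G y z)) (ev (pos y)) = -B (X z) (ev (pos (bar y))) := by
  rw [B_G, tau_pos, ev_unit]; ring

theorem B_G_adj {y : Letter} {k : ZMod 8} (h : k = pos y + 1 ∨ k = pos y - 1) (z : ℍ) :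
    B (X (G y z)) (ev k) = B (X z) (ev (tau y k)) := by
  rw [B_G, B_comm (ev (pos y)), B_adj h]; ring

/-- Conjugating a reflection in a side adjacent to pos y. -/
theorem G_refl {y : Letter} {k : ZMod 8} (h : k = pos y + 1 ∨ k = pos y - 1) :
    G y * refl (ev (tau y k)) = refl (ev k) * G y := by
  ext z : 1
  apply X_injective
  change X (refl (ev (pos y)) (refl (fv y) (refl (ev (tau y k)) z))) =
    X (refl (ev k) (refl (ev (pos y)) (refl (fv y) z)))
  have h0 : B (ev k) (ev (pos y)) = 0 := B_adj h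
  have h1 : refl (fv y) * refl (ev (tau y k)) * refl (fv y) = refl (ev k) := by
    rw [refl_conj (fv_unit _) (ev_unit _), rf_fv_ev]
    congr 2
    simp [tau]
  have h2 : ∀ w : ℍ, refl (fv y) (refl (ev (tau y k)) w) =
      refl (ev k) (refl (fv y) w) := by
    intro w
    have h3 := congrArg (fun T : ℍ ≃ᵢ ℍ => T (refl (fv y) w)) h1
    have h4 : refl (fv y) (refl (fv y) w) = w := by
      have := refl_mul_self (fv_unit y)
      exact congrArg (fun T : ℍ ≃ᵢ ℍ => T w) this
    change refl (fv y) (refl (ev (tau y k)) (refl (fv y) (refl (fv y) w))) = _ at h3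
    rw [h4] at h3
    exact h3
  rw [h2]
  set w := refl (fv y) z
  rw [X_refl (ev_unit _), X_refl (ev_unit _), X_refl (ev_unit _), X_refl (ev_unit _)]
  simp only [rf, B_sub_left, B_smul_left, h0, B_comm (ev (pos y)) (ev k)]
  module

theorem G_bar_mul (y : Letter) : G (bar y) * G y = 1 := by
  have h1 : refl (fv y) * refl (ev (pos y)) * refl (fv y) = refl (ev (pos (bar y))) := by
    rw [refl_conj (fv_unit _) (ev_unit _), rf_fv_ev]
    congr 2
    exact tau_pos y
  unfold G
  rw [fv_bar]
  calc refl (ev (pos (bar y))) * refl (fv y) * (refl (ev (pos y)) * refl (fv y))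
      = refl (ev (pos (bar y))) * (refl (fv y) * refl (ev (pos y)) * refl (fv y)) := by
        group
    _ = 1 := by rw [h1, refl_mul_self (ev_unit _)]

theorem G_bar (y : Letter) : G (bar y) = (G y)⁻¹ := eq_inv_of_mul_eq_one_left (G_bar_mul y)

/-- The Schottky representation. -/
noncomputable def ga : E →* (ℍ ≃ᵢ ℍ) := FreeGroup.lift (fun i => G (i, true))

theorem ga_lt (y : Letter) : ga (lt y) = G y := by
  obtain ⟨i, b⟩ := y
  cases b
  · have : lt (i, false) = (FreeGroup.of i)⁻¹ := by
      simp [lt, FreeGroup.of, FreeGroup.inv_mk, FreeGroup.invRev]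
    rw [this, map_inv, ga, FreeGroup.lift_apply_of]
    exact (G_bar (i, true)).symm
  · change ga (FreeGroup.of i) = _
    rw [ga, FreeGroup.lift_apply_of]

theorem mk_cons (y : Letter) (l : List Letter) : (FreeGroup.mk (y :: l) : E) = lt y * FreeGroup.mk l := by
  rw [lt, FreeGroup.mul_mk]; rfl

theorem ga_cons (y : Letter) (l : List Letter) (z : ℍ) :
    ga (FreeGroup.mk (y :: l)) z = G y (ga (FreeGroup.mk l) z) := by
  rw [mk_cons, map_mul, ga_lt]; rfl

theorem lt_bar (y : Letter) : lt (bar y) = (lt y)⁻¹ := by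
  obtain ⟨i, b⟩ := y
  simp [lt, bar, FreeGroup.inv_mk, FreeGroup.invRev]

end Pool.Agent.AllSurf.Geo
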