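import Pool.Agent.Lib.MP_7f477e_gt.G04

/-!
G05: ping-pong for reduced words, the tiles ga e R0 meet only along sides, the tiles cover the plane,
the Schottky group acts freely.
-/

open UpperHalfPlane

namespace Pool.Agent.AllSurf.Geo

theorem far_pos {y y' : Letter} (h : y ≠ y') (z : ℍ) :
    B (X z) (ev (pos y)) + B (X z) (ev (pos y')) ≤ -1 :=
  far_sum' (pos_far h).1 (pos_far h).2.1 (pos_far h).2.2 z

/-- Ping-pong: the word y :: l maps R0 beyond side pos y. -/
theorem word_mem (l : List Letter) : ∀ (y : Letter) (_ : FreeGroup.IsReduced (y :: l)) {z : ℍ} (_ : z ∈ R0),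
    0 ≤ B (X (ga (FreeGroup.mk (y :: l)) z)) (ev (pos y)) ∧
      (l ≠ [] → 0 < B (X (ga (FreeGroup.mk (y :: l)) z)) (ev (pos y))) := by
  induction l with
  | nil =>
    intro y _ z hz
    refine ⟨?_, fun h => absurd rfl h⟩
    rw [ga_cons, B_G_pos]
    have h1 : (ga (FreeGroup.mk []) z) = z := by
      rw [show (FreeGroup.mk [] : E) = 1 from rfl, map_one]; rfl
    rw [h1]
    have := hz (bar y)
    linarith
  | cons x l ih =>
    intro y hr z hz
    have hr' := FreeGroup.isReduced_cons_cons.1 hr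
    have h1 := (ih x hr'.2 hz).1
    have hne : x ≠ bar y := by
      rintro rfl
      have := hr'.1 rfl
      simp [bar] at this
    have h2 := far_pos hne (ga (FreeGroup.mk (x :: l)) z)
    rw [ga_cons, B_G_pos]
    constructor
    · linarith
    · intro _; linarith

/-- Two tiles of the Schottky group meet only if they are equal or adjacent. -/
theorem tile_inter {e : E} {z : ℍ} (hz : z ∈ R0) (hz' : ga e z ∈ R0) :
    e = 1 ∨ ∃ y, e = lt y ∧ B (X (ga e z)) (ev (pos y)) = 0 := by
  obtain ⟨L, hL, rfl⟩ : ∃ L, FreeGroup.IsReduced L ∧ e = FreeGroup.mk L :=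
    ⟨e.toWord, FreeGroup.isReduced_toWord, FreeGroup.mk_toWord.symm⟩
  rcases L with _ | ⟨y, l⟩
  · exact Or.inl rfl
  · right
    refine ⟨y, ?_, ?_⟩
    · rcases eq_or_ne l [] with rfl | hl
      · rfl
      · exact absurd ((word_mem l y hL hz).2 hl) (not_lt.2 (hz' y))
    · exact le_antisymm (hz' y) (word_mem l y hL hz).1

/-- An isometry invariant set that contains a neighbourhood of itself of uniform size is everything. -/
theorem eq_univ_of_thick {S : Set ℍ} (hne : S.Nonempty) {r : ℝ} (hr : 0 < r)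
    (h : ∀ z ∈ S, ∀ w, dist z w < r → w ∈ S) : S = Set.univ := by
  have hop : IsOpen S := by
    rw [Metric.isOpen_iff]
    intro z hz
    exact ⟨r, hr, fun w hw => h z hz w (by rw [dist_comm]; exact hw)⟩
  have hcl : IsClosed S := by
    rw [← isOpen_compl_iff, Metric.isOpen_iff]
    intro z hz
    refine ⟨r, hr, fun w hw hwS => hz (h w hwS z hw)⟩
  exact (IsClopen.eq_univ ⟨hcl, hop⟩ hne)

theorem sinh_half_lt : Real.sinh (1 / 2) < 1 := by
  have h1 : Real.exp (1 / 2) < 2 := by
    have h2 : Real.exp (1 / 2) ^ 2 < 2 ^ 2 := by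
      rw [← Real.exp_nat_mul]
      norm_num
      linarith [Real.exp_one_lt_d9]
    exact lt_of_pow_lt_pow_left₀ 2 (by norm_num) h2
  rw [Real.sinh_eq]
  have h3 := Real.exp_pos (-(1 / 2) : ℝ)
  linarith

/-- The tiles cover the plane. -/
theorem cover_R0 (z : ℍ) : ∃ e : E, ∃ x ∈ R0, ga e x = z := by
  have hS : {z : ℍ | ∃ e : E, ∃ x ∈ R0, ga e x = z} = Set.univ := by
    refine eq_univ_of_thick ⟨UpperHalfPlane.I, 1, UpperHalfPlane.I, fun y => (I_mem _).le, ?_⟩
      (r := 1 / 2) (by norm_num) ?_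
    · rw [map_one]; rfl
    · rintro z ⟨e, x, hx, rfl⟩ w hw
      -- move to x in R0 and w' near x
      obtain ⟨w', rfl⟩ : ∃ w', ga e w' = w := ⟨(ga e)⁻¹ w, by
        change (ga e * (ga e)⁻¹) w = w
        rw [mul_inv_cancel]; rfl⟩
      rw [(ga e).isometry.dist_eq] at hw
      by_cases hmem : w' ∈ R0
      · exact ⟨e, w', hmem, rfl⟩
      · have : ∃ y : Letter, 0 < B (X w') (ev (pos y)) := by
          by_contra hc
          push Not at hc
          exact hmem hc
        obtain ⟨y, hy⟩ := this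
        have h1 : B (X w') (ev (pos y)) ≤ Real.sinh (dist x w') := lip (ev_unit _) (hx y) hy.le
        have h2 : Real.sinh (dist x w') < 1 := by
          have h3 : Real.sinh (dist x w') < Real.sinh (1 / 2) := Real.sinh_lt_sinh.2 hw
          have h4 : Real.sinh (1 / 2) < 1 := sinh_half_lt
          linarith
        refine ⟨e * lt y, G (bar y) w', ?_, ?_⟩
        · intro y'
          rcases eq_or_ne y' (bar y) with rfl | hne
          · rw [B_G_pos, bar_bar]; linarith
          · have h5 := far_pos hne (G (bar y) w')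
            rw [B_G_pos (bar y), bar_bar] at h5
            linarith
        · rw [map_mul, ga_lt, G_bar]
          change ga e (G y ((G y)⁻¹ w')) = ga e w'
          congr 1
          change (G y * (G y)⁻¹) w' = w'
          rw [mul_inv_cancel]; rfl
  have := hS.ge (Set.mem_univ z)
  exact this

theorem bar_ne (y : Letter) : y ≠ bar y := by
  obtain ⟨i, b⟩ := y
  cases b <;> simp [bar]

theorem free_R0 {e : E} {x : ℍ} (hx : x ∈ R0) (h : ga e x = x) : e = 1 := by
  rcases tile_inter hx (by rw [h]; exact hx) with h1 | ⟨y, rfl, h2⟩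
  · exact h1
  · exfalso
    rw [h] at h2
    have h3 := B_G_pos y x
    rw [ga_lt] at h
    rw [h, h2] at h3
    have h4 := far_pos (bar_ne y) x
    linarith

/-- The Schottky group acts freely. -/
theorem free_E {e : E} {z : ℍ} (h : ga e z = z) : e = 1 := by
  obtain ⟨g, x, hx, rfl⟩ := cover_R0 z
  have h1 : ga (g⁻¹ * e * g) x = x := by
    rw [map_mul, map_mul, map_inv]
    change (ga g)⁻¹ (ga e (ga g x)) = x
    rw [h]
    change ((ga g)⁻¹ * ga g) x = x
    rw [inv_mul_cancel]; rfl
  have h3 : g⁻¹ * e * g = 1 := free_R0 hx h1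
  have h4 : e = g * (g⁻¹ * e * g) * g⁻¹ := by group
  rw [h4, h3]; group

end Pool.Agent.AllSurf.Geo
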