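import Pool.Agent.Lib.MP_7f477e_gt.G05

/-!
G06: the boundary geodesic. Going along side 7 one crosses the sides with the letters of the word u; the
closed half plane L = D 7 beyond the boundary is moved off itself by all elements outside the powers of u.
The convex core Cr of the Schottky group.
-/

open UpperHalfPlane

namespace Pool.Agent.AllSurf.Geo

/-- Odd sides. -/
def Od (k : ZMod 8) : Prop := k.val % 2 = 1

instance (k : ZMod 8) : Decidable (Od k) := by unfold Od; infer_instance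

set_option maxRecDepth 100000 in
theorem vk_step_dec : ∀ k : ZMod 8, Od k → ∀ y : Letter, pos y = k + 1 →
    (FreeGroup.toWord (FreeGroup.mk (uL.take (pl k) ++ [y])) =
        FreeGroup.toWord (FreeGroup.mk (uL.take (pl (tau y k)))) ∨
      (tau y k = 7 ∧ uL.take (pl k) ++ [y] = uL)) := by
  decide

theorem tau_od : ∀ k : ZMod 8, Od k → ∀ y : Letter, Od (tau y k) := by decide

theorem tau_adj {k : ZMod 8} {y : Letter} (h : pos y = k - 1) : pos (bar y) = tau y k + 1 := by
  rw [tau, h]; ring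

theorem vk_ccw {k : ZMod 8} (hk : Od k) {y : Letter} (h : pos y = k + 1) :
    ∃ n : ℤ, vk k * lt y = u ^ n * vk (tau y k) := by
  have h1 : vk k * lt y = FreeGroup.mk (uL.take (pl k) ++ [y]) := by
    rw [vk, lt, FreeGroup.mul_mk]
  rcases vk_step_dec k hk y h with h2 | ⟨h2, h3⟩
  · refine ⟨0, ?_⟩
    rw [h1, FreeGroup.toWord_injective h2, zpow_zero, one_mul, vk]
  · refine ⟨1, ?_⟩
    rw [h1, h3, h2, zpow_one]
    have h4 : vk 7 = 1 := by
      have : pl 7 = 0 := by decide
      rw [vk, this]; rfl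
    rw [h4, mul_one, u]

theorem vk_step {k : ZMod 8} (hk : Od k) {y : Letter} (h : pos y = k + 1 ∨ pos y = k - 1) :
    ∃ n : ℤ, vk k * lt y = u ^ n * vk (tau y k) := by
  rcases h with h | h
  · exact vk_ccw hk h
  · obtain ⟨n, hn⟩ := vk_ccw (tau_od k hk y) (tau_adj h)
    rw [tau_bar, tau_tau, lt_bar] at hn
    refine ⟨-n, ?_⟩
    have h1 : vk (tau y k) = u ^ n * vk k * lt y := by
      rw [← hn]; group
    rw [h1]; group

theorem od_ne_pos : ∀ k : ZMod 8, Od k → ∀ y : Letter, k ≠ pos y := by decide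

/-- Two different odd sides are not adjacent. -/
theorem od_far : ∀ k : ZMod 8, Od k → ∀ j : ZMod 8, Od j → k ≠ j → k ≠ j + 1 ∧ k ≠ j - 1 := by decide

/-- The tiles that meet a half plane beyond an odd side are those along the boundary. -/
theorem strip (L : List Letter) : ∀ (_ : FreeGroup.IsReduced L) (k : ZMod 8) (_ : Od k) {x : ℍ} (_ : x ∈ R0)
    (_ : 0 ≤ B (X (ga (FreeGroup.mk L) x)) (ev k)),
    ∃ k', Od k' ∧ ∃ n : ℤ, (FreeGroup.mk L : E) = (vk k)⁻¹ * u ^ n * vk k' := by
  induction L with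
  | nil =>
    intro _ k hk x _ _
    exact ⟨k, hk, 0, by rw [zpow_zero, mul_one, inv_mul_cancel]; rfl⟩
  | cons y l ih =>
    intro hr k hk x hx h0
    have h1 := (word_mem l y hr hx).1
    have hadj : k = pos y + 1 ∨ k = pos y - 1 := by
      by_contra hc
      push Not at hc
      have := far_sum' (od_ne_pos k hk y) hc.1 hc.2 (ga (FreeGroup.mk (y :: l)) x)
      linarith
    rw [ga_cons, B_G_adj hadj] at h0
    obtain ⟨k', hk', n, hn⟩ := ih (List.IsChain.tail hr) (tau y k) (tau_od k hk y) hx h0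
    obtain ⟨m, hm⟩ := vk_step hk (y := y) (by
      rcases hadj with h | h
      · right; rw [h]; ring
      · left; rw [h]; ring)
    refine ⟨k', hk', m + n, ?_⟩
    have h2 : lt y = (vk k)⁻¹ * (u ^ m * vk (tau y k)) := by rw [← hm]; group
    rw [mk_cons, hn, h2, zpow_add]; group

theorem strip' {k : ZMod 8} (hk : Od k) {e : E} {x : ℍ} (hx : x ∈ R0) (h : 0 ≤ B (X (ga e x)) (ev k)) :
    ∃ k', Od k' ∧ ∃ n : ℤ, e = (vk k)⁻¹ * u ^ n * vk k' := by
  have := strip e.toWord FreeGroup.isReduced_toWord k hk hx (by rw [FreeGroup.mk_toWord]; exact h)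
  rw [FreeGroup.mk_toWord] at this
  exact this

/-- The sequence of odd sides met along the boundary. -/
def kap : ℕ → ZMod 8
  | 0 => 7
  | n + 1 => tau (uL.getD n (0, true)) (kap n)

theorem kap_adj : ∀ n : Fin 4, kap n = pos (uL.getD n (0, true)) - 1 := by decide

theorem kap_pl : ∀ k : ZMod 8, Od k → kap (pl k) = k ∧ pl k ≤ 4 := by decide

theorem take_succ' {n : ℕ} (hn : n < 4) : uL.take (n + 1) = uL.take n ++ [uL.getD n (0, true)] := by
  have : ∀ n : Fin 4, uL.take (n + 1) = uL.take n ++ [uL.getD n (0, true)] := by decide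
  exact this ⟨n, hn⟩

theorem ga_take {n : ℕ} (hn : n < 4) :
    ga (FreeGroup.mk (uL.take (n + 1))) = ga (FreeGroup.mk (uL.take n)) * G (uL.getD n (0, true)) := by
  rw [take_succ' hn, ← FreeGroup.mul_mk, map_mul, ← ga_lt]; rfl

theorem B_take (n : ℕ) (hn : n ≤ 4) (z : ℍ) :
    B (X (ga (FreeGroup.mk (uL.take n)) z)) (ev 7) = B (X z) (ev (kap n)) := by
  induction n generalizing z with
  | zero =>
    rw [List.take_zero, show (FreeGroup.mk [] : E) = 1 from rfl, map_one]; rfl
  | succ n ih =>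
    rw [ga_take hn]
    change B (X (ga (FreeGroup.mk (uL.take n)) (G (uL.getD n (0, true)) z))) (ev 7) = _
    rw [ih (by omega), B_G_adj (Or.inr (kap_adj ⟨n, hn⟩))]
    rfl

theorem refl_take (n : ℕ) (hn : n ≤ 4) :
    refl (ev 7) * ga (FreeGroup.mk (uL.take n)) = ga (FreeGroup.mk (uL.take n)) * refl (ev (kap n)) := by
  induction n with
  | zero =>
    rw [List.take_zero, show (FreeGroup.mk [] : E) = 1 from rfl, map_one, mul_one, one_mul]; rfl
  | succ n ih =>
    rw [ga_take hn, ← mul_assoc, ih (by omega), mul_assoc, mul_assoc]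
    congr 1
    exact (G_refl (Or.inr (kap_adj ⟨n, hn⟩))).symm

theorem B_vk {k : ZMod 8} (hk : Od k) (z : ℍ) : B (X (ga (vk k) z)) (ev 7) = B (X z) (ev k) := by
  have h := kap_pl k hk
  rw [vk, B_take _ h.2, h.1]

theorem refl_vk {k : ZMod 8} (hk : Od k) : refl (ev 7) * ga (vk k) = ga (vk k) * refl (ev k) := by
  have h := kap_pl k hk
  have h2 := refl_take _ h.2
  rw [h.1] at h2
  exact h2

theorem u_take : (FreeGroup.mk (uL.take 4) : E) = u := rfl

theorem kap_4 : kap 4 = 7 := by decide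

theorem B_u (z : ℍ) : B (X (ga u z)) (ev 7) = B (X z) (ev 7) := by
  have h := B_take 4 le_rfl z
  rw [u_take, kap_4] at h
  exact h

/-- The reflection in the boundary geodesic commutes with u. -/
theorem refl_u : refl (ev 7) * ga u = ga u * refl (ev 7) := by
  have h := refl_take 4 le_rfl
  rw [u_take, kap_4] at h
  exact h

theorem B_zpow_u (n : ℤ) (z : ℍ) : B (X (ga (u ^ n) z)) (ev 7) = B (X z) (ev 7) := by
  have hn : ∀ n : ℕ, ∀ z, B (X (ga (u ^ n) z)) (ev 7) = B (X z) (ev 7) := by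
    intro n
    induction n with
    | zero => intro z; rw [pow_zero, map_one]; rfl
    | succ n ih =>
      intro z
      rw [pow_succ, map_mul]
      change B (X (ga (u ^ n) (ga u z))) (ev 7) = _
      rw [ih, B_u]
  obtain ⟨m, rfl | rfl⟩ := n.eq_nat_or_neg
  · rw [zpow_natCast]; exact hn m z
  · have h := hn m (ga (u ^ (-(m : ℤ))) z)
    rw [← h, zpow_neg, zpow_natCast, map_inv]
    change B (X ((ga (u ^ m) * (ga (u ^ m))⁻¹) z)) (ev 7) = _
    rw [mul_inv_cancel]; rfl

/-- Elements that do not move the closed half plane D 7 off itself are powers of u. -/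
theorem mem_zpowers {e : E} {z : ℍ} (hz : 0 ≤ B (X z) (ev 7)) (hez : 0 ≤ B (X (ga e z)) (ev 7)) :
    ∃ n : ℤ, e = u ^ n := by
  obtain ⟨g, x, hx, rfl⟩ := cover_R0 z
  have h7 : Od 7 := by decide
  have hv : vk 7 = 1 := by
    have : pl 7 = 0 := by decide
    rw [vk, this]; rfl
  obtain ⟨k', hk', n, hn⟩ := strip' h7 hx hz
  have hez' : 0 ≤ B (X (ga (e * g) x)) (ev 7) := by rw [map_mul]; exact hez
  obtain ⟨k'', hk'', m, hm⟩ := strip' h7 hx hez'
  rw [hv, inv_one, one_mul] at hn hm
  have e1 : 0 ≤ B (X x) (ev k') := by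
    rw [← B_vk hk', ← B_zpow_u n, ]
    rw [hn, map_mul] at hz
    exact hz
  have e2 : 0 ≤ B (X x) (ev k'') := by
    rw [← B_vk hk'', ← B_zpow_u m]
    rw [hm, map_mul] at hez'
    exact hez'
  have e3 : k' = k'' := by
    by_contra hne
    have h5 := od_far k' hk' k'' hk'' hne
    have := far_sum' hne h5.1 h5.2 x
    linarith
  subst e3
  refine ⟨m - n, ?_⟩
  have e4 : e = (e * g) * g⁻¹ := by group
  rw [e4, hm, hn, zpow_sub]; group

/-- The convex core of the Schottky group. -/
def Cr : Set ℍ := {z | ∀ e : E, B (X (ga e z)) (ev 7) ≤ 0}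

theorem Cr_inv {z : ℍ} (hz : z ∈ Cr) (e : E) : ga e z ∈ Cr := by
  intro g
  have := hz (g * e)
  rw [map_mul] at this
  exact this

theorem P_sub_Cr : P ⊆ Cr := by
  intro x hx e
  by_contra hc
  push Not at hc
  have hv : vk 7 = 1 := by
    have : pl 7 = 0 := by decide
    rw [vk, this]; rfl
  obtain ⟨k', hk', n, hn⟩ := strip' (by decide : Od 7) (P_sub_R0 hx) hc.le
  rw [hv, inv_one, one_mul] at hn
  have e1 : B (X (ga e x)) (ev 7) = B (X x) (ev k') := by
    rw [hn, map_mul]
    change B (X (ga (u ^ n) (ga (vk k') x))) (ev 7) = _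
    rw [B_zpow_u, B_vk hk']
  rw [e1] at hc
  exact absurd (hx k') (not_le.2 hc)

theorem even_pos : ∀ k : ZMod 8, ¬ Od k → ∃ y : Letter, pos y = k := by decide

/-- The core is the union of the translates of the octagon. -/
theorem Cr_cover {z : ℍ} (hz : z ∈ Cr) : ∃ e : E, ∃ x ∈ P, ga e x = z := by
  obtain ⟨g, x, hx, rfl⟩ := cover_R0 z
  refine ⟨g, x, ?_, rfl⟩
  intro k
  by_cases hk : Od k
  · rw [← B_vk hk]
    have := hz (vk k * g⁻¹)
    rw [map_mul, map_inv] at this
    change B (X (ga (vk k) (((ga g)⁻¹ * ga g) x))) (ev 7) ≤ 0 at this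
    rw [inv_mul_cancel] at this
    exact this
  · obtain ⟨y, rfl⟩ := even_pos k hk
    exact hx y

end Pool.Agent.AllSurf.Geo
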