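import Pool.Agent.Lib.MP_7f477e_gt.G06

/-!
G07: the plane is covered by the translates of P and of its mirror image under the group generated by the
Schottky group and its conjugate by the reflection in the boundary geodesic.
-/

open UpperHalfPlane

namespace Pool.Agent.AllSurf.Geo

/-- The reflection in side 7, the boundary geodesic. -/
noncomputable def cc : ℍ ≃ᵢ ℍ := refl (ev 7)

theorem cc_mul_cc : cc * cc = 1 := refl_mul_self (ev_unit 7)

theorem cc_cc (z : ℍ) : cc (cc z) = z := congrArg (fun T : ℍ ≃ᵢ ℍ => T z) cc_mul_cc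

theorem cc_inv : cc⁻¹ = cc := refl_inv (ev_unit 7)

theorem B_cc (z : ℍ) : B (X (cc z)) (ev 7) = -B (X z) (ev 7) := refl_ev_self 7 z

/-- The mirror image of the Schottky representation. -/
noncomputable def gac : E →* (ℍ ≃ᵢ ℍ) := (MulAut.conj cc).toMonoidHom.comp ga

theorem gac_apply (e : E) : gac e = cc * ga e * cc := by
  change cc * ga e * cc⁻¹ = _
  rw [cc_inv]

theorem gac_apply' (e : E) (z : ℍ) : gac e z = cc (ga e (cc z)) := by
  rw [gac_apply]; rfl

theorem gac_u : gac u = ga u := by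
  rw [gac_apply]
  have h := refl_u
  change cc * ga u = ga u * cc at h
  rw [h, mul_assoc, cc_mul_cc, mul_one]

/-- If every value is at most 1/50, then z is in P or is moved into P by one or two reflections. -/
theorem near_P {z : ℍ} (h : ∀ k, B (X z) (ev k) ≤ 1 / 50) :
    z ∈ P ∨ (∃ k, refl (ev k) z ∈ P) ∨ (∃ k, refl (ev (k + 1)) (refl (ev k) z) ∈ P) := by
  have one : ∀ k j : ZMod 8, 0 < B (X z) (ev k) → 0 < B (X z) (ev j) → j = k ∨ j = k + 1 ∨ j = k - 1 := by
    intro k j hk hj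
    by_contra hc
    push Not at hc
    have := far_sum' hc.1 hc.2.1 hc.2.2 z
    linarith
  have dec1 : ∀ k : ZMod 8, k + 1 ≠ k - 1 ∧ k + 1 ≠ k - 1 + 1 ∧ k + 1 ≠ k - 1 - 1 ∧ k ≠ k + 1 ∧ k + 1 ≠ k := by
    decide
  by_cases h0 : ∃ k, 0 < B (X z) (ev k) ∧ 0 < B (X z) (ev (k + 1))
  · obtain ⟨k, hk, hk1⟩ := h0
    right; right
    refine ⟨k, fun j => ?_⟩
    have e1 : B (ev k) (ev (k + 1)) = 0 := B_adj (Or.inr (by ring))
    have e2 : B (ev (k + 1)) (ev k) = 0 := B_adj (Or.inl rfl)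
    rw [refl_ev, refl_ev, refl_ev, e1]
    have nj : j ≠ k → j ≠ k + 1 → B (X z) (ev j) ≤ 0 := by
      intro hne hne1
      by_contra hc
      push Not at hc
      rcases one k j hk hc with h1 | h1 | h1
      · exact hne h1
      · exact hne1 h1
      · rcases one (k + 1) j hk1 hc with h2 | h2 | h2
        · exact hne1 h2
        · rw [h1] at h2
          have : ∀ k : ZMod 8, k - 1 ≠ k + 1 + 1 := by decide
          exact this k h2
        · exact hne (by rw [h2]; ring)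
    by_cases j0 : j = k
    · subst j0; rw [ev_unit, e2]; linarith
    by_cases j1 : j = k + 1
    · subst j1; rw [ev_unit, e1]; linarith
    have hj := nj j0 j1
    have fk : k ≠ j + 1 → k ≠ j - 1 → -2 * B (ev k) (ev j) * B (X z) (ev k) ≤ -(1 / 2) * B (X z) (ev j) :=
      fun h1 h2 => (far_refl (Ne.symm j0) h1 h2 z hk.le (h k)).2
    have fk1 : k + 1 ≠ j + 1 → k + 1 ≠ j - 1 →
        -2 * B (ev (k + 1)) (ev j) * B (X z) (ev (k + 1)) ≤ -(1 / 2) * B (X z) (ev j) :=
      fun h1 h2 => (far_refl (Ne.symm j1) h1 h2 z hk1.le (h (k + 1))).2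
    have ak : (k = j + 1 ∨ k = j - 1) → B (ev k) (ev j) = 0 := B_adj
    have ak1 : (k + 1 = j + 1 ∨ k + 1 = j - 1) → B (ev (k + 1)) (ev j) = 0 := B_adj
    by_cases c1 : k = j + 1 ∨ k = j - 1
    · by_cases c2 : k + 1 = j + 1 ∨ k + 1 = j - 1
      · rw [ak c1, ak1 c2]; linarith
      · push Not at c2
        rw [ak c1]
        have := fk1 c2.1 c2.2
        linarith
    · push Not at c1
      by_cases c2 : k + 1 = j + 1 ∨ k + 1 = j - 1
      · rw [ak1 c2]
        have := fk c1.1 c1.2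
        linarith
      · push Not at c2
        have h1 := fk1 c2.1 c2.2
        have h2 := fk c1.1 c1.2
        linarith
  · push Not at h0
    by_cases h1 : ∃ k, 0 < B (X z) (ev k)
    · obtain ⟨k, hk⟩ := h1
      right; left
      refine ⟨k, fun j => ?_⟩
      rw [refl_ev]
      by_cases j0 : j = k
      · subst j0; rw [ev_unit]; linarith
      have hj : B (X z) (ev j) ≤ 0 := by
        by_contra hc
        push Not at hc
        rcases one k j hk hc with h2 | h2 | h2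
        · exact j0 h2
        · subst h2; exact absurd hc (not_lt.2 (h0 k hk))
        · have h3 := h0 j hc
          rw [h2, sub_add_cancel] at h3
          exact absurd hk (not_lt.2 h3)
      by_cases c1 : k = j + 1 ∨ k = j - 1
      · rw [B_adj c1]; linarith
      · push Not at c1
        have := (far_refl (Ne.symm j0) c1.1 c1.2 z hk.le (h k)).2
        linarith
    · push Not at h1
      left
      exact h1

/-- The group generated by the Schottky group and its mirror image. -/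
noncomputable def A1 : Subgroup (ℍ ≃ᵢ ℍ) := ga.range ⊔ gac.range

theorem ga_mem_A1 (e : E) : ga e ∈ A1 := Subgroup.mem_sup_left ⟨e, rfl⟩

theorem gac_mem_A1 (e : E) : gac e ∈ A1 := Subgroup.mem_sup_right ⟨e, rfl⟩

theorem cc_conj_A1 {T : ℍ ≃ᵢ ℍ} (hT : T ∈ A1) : cc * T * cc ∈ A1 := by
  have h1 : A1 ≤ A1.comap (MulAut.conj cc).toMonoidHom := by
    unfold A1
    rw [sup_le_iff]
    constructor
    · rintro _ ⟨e, rfl⟩
      rw [Subgroup.mem_comap]
      exact Subgroup.mem_sup_right ⟨e, rfl⟩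
    · rintro _ ⟨e, rfl⟩
      rw [Subgroup.mem_comap]
      change cc * gac e * cc⁻¹ ∈ _
      rw [cc_inv, gac_apply]
      have : cc * (cc * ga e * cc) * cc = ga e := by
        calc cc * (cc * ga e * cc) * cc = (cc * cc) * ga e * (cc * cc) := by group
          _ = ga e := by rw [cc_mul_cc]; group
      rw [this]
      exact Subgroup.mem_sup_left ⟨e, rfl⟩
  have h2 := h1 hT
  rw [Subgroup.mem_comap] at h2
  change cc * T * cc⁻¹ ∈ A1 at h2
  rwa [cc_inv] at h2

/-- The union of the translates of P and of the mirror image of P. -/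
def Tl : Set ℍ := {z | ∃ T ∈ A1, ∃ x, (x ∈ P ∨ cc x ∈ P) ∧ T x = z}

theorem Tl_inv {T : ℍ ≃ᵢ ℍ} (hT : T ∈ A1) {z : ℍ} (hz : z ∈ Tl) : T z ∈ Tl := by
  obtain ⟨S, hS, x, hx, rfl⟩ := hz
  exact ⟨T * S, mul_mem hT hS, x, hx, rfl⟩

theorem Tl_of_inv {T : ℍ ≃ᵢ ℍ} (hT : T ∈ A1) {z : ℍ} (hz : T z ∈ Tl) : z ∈ Tl := by
  have h := Tl_inv (inv_mem hT) hz
  have h2 : T⁻¹ (T z) = z := by
    change (T⁻¹ * T) z = z
    rw [inv_mul_cancel]; rfl
  rwa [h2] at h

theorem Tl_cc {z : ℍ} (hz : z ∈ Tl) : cc z ∈ Tl := by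
  obtain ⟨S, hS, x, hx, rfl⟩ := hz
  refine ⟨cc * S * cc, cc_conj_A1 hS, cc x, ?_, ?_⟩
  · rw [cc_cc]; exact hx.symm
  · change cc (S (cc (cc x))) = _
    rw [cc_cc]

theorem P_fv {x : ℍ} (hx : x ∈ P) (y : Letter) : refl (fv y) x ∈ P := by
  intro k
  rw [refl_fv_ev]
  exact hx _

theorem refl_fv_refl_fv (y : Letter) (x : ℍ) : refl (fv y) (refl (fv y) x) = x :=
  congrArg (fun T : ℍ ≃ᵢ ℍ => T x) (refl_mul_self (fv_unit y))

theorem refl_ev_refl_ev (k : ZMod 8) (x : ℍ) : refl (ev k) (refl (ev k) x) = x :=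
  congrArg (fun T : ℍ ≃ᵢ ℍ => T x) (refl_mul_self (ev_unit k))

theorem refl_pos (y : Letter) (x : ℍ) : refl (ev (pos y)) x = G y (refl (fv y) x) := by
  change _ = refl (ev (pos y)) (refl (fv y) (refl (fv y) x))
  rw [refl_fv_refl_fv]

theorem refl_odd_mem {k : ZMod 8} (hk : Od k) {x : ℍ} (hx : x ∈ P) : refl (ev k) x ∈ Tl := by
  have h := refl_vk hk
  have h2 : refl (ev k) x = (ga (vk k))⁻¹ (gac (vk k) (cc x)) := by
    rw [gac_apply', cc_cc]
    have h3 : cc * ga (vk k) = ga (vk k) * refl (ev k) := h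
    have h4 : cc (ga (vk k) x) = ga (vk k) (refl (ev k) x) := congrArg (fun T : ℍ ≃ᵢ ℍ => T x) h3
    rw [h4]
    change _ = ((ga (vk k))⁻¹ * ga (vk k)) (refl (ev k) x)
    rw [inv_mul_cancel]; rfl
  rw [h2]
  refine ⟨(ga (vk k))⁻¹ * gac (vk k), mul_mem (inv_mem (ga_mem_A1 _)) (gac_mem_A1 _), cc x, ?_, rfl⟩
  right; rw [cc_cc]; exact hx

theorem refl_mem {k : ZMod 8} {x : ℍ} (hx : x ∈ P) : refl (ev k) x ∈ Tl := by
  by_cases hk : Od k
  · exact refl_odd_mem hk hx
  · obtain ⟨y, rfl⟩ := even_pos k hk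
    rw [refl_pos, ← ga_lt]
    exact ⟨_, ga_mem_A1 _, _, Or.inl (P_fv hx y), rfl⟩

theorem refl_comm {k j : ZMod 8} (h : k = j + 1 ∨ k = j - 1) (x : ℍ) :
    refl (ev k) (refl (ev j) x) = refl (ev j) (refl (ev k) x) := by
  have h0 : B (ev k) (ev j) = 0 := B_adj h
  apply X_injective
  rw [X_refl (ev_unit _), X_refl (ev_unit _), X_refl (ev_unit _), X_refl (ev_unit _)]
  simp only [rf, B_sub_left, B_smul_left, h0, B_comm (ev j) (ev k)]
  module

theorem refl_refl_even {y : Letter} {j : ZMod 8} (h : j = pos y + 1 ∨ j = pos y - 1) {x : ℍ} (hx : x ∈ P) :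
    refl (ev (pos y)) (refl (ev j) x) ∈ Tl := by
  rw [← refl_comm h, refl_pos]
  have h1 := G_refl h
  have h2 : refl (ev j) (G y (refl (fv y) x)) = G y (refl (ev (tau y j)) (refl (fv y) x)) :=
    (congrArg (fun T : ℍ ≃ᵢ ℍ => T (refl (fv y) x)) h1).symm
  rw [h2, ← ga_lt]
  exact Tl_inv (ga_mem_A1 _) (refl_mem (P_fv hx y))

theorem refl_refl_mem {k : ZMod 8} {x : ℍ} (hx : x ∈ P) : refl (ev k) (refl (ev (k + 1)) x) ∈ Tl := by
  by_cases hk : Od k
  · have h1 : ∀ k : ZMod 8, Od k → ¬ Od (k + 1) := by decide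
    obtain ⟨y, hy⟩ := even_pos (k + 1) (h1 k hk)
    rw [← refl_comm (Or.inl rfl), ← hy]
    exact refl_refl_even (Or.inr (by rw [hy]; ring)) hx
  · obtain ⟨y, rfl⟩ := even_pos k hk
    exact refl_refl_even (Or.inl rfl) hx

theorem near_mem {z : ℍ} (h : ∀ k, B (X z) (ev k) ≤ 1 / 50) : z ∈ Tl := by
  rcases near_P h with h1 | ⟨k, h1⟩ | ⟨k, h1⟩
  · exact ⟨1, one_mem _, z, Or.inl h1, rfl⟩
  · have := refl_mem (k := k) h1
    rwa [refl_ev_refl_ev] at this
  · have := refl_refl_mem (k := k) h1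
    rwa [refl_ev_refl_ev, refl_ev_refl_ev] at this

theorem exists_thick : ∃ r > 0, ∀ x ∈ P, ∀ z, dist x z < r → ∀ k, B (X z) (ev k) ≤ 1 / 50 := by
  have hopen : IsOpen {z : ℍ | ∀ k, B (X z) (ev k) < 1 / 50} := by
    have : {z : ℍ | ∀ k, B (X z) (ev k) < 1 / 50} = ⋂ k, {z : ℍ | B (X z) (ev k) < 1 / 50} := by
      ext z; simp
    rw [this]
    exact isOpen_iInter_of_finite fun k => isOpen_lt (continuous_B _) continuous_const
  obtain ⟨r, hr, h⟩ := isCompact_P.exists_thickening_subset_open hopen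
    (fun z hz k => lt_of_le_of_lt (hz k) (by norm_num))
  refine ⟨r, hr, fun x hx z hz k => le_of_lt ?_⟩
  exact h (Metric.mem_thickening_iff.2 ⟨x, hx, by rw [dist_comm]; exact hz⟩) k

/-- Everything is covered. -/
theorem cover_Tl (z : ℍ) : ∃ T ∈ A1, ∃ x, (x ∈ P ∨ cc x ∈ P) ∧ T x = z := by
  obtain ⟨r, hr, h⟩ := exists_thick
  have hS : Tl = Set.univ := by
    refine eq_univ_of_thick ⟨UpperHalfPlane.I, 1, one_mem _, UpperHalfPlane.I,
      Or.inl (fun k => (I_mem k).le), rfl⟩ hr ?_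
    rintro z ⟨T, hT, x, hx, rfl⟩ w hw
    obtain ⟨w', rfl⟩ : ∃ w', T w' = w := ⟨T⁻¹ w, by
      change (T * T⁻¹) w = w
      rw [mul_inv_cancel]; rfl⟩
    rw [T.isometry.dist_eq] at hw
    apply Tl_inv hT
    rcases hx with hx | hx
    · exact near_mem (h x hx w' hw)
    · have h1 : dist (cc x) (cc w') < r := by rw [cc.isometry.dist_eq]; exact hw
      have h2 := Tl_cc (near_mem (h _ hx _ h1))
      rwa [cc_cc] at h2
  exact hS.ge (Set.mem_univ z)

end Pool.Agent.AllSurf.Geo
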