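import Mathlib

/-!
G08: alternating products in a group generated by two subgroups with a common subgroup, and the abstract
ping-pong lemma.
-/

namespace Pool.Agent.AllSurf.Geo

section
variable {A : Type*} [Group A]

/-- Alternating products g1 g2 ... gn, with factors alternately in H false and H true, all outside U; the Bool
is the side of the first (left) factor. -/
inductive Alt (H : Bool → Subgroup A) (U : Subgroup A) : Bool → A → Prop
  | one (i : Bool) (g : A) (hg : g ∈ H i) (hU : g ∉ U) : Alt H U i g
  | cons (i : Bool) (g b : A) (hg : g ∈ H i) (hU : g ∉ U) (hb : Alt H U (!i) b) : Alt H U i (g * b)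

variable {H : Bool → Subgroup A} {U : Subgroup A}

theorem mul_notMem {x y : A} (hx : x ∈ U) (hy : y ∉ U) : x * y ∉ U := fun h =>
  hy (by
    have := U.mul_mem (U.inv_mem hx) h
    rwa [inv_mul_cancel_left] at this)

theorem Alt.smul_U (hU : ∀ i, U ≤ H i) {i : Bool} {a x : A} (hx : x ∈ U) (ha : Alt H U i a) :
    Alt H U i (x * a) := by
  cases ha with
  | one _ _ hg h => exact Alt.one i _ (mul_mem (hU i hx) hg) (mul_notMem hx h)
  | cons _ g b hg h hb =>
    rw [← mul_assoc]
    exact Alt.cons i _ b (mul_mem (hU i hx) hg) (mul_notMem hx h) hb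

/-- The elements in U or with an alternating expression. -/
def AltSet (H : Bool → Subgroup A) (U : Subgroup A) : Set A := {a | a ∈ U ∨ ∃ i, Alt H U i a}

theorem altSet_mul (hU : ∀ i, U ≤ H i) {i : Bool} {g a : A} (hg : g ∈ H i) (ha : a ∈ AltSet H U) :
    g * a ∈ AltSet H U := by
  by_cases hgU : g ∈ U
  · rcases ha with ha | ⟨j, ha⟩
    · exact Or.inl (mul_mem hgU ha)
    · exact Or.inr ⟨j, ha.smul_U hU hgU⟩
  · rcases ha with ha | ⟨j, ha⟩
    · right
      refine ⟨i, Alt.one i _ (mul_mem hg (hU i ha)) ?_⟩
      intro h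
      apply hgU
      have := U.mul_mem h (U.inv_mem ha)
      rwa [mul_inv_cancel_right] at this
    · rcases Bool.eq_or_eq_not j i with rfl | rfl
      · cases ha with
        | one _ _ hg' h' =>
          by_cases h : g * a ∈ U
          · exact Or.inl h
          · exact Or.inr ⟨_, Alt.one _ _ (mul_mem hg hg') h⟩
        | cons _ g' b hg' h' hb =>
          rw [← mul_assoc]
          by_cases h : g * g' ∈ U
          · exact Or.inr ⟨_, hb.smul_U hU h⟩
          · exact Or.inr ⟨_, Alt.cons _ _ b (mul_mem hg hg') h hb⟩
      · exact Or.inr ⟨i, Alt.cons i g a hg hgU ha⟩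

/-- Every element of the group generated by H false and H true is in U or an alternating product. -/
theorem mem_altSet (hU : ∀ i, U ≤ H i) {a : A} (ha : a ∈ H false ⊔ H true) : a ∈ AltSet H U := by
  rw [Subgroup.sup_eq_closure] at ha
  induction ha using Subgroup.closure_induction_left with
  | one => exact Or.inl (one_mem _)
  | mul_left x hx y _ ih =>
    rcases hx with hx | hx
    · exact altSet_mul hU (i := false) hx ih
    · exact altSet_mul hU (i := true) hx ih
  | inv_mul_cancel x hx y _ ih =>
    rcases hx with hx | hx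
    · exact altSet_mul hU (i := false) (inv_mem hx) ih
    · exact altSet_mul hU (i := true) (inv_mem hx) ih

variable {Ω : Type*}

/-- Abstract ping-pong. N i are disjoint sets, every element of H i outside U maps the complement of N i into
N i; K is a set disjoint from N (not i) and invariant under H i. Then an element outside H i moves K off
itself. -/
theorem pingpong (act : A → Ω → Ω) (act_mul : ∀ a b z, act (a * b) z = act a (act b z))
    (hU : ∀ i, U ≤ H i) (N : Bool → Set Ω) (hN : ∀ i z, z ∈ N i → z ∉ N (!i))
    (hNN : ∀ i, ∀ g ∈ H i, g ∉ U → ∀ z, z ∉ N i → act g z ∈ N i)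
    (act_one : ∀ z, act 1 z = z)
    (i : Bool) (K : Set Ω) (hK : ∀ z ∈ K, z ∉ N (!i)) (hHK : ∀ g ∈ H i, ∀ z ∈ K, act g z ∈ K)
    {a : A} (ha : a ∈ H false ⊔ H true) {z : Ω} (hz : z ∈ K) (haz : act a z ∈ K) : a ∈ H i := by
  have key : ∀ (j : Bool) (b : A), Alt H U j b →
      (j = !i → ∀ z ∈ K, act b z ∈ N (!i)) ∧
      (j = i → b ∈ H i ∨ ∀ z ∈ K, ∃ g ∈ H i, ∃ w ∈ N (!i), act b z = act g w ∧ g ∉ U) := by
    intro j b hb
    induction hb with
    | one j g hg hgU =>
      constructor
      · rintro rfl z hz
        exact hNN _ g hg hgU z (hK z hz)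
      · rintro rfl
        exact Or.inl hg
    | cons j g b hg hgU hb ih =>
      constructor
      · rintro rfl z hz
        rw [act_mul]
        apply hNN _ g hg hgU
        rcases ih.2 (by simp) with h | h
        · exact hK _ (hHK b h z hz)
        · obtain ⟨g', hg', w, hw, h1, h2⟩ := h z hz
          rw [h1]
          have h3 : w ∉ N i := by
            intro h4
            exact hN i w h4 hw
          exact hN i _ (hNN i g' hg' h2 w h3)
      · rintro rfl
        right
        intro z hz
        exact ⟨g, hg, act b z, ih.1 rfl z hz, act_mul _ _ _, hgU⟩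
  rcases mem_altSet hU ha with h | ⟨j, h⟩
  · exact hU i h
  · rcases Bool.eq_or_eq_not j i with rfl | rfl
    · rcases (key _ a h).2 rfl with h1 | h1
      · exact h1
      · exfalso
        obtain ⟨g, hg, w, hw, h2, -⟩ := h1 z hz
        have h3 := hHK g⁻¹ (inv_mem hg) _ haz
        rw [h2, ← act_mul, inv_mul_cancel, act_one] at h3
        exact hK w h3 hw
    · exfalso
      exact hK _ haz ((key _ a h).1 rfl z hz)

end

end Pool.Agent.AllSurf.Geo
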