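import Pool.Agent.Lib.MP_7f477e_gt.G07
import Pool.Agent.Lib.MP_7f477e_gt.G08

/-!
G09: main theorem of part GEO. For all homomorphisms r0, r1 : E ->* K with r0 u = r1 u the subgroup AA r0 r1 of
(isometries) x K generated by (ga e, r0 e) and (gac e, r1 e) acts freely, properly discontinuously and
cocompactly on the upper half plane through the first coordinate.
-/

open UpperHalfPlane

namespace Pool.Agent.AllSurf.Geo

section
variable {K : Type*} [Group K] (r0 r1 : E →* K)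

/-- The pairs (ga e, r0 e). -/
noncomputable def g0 : E →* (ℍ ≃ᵢ ℍ) × K := ga.prod r0

/-- The pairs (gac e, r1 e). -/
noncomputable def g1 : E →* (ℍ ≃ᵢ ℍ) × K := gac.prod r1

/-- The two factors. -/
noncomputable def HH (i : Bool) : Subgroup ((ℍ ≃ᵢ ℍ) × K) := cond i (g1 r1).range (g0 r0).range

/-- The group. -/
noncomputable def AA : Subgroup ((ℍ ≃ᵢ ℍ) × K) := (g0 r0).range ⊔ (g1 r1).range

/-- The common subgroup. -/
noncomputable def UU : Subgroup ((ℍ ≃ᵢ ℍ) × K) := Subgroup.zpowers (g0 r0 u)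

theorem g0_mem (e : E) : g0 r0 e ∈ AA r0 r1 := Subgroup.mem_sup_left ⟨e, rfl⟩

theorem g1_mem (e : E) : g1 r1 e ∈ AA r0 r1 := Subgroup.mem_sup_right ⟨e, rfl⟩

theorem map_fst_AA : (AA r0 r1).map (MonoidHom.fst (ℍ ≃ᵢ ℍ) K) = A1 := by
  unfold AA A1
  rw [Subgroup.map_sup, MonoidHom.map_range, MonoidHom.map_range]
  rfl

theorem AA_lift {T : ℍ ≃ᵢ ℍ} (hT : T ∈ A1) : ∃ a ∈ AA r0 r1, a.1 = T := by
  rw [← map_fst_AA r0 r1] at hT
  obtain ⟨a, ha, h⟩ := hT
  exact ⟨a, ha, h⟩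

theorem AA_fst {a : (ℍ ≃ᵢ ℍ) × K} (ha : a ∈ AA r0 r1) : a.1 ∈ A1 := by
  rw [← map_fst_AA r0 r1]
  exact ⟨a, ha, rfl⟩

variable {r0 r1}

theorem g0_u_eq (hu : r0 u = r1 u) : g0 r0 u = g1 r1 u := by
  change (ga u, r0 u) = (gac u, r1 u)
  rw [gac_u, hu]

theorem UU_le (hu : r0 u = r1 u) (i : Bool) : UU r0 ≤ HH r0 r1 i := by
  unfold UU
  rw [Subgroup.zpowers_le]
  cases i
  · exact ⟨u, rfl⟩
  · rw [g0_u_eq hu]; exact ⟨u, rfl⟩

/-- Every element of AA is in UU or an alternating product. -/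
theorem AA_alt (hu : r0 u = r1 u) {a : (ℍ ≃ᵢ ℍ) × K} (ha : a ∈ AA r0 r1) :
    a ∈ AltSet (HH r0 r1) (UU r0) := mem_altSet (UU_le hu) ha

/-- The open sides of the boundary geodesic: false is the side of P. -/
def NN (i : Bool) : Set ℍ := cond i {z | 0 < B (X z) (ev 7)} {z | B (X z) (ev 7) < 0}

theorem NN_disj (i : Bool) (z : ℍ) (h : z ∈ NN i) : z ∉ NN (!i) := by
  cases i
  · exact not_lt.2 (le_of_lt (show B (X z) (ev 7) < 0 from h))
  · exact not_lt.2 (le_of_lt (show 0 < B (X z) (ev 7) from h))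

theorem NN_pp (hu : r0 u = r1 u) (i : Bool) (g : (ℍ ≃ᵢ ℍ) × K) (hg : g ∈ HH r0 r1 i) (hgU : g ∉ UU r0)
    (z : ℍ) (hz : z ∉ NN i) : g.1 z ∈ NN i := by
  cases i
  · obtain ⟨e, rfl⟩ := hg
    have hz' : 0 ≤ B (X z) (ev 7) := not_lt.1 hz
    change B (X (ga e z)) (ev 7) < 0
    by_contra hc
    push Not at hc
    obtain ⟨n, rfl⟩ := mem_zpowers hz' hc
    exact hgU ⟨n, by rw [map_zpow]⟩
  · obtain ⟨e, rfl⟩ := hg
    have hz' : B (X z) (ev 7) ≤ 0 := not_lt.1 hz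
    change 0 < B (X (gac e z)) (ev 7)
    rw [gac_apply', B_cc]
    by_contra hc
    push Not at hc
    obtain ⟨n, rfl⟩ := mem_zpowers (z := cc z) (e := e) (by rw [B_cc]; linarith) (by linarith)
    exact hgU ⟨n, by rw [map_zpow]; change (g0 r0 u) ^ n = _; rw [g0_u_eq hu]⟩

/-- An element that moves a point of the core to the core is in the Schottky group. -/
theorem core0 (hu : r0 u = r1 u) {a : (ℍ ≃ᵢ ℍ) × K} (ha : a ∈ AA r0 r1) {z : ℍ} (hz : z ∈ Cr)
    (haz : a.1 z ∈ Cr) : ∃ e, a = g0 r0 e := by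
  have h := pingpong (H := HH r0 r1) (U := UU r0) (fun (a : (ℍ ≃ᵢ ℍ) × K) (z : ℍ) => a.1 z) (fun _ _ _ => rfl)
    (UU_le hu) NN NN_disj (NN_pp hu) (fun _ => rfl) false Cr
    (fun z hz => not_lt.2 (by have := hz 1; rw [map_one] at this; exact this))
    (by rintro _ ⟨e, rfl⟩ z hz; exact Cr_inv hz e) ha hz haz
  obtain ⟨e, he⟩ := h
  exact ⟨e, he.symm⟩

/-- The same for the mirror image. -/
theorem core1 (hu : r0 u = r1 u) {a : (ℍ ≃ᵢ ℍ) × K} (ha : a ∈ AA r0 r1) {z : ℍ} (hz : cc z ∈ Cr)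
    (haz : cc (a.1 z) ∈ Cr) : ∃ e, a = g1 r1 e := by
  have h := pingpong (H := HH r0 r1) (U := UU r0) (fun (a : (ℍ ≃ᵢ ℍ) × K) (z : ℍ) => a.1 z) (fun _ _ _ => rfl)
    (UU_le hu) NN NN_disj (NN_pp hu) (fun _ => rfl) true {z | cc z ∈ Cr}
    (fun z hz => not_lt.2 (show 0 ≤ B (X z) (ev 7) by
      have := hz 1
      rw [map_one] at this
      change B (X (cc z)) (ev 7) ≤ 0 at this
      rw [B_cc] at this
      linarith))
    (by
      rintro _ ⟨e, rfl⟩ z hz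
      change cc (gac e z) ∈ Cr
      rw [gac_apply', cc_cc]
      exact Cr_inv hz e) ha hz haz
  obtain ⟨e, he⟩ := h
  exact ⟨e, he.symm⟩

/-- AA acts freely. -/
theorem AA_free (hu : r0 u = r1 u) {a : (ℍ ≃ᵢ ℍ) × K} (ha : a ∈ AA r0 r1) {z : ℍ} (h : a.1 z = z) : a = 1 := by
  obtain ⟨T, hT, x, hx, rfl⟩ := cover_Tl z
  obtain ⟨b, hb, rfl⟩ := AA_lift r0 r1 hT
  have hmem : b⁻¹ * a * b ∈ AA r0 r1 := mul_mem (mul_mem (inv_mem hb) ha) hb
  have hfix : (b⁻¹ * a * b).1 x = x := by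
    change b.1⁻¹ (a.1 (b.1 x)) = x
    rw [h]
    change (b.1⁻¹ * b.1) x = x
    rw [inv_mul_cancel]; rfl
  have h1 : b⁻¹ * a * b = 1 := by
    rcases hx with hx | hx
    · obtain ⟨e, he⟩ := core0 hu hmem (P_sub_Cr hx) (by rw [hfix]; exact P_sub_Cr hx)
      rw [he] at hfix ⊢
      have := free_E (e := e) hfix
      rw [this, map_one]
    · obtain ⟨e, he⟩ := core1 hu hmem (P_sub_Cr hx) (by rw [hfix]; exact P_sub_Cr hx)
      rw [he] at hfix ⊢
      have h2 : ga e (cc x) = cc x := by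
        have h3 : gac e x = x := hfix
        rw [gac_apply'] at h3
        have h4 := congrArg cc h3
        rwa [cc_cc] at h4
      rw [free_E h2, map_one]
  calc a = b * (b⁻¹ * a * b) * b⁻¹ := by group
    _ = 1 := by rw [h1]; group

/-- AA is faithful on the first coordinate. -/
theorem AA_fst_one (hu : r0 u = r1 u) {a : (ℍ ≃ᵢ ℍ) × K} (ha : a ∈ AA r0 r1) (h : a.1 = 1) : a = 1 :=
  AA_free hu ha (z := UpperHalfPlane.I) (by rw [h]; rfl)

/-- The orbit of the point I is uniformly separated. -/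
theorem AA_sep (hu : r0 u = r1 u) : ∃ r > 0, ∀ a ∈ AA r0 r1, ∀ b ∈ AA r0 r1,
    dist (a.1 UpperHalfPlane.I) (b.1 UpperHalfPlane.I) < r → a = b := by
  have hopen : IsOpen {z : ℍ | ∀ k, B (X z) (ev k) < 0} := by
    have : {z : ℍ | ∀ k, B (X z) (ev k) < 0} = ⋂ k, {z : ℍ | B (X z) (ev k) < 0} := by
      ext z; simp
    rw [this]
    exact isOpen_iInter_of_finite fun k => isOpen_lt (continuous_B _) continuous_const
  obtain ⟨r, hr, h⟩ := Metric.isOpen_iff.1 hopen UpperHalfPlane.I I_mem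
  refine ⟨r, hr, fun a ha b hb hd => ?_⟩
  have h1 : (b⁻¹ * a).1 UpperHalfPlane.I ∈ Metric.ball UpperHalfPlane.I r := by
    rw [Metric.mem_ball]
    have h2 : dist (b.1 ((b⁻¹ * a).1 UpperHalfPlane.I)) (b.1 UpperHalfPlane.I) < r := by
      have h3 : b.1 ((b⁻¹ * a).1 UpperHalfPlane.I) = a.1 UpperHalfPlane.I := by
        change (b.1 * (b.1⁻¹ * a.1)) UpperHalfPlane.I = _
        rw [mul_inv_cancel_left]
      rw [h3]; exact hd
    rwa [b.1.isometry.dist_eq] at h2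
  have h2 := h h1
  have hI : UpperHalfPlane.I ∈ P := fun k => (I_mem k).le
  obtain ⟨e, he⟩ := core0 hu (mul_mem (inv_mem hb) ha) (P_sub_Cr hI) (P_sub_Cr (fun k => (h2 k).le))
  have h3 : e = 1 := by
    rcases tile_inter (e := e) (P_sub_R0 hI) (by
      have h4 : (b⁻¹ * a).1 UpperHalfPlane.I ∈ R0 := P_sub_R0 (fun k => (h2 k).le)
      rw [he] at h4
      exact h4) with h5 | ⟨y, h5, h6⟩
    · exact h5
    · exfalso
      have h7 := h2 (pos y)
      rw [he] at h7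
      exact absurd h6 (ne_of_lt h7)
  rw [h3, map_one] at he
  calc a = b * (b⁻¹ * a) := by group
    _ = b := by rw [he, mul_one]

/-- AA acts properly discontinuously. -/
theorem AA_proper (hu : r0 u = r1 u) {C D : Set ℍ} (hC : IsCompact C) (hD : IsCompact D) :
    {a | a ∈ AA r0 r1 ∧ ∃ x ∈ C, a.1 x ∈ D}.Finite := by
  obtain ⟨r, hr, hsep⟩ := AA_sep hu
  obtain ⟨R1, hR1⟩ := hC.isBounded.subset_closedBall UpperHalfPlane.I
  obtain ⟨R2, hR2⟩ := hD.isBounded.subset_closedBall UpperHalfPlane.I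
  have htb := (isCompact_closedBall UpperHalfPlane.I (R1 + R2)).totallyBounded
  obtain ⟨t, ht, hcov⟩ := Metric.totallyBounded_iff.1 htb (r / 2) (by linarith)
  have hmem : ∀ a ∈ {a | a ∈ AA r0 r1 ∧ ∃ x ∈ C, a.1 x ∈ D}, ∃ y ∈ t,
      dist (a.1 UpperHalfPlane.I) y < r / 2 := by
    rintro a ⟨-, x, hx, hax⟩
    have h1 : a.1 UpperHalfPlane.I ∈ Metric.closedBall UpperHalfPlane.I (R1 + R2) := by
      rw [Metric.mem_closedBall]
      calc dist (a.1 UpperHalfPlane.I) UpperHalfPlane.I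
          ≤ dist (a.1 UpperHalfPlane.I) (a.1 x) + dist (a.1 x) UpperHalfPlane.I := dist_triangle _ _ _
        _ = dist UpperHalfPlane.I x + dist (a.1 x) UpperHalfPlane.I := by rw [a.1.isometry.dist_eq]
        _ ≤ R1 + R2 := by
          have e1 := Metric.mem_closedBall.1 (hR1 hx)
          have e2 := Metric.mem_closedBall.1 (hR2 hax)
          rw [dist_comm UpperHalfPlane.I x]
          linarith
    have h2 := hcov h1
    simp only [Set.mem_iUnion] at h2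
    obtain ⟨y, hy, h3⟩ := h2
    exact ⟨y, hy, h3⟩
  classical
  choose! f hf using hmem
  refine Set.Finite.of_injOn (f := f) (t := t) (fun a ha => (hf a ha).1) ?_ ht
  intro a ha b hb hab
  apply hsep a ha.1 b hb.1
  have h1 := (hf a ha).2
  have h2 := (hf b hb).2
  rw [← hab] at h2
  calc dist (a.1 UpperHalfPlane.I) (b.1 UpperHalfPlane.I)
      ≤ dist (a.1 UpperHalfPlane.I) (f a) + dist (b.1 UpperHalfPlane.I) (f a) := dist_triangle_right _ _ _
    _ < r := by linarith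

variable (r0 r1)

/-- AA acts cocompactly. -/
theorem AA_cocompact : ∃ F : Set ℍ, IsCompact F ∧ ∀ z, ∃ a ∈ AA r0 r1, ∃ x ∈ F, a.1 x = z := by
  refine ⟨P ∪ cc ⁻¹' P, isCompact_P.union ?_, fun z => ?_⟩
  · have h : cc ⁻¹' P = cc '' P := by
      ext z
      constructor
      · intro hz; exact ⟨cc z, hz, cc_cc z⟩
      · rintro ⟨w, hw, rfl⟩
        change cc (cc w) ∈ P
        rwa [cc_cc]
    rw [h]
    exact isCompact_P.image cc.continuous
  · obtain ⟨T, hT, x, hx, rfl⟩ := cover_Tl z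
    obtain ⟨a, ha, rfl⟩ := AA_lift r0 r1 hT
    exact ⟨a, ha, x, hx, rfl⟩

end

end Pool.Agent.AllSurf.Geo
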