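import Pool.Agent.Lib.MP_7f477e_gt.G09

/-!
G10: the isometries of part GEO as Moebius transformations; orientation.
-/

open UpperHalfPlane
open scoped MatrixGroups

namespace Pool.Agent.AllSurf.Geo

/-- The effect of a matrix of determinant 1 or -1 on the hyperboloid vector. -/
theorem X_gl (g : GL (Fin 2) ℝ) (hg : |g.det.val| = 1) (z : ℍ) :
    (X (g • z)).1 + (X (g • z)).2.1 =
        (g 0 0) ^ 2 * ((X z).1 + (X z).2.1) + 2 * (g 0 0) * (g 0 1) * (X z).2.2 +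
          (g 0 1) ^ 2 * ((X z).1 - (X z).2.1) ∧
      (X (g • z)).1 - (X (g • z)).2.1 =
        (g 1 0) ^ 2 * ((X z).1 + (X z).2.1) + 2 * (g 1 0) * (g 1 1) * (X z).2.2 +
          (g 1 1) ^ 2 * ((X z).1 - (X z).2.1) ∧
      (X (g • z)).2.2 =
        (g 0 0) * (g 1 0) * ((X z).1 + (X z).2.1) +
          ((g 0 0) * (g 1 1) + (g 0 1) * (g 1 0)) * (X z).2.2 +
          (g 0 1) * (g 1 1) * ((X z).1 - (X z).2.1) := by
  have hy : z.im ≠ 0 := z.im_ne_zero
  have hN : Complex.normSq (denom g z) ≠ 0 := normSq_denom_ne_zero g z.im_ne_zero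
  have him : (g • z).im = z.im / Complex.normSq (denom g z) := by
    rw [im_smul_eq_div_normSq, hg, one_mul]
  have hre : (g • z).re = ((num g z).re * (denom g z).re + (num g z).im * (denom g z).im) /
      Complex.normSq (denom g z) := by
    rw [re_smul, Complex.div_re]; ring
  have hab : (g • z).re ^ 2 + (g • z).im ^ 2 = Complex.normSq (num g z) / Complex.normSq (denom g z) := by
    have h1 := Complex.normSq_div (num g z) (denom g z)
    rw [← h1, Complex.normSq_apply, ← re_smul, im_smul, sq_abs]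
    ring
  have e1 : Complex.normSq (num g z) = (g 0 0) ^ 2 * (z.re ^ 2 + z.im ^ 2) + 2 * (g 0 0) * (g 0 1) * z.re +
      (g 0 1) ^ 2 := by
    simp [num, Complex.normSq_apply]; ring
  have e2 : Complex.normSq (denom g z) = (g 1 0) ^ 2 * (z.re ^ 2 + z.im ^ 2) + 2 * (g 1 0) * (g 1 1) * z.re +
      (g 1 1) ^ 2 := by
    simp [denom, Complex.normSq_apply]; ring
  have e3 : (num g z).re * (denom g z).re + (num g z).im * (denom g z).im =
      (g 0 0) * (g 1 0) * (z.re ^ 2 + z.im ^ 2) + ((g 0 0) * (g 1 1) + (g 0 1) * (g 1 0)) * z.re +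
        (g 0 1) * (g 1 1) := by
    simp [num, denom]; ring
  have k1 : ∀ w : ℍ, (X w).1 + (X w).2.1 = (w.re ^ 2 + w.im ^ 2) / w.im := by
    intro w
    have := w.im_ne_zero
    simp only [X]; field_simp; ring
  have k2 : ∀ w : ℍ, (X w).1 - (X w).2.1 = 1 / w.im := by
    intro w
    have := w.im_ne_zero
    simp only [X]; field_simp; ring
  have k3 : ∀ w : ℍ, (X w).2.2 = w.re / w.im := fun w => rfl
  refine ⟨?_, ?_, ?_⟩
  · rw [k1, k1, k2, k3, hab, him, e1]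
    field_simp
  · rw [k2, k1, k2, k3, him, one_div_div, e2]
    field_simp
  · rw [k3, k1, k2, k3, hre, him, e3]
    field_simp

theorem V_ext {v w : V} (h1 : v.1 + v.2.1 = w.1 + w.2.1) (h2 : v.1 - v.2.1 = w.1 - w.2.1)
    (h3 : v.2.2 = w.2.2) : v = w := by
  ext
  · linarith
  · linarith
  · exact h3

/-- The matrix of a. -/
noncomputable def Ma : SL(2, ℝ) := ⟨!![3, 0; 0, 1 / 3], by simp [Matrix.det_fin_two]⟩

/-- The matrix of b. -/
noncomputable def Mb : SL(2, ℝ) := ⟨!![5 / 3, -(4 / 3); -(4 / 3), 5 / 3], by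
  rw [Matrix.det_fin_two]; simp; norm_num⟩

/-- The matrix of the reflection in side 7. -/
noncomputable def Mc : GL (Fin 2) ℝ :=
  Matrix.GeneralLinearGroup.mkOfDetNeZero !![4 / √7, -9 / √7; 1 / √7, -4 / √7] (by
    have h : √7 * √7 = 7 := Real.mul_self_sqrt (by norm_num)
    have h0 : √7 ≠ 0 := by positivity
    rw [Matrix.det_fin_two]
    simp
    field_simp
    norm_num)

theorem Mc_det : (Mc.det.val : ℝ) = -1 := by
  have h : √7 * √7 = 7 := Real.mul_self_sqrt (by norm_num)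
  have h0 : √7 ≠ 0 := by positivity
  rw [Matrix.GeneralLinearGroup.val_det_apply, Matrix.det_fin_two]
  simp [Mc, Matrix.GeneralLinearGroup.mkOfDetNeZero]
  field_simp
  nlinarith

theorem SL_abs_det (m : SL(2, ℝ)) : |(Matrix.SpecialLinearGroup.mapGL ℝ m).det.val| = 1 := by
  simp

theorem X_sl (m : SL(2, ℝ)) (z : ℍ) :
    (X (m • z)).1 + (X (m • z)).2.1 =
        (m 0 0) ^ 2 * ((X z).1 + (X z).2.1) + 2 * (m 0 0) * (m 0 1) * (X z).2.2 +
          (m 0 1) ^ 2 * ((X z).1 - (X z).2.1) ∧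
      (X (m • z)).1 - (X (m • z)).2.1 =
        (m 1 0) ^ 2 * ((X z).1 + (X z).2.1) + 2 * (m 1 0) * (m 1 1) * (X z).2.2 +
          (m 1 1) ^ 2 * ((X z).1 - (X z).2.1) ∧
      (X (m • z)).2.2 =
        (m 0 0) * (m 1 0) * ((X z).1 + (X z).2.1) +
          ((m 0 0) * (m 1 1) + (m 0 1) * (m 1 0)) * (X z).2.2 +
          (m 0 1) * (m 1 1) * ((X z).1 - (X z).2.1) :=
  X_gl (Matrix.SpecialLinearGroup.mapGL ℝ m) (SL_abs_det m) z

theorem ga_a_eq (z : ℍ) : ga (FreeGroup.of 0) z = Ma • z := by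
  apply X_injective
  have h := X_sl Ma z
  have h1 : ga (FreeGroup.of 0) = G (0, true) := ga_lt (0, true)
  rw [h1]
  change X (refl (ev (pos (0, true))) (refl (fv (0, true)) z)) = _
  rw [X_refl (ev_unit _), X_refl (fv_unit _)]
  have m00 : Ma 0 0 = 3 := rfl
  have m01 : Ma 0 1 = 0 := rfl
  have m10 : Ma 1 0 = 0 := rfl
  have m11 : Ma 1 1 = 1 / 3 := rfl
  rw [m00, m01, m10, m11] at h
  have hev : ev (pos (0, true)) = (4 / 3, 5 / 3, 0) := by
    have hn : nv (pos (0, true)) = 3 := by simp [nv, pos]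
    unfold ev
    rw [hn]
    ext <;> simp [iv, iz, pos] <;> ring
  have hfv : fv (0, true) = (0, 1, 0) := rfl
  rw [hev, hfv]
  generalize X z = v at *
  obtain ⟨t, x, y⟩ := v
  apply V_ext
  · rw [h.1]; simp [rf, B]; ring
  · rw [h.2.1]; simp [rf, B]; ring
  · rw [h.2.2]; simp [rf, B]

theorem ga_b_eq (z : ℍ) : ga (FreeGroup.of 1) z = Mb • z := by
  apply X_injective
  have h := X_sl Mb z
  have h1 : ga (FreeGroup.of 1) = G (1, true) := ga_lt (1, true)
  rw [h1]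
  change X (refl (ev (pos (1, true))) (refl (fv (1, true)) z)) = _
  rw [X_refl (ev_unit _), X_refl (fv_unit _)]
  have m00 : Mb 0 0 = 5 / 3 := rfl
  have m01 : Mb 0 1 = -(4 / 3) := rfl
  have m10 : Mb 1 0 = -(4 / 3) := rfl
  have m11 : Mb 1 1 = 5 / 3 := rfl
  rw [m00, m01, m10, m11] at h
  have hev : ev (pos (1, true)) = (4 / 3, 0, -(5 / 3)) := by
    have hv : (pos (1, true)).val = 2 := rfl
    have hn : nv (pos (1, true)) = 3 := by simp [nv, hv]
    unfold ev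
    rw [hn]
    have hz : iz (pos (1, true)) = (4, 0, -5) := rfl
    ext <;> simp [iv, hz] <;> ring
  have hfv : fv (1, true) = (0, 0, 1) := rfl
  rw [hev, hfv]
  generalize X z = v at *
  obtain ⟨t, x, y⟩ := v
  apply V_ext
  · rw [h.1]; simp [rf, B]; ring
  · rw [h.2.1]; simp [rf, B]; ring
  · rw [h.2.2]; simp [rf, B]; ring

theorem cc_eq (z : ℍ) : cc z = Mc • z := by
  apply X_injective
  have h := X_gl Mc (by rw [Mc_det]; norm_num) z
  change X (refl (ev 7) z) = _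
  rw [X_refl (ev_unit _)]
  have m00 : Mc 0 0 = 4 / √7 := rfl
  have m01 : Mc 0 1 = -9 / √7 := rfl
  have m10 : Mc 1 0 = 1 / √7 := rfl
  have m11 : Mc 1 1 = -4 / √7 := rfl
  rw [m00, m01, m10, m11] at h
  have hs : √7 ^ 2 = 7 := Real.sq_sqrt (by norm_num)
  have hs0 : √7 ≠ 0 := by positivity
  have hev : ev 7 = (5 / √7, 4 / √7, 4 / √7) := by
    have hv : (7 : ZMod 8).val = 7 := rfl
    have hn : nv 7 = √7 := by simp [nv, hv]
    unfold ev
    rw [hn]
    have hz : iz 7 = (5, 4, 4) := rfl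
    ext <;> simp [iv, hz] <;> ring
  rw [hev]
  generalize X z = v at *
  obtain ⟨t, x, y⟩ := v
  apply V_ext
  · rw [h.1]; simp [rf, B]; field_simp; rw [hs]; ring
  · rw [h.2.1]; simp [rf, B]; field_simp; rw [hs]; ring
  · rw [h.2.2]; simp [rf, B]; field_simp; rw [hs]; ring

theorem ga_a (z : ℍ) : ((ga (FreeGroup.of 0) z : ℍ) : ℂ) = 9 * (z : ℂ) := by
  rw [ga_a_eq, coe_specialLinearGroup_apply]
  have m00 : Ma 0 0 = 3 := rfl
  have m01 : Ma 0 1 = 0 := rfl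
  have m10 : Ma 1 0 = 0 := rfl
  have m11 : Ma 1 1 = 1 / 3 := rfl
  rw [m00, m01, m10, m11]
  simp
  ring

theorem ga_b (z : ℍ) : ((ga (FreeGroup.of 1) z : ℍ) : ℂ) = (5 * (z : ℂ) - 4) / (5 - 4 * (z : ℂ)) := by
  rw [ga_b_eq, coe_specialLinearGroup_apply]
  have m00 : Mb 0 0 = 5 / 3 := rfl
  have m01 : Mb 0 1 = -(4 / 3) := rfl
  have m10 : Mb 1 0 = -(4 / 3) := rfl
  have m11 : Mb 1 1 = 5 / 3 := rfl
  rw [m00, m01, m10, m11]
  have h : (5 - 4 * (z : ℂ)) ≠ 0 := by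
    intro h
    have h2 := congrArg Complex.im h
    simp at h2
    exact z.im_ne_zero h2
  have h3 : (-(4 / 3) * (z : ℂ) + 5 / 3) = (1 / 3) * (5 - 4 * (z : ℂ)) := by ring
  have h4 : (5 / 3 * (z : ℂ) + -(4 / 3)) = (1 / 3) * (5 * (z : ℂ) - 4) := by ring
  simp
  rw [show (-(4 / 3 * (z : ℂ)) + 5 / 3) = (1 / 3) * (5 - 4 * (z : ℂ)) by ring, h4]
  field_simp

/-- The isometries given by matrices of determinant 1. -/
def Or : Subgroup (ℍ ≃ᵢ ℍ) where
  carrier := {T | ∃ m : SL(2, ℝ), ∀ z : ℍ, T z = m • z}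
  one_mem' := ⟨1, fun z => by rw [one_smul]; rfl⟩
  mul_mem' := by
    rintro S T ⟨m, hm⟩ ⟨n, hn⟩
    refine ⟨m * n, fun z => ?_⟩
    rw [mul_smul, ← hn, ← hm]; rfl
  inv_mem' := by
    rintro T ⟨m, hm⟩
    refine ⟨m⁻¹, fun z => ?_⟩
    rw [eq_inv_smul_iff, ← hm]
    change (T * T⁻¹) z = z
    rw [mul_inv_cancel]; rfl

theorem Or_ga (e : E) : ga e ∈ Or := by
  have h : (⊤ : Subgroup E) ≤ Or.comap ga := by
    rw [← FreeGroup.closure_range_of, Subgroup.closure_le]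
    rintro _ ⟨i, rfl⟩
    fin_cases i
    · exact ⟨Ma, ga_a_eq⟩
    · exact ⟨Mb, ga_b_eq⟩
  exact h (Subgroup.mem_top e)

theorem Or_cc {T : ℍ ≃ᵢ ℍ} (hT : T ∈ Or) : cc * T * cc ∈ Or := by
  obtain ⟨m, hm⟩ := hT
  have hdet : Matrix.det (Mc * Matrix.SpecialLinearGroup.mapGL ℝ m * Mc : GL (Fin 2) ℝ).val = 1 := by
    rw [Units.val_mul, Units.val_mul, Matrix.det_mul, Matrix.det_mul]
    have h1 : Matrix.det Mc.val = -1 := Mc_det
    have h2 : Matrix.det (Matrix.SpecialLinearGroup.mapGL ℝ m).val = 1 := m.2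
    rw [h1, h2]; norm_num
  refine ⟨⟨_, hdet⟩, fun z => ?_⟩
  have h3 : (Matrix.SpecialLinearGroup.mapGL ℝ (⟨_, hdet⟩ : SL(2, ℝ))) =
      Mc * Matrix.SpecialLinearGroup.mapGL ℝ m * Mc := by
    ext i j
    rfl
  change cc (T (cc z)) = _
  rw [MulAction.compHom_smul_def, h3, mul_smul, mul_smul, cc_eq (T (cc z)), hm, cc_eq z]
  rfl

theorem A1_le_Or : A1 ≤ Or := by
  unfold A1
  rw [sup_le_iff]
  constructor
  · rintro _ ⟨e, rfl⟩; exact Or_ga e
  · rintro _ ⟨e, rfl⟩; rw [gac_apply]; exact Or_cc (Or_ga e)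

end Pool.Agent.AllSurf.Geo
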