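import Mathlib

/-!
GEO part of ALLSURF (MP_7f477e_gt), definitions.  Hyperboloid model: V = R x R x R with the form B of
signature (2,1), X : UpperHalfPlane -> V the isometric parametrisation of the sheet B v v = -1, v.1 > 0.
A right-angled octagon with rational even sides; the even sides carry the letters a b a' b'.
-/

open UpperHalfPlane

namespace Pool.Agent.AllSurf.Geo

/-- Minkowski space. -/
abbrev V : Type := ℝ × ℝ × ℝ

/-- The Lorentz form, of signature (2,1). -/
def B (u v : V) : ℝ := -(u.1 * v.1) + u.2.1 * v.2.1 + u.2.2 * v.2.2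

/-- The hyperboloid vector of a point of the upper half plane. -/
noncomputable def X (z : ℍ) : V :=
  ((z.re ^ 2 + z.im ^ 2 + 1) / (2 * z.im), (z.re ^ 2 + z.im ^ 2 - 1) / (2 * z.im), z.re / z.im)

/-- The inverse of X (junk value outside the hyperboloid). -/
noncomputable def unX (v : V) : ℍ :=
  if h : 0 < v.1 - v.2.1 then ⟨⟨v.2.2 / (v.1 - v.2.1), (v.1 - v.2.1)⁻¹⟩, inv_pos.2 h⟩ else UpperHalfPlane.I

/-- Linear reflection in the hyperplane orthogonal to n (n with B n n = 1). -/
noncomputable def rf (n v : V) : V := v - (2 * B v n) • n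

/-- Integer normals of the sides of the octagon: side 0 is |z| = 3, side 1 is the circle with centre -4 and
radius sqrt 7, side 2 is |z + 5/4| = 3/4, side 4 is |z| = 1/3, side 6 is |z - 5/4| = 3/4, side 7 is the circle
with centre 4 and radius sqrt 7. -/
def iz : ZMod 8 → ℤ × ℤ × ℤ
  | 0 => (4, 5, 0)
  | 1 => (5, 4, -4)
  | 2 => (4, 0, -5)
  | 3 => (5, -4, -4)
  | 4 => (4, -5, 0)
  | 5 => (5, -4, 4)
  | 6 => (4, 0, 5)
  | 7 => (5, 4, 4)

/-- The integer normals as real vectors. -/
def iv (k : ZMod 8) : V := ((iz k).1, (iz k).2.1, (iz k).2.2)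

/-- Norm of the integer normals: 3 for the even sides, sqrt 7 for the odd sides. -/
noncomputable def nv (k : ZMod 8) : ℝ := if k.val % 2 = 0 then 3 else √7

/-- Outer unit normal of side k of the octagon. -/
noncomputable def ev (k : ZMod 8) : V := (nv k)⁻¹ • iv k

/-- The letters: a = 0, b = 1, Bool true = the letter, false = its inverse. -/
abbrev Letter : Type := Fin 2 × Bool

/-- Unit normal of the mirror that exchanges the sides of y and of its inverse. -/
def fv (y : Letter) : V := if y.1 = 0 then (0, 1, 0) else (0, 0, 1)

/-- The inverse letter. -/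
def bar (y : Letter) : Letter := (y.1, !y.2)

/-- The even side carrying a letter: order a b a' b' on the sides 0, 2, 4, 6. -/
def pos : Letter → ZMod 8
  | (0, true) => 0
  | (1, true) => 2
  | (0, false) => 4
  | (1, false) => 6

/-- The dihedral map exchanging the sides pos y and pos (bar y). -/
def tau (y : Letter) (k : ZMod 8) : ZMod 8 := pos y + pos (bar y) - k

/-- Closed half plane beyond side k. -/
def D (k : ZMod 8) : Set ℍ := {z | 0 ≤ B (X z) (ev k)}

/-- Open half plane beyond side k. -/
def Do (k : ZMod 8) : Set ℍ := {z | 0 < B (X z) (ev k)}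

/-- The right-angled octagon. -/
def P : Set ℍ := {z | ∀ k, B (X z) (ev k) ≤ 0}

/-- The region bounded by the 4 even sides: fundamental domain of the Schottky group. -/
def R0 : Set ℍ := {z | ∀ y : Letter, B (X z) (ev (pos y)) ≤ 0}

/-- The free group on the two letters. -/
abbrev E : Type := FreeGroup (Fin 2)

/-- A letter as an element of the free group. -/
def lt (y : Letter) : E := FreeGroup.mk [y]

/-- The boundary word a b' a' b. -/
def uL : List Letter := [(0, true), (1, false), (0, false), (1, true)]

/-- The boundary element. -/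
def u : E := FreeGroup.mk uL

/-- Length of the initial part of the boundary word which leads from side 7 to the odd side k. -/
def pl (k : ZMod 8) : ℕ := if k = 5 then 1 else if k = 3 then 2 else if k = 1 then 3 else 0

/-- The initial part of the boundary word that leads to the odd side k. -/
def vk (k : ZMod 8) : E := FreeGroup.mk (uL.take (pl k))

end Pool.Agent.AllSurf.Geo
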