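import Mathlib

/-!
# MP_7f477e_gt, H00: infinite Schottky systems in the hyperbolic plane

`G` acts on `ℍ` (hom `a`). For `d : E` there are a closed set `T d`, an open subset `O d` of it (half
planes and their interiors), and `g d : G`, `g (inv d) = (g d)⁻¹`, which maps the complement of
`O (inv d)` onto `T d` and the complement of `T (inv d)` onto `O d`. The sets `T d` are pairwise
disjoint. Their boundaries `T d \ O d` are translates of one set `L`, and every compact set meets
finitely many translates of `L`.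
-/

set_option autoImplicit false

open Set Topology UpperHalfPlane

namespace Pool.Agent.AllSurf

/-- an infinite Schottky system -/
structure Schottky (G : Type) [Group G] (E : Type) where
  a : G →* (ℍ ≃ᵢ ℍ)
  inv : E → E
  inv_inv : ∀ d, inv (inv d) = d
  inv_ne : ∀ d, inv d ≠ d
  g : E → G
  g_inv : ∀ d, g (inv d) = (g d)⁻¹
  T : E → Set ℍ
  O : E → Set ℍ
  closed : ∀ d, IsClosed (T d)
  opn : ∀ d, IsOpen (O d)
  sub : ∀ d, O d ⊆ T d
  disj : ∀ d e, d ≠ e → Disjoint (T d) (T e)
  map1 : ∀ d z, z ∉ O (inv d) → a (g d) z ∈ T d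
  map2 : ∀ d z, z ∉ T (inv d) → a (g d) z ∈ O d
  map3 : ∀ d z, z ∈ O (inv d) → a (g d) z ∉ T d
  L : Set ℍ
  p0 : ℍ
  p0_mem : p0 ∈ L
  s : E → G
  line : ∀ d, T d \ O d = a (s d) '' L
  finite : ∀ K : Set ℍ, IsCompact K → {x : G | (a x '' L ∩ K).Nonempty}.Finite
  base : ∃ z, ∀ d, z ∉ T d

namespace Schottky

variable {G : Type} [Group G] {E : Type} (S : Schottky G E)

/-- the group generated by the `g d` -/
def K : Subgroup G := Subgroup.closure (Set.range S.g)

/-- the fundamental domain: the complement of the open half planes -/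
def D : Set ℍ := {z | ∀ d, z ∉ S.O d}

/-- the orbit relation of `K` -/
def orb : Setoid ℍ where
  r z z' := ∃ k ∈ S.K, S.a k z = z'
  iseqv := {
    refl := fun z => ⟨1, S.K.one_mem, by rw [map_one]; rfl⟩
    symm := by
      rintro z z' ⟨g, hg, rfl⟩
      exact ⟨g⁻¹, S.K.inv_mem hg, by rw [map_inv]; exact (S.a g).symm_apply_apply z⟩
    trans := by
      rintro z z' z'' ⟨g, hg, rfl⟩ ⟨h, hh, rfl⟩
      exact ⟨h * g, S.K.mul_mem hh hg, by rw [map_mul]; rfl⟩ }

/-- gluing of the boundary of `T d` to the boundary of `T (inv d)` by `g (inv d)` -/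
inductive Glue : S.D → S.D → Prop
  | mk (d : E) (p p' : S.D) (hp : p.1 ∈ S.T d) (hp' : p'.1 = S.a (S.g (S.inv d)) p.1) : Glue p p'

end Schottky

end Pool.Agent.AllSurf
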