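import Pool.Agent.Lib.MP_7f477e_gt.H00

/-!
# MP_7f477e_gt, H01: ping-pong

Every element of `K` is `1` or a product `g d₁ * g d₂ * ... * g dₙ` with `d_{i+1} ≠ inv d_i`
(`Subgroup.closure_induction`: multiplication by `g d` from the left gives such a product again:
cons or cancellation; the inverse is a product of the same kind, or use that `range g` is closed
under inverses, `g_inv`). For such a product `k`, `n ≥ 1`, and `z ∈ D`: `a k z ∈ T d₁` (`z ∉ O (inv dₙ)`,
`map1`; then `T dᵢ₊₁` is disjoint from `T (inv dᵢ)`, so `map2` gives `O dᵢ ⊆ T dᵢ`), and for `n ≥ 2` even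
`a k z ∈ O d₁`, so `a k z ∉ D`. For `n = 1` and `a (g d) z ∈ D`: `z ∈ T (inv d)`, otherwise
`a (g d) z ∈ O d` (`map2`).
-/

set_option autoImplicit false

open Set Topology UpperHalfPlane

namespace Pool.Agent.AllSurf.Schottky

variable {G : Type} [Group G] {E : Type} (S : Schottky G E)

/-- the product of a word -/
def H01_w (l : List E) : G := (l.map S.g).prod

theorem H01_w_cons (d : E) (l : List E) : S.H01_w (d :: l) = S.g d * S.H01_w l := by
  simp [H01_w]

theorem H01_w_nil : S.H01_w [] = 1 := by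
  simp [H01_w]

/-- reduced words -/
def H01_red (l : List E) : Prop := l.IsChain (fun d e => e ≠ S.inv d)

theorem H01_step (d : E) (l : List E) (hl : S.H01_red l) :
    ∃ l', S.H01_red l' ∧ S.g d * S.H01_w l = S.H01_w l' := by
  cases l with
  | nil => exact ⟨[d], List.isChain_singleton _, (S.H01_w_cons d []).symm⟩
  | cons e l =>
    by_cases h : e = S.inv d
    · refine ⟨l, List.IsChain.tail hl, ?_⟩
      rw [H01_w_cons, h, S.g_inv, mul_inv_cancel_left]
    · exact ⟨d :: e :: l, List.isChain_cons_cons.2 ⟨h, hl⟩, (S.H01_w_cons d _).symm⟩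

theorem H01_word {k : G} (hk : k ∈ S.K) : ∃ l, S.H01_red l ∧ k = S.H01_w l := by
  induction hk using Subgroup.closure_induction_left with
  | one => exact ⟨[], List.isChain_nil, S.H01_w_nil.symm⟩
  | mul_left x hx y hy ih =>
    obtain ⟨d, rfl⟩ := hx
    obtain ⟨l, hl, rfl⟩ := ih
    exact S.H01_step d l hl
  | inv_mul_cancel x hx y hy ih =>
    obtain ⟨d, rfl⟩ := hx
    obtain ⟨l, hl, rfl⟩ := ih
    rw [← S.g_inv]
    exact S.H01_step _ l hl

theorem H01_mul (x y : G) (z : ℍ) : S.a (x * y) z = S.a x (S.a y z) := by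
  rw [map_mul]; rfl

theorem H01_T {z : ℍ} (hz : z ∈ S.D) (l : List E) (d : E) (hl : S.H01_red (d :: l)) :
    S.a (S.H01_w (d :: l)) z ∈ S.T d ∧ (l ≠ [] → S.a (S.H01_w (d :: l)) z ∈ S.O d) := by
  induction l generalizing d with
  | nil =>
    refine ⟨?_, fun h => absurd rfl h⟩
    rw [H01_w_cons, H01_w_nil, mul_one]
    exact S.map1 d z (hz _)
  | cons e l ih =>
    have h1 := List.isChain_cons_cons.1 hl
    have h2 := (ih e h1.2).1
    have h3 : S.a (S.H01_w (d :: e :: l)) z ∈ S.O d := by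
      rw [H01_w_cons, H01_mul]
      apply S.map2
      intro h4
      exact Set.disjoint_left.1 (S.disj _ _ h1.1) h2 h4
    exact ⟨S.sub d h3, fun _ => h3⟩

theorem pingpong {k : G} (hk : k ∈ S.K) {z : ℍ} (hz : z ∈ S.D) (hkz : S.a k z ∈ S.D) :
    k = 1 ∨ ∃ d, k = S.g d ∧ z ∈ S.T (S.inv d) ∧ S.a k z ∈ S.T d := by
  obtain ⟨l, hl, rfl⟩ := S.H01_word hk
  cases l with
  | nil => exact Or.inl S.H01_w_nil
  | cons d l =>
    cases l with
    | nil =>
      right
      have h1 : S.H01_w [d] = S.g d := by rw [H01_w_cons, H01_w_nil, mul_one]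
      refine ⟨d, h1, ?_, (S.H01_T hz [] d hl).1⟩
      by_contra h2
      rw [h1] at hkz
      exact hkz d (S.map2 d z h2)
    | cons e l =>
      exact absurd ((S.H01_T hz (e :: l) d hl).2 (by simp)) (hkz d)

end Pool.Agent.AllSurf.Schottky
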