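import Pool.Agent.Lib.MP_7f477e_gt.H01

/-!
# MP_7f477e_gt, H02: finitely many boundary lines in a compact set

`exists_nhd`: `ℍ` is locally compact and locally (path) connected (instances): the closure of a
connected neighbourhood inside a compact neighbourhood.

`finite_lines`: the pairs `(k, d)` with `a k '' (T d \ O d)` meeting the compact set `C`. By `line` this
set is `a (k * s d) '' L`, so `k * s d` is in a finite set by `finite`; and for a given `x : G` there are at
most two pairs with `k * s d = x`: for `k * s d = k' * s d'` the points `z = a (s d) p0`, `z' = a (s d') p0` are in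
`D` (they are in `T d \ O d`; `T d` is disjoint from the other `T e ⊇ O e`), `a k z = a k' z'`, so
`pingpong` for `k'⁻¹ * k` gives `k' = k`, and then `z = z'` and `d = d'` (`disj`), or `k'⁻¹ * k = g e` with
`z ∈ T (inv e)`, so `inv e = d`, `k = k' * g e`, and `z' ∈ T e`, so `d' = e = inv d`.

`isOpen_others`: let `z ∉ T d` for all `d` with `P d` and let `C` be a compact connected neighbourhood
of `z`. If `P d` and `T d` meets `C`, then `T d \ O d` meets `C` (otherwise `C` is in the union of the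
disjoint open sets `O d`, `(T d)ᶜ` and meets both), so there are only finitely many such `d`
(`finite_lines` with `k = 1`), and `C` minus these finitely many closed sets is a neighbourhood of `z`.
-/

set_option autoImplicit false

open Set Topology UpperHalfPlane

namespace Pool.Agent.AllSurf

theorem exists_nhd (z : ℍ) : ∃ C ∈ 𝓝 z, IsCompact C ∧ IsConnected C := by
  obtain ⟨K, hK, hKz⟩ := exists_compact_mem_nhds z
  obtain ⟨U, ⟨hUo, hzU, hUc⟩, hUK⟩ :=
    (LocallyConnectedSpace.open_connected_basis z).mem_iff.1 hKz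
  refine ⟨closure U, Filter.mem_of_superset (hUo.mem_nhds hzU) subset_closure, ?_, hUc.closure⟩
  exact hK.of_isClosed_subset isClosed_closure (closure_minimal hUK hK.isClosed)

namespace Schottky

variable {G : Type} [Group G] {E : Type} (S : Schottky G E)

theorem H02_mem_D {d : E} {z : ℍ} (hz : z ∈ S.T d \ S.O d) : z ∈ S.D := by
  intro e
  by_cases h : d = e
  · subst h; exact hz.2
  · intro he
    exact Set.disjoint_left.1 (S.disj d e h) hz.1 (S.sub e he)

theorem H02_base_mem (d : E) : S.a (S.s d) S.p0 ∈ S.T d \ S.O d := by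
  rw [S.line d]
  exact ⟨S.p0, S.p0_mem, rfl⟩

theorem H02_eq_of_mem {d e : E} {z : ℍ} (hd : z ∈ S.T d) (he : z ∈ S.T e) : d = e := by
  by_contra h
  exact Set.disjoint_left.1 (S.disj d e h) hd he

theorem H02_fiber {x x' : S.K × E} (h : (x.1 : G) * S.s x.2 = (x'.1 : G) * S.s x'.2) :
    x' = x ∨ x' = (⟨(x.1 : G) * S.g x.2,
      S.K.mul_mem x.1.2 (Subgroup.subset_closure ⟨x.2, rfl⟩)⟩, S.inv x.2) := by
  obtain ⟨k, d⟩ := x
  obtain ⟨k', d'⟩ := x'
  simp only at h ⊢
  have hz := S.H02_base_mem d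
  have hz' := S.H02_base_mem d'
  have e1 : S.a ((k' : G)⁻¹ * (k : G)) (S.a (S.s d) S.p0) = S.a (S.s d') S.p0 := by
    have : (k' : G)⁻¹ * (k : G) * S.s d = S.s d' := by
      rw [mul_assoc, h, inv_mul_cancel_left]
    rw [← this, map_mul (S.a) ((k' : G)⁻¹ * (k : G))]
    rfl
  have hk : (k' : G)⁻¹ * (k : G) ∈ S.K := S.K.mul_mem (S.K.inv_mem k'.2) k.2
  have hD : S.a ((k' : G)⁻¹ * (k : G)) (S.a (S.s d) S.p0) ∈ S.D := by
    rw [e1]; exact S.H02_mem_D hz'
  rcases S.pingpong hk (S.H02_mem_D hz) hD with h1 | ⟨e, he1, he2, he3⟩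
  · left
    have hkk : (k' : G) = k := by
      rw [inv_mul_eq_one] at h1
      exact h1
    have hkk' : k' = k := Subtype.ext hkk
    rw [h1, map_one] at e1
    have e2 : S.a (S.s d) S.p0 = S.a (S.s d') S.p0 := e1
    rw [e2] at hz
    have := S.H02_eq_of_mem hz.1 hz'.1
    rw [hkk', this]
  · right
    have h2 : S.inv e = d := S.H02_eq_of_mem he2 hz.1
    rw [e1] at he3
    have h3 : e = d' := S.H02_eq_of_mem he3 hz'.1
    have h4 : d' = S.inv d := by rw [← h2, S.inv_inv, h3]
    have h5 : (k' : G) = k * S.g d := by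
      have : (k : G) = k' * S.g e := by rw [← he1]; group
      rw [this, ← h2, S.g_inv]; group
    exact Prod.ext (Subtype.ext h5) h4

theorem finite_lines {C : Set ℍ} (hC : IsCompact C) :
    {x : S.K × E | (S.a x.1 '' (S.T x.2 \ S.O x.2) ∩ C).Nonempty}.Finite := by
  have h1 := S.finite C hC
  have h2 : ((fun x : S.K × E => (x.1 : G) * S.s x.2) ⁻¹'
      {x : G | (S.a x '' S.L ∩ C).Nonempty}).Finite := by
    apply Set.Finite.preimage' h1
    intro b _
    rcases Set.eq_empty_or_nonempty ((fun x : S.K × E => (x.1 : G) * S.s x.2) ⁻¹' {b}) with h | ⟨x, hx⟩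
    · rw [h]; exact Set.finite_empty
    · apply Set.Finite.subset (Set.toFinite {x, (⟨(x.1 : G) * S.g x.2,
        S.K.mul_mem x.1.2 (Subgroup.subset_closure ⟨x.2, rfl⟩)⟩, S.inv x.2)})
      intro x' hx'
      have hx1 : (x.1 : G) * S.s x.2 = b := hx
      have hx2 : (x'.1 : G) * S.s x'.2 = b := hx'
      rcases S.H02_fiber (hx1.trans hx2.symm) with h | h
      · exact Or.inl h
      · exact Or.inr h
  apply h2.subset
  rintro ⟨k, d⟩ ⟨z, ⟨w, hw, rfl⟩, hzC⟩
  simp only at hw hzC
  rw [S.line d] at hw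
  obtain ⟨v, hv, rfl⟩ := hw
  refine ⟨S.a (k : G) (S.a (S.s d) v), ⟨v, hv, ?_⟩, hzC⟩
  show S.a ((k : G) * S.s d) v = _
  rw [map_mul]
  rfl

theorem isClosed_D : IsClosed S.D := by
  have : S.D = ⋂ d, (S.O d)ᶜ := by
    ext z
    simp [Schottky.D]
  rw [this]
  exact isClosed_iInter fun d => (S.opn d).isClosed_compl

theorem isOpen_others (P : E → Prop) : IsOpen {z : ℍ | ∀ d, P d → z ∉ S.T d} := by
  rw [isOpen_iff_mem_nhds]
  intro z hz
  obtain ⟨C, hCz, hCc, hCconn⟩ := exists_nhd z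
  have hzC : z ∈ C := mem_of_mem_nhds hCz
  have hfin : {d : E | ((S.T d \ S.O d) ∩ C).Nonempty}.Finite := by
    have h1 := S.finite_lines hCc
    have h2 : ((fun d : E => ((1 : S.K), d)) ⁻¹'
        {x : S.K × E | (S.a x.1 '' (S.T x.2 \ S.O x.2) ∩ C).Nonempty}).Finite :=
      h1.preimage (fun a _ b _ h => (Prod.ext_iff.1 h).2)
    apply h2.subset
    rintro d ⟨w, hw, hwC⟩
    refine ⟨w, ⟨w, hw, ?_⟩, hwC⟩
    show S.a ((1 : S.K) : G) w = w
    rw [Subgroup.coe_one, map_one]
    rfl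
  have hfin2 : {d : E | P d ∧ ((S.T d \ S.O d) ∩ C).Nonempty}.Finite :=
    hfin.subset fun d hd => hd.2
  have hI : (⋂ d ∈ {d : E | P d ∧ ((S.T d \ S.O d) ∩ C).Nonempty}, (S.T d)ᶜ) ∈ 𝓝 z := by
    rw [Filter.biInter_mem hfin2]
    intro d hd
    exact (S.closed d).isOpen_compl.mem_nhds (hz d hd.1)
  filter_upwards [hCz, hI] with w hwC hwI
  intro d hPd hwT
  by_cases hd : ((S.T d \ S.O d) ∩ C).Nonempty
  · exact (Set.mem_iInter₂.1 hwI d ⟨hPd, hd⟩) hwT
  · have hsub : C ⊆ S.O d ∪ (S.T d)ᶜ := by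
      intro v hv
      by_contra hc
      rw [Set.mem_union, not_or, Set.notMem_compl_iff] at hc
      exact hd ⟨v, ⟨hc.2, hc.1⟩, hv⟩
    have hwO : w ∈ S.O d := by
      rcases hsub hwC with h | h
      · exact h
      · exact absurd hwT h
    obtain ⟨v, _, hv1, hv2⟩ := hCconn.isPreconnected (S.O d) (S.T d)ᶜ (S.opn d)
      (S.closed d).isOpen_compl hsub ⟨w, hwC, hwO⟩ ⟨z, hzC, hz d hPd⟩
    exact hv2 (S.sub d hv1)

end Schottky

end Pool.Agent.AllSurf
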