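import Pool.Agent.Lib.MP_7f477e_gt.H02

/-!
# MP_7f477e_gt, H03: the translates of `D` are locally finite and cover `ℍ`

`locallyFinite`: let `C` be a compact connected neighbourhood of a point (`exists_nhd`). If `a k '' D`
and `a k' '' D` meet `C`, `k ≠ k'`, then `C` meets `a k '' (T d \ O d)` for some `d`: otherwise `C` is covered
by the disjoint open sets `a k '' {z | ∀ d, z ∉ T d}` (`isOpen_others`) and `⋃ d, a k '' O d`, and meets
the first one, so it is contained in it, and a point `p ∈ a k' '' D ∩ C` contradicts `pingpong` (for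
`k'⁻¹ * k` and the point `a k⁻¹ p`, which is in no `T d`). So all but at most one of the `k` with
`a k '' D ∩ C ≠ ∅` are among the finitely many first coordinates of `finite_lines`.

`cover`: the union `Y` of the `a k '' D` is closed (`LocallyFinite.isClosed_iUnion`, `isClosed_D`),
nonempty (`base`), and open: let `z ∈ a k '' D`, we may take `k = 1` (`Y` is `K`-invariant). If `z ∉ T d` for
all `d` use `isOpen_others`. If `z ∈ T d` (`z ∉ O d`), then near `z` there are no points of the `T e`,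
`e ≠ d` (`isOpen_others`, `disj`), so near `z` all points are in `D` or in `O d`; `w = a (g (inv d)) z` is in
`T (inv d)` (`map1`) and has a neighbourhood without points of `T e`, `e ≠ inv d`; for `z'` near `z` in
`O d` the point `w' = a (g (inv d)) z'` is not in `T (inv d)` (`map3` for `inv d`), so `w' ∈ D`, and
`z' = a (g d) w'`. `ℍ` is connected, so `Y = ℍ`.
-/

set_option autoImplicit false

open Set Topology UpperHalfPlane

namespace Pool.Agent.AllSurf.Schottky

variable {G : Type} [Group G] {E : Type} (S : Schottky G E)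

theorem H03_apply_inv (k : G) (z : ℍ) : S.a k⁻¹ (S.a k z) = z := by
  rw [map_inv]
  exact (S.a k).symm_apply_apply z

theorem H03_apply_inv' (k : G) (z : ℍ) : S.a k (S.a k⁻¹ z) = z := by
  rw [map_inv]
  exact (S.a k).apply_symm_apply z

theorem H03_apply_mul (k l : G) (z : ℍ) : S.a (k * l) z = S.a k (S.a l z) := by
  rw [map_mul]
  rfl

theorem H03_isOpen_image (k : G) {U : Set ℍ} (hU : IsOpen U) : IsOpen (S.a k '' U) :=
  (S.a k).toHomeomorph.isOpenMap U hU

theorem H03_isClosed_image (k : G) {U : Set ℍ} (hU : IsClosed U) : IsClosed (S.a k '' U) :=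
  (S.a k).toHomeomorph.isClosedMap U hU

theorem H03_mem_D {z : ℍ} (hz : ∀ d, z ∉ S.T d) : z ∈ S.D :=
  fun d hd => hz d (S.sub d hd)

theorem H03_isOpen_free : IsOpen {z : ℍ | ∀ d, z ∉ S.T d} := by
  have h := S.isOpen_others (fun _ => True)
  have e : {z : ℍ | ∀ d, z ∉ S.T d} = {z : ℍ | ∀ d, True → z ∉ S.T d} := by
    ext z
    simp
  rw [e]
  exact h

theorem locallyFinite : LocallyFinite (fun k : S.K => S.a k '' S.D) := by
  intro z
  obtain ⟨C, hCz, hCc, hCn⟩ := exists_nhd z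
  refine ⟨C, hCz, ?_⟩
  have hF := (S.finite_lines hCc).image Prod.fst
  set F1 : Set S.K :=
    Prod.fst '' {x : S.K × E | (S.a x.1 '' (S.T x.2 \ S.O x.2) ∩ C).Nonempty} with hF1
  set A : Set S.K := {k : S.K | (S.a k '' S.D ∩ C).Nonempty} with hA
  have hsub : (A \ F1).Subsingleton := by
    rintro k ⟨hkA, hkF⟩ k' ⟨hk'A, -⟩
    have hno : ∀ d q, q ∈ S.T d → q ∉ S.O d → S.a k q ∉ C := by
      intro d q h1 h2 h3
      exact hkF ⟨(k, d), ⟨S.a k q, ⟨q, ⟨h1, h2⟩, rfl⟩, h3⟩, rfl⟩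
    have hU : IsOpen (S.a k '' {z : ℍ | ∀ d, z ∉ S.T d}) :=
      S.H03_isOpen_image _ S.H03_isOpen_free
    have hV : IsOpen (⋃ d, S.a k '' S.O d) :=
      isOpen_iUnion fun d => S.H03_isOpen_image _ (S.opn d)
    have hUV : Disjoint (S.a k '' {z : ℍ | ∀ d, z ∉ S.T d}) (⋃ d, S.a k '' S.O d) := by
      rw [Set.disjoint_left]
      rintro p ⟨q, hq, rfl⟩ hp
      obtain ⟨d, q', hq', hqq⟩ := Set.mem_iUnion.1 hp
      have : q' = q := (S.a k).injective hqq
      subst this
      exact hq d (S.sub d hq')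
    have hcov : C ⊆ (S.a k '' {z : ℍ | ∀ d, z ∉ S.T d}) ∪ (⋃ d, S.a k '' S.O d) := by
      intro p hp
      have hpq : S.a k (S.a (k : G)⁻¹ p) = p := S.H03_apply_inv' _ _
      by_cases hq : ∀ d, S.a (k : G)⁻¹ p ∉ S.T d
      · exact Or.inl ⟨_, hq, hpq⟩
      · push Not at hq
        obtain ⟨d, hd⟩ := hq
        by_cases hO : S.a (k : G)⁻¹ p ∈ S.O d
        · exact Or.inr (Set.mem_iUnion.2 ⟨d, _, hO, hpq⟩)
        · exact absurd (show S.a k (S.a (k : G)⁻¹ p) ∈ C by rw [hpq]; exact hp) (hno d _ hd hO)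
    have hne : (C ∩ (S.a k '' {z : ℍ | ∀ d, z ∉ S.T d})).Nonempty := by
      obtain ⟨p, ⟨q, hq, rfl⟩, hp⟩ := hkA
      refine ⟨_, hp, q, ?_, rfl⟩
      intro d hd
      exact hno d q hd (hq d) hp
    have hCU : C ⊆ S.a k '' {z : ℍ | ∀ d, z ∉ S.T d} :=
      hCn.isPreconnected.subset_left_of_subset_union hU hV hUV hcov hne
    obtain ⟨p, ⟨r, hr, hrp⟩, hp⟩ := hk'A
    obtain ⟨q, hq, hqp⟩ := hCU hp
    have hK : (k' : G)⁻¹ * (k : G) ∈ S.K := S.K.mul_mem (S.K.inv_mem k'.2) k.2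
    have hqr : S.a ((k' : G)⁻¹ * (k : G)) q = r := by
      rw [S.H03_apply_mul, hqp, ← hrp, S.H03_apply_inv]
    rcases S.pingpong hK (S.H03_mem_D hq) (hqr ▸ hr) with h | ⟨d, -, h, -⟩
    · apply Subtype.ext
      exact (inv_mul_eq_one.1 h).symm
    · exact absurd h (hq _)
  refine (hF.union hsub.finite).subset ?_
  intro k hk
  by_cases hkF : k ∈ F1
  · exact Or.inl hkF
  · exact Or.inr ⟨hk, hkF⟩

theorem H03_nhds {w : ℍ} (hw : w ∈ S.D) :
    (⋃ k : S.K, S.a k '' S.D) ∈ 𝓝 w := by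
  have hD : S.D ⊆ ⋃ k : S.K, S.a k '' S.D := by
    intro z hz
    refine Set.mem_iUnion.2 ⟨⟨1, S.K.one_mem⟩, z, hz, ?_⟩
    change S.a (1 : G) z = z
    rw [map_one]
    rfl
  by_cases h : ∀ d, w ∉ S.T d
  · refine Filter.mem_of_superset (S.H03_isOpen_free.mem_nhds h) ?_
    intro z hz
    exact hD (S.H03_mem_D hz)
  · push Not at h
    obtain ⟨d, hd⟩ := h
    have hW1 := S.isOpen_others (fun e => e ≠ d)
    have hW2 := S.isOpen_others (fun e => e ≠ S.inv d)
    have hw1 : w ∈ {z : ℍ | ∀ e, e ≠ d → z ∉ S.T e} := by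
      intro e he hwe
      exact Set.disjoint_left.1 (S.disj e d he) hwe hd
    have hu : S.a (S.g (S.inv d)) w ∈ S.T (S.inv d) := by
      apply S.map1
      rw [S.inv_inv]
      exact hw d
    have hw2 : w ∈ (S.a (S.g (S.inv d))) ⁻¹' {z : ℍ | ∀ e, e ≠ S.inv d → z ∉ S.T e} := by
      intro e he hwe
      exact Set.disjoint_left.1 (S.disj e _ he) hwe hu
    have hW2' := hW2.preimage (S.a (S.g (S.inv d))).continuous
    refine Filter.mem_of_superset ((hW1.inter hW2').mem_nhds ⟨hw1, hw2⟩) ?_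
    rintro z ⟨hz1, hz2⟩
    by_cases hzD : z ∈ S.D
    · exact hD hzD
    · have : ∃ e, z ∈ S.O e := by
        by_contra hcon
        push Not at hcon
        exact hzD hcon
      obtain ⟨e, he⟩ := this
      have hed : e = d := by
        by_contra hne
        exact hz1 e hne (S.sub e he)
      subst hed
      have h3 : S.a (S.g (S.inv e)) z ∉ S.T (S.inv e) := by
        apply S.map3
        rw [S.inv_inv]
        exact he
      have hall : ∀ d, S.a (S.g (S.inv e)) z ∉ S.T d := by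
        intro d'
        by_cases hd' : d' = S.inv e
        · rw [hd']
          exact h3
        · exact hz2 d' hd'
      refine Set.mem_iUnion.2 ⟨⟨S.g e, Subgroup.subset_closure ⟨e, rfl⟩⟩, _, S.H03_mem_D hall, ?_⟩
      change S.a (S.g e) (S.a (S.g (S.inv e)) z) = z
      rw [S.g_inv]
      exact S.H03_apply_inv' _ _

theorem cover (z : ℍ) : ∃ k ∈ S.K, S.a k z ∈ S.D := by
  have hcl : IsClosed (⋃ k : S.K, S.a k '' S.D) :=
    S.locallyFinite.isClosed_iUnion fun k => S.H03_isClosed_image _ S.isClosed_D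
  have hop : IsOpen (⋃ k : S.K, S.a k '' S.D) := by
    rw [isOpen_iff_mem_nhds]
    intro x hx
    obtain ⟨k, w, hw, rfl⟩ := Set.mem_iUnion.1 hx
    have h1 := (S.a k).toHomeomorph.isOpenMap.image_mem_nhds (S.H03_nhds hw)
    refine Filter.mem_of_superset h1 ?_
    rintro _ ⟨y, hy, rfl⟩
    obtain ⟨l, v, hv, rfl⟩ := Set.mem_iUnion.1 hy
    refine Set.mem_iUnion.2 ⟨k * l, v, hv, ?_⟩
    exact S.H03_apply_mul k l v
  have hne : (⋃ k : S.K, S.a k '' S.D).Nonempty := by
    obtain ⟨w, hw⟩ := S.base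
    exact ⟨w, mem_of_mem_nhds (S.H03_nhds (S.H03_mem_D hw))⟩
  have huniv : (⋃ k : S.K, S.a k '' S.D) = Set.univ := IsClopen.eq_univ ⟨hcl, hop⟩ hne
  have hz : z ∈ ⋃ k : S.K, S.a k '' S.D := by
    rw [huniv]
    exact Set.mem_univ z
  obtain ⟨k, w, hw, rfl⟩ := Set.mem_iUnion.1 hz
  refine ⟨(k : G)⁻¹, S.K.inv_mem k.2, ?_⟩
  rw [S.H03_apply_inv]
  exact hw

end Pool.Agent.AllSurf.Schottky
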