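import Pool.Agent.Lib.MP_7f477e_gt.H03

/-!
# MP_7f477e_gt, H04: `ℍ / K` is the domain `D` with glued boundary

The map `D → ℍ / K` is continuous, surjective (`cover`) and closed: for `A ⊂ D` closed the preimage of
its image in `ℍ` is `⋃ k, a k '' A`, closed by `LocallyFinite.isClosed_iUnion` (subfamily of
`locallyFinite`). So it is a quotient map (`IsClosedMap.isQuotientMap`), and its kernel relation is the
equivalence relation generated by `Glue` (`pingpong`: `a k z = z'`, `z, z' ∈ D`, `k ≠ 1`: `k = g d`,
`z ∈ T (inv d)`, which is `Glue.mk (inv d)`).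
-/

set_option autoImplicit false

open Set Topology UpperHalfPlane

namespace Pool.Agent.AllSurf.Schottky

variable {G : Type} [Group G] {E : Type} (S : Schottky G E)

theorem H04_g_mem (d : E) : S.g d ∈ S.K := Subgroup.subset_closure ⟨d, rfl⟩

/-- the projection of the fundamental domain -/
def H04_f (z : S.D) : Quotient S.orb := Quotient.mk S.orb z.1

theorem H04_continuous_f : Continuous S.H04_f :=
  continuous_quotient_mk'.comp continuous_subtype_val

theorem H04_surjective_f : Function.Surjective S.H04_f := by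
  intro q
  induction q using Quotient.inductionOn with
  | h z =>
    obtain ⟨k, hk, hkz⟩ := S.cover z
    refine ⟨⟨S.a k z, hkz⟩, ?_⟩
    refine Quotient.sound (s := S.orb) ?_
    exact S.orb.symm ⟨k, hk, rfl⟩

theorem H04_isClosedMap_f : IsClosedMap S.H04_f := by
  intro A hA
  have hA' : IsClosed (Subtype.val '' A : Set ℍ) := S.isClosed_D.isClosedEmbedding_subtypeVal.isClosedMap A hA
  have hpre : (Quotient.mk S.orb) ⁻¹' (S.H04_f '' A)
      = ⋃ k : S.K, S.a k '' (Subtype.val '' A) := by
    ext z
    constructor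
    · rintro ⟨x, hx, hxz⟩
      have h := Quotient.exact (s := S.orb) hxz
      obtain ⟨k, hk, hkx⟩ := h
      exact mem_iUnion.2 ⟨⟨k, hk⟩, x.1, ⟨x, hx, rfl⟩, hkx⟩
    · intro hz
      obtain ⟨k, hk⟩ := mem_iUnion.1 hz
      obtain ⟨y, ⟨x, hx, rfl⟩, hxz⟩ := hk
      exact ⟨x, hx, Quotient.sound (s := S.orb) ⟨k.1, k.2, hxz⟩⟩
  have hcl : IsClosed ((Quotient.mk S.orb) ⁻¹' (S.H04_f '' A)) := by
    rw [hpre]
    refine LocallyFinite.isClosed_iUnion ?_ ?_
    · refine S.locallyFinite.subset ?_
      intro k
      refine image_mono ?_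
      rintro _ ⟨x, _, rfl⟩
      exact x.2
    · intro k
      exact (S.a k).toHomeomorph.isClosedMap _ hA'
  exact isQuotientMap_quotient_mk'.isClosed_preimage.1 hcl

theorem H04_glue_orb {z z' : S.D} (h : S.Glue z z') : S.H04_f z = S.H04_f z' := by
  cases h with
  | mk d _ _ hp hp' =>
    refine Quotient.sound (s := S.orb) ⟨S.g (S.inv d), S.H04_g_mem _, ?_⟩
    exact hp'.symm

theorem H04_orb_glue {z z' : S.D} (h : S.H04_f z = S.H04_f z') :
    Quot.mk S.Glue z = Quot.mk S.Glue z' := by
  obtain ⟨k, hk, hkz⟩ := Quotient.exact (s := S.orb) h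
  have hkz' : S.a k z.1 ∈ S.D := by rw [hkz]; exact z'.2
  rcases S.pingpong hk z.2 hkz' with h1 | ⟨d, hd, hT, -⟩
  · subst h1
    have : z = z' := by
      apply Subtype.ext
      rw [← hkz, map_one]
      rfl
    rw [this]
  · refine Quot.sound (Schottky.Glue.mk (S.inv d) z z' hT ?_)
    rw [S.inv_inv, ← hd, hkz]

theorem quotient_homeo : Nonempty (Quotient S.orb ≃ₜ Quot S.Glue) := by
  have hq : IsQuotientMap S.H04_f :=
    S.H04_isClosedMap_f.isQuotientMap S.H04_continuous_f S.H04_surjective_f
  let g : Quot S.Glue → Quotient S.orb := Quot.lift S.H04_f (fun _ _ h => S.H04_glue_orb h)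
  have hgc : Continuous g := continuous_quot_lift _ S.H04_continuous_f
  have hginj : Function.Injective g := by
    intro x y
    induction x using Quot.inductionOn with
    | h x =>
      induction y using Quot.inductionOn with
      | h y => exact fun h => S.H04_orb_glue h
  have hgsurj : Function.Surjective g := by
    intro q
    obtain ⟨z, hz⟩ := S.H04_surjective_f q
    exact ⟨Quot.mk _ z, hz⟩
  have hgq : IsQuotientMap g := IsQuotientMap.of_comp continuous_quot_mk hgc hq
  let e : Quot S.Glue ≃ Quotient S.orb := Equiv.ofBijective g ⟨hginj, hgsurj⟩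
  have hopen : IsOpenMap e := by
    intro U hU
    have : g ⁻¹' (g '' U) = U := preimage_image_eq U hginj
    have h2 : IsOpen (g ⁻¹' (g '' U)) := by rw [this]; exact hU
    exact hgq.isOpen_preimage.1 h2
  exact ⟨(e.toHomeomorphOfContinuousOpen hgc hopen).symm⟩

end Pool.Agent.AllSurf.Schottky
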