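import Pool.Agent.Lib.MP_7f477e_gt.U05

/-!
# MP_7f477e_gt, U04: the upper half plane minus half discs

`HalfDiscs`: half discs `{|z - c d| < ρ d}` in `ℍ` with disjoint diameters in the order of `E`,
summable radii, and maps `φ d` of the boundary semicircle of `d` onto the one of `inv d`,
reversing the direction. `D` = complement of the open half discs.

Put `σ x = ∑' d, √(max 0 (ρ d ^ 2 - (x - c d) ^ 2))` (at most one nonzero term, continuous by
`continuous_tsum`). `(x, y) ↦ (x, y - σ x)` is a homeomorphism of `D` onto the `Base` of the slots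
`l d = c d - ρ d`, `r d = c d + ρ d`, `f d x = (φ d (x + i σ x)).re`; it carries `Glue` to `Glue`.
Then use `Slots.surf_homeo` and `quot_homeo` (U05).
-/

set_option autoImplicit false

open Set Topology UpperHalfPlane

namespace Pool.Agent.AllSurf

/-- half discs with gluing maps -/
structure HalfDiscs {E : Type} [LinearOrder E] (C : Chords E) where
  c : E → ℝ
  ρ : E → ℝ
  ρ_pos : ∀ d, 0 < ρ d
  ρ_sum : Summable ρ
  sep : ∀ d e, d < e → c d + ρ d ≤ c e - ρ e
  φ : E → ℍ → ℍ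
  maps : ∀ d (z : ℍ), (z.re - c d) ^ 2 + z.im ^ 2 = ρ d ^ 2 →
    ((φ d z).re - c (C.inv d)) ^ 2 + (φ d z).im ^ 2 = ρ (C.inv d) ^ 2
  finv : ∀ d (z : ℍ), (z.re - c d) ^ 2 + z.im ^ 2 = ρ d ^ 2 → φ (C.inv d) (φ d z) = z
  anti : ∀ d (z z' : ℍ), (z.re - c d) ^ 2 + z.im ^ 2 = ρ d ^ 2 →
    (z'.re - c d) ^ 2 + z'.im ^ 2 = ρ d ^ 2 → z.re < z'.re → (φ d z').re < (φ d z).re

namespace HalfDiscs

variable {E : Type} [LinearOrder E] {C : Chords E} (S : HalfDiscs C)

/-- the complement of the open half discs -/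
def D : Type := {z : ℍ // ∀ d, S.ρ d ^ 2 ≤ (z.re - S.c d) ^ 2 + z.im ^ 2}

noncomputable instance : TopologicalSpace S.D := instTopologicalSpaceSubtype

/-- gluing of the boundary semicircles -/
inductive Glue : S.D → S.D → Prop
  | mk (d : E) (p p' : S.D) (hp : (p.1.re - S.c d) ^ 2 + p.1.im ^ 2 = S.ρ d ^ 2)
      (hp' : p'.1 = S.φ d p.1) : Glue p p'

/-- the glued surface -/
def Surf : Type := Quot S.Glue

noncomputable instance : TopologicalSpace S.Surf := instTopologicalSpaceQuot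

/-- the height of the half disc of `d` -/
noncomputable def U04_s (d : E) (x : ℝ) : ℝ := √(max 0 (S.ρ d ^ 2 - (x - S.c d) ^ 2))

theorem U04_s_nonneg (d : E) (x : ℝ) : 0 ≤ S.U04_s d x := Real.sqrt_nonneg _

theorem U04_s_le (d : E) (x : ℝ) : S.U04_s d x ≤ S.ρ d := by
  unfold U04_s
  apply Real.sqrt_le_iff.2
  refine ⟨(S.ρ_pos d).le, max_le (sq_nonneg _) ?_⟩
  nlinarith [sq_nonneg (x - S.c d)]

theorem U04_s_zero (d : E) (x : ℝ) (h : x ∉ Ioo (S.c d - S.ρ d) (S.c d + S.ρ d)) :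
    S.U04_s d x = 0 := by
  unfold U04_s
  rw [max_eq_left, Real.sqrt_zero]
  have hρ := S.ρ_pos d
  rw [mem_Ioo, not_and_or, not_lt, not_lt] at h
  rcases h with h | h
  · nlinarith
  · nlinarith

theorem U04_s_sq (d : E) (x : ℝ) (h : x ∈ Ioo (S.c d - S.ρ d) (S.c d + S.ρ d)) :
    S.U04_s d x ^ 2 = S.ρ d ^ 2 - (x - S.c d) ^ 2 ∧ 0 < S.U04_s d x := by
  have h0 : 0 < S.ρ d ^ 2 - (x - S.c d) ^ 2 := by nlinarith [h.1, h.2]
  unfold U04_s
  rw [max_eq_right h0.le]
  exact ⟨Real.sq_sqrt h0.le, Real.sqrt_pos.2 h0⟩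

theorem U04_s_cont (d : E) : Continuous (S.U04_s d) := by
  unfold U04_s
  fun_prop

/-- the height of the half discs -/
noncomputable def U04_sig (x : ℝ) : ℝ := ∑' d, S.U04_s d x

theorem U04_sig_cont : Continuous S.U04_sig := by
  unfold U04_sig
  refine continuous_tsum (fun d => S.U04_s_cont d) S.ρ_sum ?_
  intro d x
  rw [Real.norm_eq_abs, abs_of_nonneg (S.U04_s_nonneg d x)]
  exact S.U04_s_le d x

theorem U04_disj (d e : E) (x : ℝ) (h : x ∈ Ioo (S.c d - S.ρ d) (S.c d + S.ρ d))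
    (h' : x ∈ Ioo (S.c e - S.ρ e) (S.c e + S.ρ e)) : e = d := by
  rcases lt_trichotomy e d with h1 | h1 | h1
  · have := S.sep e d h1
    linarith [h.1, h'.2]
  · exact h1
  · have := S.sep d e h1
    linarith [h.2, h'.1]

theorem U04_sig_eq (d : E) (x : ℝ) (h : x ∈ Ioo (S.c d - S.ρ d) (S.c d + S.ρ d)) :
    S.U04_sig x = S.U04_s d x := by
  unfold U04_sig
  refine tsum_eq_single d ?_
  intro e he
  apply S.U04_s_zero
  intro h'
  exact he (S.U04_disj d e x h h')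

theorem U04_sig_zero (x : ℝ) (h : ∀ d, x ∉ Ioo (S.c d - S.ρ d) (S.c d + S.ρ d)) :
    S.U04_sig x = 0 := by
  unfold U04_sig
  rw [show (fun d => S.U04_s d x) = fun _ => 0 from funext fun d => S.U04_s_zero d x (h d)]
  exact tsum_zero

open Classical in
/-- the point of the semicircle of `d` above `x` -/
noncomputable def U04_pt (d : E) (x : ℝ) : ℍ :=
  if h : 0 < S.U04_s d x then UpperHalfPlane.mk ⟨x, S.U04_s d x⟩ h else UpperHalfPlane.I

theorem U04_pt_re (d : E) (x : ℝ) (h : x ∈ Ioo (S.c d - S.ρ d) (S.c d + S.ρ d)) :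
    (S.U04_pt d x).re = x := by
  unfold U04_pt
  rw [dif_pos (S.U04_s_sq d x h).2]
  rfl

theorem U04_pt_im (d : E) (x : ℝ) (h : x ∈ Ioo (S.c d - S.ρ d) (S.c d + S.ρ d)) :
    (S.U04_pt d x).im = S.U04_s d x := by
  unfold U04_pt
  rw [dif_pos (S.U04_s_sq d x h).2]
  rfl

theorem U04_pt_circ (d : E) (x : ℝ) (h : x ∈ Ioo (S.c d - S.ρ d) (S.c d + S.ρ d)) :
    ((S.U04_pt d x).re - S.c d) ^ 2 + (S.U04_pt d x).im ^ 2 = S.ρ d ^ 2 := by
  rw [S.U04_pt_re d x h, S.U04_pt_im d x h, (S.U04_s_sq d x h).1]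
  ring

theorem U04_mem (d : E) (z : ℍ) (h : (z.re - S.c d) ^ 2 + z.im ^ 2 = S.ρ d ^ 2) :
    z.re ∈ Ioo (S.c d - S.ρ d) (S.c d + S.ρ d) := by
  have h1 : 0 < z.im ^ 2 := by have := z.im_pos; positivity
  have h2 : (z.re - S.c d) ^ 2 < S.ρ d ^ 2 := by linarith
  have h3 := abs_lt_of_sq_lt_sq h2 (S.ρ_pos d).le
  rw [abs_lt] at h3
  constructor <;> linarith [h3.1, h3.2]

theorem U04_eq_pt (d : E) (z : ℍ) (h : (z.re - S.c d) ^ 2 + z.im ^ 2 = S.ρ d ^ 2) :
    S.U04_pt d z.re = z := by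
  have hm := S.U04_mem d z h
  apply UpperHalfPlane.ext_re_im
  · exact S.U04_pt_re d _ hm
  · rw [S.U04_pt_im d _ hm]
    have h2 := S.U04_s_sq d _ hm
    have h3 : S.U04_s d z.re ^ 2 = z.im ^ 2 := by rw [h2.1]; linarith
    exact (pow_left_inj₀ h2.2.le z.im_pos.le two_ne_zero).1 h3

/-- the slots -/
noncomputable def U04_slots : Slots C where
  l d := S.c d - S.ρ d
  r d := S.c d + S.ρ d
  lt d := by linarith [S.ρ_pos d]
  sep := S.sep
  f d x := (S.φ d (S.U04_pt d x)).re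
  maps := by
    intro d x hx
    exact S.U04_mem _ _ (S.maps d _ (S.U04_pt_circ d x hx))
  finv := by
    intro d x hx
    rw [S.U04_eq_pt _ _ (S.maps d _ (S.U04_pt_circ d x hx)), S.finv d _ (S.U04_pt_circ d x hx),
      S.U04_pt_re d x hx]
  anti := by
    intro d x hx x' hx' hlt
    apply S.anti d _ _ (S.U04_pt_circ d x hx) (S.U04_pt_circ d x' hx')
    rw [S.U04_pt_re d x hx, S.U04_pt_re d x' hx']
    exact hlt

theorem U04_sig_le (z : ℍ) (hz : ∀ d, S.ρ d ^ 2 ≤ (z.re - S.c d) ^ 2 + z.im ^ 2) :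
    0 ≤ z.im - S.U04_sig z.re ∧ (0 < z.im - S.U04_sig z.re ∨
      ∃ d, z.re ∈ Ioo (S.c d - S.ρ d) (S.c d + S.ρ d)) := by
  by_cases h : ∃ d, z.re ∈ Ioo (S.c d - S.ρ d) (S.c d + S.ρ d)
  · refine ⟨?_, Or.inr h⟩
    obtain ⟨d, hd⟩ := h
    rw [S.U04_sig_eq d _ hd, sub_nonneg]
    refine (pow_le_pow_iff_left₀ (S.U04_s_nonneg d _) z.im_pos.le two_ne_zero).1 ?_
    rw [(S.U04_s_sq d _ hd).1]
    linarith [hz d]
  · push_neg at h
    rw [S.U04_sig_zero _ h, sub_zero]
    exact ⟨z.im_pos.le, Or.inl z.im_pos⟩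

theorem U04_add_pos (x y : ℝ) (hy : 0 ≤ y)
    (h : 0 < y ∨ ∃ d, x ∈ Ioo (S.c d - S.ρ d) (S.c d + S.ρ d)) : 0 < y + S.U04_sig x := by
  by_cases h' : ∃ d, x ∈ Ioo (S.c d - S.ρ d) (S.c d + S.ρ d)
  · obtain ⟨d, hd⟩ := h'
    rw [S.U04_sig_eq d _ hd]
    linarith [(S.U04_s_sq d _ hd).2]
  · rcases h with h | h
    · push_neg at h'
      rw [S.U04_sig_zero _ h']
      linarith
    · exact absurd h h'

/-- the shear -/
noncomputable def U04_homeo : S.D ≃ₜ S.U04_slots.Base where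
  toFun z := ⟨(z.1.re, z.1.im - S.U04_sig z.1.re), S.U04_sig_le z.1 z.2⟩
  invFun p := ⟨UpperHalfPlane.mk ⟨p.1.1, p.1.2 + S.U04_sig p.1.1⟩
    (S.U04_add_pos p.1.1 p.1.2 p.2.1 p.2.2), by
      intro d
      show S.ρ d ^ 2 ≤ (p.1.1 - S.c d) ^ 2 + (p.1.2 + S.U04_sig p.1.1) ^ 2
      by_cases h : p.1.1 ∈ Ioo (S.c d - S.ρ d) (S.c d + S.ρ d)
      · rw [S.U04_sig_eq d _ h]
        have h1 := (S.U04_s_sq d _ h).1
        have h2 := (S.U04_s_sq d _ h).2
        have h3 := p.2.1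
        nlinarith
      · rw [mem_Ioo, not_and_or, not_lt, not_lt] at h
        have hρ := S.ρ_pos d
        have h3 := sq_nonneg (p.1.2 + S.U04_sig p.1.1)
        rcases h with h | h
        · nlinarith
        · nlinarith⟩
  left_inv z := by
    apply Subtype.ext
    apply UpperHalfPlane.ext_re_im
    · rfl
    · show z.1.im - S.U04_sig z.1.re + S.U04_sig z.1.re = z.1.im
      ring
  right_inv p := by
    apply Subtype.ext
    show (p.1.1, p.1.2 + S.U04_sig p.1.1 - S.U04_sig p.1.1) = p.1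
    rw [add_sub_cancel_right]
  continuous_toFun := by
    refine Continuous.subtype_mk ?_ _
    have h1 : Continuous fun z : S.D => z.1.re := UpperHalfPlane.continuous_re.comp continuous_subtype_val
    have h2 : Continuous fun z : S.D => z.1.im := UpperHalfPlane.continuous_im.comp continuous_subtype_val
    exact h1.prodMk (h2.sub (S.U04_sig_cont.comp h1))
  continuous_invFun := by
    refine Continuous.subtype_mk ?_ _
    rw [UpperHalfPlane.isEmbedding_coe.continuous_iff]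
    have h1 : Continuous fun p : S.U04_slots.Base => p.1.1 := continuous_fst.comp continuous_subtype_val
    have h2 : Continuous fun p : S.U04_slots.Base => p.1.2 := continuous_snd.comp continuous_subtype_val
    exact Complex.equivRealProdCLM.symm.continuous.comp
      (h1.prodMk (h2.add (S.U04_sig_cont.comp h1)))

theorem U04_glue (p p' : S.D) : S.Glue p p' ↔ S.U04_slots.Glue (S.U04_homeo p) (S.U04_homeo p') := by
  constructor
  · rintro ⟨d, _, _, hp, hp'⟩
    have hm := S.U04_mem d _ hp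
    have hc := S.maps d _ hp
    have key : ∀ (e : E) (q : S.D), (q.1.re - S.c e) ^ 2 + q.1.im ^ 2 = S.ρ e ^ 2 →
        (S.U04_homeo q).1 = (q.1.re, 0) := by
      intro e q hq
      show (q.1.re, q.1.im - S.U04_sig q.1.re) = (q.1.re, 0)
      have hq2 := S.U04_mem e _ hq
      have h3 := S.U04_pt_im e _ hq2
      rw [S.U04_eq_pt e _ hq] at h3
      rw [S.U04_sig_eq e _ hq2, ← h3, sub_self]
    refine Slots.Glue.mk d p.1.re hm _ _ (key d p hp) ?_
    rw [key (C.inv d) p' (by rw [hp']; exact hc)]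
    show (p'.1.re, (0 : ℝ)) = ((S.φ d (S.U04_pt d p.1.re)).re, 0)
    rw [S.U04_eq_pt d _ hp, hp']
  · intro h
    have key : ∀ (e : E) (q : S.D) (x : ℝ), x ∈ Ioo (S.c e - S.ρ e) (S.c e + S.ρ e) →
        (S.U04_homeo q).1 = (x, 0) → q.1 = S.U04_pt e x := by
      intro e q x hx hq
      have h1 : q.1.re = x := congrArg Prod.fst hq
      have h2 : q.1.im - S.U04_sig q.1.re = 0 := congrArg Prod.snd hq
      apply UpperHalfPlane.ext_re_im
      · rw [S.U04_pt_re e x hx, h1]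
      · rw [S.U04_pt_im e x hx, ← S.U04_sig_eq e x hx, ← h1]
        linarith
    generalize hq : S.U04_homeo p = q at h
    generalize hq' : S.U04_homeo p' = q' at h
    obtain ⟨d, x, hx, _, _, hp, hp'⟩ := h
    have e1 := key d p x hx (by rw [hq, hp])
    have hx' := S.U04_slots.maps d x hx
    have e2 := key (C.inv d) p' _ hx' (by rw [hq', hp'])
    refine Glue.mk d p p' ?_ ?_
    · rw [e1]; exact S.U04_pt_circ d x hx
    · rw [e2, e1]
      exact S.U04_eq_pt (C.inv d) _ (S.maps d _ (S.U04_pt_circ d x hx))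

theorem surf_homeo : Nonempty (S.Surf ≃ₜ C.Surf) := by
  obtain ⟨e1⟩ := quot_homeo S.U04_homeo S.Glue S.U04_slots.Glue S.U04_glue
  obtain ⟨e2⟩ := S.U04_slots.surf_homeo
  exact ⟨e1.trans e2⟩

end HalfDiscs

end Pool.Agent.AllSurf
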