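import Pool.Agent.Lib.MP_7f477e_gt.H04
import Pool.Agent.Lib.MP_7f477e_gt.U04

/-!
# MP_7f477e_gt, H05: the quotient by a Schottky group of half discs is a chord surface

Build `HalfDiscs C` with `φ d z = a (g (inv d)) z`; its `D` and `Glue` are those of `S`
(`z ∈ D`, `z ∈ T d` iff `z` is on the semicircle of `d`). `maps`: for `z` on the semicircle of `d`:
`z ∈ T d`, `z ∉ O d`; by `map1` for `inv d` (`inv (inv d) = d`) `w = a (g (inv d)) z ∈ T (inv d)`; and
`w ∉ O (inv d)`, otherwise `z = a (g d) w ∉ T d` by `map3` for `d`. Then `H04` and `HalfDiscs.surf_homeo`,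
`quot_homeo`.
-/

set_option autoImplicit false

open Set Topology UpperHalfPlane

namespace Pool.Agent.AllSurf.Schottky

variable {G : Type} [Group G] {E : Type} [LinearOrder E]

omit [LinearOrder E] in
theorem H05_cancel (S : Schottky G E) (d : E) (z : ℍ) :
    S.a (S.g d) (S.a (S.g (S.inv d)) z) = z := by
  have h : S.a (S.g (S.inv d)) = (S.a (S.g d))⁻¹ := by rw [S.g_inv, map_inv]
  rw [h]
  exact (S.a (S.g d)).apply_symm_apply z

omit [LinearOrder E] in
theorem H05_on (S : Schottky G E) (d : E) (z : ℍ) (hT : z ∈ S.T d) (hO : z ∉ S.O d) :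
    S.a (S.g (S.inv d)) z ∈ S.T (S.inv d) ∧ S.a (S.g (S.inv d)) z ∉ S.O (S.inv d) := by
  constructor
  · apply S.map1
    rw [S.inv_inv]
    exact hO
  · intro h
    have h3 := S.map3 d _ h
    rw [H05_cancel] at h3
    exact h3 hT

theorem chord_homeo (C : Chords E) (S : Schottky G E) (hinv : ∀ d, S.inv d = C.inv d)
    (c ρ : E → ℝ) (hρ : ∀ d, 0 < ρ d) (hsum : Summable ρ)
    (hsep : ∀ d e, d < e → c d + ρ d ≤ c e - ρ e)
    (hT : ∀ d (z : ℍ), z ∈ S.T d ↔ (z.re - c d) ^ 2 + z.im ^ 2 ≤ ρ d ^ 2)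
    (hO : ∀ d (z : ℍ), z ∈ S.O d ↔ (z.re - c d) ^ 2 + z.im ^ 2 < ρ d ^ 2)
    (hanti : ∀ d (z z' : ℍ), (z.re - c d) ^ 2 + z.im ^ 2 = ρ d ^ 2 →
      (z'.re - c d) ^ 2 + z'.im ^ 2 = ρ d ^ 2 → z.re < z'.re →
      (S.a (S.g (S.inv d)) z').re < (S.a (S.g (S.inv d)) z).re) :
    Nonempty (Quotient S.orb ≃ₜ C.Surf) := by
  have hon : ∀ d (z : ℍ), ((z.re - c d) ^ 2 + z.im ^ 2 = ρ d ^ 2) ↔ (z ∈ S.T d ∧ z ∉ S.O d) := by
    intro d z
    rw [hT, hO]
    constructor
    · intro h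
      exact ⟨h.le, not_lt.2 h.ge⟩
    · rintro ⟨h1, h2⟩
      exact le_antisymm h1 (not_lt.1 h2)
  let Hd : HalfDiscs C :=
    { c := c
      ρ := ρ
      ρ_pos := hρ
      ρ_sum := hsum
      sep := hsep
      φ := fun d z => S.a (S.g (S.inv d)) z
      maps := by
        intro d z hz
        obtain ⟨h1, h2⟩ := (hon d z).1 hz
        rw [← hinv]
        exact (hon (S.inv d) _).2 (H05_on S d z h1 h2)
      finv := by
        intro d z _
        change S.a (S.g (S.inv (C.inv d))) (S.a (S.g (S.inv d)) z) = z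
        rw [← hinv, S.inv_inv]
        exact H05_cancel S d z
      anti := hanti }
  have hD : ∀ z : ℍ, z ∈ S.D ↔ ∀ d, ρ d ^ 2 ≤ (z.re - c d) ^ 2 + z.im ^ 2 := by
    intro z
    constructor
    · intro h d
      exact not_lt.1 (fun h' => h d ((hO d z).2 h'))
    · intro h d h'
      exact absurd ((hO d z).1 h') (not_lt.2 (h d))
  let e : S.D ≃ₜ Hd.D :=
    { toFun := fun z => ⟨z.1, (hD z.1).1 z.2⟩
      invFun := fun z => ⟨z.1, (hD z.1).2 z.2⟩
      left_inv := fun z => rfl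
      right_inv := fun z => rfl
      continuous_toFun := Continuous.subtype_mk continuous_subtype_val _
      continuous_invFun := Continuous.subtype_mk continuous_subtype_val _ }
  have hglue : ∀ z z' : S.D, S.Glue z z' ↔ Hd.Glue (e z) (e z') := by
    intro z z'
    constructor
    · intro h
      cases h with
      | mk d _ _ hp hp' =>
        exact HalfDiscs.Glue.mk d (e z) (e z') ((hon d z.1).2 ⟨hp, z.2 d⟩) hp'
    · intro h
      obtain ⟨d, hp, hp'⟩ : ∃ d, (z.1.re - c d) ^ 2 + z.1.im ^ 2 = ρ d ^ 2 ∧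
          z'.1 = S.a (S.g (S.inv d)) z.1 := by
        generalize hx : e z = x at h
        generalize hy : e z' = y at h
        cases h with
        | mk d _ _ hp hp' =>
          subst hx hy
          exact ⟨d, hp, hp'⟩
      exact Schottky.Glue.mk d z z' ((hon d z.1).1 hp).1 hp'
  obtain ⟨f1⟩ := S.quotient_homeo
  obtain ⟨f2⟩ := quot_homeo e S.Glue Hd.Glue hglue
  obtain ⟨f3⟩ := Hd.surf_homeo
  exact ⟨(f1.trans f2).trans f3⟩

end Pool.Agent.AllSurf.Schottky
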