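import Mathlib

/-!
# MP_7f477e_gt, H06: Möbius maps and half discs

`Qd p q z ≤ 0` is the closed half disc with diameter `[p, q]`. For `w = g z`, `p' = (A p + B) / (C p + D)`:
`w - p' = (A D - B C) (z - p) / ((C z + D) (C p + D))`, so
`Qd p' q' w = Re ((w - p') (w - q')^*) = (A D - B C)² Qd p q z / (|C z + D|² (C p + D) (C q + D))` (`qd_mob`).

`mono_arc`, `anti_arc`: on the semicircle `Qd p q z = 0`: `|z - p|² = (re z - p) (q - p)`,
`|z - q|² = (q - re z) (q - p)`; likewise for `w` (also when `q' < p'`), so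
`(re w - p') / (q' - re w) = κ (re z - p) / (q - re z)` with `κ = (C q + D)² / (C p + D)² > 0`.
-/

set_option autoImplicit false

open Set Topology UpperHalfPlane

namespace Pool.Agent.AllSurf

/-- the form of the half disc with diameter `[p, q]` -/
noncomputable def Qd (p q : ℝ) (z : ℍ) : ℝ := (z.re - p) * (z.re - q) + z.im ^ 2

/-- `g` is the Möbius map with matrix `A B C D` -/
def IsMob (g : ℍ ≃ᵢ ℍ) (A B C D : ℝ) : Prop :=
  0 < A * D - B * C ∧ ∀ z : ℍ, ((g z : ℍ) : ℂ) * ((C : ℂ) * (z : ℂ) + (D : ℂ)) = (A : ℂ) * (z : ℂ) + (B : ℂ)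

theorem isMob_one : IsMob 1 1 0 0 1 := by
  refine ⟨by norm_num, fun z => ?_⟩
  have h : ((1 : ℍ ≃ᵢ ℍ) z) = z := rfl
  rw [h]
  push_cast
  ring

theorem IsMob.mul {g g' : ℍ ≃ᵢ ℍ} {A B C D A' B' C' D' : ℝ} (h : IsMob g A B C D)
    (h' : IsMob g' A' B' C' D') :
    IsMob (g * g') (A * A' + B * C') (A * B' + B * D') (C * A' + D * C') (C * B' + D * D') := by
  refine ⟨?_, fun z => ?_⟩
  · have h3 := mul_pos h.1 h'.1
    nlinarith [h3]
  · have h1 := h.2 (g' z)
    have h2 := h'.2 z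
    have e : ((g * g') z) = g (g' z) := rfl
    rw [e]
    push_cast
    have e1 : ((C : ℂ) * ((g' z : ℍ) : ℂ) + (D : ℂ)) * ((C' : ℂ) * (z : ℂ) + (D' : ℂ)) =
        ((C : ℂ) * A' + D * C') * (z : ℂ) + (C * B' + D * D') := by
      linear_combination (C : ℂ) * h2
    rw [← e1]
    linear_combination ((C' : ℂ) * (z : ℂ) + (D' : ℂ)) * h1 + (A : ℂ) * h2

theorem IsMob.inv {g : ℍ ≃ᵢ ℍ} {A B C D : ℝ} (h : IsMob g A B C D) : IsMob g⁻¹ D (-B) (-C) A := by
  refine ⟨by nlinarith [h.1], fun z => ?_⟩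
  have h1 := h.2 (g⁻¹ z)
  have e : g (g⁻¹ z) = z := g.apply_symm_apply z
  rw [e] at h1
  push_cast
  linear_combination -h1

/-- the matrix can be multiplied with a nonzero constant -/
theorem IsMob.smul {g : ℍ ≃ᵢ ℍ} {A B C D A' B' C' D' : ℝ} (h : IsMob g A B C D) (k : ℝ) (hk : k ≠ 0)
    (hA : A = k * A') (hB : B = k * B') (hC : C = k * C') (hD : D = k * D') : IsMob g A' B' C' D' := by
  subst hA hB hC hD
  have hk2 : 0 < k ^ 2 := by positivity
  refine ⟨?_, fun z => ?_⟩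
  · have h1 := h.1
    have h2 : k * A' * (k * D') - k * B' * (k * C') = k ^ 2 * (A' * D' - B' * C') := by ring
    rw [h2] at h1
    exact (mul_pos_iff_of_pos_left hk2).1 h1
  · have h1 := h.2 z
    push_cast at h1
    have hk' : (k : ℂ) ≠ 0 := by exact_mod_cast hk
    apply mul_left_cancel₀ hk'
    linear_combination h1

theorem IsMob.h06_real {g : ℍ ≃ᵢ ℍ} {A B C D : ℝ} (h : IsMob g A B C D) (z : ℍ) :
    (g z).re * (C * z.re + D) - (g z).im * (C * z.im) = A * z.re + B ∧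
      (g z).re * (C * z.im) + (g z).im * (C * z.re + D) = A * z.im := by
  have h1 := h.2 z
  have hre := congrArg Complex.re h1
  have him := congrArg Complex.im h1
  simp only [Complex.mul_re, Complex.mul_im, Complex.add_re, Complex.add_im, Complex.ofReal_re,
    Complex.ofReal_im, UpperHalfPlane.coe_re, UpperHalfPlane.coe_im, zero_mul, sub_zero, add_zero] at hre him
  constructor
  · linarith
  · linarith

theorem IsMob.h06_pos {g : ℍ ≃ᵢ ℍ} {A B C D : ℝ} (h : IsMob g A B C D) (z : ℍ) :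
    0 < (C * z.re + D) ^ 2 + (C * z.im) ^ 2 := by
  have hd := h.1
  have hy := z.im_pos
  by_cases hC : C = 0
  · have hD : D ≠ 0 := by
      rintro rfl
      rw [hC] at hd
      simp at hd
    have : 0 < D ^ 2 := by positivity
    rw [hC]
    nlinarith
  · have h1 : C * z.im ≠ 0 := mul_ne_zero hC hy.ne'
    have : 0 < (C * z.im) ^ 2 := by positivity
    nlinarith [sq_nonneg (C * z.re + D)]

theorem IsMob.h06_arc {g : ℍ ≃ᵢ ℍ} {A B C D : ℝ} (h : IsMob g A B C D) {p q : ℝ} (z : ℍ)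
    (hz : Qd p q z = 0) :
    (C * z.re + D) ^ 2 + (C * z.im) ^ 2 = (2 * C * D + C ^ 2 * (p + q)) * z.re + (D ^ 2 - C ^ 2 * (p * q)) ∧
      (g z).re * ((C * z.re + D) ^ 2 + (C * z.im) ^ 2) =
        (A * D + B * C + A * C * (p + q)) * z.re + (B * D - A * C * (p * q)) := by
  obtain ⟨h1, h2⟩ := h.h06_real z
  unfold Qd at hz
  constructor
  · linear_combination C ^ 2 * hz
  · linear_combination (C * z.re + D) * h1 + (C * z.im) * h2 + A * C * hz

theorem IsMob.h06_diff {g : ℍ ≃ᵢ ℍ} {A B C D : ℝ} (h : IsMob g A B C D) {p q : ℝ} (z z' : ℍ)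
    (hz : Qd p q z = 0) (hz' : Qd p q z' = 0) :
    ((g z').re - (g z).re) * (((C * z.re + D) ^ 2 + (C * z.im) ^ 2) * ((C * z'.re + D) ^ 2 + (C * z'.im) ^ 2)) =
      (A * D - B * C) * ((C * p + D) * (C * q + D)) * (z'.re - z.re) := by
  obtain ⟨a1, a2⟩ := h.h06_arc z hz
  obtain ⟨b1, b2⟩ := h.h06_arc z' hz'
  have e : ((g z').re - (g z).re) * (((C * z.re + D) ^ 2 + (C * z.im) ^ 2) * ((C * z'.re + D) ^ 2 + (C * z'.im) ^ 2)) =
      ((g z').re * ((C * z'.re + D) ^ 2 + (C * z'.im) ^ 2)) * ((C * z.re + D) ^ 2 + (C * z.im) ^ 2) -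
      ((g z).re * ((C * z.re + D) ^ 2 + (C * z.im) ^ 2)) * ((C * z'.re + D) ^ 2 + (C * z'.im) ^ 2) := by ring
  rw [e, a2, b2, a1, b1]
  ring

theorem IsMob.qd {g : ℍ ≃ᵢ ℍ} {A B C D : ℝ} (h : IsMob g A B C D) {p q : ℝ} (hp : C * p + D ≠ 0)
    (hq : C * q + D ≠ 0) (z : ℍ) : ∃ κ : ℝ, 0 < κ ∧
      Qd ((A * p + B) / (C * p + D)) ((A * q + B) / (C * q + D)) (g z) * ((C * p + D) * (C * q + D)) =
        κ * Qd p q z := by
  obtain ⟨h1, h2⟩ := h.h06_real z
  have hN := h.h06_pos z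
  have hd := h.1
  refine ⟨(A * D - B * C) ^ 2 / ((C * z.re + D) ^ 2 + (C * z.im) ^ 2), div_pos (by positivity) hN, ?_⟩
  have key : ∀ r : ℝ, ((g z).re * (C * r + D) - (A * r + B)) * (C * z.re + D) -
        (g z).im * (C * r + D) * (C * z.im) = (A * D - B * C) * (z.re - r) ∧
      ((g z).re * (C * r + D) - (A * r + B)) * (C * z.im) +
        (g z).im * (C * r + D) * (C * z.re + D) = (A * D - B * C) * z.im := by
    intro r
    constructor
    · linear_combination (C * r + D) * h1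
    · linear_combination (C * r + D) * h2
  obtain ⟨p1, p2⟩ := key p
  obtain ⟨q1, q2⟩ := key q
  have e1 : Qd ((A * p + B) / (C * p + D)) ((A * q + B) / (C * q + D)) (g z) * ((C * p + D) * (C * q + D)) =
      ((g z).re * (C * p + D) - (A * p + B)) * ((g z).re * (C * q + D) - (A * q + B)) +
        ((g z).im * (C * p + D)) * ((g z).im * (C * q + D)) := by
    have eP := div_mul_cancel₀ (A * p + B) hp
    have eQ := div_mul_cancel₀ (A * q + B) hq
    unfold Qd
    generalize (A * p + B) / (C * p + D) = P at eP ⊢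
    generalize (A * q + B) / (C * q + D) = Q at eQ ⊢
    linear_combination (-((g z).re * (C * q + D) - Q * (C * q + D))) * eP +
      (-((g z).re * (C * p + D) - (A * p + B))) * eQ
  rw [e1, div_mul_eq_mul_div, eq_div_iff hN.ne']
  unfold Qd
  have e2 : (((g z).re * (C * p + D) - (A * p + B)) * ((g z).re * (C * q + D) - (A * q + B)) +
        ((g z).im * (C * p + D)) * ((g z).im * (C * q + D))) * ((C * z.re + D) ^ 2 + (C * z.im) ^ 2) =
      (((g z).re * (C * p + D) - (A * p + B)) * (C * z.re + D) - (g z).im * (C * p + D) * (C * z.im)) *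
        (((g z).re * (C * q + D) - (A * q + B)) * (C * z.re + D) - (g z).im * (C * q + D) * (C * z.im)) +
      (((g z).re * (C * p + D) - (A * p + B)) * (C * z.im) + (g z).im * (C * p + D) * (C * z.re + D)) *
        (((g z).re * (C * q + D) - (A * q + B)) * (C * z.im) + (g z).im * (C * q + D) * (C * z.re + D)) := by
    ring
  rw [e2, p1, p2, q1, q2]
  ring

theorem IsMob.mono_arc {g : ℍ ≃ᵢ ℍ} {A B C D : ℝ} (h : IsMob g A B C D) {p q : ℝ} (hpq : p < q)
    (hp : 0 < (C * p + D) * (C * q + D)) (z z' : ℍ) (hz : Qd p q z = 0) (hz' : Qd p q z' = 0)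
    (hre : z.re < z'.re) : (g z).re < (g z').re := by
  have h1 := h.h06_diff z z' hz hz'
  have h2 := mul_pos (h.h06_pos z) (h.h06_pos z')
  have h3 : 0 < (A * D - B * C) * ((C * p + D) * (C * q + D)) * (z'.re - z.re) :=
    mul_pos (mul_pos h.1 hp) (by linarith)
  rw [← h1] at h3
  have h4 := (mul_pos_iff_of_pos_right h2).1 h3
  linarith

theorem IsMob.anti_arc {g : ℍ ≃ᵢ ℍ} {A B C D : ℝ} (h : IsMob g A B C D) {p q : ℝ} (hpq : p < q)
    (hp : (C * p + D) * (C * q + D) < 0) (z z' : ℍ) (hz : Qd p q z = 0) (hz' : Qd p q z' = 0)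
    (hre : z.re < z'.re) : (g z').re < (g z).re := by
  have h1 := h.h06_diff z z' hz hz'
  have h2 := mul_pos (h.h06_pos z) (h.h06_pos z')
  have h3 : (A * D - B * C) * ((C * p + D) * (C * q + D)) * (z'.re - z.re) < 0 :=
    mul_neg_of_neg_of_pos (mul_neg_of_pos_of_neg h.1 hp) (by linarith)
  rw [← h1] at h3
  have h4 : 0 < ((g z).re - (g z').re) * (((C * z.re + D) ^ 2 + (C * z.im) ^ 2) * ((C * z'.re + D) ^ 2 + (C * z'.im) ^ 2)) := by
    linarith
  have h5 := (mul_pos_iff_of_pos_right h2).1 h4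
  linarith

/-- `g` moves the half discs with diameter in `I` by the increasing function `f` -/
structure Moves (g : ℍ ≃ᵢ ℍ) (f : ℝ → ℝ) (I : Set ℝ) : Prop where
  lt : ∀ p ∈ I, ∀ q ∈ I, p < q → f p < f q
  le0 : ∀ p ∈ I, ∀ q ∈ I, p < q → ∀ z, Qd (f p) (f q) (g z) ≤ 0 ↔ Qd p q z ≤ 0
  lt0 : ∀ p ∈ I, ∀ q ∈ I, p < q → ∀ z, Qd (f p) (f q) (g z) < 0 ↔ Qd p q z < 0
  mono : ∀ p ∈ I, ∀ q ∈ I, p < q → ∀ z z', Qd p q z = 0 → Qd p q z' = 0 → z.re < z'.re →
    (g z).re < (g z').re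

theorem Moves.one (I : Set ℝ) : Moves 1 id I := by
  refine ⟨fun p _ q _ h => h, fun p _ q _ _ z => Iff.rfl, fun p _ q _ _ z => Iff.rfl, ?_⟩
  intro p _ q _ _ z z' _ _ h
  exact h

theorem Moves.comp {g g' : ℍ ≃ᵢ ℍ} {f f' : ℝ → ℝ} {I I' : Set ℝ} (h : Moves g f I)
    (h' : Moves g' f' I') (hI : ∀ x ∈ I', f' x ∈ I) : Moves (g * g') (fun x => f (f' x)) I' := by
  have e : ∀ z, (g * g') z = g (g' z) := fun _ => rfl
  have zero : ∀ p ∈ I', ∀ q ∈ I', p < q → ∀ z, Qd p q z = 0 → Qd (f' p) (f' q) (g' z) = 0 := by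
    intro p hp q hq hpq z hz
    apply le_antisymm
    · exact (h'.le0 p hp q hq hpq z).2 hz.le
    · by_contra hc
      exact absurd ((h'.lt0 p hp q hq hpq z).1 (not_le.1 hc)) (by rw [hz]; exact lt_irrefl _)
  refine ⟨?_, ?_, ?_, ?_⟩
  · intro p hp q hq hpq
    exact h.lt _ (hI p hp) _ (hI q hq) (h'.lt p hp q hq hpq)
  · intro p hp q hq hpq z
    exact (h.le0 _ (hI p hp) _ (hI q hq) (h'.lt p hp q hq hpq) (g' z)).trans (h'.le0 p hp q hq hpq z)
  · intro p hp q hq hpq z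
    exact (h.lt0 _ (hI p hp) _ (hI q hq) (h'.lt p hp q hq hpq) (g' z)).trans (h'.lt0 p hp q hq hpq z)
  · intro p hp q hq hpq z z' hz hz' hzz
    exact h.mono _ (hI p hp) _ (hI q hq) (h'.lt p hp q hq hpq) (g' z) (g' z') (zero p hp q hq hpq z hz)
      (zero p hp q hq hpq z' hz') (h'.mono p hp q hq hpq z z' hz hz' hzz)

theorem IsMob.moves {g : ℍ ≃ᵢ ℍ} {A B C D : ℝ} (h : IsMob g A B C D) {I : Set ℝ}
    (hI : ∀ x ∈ I, 0 < C * x + D) : Moves g (fun x => (A * x + B) / (C * x + D)) I := by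
  refine ⟨?_, ?_, ?_, ?_⟩
  · intro p hp q hq hpq
    show (A * p + B) / (C * p + D) < (A * q + B) / (C * q + D)
    rw [div_lt_div_iff₀ (hI p hp) (hI q hq)]
    nlinarith [mul_pos h.1 (sub_pos.2 hpq)]
  · intro p hp q hq hpq z
    obtain ⟨κ, hκ, hk⟩ := h.qd (hI p hp).ne' (hI q hq).ne' z
    have hP := mul_pos (hI p hp) (hI q hq)
    constructor
    · intro h1
      have h2 := mul_nonpos_of_nonpos_of_nonneg h1 hP.le
      rw [hk] at h2
      by_contra hc
      exact absurd (mul_pos hκ (not_le.1 hc)) (not_lt.2 h2)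
    · intro h1
      have h2 := mul_nonpos_of_nonneg_of_nonpos hκ.le h1
      rw [← hk] at h2
      by_contra hc
      exact absurd (mul_pos (not_le.1 hc) hP) (not_lt.2 h2)
  · intro p hp q hq hpq z
    obtain ⟨κ, hκ, hk⟩ := h.qd (hI p hp).ne' (hI q hq).ne' z
    have hP := mul_pos (hI p hp) (hI q hq)
    constructor
    · intro h1
      have h2 := mul_neg_of_neg_of_pos h1 hP
      rw [hk] at h2
      by_contra hc
      exact absurd (mul_nonneg hκ.le (not_lt.1 hc)) (not_le.2 h2)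
    · intro h1
      have h2 := mul_neg_of_pos_of_neg hκ h1
      rw [← hk] at h2
      by_contra hc
      exact absurd (mul_nonneg (not_lt.1 hc) hP.le) (not_le.2 h2)
  · intro p hp q hq hpq z z' hz hz' hzz
    exact h.mono_arc hpq (mul_pos (hI p hp) (hI q hq)) z z' hz hz' hzz

end Pool.Agent.AllSurf
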