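import Pool.Agent.Lib.MP_7f477e_gt.Iface
import Pool.Agent.Lib.MP_7f477e_gt.H06

/-!
# MP_7f477e_gt, H07: the Möbius maps of the generators

`b` has the matrix `5, -4, -4, 5` (`det = 9`), `b ^ n` the matrix `N + 1, 1 - N, 1 - N, N + 1` with
`N = 9 ^ n` (induction, `det = 4 N`; times `b`: `9 N + 1 ...` times `2`... use `IsMob.smul`).
`gamL = b² (a b⁻² a⁻¹ b²) b⁻² = b² a b⁻² a⁻¹`, `gamR = b² a⁻¹ b⁻² a⁻¹`.
`5 - 4 z ≠ 0` for `z ∈ ℍ`.
-/

set_option autoImplicit false

open Set Topology UpperHalfPlane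

namespace Pool.Agent.AllSurf

variable (P : PlaneAction)

theorem mob_a : IsMob (P.ga fa) 9 0 0 1 := by
  refine ⟨by norm_num, fun z => ?_⟩
  rw [P.ga_a]
  push_cast
  ring

theorem mob_b : IsMob (P.ga fb) 5 (-4) (-4) 5 := by
  refine ⟨by norm_num, fun z => ?_⟩
  have hne : (5 : ℂ) - 4 * (z : ℂ) ≠ 0 := by
    intro h
    have h1 := congrArg Complex.im h
    have h2 : z.im = 0 := by
      have h3 : ((5 : ℂ) - 4 * (z : ℂ)).im = -(4 * z.im) := by
        simp [Complex.sub_im, Complex.mul_im, UpperHalfPlane.coe_im]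
      rw [h3] at h1
      simp at h1
      exact h1
    exact z.im_pos.ne' h2
  have h5 : ((-4 : ℝ) : ℂ) * (z : ℂ) + ((5 : ℝ) : ℂ) = 5 - 4 * (z : ℂ) := by
    push_cast
    ring
  rw [P.ga_b, h5, div_mul_cancel₀ _ hne]
  push_cast
  ring

theorem mob_b_pow (n : ℕ) :
    IsMob (P.ga (fb ^ n)) (9 ^ n + 1) (1 - 9 ^ n) (1 - 9 ^ n) (9 ^ n + 1) := by
  induction n with
  | zero =>
    rw [pow_zero, map_one]
    exact isMob_one.smul (1 / 2) (by norm_num) (by norm_num) (by norm_num) (by norm_num)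
      (by norm_num)
  | succ n ih =>
    have h := ih.mul (mob_b P)
    rw [← map_mul, ← pow_succ] at h
    exact h.smul 1 one_ne_zero (by ring) (by ring) (by ring) (by ring)

/-- `gL` conjugated by `b²` -/
def gamL : FF := fb ^ 2 * gL * (fb ^ 2)⁻¹

/-- `gR` conjugated by `b²` -/
def gamR : FF := fb ^ 2 * gR * (fb ^ 2)⁻¹

theorem h07_gamL : gamL = fb ^ 2 * fa * (fb ^ 2)⁻¹ * fa⁻¹ := by
  unfold gamL gL
  group

theorem h07_gamR : gamR = fb ^ 2 * fa⁻¹ * (fb ^ 2)⁻¹ * fa⁻¹ := by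
  unfold gamR gR
  group

theorem mob_gamL : IsMob (P.ga gamL) (-13529) (-118080) 13120 114471 := by
  rw [h07_gamL, map_mul, map_mul, map_mul, map_inv, map_inv]
  have h2 := mob_b_pow P 2
  have h := ((h2.mul (mob_a P)).mul h2.inv).mul (mob_a P).inv
  exact h.smul (-4) (by norm_num) (by norm_num) (by norm_num) (by norm_num) (by norm_num)

theorem mob_gamR : IsMob (P.ga gamR) (-12719) (-118080) 13120 121761 := by
  rw [h07_gamR, map_mul, map_mul, map_mul, map_inv, map_inv]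
  have h2 := mob_b_pow P 2
  have h := ((h2.mul (mob_a P).inv).mul h2.inv).mul (mob_a P).inv
  exact h.smul 4 (by norm_num) (by norm_num) (by norm_num) (by norm_num) (by norm_num)

noncomputable def fL (x : ℝ) : ℝ := ((-13529) * x + (-118080)) / (13120 * x + 114471)

noncomputable def fR (x : ℝ) : ℝ := ((-12719) * x + (-118080)) / (13120 * x + 121761)

theorem h07_posL {x : ℝ} (hx : x ∈ Icc (-3 : ℝ) 3) : 0 < 13120 * x + 114471 := by
  have := hx.1
  linarith

theorem h07_posR {x : ℝ} (hx : x ∈ Icc (-3 : ℝ) 3) : 0 < 13120 * x + 121761 := by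
  have := hx.1
  linarith

theorem moves_gamL : Moves (P.ga gamL) fL (Icc (-3) 3) :=
  (mob_gamL P).moves fun _ hx => h07_posL hx

theorem moves_gamR : Moves (P.ga gamR) fR (Icc (-3) 3) :=
  (mob_gamR P).moves fun _ hx => h07_posR hx

theorem fL_strict : StrictMonoOn fL (Icc (-3) 3) := by
  intro x hx y hy hxy
  unfold fL
  rw [div_lt_div_iff₀ (h07_posL hx) (h07_posL hy)]
  nlinarith

theorem fR_strict : StrictMonoOn fR (Icc (-3) 3) := by
  intro x hx y hy hxy
  unfold fR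
  rw [div_lt_div_iff₀ (h07_posR hx) (h07_posR hy)]
  nlinarith

/-- the values are about `-1.0317 ... -1.0314` -/
theorem fL_mem {x : ℝ} (hx : x ∈ Icc (-3 : ℝ) 3) : fL x ∈ Icc (-1.04 : ℝ) (-1.02) := by
  have h1 := hx.1
  have h2 := hx.2
  unfold fL
  constructor
  · rw [le_div_iff₀ (h07_posL hx)]
    linarith
  · rw [div_le_iff₀ (h07_posL hx)]
    linarith

/-- the values are about `-0.96993 ... -0.96969` -/
theorem fR_mem {x : ℝ} (hx : x ∈ Icc (-3 : ℝ) 3) : fR x ∈ Icc (-0.98 : ℝ) (-0.96) := by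
  have h1 := hx.1
  have h2 := hx.2
  unfold fR
  constructor
  · rw [le_div_iff₀ (h07_posR hx)]
    linarith
  · rw [div_le_iff₀ (h07_posR hx)]
    linarith

end Pool.Agent.AllSurf
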