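import Pool.Agent.Lib.MP_7f477e_gt.H07

/-!
# MP_7f477e_gt, H08: binary words in in-order

`fW W` is the boundary map of `b² wordG W b⁻²`, the slot of `W` is `fW W '' [-1.01, -0.99]`. The slots are
disjoint; their order is a dense linear order: comparing `W`, `W'` by their first letters
(`fL ≤ -1.02 < -1.01 < -1 < -0.99 < -0.98 ≤ fR`, and `fL`, `fR` are strictly increasing on `[-3, 3]`):
* `slot_sep`: if `fW W (-1) < fW W' (-1)` then `fW W (-0.99) < fW W' (-1.01)`;
* `dense`: and then `W ++ [true]` or `W' ++ [false]` is strictly between (if `W' = true :: l`, `W = []` or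
  `W` starts with `false` then `W' ++ [false]`; if `W' = []`, `W = false :: l`, then `W ++ [true]`; same first
  letter: induction).
* `exists_words`: `Order.embedding_from_countable_to_dense` with the set `{x // ∃ W, fW W (-1) = x}`.
-/

set_option autoImplicit false

open Set Topology UpperHalfPlane

namespace Pool.Agent.AllSurf

/-- boundary map of a word -/
noncomputable def fW : List Bool → ℝ → ℝ
  | [], x => x
  | false :: l, x => fL (fW l x)
  | true :: l, x => fR (fW l x)

theorem fW_mem (W : List Bool) {x : ℝ} (hx : x ∈ Icc (-3 : ℝ) 3) : fW W x ∈ Icc (-3 : ℝ) 3 := by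
  cases W with
  | nil => exact hx
  | cons b l =>
    have h : fW l x ∈ Icc (-3 : ℝ) 3 := fW_mem l hx
    cases b
    · have h1 := fL_mem h
      exact ⟨by show (-3 : ℝ) ≤ fL (fW l x); linarith [h1.1], by
        show fL (fW l x) ≤ 3; linarith [h1.2]⟩
    · have h1 := fR_mem h
      exact ⟨by show (-3 : ℝ) ≤ fR (fW l x); linarith [h1.1], by
        show fR (fW l x) ≤ 3; linarith [h1.2]⟩

theorem fW_strict (W : List Bool) : StrictMonoOn (fW W) (Icc (-3) 3) := by
  induction W with
  | nil => intro x _ y _ h; exact h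
  | cons b l ih =>
    intro x hx y hy h
    have h1 := ih hx hy h
    cases b
    · exact fL_strict (fW_mem l hx) (fW_mem l hy) h1
    · exact fR_strict (fW_mem l hx) (fW_mem l hy) h1

theorem moves_word (P : PlaneAction) (W : List Bool) :
    Moves (P.ga (fb ^ 2 * wordG W * (fb ^ 2)⁻¹)) (fW W) (Icc (-3) 3) := by
  induction W with
  | nil =>
    have h : fb ^ 2 * wordG [] * (fb ^ 2)⁻¹ = 1 := by
      show fb ^ 2 * 1 * (fb ^ 2)⁻¹ = 1
      group
    rw [h, map_one]
    exact Moves.one _
  | cons b l ih =>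
    cases b
    · have h : fb ^ 2 * wordG (false :: l) * (fb ^ 2)⁻¹ =
          gamL * (fb ^ 2 * wordG l * (fb ^ 2)⁻¹) := by
        show fb ^ 2 * (gL * wordG l) * (fb ^ 2)⁻¹ = fb ^ 2 * gL * (fb ^ 2)⁻¹ * _
        group
      rw [h, map_mul]
      exact (moves_gamL P).comp ih fun x hx => fW_mem l hx
    · have h : fb ^ 2 * wordG (true :: l) * (fb ^ 2)⁻¹ =
          gamR * (fb ^ 2 * wordG l * (fb ^ 2)⁻¹) := by
        show fb ^ 2 * (gR * wordG l) * (fb ^ 2)⁻¹ = fb ^ 2 * gR * (fb ^ 2)⁻¹ * _
        group
      rw [h, map_mul]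
      exact (moves_gamR P).comp ih fun x hx => fW_mem l hx

theorem fW_append (W W' : List Bool) (x : ℝ) : fW (W ++ W') x = fW W (fW W' x) := by
  induction W with
  | nil => rfl
  | cons b l ih =>
    cases b
    · show fL (fW (l ++ W') x) = fL (fW l (fW W' x))
      rw [ih]
    · show fR (fW (l ++ W') x) = fR (fW l (fW W' x))
      rw [ih]

theorem h08_m1 : (-1 : ℝ) ∈ Icc (-3 : ℝ) 3 := by constructor <;> norm_num
theorem h08_m099 : (-0.99 : ℝ) ∈ Icc (-3 : ℝ) 3 := by constructor <;> norm_num
theorem h08_m101 : (-1.01 : ℝ) ∈ Icc (-3 : ℝ) 3 := by constructor <;> norm_num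

theorem slot_sep (W W' : List Bool) (h : fW W (-1) < fW W' (-1)) :
    fW W (-0.99) < fW W' (-1.01) := by
  induction W generalizing W' with
  | nil =>
    cases W' with
    | nil => exact absurd h (lt_irrefl _)
    | cons b' l' =>
      cases b'
      · have h1 := (fL_mem (fW_mem l' h08_m1)).2
        have h2 : (-1 : ℝ) < fL (fW l' (-1)) := h
        linarith
      · have h1 := (fR_mem (fW_mem l' h08_m101)).1
        show (-0.99 : ℝ) < fR (fW l' (-1.01))
        linarith
  | cons b l ih =>
    cases W' with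
    | nil =>
      cases b
      · have h1 := (fL_mem (fW_mem l h08_m099)).2
        show fL (fW l (-0.99)) < (-1.01 : ℝ)
        linarith
      · have h1 := (fR_mem (fW_mem l h08_m1)).1
        have h2 : fR (fW l (-1)) < (-1 : ℝ) := h
        linarith
    | cons b' l' =>
      cases b <;> cases b'
      · have h1 : fL (fW l (-1)) < fL (fW l' (-1)) := h
        have h2 := (fL_strict.lt_iff_lt (fW_mem l h08_m1) (fW_mem l' h08_m1)).1 h1
        exact fL_strict (fW_mem l h08_m099) (fW_mem l' h08_m101) (ih l' h2)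
      · have h1 := (fL_mem (fW_mem l h08_m099)).2
        have h2 := (fR_mem (fW_mem l' h08_m101)).1
        show fL (fW l (-0.99)) < fR (fW l' (-1.01))
        linarith
      · have h1 := (fR_mem (fW_mem l h08_m1)).1
        have h2 := (fL_mem (fW_mem l' h08_m1)).2
        have h3 : fR (fW l (-1)) < fL (fW l' (-1)) := h
        linarith
      · have h1 : fR (fW l (-1)) < fR (fW l' (-1)) := h
        have h2 := (fR_strict.lt_iff_lt (fW_mem l h08_m1) (fW_mem l' h08_m1)).1 h1
        exact fR_strict (fW_mem l h08_m099) (fW_mem l' h08_m101) (ih l' h2)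

theorem word_dense (W W' : List Bool) (h : fW W (-1) < fW W' (-1)) :
    ∃ V, fW W (-1) < fW V (-1) ∧ fW V (-1) < fW W' (-1) := by
  induction W generalizing W' with
  | nil =>
    cases W' with
    | nil => exact absurd h (lt_irrefl _)
    | cons b' l' =>
      cases b'
      · have h1 := (fL_mem (fW_mem l' h08_m1)).2
        have h2 : (-1 : ℝ) < fL (fW l' (-1)) := h
        linarith
      · have h5 := fL_mem h08_m1
        have h6 : fL (-1) ∈ Icc (-3 : ℝ) 3 := ⟨by linarith [h5.1], by linarith [h5.2]⟩
        refine ⟨true :: l' ++ [false], ?_, ?_⟩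
        · rw [fW_append]
          have h1 := (fR_mem (fW_mem l' h6)).1
          show (-1 : ℝ) < fR (fW l' (fL (-1)))
          linarith
        · rw [fW_append]
          have h7 : fL (-1) < (-1 : ℝ) := by linarith [h5.2]
          exact fW_strict (true :: l') h6 h08_m1 h7
  | cons b l ih =>
    cases W' with
    | nil =>
      cases b
      · have h5 := fR_mem h08_m1
        have h6 : fR (-1) ∈ Icc (-3 : ℝ) 3 := ⟨by linarith [h5.1], by linarith [h5.2]⟩
        refine ⟨false :: l ++ [true], ?_, ?_⟩
        · rw [fW_append]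
          have h7 : (-1 : ℝ) < fR (-1) := by linarith [h5.1]
          exact fW_strict (false :: l) h08_m1 h6 h7
        · rw [fW_append]
          have h1 := (fL_mem (fW_mem l h6)).2
          show fL (fW l (fR (-1))) < (-1 : ℝ)
          linarith
      · have h1 := (fR_mem (fW_mem l h08_m1)).1
        have h2 : fR (fW l (-1)) < (-1 : ℝ) := h
        linarith
    | cons b' l' =>
      cases b <;> cases b'
      · have h1 : fL (fW l (-1)) < fL (fW l' (-1)) := h
        have h2 := (fL_strict.lt_iff_lt (fW_mem l h08_m1) (fW_mem l' h08_m1)).1 h1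
        obtain ⟨V, h3, h4⟩ := ih l' h2
        exact ⟨false :: V, fL_strict (fW_mem l h08_m1) (fW_mem V h08_m1) h3,
          fL_strict (fW_mem V h08_m1) (fW_mem l' h08_m1) h4⟩
      · refine ⟨[], ?_, ?_⟩
        · have h1 := (fL_mem (fW_mem l h08_m1)).2
          show fL (fW l (-1)) < (-1 : ℝ)
          linarith
        · have h1 := (fR_mem (fW_mem l' h08_m1)).1
          show (-1 : ℝ) < fR (fW l' (-1))
          linarith
      · have h1 := (fR_mem (fW_mem l h08_m1)).1
        have h2 := (fL_mem (fW_mem l' h08_m1)).2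
        have h3 : fR (fW l (-1)) < fL (fW l' (-1)) := h
        linarith
      · have h1 : fR (fW l (-1)) < fR (fW l' (-1)) := h
        have h2 := (fR_strict.lt_iff_lt (fW_mem l h08_m1) (fW_mem l' h08_m1)).1 h1
        obtain ⟨V, h3, h4⟩ := ih l' h2
        exact ⟨true :: V, fR_strict (fW_mem l h08_m1) (fW_mem V h08_m1) h3,
          fR_strict (fW_mem V h08_m1) (fW_mem l' h08_m1) h4⟩

theorem exists_words (E : Type) [LinearOrder E] (hE : Countable E) :
    ∃ ι : E → List Bool, ∀ d e, d < e → fW (ι d) (-0.99) < fW (ι e) (-1.01) := by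
  let β : Type := {x : ℝ // ∃ W, fW W (-1) = x}
  have hd : DenselyOrdered β := by
    refine ⟨?_⟩
    rintro ⟨x, W, hW⟩ ⟨y, W', hW'⟩ h
    have h1 : fW W (-1) < fW W' (-1) := by
      rw [hW, hW']
      exact h
    obtain ⟨V, h2, h3⟩ := word_dense W W' h1
    refine ⟨⟨fW V (-1), V, rfl⟩, ?_, ?_⟩
    · show x < fW V (-1)
      rw [← hW]
      exact h2
    · show fW V (-1) < y
      rw [← hW']
      exact h3
  have hn : Nontrivial β := by
    refine ⟨⟨fW [] (-1), [], rfl⟩, ⟨fW [true] (-1), [true], rfl⟩, ?_⟩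
    intro h
    have h1 : (-1 : ℝ) = fR (-1) := congrArg Subtype.val h
    have h2 := (fR_mem h08_m1).1
    linarith
  obtain ⟨f⟩ := Order.embedding_from_countable_to_dense E β
  refine ⟨fun e => (f e).2.choose, fun d e h => ?_⟩
  apply slot_sep
  rw [(f d).2.choose_spec, (f e).2.choose_spec]
  exact f.lt_iff_lt.2 h

end Pool.Agent.AllSurf
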