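import Pool.Agent.Lib.MP_7f477e_gt.H08

/-!
# MP_7f477e_gt, H09: the half discs of the chords

`fb ^ 2 * wordG W * fb ^ (j + 1) = (fb ^ 2 * wordG W * (fb ^ 2)⁻¹) * fb ^ (j + 3)`. The map `b ^ (j + 3)` (matrix
`N + 1, 1 - N, 1 - N, N + 1`, `N = 9 ^ (j + 3)`) sends `3, -3` to `-(N + 2) / (N - 2)`, `-(2 N + 1) / (2 N - 1)`, and
`-1/3, 1/3` to `-(2 N - 1) / (2 N + 1)`, `-(N - 2) / (N + 2)`. `|z| = r` iff `Qd (-r) r z = 0`. For `3, -3` the
product `(C p + D) (C q + D)` is negative (`anti_arc`), for `-1/3, 1/3` positive (`mono_arc`). Then use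
`moves_word`. All end points are in `[-1.01, -0.99]`.
-/

set_option autoImplicit false

open Set Topology UpperHalfPlane

namespace Pool.Agent.AllSurf

/-- left end point -/
noncomputable def tL (j : ℕ) : Bool → ℝ
  | true => -(9 ^ (j + 3) + 2) / (9 ^ (j + 3) - 2)
  | false => -(2 * 9 ^ (j + 3) - 1) / (2 * 9 ^ (j + 3) + 1)

/-- right end point -/
noncomputable def tR (j : ℕ) : Bool → ℝ
  | true => -(2 * 9 ^ (j + 3) + 1) / (2 * 9 ^ (j + 3) - 1)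
  | false => -(9 ^ (j + 3) - 2) / (9 ^ (j + 3) + 2)

theorem H09_big (j : ℕ) : (729 : ℝ) ≤ 9 ^ (j + 3) := by
  have h : (1 : ℝ) ≤ 9 ^ j := one_le_pow₀ (by norm_num)
  have : (9 : ℝ) ^ (j + 3) = 9 ^ j * 729 := by rw [pow_add]; norm_num
  rw [this]; linarith

theorem tL_tR (j : ℕ) (s : Bool) : -1.01 ≤ tL j s ∧ tL j s < tR j s ∧ tR j s ≤ -0.99 := by
  have hN := H09_big j
  cases s
  · unfold tL tR
    generalize (9 : ℝ) ^ (j + 3) = N at hN
    have h1 : 0 < 2 * N + 1 := by linarith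
    have h2 : 0 < N + 2 := by linarith
    refine ⟨?_, ?_, ?_⟩
    · rw [le_div_iff₀ h1]; linarith
    · rw [div_lt_div_iff₀ h1 h2]; nlinarith
    · rw [div_le_iff₀ h2]; linarith
  · unfold tL tR
    generalize (9 : ℝ) ^ (j + 3) = N at hN
    have h1 : 0 < 2 * N - 1 := by linarith
    have h2 : 0 < N - 2 := by linarith
    refine ⟨?_, ?_, ?_⟩
    · rw [le_div_iff₀ h2]; linarith
    · rw [div_lt_div_iff₀ h2 h1]; nlinarith
    · rw [div_le_iff₀ h1]; linarith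

/-- the element with boundary slot of `W`, level `j` -/
def xw (W : List Bool) (j : ℕ) : FF := fb ^ 2 * wordG W * fb ^ (j + 1)

theorem H09_xw (W : List Bool) (j : ℕ) :
    xw W j = (fb ^ 2 * wordG W * (fb ^ 2)⁻¹) * fb ^ (j + 3) := by
  unfold xw
  have : fb ^ (j + 3) = fb ^ 2 * fb ^ (j + 1) := by rw [← pow_add]; congr 1; omega
  rw [this]
  group

variable (P : PlaneAction) (W : List Bool) (j : ℕ)

theorem H09_ga (y : ℍ) : P.ga (xw W j) y =
    P.ga (fb ^ 2 * wordG W * (fb ^ 2)⁻¹) (P.ga (fb ^ (j + 3)) y) := by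
  rw [H09_xw, map_mul (P.ga) (fb ^ 2 * wordG W * (fb ^ 2)⁻¹)]
  rfl

theorem H09_norm_sq (y : ℍ) : ‖(y : ℂ)‖ ^ 2 = y.re ^ 2 + y.im ^ 2 := by
  rw [Complex.sq_norm, Complex.normSq_apply]
  show y.re * y.re + y.im * y.im = _
  ring

theorem H09_Qd (r : ℝ) (y : ℍ) : Qd (-r) r y = ‖(y : ℂ)‖ ^ 2 - r ^ 2 := by
  rw [H09_norm_sq]; unfold Qd; ring

theorem H09_Qd' (r : ℝ) (y : ℍ) : Qd r (-r) y = ‖(y : ℂ)‖ ^ 2 - r ^ 2 := by
  rw [H09_norm_sq]; unfold Qd; ring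

theorem H09_plus (y : ℍ) : ∃ κ : ℝ, 0 < κ ∧
    Qd (tL j true) (tR j true) (P.ga (fb ^ (j + 3)) y) = κ * (9 - ‖(y : ℂ)‖ ^ 2) := by
  have hN := H09_big j
  have hm := mob_b_pow P (j + 3)
  unfold tL tR
  generalize (9 : ℝ) ^ (j + 3) = N at hN hm
  have h1 : (1 - N) * 3 + (N + 1) ≠ 0 := by
    have : (1 - N) * 3 + (N + 1) < 0 := by linarith
    exact this.ne
  have h2 : (1 - N) * (-3) + (N + 1) ≠ 0 := by
    have : 0 < (1 - N) * (-3) + (N + 1) := by linarith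
    exact this.ne'
  obtain ⟨κ, hκ, h⟩ := hm.qd h1 h2 y
  rw [H09_Qd'] at h
  have e1 : ((N + 1) * 3 + (1 - N)) / ((1 - N) * 3 + (N + 1)) = -(N + 2) / (N - 2) := by
    have : N - 2 ≠ 0 := by
      have : 0 < N - 2 := by linarith
      exact this.ne'
    rw [div_eq_div_iff h1 this]; ring
  have e2 : ((N + 1) * (-3) + (1 - N)) / ((1 - N) * (-3) + (N + 1)) =
      -(2 * N + 1) / (2 * N - 1) := by
    have : 2 * N - 1 ≠ 0 := by
      have : 0 < 2 * N - 1 := by linarith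
      exact this.ne'
    rw [div_eq_div_iff h2 this]; ring
  rw [e1, e2] at h
  have hneg : 0 < -(((1 - N) * 3 + (N + 1)) * ((1 - N) * (-3) + (N + 1))) := by
    have : 0 < (2 * N - 4) * (4 * N - 2) := by
      apply mul_pos <;> linarith
    have e : -(((1 - N) * 3 + (N + 1)) * ((1 - N) * (-3) + (N + 1))) = (2 * N - 4) * (4 * N - 2) := by
      ring
    rw [e]; exact this
  refine ⟨κ / -(((1 - N) * 3 + (N + 1)) * ((1 - N) * (-3) + (N + 1))), div_pos hκ hneg, ?_⟩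
  rw [div_mul_eq_mul_div, eq_div_iff hneg.ne']
  linear_combination -h

theorem H09_minus (y : ℍ) : ∃ κ : ℝ, 0 < κ ∧
    Qd (tL j false) (tR j false) (P.ga (fb ^ (j + 3)) y) = κ * (‖(y : ℂ)‖ ^ 2 - 1 / 9) := by
  have hN := H09_big j
  have hm := mob_b_pow P (j + 3)
  unfold tL tR
  generalize (9 : ℝ) ^ (j + 3) = N at hN hm
  have p1 : 0 < (1 - N) * (-(1 / 3)) + (N + 1) := by linarith
  have p2 : 0 < (1 - N) * (1 / 3) + (N + 1) := by linarith
  obtain ⟨κ, hκ, h⟩ := hm.qd p1.ne' p2.ne' y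
  rw [H09_Qd] at h
  have e1 : ((N + 1) * (-(1 / 3)) + (1 - N)) / ((1 - N) * (-(1 / 3)) + (N + 1)) =
      -(2 * N - 1) / (2 * N + 1) := by
    have : 2 * N + 1 ≠ 0 := by
      have : 0 < 2 * N + 1 := by linarith
      exact this.ne'
    rw [div_eq_div_iff p1.ne' this]; ring
  have e2 : ((N + 1) * (1 / 3) + (1 - N)) / ((1 - N) * (1 / 3) + (N + 1)) =
      -(N - 2) / (N + 2) := by
    have : N + 2 ≠ 0 := by
      have : 0 < N + 2 := by linarith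
      exact this.ne'
    rw [div_eq_div_iff p2.ne' this]; ring
  rw [e1, e2] at h
  refine ⟨κ / (((1 - N) * (-(1 / 3)) + (N + 1)) * ((1 - N) * (1 / 3) + (N + 1))),
    div_pos hκ (mul_pos p1 p2), ?_⟩
  rw [div_mul_eq_mul_div, eq_div_iff (mul_pos p1 p2).ne', h]
  ring

theorem H09_Icc (s : Bool) : tL j s ∈ Icc (-3 : ℝ) 3 ∧ tR j s ∈ Icc (-3 : ℝ) 3 := by
  obtain ⟨h1, h2, h3⟩ := tL_tR j s
  refine ⟨⟨by linarith, by linarith⟩, ⟨by linarith, by linarith⟩⟩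

theorem disc_plus_le (y : ℍ) :
    Qd (fW W (tL j true)) (fW W (tR j true)) (P.ga (xw W j) y) ≤ 0 ↔ 3 ≤ ‖(y : ℂ)‖ := by
  rw [H09_ga, (moves_word P W).le0 _ (H09_Icc j true).1 _ (H09_Icc j true).2 (tL_tR j true).2.1]
  obtain ⟨κ, hκ, h⟩ := H09_plus P j y
  rw [h]
  have hn := norm_nonneg (y : ℂ)
  constructor
  · intro h1
    by_contra hc
    rw [not_le] at hc
    have : 0 < κ * (9 - ‖(y : ℂ)‖ ^ 2) := mul_pos hκ (by nlinarith)
    linarith
  · intro h1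
    exact mul_nonpos_of_nonneg_of_nonpos hκ.le (by nlinarith)

theorem disc_plus_lt (y : ℍ) :
    Qd (fW W (tL j true)) (fW W (tR j true)) (P.ga (xw W j) y) < 0 ↔ 3 < ‖(y : ℂ)‖ := by
  rw [H09_ga, (moves_word P W).lt0 _ (H09_Icc j true).1 _ (H09_Icc j true).2 (tL_tR j true).2.1]
  obtain ⟨κ, hκ, h⟩ := H09_plus P j y
  rw [h]
  have hn := norm_nonneg (y : ℂ)
  constructor
  · intro h1
    by_contra hc
    rw [not_lt] at hc
    have : 0 ≤ κ * (9 - ‖(y : ℂ)‖ ^ 2) := mul_nonneg hκ.le (by nlinarith)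
    linarith
  · intro h1
    exact mul_neg_of_pos_of_neg hκ (by nlinarith)

theorem disc_minus_le (y : ℍ) :
    Qd (fW W (tL j false)) (fW W (tR j false)) (P.ga (xw W j) y) ≤ 0 ↔ ‖(y : ℂ)‖ ≤ 1 / 3 := by
  rw [H09_ga, (moves_word P W).le0 _ (H09_Icc j false).1 _ (H09_Icc j false).2
    (tL_tR j false).2.1]
  obtain ⟨κ, hκ, h⟩ := H09_minus P j y
  rw [h]
  have hn := norm_nonneg (y : ℂ)
  constructor
  · intro h1
    by_contra hc
    rw [not_le] at hc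
    have : 0 < κ * (‖(y : ℂ)‖ ^ 2 - 1 / 9) := mul_pos hκ (by nlinarith)
    linarith
  · intro h1
    exact mul_nonpos_of_nonneg_of_nonpos hκ.le (by nlinarith)

theorem disc_minus_lt (y : ℍ) :
    Qd (fW W (tL j false)) (fW W (tR j false)) (P.ga (xw W j) y) < 0 ↔ ‖(y : ℂ)‖ < 1 / 3 := by
  rw [H09_ga, (moves_word P W).lt0 _ (H09_Icc j false).1 _ (H09_Icc j false).2
    (tL_tR j false).2.1]
  obtain ⟨κ, hκ, h⟩ := H09_minus P j y
  rw [h]
  have hn := norm_nonneg (y : ℂ)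
  constructor
  · intro h1
    by_contra hc
    rw [not_lt] at hc
    have : 0 ≤ κ * (‖(y : ℂ)‖ ^ 2 - 1 / 9) := mul_nonneg hκ.le (by nlinarith)
    linarith
  · intro h1
    exact mul_neg_of_pos_of_neg hκ (by nlinarith)

theorem disc_plus_anti (y y' : ℍ) (hy : ‖(y : ℂ)‖ = 3) (hy' : ‖(y' : ℂ)‖ = 3) (h : y.re < y'.re) :
    (P.ga (xw W j) y').re < (P.ga (xw W j) y).re := by
  rw [H09_ga, H09_ga]
  have hq : ∀ z : ℍ, ‖(z : ℂ)‖ = 3 → Qd (tL j true) (tR j true) (P.ga (fb ^ (j + 3)) z) = 0 := by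
    intro z hz
    obtain ⟨κ, _, h⟩ := H09_plus P j z
    rw [h, hz]; norm_num
  apply (moves_word P W).mono _ (H09_Icc j true).1 _ (H09_Icc j true).2 (tL_tR j true).2.1 _ _
    (hq y' hy') (hq y hy)
  have hN := H09_big j
  have hm := mob_b_pow P (j + 3)
  refine hm.anti_arc (p := -3) (q := 3) (by norm_num) ?_ y y' ?_ ?_ h
  · generalize (9 : ℝ) ^ (j + 3) = N at hN
    have : 0 < (2 * N - 4) * (4 * N - 2) := by
      apply mul_pos <;> linarith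
    have e : ((1 - N) * (-3) + (N + 1)) * ((1 - N) * 3 + (N + 1)) = -((2 * N - 4) * (4 * N - 2)) := by
      ring
    rw [e]; linarith
  · rw [H09_Qd, hy]; norm_num
  · rw [H09_Qd, hy']; norm_num

theorem disc_minus_mono (y y' : ℍ) (hy : ‖(y : ℂ)‖ = 1 / 3) (hy' : ‖(y' : ℂ)‖ = 1 / 3)
    (h : y.re < y'.re) : (P.ga (xw W j) y).re < (P.ga (xw W j) y').re := by
  rw [H09_ga, H09_ga]
  have hq : ∀ z : ℍ, ‖(z : ℂ)‖ = 1 / 3 →
      Qd (tL j false) (tR j false) (P.ga (fb ^ (j + 3)) z) = 0 := by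
    intro z hz
    obtain ⟨κ, _, h⟩ := H09_minus P j z
    rw [h, hz]; norm_num
  apply (moves_word P W).mono _ (H09_Icc j false).1 _ (H09_Icc j false).2 (tL_tR j false).2.1 _ _
    (hq y hy) (hq y' hy')
  have hN := H09_big j
  have hm := mob_b_pow P (j + 3)
  refine hm.mono_arc (p := -(1 / 3)) (q := 1 / 3) (by norm_num) ?_ y y' ?_ ?_ h
  · generalize (9 : ℝ) ^ (j + 3) = N at hN
    apply mul_pos <;> linarith
  · rw [H09_Qd, hy]; norm_num
  · rw [H09_Qd, hy']; norm_num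

end Pool.Agent.AllSurf
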