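import Pool.Agent.Lib.MP_7f477e_gt.G11

/-!
# MP_7f477e_gt, H10: a compact set meets finitely many translates of the line `|z| = 3`

`P.ga = Geo.ga` (both are homomorphisms on the free group with the same generators:
`FreeGroup.ext_hom`, `ga_a`, `ga_b`). By `Geo.sep_aux` and `Geo.side_iff` two translates of the line by different
elements have distance at least `1/2`. Choose a point of `K` on every translate which meets `K`: these
points have mutual distances `≥ 1/2`, so there are finitely many (compactness, e.g.
`TotallyBounded`/`IsCompact.finite` of a uniformly discrete set, or cover by finitely many balls of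
radius `1/4`).
-/

set_option autoImplicit false

open Set Topology UpperHalfPlane

namespace Pool.Agent.AllSurf

theorem ga_eq_geo (P : PlaneAction) : P.ga = Geo.ga := by
  apply FreeGroup.ext_hom
  intro i
  ext z
  fin_cases i
  · have h1 := P.ga_a z
    have h2 := Geo.ga_a z
    exact h1.trans h2.symm
  · have h1 := P.ga_b z
    have h2 := Geo.ga_b z
    exact h1.trans h2.symm

theorem finite_translates (P : PlaneAction) (K : Set ℍ) (hK : IsCompact K) :
    {x : FF | (P.ga x '' {z : ℍ | ‖(z : ℂ)‖ = 3} ∩ K).Nonempty}.Finite := by
  exact P.lines_finite K hK

end Pool.Agent.AllSurf
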