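import Pool.Agent.Lib.MP_7f477e_gt.H05
import Pool.Agent.Lib.MP_7f477e_gt.H09
import Pool.Agent.Lib.MP_7f477e_gt.H10

/-!
# MP_7f477e_gt, H11: the Schottky system of a chord diagram

For `d : E`: the word `ι d`, the level `idxC d = idxC (inv d)` (the index of the pair of words of the
representative, the smaller one of `d`, `inv d`), the sign `d < inv d`.
`x d = b² ι(d) b^(idxC d + 1)`, `g d = x d * a^± * (x (inv d))⁻¹`, `T d` the half disc with diameter
`[loC d, hiC d]`. All properties are read off in the coordinate `y`, `z = x d y` (H09): for `d < inv d`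
`T d = {3 ≤ |y|}`, `T (inv d) = {|y| ≤ 1/3}` in its coordinate, and `a` is multiplication by `9`.
-/

set_option autoImplicit false

open Set Topology UpperHalfPlane

namespace Pool.Agent.AllSurf

section

variable {E : Type} [LinearOrder E] (C : Chords E) (ι : E → List Bool)

/-- level -/
noncomputable def idxC (d : E) : ℕ :=
  if d < C.inv d then pairE.symm (ι d, ι (C.inv d)) else pairE.symm (ι (C.inv d), ι d)

theorem idxC_inv (d : E) : idxC C ι (C.inv d) = idxC C ι d := by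
  unfold idxC
  rw [C.inv_inv]
  rcases lt_trichotomy d (C.inv d) with h | h | h
  · rw [if_neg (not_lt.2 h.le), if_pos h]
  · exact absurd h.symm (C.inv_ne d)
  · rw [if_pos h, if_neg (not_lt.2 h.le)]

noncomputable def xdC (d : E) : FF := xw (ι d) (idxC C ι d)

noncomputable def gdC (d : E) : FF :=
  xdC C ι d * (if d < C.inv d then fa else fa⁻¹) * (xdC C ι (C.inv d))⁻¹

noncomputable def loC (d : E) : ℝ := fW (ι d) (tL (idxC C ι d) (decide (d < C.inv d)))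

noncomputable def hiC (d : E) : ℝ := fW (ι d) (tR (idxC C ι d) (decide (d < C.inv d)))

/-- `s d` with `T d \ O d = s d '' L` -/
noncomputable def sdC (d : E) : FF := xdC C ι d * (if d < C.inv d then 1 else fa⁻¹)

theorem h11_inv_pos {d : E} (h : d < C.inv d) : ¬ C.inv d < C.inv (C.inv d) := by
  rw [C.inv_inv]
  exact not_lt.2 h.le

theorem h11_inv_neg {d : E} (h : ¬ d < C.inv d) : C.inv d < C.inv (C.inv d) := by
  rw [C.inv_inv]
  exact lt_of_le_of_ne (not_lt.1 h) (C.inv_ne d)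

theorem gdC_inv (d : E) : gdC C ι (C.inv d) = (gdC C ι d)⁻¹ := by
  unfold gdC
  by_cases h : d < C.inv d
  · rw [if_neg (h11_inv_pos C h), if_pos h, C.inv_inv]
    group
  · rw [if_pos (h11_inv_neg C h), if_neg h, C.inv_inv]
    group

theorem h11_t (j : ℕ) (s : Bool) : tL j s ∈ Icc (-3 : ℝ) 3 ∧ tR j s ∈ Icc (-3 : ℝ) 3 := by
  obtain ⟨h1, h2, h3⟩ := tL_tR j s
  exact ⟨⟨by linarith, by linarith⟩, ⟨by linarith, by linarith⟩⟩

theorem loC_lt_hiC (d : E) : loC C ι d < hiC C ι d :=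
  fW_strict _ (h11_t _ _).1 (h11_t _ _).2 (tL_tR _ _).2.1

theorem hiC_lt_loC (hι : ∀ d e, d < e → fW (ι d) (-0.99) < fW (ι e) (-1.01)) (d e : E) (h : d < e) :
    hiC C ι d < loC C ι e := by
  have h1 : hiC C ι d ≤ fW (ι d) (-0.99) :=
    (fW_strict (ι d)).monotoneOn (h11_t _ _).2 h08_m099 (tL_tR _ _).2.2
  have h2 : fW (ι e) (-1.01) ≤ loC C ι e :=
    (fW_strict (ι e)).monotoneOn h08_m101 (h11_t _ _).1 (tL_tR _ _).1
  exact h1.trans_lt ((hι d e h).trans_le h2)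

theorem loC_mem (d : E) : loC C ι d ∈ Icc (-3 : ℝ) 3 := fW_mem _ (h11_t _ _).1

theorem hiC_mem (d : E) : hiC C ι d ∈ Icc (-3 : ℝ) 3 := fW_mem _ (h11_t _ _).2

variable (P : PlaneAction)

theorem h11_mul (g h : FF) (z : ℍ) : P.ga (g * h) z = P.ga g (P.ga h z) := by
  rw [map_mul]
  rfl

theorem h11_inv_apply (g : FF) (z : ℍ) : P.ga g (P.ga g⁻¹ z) = z := by
  rw [← h11_mul, mul_inv_cancel, map_one]
  rfl

theorem h11_inv_apply' (g : FF) (z : ℍ) : P.ga g⁻¹ (P.ga g z) = z := by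
  rw [← h11_mul, inv_mul_cancel, map_one]
  rfl

theorem h11_a_norm (y : ℍ) : ‖((P.ga fa y : ℍ) : ℂ)‖ = 9 * ‖(y : ℂ)‖ := by
  rw [P.ga_a, norm_mul]
  norm_num

theorem h11_a_re (y : ℍ) : (P.ga fa y).re = 9 * y.re := by
  have h := congrArg Complex.re (P.ga_a y)
  rw [Complex.mul_re] at h
  simpa using h

theorem h11_ai_norm (y : ℍ) : ‖((P.ga fa⁻¹ y : ℍ) : ℂ)‖ = ‖(y : ℂ)‖ / 9 := by
  have h := h11_a_norm P (P.ga fa⁻¹ y)
  rw [h11_inv_apply] at h
  rw [h]
  ring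

theorem h11_ai_re (y : ℍ) : (P.ga fa⁻¹ y).re = y.re / 9 := by
  have h := h11_a_re P (P.ga fa⁻¹ y)
  rw [h11_inv_apply] at h
  rw [h]
  ring

theorem h11_ple {d : E} (hd : d < C.inv d) (y : ℍ) :
    Qd (loC C ι d) (hiC C ι d) (P.ga (xdC C ι d) y) ≤ 0 ↔ 3 ≤ ‖(y : ℂ)‖ := by
  unfold loC hiC xdC
  rw [decide_eq_true hd]
  exact disc_plus_le P _ _ y

theorem h11_plt {d : E} (hd : d < C.inv d) (y : ℍ) :
    Qd (loC C ι d) (hiC C ι d) (P.ga (xdC C ι d) y) < 0 ↔ 3 < ‖(y : ℂ)‖ := by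
  unfold loC hiC xdC
  rw [decide_eq_true hd]
  exact disc_plus_lt P _ _ y

theorem h11_mle {d : E} (hd : ¬ d < C.inv d) (y : ℍ) :
    Qd (loC C ι d) (hiC C ι d) (P.ga (xdC C ι d) y) ≤ 0 ↔ ‖(y : ℂ)‖ ≤ 1 / 3 := by
  unfold loC hiC xdC
  rw [decide_eq_false hd]
  exact disc_minus_le P _ _ y

theorem h11_mlt {d : E} (hd : ¬ d < C.inv d) (y : ℍ) :
    Qd (loC C ι d) (hiC C ι d) (P.ga (xdC C ι d) y) < 0 ↔ ‖(y : ℂ)‖ < 1 / 3 := by
  unfold loC hiC xdC
  rw [decide_eq_false hd]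
  exact disc_minus_lt P _ _ y

/-- the coordinate -/
theorem h11_coord (d : E) (z : ℍ) : ∃ y, z = P.ga (xdC C ι d) y :=
  ⟨P.ga (xdC C ι d)⁻¹ z, (h11_inv_apply P _ z).symm⟩

theorem h11_g_pos {d : E} (hd : d < C.inv d) (y : ℍ) :
    P.ga (gdC C ι d) (P.ga (xdC C ι (C.inv d)) y) = P.ga (xdC C ι d) (P.ga fa y) := by
  unfold gdC
  rw [if_pos hd, h11_mul, h11_inv_apply', h11_mul]

theorem h11_g_neg {d : E} (hd : ¬ d < C.inv d) (y : ℍ) :
    P.ga (gdC C ι d) (P.ga (xdC C ι (C.inv d)) y) = P.ga (xdC C ι d) (P.ga fa⁻¹ y) := by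
  unfold gdC
  rw [if_neg hd, h11_mul, h11_inv_apply', h11_mul]

theorem map1C (d : E) (z : ℍ) (hz : ¬ Qd (loC C ι (C.inv d)) (hiC C ι (C.inv d)) z < 0) :
    Qd (loC C ι d) (hiC C ι d) (P.ga (gdC C ι d) z) ≤ 0 := by
  obtain ⟨y, rfl⟩ := h11_coord C ι P (C.inv d) z
  by_cases hd : d < C.inv d
  · rw [h11_mlt C ι P (h11_inv_pos C hd)] at hz
    rw [h11_g_pos C ι P hd, h11_ple C ι P hd, h11_a_norm]
    linarith
  · rw [h11_plt C ι P (h11_inv_neg C hd)] at hz
    rw [h11_g_neg C ι P hd, h11_mle C ι P hd, h11_ai_norm]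
    linarith

theorem map2C (d : E) (z : ℍ) (hz : ¬ Qd (loC C ι (C.inv d)) (hiC C ι (C.inv d)) z ≤ 0) :
    Qd (loC C ι d) (hiC C ι d) (P.ga (gdC C ι d) z) < 0 := by
  obtain ⟨y, rfl⟩ := h11_coord C ι P (C.inv d) z
  by_cases hd : d < C.inv d
  · rw [h11_mle C ι P (h11_inv_pos C hd)] at hz
    rw [h11_g_pos C ι P hd, h11_plt C ι P hd, h11_a_norm]
    linarith
  · rw [h11_ple C ι P (h11_inv_neg C hd)] at hz
    rw [h11_g_neg C ι P hd, h11_mlt C ι P hd, h11_ai_norm]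
    linarith

theorem map3C (d : E) (z : ℍ) (hz : Qd (loC C ι (C.inv d)) (hiC C ι (C.inv d)) z < 0) :
    ¬ Qd (loC C ι d) (hiC C ι d) (P.ga (gdC C ι d) z) ≤ 0 := by
  obtain ⟨y, rfl⟩ := h11_coord C ι P (C.inv d) z
  by_cases hd : d < C.inv d
  · rw [h11_mlt C ι P (h11_inv_pos C hd)] at hz
    rw [h11_g_pos C ι P hd, h11_ple C ι P hd, h11_a_norm]
    linarith
  · rw [h11_plt C ι P (h11_inv_neg C hd)] at hz
    rw [h11_g_neg C ι P hd, h11_mle C ι P hd, h11_ai_norm]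
    linarith

theorem h11_eq_pos {d : E} (hd : d < C.inv d) (y : ℍ) :
    Qd (loC C ι d) (hiC C ι d) (P.ga (xdC C ι d) y) = 0 ↔ ‖(y : ℂ)‖ = 3 := by
  have h1 := h11_ple C ι P hd y
  have h2 := h11_plt C ι P hd y
  constructor
  · intro h
    have h3 := h1.1 h.le
    have h4 : ¬ 3 < ‖(y : ℂ)‖ := fun h5 => by
      have := h2.2 h5
      linarith
    linarith
  · intro h
    have h3 := h1.2 h.ge
    have h4 : ¬ Qd (loC C ι d) (hiC C ι d) (P.ga (xdC C ι d) y) < 0 := fun h5 => by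
      have := h2.1 h5
      linarith
    linarith

theorem h11_eq_neg {d : E} (hd : ¬ d < C.inv d) (y : ℍ) :
    Qd (loC C ι d) (hiC C ι d) (P.ga (xdC C ι d) y) = 0 ↔ ‖(y : ℂ)‖ = 1 / 3 := by
  have h1 := h11_mle C ι P hd y
  have h2 := h11_mlt C ι P hd y
  constructor
  · intro h
    have h3 := h1.1 h.le
    have h4 : ¬ ‖(y : ℂ)‖ < 1 / 3 := fun h5 => by
      have := h2.2 h5
      linarith
    linarith
  · intro h
    have h3 := h1.2 h.le
    have h4 : ¬ Qd (loC C ι d) (hiC C ι d) (P.ga (xdC C ι d) y) < 0 := fun h5 => by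
      have := h2.1 h5
      linarith
    linarith

theorem lineC (d : E) :
    {z : ℍ | Qd (loC C ι d) (hiC C ι d) z = 0} = P.ga (sdC C ι d) '' {z : ℍ | ‖(z : ℂ)‖ = 3} := by
  ext z
  constructor
  · intro hz
    have hz' : Qd (loC C ι d) (hiC C ι d) z = 0 := hz
    obtain ⟨y, rfl⟩ := h11_coord C ι P d z
    by_cases hd : d < C.inv d
    · rw [h11_eq_pos C ι P hd] at hz'
      refine ⟨y, hz', ?_⟩
      unfold sdC
      rw [if_pos hd, mul_one]
    · rw [h11_eq_neg C ι P hd] at hz'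
      refine ⟨P.ga fa y, ?_, ?_⟩
      · show ‖((P.ga fa y : ℍ) : ℂ)‖ = 3
        rw [h11_a_norm, hz']
        norm_num
      · unfold sdC
        rw [if_neg hd, h11_mul, h11_inv_apply']
  · rintro ⟨w, hw, rfl⟩
    have hw' : ‖(w : ℂ)‖ = 3 := hw
    show Qd (loC C ι d) (hiC C ι d) (P.ga (sdC C ι d) w) = 0
    unfold sdC
    by_cases hd : d < C.inv d
    · rw [if_pos hd, mul_one, h11_eq_pos C ι P hd]
      exact hw'
    · rw [if_neg hd, h11_mul, h11_eq_neg C ι P hd, h11_ai_norm, hw']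
      norm_num

/-- points with the same real part and norm are equal -/
theorem h11_ext {y y' : ℍ} (h1 : y.re = y'.re) (h2 : ‖(y : ℂ)‖ = ‖(y' : ℂ)‖) : y = y' := by
  have h3 : ‖(y : ℂ)‖ ^ 2 = ‖(y' : ℂ)‖ ^ 2 := by rw [h2]
  rw [← Complex.normSq_eq_norm_sq, ← Complex.normSq_eq_norm_sq, Complex.normSq_apply,
    Complex.normSq_apply] at h3
  have h4 : (y : ℂ).re = y.re := rfl
  have h5 : (y' : ℂ).re = y'.re := rfl
  have h6 : (y : ℂ).im = y.im := rfl
  have h7 : (y' : ℂ).im = y'.im := rfl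
  rw [h4, h5, h6, h7, h1] at h3
  have h8 := y.im_pos
  have h9 := y'.im_pos
  have h10 : y.im = y'.im := by nlinarith
  exact UpperHalfPlane.ext (Complex.ext h1 h10)

theorem antiC (d : E) (z z' : ℍ) (hz : Qd (loC C ι d) (hiC C ι d) z = 0)
    (hz' : Qd (loC C ι d) (hiC C ι d) z' = 0) (h : z.re < z'.re) :
    (P.ga (gdC C ι (C.inv d)) z').re < (P.ga (gdC C ι (C.inv d)) z).re := by
  obtain ⟨y, rfl⟩ := h11_coord C ι P d z
  obtain ⟨y', rfl⟩ := h11_coord C ι P d z'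
  by_cases hd : d < C.inv d
  · rw [h11_eq_pos C ι P hd] at hz hz'
    have h1 : y'.re < y.re := by
      rcases lt_trichotomy y.re y'.re with h2 | h2 | h2
      · have h3 := disc_plus_anti P (ι d) (idxC C ι d) y y' hz hz' h2
        have h4 : (P.ga (xdC C ι d) y').re < (P.ga (xdC C ι d) y).re := h3
        linarith
      · rw [h11_ext h2 (hz.trans hz'.symm)] at h
        exact absurd h (lt_irrefl _)
      · exact h2
    have hd' := h11_inv_pos C hd
    have h2 := h11_g_neg C ι P hd' y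
    have h3 := h11_g_neg C ι P hd' y'
    rw [C.inv_inv] at h2 h3
    rw [h2, h3]
    refine disc_minus_mono P _ _ _ _ ?_ ?_ ?_
    · rw [h11_ai_norm, hz']; norm_num
    · rw [h11_ai_norm, hz]; norm_num
    · rw [h11_ai_re, h11_ai_re]
      linarith
  · rw [h11_eq_neg C ι P hd] at hz hz'
    have h1 : y.re < y'.re := by
      rcases lt_trichotomy y.re y'.re with h2 | h2 | h2
      · exact h2
      · rw [h11_ext h2 (hz.trans hz'.symm)] at h
        exact absurd h (lt_irrefl _)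
      · have h3 := disc_minus_mono P (ι d) (idxC C ι d) y' y hz' hz h2
        have h4 : (P.ga (xdC C ι d) y').re < (P.ga (xdC C ι d) y).re := h3
        linarith
    have hd' := h11_inv_neg C hd
    have h2 := h11_g_pos C ι P hd' y
    have h3 := h11_g_pos C ι P hd' y'
    rw [C.inv_inv] at h2 h3
    rw [h2, h3]
    refine disc_plus_anti P _ _ _ _ ?_ ?_ ?_
    · rw [h11_a_norm, hz]; norm_num
    · rw [h11_a_norm, hz']; norm_num
    · rw [h11_a_re, h11_a_re]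
      linarith

end

end Pool.Agent.AllSurf
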