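import Pool.Agent.Lib.MP_7f477e_gt.M01

/-!
# MP_7f477e_gt, M02: the coefficient of a syllable word

`sy [(g_n, k_n), ..., (g_1, k_1)] = g_n^{k_n} ... g_1^{k_1}` (the right-most factor acts first).
Proof, by induction on the list (add a syllable in front), of both statements together:
for `l` with all exponents nonzero (not needed for the statements below), neighbouring letters different,
last letter not `x_j`, `j ∈ A`:
(a) `c_m (sy l • y_A) = 0` for every word `m` with different neighbours and `length m > length l`;
(b) `c_{letters of l} (sy l • y_A) = product of the exponents`.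
`l = []`: (a) `c = 0` at `y_A`. Singleton `[(g, k)]`: (b) `cc_zpow_even` or `cc_zpow_odd` with
`d_j (y_A) = 1` since `j ∉ A`; `cc y_A = 0`. For `(g, k) :: l`, `l ≠ []`: write `y = sy l • y_A`.
(b) `cc_zpow_cons g (letters of l)`: old value `c_{g :: letters of l} (y) = 0` by (a) for `l`
(length one more), and `k * c_{letters of l} (y)` by (b) for `l`.
(a) for `m = h :: m'`: if `h ≠ g` by `cc_zpow_ne` and (a) for `l`; if `h = g` then `m'` does not start with
`g` and is not empty; `cc_zpow_cons`, both terms vanish by (a) for `l`.
-/

set_option autoImplicit false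

namespace Pool.Agent.AllSurf

/-- the product of a list of syllables, the first factor on the left -/
def sy (l : List (ℕ × ℤ)) : FreeGroup ℕ := (l.map (fun p => FreeGroup.of p.1 ^ p.2)).prod

theorem sy_nil : sy [] = 1 := rfl

theorem sy_cons (p : ℕ × ℤ) (l : List (ℕ × ℤ)) : sy (p :: l) = FreeGroup.of p.1 ^ p.2 * sy l := by
  simp [sy]

/-- neighbouring letters are different and the last letter is not an `x_j` with `j ∈ A` -/
def Good (A : Set ℕ) (l : List (ℕ × ℤ)) : Prop :=
  (l.map Prod.fst).IsChain (· ≠ ·) ∧ ∀ p ∈ l.getLast?, ∀ j ∈ A, p.1 ≠ 2 * j + 1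

theorem M02_good_tail {A : Set ℕ} {p : ℕ × ℤ} {l : List (ℕ × ℤ)} (h : Good A (p :: l)) :
    Good A l := by
  refine ⟨?_, ?_⟩
  · have h1 := h.1
    rw [List.map_cons] at h1
    exact h1.tail
  · cases l with
    | nil =>
      intro q hq
      simp at hq
    | cons a l =>
      intro q hq j hj
      apply h.2 q _ j hj
      rw [List.getLast?_cons_cons]
      exact hq

theorem M02_head_ne {g : ℕ} {m : List ℕ} (h : (g :: m).IsChain (· ≠ ·)) : m.head? ≠ some g := by
  cases m with
  | nil => simp
  | cons a m =>
    rw [List.isChain_cons_cons] at h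
    intro h2
    rw [List.head?_cons, Option.some.injEq] at h2
    exact h.1 h2.symm

theorem cc_sy_long (A : Set ℕ) (l : List (ℕ × ℤ)) (hl : Good A l) (m : List ℕ)
    (hm : m.IsChain (· ≠ ·)) (hlen : l.length < m.length) : cc (actM (sy l) (yA A)) m = 0 := by
  induction l generalizing m with
  | nil => rw [sy_nil, actM_one]; exact cc_yA A m
  | cons p l ih =>
    obtain ⟨g, k⟩ := p
    cases m with
    | nil => simp at hlen
    | cons h m =>
      rw [sy_cons, actM_mul]
      have hl' := M02_good_tail hl
      have hlen' : l.length < m.length := by simpa using hlen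
      have h1 : cc (actM (sy l) (yA A)) (h :: m) = 0 :=
        ih hl' _ hm (hlen'.trans (by simp))
      by_cases hg : h = g
      · subst hg
        have hm0 : m ≠ [] := by
          rintro rfl
          simp at hlen'
        have h2 : cc (actM (sy l) (yA A)) m = 0 := ih hl' _ hm.tail hlen'
        have h3 := cc_zpow_cons h m hm0 (M02_head_ne hm) k (actM (sy l) (yA A))
        rw [h1, h2, mul_zero, add_zero] at h3
        exact h3
      · exact (cc_zpow_ne g h hg m k _).trans h1

theorem cc_sy (A : Set ℕ) (l : List (ℕ × ℤ)) (hl : Good A l) (hne : l ≠ []) :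
    cc (actM (sy l) (yA A)) (l.map Prod.fst) = (l.map Prod.snd).prod := by
  induction l with
  | nil => exact absurd rfl hne
  | cons p l ih =>
    obtain ⟨g, k⟩ := p
    have hl' := M02_good_tail hl
    rw [sy_cons, actM_mul]
    cases l with
    | nil =>
      rw [sy_nil, actM_one]
      simp only [List.map_cons, List.map_nil, List.prod_cons, List.prod_nil, mul_one]
      rcases Nat.even_or_odd' g with ⟨i, hi | hi⟩
      · subst hi
        rw [cc_zpow_even, cc_yA, zero_add]
      · subst hi
        have hi : i ∉ A := by
          intro hi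
          exact hl.2 (2 * i + 1, k) (by simp) i hi rfl
        rw [cc_zpow_odd, cc_yA, dd_yA, if_neg hi, mul_one, zero_add]
    | cons q l =>
      have hne' : q :: l ≠ [] := by simp
      have ih' := ih hl' hne'
      have hch : (g :: (q :: l).map Prod.fst).IsChain (· ≠ ·) := by
        have := hl.1
        rwa [List.map_cons] at this
      have h1 : cc (actM (sy (q :: l)) (yA A)) (g :: (q :: l).map Prod.fst) = 0 :=
        cc_sy_long A (q :: l) hl' _ hch (by simp)
      have h2 := cc_zpow_cons g ((q :: l).map Prod.fst) (by simp) (M02_head_ne hch) k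
        (actM (sy (q :: l)) (yA A))
      rw [h1, ih', zero_add] at h2
      exact h2

end Pool.Agent.AllSurf
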