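import Pool.Agent.Lib.MP_7f477e_gt.M02

/-!
# MP_7f477e_gt, M03: normal form of an element of the free group relative to `⟨x_j : j ∈ A⟩`

Every `w` is `sy l * k` with `k ∈ XA A`, `l` as in `Good A l`, all exponents nonzero.
Proof. First every `w` is `sy l` with `l` alternating and all exponents nonzero: by
`FreeGroup.induction_on` it suffices to show that the set of such products is closed under left
multiplication by `(of g)^{±1}` (`w = (of g)^{±1} * w'`; write the induction over `w.toWord` or use
`FreeGroup.induction_on` with the left-multiplication invariance of the whole set: if `l` starts with the letter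
`g` add `±1` to its exponent and drop the syllable if it becomes `0`, otherwise add a syllable).
Even simpler: prove the statement of `exists_sy` itself to be invariant under left multiplication by
`(of g)^{±1}`: `w = sy l * k`. If `l = []` and `g = 2 j + 1` with `j ∈ A`: change `k` to `(of g)^{±1} * k`.
If `l = []` and `g` is another letter: `l = [(g, ±1)]`. If `l = (h, n) :: l'`: `h ≠ g`: new syllable; `h = g`:
`n ± 1`, and if this is `0` use `l'` (still `Good`).
Start: `w = 1`, `l = []`, `k = 1`. To get all `w` from the invariance: `Subgroup.closure_induction`-like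
argument, or `FreeGroup.induction_on` applied to the predicate `P w := ∀ v, Q v → Q (w * v)`.
-/

set_option autoImplicit false

namespace Pool.Agent.AllSurf

/-- the property of the normal form -/
def M03_Q (A : Set ℕ) (w : FreeGroup ℕ) : Prop :=
  ∃ (l : List (ℕ × ℤ)) (k : FreeGroup ℕ), k ∈ XA A ∧ w = sy l * k ∧ Good A l ∧
      ∀ p ∈ l, p.2 ≠ 0

theorem M03_good_last {A : Set ℕ} {l : List (ℕ × ℤ)} {a b : ℕ × ℤ}
    (h : ∀ p ∈ (a :: l).getLast?, ∀ j ∈ A, p.1 ≠ 2 * j + 1) (hab : a.1 = b.1) :
    ∀ p ∈ (b :: l).getLast?, ∀ j ∈ A, p.1 ≠ 2 * j + 1 := by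
  cases l with
  | nil =>
    intro p hp j hj
    simp only [List.getLast?_singleton, Option.mem_def, Option.some.injEq] at hp
    subst hp
    rw [← hab]
    exact h a (by simp) j hj
  | cons c l =>
    rw [List.getLast?_cons_cons] at h ⊢
    exact h

theorem M03_step (A : Set ℕ) (g : ℕ) (n : ℤ) (hn : n ≠ 0) (v : FreeGroup ℕ) (hv : M03_Q A v) :
    M03_Q A (FreeGroup.of g ^ n * v) := by
  obtain ⟨l, k, hk, rfl, ⟨hc, hl⟩, hne⟩ := hv
  cases l with
  | nil =>
    by_cases hg : ∃ j ∈ A, g = 2 * j + 1
    · obtain ⟨j, hj, rfl⟩ := hg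
      refine ⟨[], FreeGroup.of (2 * j + 1) ^ n * k, ?_, ?_, ⟨hc, hl⟩, hne⟩
      · refine (XA A).mul_mem ((XA A).zpow_mem ?_ n) hk
        exact Subgroup.subset_closure ⟨j, hj, rfl⟩
      · simp [sy_nil]
    · refine ⟨[(g, n)], k, hk, ?_, ⟨?_, ?_⟩, ?_⟩
      · rw [sy_cons, sy_nil, mul_one, one_mul]
      · simp
      · intro p hp j hj hpj
        simp only [List.getLast?_singleton, Option.mem_def, Option.some.injEq] at hp
        subst hp
        exact hg ⟨j, hj, hpj⟩
      · intro p hp
        simp only [List.mem_singleton] at hp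
        subst hp
        exact hn
  | cons a l =>
    obtain ⟨h, m⟩ := a
    by_cases hg : h = g
    · subst hg
      by_cases hm : n + m = 0
      · refine ⟨l, k, hk, ?_, ⟨?_, ?_⟩, ?_⟩
        · rw [sy_cons]
          simp only
          rw [← mul_assoc, ← mul_assoc, ← zpow_add, hm, zpow_zero, one_mul]
        · rw [List.map_cons] at hc
          exact hc.tail
        · cases l with
          | nil => intro p hp; simp at hp
          | cons b l => rw [List.getLast?_cons_cons] at hl; exact hl
        · intro p hp
          exact hne p (List.mem_cons_of_mem _ hp)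
      · refine ⟨(h, n + m) :: l, k, hk, ?_, ⟨?_, M03_good_last hl rfl⟩, ?_⟩
        · rw [sy_cons, sy_cons]
          simp only
          rw [← mul_assoc, ← mul_assoc, ← zpow_add]
        · exact hc
        · intro p hp
          rcases List.mem_cons.1 hp with rfl | hp
          · exact hm
          · exact hne p (List.mem_cons_of_mem _ hp)
    · refine ⟨(g, n) :: (h, m) :: l, k, hk, ?_, ⟨?_, ?_⟩, ?_⟩
      · rw [sy_cons (g, n), mul_assoc]
      · rw [List.map_cons, List.map_cons, List.isChain_cons_cons]
        rw [List.map_cons] at hc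
        exact ⟨fun e => hg e.symm, hc⟩
      · rw [List.getLast?_cons_cons]; exact hl
      · intro p hp
        rcases List.mem_cons.1 hp with rfl | hp
        · exact hn
        · exact hne p hp

theorem exists_sy (A : Set ℕ) (w : FreeGroup ℕ) :
    ∃ (l : List (ℕ × ℤ)) (k : FreeGroup ℕ), k ∈ XA A ∧ w = sy l * k ∧ Good A l ∧
      ∀ p ∈ l, p.2 ≠ 0 := by
  have key : ∀ v, M03_Q A v → M03_Q A (w * v) := by
    induction w using FreeGroup.induction_on with
    | C1 => intro v hv; rw [one_mul]; exact hv
    | of g =>
      intro v hv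
      have := M03_step A g 1 one_ne_zero v hv
      rwa [zpow_one] at this
    | inv_of g _ =>
      intro v hv
      have := M03_step A g (-1) (by norm_num) v hv
      rwa [zpow_neg_one] at this
    | mul v w h1 h2 =>
      intro u hu
      rw [mul_assoc]
      exact h1 _ (h2 _ hu)
  have h1 : M03_Q A 1 := by
    refine ⟨[], 1, (XA A).one_mem, by rw [sy_nil, one_mul], ⟨by simp, by intro p hp; simp at hp⟩, ?_⟩
    intro p hp
    simp at hp
  have h2 := key 1 h1
  rw [mul_one] at h2
  exact h2

end Pool.Agent.AllSurf
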