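import Pool.Agent.Lib.MP_7f477e_gt.MDefs

/-!
# MP_7f477e_gt, M05: the iterated commutators `vk k i` change `d_k` by `± 1`

`vk k 0 = z_{k+1}`, `vk k (i+1) = z_0 * vk k i * z_0⁻¹ * (vk k i)⁻¹`.
(1) `vk k i` does not change `c_[0]`: `z_{k+1}` (letter `2k+2 ≠ 0`) does not, and for `i+1`: the effects of `z_0`
(`c_[0] += 1`, whatever the state) and `z_0⁻¹` cancel (induction).
(2) `vk k i` adds `phi i (c_[0])` to `d_k`, where `phi 0 s = if s = 0 then 1 else 0`,
`phi (i+1) s = phi i (s - 1) - phi i s`; it does not change `d_j`, `j ≠ k`.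
 (`actM (vk k (i+1)) y`: first `(vk k i)⁻¹` at `c_[0] = s`: subtracts `phi i s` (apply (2) at `(vk k i)⁻¹ y`, whose
 `c_[0]` is also `s`); then `z_0⁻¹`: `c_[0] = s - 1`; then `vk k i`: adds `phi i (s - 1)`; then `z_0`.)
(3) `phi i s = 0` for `s < 0`, and `phi i 0 = (-1)^i`.
-/

set_option autoImplicit false

namespace Pool.Agent.AllSurf

/-- iterated commutators -/
def vk (k : ℕ) : ℕ → FreeGroup ℕ
  | 0 => zz (k + 1)
  | i + 1 => zz 0 * vk k i * (zz 0)⁻¹ * (vk k i)⁻¹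

/-- the change of `d_k` under `vk k i` as a function of `c_[0]` -/
def M05_phi : ℕ → ℤ → ℤ
  | 0, s => if s = 0 then 1 else 0
  | i + 1, s => M05_phi i (s - 1) - M05_phi i s

theorem M05_phi_neg (i : ℕ) : ∀ s : ℤ, s < 0 → M05_phi i s = 0 := by
  induction i with
  | zero => intro s hs; exact if_neg (by omega)
  | succ i ih =>
    intro s hs
    rw [M05_phi, ih _ hs, ih _ (by omega)]
    rfl

theorem M05_phi_zero (i : ℕ) : M05_phi i 0 = (-1) ^ i := by
  induction i with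
  | zero => rfl
  | succ i ih =>
    rw [M05_phi, ih, M05_phi_neg i _ (by omega), pow_succ]
    ring

theorem M05_zz0_cc (y : Yl) : cc (actM (zz 0) y) [0] = cc y [0] + 1 := by
  have h := cc_lett_even 0 y
  simpa [zz, actM_of] using h

theorem M05_zz0_dd (y : Yl) (j : ℕ) : dd (actM (zz 0) y) j = dd y j := by
  have h := dd_lett 0 j y
  rw [if_neg (by omega), add_zero] at h
  simpa [zz, actM_of] using h

theorem M05_zz0_inv_cc (y : Yl) : cc (actM (zz 0)⁻¹ y) [0] = cc y [0] - 1 := by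
  have h := M05_zz0_cc (actM (zz 0)⁻¹ y)
  rw [actM_actM_inv] at h
  omega

theorem M05_zz0_inv_dd (y : Yl) (j : ℕ) : dd (actM (zz 0)⁻¹ y) j = dd y j := by
  have h := M05_zz0_dd (actM (zz 0)⁻¹ y) j
  rw [actM_actM_inv] at h
  exact h.symm

theorem M05_main (k i : ℕ) : ∀ y : Yl, cc (actM (vk k i) y) [0] = cc y [0] ∧
    dd (actM (vk k i) y) k = dd y k + M05_phi i (cc y [0]) ∧
    ∀ j, j ≠ k → dd (actM (vk k i) y) j = dd y j := by
  induction i with
  | zero =>
    intro y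
    have e : actM (vk k 0) y = lett (2 * (k + 1)) y := by
      rw [vk, zz, actM_of]
    rw [e]
    refine ⟨cc_lett_ne _ 0 (by omega) [] y, ?_, ?_⟩
    · rw [dd_lett, M05_phi]
      congr 1
      by_cases h : cc y [0] = 0
      · rw [if_pos ⟨by omega, h⟩, if_pos h]
      · rw [if_neg (fun hh => h hh.2), if_neg h]
    · intro j hj
      rw [dd_lett, if_neg (fun hh => hj (by omega)), add_zero]
  | succ i ih =>
    intro y
    have e : actM (vk k (i + 1)) y =
        actM (zz 0) (actM (vk k i) (actM (zz 0)⁻¹ (actM (vk k i)⁻¹ y))) := by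
      rw [vk, actM_mul, actM_mul, actM_mul]
    rw [e]
    obtain ⟨a1, a2, a3⟩ := ih (actM (vk k i)⁻¹ y)
    rw [actM_actM_inv] at a1 a2 a3
    obtain ⟨b1, b2, b3⟩ := ih (actM (zz 0)⁻¹ (actM (vk k i)⁻¹ y))
    rw [M05_zz0_inv_cc, ← a1] at b1 b2
    refine ⟨?_, ?_, ?_⟩
    · rw [M05_zz0_cc, b1]; ring
    · rw [M05_zz0_dd, b2, M05_zz0_inv_dd, M05_phi, a2, ← a1]; ring
    · intro j hj
      rw [M05_zz0_dd, b3 j hj, M05_zz0_inv_dd, a3 j hj]

theorem vk_cc0 (k i : ℕ) (y : Yl) : cc (actM (vk k i) y) [0] = cc y [0] :=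
  (M05_main k i y).1

theorem vk_dd (k i : ℕ) (y : Yl) (h : cc y [0] = 0) :
    dd (actM (vk k i) y) k = dd y k + (-1) ^ i := by
  rw [(M05_main k i y).2.1, h, M05_phi_zero]

theorem vk_dd_ne (k i j : ℕ) (hj : j ≠ k) (y : Yl) : dd (actM (vk k i) y) j = dd y j :=
  (M05_main k i y).2.2 j hj

end Pool.Agent.AllSurf
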