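import Pool.Agent.Lib.MP_7f477e_gt.M05

/-!
# MP_7f477e_gt, M06: `vk k i` does not change `c_m` for `length m ≤ i`
-/

set_option autoImplicit false

namespace Pool.Agent.AllSurf

namespace M06

noncomputable section

/-- functions on words -/
abbrev C : Type := List ℕ → ℤ

/-- the state as a function on words -/
def Fs (y : Yl) : C := fun m => if m = [] then 1 else cc y m

/-- the operator of a letter -/
def Lg (g : ℕ) : AddMonoid.End C where
  toFun f := fun m => match m with
    | [] => 0
    | h :: m' => if h = g then f m' else 0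
  map_zero' := by
    funext m
    cases m with
    | nil => rfl
    | cons h m' => by_cases hg : h = g <;> simp [hg]
  map_add' := by
    intro f f'
    funext m
    cases m with
    | nil => simp
    | cons h m' => by_cases hg : h = g <;> simp [hg]

theorem Lg_nil (g : ℕ) (f : C) : Lg g f [] = 0 := rfl

theorem Lg_cons (g h : ℕ) (f : C) (m : List ℕ) : Lg g f (h :: m) = if h = g then f m else 0 := rfl

/-- the inverse of `1 + Lg g` on functions -/
def invf (g : ℕ) (f : C) : List ℕ → ℤ
  | [] => f []
  | h :: m => f (h :: m) - if h = g then invf g f m else 0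

/-- the inverse of `1 + Lg g` -/
def Linv (g : ℕ) : AddMonoid.End C where
  toFun f := invf g f
  map_zero' := by
    funext m
    induction m with
    | nil => rfl
    | cons h m ih =>
      show (0 : C) (h :: m) - (if h = g then invf g 0 m else 0) = 0
      rw [ih]; simp
  map_add' := by
    intro f f'
    funext m
    induction m with
    | nil => rfl
    | cons h m ih =>
      show (f + f') (h :: m) - (if h = g then invf g (f + f') m else 0) =
        (f (h :: m) - (if h = g then invf g f m else 0)) +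
        (f' (h :: m) - (if h = g then invf g f' m else 0))
      rw [ih]
      by_cases hg : h = g
      · simp only [hg, if_true, Pi.add_apply]; ring
      · simp only [hg, if_false, Pi.add_apply]; ring

theorem mul_inv_L (g : ℕ) : (1 + Lg g) * Linv g = 1 := by
  ext f m
  show invf g f m + Lg g (invf g f) m = f m
  cases m with
  | nil => rw [Lg_nil]; simp [invf]
  | cons h m =>
    rw [Lg_cons]
    show (f (h :: m) - if h = g then invf g f m else 0) + _ = _
    ring

theorem inv_mul_L (g : ℕ) : Linv g * (1 + Lg g) = 1 := by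
  ext f m
  show invf g (f + Lg g f) m = f m
  induction m with
  | nil => show (f + Lg g f) [] = f []; simp [Lg_nil]
  | cons h m ih =>
    show (f + Lg g f) (h :: m) - (if h = g then invf g (f + Lg g f) m else 0) = f (h :: m)
    rw [ih]
    show f (h :: m) + Lg g f (h :: m) - _ = _
    rw [Lg_cons]
    ring

/-- degree at least `n` -/
def Dg (n : ℕ) (u : AddMonoid.End C) : Prop :=
  ∀ (p : ℕ) (f : C), (∀ m, m.length < p → f m = 0) → ∀ m, m.length < p + n → u f m = 0

theorem Dg_one : Dg 0 1 := fun _ _ hf m hm => hf m hm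

theorem Dg_add {n : ℕ} {u v : AddMonoid.End C} (hu : Dg n u) (hv : Dg n v) : Dg n (u + v) := by
  intro p f hf m hm
  show u f m + v f m = 0
  rw [hu p f hf m hm, hv p f hf m hm, add_zero]

theorem Dg_sub {n : ℕ} {u v : AddMonoid.End C} (hu : Dg n u) (hv : Dg n v) : Dg n (u - v) := by
  intro p f hf m hm
  show u f m - v f m = 0
  rw [hu p f hf m hm, hv p f hf m hm, sub_zero]

theorem Dg_mul {n n' : ℕ} {u v : AddMonoid.End C} (hu : Dg n u) (hv : Dg n' v) :
    Dg (n + n') (u * v) := by
  intro p f hf m hm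
  show u (v f) m = 0
  exact hu (p + n') (v f) (hv p f hf) m (by omega)

theorem Dg_mono {n n' : ℕ} (h : n ≤ n') {u : AddMonoid.End C} (hu : Dg n' u) : Dg n u :=
  fun p f hf m hm => hu p f hf m (by omega)

theorem Dg_Lg (g : ℕ) : Dg 1 (Lg g) := by
  intro p f hf m hm
  cases m with
  | nil => rfl
  | cons h m =>
    rw [Lg_cons]
    by_cases hg : h = g
    · rw [if_pos hg]
      apply hf
      simp only [List.length_cons] at hm
      omega
    · rw [if_neg hg]

theorem Dg_Linv (g : ℕ) : Dg 0 (Linv g) := by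
  intro p f hf m hm
  show invf g f m = 0
  induction m with
  | nil => exact hf _ hm
  | cons h m ih =>
    show f (h :: m) - (if h = g then invf g f m else 0) = 0
    rw [hf _ hm, ih (by simp only [List.length_cons] at hm; omega)]
    simp

theorem Fs_zz (k : ℕ) (y : Yl) : Fs (actM (zz k) y) = (1 + Lg (2 * k)) (Fs y) := by
  funext m
  show _ = Fs y m + Lg (2 * k) (Fs y) m
  unfold zz
  rw [actM_of]
  cases m with
  | nil => rw [Lg_nil]; simp [Fs]
  | cons h m =>
    rw [Lg_cons]
    show (if h :: m = [] then 1 else cc (lett (2 * k) y) (h :: m)) =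
      (if h :: m = [] then 1 else cc y (h :: m)) + _
    rw [if_neg (by simp), if_neg (by simp)]
    by_cases hg : h = 2 * k
    · subst hg
      rw [if_pos rfl]
      by_cases hm : m = []
      · subst hm
        rw [cc_lett_even]
        simp [Fs]
      · rw [cc_lett_cons _ _ hm]
        simp [Fs, hm]
    · rw [if_neg hg, cc_lett_ne _ _ hg, add_zero]

theorem Fs_inv {w : FreeGroup ℕ} {b b' : AddMonoid.End C} (h1 : b' * b = 1)
    (h : ∀ y, Fs (actM w y) = b (Fs y)) (y : Yl) : Fs (actM w⁻¹ y) = b' (Fs y) := by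
  have h2 : Fs y = b (Fs (actM w⁻¹ y)) := by
    rw [← h, actM_actM_inv]
  rw [h2]
  have h3 : (b' * b) (Fs (actM w⁻¹ y)) = Fs (actM w⁻¹ y) := by rw [h1]; rfl
  exact h3.symm

theorem main (k i : ℕ) : ∃ b b' : AddMonoid.End C, b * b' = 1 ∧ b' * b = 1 ∧ Dg (i + 1) (b - 1) ∧
    Dg 0 b' ∧ ∀ y, Fs (actM (vk k i) y) = b (Fs y) := by
  induction i with
  | zero =>
    refine ⟨1 + Lg (2 * (k + 1)), Linv (2 * (k + 1)), mul_inv_L _, inv_mul_L _, ?_, Dg_Linv _, ?_⟩
    · rw [add_sub_cancel_left]
      exact Dg_Lg _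
    · intro y
      exact Fs_zz (k + 1) y
  | succ i ih =>
    obtain ⟨b, b', h1, h2, h3, h4, h5⟩ := ih
    have ha1 := mul_inv_L (2 * 0)
    have ha2 := inv_mul_L (2 * 0)
    set t : AddMonoid.End C := Lg (2 * 0) with ht
    set a' : AddMonoid.End C := Linv (2 * 0) with ha'
    set q : AddMonoid.End C := b - 1 with hq
    have hbq : b = 1 + q := by rw [hq]; abel
    have h0b : Dg 0 b := by
      rw [hbq]
      exact Dg_add Dg_one (Dg_mono (by omega) h3)
    have h0a : Dg 0 (1 + t) := Dg_add Dg_one (Dg_mono (by omega) (Dg_Lg _))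
    refine ⟨(1 + t) * b * a' * b', b * (1 + t) * b' * a', ?_, ?_, ?_, ?_, ?_⟩
    · have : (1 + t) * b * a' * b' * (b * (1 + t) * b' * a') =
        (1 + t) * (b * (a' * (b' * b) * (1 + t)) * b') * a' := by noncomm_ring
      rw [this, h2, mul_one, ha2, mul_one, h1, mul_one, ha1]
    · have : b * (1 + t) * b' * a' * ((1 + t) * b * a' * b') =
        b * ((1 + t) * (b' * (a' * (1 + t)) * b) * a') * b' := by noncomm_ring
      rw [this, ha2, mul_one, h2, mul_one, ha1, mul_one, h1]
    · have e1 : (1 + t) * b * a' * b' - 1 = (t * q - q * t) * a' * b' := by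
        have e2 : (t * q - q * t) = (1 + t) * b - b * (1 + t) := by
          rw [hbq]; noncomm_ring
        rw [e2]
        have e3 : ((1 + t) * b - b * (1 + t)) * a' * b' =
          (1 + t) * b * a' * b' - b * ((1 + t) * a') * b' := by
          rw [sub_mul, sub_mul]
          simp only [mul_assoc]
        rw [e3, ha1, mul_one, h1]
      rw [e1]
      have d1 : Dg (i + 2) (t * q - q * t) := by
        apply Dg_sub
        · exact Dg_mono (by omega) (Dg_mul (Dg_Lg _) h3)
        · exact Dg_mono (by omega) (Dg_mul h3 (Dg_Lg _))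
      have d2 := Dg_mul (Dg_mul d1 (Dg_Linv (2 * 0))) h4
      exact Dg_mono (by omega) d2
    · exact Dg_mul (Dg_mul (Dg_mul h0b h0a) h4) (Dg_Linv _)
    · intro y
      show Fs (actM (zz 0 * vk k i * (zz 0)⁻¹ * (vk k i)⁻¹) y) = _
      rw [actM_mul, actM_mul, actM_mul, Fs_zz, h5, Fs_inv (w := zz 0) ha2 (Fs_zz 0), Fs_inv h2 h5]
      rfl

end

end M06

open M06 in
theorem vk_cc (k i : ℕ) (m : List ℕ) (hm : m ≠ []) (hlen : m.length ≤ i) (y : Yl) :
    cc (actM (vk k i) y) m = cc y m := by
  obtain ⟨b, b', h1, h2, h3, h4, h5⟩ := main k i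
  have h := congrFun (h5 y) m
  have h6 := h3 0 (Fs y) (fun m hm => absurd hm (Nat.not_lt_zero _)) m (by omega)
  have h7 : b (Fs y) m - Fs y m = 0 := h6
  have h8 : Fs (actM (vk k i) y) m = cc (actM (vk k i) y) m := if_neg hm
  have h9 : Fs y m = cc y m := if_neg hm
  rw [← h8, ← h9, h]
  omega

end Pool.Agent.AllSurf
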