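import Mathlib

/-!
# MP_7f477e_gt, part M: the lexicographic action of the free group on `ℕ`

`Yl = Lex (ℕ → ℤ)` is ordered lexicographically. A map which adds to the `n`-th coordinate an
integer that depends on the earlier coordinates only is an order automorphism of `Yl`.
Letters of the free group are natural numbers:
`2 k` is the letter `z_k`, `2 j + 1` is the letter `x_j`.
Coordinates in use: `cc y m` (`m` a nonempty list of letters) at position `posc m`, and
`dd y j` (`j : ℕ`) at position `posd j`.
The letter `g` acts by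
  `c_{g :: m} += c_m` (`m ≠ []`), `c_[g] += 1` (`g` even), `c_[2j+1] += d_j` (`g = 2j+1`),
  `d_k += 1` if `g = 2k+2` and `c_[0] = 0`; nothing else changes.
-/

set_option autoImplicit false

namespace Pool.Agent.AllSurf

/-- integer sequences with the lexicographic order -/
abbrev Yl : Type := Lex (ℕ → ℤ)

/-- the `n`-th coordinate -/
def co (y : Yl) (n : ℕ) : ℤ := ofLex y n

theorem Yl.ext {y y' : Yl} (h : ∀ n, co y n = co y' n) : y = y' :=
  ofLex.injective (funext h)

theorem Yl.lt_iff {y y' : Yl} : y < y' ↔ ∃ n, (∀ i < n, co y i = co y' i) ∧ co y n < co y' n :=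
  Iff.rfl

noncomputable section

/-- the inverse of a triangular map: the solution `y` of `y n + f y n = z n` -/
def triInv (f : (ℕ → ℤ) → ℕ → ℤ) (z : ℕ → ℤ) (n : ℕ) : ℤ :=
  z n - f (fun i => if _h : i < n then triInv f z i else 0) n
termination_by n

theorem triInv_eq (f : (ℕ → ℤ) → ℕ → ℤ)
    (hf : ∀ y y' : ℕ → ℤ, ∀ n, (∀ i < n, y i = y' i) → f y n = f y' n) (z : ℕ → ℤ) (n : ℕ) :
    triInv f z n + f (triInv f z) n = z n := by
  rw [triInv]
  have : f (fun i => if _h : i < n then triInv f z i else 0) n = f (triInv f z) n := by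
    apply hf
    intro i hi
    simp [hi]
  rw [this]; ring

/-- A triangular map as an order automorphism of `Yl`. -/
def triIso (f : (ℕ → ℤ) → ℕ → ℤ)
    (hf : ∀ y y' : ℕ → ℤ, ∀ n, (∀ i < n, y i = y' i) → f y n = f y' n) : Yl ≃o Yl where
  toFun y := toLex (fun n => ofLex y n + f (ofLex y) n)
  invFun z := toLex (triInv f (ofLex z))
  left_inv := by
    intro y
    apply Yl.ext
    intro n
    show triInv f (fun n => ofLex y n + f (ofLex y) n) n = ofLex y n
    induction n using Nat.strong_induction_on with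
    | _ n ih =>
      have h1 := triInv_eq f hf (fun n => ofLex y n + f (ofLex y) n) n
      have h2 : f (triInv f (fun n => ofLex y n + f (ofLex y) n)) n = f (ofLex y) n :=
        hf _ _ _ ih
      rw [h2] at h1
      exact add_right_cancel h1
  right_inv := by
    intro z
    apply Yl.ext
    intro n
    exact triInv_eq f hf (ofLex z) n
  map_rel_iff' := by
    intro y y'
    have key : ∀ y y' : Yl, y < y' →
        (toLex (fun n => ofLex y n + f (ofLex y) n) : Yl) < toLex (fun n => ofLex y' n + f (ofLex y') n) := by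
      intro y y' h
      obtain ⟨n, h1, h2⟩ := Yl.lt_iff.1 h
      refine Yl.lt_iff.2 ⟨n, ?_, ?_⟩
      · intro i hi
        show ofLex y i + f (ofLex y) i = ofLex y' i + f (ofLex y') i
        rw [hf (ofLex y) (ofLex y') i (fun j hj => h1 j (hj.trans hi))]
        rw [show ofLex y i = ofLex y' i from h1 i hi]
      · show ofLex y n + f (ofLex y) n < ofLex y' n + f (ofLex y') n
        rw [hf (ofLex y) (ofLex y') n h1]
        have : ofLex y n < ofLex y' n := h2
        omega
    constructor
    · intro h
      by_contra hc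
      exact absurd h (not_le.2 (key y' y (not_le.1 hc)))
    · intro h
      rcases h.lt_or_eq with h | rfl
      · exact (key y y' h).le
      · exact le_rfl

theorem co_triIso (f : (ℕ → ℤ) → ℕ → ℤ)
    (hf : ∀ y y' : ℕ → ℤ, ∀ n, (∀ i < n, y i = y' i) → f y n = f y' n) (y : Yl) (n : ℕ) :
    co (triIso f hf y) n = co y n + f (ofLex y) n := rfl

end

/-! ## Positions -/

/-- the code of a list of letters -/
def mcode : List ℕ → ℕ
  | [] => 0
  | g :: m => Nat.pair g (mcode m) + 1

/-- decoding -/
def mdec : ℕ → List ℕ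
  | 0 => []
  | n + 1 => (Nat.unpair n).1 :: mdec (Nat.unpair n).2
termination_by n => n
decreasing_by exact Nat.lt_succ_of_le (Nat.unpair_right_le n)

theorem mdec_mcode (m : List ℕ) : mdec (mcode m) = m := by
  induction m with
  | nil => simp [mcode, mdec]
  | cons g m ih => rw [mcode, mdec, Nat.unpair_pair]; simp [ih]

theorem mcode_mdec (n : ℕ) : mcode (mdec n) = n := by
  induction n using Nat.strong_induction_on with
  | _ n ih =>
    cases n with
    | zero => simp [mcode, mdec]
    | succ n =>
      rw [mdec, mcode, ih _ (Nat.lt_succ_of_le (Nat.unpair_right_le n)), Nat.pair_unpair]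

theorem mcode_inj {m m' : List ℕ} (h : mcode m = mcode m') : m = m' := by
  rw [← mdec_mcode m, h, mdec_mcode]

theorem mcode_lt_cons (g : ℕ) (m : List ℕ) : mcode m < mcode (g :: m) :=
  Nat.lt_succ_of_le (Nat.right_le_pair g (mcode m))

theorem length_le_mcode (m : List ℕ) : m.length ≤ mcode m := by
  induction m with
  | nil => simp [mcode]
  | cons g m ih => exact Nat.succ_le_of_lt (lt_of_le_of_lt ih (mcode_lt_cons g m))

/-- the position of the coordinate `c_m` -/
def posc (m : List ℕ) : ℕ := 2 * mcode m + 1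

/-- the position of the coordinate `d_j` -/
def posd (j : ℕ) : ℕ := 2 * mcode [2 * j + 1]

/-- the coordinate `c_m` (only used for `m ≠ []`) -/
def cc (y : Yl) (m : List ℕ) : ℤ := co y (posc m)

/-- the coordinate `d_j` -/
def dd (y : Yl) (j : ℕ) : ℤ := co y (posd j)

theorem posc_inj {m m' : List ℕ} (h : posc m = posc m') : m = m' := by
  apply mcode_inj; unfold posc at h; omega

theorem posd_inj {j j' : ℕ} (h : posd j = posd j') : j = j' := by
  have h1 : mcode [2 * j + 1] = mcode [2 * j' + 1] := by unfold posd at h; omega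
  have h2 := mcode_inj h1
  simp at h2
  omega

theorem posc_ne_posd (m : List ℕ) (j : ℕ) : posc m ≠ posd j := by
  unfold posc posd; omega

theorem posc_lt_cons (g : ℕ) (m : List ℕ) : posc m < posc (g :: m) := by
  have := mcode_lt_cons g m
  unfold posc; omega

theorem posd_lt_posc (j : ℕ) : posd j < posc [2 * j + 1] := by
  unfold posc posd; omega

theorem posc_zero_lt_posd (k : ℕ) : posc [0] < posd k := by
  have h : 2 * k + 1 ≤ Nat.pair (2 * k + 1) 0 := Nat.left_le_pair _ _
  have h2 : Nat.pair 1 0 = 2 := rfl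
  have h3 : Nat.pair 1 0 ≤ Nat.pair (2 * k + 1) 0 := by
    rcases Nat.eq_zero_or_pos k with rfl | hk
    · exact le_rfl
    · exact (Nat.pair_lt_pair_left 0 (by omega)).le
  have h4 : Nat.pair 0 0 = 0 := rfl
  simp only [posc, posd, mcode, h4]
  omega

/-- the increment of the coordinate at position `n` under the letter `g` -/
def inc (g : ℕ) (y : ℕ → ℤ) (n : ℕ) : ℤ :=
  if n % 2 = 1 then
    match mdec (n / 2) with
    | [] => 0
    | h :: m =>
      if h = g then
        (if m = [] then (if g % 2 = 0 then 1 else y (posd (g / 2))) else y (posc m))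
      else 0
  else
    if g % 2 = 0 ∧ g ≠ 0 ∧ n = posd (g / 2 - 1) ∧ y (posc [0]) = 0 then 1 else 0

theorem inc_posc_nil (g : ℕ) (y : ℕ → ℤ) : inc g y (posc []) = 0 := by
  have h1 : posc [] % 2 = 1 := by unfold posc; omega
  have h2 : posc [] / 2 = mcode [] := by unfold posc; omega
  unfold inc
  rw [if_pos h1, h2, mdec_mcode]

theorem inc_posc_cons (g : ℕ) (y : ℕ → ℤ) (h : ℕ) (m : List ℕ) :
    inc g y (posc (h :: m)) = if h = g then
        (if m = [] then (if g % 2 = 0 then 1 else y (posd (g / 2))) else y (posc m)) else 0 := by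
  have h1 : posc (h :: m) % 2 = 1 := by unfold posc; omega
  have h2 : posc (h :: m) / 2 = mcode (h :: m) := by unfold posc; omega
  unfold inc
  rw [if_pos h1, h2, mdec_mcode]

theorem inc_posd (g : ℕ) (y : ℕ → ℤ) (k : ℕ) :
    inc g y (posd k) = if g = 2 * k + 2 ∧ y (posc [0]) = 0 then 1 else 0 := by
  have h1 : ¬ posd k % 2 = 1 := by unfold posd; omega
  unfold inc
  rw [if_neg h1]
  congr 1
  apply propext
  constructor
  · rintro ⟨a, b, c, d⟩
    have := posd_inj c
    exact ⟨by omega, d⟩
  · rintro ⟨rfl, d⟩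
    refine ⟨by omega, by omega, ?_, d⟩
    congr 1; omega

theorem inc_dep (g : ℕ) (y y' : ℕ → ℤ) (n : ℕ) (h : ∀ i < n, y i = y' i) :
    inc g y n = inc g y' n := by
  by_cases hn : n % 2 = 1
  · have hn2 : n = posc (mdec (n / 2)) := by unfold posc; rw [mcode_mdec]; omega
    rw [hn2] at h ⊢
    generalize mdec (n / 2) = m at h ⊢
    cases m with
    | nil => rw [inc_posc_nil, inc_posc_nil]
    | cons a m =>
      rw [inc_posc_cons, inc_posc_cons]
      by_cases ha : a = g
      · subst ha
        rw [if_pos rfl, if_pos rfl]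
        by_cases hm : m = []
        · subst hm
          rw [if_pos rfl, if_pos rfl]
          by_cases hg : a % 2 = 0
          · rw [if_pos hg, if_pos hg]
          · rw [if_neg hg, if_neg hg]
            have : a = 2 * (a / 2) + 1 := by omega
            apply h
            have := posd_lt_posc (a / 2)
            rwa [← ‹a = 2 * (a / 2) + 1›] at this
        · rw [if_neg hm, if_neg hm]
          exact h _ (posc_lt_cons a m)
      · rw [if_neg ha, if_neg ha]
  · unfold inc
    rw [if_neg hn, if_neg hn]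
    by_cases hc : g % 2 = 0 ∧ g ≠ 0 ∧ n = posd (g / 2 - 1)
    · have : y (posc [0]) = y' (posc [0]) := h _ (by rw [hc.2.2]; exact posc_zero_lt_posd _)
      rw [this]
    · rw [if_neg (fun hh => hc ⟨hh.1, hh.2.1, hh.2.2.1⟩),
        if_neg (fun hh => hc ⟨hh.1, hh.2.1, hh.2.2.1⟩)]

noncomputable section

/-- the action of a letter -/
def lett (g : ℕ) : Yl ≃o Yl := triIso (inc g) (inc_dep g)

/-- the action of the free group on the letters -/
def actM : FreeGroup ℕ →* (Yl ≃o Yl) := FreeGroup.lift lett

theorem actM_of (g : ℕ) : actM (FreeGroup.of g) = lett g := by simp [actM]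

theorem actM_mul (v w : FreeGroup ℕ) (y : Yl) : actM (v * w) y = actM v (actM w y) := by
  rw [map_mul]; rfl

theorem actM_one (y : Yl) : actM 1 y = y := by rw [map_one]; rfl

theorem actM_inv_actM (w : FreeGroup ℕ) (y : Yl) : actM w⁻¹ (actM w y) = y := by
  rw [← actM_mul, inv_mul_cancel, actM_one]

theorem actM_actM_inv (w : FreeGroup ℕ) (y : Yl) : actM w (actM w⁻¹ y) = y := by
  rw [← actM_mul, mul_inv_cancel, actM_one]

/-- `c_{g :: m} += c_m` -/
theorem cc_lett_cons (g : ℕ) (m : List ℕ) (hm : m ≠ []) (y : Yl) :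
    cc (lett g y) (g :: m) = cc y (g :: m) + cc y m := by
  show co y (posc (g :: m)) + inc g (ofLex y) (posc (g :: m)) = _
  rw [inc_posc_cons, if_pos rfl, if_neg hm]; rfl

theorem cc_lett_ne (g h : ℕ) (hne : h ≠ g) (m : List ℕ) (y : Yl) :
    cc (lett g y) (h :: m) = cc y (h :: m) := by
  show co y (posc (h :: m)) + inc g (ofLex y) (posc (h :: m)) = _
  rw [inc_posc_cons, if_neg hne, add_zero]; rfl

theorem cc_lett_even (k : ℕ) (y : Yl) : cc (lett (2 * k) y) [2 * k] = cc y [2 * k] + 1 := by
  show co y (posc [2 * k]) + inc (2 * k) (ofLex y) (posc [2 * k]) = _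
  rw [inc_posc_cons, if_pos rfl, if_pos rfl, if_pos (by omega)]; rfl

theorem cc_lett_odd (j : ℕ) (y : Yl) :
    cc (lett (2 * j + 1) y) [2 * j + 1] = cc y [2 * j + 1] + dd y j := by
  show co y (posc [2 * j + 1]) + inc (2 * j + 1) (ofLex y) (posc [2 * j + 1]) = _
  rw [inc_posc_cons, if_pos rfl, if_pos rfl, if_neg (by omega)]
  rw [show (2 * j + 1) / 2 = j by omega]; rfl

theorem dd_lett (g k : ℕ) (y : Yl) :
    dd (lett g y) k = dd y k + if g = 2 * k + 2 ∧ cc y [0] = 0 then 1 else 0 := by
  show co y (posd k) + inc g (ofLex y) (posd k) = _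
  rw [inc_posd]; rfl

/-- the positions in use -/
def IsPos (n : ℕ) : Prop := (∃ m : List ℕ, m ≠ [] ∧ n = posc m) ∨ (∃ j, n = posd j)

/-- coordinates which are not in use are never changed -/
theorem co_lett_other (g n : ℕ) (hn : ¬ IsPos n) (y : Yl) : co (lett g y) n = co y n := by
  show co y n + inc g (ofLex y) n = co y n
  have : inc g (ofLex y) n = 0 := by
    by_cases h : n % 2 = 1
    · have hn2 : n = posc (mdec (n / 2)) := by unfold posc; rw [mcode_mdec]; omega
      by_cases hm : mdec (n / 2) = []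
      · rw [hn2, hm, inc_posc_nil]
      · exact absurd (Or.inl ⟨_, hm, hn2⟩) hn
    · unfold inc
      rw [if_neg h]
      apply if_neg
      rintro ⟨_, _, h3, _⟩
      exact hn (Or.inr ⟨_, h3⟩)
  rw [this, add_zero]

open Classical in
/-- the point `y_A`: `d_j = 0` for `j ∈ A`, `d_j = 1` for `j ∉ A`, all other coordinates `0` -/
def yA (A : Set ℕ) : Yl := toLex (fun n => if ∃ j, n = posd j ∧ j ∉ A then 1 else 0)

open Classical in
theorem cc_yA (A : Set ℕ) (m : List ℕ) : cc (yA A) m = 0 := by
  show (if _ then _ else _) = _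
  apply if_neg
  rintro ⟨j, hj, _⟩
  exact posc_ne_posd m j hj

open Classical in
theorem dd_yA (A : Set ℕ) (j : ℕ) : dd (yA A) j = if j ∈ A then 0 else 1 := by
  show (if _ then _ else _) = _
  by_cases h : j ∈ A
  · rw [if_pos h]
    apply if_neg
    rintro ⟨i, hi, hi2⟩
    rw [posd_inj hi] at h
    exact hi2 h
  · rw [if_neg h]
    exact if_pos ⟨j, rfl, h⟩

open Classical in
theorem co_yA_other (A : Set ℕ) (n : ℕ) (hn : ¬ IsPos n) : co (yA A) n = 0 := by
  show (if _ then _ else _) = _
  apply if_neg
  rintro ⟨j, hj, _⟩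
  exact hn (Or.inr ⟨j, hj⟩)

/-- the letter `z_k` as an element of the free group -/
def zz (k : ℕ) : FreeGroup ℕ := FreeGroup.of (2 * k)

/-- the letter `x_j` as an element of the free group -/
def xx (j : ℕ) : FreeGroup ℕ := FreeGroup.of (2 * j + 1)

/-- the group generated by the `x_j`, `j ∈ A` -/
def XA (A : Set ℕ) : Subgroup (FreeGroup ℕ) := Subgroup.closure (xx '' A)

end

end Pool.Agent.AllSurf
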