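import Pool.Agent.Lib.MP_7f477e_gt.RDefs

/-!
# MP_7f477e_gt, R01: order automorphisms of the line from dense families of intervals
-/

set_option autoImplicit false

open Set

namespace Pool.Agent.AllSurf

/-- A strictly monotone map between dense subsets of the line extends to an order isomorphism. -/
theorem R01_extend (U : Set ℝ) (f : ℝ → ℝ) (hU : Dense U) (hf : StrictMonoOn f U)
    (hV : Dense (f '' U)) : ∃ F : ℝ ≃o ℝ, ∀ t ∈ U, F t = f t := by
  set F : ℝ → ℝ := fun t => sSup (f '' (U ∩ Iic t)) with hF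
  have hne : ∀ t, (f '' (U ∩ Iic t)).Nonempty := by
    intro t
    obtain ⟨u, hu, hut⟩ := hU.exists_lt t
    exact ⟨f u, u, ⟨hu, hut.le⟩, rfl⟩
  have hbd : ∀ t, BddAbove (f '' (U ∩ Iic t)) := by
    intro t
    obtain ⟨u, hu, hut⟩ := hU.exists_gt t
    refine ⟨f u, ?_⟩
    rintro _ ⟨v, ⟨hv, hvt⟩, rfl⟩
    exact (hf hv hu (lt_of_le_of_lt hvt hut)).le
  have hFf : ∀ t ∈ U, F t = f t := by
    intro t ht
    refine IsGreatest.csSup_eq ⟨⟨t, ⟨ht, le_refl t⟩, rfl⟩, ?_⟩
    rintro _ ⟨v, ⟨hv, hvt⟩, rfl⟩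
    exact hf.monotoneOn hv ht hvt
  have hmono : StrictMono F := by
    intro t t' htt'
    obtain ⟨u1, hu1, h1, h1'⟩ := hU.exists_between htt'
    obtain ⟨u2, hu2, h2, h2'⟩ := hU.exists_between h1'
    have e1 : F t ≤ f u1 := by
      refine csSup_le (hne t) ?_
      rintro _ ⟨v, ⟨hv, hvt⟩, rfl⟩
      exact (hf hv hu1 (lt_of_le_of_lt hvt h1)).le
    have e2 : f u2 ≤ F t' := le_csSup (hbd t') ⟨u2, ⟨hu2, h2'.le⟩, rfl⟩
    exact lt_of_le_of_lt e1 (lt_of_lt_of_le (hf hu1 hu2 h2) e2)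
  have hrange : Dense (range F) := by
    refine hV.mono ?_
    rintro _ ⟨t, ht, rfl⟩
    exact ⟨t, hFf t ht⟩
  have hcont : Continuous F := Monotone.continuous_of_denseRange hmono.monotone hrange
  have hsurj : Function.Surjective F := by
    refine hcont.surjective ?_ ?_
    · refine hmono.monotone.tendsto_atTop_atTop ?_
      intro b
      obtain ⟨_, ⟨t, ht, rfl⟩, hb⟩ := hV.exists_gt b
      exact ⟨t, by rw [hFf t ht]; exact hb.le⟩
    · refine hmono.monotone.tendsto_atBot_atBot ?_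
      intro b
      obtain ⟨_, ⟨t, ht, rfl⟩, hb⟩ := hV.exists_lt b
      exact ⟨t, by rw [hFf t ht]; exact hb.le⟩
  exact ⟨StrictMono.orderIsoOfSurjective F hmono hsurj, fun t ht => hFf t ht⟩

/-- Two order isomorphisms of the line which agree on a dense set are equal. -/
theorem R01_unique (F G : ℝ ≃o ℝ) (U : Set ℝ) (hU : Dense U) (h : ∀ t ∈ U, F t = G t) : F = G := by
  have := Continuous.ext_on hU F.continuous G.continuous h
  exact DFunLike.coe_injective this

/-- density of a union of intervals -/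
theorem R01_dense {I : Type} (p q : I → ℝ) (hpq : ∀ i, p i < q i)
    (hd : ∀ u v, u < v → ∃ i, p i < v ∧ u < q i) : Dense (⋃ i, Icc (p i) (q i)) := by
  rw [dense_iff_inter_open]
  intro V hV ⟨x, hx⟩
  obtain ⟨ε, hε, hV'⟩ := Metric.isOpen_iff.1 hV x hx
  obtain ⟨i, h1, h2⟩ := hd (x - ε) (x + ε) (by linarith)
  have h3 := hpq i
  -- a point of `Icc (p i) (q i)` in the ball
  rcases le_total (p i) x with h | h
  · rcases le_total x (q i) with h' | h'
    · exact ⟨x, hx, mem_iUnion.2 ⟨i, h, h'⟩⟩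
    · refine ⟨q i, hV' ?_, mem_iUnion.2 ⟨i, h3.le, le_refl _⟩⟩
      rw [Metric.mem_ball, Real.dist_eq, abs_lt]
      constructor <;> linarith
  · refine ⟨p i, hV' ?_, mem_iUnion.2 ⟨i, le_refl _, h3.le⟩⟩
    rw [Metric.mem_ball, Real.dist_eq, abs_lt]
    constructor <;> linarith

/-- Gluing lemma: increasing bijections between the intervals of two dense families with the same
order extend to an order isomorphism of the line. -/
theorem R01_glue {I : Type} (p q p' q' : I → ℝ) (χ : I → ℝ → ℝ)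
    (hpq : ∀ i, p i < q i) (hpq' : ∀ i, p' i < q' i)
    (hsep : ∀ i j, i ≠ j → (q i < p j ∧ q' i < p' j) ∨ (q j < p i ∧ q' j < p' i))
    (hd : ∀ u v, u < v → ∃ i, p i < v ∧ u < q i)
    (hd' : ∀ u v, u < v → ∃ i, p' i < v ∧ u < q' i)
    (hχ : ∀ i, StrictMonoOn (χ i) (Icc (p i) (q i)))
    (himg : ∀ i, χ i '' Icc (p i) (q i) = Icc (p' i) (q' i)) :
    ∃ F : ℝ ≃o ℝ, ∀ i, ∀ t ∈ Icc (p i) (q i), F t = χ i t := by
  classical
  have huniq : ∀ i j t, t ∈ Icc (p i) (q i) → t ∈ Icc (p j) (q j) → i = j := by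
    intro i j t hi hj
    by_contra hne
    rcases hsep i j hne with ⟨h, _⟩ | ⟨h, _⟩
    · linarith [hi.2, hj.1]
    · linarith [hi.1, hj.2]
  set U : Set ℝ := ⋃ i, Icc (p i) (q i) with hUdef
  have hUd : Dense U := R01_dense p q hpq hd
  set f : ℝ → ℝ := fun t => if h : ∃ i, t ∈ Icc (p i) (q i) then χ h.choose t else 0 with hfdef
  have hf : ∀ i, ∀ t ∈ Icc (p i) (q i), f t = χ i t := by
    intro i t ht
    have hex : ∃ i, t ∈ Icc (p i) (q i) := ⟨i, ht⟩
    have h1 : hex.choose = i := huniq _ _ t hex.choose_spec ht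
    simp only [hfdef, dif_pos hex]
    rw [h1]
  have hmem' : ∀ i, ∀ t ∈ Icc (p i) (q i), χ i t ∈ Icc (p' i) (q' i) := by
    intro i t ht
    rw [← himg i]; exact ⟨t, ht, rfl⟩
  have hmono : StrictMonoOn f U := by
    intro s hs t ht hst
    obtain ⟨i, hi⟩ := mem_iUnion.1 hs
    obtain ⟨j, hj⟩ := mem_iUnion.1 ht
    rw [hf i s hi, hf j t hj]
    by_cases hij : i = j
    · subst hij
      exact hχ i hi hj hst
    · have h1 := hmem' i s hi
      have h2 := hmem' j t hj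
      rcases hsep i j hij with ⟨_, h⟩ | ⟨h, _⟩
      · linarith [h1.2, h2.1]
      · linarith [hi.1, hj.2]
  have hV : Dense (f '' U) := by
    refine (R01_dense p' q' hpq' hd').mono ?_
    intro s hs
    obtain ⟨i, hi⟩ := mem_iUnion.1 hs
    rw [← himg i] at hi
    obtain ⟨t, ht, rfl⟩ := hi
    exact ⟨t, mem_iUnion.2 ⟨i, ht⟩, hf i t ht⟩
  obtain ⟨F, hF⟩ := R01_extend U f hUd hmono hV
  refine ⟨F, fun i t ht => ?_⟩
  rw [hF t (mem_iUnion.2 ⟨i, ht⟩), hf i t ht]

end Pool.Agent.AllSurf
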