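import Pool.Agent.Lib.MP_7f477e_gt.RLay

/-!
# MP_7f477e_gt, R02: weights

A nonempty countable type has positive weights with sum `1/4` (`Encodable.ofCountable`: `2^-(encode a + 1)`
is positive and summable (`summable_geometric_two'` composed with an injective function); divide by
four times its sum). Take such weights on `{e // e < e0}` and on `{e // e0 < e}` (nonempty: no minimal, no maximal
element), and `1/2` for `e0`. The sum over all of `EE` is `1`: `HasSum` over the three disjoint parts.
-/

set_option autoImplicit false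

open Set

namespace Pool.Agent.AllSurf

theorem R02_exists (α : Type) [Countable α] [Nonempty α] :
    ∃ w : α → ℝ, (∀ a, 0 < w a) ∧ HasSum w (1 / 4) := by
  let _ := Encodable.ofCountable α
  have hs : Summable (fun a : α => ((1 : ℝ) / 2) ^ (Encodable.encode a)) :=
    summable_geometric_two.comp_injective Encodable.encode_injective
  have hp : ∀ a : α, 0 < ((1 : ℝ) / 2) ^ (Encodable.encode a) := fun a => by positivity
  obtain ⟨a0⟩ := (inferInstance : Nonempty α)
  have hS : 0 < ∑' a : α, ((1 : ℝ) / 2) ^ (Encodable.encode a) :=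
    hs.tsum_pos (fun a => (hp a).le) a0 (hp a0)
  refine ⟨fun a => ((1 : ℝ) / 2) ^ (Encodable.encode a) *
    (1 / (4 * ∑' a : α, ((1 : ℝ) / 2) ^ (Encodable.encode a))), ?_, ?_⟩
  · intro a
    have := hp a
    positivity
  · have h := hs.hasSum.mul_right (1 / (4 * ∑' a : α, ((1 : ℝ) / 2) ^ (Encodable.encode a)))
    have hne : (∑' a : α, ((1 : ℝ) / 2) ^ (Encodable.encode a)) ≠ 0 := hS.ne'
    have h2 : (∑' a : α, ((1 : ℝ) / 2) ^ (Encodable.encode a)) *
        (1 / (4 * ∑' a : α, ((1 : ℝ) / 2) ^ (Encodable.encode a))) = 1 / 4 := by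
      generalize (∑' a : α, ((1 : ℝ) / 2) ^ (Encodable.encode a)) = S at hne
      field_simp
    rw [h2] at h
    exact h

theorem R02_weights (O : OrbitData) : ∃ w : O.EE → ℝ, (∀ e, 0 < w e) ∧ w O.e0 = 1 / 2 ∧
    HasSum (fun e : {e : O.EE // e < O.e0} => w e) (1 / 4) ∧
    HasSum (fun e : {e : O.EE // O.e0 < e} => w e) (1 / 4) ∧ HasSum w 1 := by
  classical
  have : Nonempty {e : O.EE // e < O.e0} := by
    obtain ⟨e, he⟩ := exists_lt O.e0
    exact ⟨⟨e, he⟩⟩
  have : Nonempty {e : O.EE // O.e0 < e} := by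
    obtain ⟨e, he⟩ := exists_gt O.e0
    exact ⟨⟨e, he⟩⟩
  obtain ⟨w1, h1, h1'⟩ := R02_exists {e : O.EE // e < O.e0}
  obtain ⟨w2, h2, h2'⟩ := R02_exists {e : O.EE // O.e0 < e}
  set w : O.EE → ℝ := fun e => if h : e < O.e0 then w1 ⟨e, h⟩ else
    if h : O.e0 < e then w2 ⟨e, h⟩ else 1 / 2 with hw
  have e1 : (fun e : {e : O.EE // e < O.e0} => w e) = w1 := by
    funext ⟨e, he⟩
    simp [hw, he]
  have e2 : (fun e : {e : O.EE // O.e0 < e} => w e) = w2 := by
    funext ⟨e, he⟩
    have h : ¬ e < O.e0 := not_lt.2 he.le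
    simp [hw, he, h]
  have e3 : w O.e0 = 1 / 2 := by
    simp [hw]
  have g1 : HasSum (fun e : {e : O.EE // e < O.e0} => w e) (1 / 4) := by
    rw [e1]
    exact h1'
  have g2 : HasSum (fun e : {e : O.EE // O.e0 < e} => w e) (1 / 4) := by
    rw [e2]
    exact h2'
  refine ⟨w, ?_, e3, g1, g2, ?_⟩
  · intro e
    simp only [hw]
    split_ifs
    · exact h1 _
    · exact h2 _
    · norm_num
  · have hd : Disjoint {e : O.EE | e < O.e0} {e : O.EE | O.e0 < e} := by
      rw [Set.disjoint_left]
      intro e he he'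
      exact lt_asymm he he'
    have k1 : HasSum (w ∘ ((↑) : ({e : O.EE | e < O.e0} ∪ {e : O.EE | O.e0 < e} : Set O.EE) → O.EE))
        (1 / 4 + 1 / 4) := HasSum.add_disjoint hd g1 g2
    have k2 : HasSum (w ∘ ((↑) : ({O.e0} : Set O.EE) → O.EE)) (1 / 2) := by
      have := hasSum_unique (w ∘ ((↑) : ({O.e0} : Set O.EE) → O.EE))
      convert this using 1
      exact e3.symm
    have hc : IsCompl ({e : O.EE | e < O.e0} ∪ {e : O.EE | O.e0 < e}) ({O.e0} : Set O.EE) := by
      constructor
      · rw [Set.disjoint_left]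
        rintro e he he'
        rw [Set.mem_singleton_iff] at he'
        subst he'
        rcases he with he | he
        · exact lt_irrefl _ he
        · exact lt_irrefl _ he
      · rw [codisjoint_iff_le_sup]
        intro e _
        rcases lt_trichotomy e O.e0 with h | h | h
        · exact Or.inl (Or.inl h)
        · exact Or.inr h
        · exact Or.inl (Or.inr h)
    have := HasSum.add_isCompl hc k1 k2
    convert this using 1
    norm_num

end Pool.Agent.AllSurf
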