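import Pool.Agent.Lib.MP_7f477e_gt.R02

/-!
# MP_7f477e_gt, R03: the intervals

With the weights of `R02_weights` put `l e = ∑ w e'` over `e' < e` and `pt A = ∑ w e'` over `e' ∈ cut A`
(`∑' e' : {e' // e' < e}, w e'`, or sums of indicator functions; everything is summable,
`HasSum.summable`, `Summable.subtype`).
* `ord`: for `e < e'` take `e < e'' < e'` (dense): the set `{x | x < e} ∪ {e} ∪ {e''}` is contained in
  `{x | x < e'}`, so `l e + w e + w e'' ≤ l e'`.
* `l_pos`: some `e' < e`. `r_lt`: some `e' > e`, and the whole sum is `1`. `l_e0`: definition.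
* `meets`: if no `e` has `l e < v` and `u < l e + w e`, let `S = {e | l e + w e ≤ u}`; then `v ≤ l e` for
  `e ∉ S`. Every finite subset of `S` has sum at most `u` (its largest element `e`: the sum is at most
  `l e + w e`), every finite subset `F` of the complement has sum at most `1 - v` (its smallest element
  `e`: `F` is disjoint from `{x | x < e}`, so its sum is at most `1 - l e`). So `1 ≤ u + 1 - v`.
* `pt_cut`: for `e ∈ cut A` there is `e' ∈ cut A` with `e < e'` (`cut_nomax`), and `{x | x ≤ e'} ⊆ cut A`, so
  `l e + w e < l e' ≤ pt A`. `pt_ncut`: for `e ∉ cut A` there is `e' ∉ cut A`, `e' < e`, and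
  `cut A ⊆ {x | x < e'}`, so `pt A ≤ l e' < l e`. `pt_pos`, `pt_lt` follow with `cut_nonempty`, `cut_compl`.
-/

set_option autoImplicit false

open Set

namespace Pool.Agent.AllSurf

section
variable {E : Type} {w : E → ℝ}

/-- total weight of a set -/
noncomputable def R03_sum (w : E → ℝ) (S : Set E) : ℝ := ∑' e, S.indicator w e

theorem R03_summable (hs : Summable w) (S : Set E) : Summable (S.indicator w) := hs.indicator S

theorem R03_mono (hw : ∀ e, 0 < w e) (hs : Summable w) {S T : Set E} (h : S ⊆ T) :
    R03_sum w S ≤ R03_sum w T :=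
  (R03_summable hs S).tsum_le_tsum (fun e => indicator_le_indicator_of_subset h (fun e => (hw e).le) e)
    (R03_summable hs T)

theorem R03_union (hs : Summable w) {S T : Set E} (h : Disjoint S T) :
    R03_sum w (S ∪ T) = R03_sum w S + R03_sum w T := by
  unfold R03_sum
  rw [← (R03_summable hs S).tsum_add (R03_summable hs T)]
  congr 1
  ext e
  rw [indicator_union_of_disjoint h]

theorem R03_single (e : E) : R03_sum w {e} = w e := by
  unfold R03_sum
  rw [tsum_eq_single e]
  · simp
  · intro e' he'
    simp [he']

theorem R03_insert (hs : Summable w) {S : Set E} {e : E} (h : e ∉ S) :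
    R03_sum w (insert e S) = w e + R03_sum w S := by
  rw [← R03_single (w := w) e, ← R03_union hs (by simpa using h)]
  rfl

theorem R03_pos (hw : ∀ e, 0 < w e) (hs : Summable w) {S : Set E} {e : E} (h : e ∈ S) :
    0 < R03_sum w S := by
  have h1 : R03_sum w {e} ≤ R03_sum w S := R03_mono hw hs (by simpa using h)
  rw [R03_single] at h1
  linarith [hw e]

/-- a set has weight at most c if all its finite subsets have -/
theorem R03_le (_hw : ∀ e, 0 < w e) (hs : Summable w) {S : Set E} {c : ℝ}
    (h : ∀ F : Finset E, (∀ e ∈ F, e ∈ S) → ∑ e ∈ F, w e ≤ c) : R03_sum w S ≤ c := by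
  classical
  unfold R03_sum
  refine (R03_summable hs S).tsum_le_of_sum_le (fun F => ?_)
  have h1 : ∑ e ∈ F, S.indicator w e = ∑ e ∈ F.filter (· ∈ S), w e := by
    rw [Finset.sum_filter]
    exact Finset.sum_congr rfl (fun e _ => by rw [indicator_apply])
  rw [h1]
  exact h _ (fun e he => (Finset.mem_filter.1 he).2)

theorem R03_finset (F : Finset E) : R03_sum w (F : Set E) = ∑ e ∈ F, w e := by
  unfold R03_sum
  rw [tsum_eq_sum (s := F)]
  · exact Finset.sum_congr rfl (fun e he => by rw [indicator_of_mem (by exact_mod_cast he)])
  · intro e he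
    exact indicator_of_notMem (by exact_mod_cast he) _

end

theorem exists_lay (O : OrbitData) : Nonempty (Lay O) := by
  classical
  obtain ⟨w, hw, hw0, hs1, hs2, hs⟩ := R02_weights O
  have hsum := hs.summable
  have huniv : R03_sum w univ = 1 := by
    unfold R03_sum; rw [indicator_univ]; exact hs.tsum_eq
  set l : O.EE → ℝ := fun e => R03_sum w (Iio e) with hl
  have hsub : ∀ e e', e < e' → l e + w e < l e' := by
    intro e e' h
    obtain ⟨f, h1, h2⟩ := exists_between h
    have e1 : R03_sum w (insert f (insert e (Iio e))) = w f + (w e + l e) := by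
      rw [R03_insert hsum, R03_insert hsum]
      · simp
      · simp only [mem_insert_iff, mem_Iio, not_or, not_lt]
        exact ⟨h1.ne', h1.le⟩
    have e2 : R03_sum w (insert f (insert e (Iio e))) ≤ l e' := by
      apply R03_mono hw hsum
      intro x hx
      rcases hx with rfl | rfl | hx
      · exact h2
      · exact h
      · exact lt_trans hx h
    have := hw f
    linarith
  have hle0 : l O.e0 = 1 / 4 := by
    change R03_sum w (Iio O.e0) = 1 / 4
    unfold R03_sum
    rw [← tsum_subtype (Iio O.e0) w]
    exact hs1.tsum_eq
  have hlpos : ∀ e, 0 < l e := by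
    intro e
    obtain ⟨f, hf⟩ := exists_lt e
    exact R03_pos hw hsum (e := f) hf
  have hrlt : ∀ e, l e + w e < 1 := by
    intro e
    obtain ⟨f, hf⟩ := exists_gt e
    have h1 := hsub e f hf
    have h2 : l f ≤ 1 := by
      rw [← huniv]
      exact R03_mono hw hsum (subset_univ _)
    linarith
  refine ⟨⟨l, w, hw, hle0, hw0, hlpos, hrlt, hsub, ?_, fun A => R03_sum w (O.cut A), ?_, ?_, ?_, ?_⟩⟩
  · intro u v hu huv hv
    by_contra hc
    push Not at hc
    -- hc : every e with l e < v has l e + w e ≤ u
    have h1 : R03_sum w {e | l e < v} ≤ u := by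
      apply R03_le hw hsum
      intro F hF
      rcases F.eq_empty_or_nonempty with rfl | hne
      · simpa using hu
      · set e := F.max' hne
        have he : e ∈ F := F.max'_mem hne
        have h2 : ∑ e ∈ F, w e ≤ l e + w e := by
          rw [← R03_finset]
          have h3 : R03_sum w (insert e (Iio e)) = w e + l e := R03_insert hsum (by simp)
          have h4 : R03_sum w (F : Set O.EE) ≤ R03_sum w (insert e (Iio e)) := by
            apply R03_mono hw hsum
            intro x hx
            rcases lt_or_eq_of_le (F.le_max' x hx) with h5 | h5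
            · exact Or.inr h5
            · exact Or.inl h5
          linarith
        exact h2.trans (hc e (hF e he))
    have h2 : R03_sum w {e | l e < v}ᶜ ≤ 1 - v := by
      apply R03_le hw hsum
      intro F hF
      rcases F.eq_empty_or_nonempty with rfl | hne
      · simpa using hv
      · set e := F.min' hne
        have he : e ∈ F := F.min'_mem hne
        have hev : v ≤ l e := not_lt.1 (hF e he)
        have h3 : R03_sum w ((F : Set O.EE) ∪ Iio e) ≤ 1 := by
          rw [← huniv]
          exact R03_mono hw hsum (subset_univ _)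
        rw [R03_union hsum, R03_finset] at h3
        · change ∑ e ∈ F, w e + l e ≤ 1 at h3
          linarith
        · rw [Set.disjoint_left]
          intro x hx hx'
          exact absurd (F.min'_le x hx) (not_le.2 hx')
    have h3 : R03_sum w ({e | l e < v} ∪ {e | l e < v}ᶜ) = 1 := by rw [union_compl_self, huniv]
    rw [R03_union hsum disjoint_compl_right] at h3
    linarith
  · intro A
    obtain ⟨e, he⟩ := O.cut_nonempty A
    exact R03_pos hw hsum he
  · intro A
    obtain ⟨e, he⟩ := O.cut_compl A
    have h1 : R03_sum w (insert e (O.cut A)) ≤ 1 := by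
      rw [← huniv]
      exact R03_mono hw hsum (subset_univ _)
    rw [R03_insert hsum he] at h1
    have := hw e
    change R03_sum w (O.cut A) < 1
    linarith
  · intro A e he
    obtain ⟨e', he', h⟩ := O.cut_nomax A e he
    have h1 := hsub e e' h
    have h2 : l e' ≤ R03_sum w (O.cut A) := by
      apply R03_mono hw hsum
      intro x hx
      exact O.cut_lower A e' x (le_of_lt hx) he'
    exact lt_of_lt_of_le h1 h2
  · intro A e he
    obtain ⟨e', he', h⟩ := O.cut_nomin A e he
    have h1 := hsub e' e h
    have h2 : R03_sum w (O.cut A) ≤ l e' := by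
      apply R03_mono hw hsum
      intro x hx
      by_contra hc
      exact he' (O.cut_lower A x e' (not_lt.1 hc) hx)
    have := hw e'
    change R03_sum w (O.cut A) < l e
    linarith

end Pool.Agent.AllSurf
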