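import Pool.Agent.Lib.MP_7f477e_gt.R01

/-!
# MP_7f477e_gt, RLay: intermediate structures of part R
-/

set_option autoImplicit false

open Set

namespace Pool.Agent.AllSurf

/-- The intervals `J e = [l e, l e + w e]` in `(0,1)` and the points of the cuts. -/
structure Lay (O : OrbitData) where
  l : O.EE → ℝ
  w : O.EE → ℝ
  w_pos : ∀ e, 0 < w e
  l_e0 : l O.e0 = 1 / 4
  w_e0 : w O.e0 = 1 / 2
  l_pos : ∀ e, 0 < l e
  r_lt : ∀ e, l e + w e < 1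
  ord : ∀ e e', e < e' → l e + w e < l e'
  meets : ∀ u v, 0 ≤ u → u < v → v ≤ 1 → ∃ e, l e < v ∧ u < l e + w e
  pt : Set ℕ → ℝ
  pt_pos : ∀ A, 0 < pt A
  pt_lt : ∀ A, pt A < 1
  pt_cut : ∀ A e, e ∈ O.cut A → l e + w e < pt A
  pt_ncut : ∀ A e, e ∉ O.cut A → pt A < l e

/-- the increasing affine map `[1/4, 3/4] → J e` -/
noncomputable def Lay.sc {O : OrbitData} (L : Lay O) (e : O.EE) (s : ℝ) : ℝ :=
  L.l e + 2 * (s - 1 / 4) * L.w e

/-- A transversal of the stabiliser of `e0` (which is `⟨c⟩`) and its cocycle. -/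
structure Coc (O : OrbitData) where
  t : O.EE → FF
  t_spec : ∀ e, O.act (t e) O.e0 = e
  t_e0 : t O.e0 = 1
  m : FF → O.EE → ℤ
  m_spec : ∀ g e, g * t e = t (O.act g e) * fc ^ m g e
  m_one : ∀ e, m 1 e = 0
  m_mul : ∀ g h e, m (g * h) e = m g (O.act h e) + m h e
  m_fc : ∀ e, e ≠ O.e0 → m fc e = 0
  m_fc_e0 : m fc O.e0 = 1
  m_t : ∀ e, m (t e) O.e0 = 0

/-- The map `c` of the line. -/
structure CLine {O : OrbitData} (L : Lay O) where
  c : ℝ ≃o ℝ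
  c_half : ∀ t : ℝ, c (t + 1 / 2) = c t + 1 / 2
  c_quarter : c (1 / 4) = 1 / 4
  c_J : ∀ e, e ≠ O.e0 → ∀ s : ℝ, 0 ≤ s → s ≤ 1 →
    c (L.l e + s * L.w e) = L.l (O.act fc e) + s * L.w (O.act fc e)

end Pool.Agent.AllSurf
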