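import Pool.Agent.Lib.MP_7f477e_gt.Iface

/-!
# MP_7f477e_gt: ribbon graphs, names used in part S

The definitions are those of `Iface.lean` (`Ribbon`, `Ribbon.Rel`, `Ribbon.Surface`, `u0`).
-/

set_option autoImplicit false

open Set Topology

namespace Pool.Agent.AllSurf

/-- other name of `Ribbon` -/
abbrev RibbonGraph := Ribbon

/-- The half open interval `[0, 1)`. -/
abbrev U01 : Type := Set.Ico (0 : ℝ) 1

theorem RibbonGraph.Rel.edge {D : Type} {R : Ribbon D} (d : D) (s : unitInterval) :
    R.Rel (d, true, s, u0) (d, false, s, u0) := Ribbon.Rel.edge d s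

theorem RibbonGraph.Rel.corner {D : Type} {R : Ribbon D} (d : D) (u : U01) :
    R.Rel (d, true, 0, u) (R.nu d, false, 0, u) := Ribbon.Rel.corner d u

theorem RibbonGraph.Rel.mid {D : Type} {R : Ribbon D} (d : D) (u : U01) :
    R.Rel (d, true, 1, u) (R.al d, false, 1, u) := Ribbon.Rel.mid d u

end Pool.Agent.AllSurf
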