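import Pool.Agent.Lib.MP_7f477e_gt.SBasic

/-!
# S09: the triangles in the plane; barycentric coordinates

Fix an exit dart `e`, `i = q (sg e) < k = q (sg (sg e)) < l = q e` (`q_lt1`, `q_lt2`). For `z` let `B_l = (z.2 - ch i k z.1) / ((l - i) * (l - k))`, `B_i = (z.2 - ch k l z.1) / ((k - i) * (l - i))`, `B_k = (ch i l z.1 - z.2) / ((k - i) * (l - k))`: barycentric coordinates with respect to the points `(i, i²)`, `(k, k²)`, `(l, l²)`
(sum `1`, `z = B_i (i, i²) + B_k (k, k²) + B_l (l, l²)`, `field_simp; ring`), and `z ∈ T e` iff all three are `≥ 0`.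
`pos (d, s, t)`: coordinate of the corner `d` (start of `d`): `(1 - s)/3 + s (1 - t)`, of the corner `sg d`: `(1 - s)/3 + s t`, of the third corner `sg (sg d)`: `(1 - s)/3`. The darts with `ex d = e` are `e`, `sg e`, `sg (sg e)` (`isE_cases`, `ex_mem`, `tri`), corners `l`, `i`, `k`.
`pos_mem_T`: all coordinates are `≥ 0`.
`exists_pos`: given coordinates `B ≥ 0` with sum `1` let the third corner (`sg (sg d)`) be one with the smallest coordinate `m`, `s = 1 - 3 m`, `t = (B (sg d) - m) / s` (`t = 0` if `s = 0`).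
`pos_ker`: the smallest coordinate is `(1 - s)/3`, so `s` is determined. If `s = 0` use the relations `centre`, `next`: `(d,0,t) ~ (d,0,1) ~ (sg d,0,0) ~ ..`. If `s > 0` and the two darts are equal then `t` is determined. If `d' = sg d` then `t = 1`, `t' = 0` (relation `next`); `d' = sg (sg d)`: the same with the roles exchanged.
`Quot.sound`, `PolygonGluing.Rel.centre`, `PolygonGluing.Rel.next`.
-/

set_option autoImplicit false

open Set Topology

namespace Pool.Agent.AllSurf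

namespace Placed

/-- uniqueness of barycentric coordinates -/
theorem S09_unique {i k l a b c : ℝ} (h1 : i < k) (h2 : k < l) (hs : a + b + c = 0)
    (hx : a * i + b * k + c * l = 0) (hy : a * i ^ 2 + b * k ^ 2 + c * l ^ 2 = 0) :
    a = 0 ∧ b = 0 ∧ c = 0 := by
  have hc : c * ((l - i) * (l - k)) = 0 := by linear_combination hy - (i + k) * hx + i * k * hs
  have ha : a * ((k - i) * (l - i)) = 0 := by linear_combination hy - (k + l) * hx + k * l * hs
  have h3 : 0 < k - i := by linarith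
  have h4 : 0 < l - k := by linarith
  have h5 : 0 < l - i := by linarith
  have hc0 : c = 0 := by
    rcases mul_eq_zero.1 hc with h | h
    · exact h
    · exact absurd h (mul_pos h5 h4).ne'
  have ha0 : a = 0 := by
    rcases mul_eq_zero.1 ha with h | h
    · exact h
    · exact absurd h (mul_pos h3 h5).ne'
  refine ⟨ha0, ?_, hc0⟩
  rw [ha0, hc0] at hs
  linarith

theorem S09_coords {i k l : ℝ} (h1 : i < k) (h2 : k < l) (z : ℝ × ℝ) :
    ∃ a b c : ℝ, a + b + c = 1 ∧ z.1 = a * i + b * k + c * l ∧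
      z.2 = a * i ^ 2 + b * k ^ 2 + c * l ^ 2 := by
  have h3 : k - i ≠ 0 := (sub_pos.2 h1).ne'
  have h4 : l - k ≠ 0 := (sub_pos.2 h2).ne'
  have h5 : l - i ≠ 0 := (sub_pos.2 (h1.trans h2)).ne'
  refine ⟨(z.2 - ch k l z.1) / ((k - i) * (l - i)), (ch i l z.1 - z.2) / ((k - i) * (l - k)),
    (z.2 - ch i k z.1) / ((l - i) * (l - k)), ?_, ?_, ?_⟩
  · unfold ch; field_simp; ring
  · unfold ch; field_simp; ring
  · unfold ch; field_simp; ring

variable {D : Type} {P : PolygonGluing D} (F : Placed P)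

theorem S09_T_iff {e : D} (he : F.IsE e) {z : ℝ × ℝ} {a b c : ℝ} (hs : a + b + c = 1)
    (hx : z.1 = a * F.q (P.sg e) + b * F.q (P.sg (P.sg e)) + c * F.q e)
    (hy : z.2 = a * (F.q (P.sg e) : ℝ) ^ 2 + b * (F.q (P.sg (P.sg e)) : ℝ) ^ 2 +
      c * (F.q e : ℝ) ^ 2) :
    z ∈ F.T e ↔ 0 ≤ a ∧ 0 ≤ b ∧ 0 ≤ c := by
  have h1 : (F.q (P.sg e) : ℝ) < F.q (P.sg (P.sg e)) := by exact_mod_cast F.q_lt1 he
  have h2 : (F.q (P.sg (P.sg e)) : ℝ) < F.q e := by exact_mod_cast F.q_lt2 he
  unfold T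
  rw [Set.mem_ofPred_eq]
  generalize (F.q (P.sg e) : ℝ) = i at *
  generalize (F.q (P.sg (P.sg e)) : ℝ) = k at *
  generalize (F.q e : ℝ) = l at *
  have h3 : 0 < k - i := by linarith
  have h4 : 0 < l - k := by linarith
  have h5 : 0 < l - i := by linarith
  have e1 : z.2 - ch i k z.1 = c * ((l - i) * (l - k)) := by
    rw [hx, hy]; unfold ch
    linear_combination (-(i * k)) * hs
  have e2 : z.2 - ch k l z.1 = a * ((k - i) * (l - i)) := by
    rw [hx, hy]; unfold ch
    linear_combination (-(k * l)) * hs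
  have e3 : ch i l z.1 - z.2 = b * ((k - i) * (l - k)) := by
    rw [hx, hy]; unfold ch
    linear_combination (i * l) * hs
  constructor
  · rintro ⟨g1, g2, g3⟩
    refine ⟨?_, ?_, ?_⟩
    · refine nonneg_of_mul_nonneg_left ?_ (mul_pos h3 h5)
      linarith
    · refine nonneg_of_mul_nonneg_left ?_ (mul_pos h3 h4)
      linarith
    · refine nonneg_of_mul_nonneg_left ?_ (mul_pos h5 h4)
      linarith
  · rintro ⟨g1, g2, g3⟩
    refine ⟨?_, ?_, ?_⟩
    · have := mul_nonneg g3 (mul_pos h5 h4).le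
      linarith
    · have := mul_nonneg g1 (mul_pos h3 h5).le
      linarith
    · have := mul_nonneg g2 (mul_pos h3 h4).le
      linarith

theorem pos_mem_T (x : D × unitInterval × unitInterval) : F.pos x ∈ F.T (F.ex x.1) := by
  obtain ⟨d, s, t⟩ := x
  show F.pos (d, s, t) ∈ F.T (F.ex d)
  have hs0 : (0 : ℝ) ≤ s := s.2.1
  have hs1 : (s : ℝ) ≤ 1 := s.2.2
  have ht0 : (0 : ℝ) ≤ t := t.2.1
  have ht1 : (t : ℝ) ≤ 1 := t.2.2
  have w0 : 0 ≤ (1 - (s : ℝ)) / 3 + s * (1 - t) := by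
    have := mul_nonneg hs0 (sub_nonneg.2 ht1)
    linarith
  have w1 : 0 ≤ (1 - (s : ℝ)) / 3 + s * t := by
    have := mul_nonneg hs0 ht0
    linarith
  have w2 : 0 ≤ (1 - (s : ℝ)) / 3 := by linarith
  have hE : F.IsE (F.ex d) := F.isE_ex d
  rcases F.ex_mem d with h | h | h
  · rw [h] at hE ⊢
    refine (F.S09_T_iff hE (a := (1 - (s : ℝ)) / 3 + s * t) (b := (1 - (s : ℝ)) / 3)
      (c := (1 - (s : ℝ)) / 3 + s * (1 - t)) ?_ ?_ ?_).2 ⟨w1, w2, w0⟩
    · ring
    · show F.px d s t = _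
      unfold px; ring
    · show F.py d s t = _
      unfold py; ring
  · rw [h] at hE ⊢
    refine (F.S09_T_iff hE (a := (1 - (s : ℝ)) / 3) (b := (1 - (s : ℝ)) / 3 + s * (1 - t))
      (c := (1 - (s : ℝ)) / 3 + s * t) ?_ ?_ ?_).2 ⟨w2, w0, w1⟩
    · ring
    · rw [F.tri]
      show F.px d s t = _
      unfold px; ring
    · rw [F.tri]
      show F.py d s t = _
      unfold py; ring
  · rw [h] at hE ⊢
    refine (F.S09_T_iff hE (a := (1 - (s : ℝ)) / 3 + s * (1 - t))
      (b := (1 - (s : ℝ)) / 3 + s * t) (c := (1 - (s : ℝ)) / 3) ?_ ?_ ?_).2 ⟨w0, w1, w2⟩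
    · ring
    · rw [F.tri]
      show F.px d s t = _
      unfold px; ring
    · rw [F.tri]
      show F.py d s t = _
      unfold py; ring

theorem S09_mk (d : D) {a b c : ℝ} (hs : a + b + c = 1) (hc : 0 ≤ c) (h1 : c ≤ a) (h2 : c ≤ b) :
    ∃ s t : unitInterval, F.pos (d, s, t) =
      (a * F.q d + b * F.q (P.sg d) + c * F.q (P.sg (P.sg d)),
        a * (F.q d : ℝ) ^ 2 + b * (F.q (P.sg d) : ℝ) ^ 2 + c * (F.q (P.sg (P.sg d)) : ℝ) ^ 2) := by
  have key : ∃ s t : unitInterval, (1 - (s : ℝ)) / 3 + s * (1 - t) = a ∧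
      (1 - (s : ℝ)) / 3 + s * t = b ∧ (1 - (s : ℝ)) / 3 = c := by
    have hs1 : 0 ≤ 1 - 3 * c := by linarith
    rcases hs1.eq_or_lt with h0 | hpos
    · refine ⟨0, 0, ?_, ?_, ?_⟩
      · show (1 - (0 : ℝ)) / 3 + 0 * (1 - 0) = a
        linarith
      · show (1 - (0 : ℝ)) / 3 + 0 * 0 = b
        linarith
      · show (1 - (0 : ℝ)) / 3 = c
        linarith
    · have hs2 : 1 - 3 * c ≤ 1 := by linarith
      have ht0 : 0 ≤ (b - c) / (1 - 3 * c) := div_nonneg (by linarith) hpos.le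
      have ht1 : (b - c) / (1 - 3 * c) ≤ 1 := by rw [div_le_one hpos]; linarith
      have hm : (1 - 3 * c) * ((b - c) / (1 - 3 * c)) = b - c := mul_div_cancel₀ _ hpos.ne'
      refine ⟨⟨1 - 3 * c, hpos.le, hs2⟩, ⟨(b - c) / (1 - 3 * c), ht0, ht1⟩, ?_, ?_, ?_⟩
      · show (1 - (1 - 3 * c)) / 3 + (1 - 3 * c) * (1 - (b - c) / (1 - 3 * c)) = a
        rw [mul_sub, hm]; linarith
      · show (1 - (1 - 3 * c)) / 3 + (1 - 3 * c) * ((b - c) / (1 - 3 * c)) = b
        rw [hm]; linarith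
      · show (1 - (1 - 3 * c)) / 3 = c
        ring
  obtain ⟨s, t, e1, e2, e3⟩ := key
  refine ⟨s, t, ?_⟩
  apply Prod.ext
  · show F.px d s t = a * F.q d + b * F.q (P.sg d) + c * F.q (P.sg (P.sg d))
    rw [← e1, ← e2, ← e3]
    unfold px; ring
  · show F.py d s t = a * (F.q d : ℝ) ^ 2 + b * (F.q (P.sg d) : ℝ) ^ 2 +
      c * (F.q (P.sg (P.sg d)) : ℝ) ^ 2
    rw [← e1, ← e2, ← e3]
    unfold py; ring

theorem exists_pos {e : D} (he : F.IsE e) {z : ℝ × ℝ} (hz : z ∈ F.T e) :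
    ∃ x : D × unitInterval × unitInterval, F.ex x.1 = e ∧ F.pos x = z := by
  have h1 : (F.q (P.sg e) : ℝ) < F.q (P.sg (P.sg e)) := by exact_mod_cast F.q_lt1 he
  have h2 : (F.q (P.sg (P.sg e)) : ℝ) < F.q e := by exact_mod_cast F.q_lt2 he
  obtain ⟨a, b, c, hs, hx, hy⟩ := S09_coords h1 h2 z
  obtain ⟨ha, hb, hc⟩ := (F.S09_T_iff he hs hx hy).1 hz
  have hee : F.ex e = e := he
  rcases le_total a b with hab | hab
  · rcases le_total a c with hac | hac
    · -- smallest a : corner `sg e`, dart `sg (sg e)`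
      obtain ⟨s, t, h⟩ := F.S09_mk (P.sg (P.sg e)) (a := b) (b := c) (c := a) (by linarith) ha hab hac
      refine ⟨(P.sg (P.sg e), s, t), by rw [F.ex_sg2, hee], ?_⟩
      rw [h, F.tri]
      apply Prod.ext
      · rw [hx]; simp only; ring
      · rw [hy]; simp only; ring
    · -- smallest c : corner `e`, dart `sg e`
      obtain ⟨s, t, h⟩ := F.S09_mk (P.sg e) (a := a) (b := b) (c := c) (by linarith) hc hac
        (hac.trans hab)
      refine ⟨(P.sg e, s, t), by rw [F.ex_sg, hee], ?_⟩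
      rw [h, F.tri]
      apply Prod.ext
      · rw [hx]
      · rw [hy]
  · rcases le_total b c with hbc | hbc
    · -- smallest b : corner `sg (sg e)`, dart `e`
      obtain ⟨s, t, h⟩ := F.S09_mk e (a := c) (b := a) (c := b) (by linarith) hb hbc hab
      refine ⟨(e, s, t), hee, ?_⟩
      rw [h]
      apply Prod.ext
      · rw [hx]; simp only; ring
      · rw [hy]; simp only; ring
    · obtain ⟨s, t, h⟩ := F.S09_mk (P.sg e) (a := a) (b := b) (c := c) (by linarith) hc
        (hbc.trans hab) hbc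
      refine ⟨(P.sg e, s, t), by rw [F.ex_sg, hee], ?_⟩
      rw [h, F.tri]
      apply Prod.ext
      · rw [hx]
      · rw [hy]

/-- weights are determined by the position -/
theorem S09_weights (d : D) {a b c a' b' c' : ℝ} (hs : a + b + c = 1) (hs' : a' + b' + c' = 1)
    (hx : a * F.q d + b * F.q (P.sg d) + c * F.q (P.sg (P.sg d)) =
      a' * F.q d + b' * F.q (P.sg d) + c' * F.q (P.sg (P.sg d)))
    (hy : a * (F.q d : ℝ) ^ 2 + b * (F.q (P.sg d) : ℝ) ^ 2 + c * (F.q (P.sg (P.sg d)) : ℝ) ^ 2 =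
      a' * (F.q d : ℝ) ^ 2 + b' * (F.q (P.sg d) : ℝ) ^ 2 + c' * (F.q (P.sg (P.sg d)) : ℝ) ^ 2) :
    a = a' ∧ b = b' ∧ c = c' := by
  have key : ∀ e, F.IsE e → (F.q (P.sg e) : ℝ) < F.q (P.sg (P.sg e)) ∧
      (F.q (P.sg (P.sg e)) : ℝ) < F.q e := fun e he =>
    ⟨by exact_mod_cast F.q_lt1 he, by exact_mod_cast F.q_lt2 he⟩
  rcases F.isE_cases d with h | h | h
  · obtain ⟨g1, g2⟩ := key _ h
    obtain ⟨r1, r2, r3⟩ := S09_unique (a := b - b') (b := c - c') (c := a - a') g1 g2
      (by linarith) (by linear_combination hx) (by linear_combination hy)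
    exact ⟨by linarith, by linarith, by linarith⟩
  · obtain ⟨g1, g2⟩ := key _ h
    rw [F.tri] at g1 g2
    obtain ⟨r1, r2, r3⟩ := S09_unique (a := c - c') (b := a - a') (c := b - b') g1 g2
      (by linarith) (by linear_combination hx) (by linear_combination hy)
    exact ⟨by linarith, by linarith, by linarith⟩
  · obtain ⟨g1, g2⟩ := key _ h
    rw [F.tri] at g1 g2
    obtain ⟨r1, r2, r3⟩ := S09_unique (a := a - a') (b := b - b') (c := c - c') g1 g2
      (by linarith) (by linear_combination hx) (by linear_combination hy)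
    exact ⟨by linarith, by linarith, by linarith⟩

theorem S09_centre (d : D) (t t' : unitInterval) : pt P (d, 0, t) = pt P (d, 0, t') :=
  Quot.sound (PolygonGluing.Rel.centre d t t')

theorem S09_next (d : D) (s : unitInterval) : pt P (d, s, 1) = pt P (P.sg d, s, 0) :=
  Quot.sound (PolygonGluing.Rel.next d s)

theorem S09_ker_self (d : D) {s t s' t' : unitInterval}
    (h : F.pos (d, s, t) = F.pos (d, s', t')) : pt P (d, s, t) = pt P (d, s', t') := by
  have hx : F.px d s t = F.px d s' t' := (Prod.ext_iff.1 h).1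
  have hy : F.py d s t = F.py d s' t' := (Prod.ext_iff.1 h).2
  unfold px at hx
  unfold py at hy
  obtain ⟨e1, e2, e3⟩ := F.S09_weights d
    (a := (1 - (s : ℝ)) / 3 + s * (1 - t)) (b := (1 - (s : ℝ)) / 3 + s * t)
    (c := (1 - (s : ℝ)) / 3) (a' := (1 - (s' : ℝ)) / 3 + s' * (1 - t'))
    (b' := (1 - (s' : ℝ)) / 3 + s' * t') (c' := (1 - (s' : ℝ)) / 3)
    (by ring) (by ring) (by linear_combination hx) (by linear_combination hy)
  have hs : (s : ℝ) = s' := by linarith
  have hs' : s = s' := Subtype.ext hs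
  subst hs'
  by_cases h0 : (s : ℝ) = 0
  · have : s = 0 := Subtype.ext h0
    subst this
    exact S09_centre d t t'
  · have : (s : ℝ) * t = s * t' := by linarith
    have ht : (t : ℝ) = t' := mul_left_cancel₀ h0 this
    rw [Subtype.ext ht]

theorem S09_ker_sg (d : D) {s t s' t' : unitInterval}
    (h : F.pos (d, s, t) = F.pos (P.sg d, s', t')) : pt P (d, s, t) = pt P (P.sg d, s', t') := by
  have hx : F.px d s t = F.px (P.sg d) s' t' := (Prod.ext_iff.1 h).1
  have hy : F.py d s t = F.py (P.sg d) s' t' := (Prod.ext_iff.1 h).2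
  unfold px at hx
  unfold py at hy
  rw [F.tri] at hx hy
  obtain ⟨e1, e2, e3⟩ := F.S09_weights d
    (a := (1 - (s : ℝ)) / 3 + s * (1 - t)) (b := (1 - (s : ℝ)) / 3 + s * t)
    (c := (1 - (s : ℝ)) / 3) (a' := (1 - (s' : ℝ)) / 3)
    (b' := (1 - (s' : ℝ)) / 3 + s' * (1 - t')) (c' := (1 - (s' : ℝ)) / 3 + s' * t')
    (by ring) (by ring) (by linear_combination hx) (by linear_combination hy)
  have hs0 : (0 : ℝ) ≤ s := s.2.1
  have hs0' : (0 : ℝ) ≤ s' := s'.2.1
  have ht1 : (t : ℝ) ≤ 1 := t.2.2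
  have ht0' : (0 : ℝ) ≤ t' := t'.2.1
  have m1 := mul_nonneg hs0 (sub_nonneg.2 ht1)
  have m2 := mul_nonneg hs0' ht0'
  have hs : (s : ℝ) = s' := by linarith
  have hs' : s = s' := Subtype.ext hs
  subst hs'
  by_cases h0 : (s : ℝ) = 0
  · have : s = 0 := Subtype.ext h0
    subst this
    rw [S09_centre d t 1, S09_next, S09_centre (P.sg d) 0 t']
  · have k1 : (s : ℝ) * (1 - t) = 0 := by linarith
    have k2 : (s : ℝ) * t' = 0 := by linarith
    have k3 : (t : ℝ) = 1 := by
      rcases mul_eq_zero.1 k1 with h | h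
      · exact absurd h h0
      · linarith
    have k4 : (t' : ℝ) = 0 := by
      rcases mul_eq_zero.1 k2 with h | h
      · exact absurd h h0
      · exact h
    have k5 : t = 1 := Subtype.ext k3
    have k6 : t' = 0 := Subtype.ext k4
    rw [k5, k6]
    exact S09_next d s

theorem S09_eq_cases {d d' : D} (h : F.ex d = F.ex d') :
    d' = d ∨ d' = P.sg d ∨ d = P.sg d' := by
  rcases F.ex_mem d with h1 | h1 | h1 <;> rcases F.ex_mem d' with h2 | h2 | h2
  · left; rw [← h2, ← h, h1]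
  · right; right; rw [← h1, h, h2]
  · right; left
    have h3 : d = P.sg (P.sg d') := by rw [← h1, h, h2]
    rw [h3, F.tri]
  · right; left; rw [← h2, ← h, h1]
  · left
    have h3 : P.sg d' = P.sg d := by rw [← h1, ← h2, h]
    exact P.sg.injective h3
  · right; right
    have h3 : P.sg d = P.sg (P.sg d') := by rw [← h1, ← h2, h]
    exact P.sg.injective h3
  · right; right
    have h3 : d' = P.sg (P.sg d) := by rw [← h2, ← h, h1]
    rw [h3, F.tri]
  · right; left
    have h3 : P.sg d' = P.sg (P.sg d) := by rw [← h1, ← h2, h]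
    exact P.sg.injective h3
  · left
    have h3 : P.sg (P.sg d') = P.sg (P.sg d) := by rw [← h1, ← h2, h]
    exact P.sg.injective (P.sg.injective h3)

theorem pos_ker {x y : D × unitInterval × unitInterval} (h : F.ex x.1 = F.ex y.1)
    (h' : F.pos x = F.pos y) : pt P x = pt P y := by
  obtain ⟨d, s, t⟩ := x
  obtain ⟨d', s', t'⟩ := y
  simp only at h
  rcases F.S09_eq_cases h with h1 | h1 | h1
  · subst h1; exact F.S09_ker_self _ h'
  · subst h1; exact F.S09_ker_sg _ h'
  · subst h1; exact (F.S09_ker_sg _ h'.symm).symm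

end Placed

end Pool.Agent.AllSurf
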