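import Pool.Agent.Lib.MP_7f477e_gt.SBasic

/-!
# S10: compatibility of the positions with the gluing; the function `pl`

`pos_centre`, `pos_next` (with `tri`): `ring`. `pos_exit`: for an exit dart `e`: `q (al e) = q (sg e)` and `q (sg (al e)) = q e` (`q_al`, `q_al2`), at `s = 1` the position only depends on `q d`, `q (sg d)`.
`pos_isG`: `q (sg d) = q d + 1` (`q_isG`); `pl` is linear on `[k, k + 1]` with the values `k²`, `(k + 1)²` at the end points (at `k + 1` the floor is `k + 1`).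
`pl_eq`: `pl x = x ^ 2 + Int.fract x * (1 - Int.fract x)`. `pl_cont`: by `pl_eq` and `ContinuousOn.comp_fract` (function `x * (1 - x)` on `[0, 1]`, equal values at the end points).
`pl_int`: `pl k = k ^ 2`. `le_pl`: `ch j (j + 1) x ≤ pl x` for every integer `j`: the difference is `(k - j) (2 x - (k + j + 1))` with `k = ⌊x⌋`. `pl_le_iff`: `pl x ≤ y` iff `ch j (j + 1) x ≤ y` for all integers `j`.
`pl_le_ch`: for integers `i < l` and `i ≤ x ≤ l`: `pl x ≤ ch i l x`: with `k = ⌊x⌋ < l` (if `x = l` direct): `ch i l - ch k (k+1)` is affine on `[k, k+1]` with the values `(k - i)(l - k) ≥ 0` and `(k + 1 - i)(l - k - 1) ≥ 0` at the end points.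
`sq_le_pl`: `x ^ 2 ≤ pl x`.
-/

set_option autoImplicit false

open Set Topology

namespace Pool.Agent.AllSurf

namespace Placed

theorem pl_eq (x : ℝ) : pl x = x ^ 2 + Int.fract x * (1 - Int.fract x) := by
  unfold pl ch
  rw [← Int.self_sub_floor]
  ring

theorem pl_cont : Continuous pl := by
  have h1 : Continuous ((fun y : ℝ => y * (1 - y)) ∘ Int.fract) := by
    refine ContinuousOn.comp_fract'' ?_ ?_
    · exact (continuous_id.mul (continuous_const.sub continuous_id)).continuousOn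
    · norm_num
  have h2 : pl = fun x : ℝ => x ^ 2 + ((fun y : ℝ => y * (1 - y)) ∘ Int.fract) x :=
    funext pl_eq
  rw [h2]
  exact (continuous_id.pow 2).add h1

theorem sq_le_pl (x : ℝ) : x ^ 2 ≤ pl x := by
  rw [pl_eq]
  have h1 := Int.fract_nonneg x
  have h2 := Int.fract_lt_one x
  have h3 : 0 ≤ Int.fract x * (1 - Int.fract x) := mul_nonneg h1 (by linarith)
  linarith

theorem pl_int (k : ℤ) : pl (k : ℝ) = (k : ℝ) ^ 2 := by
  rw [pl_eq, Int.fract_intCast]
  ring

theorem pl_add (k : ℤ) (t : ℝ) (h0 : 0 ≤ t) (h1 : t ≤ 1) :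
    pl ((k : ℝ) + t) = (1 - t) * (k : ℝ) ^ 2 + t * ((k : ℝ) + 1) ^ 2 := by
  rcases eq_or_lt_of_le h1 with h | h
  · have h2 : pl (((k + 1 : ℤ) : ℝ)) = ((k + 1 : ℤ) : ℝ) ^ 2 := pl_int (k + 1)
    push_cast at h2
    rw [h, h2]
    ring
  · have h2 : Int.fract ((k : ℝ) + t) = t := by
      rw [Int.fract_intCast_add, Int.fract_eq_self]
      exact ⟨h0, h⟩
    rw [pl_eq, h2]
    ring

theorem le_pl (j : ℤ) (x : ℝ) : ch j (j + 1) x ≤ pl x := by
  have h1 : pl x - ch j (j + 1) x = ((⌊x⌋ : ℝ) - j) * (2 * x - (⌊x⌋ + j + 1)) := by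
    unfold pl ch
    ring
  have h2 : (⌊x⌋ : ℝ) ≤ x := Int.floor_le x
  have h3 : x < ⌊x⌋ + 1 := Int.lt_floor_add_one x
  have h4 : 0 ≤ ((⌊x⌋ : ℝ) - j) * (2 * x - (⌊x⌋ + j + 1)) := by
    rcases lt_trichotomy ⌊x⌋ j with h | h | h
    · have h5 : (⌊x⌋ : ℝ) + 1 ≤ j := by exact_mod_cast h
      exact mul_nonneg_of_nonpos_of_nonpos (by linarith) (by linarith)
    · rw [h, sub_self, zero_mul]
    · have h5 : (j : ℝ) + 1 ≤ ⌊x⌋ := by exact_mod_cast h
      exact mul_nonneg (by linarith) (by linarith)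
  linarith

theorem pl_le_ch {i l : ℤ} (h : i < l) {x : ℝ} (h1 : (i : ℝ) ≤ x) (h2 : x ≤ l) :
    pl x ≤ ch i l x := by
  have g2 : (⌊x⌋ : ℝ) ≤ x := Int.floor_le x
  have g3 : x < ⌊x⌋ + 1 := Int.lt_floor_add_one x
  have g4 : i ≤ ⌊x⌋ := Int.le_floor.2 h1
  have g5 : ⌊x⌋ ≤ l := by
    have : (⌊x⌋ : ℝ) ≤ l := g2.trans h2
    exact_mod_cast this
  have g6 : (i : ℝ) ≤ ⌊x⌋ := by exact_mod_cast g4
  rcases eq_or_lt_of_le g5 with g | g
  · have hx : x = l := le_antisymm h2 (by rw [← g]; exact g2)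
    rw [hx, pl_int]
    unfold ch
    nlinarith
  · have g7 : (⌊x⌋ : ℝ) + 1 ≤ l := by exact_mod_cast g
    have key : ch i l x - pl x = (1 - (x - ⌊x⌋)) * (((⌊x⌋ : ℝ) - i) * (l - ⌊x⌋)) +
        (x - ⌊x⌋) * (((⌊x⌋ : ℝ) + 1 - i) * (l - ⌊x⌋ - 1)) := by
      unfold pl ch
      ring
    have k1 : 0 ≤ (1 - (x - ⌊x⌋)) * (((⌊x⌋ : ℝ) - i) * (l - ⌊x⌋)) :=
      mul_nonneg (by linarith) (mul_nonneg (by linarith) (by linarith))
    have k2 : 0 ≤ (x - ⌊x⌋) * (((⌊x⌋ : ℝ) + 1 - i) * (l - ⌊x⌋ - 1)) :=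
      mul_nonneg (by linarith) (mul_nonneg (by linarith) (by linarith))
    linarith

theorem pl_le_iff (x y : ℝ) : pl x ≤ y ↔ ∀ j : ℤ, ch j (j + 1) x ≤ y :=
  ⟨fun h j => (le_pl j x).trans h, fun h => h ⌊x⌋⟩

variable {D : Type} {P : PolygonGluing D} (F : Placed P)

theorem pos_centre (d : D) (t t' : unitInterval) : F.pos (d, 0, t) = F.pos (d, 0, t') := by
  refine Prod.ext ?_ ?_
  · show F.px d ((0 : unitInterval) : ℝ) t = F.px d ((0 : unitInterval) : ℝ) t'
    unfold px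
    rw [show ((0 : unitInterval) : ℝ) = 0 from rfl]
    ring
  · show F.py d ((0 : unitInterval) : ℝ) t = F.py d ((0 : unitInterval) : ℝ) t'
    unfold py
    rw [show ((0 : unitInterval) : ℝ) = 0 from rfl]
    ring

theorem pos_next (d : D) (s : unitInterval) : F.pos (d, s, 1) = F.pos (P.sg d, s, 0) := by
  refine Prod.ext ?_ ?_
  · show F.px d s ((1 : unitInterval) : ℝ) = F.px (P.sg d) s ((0 : unitInterval) : ℝ)
    unfold px
    rw [show ((0 : unitInterval) : ℝ) = 0 from rfl, show ((1 : unitInterval) : ℝ) = 1 from rfl,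
      F.tri]
    ring
  · show F.py d s ((1 : unitInterval) : ℝ) = F.py (P.sg d) s ((0 : unitInterval) : ℝ)
    unfold py
    rw [show ((0 : unitInterval) : ℝ) = 0 from rfl, show ((1 : unitInterval) : ℝ) = 1 from rfl,
      F.tri]
    ring

theorem pos_exit {e : D} (he : F.IsE e) (t : unitInterval) :
    F.pos (e, 1, t) = F.pos (P.al e, 1, unitInterval.symm t) := by
  refine Prod.ext ?_ ?_
  · show F.px e ((1 : unitInterval) : ℝ) t =
      F.px (P.al e) ((1 : unitInterval) : ℝ) (unitInterval.symm t : unitInterval)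
    unfold px
    rw [show ((1 : unitInterval) : ℝ) = 1 from rfl, unitInterval.coe_symm_eq, F.q_al e he,
      F.q_al2 he]
    ring
  · show F.py e ((1 : unitInterval) : ℝ) t =
      F.py (P.al e) ((1 : unitInterval) : ℝ) (unitInterval.symm t : unitInterval)
    unfold py
    rw [show ((1 : unitInterval) : ℝ) = 1 from rfl, unitInterval.coe_symm_eq, F.q_al e he,
      F.q_al2 he]
    ring

theorem pos_isG {d : D} (hd : F.IsG d) (t : unitInterval) :
    F.pos (d, 1, t) = ((F.q d : ℝ) + t, pl ((F.q d : ℝ) + t)) := by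
  refine Prod.ext ?_ ?_
  · show F.px d ((1 : unitInterval) : ℝ) t = (F.q d : ℝ) + t
    unfold px
    rw [show ((1 : unitInterval) : ℝ) = 1 from rfl, F.q_isG hd]
    push_cast
    ring
  · show F.py d ((1 : unitInterval) : ℝ) t = pl ((F.q d : ℝ) + t)
    unfold py
    rw [show ((1 : unitInterval) : ℝ) = 1 from rfl, F.q_isG hd, pl_add _ _ t.2.1 t.2.2]
    push_cast
    ring

theorem pos_cont : @Continuous _ _
    (@instTopologicalSpaceProd D (unitInterval × unitInterval) ⊥ inferInstance) inferInstance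
    F.pos := by
  letI : TopologicalSpace D := ⊥
  haveI : DiscreteTopology D := ⟨rfl⟩
  refine continuous_prod_of_discrete_left.2 fun d => ?_
  have c1 : Continuous fun x : unitInterval × unitInterval => (x.1 : ℝ) :=
    continuous_subtype_val.comp continuous_fst
  have c2 : Continuous fun x : unitInterval × unitInterval => (x.2 : ℝ) :=
    continuous_subtype_val.comp continuous_snd
  show Continuous fun x : unitInterval × unitInterval => (F.px d x.1 x.2, F.py d x.1 x.2)
  unfold px py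
  fun_prop

end Placed

end Pool.Agent.AllSurf
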