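import Pool.Agent.Lib.MP_7f477e_gt.S09
import Pool.Agent.Lib.MP_7f477e_gt.S10

/-!
# S11: the inverse of the position map on one triangle

`back_pos`: `dif_pos` and `pos_ker`. `back_cont`: let `X` be the compact space of the `(d, s, t)` with `ex d = e`, that is `Fin 3 × unitInterval × unitInterval` (or three maps `unitInterval × unitInterval → ℝ × ℝ`); the map `X → T e` given by `pos` is a continuous surjection (`exists_pos`, `pos_mem_T`) of a compact space onto a Hausdorff
space, so a quotient map (`Topology.IsQuotientMap`, `IsClosedMap`), and `back e ∘ pos = pt P` is continuous. Alternative: for each of the three darts `d` the image `A d` of `pos (d, ·, ·)` is compact; `back e` is continuous on `A d` (closed map from a compact square), and `T e` is the union of three closed sets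
(`ContinuousOn.union_of_isClosed`). The restriction of the topology of `D × unitInterval × unitInterval` (with `D` discrete) to `{d} × ..` is the usual one.
`back_side`: `z ∈ T e` on the exit chord: with `i = q (sg e)`, `l = q e`: `i ≤ z.1 ≤ l`, put `t = (l - z.1) / (l - i)`, then `z = pos (e, 1, t) = pos (al e, 1, 1 - t)` (`pos_exit`), `ex (al e) = par e`, `pt P (e, 1, t) = pt P (al e, 1, symm t)` (relation `glue`), `back_pos` twice, `pos_mem_T`.
-/

set_option autoImplicit false

open Set Topology

namespace Pool.Agent.AllSurf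

namespace Placed

variable {D : Type} {P : PolygonGluing D} (F : Placed P)

theorem back_pos (x : D × unitInterval × unitInterval) :
    F.back (F.ex x.1) (F.pos x) = pt P x := by
  have h : ∃ y : D × unitInterval × unitInterval, F.ex y.1 = F.ex x.1 ∧ F.pos y = F.pos x :=
    ⟨x, rfl, rfl⟩
  unfold back
  rw [dif_pos h]
  exact F.pos_ker h.choose_spec.1 h.choose_spec.2

theorem s11_pt_cont (d : D) :
    Continuous (fun p : unitInterval × unitInterval => pt P (d, p)) := by
  let _ : TopologicalSpace D := ⊥
  have h1 : Continuous (fun x : D × unitInterval × unitInterval =>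
      (Quot.mk P.Rel x : P.Surface)) := continuous_quot_mk
  exact h1.comp (Continuous.prodMk_right d)

theorem s11_pos_cont (d : D) :
    Continuous (fun p : unitInterval × unitInterval => F.pos (d, p)) := by
  unfold pos px py
  fun_prop

theorem s11_cont_range {e d : D} (hd : F.ex d = e) :
    ContinuousOn (F.back e) (Set.range (fun p : unitInterval × unitInterval => F.pos (d, p))) := by
  rw [continuousOn_iff_continuous_domRestrict]
  set f : unitInterval × unitInterval → ℝ × ℝ := fun p => F.pos (d, p) with hf
  have hfc : Continuous f := F.s11_pos_cont d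
  have hqc : Continuous (Set.rangeFactorization f) := hfc.subtype_mk _
  have hq : IsQuotientMap (Set.rangeFactorization f) :=
    IsClosedMap.isQuotientMap hqc.isClosedMap hqc Set.rangeFactorization_surjective
  rw [hq.continuous_iff]
  have he : (Set.range f).domRestrict (F.back e) ∘ Set.rangeFactorization f =
      fun p => pt P (d, p) := by
    funext p
    have := F.back_pos (d, p)
    rw [show F.ex (d, p).1 = e from hd] at this
    exact this
  rw [he]
  exact s11_pt_cont d

theorem s11_isClosed_range (d : D) :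
    IsClosed (Set.range (fun p : unitInterval × unitInterval => F.pos (d, p))) :=
  (isCompact_range (F.s11_pos_cont d)).isClosed

theorem back_cont {e : D} (he : F.IsE e) : ContinuousOn (F.back e) (F.T e) := by
  have hsub : F.T e ⊆
      (Set.range (fun p : unitInterval × unitInterval => F.pos (e, p)) ∪
      Set.range (fun p : unitInterval × unitInterval => F.pos (P.sg e, p))) ∪
      Set.range (fun p : unitInterval × unitInterval => F.pos (P.sg (P.sg e), p)) := by
    intro z hz
    obtain ⟨⟨d, p⟩, h1, h2⟩ := F.exists_pos he hz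
    have h1' : F.ex d = e := h1
    rcases F.ex_mem d with h3 | h3 | h3
    · left; left
      refine ⟨p, ?_⟩
      have : d = e := by rw [← h3]; exact h1'
      show F.pos (e, p) = z
      rw [← this]; exact h2
    · right
      refine ⟨p, ?_⟩
      have : P.sg (P.sg e) = d := by rw [← h1', h3, F.tri]
      show F.pos (P.sg (P.sg e), p) = z
      rw [this]; exact h2
    · left; right
      refine ⟨p, ?_⟩
      have : P.sg e = d := by rw [← h1', h3, F.tri]
      show F.pos (P.sg e, p) = z
      rw [this]; exact h2
  refine ContinuousOn.mono ?_ hsub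
  refine ContinuousOn.union_of_isClosed (ContinuousOn.union_of_isClosed ?_ ?_ ?_ ?_) ?_ ?_ ?_
  · exact F.s11_cont_range he
  · exact F.s11_cont_range (by rw [F.ex_sg]; exact he)
  · exact F.s11_isClosed_range _
  · exact F.s11_isClosed_range _
  · exact F.s11_cont_range (by rw [F.ex_sg2]; exact he)
  · exact (F.s11_isClosed_range _).union (F.s11_isClosed_range _)
  · exact F.s11_isClosed_range _

theorem back_side {e : D} (he : F.IsE e) {z : ℝ × ℝ} (hz : z ∈ F.T e)
    (h : z.2 = ch (F.q (P.sg e)) (F.q e) z.1) :
    z ∈ F.T (F.par e) ∧ F.back (F.par e) z = F.back e z := by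
  obtain ⟨hz1, hz2, -⟩ := hz
  have hik : (F.q (P.sg e) : ℝ) < F.q (P.sg (P.sg e)) := by exact_mod_cast F.q_lt1 he
  have hkl : (F.q (P.sg (P.sg e)) : ℝ) < F.q e := by exact_mod_cast F.q_lt2 he
  rw [h] at hz1 hz2
  unfold ch at hz1 hz2 h
  have hx1 : (F.q (P.sg e) : ℝ) ≤ z.1 := by
    by_contra hc
    push Not at hc
    nlinarith
  have hx2 : z.1 ≤ (F.q e : ℝ) := by
    by_contra hc
    push Not at hc
    nlinarith
  have hil : (0 : ℝ) < (F.q e : ℝ) - F.q (P.sg e) := by linarith
  have ht0 : 0 ≤ ((F.q e : ℝ) - z.1) / ((F.q e : ℝ) - F.q (P.sg e)) :=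
    div_nonneg (by linarith) hil.le
  have ht1 : ((F.q e : ℝ) - z.1) / ((F.q e : ℝ) - F.q (P.sg e)) ≤ 1 := by
    rw [div_le_one hil]; linarith
  set t : unitInterval := ⟨((F.q e : ℝ) - z.1) / ((F.q e : ℝ) - F.q (P.sg e)), ht0, ht1⟩ with ht
  have htv : (t : ℝ) * ((F.q e : ℝ) - F.q (P.sg e)) = (F.q e : ℝ) - z.1 := by
    rw [ht]
    exact div_mul_cancel₀ _ hil.ne'
  have hpos : F.pos (e, 1, t) = z := by
    unfold pos px py
    refine Prod.ext ?_ ?_
    · show (1 - ((1 : unitInterval) : ℝ)) * _ + ((1 : unitInterval) : ℝ) * _ = z.1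
      rw [Set.Icc.coe_one]
      show _ + 1 * ((1 - (t : ℝ)) * F.q e + t * F.q (P.sg e)) = z.1
      linear_combination -htv
    · show (1 - ((1 : unitInterval) : ℝ)) * _ + ((1 : unitInterval) : ℝ) * _ = z.2
      rw [Set.Icc.coe_one, h]
      show _ + 1 * ((1 - (t : ℝ)) * (F.q e : ℝ) ^ 2 + t * (F.q (P.sg e) : ℝ) ^ 2) = _
      linear_combination (-((F.q e : ℝ) + F.q (P.sg e))) * htv
  have hpos2 : F.pos (P.al e, 1, unitInterval.symm t) = z := by
    rw [← F.pos_exit he]; exact hpos
  have hpar : F.par e = F.ex (P.al e) := F.par_eq he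
  have hm := F.pos_mem_T (P.al e, 1, unitInterval.symm t)
  have hb := F.back_pos (P.al e, 1, unitInterval.symm t)
  have hb' := F.back_pos (e, 1, t)
  rw [hpos2] at hm hb
  rw [hpos] at hb'
  rw [show F.ex (e, 1, t).1 = e from he] at hb'
  refine ⟨by rw [hpar]; exact hm, ?_⟩
  rw [hb', hpar]
  refine hb.trans ?_
  exact (Quot.sound (PolygonGluing.Rel.glue e t)).symm

theorem isClosed_T (e : D) : IsClosed (F.T e) := by
  have h1 : IsClosed {z : ℝ × ℝ | ch (F.q (P.sg e)) (F.q (P.sg (P.sg e))) z.1 ≤ z.2} := by
    unfold ch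
    exact isClosed_le (by fun_prop) (by fun_prop)
  have h2 : IsClosed {z : ℝ × ℝ | ch (F.q (P.sg (P.sg e))) (F.q e) z.1 ≤ z.2} := by
    unfold ch
    exact isClosed_le (by fun_prop) (by fun_prop)
  have h3 : IsClosed {z : ℝ × ℝ | z.2 ≤ ch (F.q (P.sg e)) (F.q e) z.1} := by
    unfold ch
    exact isClosed_le (by fun_prop) (by fun_prop)
  exact h1.inter (h2.inter h3)

end Placed

end Pool.Agent.AllSurf
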