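import Pool.Agent.Lib.MP_7f477e_gt.S10

/-!
# S12: regions

`i = q (sg e)`, `k = q (sg (sg e))`, `l = q e`. `T_x`: in `T e` we have `i ≤ z.1 ≤ l` (`ch i l x - ch i k x = (l - k)(x - i)`, `ch i l x - ch k l x = (k - i)(l - x)`). `Reg_x`: `x² ≤ pl x ≤ ch i l x` gives `(x - i)(l - x) ≥ 0`.
`T_sub`: `pl z.1 ≤ z.2`: by `pl_le_iff`: barycentric coordinates or directly: if `z.1 ≤ k` then `pl z.1 ≤ ch i k z.1 ≤ z.2` (`pl_le_ch`), if `k ≤ z.1` the same with `ch k l`.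
`Reg_child1`: child `c = al (sg e)`: its exit chord is `ch i k` (`child1_q`), so `Reg c ⊆ Reg e`, and `z.1 ≤ k` there. `Reg_child2` the same with `ch k l`.
`bel_sub`: induction (`wfp`) with `bel_cases`: `Bel e a → T a ⊆ Reg e`.
`reg_cover`: induction (`wfp`): `z ∈ Reg e`. If `ch i k z.1 ≤ z.2` and `ch k l z.1 ≤ z.2` then `z ∈ T e`. If `z.2 < ch i k z.1`: the side `sg e` is not in the ribbon graph (otherwise `k = i + 1` and `ch i k z.1 ≤ pl z.1` by `le_pl`), so `c = al (sg e)` is an exit dart, `z ∈ Reg c`; use `bel_par`. The same for `z.2 < ch k l z.1`.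
-/

set_option autoImplicit false

open Set Topology

namespace Pool.Agent.AllSurf

namespace Placed

variable {D : Type} {P : PolygonGluing D} (F : Placed P)

theorem s12_lt1 {e : D} (he : F.IsE e) : (F.q (P.sg e) : ℝ) < F.q (P.sg (P.sg e)) := by
  exact_mod_cast F.q_lt1 he

theorem s12_lt2 {e : D} (he : F.IsE e) : (F.q (P.sg (P.sg e)) : ℝ) < F.q e := by
  exact_mod_cast F.q_lt2 he

theorem T_x {e : D} (he : F.IsE e) {z : ℝ × ℝ} (hz : z ∈ F.T e) :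
    (F.q (P.sg e) : ℝ) ≤ z.1 ∧ z.1 ≤ F.q e := by
  have h1 := F.s12_lt1 he
  have h2 := F.s12_lt2 he
  obtain ⟨g1, g2, g3⟩ := hz
  unfold ch at g1 g2 g3
  constructor
  · by_contra hcon
    push Not at hcon
    have : 0 < ((F.q e : ℝ) - F.q (P.sg (P.sg e))) * (F.q (P.sg e) - z.1) :=
      mul_pos (by linarith) (by linarith)
    nlinarith
  · by_contra hcon
    push Not at hcon
    have : 0 < ((F.q (P.sg (P.sg e)) : ℝ) - F.q (P.sg e)) * (z.1 - F.q e) :=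
      mul_pos (by linarith) (by linarith)
    nlinarith

theorem Reg_x {e : D} (he : F.IsE e) {z : ℝ × ℝ} (hz : z ∈ F.Reg e) :
    (F.q (P.sg e) : ℝ) ≤ z.1 ∧ z.1 ≤ F.q e := by
  have h1 := F.s12_lt1 he
  have h2 := F.s12_lt2 he
  obtain ⟨g1, g3⟩ := hz
  have g4 := sq_le_pl z.1
  unfold ch at g3
  have g5 : 0 ≤ (z.1 - F.q (P.sg e)) * (F.q e - z.1) := by nlinarith
  constructor
  · by_contra hcon
    push Not at hcon
    have : 0 < (F.q (P.sg e) - z.1) * ((F.q e : ℝ) - z.1) := mul_pos (by linarith) (by linarith)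
    nlinarith
  · by_contra hcon
    push Not at hcon
    have : 0 < (z.1 - F.q (P.sg e)) * (z.1 - (F.q e : ℝ)) := mul_pos (by linarith) (by linarith)
    nlinarith

theorem T_sub {e : D} (he : F.IsE e) : F.T e ⊆ F.Reg e := by
  intro z hz
  obtain ⟨hx1, hx2⟩ := F.T_x he hz
  obtain ⟨g1, g2, g3⟩ := hz
  refine ⟨?_, g3⟩
  rcases le_total z.1 (F.q (P.sg (P.sg e)) : ℝ) with h | h
  · exact (pl_le_ch (F.q_lt1 he) hx1 h).trans g1
  · exact (pl_le_ch (F.q_lt2 he) h hx2).trans g2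

theorem Reg_child1 {e : D} (he : F.IsE e) (hc : F.IsE (P.al (P.sg e))) {z : ℝ × ℝ}
    (hz : z ∈ F.Reg (P.al (P.sg e))) :
    z ∈ F.Reg e ∧ z.1 ≤ F.q (P.sg (P.sg e)) ∧
      z.2 ≤ ch (F.q (P.sg e)) (F.q (P.sg (P.sg e))) z.1 := by
  obtain ⟨hx1, hx2⟩ := F.Reg_x hc hz
  obtain ⟨g1, g2⟩ := hz
  obtain ⟨q1, q2⟩ := F.child1_q hc
  rw [q1] at hx1 g2
  rw [q2] at hx2 g2
  refine ⟨⟨g1, g2.trans ?_⟩, hx2, g2⟩
  have h2 := F.s12_lt2 he
  unfold ch
  have : 0 ≤ ((F.q e : ℝ) - F.q (P.sg (P.sg e))) * (z.1 - F.q (P.sg e)) :=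
    mul_nonneg (by linarith) (by linarith)
  nlinarith

theorem Reg_child2 {e : D} (he : F.IsE e) (hc : F.IsE (P.al (P.sg (P.sg e)))) {z : ℝ × ℝ}
    (hz : z ∈ F.Reg (P.al (P.sg (P.sg e)))) :
    z ∈ F.Reg e ∧ (F.q (P.sg (P.sg e)) : ℝ) ≤ z.1 ∧
      z.2 ≤ ch (F.q (P.sg (P.sg e))) (F.q e) z.1 := by
  obtain ⟨hx1, hx2⟩ := F.Reg_x hc hz
  obtain ⟨g1, g2⟩ := hz
  obtain ⟨q1, q2⟩ := F.child2_q hc
  rw [q1] at hx1 g2
  rw [q2] at hx2 g2
  refine ⟨⟨g1, g2.trans ?_⟩, hx1, g2⟩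
  have h2 := F.s12_lt1 he
  unfold ch
  have : 0 ≤ ((F.q (P.sg (P.sg e)) : ℝ) - F.q (P.sg e)) * (F.q e - z.1) :=
    mul_nonneg (by linarith) (by linarith)
  nlinarith

theorem bel_sub {e a : D} (he : F.IsE e) (ha : F.IsE a) (h : F.Bel e a) : F.T a ⊆ F.Reg e := by
  induction e using F.wfp.induction with
  | _ e ih =>
    rcases F.bel_cases ha h with h1 | ⟨h1, h2⟩ | ⟨h1, h2⟩
    · rw [h1]
      exact F.T_sub he
    · intro z hz
      exact (F.Reg_child1 he h1 (ih _ ⟨h1, F.child1 he h1⟩ h1 h2 hz)).1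
    · intro z hz
      exact (F.Reg_child2 he h1 (ih _ ⟨h1, F.child2 he h1⟩ h1 h2 hz)).1

theorem reg_cover {e : D} (he : F.IsE e) {z : ℝ × ℝ} (hz : z ∈ F.Reg e) :
    ∃ a, F.IsE a ∧ F.Bel e a ∧ z ∈ F.T a := by
  induction e using F.wfp.induction with
  | _ e ih =>
    by_cases h1 : ch (F.q (P.sg e)) (F.q (P.sg (P.sg e))) z.1 ≤ z.2
    · by_cases h2 : ch (F.q (P.sg (P.sg e))) (F.q e) z.1 ≤ z.2
      · exact ⟨e, he, F.bel_refl e, h1, h2, hz.2⟩
      · push Not at h2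
        have hc : F.IsE (P.al (P.sg (P.sg e))) := by
          by_contra hcon
          have hG : F.IsG (P.sg (P.sg e)) := ⟨F.not_isE_sg2 he, hcon⟩
          have h3 := F.q_isG hG
          rw [F.tri] at h3
          have h4 := le_pl (F.q (P.sg (P.sg e))) z.1
          have h5 : (F.q e : ℝ) = F.q (P.sg (P.sg e)) + 1 := by exact_mod_cast h3
          rw [h5] at h2
          linarith [hz.1]
        obtain ⟨q1, q2⟩ := F.child2_q hc
        have hzc : z ∈ F.Reg (P.al (P.sg (P.sg e))) := ⟨hz.1, by rw [q1, q2]; exact h2.le⟩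
        obtain ⟨a, ha1, ha2, ha3⟩ := ih _ ⟨hc, F.child2 he hc⟩ hc hzc
        exact ⟨a, ha1, F.bel_par (F.child2 he hc) ha2, ha3⟩
    · push Not at h1
      have hc : F.IsE (P.al (P.sg e)) := by
        by_contra hcon
        have hG : F.IsG (P.sg e) := ⟨F.not_isE_sg he, hcon⟩
        have h3 := F.q_isG hG
        have h4 := le_pl (F.q (P.sg e)) z.1
        have h5 : (F.q (P.sg (P.sg e)) : ℝ) = F.q (P.sg e) + 1 := by exact_mod_cast h3
        rw [h5] at h1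
        linarith [hz.1]
      obtain ⟨q1, q2⟩ := F.child1_q hc
      have hzc : z ∈ F.Reg (P.al (P.sg e)) := ⟨hz.1, by rw [q1, q2]; exact h1.le⟩
      obtain ⟨a, ha1, ha2, ha3⟩ := ih _ ⟨hc, F.child1 he hc⟩ hc hzc
      exact ⟨a, ha1, F.bel_par (F.child1 he hc) ha2, ha3⟩

end Placed

end Pool.Agent.AllSurf
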