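import Pool.Agent.Lib.MP_7f477e_gt.S11
import Pool.Agent.Lib.MP_7f477e_gt.S12

/-!
# S13: the point of the surface at a position is unique

`back_unique`: by induction on `e` (`wfp`, for all `a`, `b`, `z`) with `bel_cases` for `a` and for `b`. Let `c = al (sg e)`, `c' = al (sg (sg e))` (if they are exit darts).
KEY STEP: if `Bel c a` and `z ∈ T a` and `z ∈ T e` then `back a z = back e z`: `z ∈ Reg c` (`bel_sub`), so `z.2 ≤ ch i k z.1` (`Reg_child1`), and `z ∈ T e` gives `ch i k z.1 ≤ z.2`; so `z` lies on the exit chord of `c`, and `z ∈ T c`: the exit chord of `c` restricted to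
`[q (sg c), q c]` is contained in `T c` (`ch` inequalities `(l-k)(x-i) ≥ 0`, `(k-i)(l-x) ≥ 0` for the data of `c`). By induction `back a z = back c z` (both below `c`), and `back c z = back e z` by `back_side` (`par c = e`). The same for `c'`.
Cases: `a = e = b`: trivial. `a = e`, `b` below a child: key step. `a`, `b` below the same child: induction. `a` below `c`, `b` below `c'`: `z.1 ≤ k` and `k ≤ z.1`, `z.2 ≤ ch i k k = k²` and `pl k ≤ z.2`, so `z = (k, k²)`, which is in `T e`: key step twice.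
`psi_eq`: `dif_pos`; the chosen triangle and `a` have a common ancestor (`common`).
-/

set_option autoImplicit false

open Set Topology

namespace Pool.Agent.AllSurf

namespace Placed

variable {D : Type} {P : PolygonGluing D} (F : Placed P)

/-- the statement of `back_unique` below `e` -/
def s13_U (e : D) : Prop := ∀ a b, F.IsE a → F.IsE b → F.Bel e a → F.Bel e b →
  ∀ z : ℝ × ℝ, z ∈ F.T a → z ∈ F.T b → F.back a z = F.back b z

/-- the exit chord of `c` belongs to the triangle -/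
theorem s13_chord {c : D} (hc : F.IsE c) {z : ℝ × ℝ} (h : z.2 = ch (F.q (P.sg c)) (F.q c) z.1)
    (h1 : (F.q (P.sg c) : ℝ) ≤ z.1) (h2 : z.1 ≤ F.q c) : z ∈ F.T c := by
  have h3 : (F.q (P.sg c) : ℝ) < F.q (P.sg (P.sg c)) := by exact_mod_cast F.q_lt1 hc
  have h4 : (F.q (P.sg (P.sg c)) : ℝ) < F.q c := by exact_mod_cast F.q_lt2 hc
  refine ⟨?_, ?_, h.le⟩
  · rw [h]
    unfold ch
    have := mul_nonneg (sub_nonneg.2 h4.le) (sub_nonneg.2 h1)
    nlinarith
  · rw [h]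
    unfold ch
    have := mul_nonneg (sub_nonneg.2 h3.le) (sub_nonneg.2 h2)
    nlinarith

theorem s13_key {c : D} (hc : F.IsE c) (ih : F.s13_U c) {a : D} (ha : F.IsE a)
    (hb : F.Bel c a) {z : ℝ × ℝ} (hz : z ∈ F.T a)
    (hch : z.2 = ch (F.q (P.sg c)) (F.q c) z.1) : F.back a z = F.back (F.par c) z := by
  have h1 : z ∈ F.Reg c := F.bel_sub hc ha hb hz
  obtain ⟨h2, h3⟩ := F.Reg_x hc h1
  have h4 : z ∈ F.T c := F.s13_chord hc hch h2 h3
  rw [ih a c ha hc hb (F.bel_refl c) z hz h4]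
  exact (F.back_side hc h4 hch).2.symm

theorem s13_key1 {e : D} (he : F.IsE e) (hc : F.IsE (P.al (P.sg e)))
    (ih : F.s13_U (P.al (P.sg e))) {a : D} (ha : F.IsE a) (hb : F.Bel (P.al (P.sg e)) a)
    {z : ℝ × ℝ} (hz : z ∈ F.T a) (hze : z ∈ F.T e) : F.back a z = F.back e z := by
  have h1 : z ∈ F.Reg (P.al (P.sg e)) := F.bel_sub hc ha hb hz
  obtain ⟨h2, h3, h4⟩ := F.Reg_child1 he hc h1
  have h5 := le_antisymm h4 hze.1
  have h6 := F.child1_q hc
  have h7 := F.s13_key hc ih ha hb hz (by rw [h6.1, h6.2]; exact h5)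
  rw [h7, F.child1 he hc]

theorem s13_key2 {e : D} (he : F.IsE e) (hc : F.IsE (P.al (P.sg (P.sg e))))
    (ih : F.s13_U (P.al (P.sg (P.sg e)))) {a : D} (ha : F.IsE a)
    (hb : F.Bel (P.al (P.sg (P.sg e))) a)
    {z : ℝ × ℝ} (hz : z ∈ F.T a) (hze : z ∈ F.T e) : F.back a z = F.back e z := by
  have h1 : z ∈ F.Reg (P.al (P.sg (P.sg e))) := F.bel_sub hc ha hb hz
  obtain ⟨h2, h3, h4⟩ := F.Reg_child2 he hc h1
  have h5 := le_antisymm h4 hze.2.1
  have h6 := F.child2_q hc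
  have h7 := F.s13_key hc ih ha hb hz (by rw [h6.1, h6.2]; exact h5)
  rw [h7, F.child2 he hc]

theorem s13_corner {e : D} (he : F.IsE e) (hc : F.IsE (P.al (P.sg e)))
    (hc' : F.IsE (P.al (P.sg (P.sg e)))) {a b : D} (ha : F.IsE a) (hb : F.IsE b)
    (h1 : F.Bel (P.al (P.sg e)) a) (h2 : F.Bel (P.al (P.sg (P.sg e))) b)
    {z : ℝ × ℝ} (hz1 : z ∈ F.T a) (hz2 : z ∈ F.T b) : z ∈ F.T e := by
  have h3 : z ∈ F.Reg (P.al (P.sg e)) := F.bel_sub hc ha h1 hz1
  have h4 : z ∈ F.Reg (P.al (P.sg (P.sg e))) := F.bel_sub hc' hb h2 hz2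
  obtain ⟨h5, h6, h7⟩ := F.Reg_child1 he hc h3
  obtain ⟨h8, h9, h10⟩ := F.Reg_child2 he hc' h4
  have hx : z.1 = F.q (P.sg (P.sg e)) := le_antisymm h6 h9
  have hpl := h5.1
  rw [hx, pl_int] at hpl
  have hi : (F.q (P.sg e) : ℝ) < F.q (P.sg (P.sg e)) := by exact_mod_cast F.q_lt1 he
  have hl : (F.q (P.sg (P.sg e)) : ℝ) < F.q e := by exact_mod_cast F.q_lt2 he
  rw [hx] at h7
  unfold ch at h7
  have hy : z.2 = (F.q (P.sg (P.sg e)) : ℝ) ^ 2 := by
    apply le_antisymm _ hpl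
    nlinarith
  refine ⟨?_, ?_, ?_⟩
  · rw [hx, hy]; unfold ch; nlinarith
  · rw [hx, hy]; unfold ch; nlinarith
  · rw [hx, hy]; unfold ch
    have := mul_nonneg (sub_nonneg.2 hi.le) (sub_nonneg.2 hl.le)
    nlinarith

theorem s13_all (e : D) : F.IsE e → F.s13_U e := by
  induction e using F.wfp.induction with
  | _ e ih =>
    intro he a b ha hb h1 h2 z hz1 hz2
    rcases F.bel_cases ha h1 with rfl | ⟨hc, hca⟩ | ⟨hc, hca⟩
    · rcases F.bel_cases hb h2 with rfl | ⟨hd, hdb⟩ | ⟨hd, hdb⟩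
      · rfl
      · exact (F.s13_key1 he hd (ih _ ⟨hd, F.child1 he hd⟩ hd) hb hdb hz2 hz1).symm
      · exact (F.s13_key2 he hd (ih _ ⟨hd, F.child2 he hd⟩ hd) hb hdb hz2 hz1).symm
    · rcases F.bel_cases hb h2 with rfl | ⟨hd, hdb⟩ | ⟨hd, hdb⟩
      · exact F.s13_key1 he hc (ih _ ⟨hc, F.child1 he hc⟩ hc) ha hca hz1 hz2
      · exact ih _ ⟨hc, F.child1 he hc⟩ hc a b ha hb hca hdb z hz1 hz2
      · have hze := F.s13_corner he hc hd ha hb hca hdb hz1 hz2
        rw [F.s13_key1 he hc (ih _ ⟨hc, F.child1 he hc⟩ hc) ha hca hz1 hze,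
          F.s13_key2 he hd (ih _ ⟨hd, F.child2 he hd⟩ hd) hb hdb hz2 hze]
    · rcases F.bel_cases hb h2 with rfl | ⟨hd, hdb⟩ | ⟨hd, hdb⟩
      · exact F.s13_key2 he hc (ih _ ⟨hc, F.child2 he hc⟩ hc) ha hca hz1 hz2
      · have hze := F.s13_corner he hd hc hb ha hdb hca hz2 hz1
        rw [F.s13_key2 he hc (ih _ ⟨hc, F.child2 he hc⟩ hc) ha hca hz1 hze,
          F.s13_key1 he hd (ih _ ⟨hd, F.child1 he hd⟩ hd) hb hdb hz2 hze]
      · exact ih _ ⟨hc, F.child2 he hc⟩ hc a b ha hb hca hdb z hz1 hz2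

theorem back_unique {e a b : D} (he : F.IsE e) (ha : F.IsE a) (hb : F.IsE b) (h1 : F.Bel e a)
    (h2 : F.Bel e b) {z : ℝ × ℝ} (hz1 : z ∈ F.T a) (hz2 : z ∈ F.T b) :
    F.back a z = F.back b z :=
  F.s13_all e he a b ha hb h1 h2 z hz1 hz2

theorem psi_eq {a : D} (ha : F.IsE a) {z : ℝ × ℝ} (hz : z ∈ F.T a) :
    F.psi (F.cl a) z = F.back a z := by
  have h : ∃ b : D, F.IsE b ∧ F.cl b = F.cl a ∧ z ∈ F.T b := ⟨a, ha, rfl, hz⟩
  unfold psi
  rw [dif_pos h]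
  obtain ⟨h1, h2, h3⟩ := h.choose_spec
  obtain ⟨e, he, hea, heb⟩ := F.common h1 ha h2
  exact F.back_unique he h1 ha hea heb h3 hz

theorem psi_pos (x : D × unitInterval × unitInterval) :
    F.psi (F.cl x.1) (F.pos x) = pt P x := by
  rw [← F.cl_ex, F.psi_eq (F.isE_ex _) (F.pos_mem_T x), F.back_pos]

end Placed

end Pool.Agent.AllSurf
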