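import Pool.Agent.Lib.MP_7f477e_gt.S06
import Pool.Agent.Lib.MP_7f477e_gt.S13

/-!
# S14: continuity of `psi`

`exhaust`: choose `d` with `cl d = c` (`exists_cl`) and `m` by `growth` so large that `(x - i) (l - x) > |z.2| + x² ...` for `x = z.1`, `i = q (sg e)`, `l = q e`, `e = par^[m] (ex d)`; `ch i l x = x² + (x - i)(l - x)`; `cl e = c` (`cl_iter`, `cl_ex`).
`desc_finite`: induction (`wfp`), `bel_cases`: the set is contained in `{e}` union the sets of the (at most two) children.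
`psi_cont`: let `z₀` with `pl z₀.1 ≤ z₀.2`, `e` from `exhaust`. The set `{z | z.2 < ch i l z.1}` is an open neighbourhood of `z₀`, and in it the points with `pl z.1 ≤ z.2` lie in `Reg e`, so in the union of the finitely many closed sets `T a`, `a ∈ desc e` (`reg_cover`, `desc_finite`). On each `T a` we have `psi c = back a` (`psi_eq`, `cl a = cl e`: `cl_iter`), which is continuous
(`back_cont`). So `psi c` is continuous on the finite union of closed sets (`Set.Finite.induction_on` and `ContinuousOn.union_of_isClosed`, or `LocallyFinite.continuousOn_iUnion`), and then continuous within `{pl ≤}` at `z₀` (`ContinuousWithinAt.mono_of_mem_nhdsWithin`).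
`exists_T`: every `z` with `pl z.1 ≤ z.2` lies in a triangle of the class `c`.
-/

set_option autoImplicit false

open Set Topology

namespace Pool.Agent.AllSurf

namespace Placed

variable {D : Type} {P : PolygonGluing D} (F : Placed P)

theorem exhaust (c : F.Cl) (z : ℝ × ℝ) :
    ∃ e, F.IsE e ∧ F.cl e = c ∧ z.2 < ch (F.q (P.sg e)) (F.q e) z.1 := by
  obtain ⟨d, hd⟩ := F.exists_cl c
  obtain ⟨K, hK⟩ := exists_nat_ge (|z.1| + |z.2| + 1)
  obtain ⟨n, hn⟩ := F.growth d (K : ℤ)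
  obtain ⟨h1, h2⟩ := hn n le_rfl
  refine ⟨F.par^[n] (F.ex d), F.isE_iter n (F.isE_ex d), ?_, ?_⟩
  · rw [F.cl_iter, F.cl_ex, hd]
  · have h1' : (F.q (P.sg (F.par^[n] (F.ex d))) : ℝ) < -(K : ℝ) := by exact_mod_cast h1
    have h2' : (K : ℝ) < F.q (F.par^[n] (F.ex d)) := by exact_mod_cast h2
    set i : ℝ := (F.q (P.sg (F.par^[n] (F.ex d))) : ℝ) with hi
    set l : ℝ := (F.q (F.par^[n] (F.ex d)) : ℝ) with hl
    have hx1 := neg_abs_le z.1
    have hx2 := le_abs_self z.1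
    have hy := le_abs_self z.2
    have hy0 := abs_nonneg z.2
    have h3 : |z.2| + 1 ≤ z.1 - i := by linarith
    have h4 : |z.2| + 1 ≤ l - z.1 := by linarith
    have h5 : (|z.2| + 1) * (|z.2| + 1) ≤ (z.1 - i) * (l - z.1) :=
      mul_le_mul h3 h4 (by linarith) (by linarith)
    have h6 : ch i l z.1 = z.1 ^ 2 + (z.1 - i) * (l - z.1) := by
      unfold ch
      ring
    rw [h6]
    nlinarith [sq_nonneg z.1, mul_nonneg hy0 hy0]

theorem desc_finite {e : D} (he : F.IsE e) : {a | F.IsE a ∧ F.Bel e a}.Finite := by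
  induction e using F.wfp.induction with
  | _ e ih =>
    have h1 : {a | F.IsE (P.al (P.sg e)) ∧ F.IsE a ∧ F.Bel (P.al (P.sg e)) a}.Finite := by
      by_cases h : F.IsE (P.al (P.sg e))
      · exact (ih _ ⟨h, F.child1 he h⟩ h).subset (fun a ha => ha.2)
      · exact Set.Finite.subset Set.finite_empty (fun a ha => absurd ha.1 h)
    have h2 : {a | F.IsE (P.al (P.sg (P.sg e))) ∧ F.IsE a ∧
        F.Bel (P.al (P.sg (P.sg e))) a}.Finite := by
      by_cases h : F.IsE (P.al (P.sg (P.sg e)))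
      · exact (ih _ ⟨h, F.child2 he h⟩ h).subset (fun a ha => ha.2)
      · exact Set.Finite.subset Set.finite_empty (fun a ha => absurd ha.1 h)
    refine (((Set.finite_singleton e).union h1).union h2).subset ?_
    rintro a ⟨ha, hb⟩
    rcases F.bel_cases ha hb with h | ⟨h, h'⟩ | ⟨h, h'⟩
    · exact Or.inl (Or.inl h)
    · exact Or.inl (Or.inr ⟨h, ha, h'⟩)
    · exact Or.inr ⟨h, ha, h'⟩

theorem s14_cl {e a : D} (h : F.Bel e a) : F.cl a = F.cl e := by
  obtain ⟨n, hn⟩ := h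
  rw [← hn, F.cl_iter]

theorem exists_T (c : F.Cl) {z : ℝ × ℝ} (hz : pl z.1 ≤ z.2) :
    ∃ a, F.IsE a ∧ F.cl a = c ∧ z ∈ F.T a := by
  obtain ⟨e, he, hc, h⟩ := F.exhaust c z
  obtain ⟨a, ha, hb, hz'⟩ := F.reg_cover he (show z ∈ F.Reg e from ⟨hz, h.le⟩)
  exact ⟨a, ha, by rw [F.s14_cl hb, hc], hz'⟩

theorem s14_union (c : F.Cl) {A : Set D} (hA : A.Finite) (h : ∀ a ∈ A, F.IsE a ∧ F.cl a = c) :
    ContinuousOn (F.psi c) (⋃ a ∈ A, F.T a) ∧ IsClosed (⋃ a ∈ A, F.T a) := by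
  induction A, hA using Set.Finite.induction_on with
  | empty => simp
  | @insert a A _ _ ih =>
    obtain ⟨h1, h2⟩ := ih (fun b hb => h b (Set.mem_insert_of_mem _ hb))
    obtain ⟨h3, h4⟩ := h a (Set.mem_insert _ _)
    rw [Set.biUnion_insert]
    refine ⟨ContinuousOn.union_of_isClosed ?_ h1 (F.isClosed_T a) h2, (F.isClosed_T a).union h2⟩
    refine (F.back_cont h3).congr (fun z hz => ?_)
    rw [← h4]
    exact F.psi_eq h3 hz

theorem psi_cont (c : F.Cl) : ContinuousOn (F.psi c) {z : ℝ × ℝ | pl z.1 ≤ z.2} := by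
  intro z₀ hz₀
  obtain ⟨e, he, hc, hlt⟩ := F.exhaust c z₀
  obtain ⟨h1, -⟩ := F.s14_union c (F.desc_finite he)
    (fun a ha => ⟨ha.1, by rw [F.s14_cl ha.2, hc]⟩)
  have hsub : {z : ℝ × ℝ | z.2 < ch (F.q (P.sg e)) (F.q e) z.1} ∩ {z : ℝ × ℝ | pl z.1 ≤ z.2} ⊆
      ⋃ a ∈ {a | F.IsE a ∧ F.Bel e a}, F.T a := by
    rintro z ⟨hz1, hz2⟩
    obtain ⟨a, ha, hb, hz'⟩ := F.reg_cover he (show z ∈ F.Reg e from ⟨hz2, le_of_lt hz1⟩)
    exact Set.mem_biUnion (show a ∈ {a | F.IsE a ∧ F.Bel e a} from ⟨ha, hb⟩) hz'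
  have hopen : IsOpen {z : ℝ × ℝ | z.2 < ch (F.q (P.sg e)) (F.q e) z.1} := by
    unfold ch
    exact isOpen_lt (by fun_prop) (by fun_prop)
  refine (h1 z₀ (hsub ⟨hlt, hz₀⟩)).mono_of_mem_nhdsWithin ?_
  exact mem_nhdsWithin.2 ⟨_, hopen, hlt, hsub⟩

end Placed

end Pool.Agent.AllSurf
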