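import Pool.Agent.Lib.MP_7f477e_gt.SRib

/-!
# S16: from the ribbon surface to the glued half planes

`Quot.lift` of `(d, true, s, u) ↦ hpt (j d).1 ((j d).2 + s / 2) (vOf u)`, `(d, false, s, u) ↦ hpt (j (al d)).1 ((j (al d)).2 + 1 - s / 2) (vOf u)`. Continuity: `D` and `Bool` are discrete, for fixed `d`, `b` it is a composition of continuous maps with the quotient map.
Relations: `edge`: the relation `glue` of `HPS` at `d`, `t = s / 2` (`vOf_zero`; `1 - s / 2`). `corner`: `nu d = al g` with `g = j.symm ((j d).1, (j d).2 - 1)`, so `al (nu d) = g`, `j g = ((j d).1, (j d).2 - 1)`: the two points are equal. `mid`: `al (al d) = d`: equal.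
-/

set_option autoImplicit false

open Set Topology

namespace Pool.Agent.AllSurf

theorem s16_hpt_cont {G C : Type} (j : G ≃ C × ℤ) (al : G → G) (c : C) :
    Continuous fun p : ℝ × NNReal => hpt j al c p.1 p.2 := by
  letI : TopologicalSpace C := ⊥
  have h1 : Continuous (fun p : C × ℝ × NNReal => (Quot.mk (HRel j al) p : HPS j al)) :=
    continuous_quot_mk
  have h2 : Continuous (fun p : ℝ × NNReal => ((c, p.1, p.2) : C × ℝ × NNReal)) := by
    fun_prop
  exact h1.comp h2

/-- the map of half strips to the glued half planes -/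
noncomputable def s16_map {G C : Type} (R : RibbonGraph G) (j : G ≃ C × ℤ) :
    G × Bool × unitInterval × U01 → HPS j R.al
  | (d, true, s, u) => hpt j R.al (j d).1 (((j d).2 : ℝ) + s / 2) (vOf u)
  | (d, false, s, u) => hpt j R.al (j (R.al d)).1 (((j (R.al d)).2 : ℝ) + 1 - s / 2) (vOf u)

theorem s16_rel {G C : Type} (R : RibbonGraph G) (j : G ≃ C × ℤ)
    (hnu : ∀ g, R.nu g = R.al (j.symm ((j g).1, (j g).2 - 1)))
    (a b : G × Bool × unitInterval × U01) (h : R.Rel a b) : s16_map R j a = s16_map R j b := by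
  cases h with
  | edge d s =>
    show hpt j R.al (j d).1 (((j d).2 : ℝ) + s / 2) (vOf u0) =
      hpt j R.al (j (R.al d)).1 (((j (R.al d)).2 : ℝ) + 1 - s / 2) (vOf u0)
    rw [vOf_zero]
    have h0 : (0 : ℝ) ≤ (s : ℝ) / 2 := by
      have := s.2.1
      linarith
    have h1 : (s : ℝ) / 2 ≤ 1 := by
      have := s.2.2
      linarith
    have h2 := HRel.glue (j := j) (al := R.al) d ⟨(s : ℝ) / 2, h0, h1⟩
    have h3 : ((j (R.al d)).2 : ℝ) + 1 - s / 2 = ((j (R.al d)).2 : ℝ) + (1 - (s : ℝ) / 2) := by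
      ring
    rw [h3]
    exact Quot.sound h2
  | corner d u =>
    show hpt j R.al (j d).1 (((j d).2 : ℝ) + ((0 : unitInterval) : ℝ) / 2) (vOf u) =
      hpt j R.al (j (R.al (R.nu d))).1
        (((j (R.al (R.nu d))).2 : ℝ) + 1 - ((0 : unitInterval) : ℝ) / 2) (vOf u)
    have h1 : j (R.al (R.nu d)) = ((j d).1, (j d).2 - 1) := by
      rw [hnu, R.al_al, Equiv.apply_symm_apply]
    rw [h1]
    congr 1
    push_cast
    simp
  | mid d u =>
    show hpt j R.al (j d).1 (((j d).2 : ℝ) + ((1 : unitInterval) : ℝ) / 2) (vOf u) =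
      hpt j R.al (j (R.al (R.al d))).1
        (((j (R.al (R.al d))).2 : ℝ) + 1 - ((1 : unitInterval) : ℝ) / 2) (vOf u)
    rw [R.al_al]
    congr 1
    have : ((1 : unitInterval) : ℝ) = 1 := rfl
    rw [this]
    ring

theorem s16_cont {G C : Type} (R : RibbonGraph G) (j : G ≃ C × ℤ) :
    @Continuous (G × Bool × unitInterval × U01) (HPS j R.al)
      (@instTopologicalSpaceProd G (Bool × unitInterval × U01) ⊥ inferInstance) inferInstance
      (s16_map R j) := by
  letI : TopologicalSpace G := ⊥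
  haveI : DiscreteTopology G := ⟨rfl⟩
  have hv : Continuous fun p : unitInterval × U01 => vOf p.2 := vOf_cont.comp continuous_snd
  refine continuous_prod_of_discrete_left.2 fun d => ?_
  refine continuous_prod_of_discrete_left.2 fun b => ?_
  cases b with
  | true =>
    have h1 : Continuous fun p : unitInterval × U01 =>
        ((((j d).2 : ℝ) + p.1 / 2, vOf p.2) : ℝ × NNReal) :=
      Continuous.prodMk (by fun_prop) hv
    exact (s16_hpt_cont j R.al (j d).1).comp h1
  | false =>
    have h1 : Continuous fun p : unitInterval × U01 =>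
        ((((j (R.al d)).2 : ℝ) + 1 - p.1 / 2, vOf p.2) : ℝ × NNReal) :=
      Continuous.prodMk (by fun_prop) hv
    exact (s16_hpt_cont j R.al (j (R.al d)).1).comp h1

theorem rib_to_hps {G C : Type} (R : RibbonGraph G) (j : G ≃ C × ℤ)
    (hnu : ∀ g, R.nu g = R.al (j.symm ((j g).1, (j g).2 - 1))) :
    ∃ f : R.Surface → HPS j R.al, Continuous f ∧
      (∀ (d : G) (s : unitInterval) (u : U01),
        f (R.pt d true s u) = hpt j R.al (j d).1 (((j d).2 : ℝ) + s / 2) (vOf u)) ∧
      (∀ (d : G) (s : unitInterval) (u : U01),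
        f (R.pt d false s u) =
          hpt j R.al (j (R.al d)).1 (((j (R.al d)).2 : ℝ) + 1 - s / 2) (vOf u)) := by
  refine ⟨Quot.lift (s16_map R j) (s16_rel R j hnu), ?_, ?_, ?_⟩
  · letI : TopologicalSpace G := ⊥
    exact continuous_quot_lift (s16_rel R j hnu) (s16_cont R j)
  · intro d s u
    rfl
  · intro d s u
    rfl

end Pool.Agent.AllSurf
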