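import Pool.Agent.Lib.MP_7f477e_gt.SDefs

/-!
# MP_7f477e_gt, part S: basic facts about placed triangulations
-/

set_option autoImplicit false

open Set Topology

namespace Pool.Agent.AllSurf

namespace Placed

variable {D : Type} {P : PolygonGluing D} (F : Placed P)

theorem ex_sg2 (d : D) : F.ex (P.sg (P.sg d)) = F.ex d := by rw [F.ex_sg, F.ex_sg]

theorem isE_cases (d : D) : F.IsE d ∨ F.IsE (P.sg d) ∨ F.IsE (P.sg (P.sg d)) := by
  unfold IsE
  rcases F.ex_mem d with h | h | h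
  · exact Or.inl h
  · exact Or.inr (Or.inl (by rw [F.ex_sg]; exact h))
  · exact Or.inr (Or.inr (by rw [F.ex_sg2]; exact h))

theorem ex_ex (d : D) : F.ex (F.ex d) = F.ex d := by
  rcases F.ex_mem d with h | h | h
  · rw [h]; exact h
  · rw [h, F.ex_sg]; exact h
  · rw [h, F.ex_sg2]; exact h

theorem isE_ex (d : D) : F.IsE (F.ex d) := F.ex_ex d

theorem not_isE_sg {d : D} (h : F.IsE d) : ¬ F.IsE (P.sg d) := by
  intro h'
  have h1 : F.ex (P.sg d) = P.sg d := h'
  rw [F.ex_sg, show F.ex d = d from h] at h1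
  exact F.sg_ne d h1.symm

theorem not_isE_sg2 {d : D} (h : F.IsE d) : ¬ F.IsE (P.sg (P.sg d)) := by
  intro h'
  have h1 : F.ex (P.sg (P.sg d)) = P.sg (P.sg d) := h'
  rw [F.ex_sg2, show F.ex d = d from h] at h1
  have h2 := congrArg P.sg h1
  rw [F.tri] at h2
  exact F.sg_ne d h2

theorem not_isE_al {d : D} (h : F.IsE d) : ¬ F.IsE (P.al d) := by
  intro h'
  have h1 : F.ex d = d ∧ F.ex (P.al d) = P.al d := ⟨h, h'⟩
  have h2 : F.ex (P.al d) = P.al d ∧ F.ex (P.al (P.al d)) = d := ⟨h', by rw [P.al_al]; exact h⟩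
  exact F.wf.asymmetric _ _ h1 h2

theorem isG_al {d : D} (h : F.IsG d) : F.IsG (P.al d) := ⟨h.2, by rw [P.al_al]; exact h.1⟩

theorem par_eq {e : D} (h : F.IsE e) : F.par e = F.ex (P.al e) := by
  unfold par
  rw [show F.ex e = e from h]

theorem isE_par (d : D) : F.IsE (F.par d) := F.ex_ex _

theorem par_ex (d : D) : F.par (F.ex d) = F.par d := by
  unfold par
  rw [F.ex_ex]

theorem isE_iter (n : ℕ) {e : D} (h : F.IsE e) : F.IsE (F.par^[n] e) := by
  cases n with
  | zero => exact h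
  | succ n => rw [Function.iterate_succ_apply']; exact F.isE_par _

theorem wfp : WellFounded fun a b : D => F.IsE a ∧ F.par a = b := by
  refine Subrelation.wf ?_ F.wf
  rintro a b ⟨h1, h2⟩
  exact ⟨h1, by rw [← h2, F.par_eq h1]⟩

theorem par_ne {e : D} (h : F.IsE e) : F.par e ≠ e := fun h' => F.wfp.irrefl.irrefl e ⟨h, h'⟩

theorem al_cases {e : D} (h : F.IsE e) :
    P.al e = P.sg (F.par e) ∨ P.al e = P.sg (P.sg (F.par e)) := by
  rw [F.par_eq h]
  rcases F.ex_mem (P.al e) with h1 | h1 | h1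
  · exact absurd h1 (F.not_isE_al h)
  · exact Or.inr (by rw [h1, F.tri])
  · exact Or.inl (by rw [h1, F.tri])

theorem child_cases {c : D} (h : F.IsE c) :
    c = P.al (P.sg (F.par c)) ∨ c = P.al (P.sg (P.sg (F.par c))) := by
  rcases F.al_cases h with h1 | h1
  · exact Or.inl (by rw [← h1, P.al_al])
  · exact Or.inr (by rw [← h1, P.al_al])

theorem par_al {d : D} (h : F.IsE (P.al d)) : F.par (P.al d) = F.ex d := by
  rw [F.par_eq h, P.al_al]

theorem M_pos (d : D) : 0 < F.M d := by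
  have key : ∀ e, F.IsE e → 0 < F.M e := by
    intro e
    induction e using F.wfp.induction with
    | _ e ih =>
      intro he
      have h2 : ¬ F.IsE (P.sg e) := F.not_isE_sg he
      have h3 : 0 < F.M (P.sg e) := by
        by_cases h4 : F.IsE (P.al (P.sg e))
        · rw [F.M_in _ h2 h4]
          refine ih _ ⟨h4, ?_⟩ h4
          rw [F.par_al h4, F.ex_sg]
          exact he
        · rw [F.M_dg _ h2 h4]
          exact Nat.one_pos
      rw [F.M_ex e he]
      omega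
  by_cases h1 : F.IsE d
  · exact key d h1
  · by_cases h2 : F.IsE (P.al d)
    · rw [F.M_in d h1 h2]
      exact key _ h2
    · rw [F.M_dg d h1 h2]
      exact Nat.one_pos

theorem q_sg2 {e : D} (h : F.IsE e) : F.q (P.sg (P.sg e)) = F.q (P.sg e) + F.M (P.sg e) :=
  F.q_sg _ (F.not_isE_sg h)

theorem q_ex {e : D} (h : F.IsE e) : F.q e = F.q (P.sg e) + F.M e := by
  have h1 := F.q_sg _ (F.not_isE_sg2 h)
  rw [F.tri, F.q_sg2 h] at h1
  rw [h1, F.M_ex e h]
  push_cast
  ring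

theorem q_ex' {e : D} (h : F.IsE e) : F.q e = F.q (P.sg (P.sg e)) + F.M (P.sg (P.sg e)) := by
  have h1 := F.q_sg _ (F.not_isE_sg2 h)
  rwa [F.tri] at h1

theorem q_lt1 {e : D} (h : F.IsE e) : F.q (P.sg e) < F.q (P.sg (P.sg e)) := by
  rw [F.q_sg2 h]
  have := F.M_pos (P.sg e)
  omega

theorem q_lt2 {e : D} (h : F.IsE e) : F.q (P.sg (P.sg e)) < F.q e := by
  rw [F.q_ex' h]
  have := F.M_pos (P.sg (P.sg e))
  omega

theorem q_al2 {e : D} (h : F.IsE e) : F.q (P.sg (P.al e)) = F.q e := by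
  have h1 : ¬ F.IsE (P.al e) := F.not_isE_al h
  have h2 : F.ex (P.al (P.al e)) = P.al (P.al e) := by rw [P.al_al]; exact h
  rw [F.q_sg _ h1, F.q_al e h, F.M_in _ h1 h2, P.al_al, ← F.q_ex h]

theorem cl_sg (d : D) : F.cl (P.sg d) = F.cl d :=
  Quotient.sound ⟨0, 0, by rw [F.ex_sg]⟩

theorem cl_ex (d : D) : F.cl (F.ex d) = F.cl d :=
  Quotient.sound ⟨0, 0, by rw [F.ex_ex]⟩

theorem cl_par (d : D) : F.cl (F.par d) = F.cl d := by
  refine Quotient.sound ⟨0, 1, ?_⟩
  show F.ex (F.par d) = F.par (F.ex d)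
  rw [F.par_ex]
  exact F.isE_par d

theorem cl_iter (n : ℕ) (d : D) : F.cl (F.par^[n] d) = F.cl d := by
  induction n with
  | zero => rfl
  | succ n ih => rw [Function.iterate_succ_apply', F.cl_par, ih]

theorem cl_al {e : D} (h : F.IsE e) : F.cl (P.al e) = F.cl e := by
  rw [← F.cl_ex, ← F.par_eq h, F.cl_par]

theorem cl_eq {a b : D} :
    F.cl a = F.cl b ↔ ∃ n m : ℕ, F.par^[n] (F.ex a) = F.par^[m] (F.ex b) :=
  Quotient.eq (r := F.clS)

theorem exists_cl (c : F.Cl) : ∃ d, F.cl d = c := Quotient.exists_rep c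

theorem bel_refl (e : D) : F.Bel e e := ⟨0, rfl⟩

theorem bel_par {e c a : D} (h : F.par c = e) (h' : F.Bel c a) : F.Bel e a := by
  obtain ⟨n, hn⟩ := h'
  exact ⟨n + 1, by rw [Function.iterate_succ_apply', hn, h]⟩

theorem bel_trans {e f a : D} (h : F.Bel e f) (h' : F.Bel f a) : F.Bel e a := by
  obtain ⟨n, hn⟩ := h
  obtain ⟨m, hm⟩ := h'
  exact ⟨n + m, by rw [Function.iterate_add_apply, hm, hn]⟩

/-- a descendant of `e` is `e` or a descendant of one of the two possible children -/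
theorem bel_cases {e a : D} (ha : F.IsE a) (h : F.Bel e a) :
    a = e ∨ (F.IsE (P.al (P.sg e)) ∧ F.Bel (P.al (P.sg e)) a) ∨
      (F.IsE (P.al (P.sg (P.sg e))) ∧ F.Bel (P.al (P.sg (P.sg e))) a) := by
  obtain ⟨n, hn⟩ := h
  cases n with
  | zero => exact Or.inl hn
  | succ n =>
    rw [Function.iterate_succ_apply'] at hn
    have hE : F.IsE (F.par^[n] a) := F.isE_iter n ha
    rcases F.child_cases hE with h1 | h1
    · rw [hn] at h1
      exact Or.inr (Or.inl (by rw [← h1]; exact ⟨hE, n, rfl⟩))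
    · rw [hn] at h1
      exact Or.inr (Or.inr (by rw [← h1]; exact ⟨hE, n, rfl⟩))

/-- the children of `e` are well founded below `e` -/
theorem child1 {e : D} (he : F.IsE e) (h : F.IsE (P.al (P.sg e))) :
    F.par (P.al (P.sg e)) = e := by
  rw [F.par_al h, F.ex_sg]; exact he

theorem child2 {e : D} (he : F.IsE e) (h : F.IsE (P.al (P.sg (P.sg e)))) :
    F.par (P.al (P.sg (P.sg e))) = e := by
  rw [F.par_al h, F.ex_sg2]; exact he

/-- positions of the child at the side `sg e` -/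
theorem child1_q {e : D} (h : F.IsE (P.al (P.sg e))) :
    F.q (P.sg (P.al (P.sg e))) = F.q (P.sg e) ∧ F.q (P.al (P.sg e)) = F.q (P.sg (P.sg e)) := by
  have h1 := F.q_al _ h
  have h2 := F.q_al2 h
  rw [P.al_al] at h1 h2
  exact ⟨h1.symm, h2.symm⟩

/-- positions of the child at the side `sg (sg e)` -/
theorem child2_q {e : D} (h : F.IsE (P.al (P.sg (P.sg e)))) :
    F.q (P.sg (P.al (P.sg (P.sg e)))) = F.q (P.sg (P.sg e)) ∧
      F.q (P.al (P.sg (P.sg e))) = F.q e := by
  have h1 := F.q_al _ h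
  have h2 := F.q_al2 h
  rw [P.al_al] at h1 h2
  rw [F.tri] at h2
  exact ⟨h1.symm, h2.symm⟩

/-- two triangles of one face tree have a common ancestor -/
theorem common {a b : D} (ha : F.IsE a) (hb : F.IsE b) (h : F.cl a = F.cl b) :
    ∃ e, F.IsE e ∧ F.Bel e a ∧ F.Bel e b := by
  obtain ⟨n, m, h1⟩ := F.cl_eq.1 h
  rw [show F.ex a = a from ha, show F.ex b = b from hb] at h1
  exact ⟨F.par^[n] a, F.isE_iter n ha, ⟨n, rfl⟩, ⟨m, h1.symm⟩⟩

/-- if `d` is neither an exit dart nor opposite to one then the positions differ by one -/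
theorem q_isG {d : D} (h : F.IsG d) : F.q (P.sg d) = F.q d + 1 := by
  rw [F.q_sg d h.1, F.M_dg d h.1 h.2]
  rfl

end Placed

end Pool.Agent.AllSurf
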