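import Pool.Agent.Lib.MP_7f477e_gt.Rib

/-!
# MP_7f477e_gt, part S: definitions

A triangulated surface `P` (all polygons are triangles) with a one-ended dual forest: every triangle
has an exit dart, the parent of a triangle is the triangle on the other side of its exit dart, and the
relation child - parent is well founded. The triangles are placed in the plane: the corners lie on the
parabola, at `(i, i ^ 2)`, `i` an integer.
-/

set_option autoImplicit false

open Set Topology

namespace Pool.Agent.AllSurf

/-- A triangulated surface with a one-ended dual forest (`ex d` = exit dart of the triangle of `d`), the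
numbers `M d` of edges below the side `d` and the positions `q d` of the starting points of the darts
(in their triangle). -/
structure Placed {D : Type} (P : PolygonGluing D) where
  tri : ∀ d, P.sg (P.sg (P.sg d)) = d
  sg_ne : ∀ d, P.sg d ≠ d
  ex : D → D
  ex_mem : ∀ d, ex d = d ∨ ex d = P.sg d ∨ ex d = P.sg (P.sg d)
  ex_sg : ∀ d, ex (P.sg d) = ex d
  wf : WellFounded fun a b : D => ex a = a ∧ ex (P.al a) = b
  M : D → ℕ
  M_ex : ∀ e, ex e = e → M e = M (P.sg e) + M (P.sg (P.sg e))
  M_in : ∀ d, ex d ≠ d → ex (P.al d) = P.al d → M d = M (P.al d)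
  M_dg : ∀ d, ex d ≠ d → ex (P.al d) ≠ P.al d → M d = 1
  q : D → ℤ
  q_sg : ∀ d, ex d ≠ d → q (P.sg d) = q d + M d
  q_al : ∀ e, ex e = e → q (P.al e) = q (P.sg e)

namespace Placed

variable {D : Type} {P : PolygonGluing D} (F : Placed P)

/-- `d` is an exit dart -/
def IsE (d : D) : Prop := F.ex d = d

/-- `d` is a dart of the ribbon graph: its side is not crossed by the dual forest -/
def IsG (d : D) : Prop := ¬ F.IsE d ∧ ¬ F.IsE (P.al d)

/-- the exit dart of the parent triangle -/
def par (d : D) : D := F.ex (P.al (F.ex d))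

/-- two darts lie in the same face tree -/
def clS : Setoid D where
  r a b := ∃ n m : ℕ, F.par^[n] (F.ex a) = F.par^[m] (F.ex b)
  iseqv := {
    refl := fun a => ⟨0, 0, rfl⟩
    symm := by
      rintro a b ⟨n, m, h⟩
      exact ⟨m, n, h.symm⟩
    trans := by
      rintro a b c ⟨n, m, h⟩ ⟨n', m', h'⟩
      refine ⟨n' + n, m + m', ?_⟩
      rw [Function.iterate_add_apply, h, ← Function.iterate_add_apply, Nat.add_comm n' m,
        Function.iterate_add_apply, h', ← Function.iterate_add_apply] }

/-- the face trees -/
def Cl : Type := Quotient F.clS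

/-- the face tree of a dart -/
def cl (d : D) : F.Cl := Quotient.mk F.clS d

/-- the darts of the ribbon graph -/
def G : Type := {d : D // F.IsG d}

/-! ### Plane geometry -/

/-- the chord of the parabola from `(i, i ^ 2)` to `(l, l ^ 2)` -/
def ch (i l x : ℝ) : ℝ := x * (i + l) - i * l

/-- the piecewise linear function with the value `k ^ 2` at every integer `k` -/
noncomputable def pl (x : ℝ) : ℝ := ch ⌊x⌋ (⌊x⌋ + 1) x

/-- position of the point `(d, s, t)` of the triangle of `d`, first coordinate -/
noncomputable def px (d : D) (s t : ℝ) : ℝ :=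
  (1 - s) * (((F.q d : ℝ) + F.q (P.sg d) + F.q (P.sg (P.sg d))) / 3) +
    s * ((1 - t) * F.q d + t * F.q (P.sg d))

/-- position of the point `(d, s, t)` of the triangle of `d`, second coordinate -/
noncomputable def py (d : D) (s t : ℝ) : ℝ :=
  (1 - s) * (((F.q d : ℝ) ^ 2 + (F.q (P.sg d) : ℝ) ^ 2 + (F.q (P.sg (P.sg d)) : ℝ) ^ 2) / 3) +
    s * ((1 - t) * (F.q d : ℝ) ^ 2 + t * (F.q (P.sg d) : ℝ) ^ 2)

/-- position of the point `(d, s, t)` of the triangle of `d` -/
noncomputable def pos (x : D × unitInterval × unitInterval) : ℝ × ℝ :=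
  (F.px x.1 x.2.1 x.2.2, F.py x.1 x.2.1 x.2.2)

/-- the closed triangle with the exit dart `e`, placed in the plane -/
def T (e : D) : Set (ℝ × ℝ) :=
  {z | ch (F.q (P.sg e)) (F.q (P.sg (P.sg e))) z.1 ≤ z.2 ∧
    ch (F.q (P.sg (P.sg e))) (F.q e) z.1 ≤ z.2 ∧ z.2 ≤ ch (F.q (P.sg e)) (F.q e) z.1}

/-- the region above the parabola polygon and below the exit side of the triangle `e` -/
def Reg (e : D) : Set (ℝ × ℝ) :=
  {z | pl z.1 ≤ z.2 ∧ z.2 ≤ ch (F.q (P.sg e)) (F.q e) z.1}

/-- the triangle with the exit dart `a` is a descendant of the triangle with the exit dart `e` -/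
def Bel (e a : D) : Prop := ∃ n : ℕ, F.par^[n] a = e

/-- class of a point in the surface -/
def pt (P : PolygonGluing D) (x : D × unitInterval × unitInterval) : P.Surface := Quot.mk _ x

open Classical in
/-- the point of the surface at the position `z` in the triangle with the exit dart `e` -/
noncomputable def back (e : D) (z : ℝ × ℝ) : P.Surface :=
  if h : ∃ x : D × unitInterval × unitInterval, F.ex x.1 = e ∧ F.pos x = z then pt P h.choose
  else pt P (e, 0, 0)

open Classical in
/-- the point of the surface at the position `z` in the half plane of the face tree `c` -/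
noncomputable def psi (c : F.Cl) (z : ℝ × ℝ) : P.Surface :=
  if h : ∃ a : D, F.IsE a ∧ F.cl a = c ∧ z ∈ F.T a then F.back h.choose z
  else pt P (Quotient.out c, 0, 0)

end Placed

/-! ### Half planes glued along intervals -/

/-- The gluing relation: the interval `[k, k + 1]` of the boundary of the half plane `c` is glued
with the one of `al g`, where `(c, k) = j g`. -/
inductive HRel {G C : Type} (j : G ≃ C × ℤ) (al : G → G) : C × ℝ × NNReal → C × ℝ × NNReal → Prop
  | glue (g : G) (t : unitInterval) :
      HRel j al ((j g).1, ((j g).2 : ℝ) + t, 0) ((j (al g)).1, ((j (al g)).2 : ℝ) + (1 - t), 0)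

/-- The surface glued from the half planes `{c} × ℝ × [0, ∞)`. -/
def HPS {G C : Type} (j : G ≃ C × ℤ) (al : G → G) : Type := Quot (HRel j al)

/-- The quotient topology (`C` discrete). -/
instance {G C : Type} (j : G ≃ C × ℤ) (al : G → G) : TopologicalSpace (HPS j al) :=
  @instTopologicalSpaceQuot (C × ℝ × NNReal) (HRel j al)
    (@instTopologicalSpaceProd C (ℝ × NNReal) ⊥ inferInstance)

end Pool.Agent.AllSurf
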