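import Pool.Agent.Lib.MP_7f477e_gt.SDefs

/-!
# MP_7f477e_gt, part S: the coordinate change of the rays
-/

set_option autoImplicit false

open Set Topology

namespace Pool.Agent.AllSurf

/-- `v ↦ v / (1 + v)` -/
noncomputable def uOf (v : NNReal) : U01 :=
  ⟨(v : ℝ) / (1 + v), by
    have h := v.2
    constructor
    · positivity
    · rw [div_lt_one (by positivity)]; linarith⟩

/-- `u ↦ u / (1 - u)` -/
noncomputable def vOf (u : U01) : NNReal :=
  ⟨(u : ℝ) / (1 - u), div_nonneg u.2.1 (by have := u.2.2; linarith)⟩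

theorem uOf_zero : uOf 0 = u0 := by
  apply Subtype.ext
  simp [uOf, u0]

theorem vOf_zero : vOf u0 = 0 := by
  apply NNReal.eq
  show ((0 : ℝ) / (1 - 0)) = 0
  simp

theorem uOf_vOf (u : U01) : uOf (vOf u) = u := by
  apply Subtype.ext
  have h1 := u.2.2
  have h2 : (1 : ℝ) - u ≠ 0 := by linarith
  show ((u : ℝ) / (1 - u)) / (1 + (u : ℝ) / (1 - u)) = u
  field_simp
  ring

theorem vOf_uOf (v : NNReal) : vOf (uOf v) = v := by
  apply NNReal.eq
  have h1 : (0 : ℝ) ≤ v := v.2
  have h2 : (1 : ℝ) + v ≠ 0 := by positivity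
  show ((v : ℝ) / (1 + v)) / (1 - (v : ℝ) / (1 + v)) = v
  field_simp
  ring

theorem uOf_cont : Continuous uOf := by
  apply Continuous.subtype_mk
  refine Continuous.div (by fun_prop) (by fun_prop) ?_
  intro v
  have := v.2
  positivity

theorem vOf_cont : Continuous vOf := by
  apply Continuous.subtype_mk
  refine Continuous.div (by fun_prop) (by fun_prop) ?_
  intro u
  have := u.2.2
  linarith

/-- class of a point of a half strip -/
def RibbonGraph.pt {D : Type} (R : RibbonGraph D) (d : D) (b : Bool) (s : unitInterval)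
    (u : U01) : R.Surface := Quot.mk _ (d, b, s, u)

/-- class of a point of a half plane -/
def hpt {G C : Type} (j : G ≃ C × ℤ) (al : G → G) (c : C) (x : ℝ) (v : NNReal) : HPS j al :=
  Quot.mk _ (c, x, v)

end Pool.Agent.AllSurf
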