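import Mathlib

/-!
# MP_7f477e_gt: definitions of the final statement

Hyperbolic foliations of codimension one, leaves, minimality, completeness, and surfaces glued
from polygons.
-/

set_option autoImplicit false

open Set Topology UpperHalfPlane
open scoped MatrixGroups

namespace Pool.Agent.AllSurf

/-- A hyperbolic codimension one foliation of `M`, given by an atlas of foliated charts.
A chart is a homeomorphism from an open subset of `M` onto (open disc of the hyperbolic plane)
times (open interval); its *plaques* are the sets on which the second coordinate is constant.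
In the overlap of two charts `f`, `g` plaques go to plaques by orientation preserving isometries of
the hyperbolic plane: `g y = (k_s • z, t (s))` for `f y = (z, s)`, where `k_s` is in `SL(2, ℝ)`, which
acts on the upper half plane `ℍ` by Moebius transformations. So the leaves (unions of chains of
plaques) are oriented surfaces with a Riemannian metric of curvature `-1`, given in the charts by the
metric of `ℍ`; this metric is continuous on `M` (in a chart it does not depend on the point of the
transversal). Nothing but continuity is required in the transverse direction. -/
structure HypFoliation (M : Type) [TopologicalSpace M] where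
  /-- the foliated charts -/
  charts : Set (OpenPartialHomeomorph M (ℍ × ℝ))
  product : ∀ f ∈ charts, ∃ (c : ℍ) (r a b : ℝ), f.target = Metric.ball c r ×ˢ Set.Ioo a b
  cover : ∀ x : M, ∃ f ∈ charts, x ∈ f.source
  compat : ∀ f ∈ charts, ∀ g ∈ charts, ∀ x : M, x ∈ f.source → x ∈ g.source →
    ∃ (k : ℝ → SL(2, ℝ)) (t : ℝ → ℝ), ∀ᶠ y in 𝓝 x, g y = (k (f y).2 • (f y).1, t (f y).2)

namespace HypFoliation

variable {M : Type} [TopologicalSpace M] (F : HypFoliation M)

/-- `x` and `y` lie in one plaque. -/
def SamePlaque (x y : M) : Prop :=
  ∃ f ∈ F.charts, x ∈ f.source ∧ y ∈ f.source ∧ (f x).2 = (f y).2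

/-- `x` and `y` lie in one leaf: they are joined by a chain of plaques. -/
def LeafRel (x y : M) : Prop := Relation.EqvGen F.SamePlaque x y

/-- The leaf of `x`, as a subset of `M`. -/
def leafSet (x : M) : Set M := {y | F.LeafRel x y}

/-- The leaf topology on `M`: it is generated by the open subsets of plaques. -/
@[reducible] def leafTop : TopologicalSpace M :=
  TopologicalSpace.generateFrom
    {P | ∃ f ∈ F.charts, ∃ (s : ℝ) (V : Set ℍ), IsOpen V ∧
      P = {y | y ∈ f.source ∧ (f y).2 = s ∧ (f y).1 ∈ V}}

/-- The leaf of `x`, as a type; it carries the leaf topology. -/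
def Leaf (x : M) : Type := {y : M // F.LeafRel x y}

instance (x : M) : TopologicalSpace (F.Leaf x) :=
  TopologicalSpace.induced (fun y : F.Leaf x => y.1) F.leafTop

/-- Every leaf is dense. -/
def Minimal : Prop := ∀ x : M, Dense (F.leafSet x)

/-- The leafwise metric is complete: every leaf is the image of a local isometry defined on the
whole hyperbolic plane. -/
def Complete : Prop :=
  ∀ x : M, ∃ p : ℍ → M, x ∈ Set.range p ∧
    ∀ z : ℍ, ∀ f ∈ F.charts, p z ∈ f.source →
      ∃ k : SL(2, ℝ), ∀ᶠ w in 𝓝 z, p w ∈ f.source ∧ f (p w) = (k • w, (f (p z)).2)

end HypFoliation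

/-- A gluing pattern for polygons. `D` is the set of all sides of all polygons, `sg d` is the side
after `d` on its polygon (counterclockwise), and the side `d` is glued to the side `al d`,
reversing the direction (so that the resulting surface is orientable). Every polygon has finitely
many sides, every vertex has finitely many corners and the result is connected. -/
structure PolygonGluing (D : Type) where
  sg : Equiv.Perm D
  al : Equiv.Perm D
  al_al : ∀ d, al (al d) = d
  al_ne : ∀ d, al d ≠ d
  face_finite : ∀ d, ∃ n : ℕ, 0 < n ∧ (sg ^ n) d = d
  vertex_finite : ∀ d, ∃ n : ℕ, 0 < n ∧ ((sg * al) ^ n) d = d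
  connected : ∀ d e, ∃ g ∈ Subgroup.closure {sg, al}, g d = e

namespace PolygonGluing

variable {D : Type} (P : PolygonGluing D)

/-- The relation which glues the triangles `(d, s, t)`: `s = 0` is the centre of the polygon of
`d`, `s = 1` its side `d`, and `t` is the position along the side `d`. -/
inductive Rel : D × unitInterval × unitInterval → D × unitInterval × unitInterval → Prop
  | centre (d : D) (t t' : unitInterval) : Rel (d, 0, t) (d, 0, t')
  | next (d : D) (s : unitInterval) : Rel (d, s, 1) (P.sg d, s, 0)
  | glue (d : D) (t : unitInterval) : Rel (d, 1, t) (P.al d, 1, unitInterval.symm t)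

/-- The surface obtained from the polygons: the quotient of the disjoint union of the triangles
by the gluing relation. -/
def Surface : Type := Quot P.Rel

/-- The quotient topology, where the set `D` of sides is discrete. -/
instance : TopologicalSpace P.Surface :=
  @instTopologicalSpaceQuot (D × unitInterval × unitInterval) P.Rel
    (@instTopologicalSpaceProd D (unitInterval × unitInterval) ⊥ inferInstance)

end PolygonGluing

/-- `M` is a closed 3-manifold (compact, connected, Hausdorff, second countable, locally
homeomorphic to `ℝ³`). -/
def ClosedThreeManifold (M : Type) [TopologicalSpace M] : Prop :=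
  CompactSpace M ∧ ConnectedSpace M ∧ T2Space M ∧ SecondCountableTopology M ∧
    ∀ x : M, ∃ e : OpenPartialHomeomorph M (EuclideanSpace ℝ (Fin 3)), x ∈ e.source

/-- The final statement: there are a closed 3-manifold and a minimal hyperbolic codimension one
foliation of it in which every connected noncompact surface glued from polygons is a leaf. -/
def MainStmt : Prop :=
  ∃ (M : Type) (_ : TopologicalSpace M), ClosedThreeManifold M ∧
    ∃ F : HypFoliation M, F.Complete ∧ F.Minimal ∧
      ∀ (D : Type) (P : PolygonGluing D), Infinite D →
        ∃ x : M, Nonempty (F.Leaf x ≃ₜ P.Surface)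

end Pool.Agent.AllSurf
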