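import Pool.Agent.Lib.MP_7f477e_gt.TDefs

/-!
# T01: every ribbon graph has a spanning tree

Vertices are the classes of `R.nu.SameCycle` (all cycles are finite: `vertex_finite`). Fix a dart `r`.
`reach 0 d` iff `R.nu.SameCycle r d`, `reach (n+1) d` iff there is `e` in the cycle of `d` with
`reach n (R.al e)`. Every dart is reached (`connected`, induction on the closure; inverses: `R.al⁻¹ = R.al`, `R.nu⁻¹`
stays in the cycle). `lev d` = least `n` with `reach n d` (`Nat.find`); constant on cycles; if `lev d = n + 1` there is `e` in the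
cycle of `d` with `lev (R.al e) = n` exactly. Choose a representative of each cycle (`Quotient.out` of the setoid
`SameCycle`) and for it such an `e`: `fst d` = this `e` (level > 0), `fst d = r` (level 0). Period `m d` = minimal period of `R.nu` at `d`
(`Function.minimalPeriod`, positive; constant on cycles). `nn d = m d - 1` (level > 0), `= m d` (level 0). `k0 d` = the `k < m d` with
`(R.nu ^ k) (fst d) = d`; `idx d = k0 d` (level > 0), `k0 d + 1` (level 0). `lev_fin`: induction; the darts of level `n+1` are in the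
cycles of the `R.al e`, `lev e = n`, and cycles are finite.
-/

set_option autoImplicit false

namespace Pool.Agent.AllSurf

section T01

variable {D : Type} (R : Ribbon D)

/-- reached in `n` steps from `r` -/
def t01Reach (r : D) : ℕ → D → Prop
  | 0, d => R.nu.SameCycle r d
  | n + 1, d => ∃ e, R.nu.SameCycle e d ∧ t01Reach r n (R.al e)

theorem t01_reach_congr {r : D} {n : ℕ} {d d' : D} (h : R.nu.SameCycle d d')
    (hd : t01Reach R r n d) : t01Reach R r n d' := by
  cases n with
  | zero => exact Equiv.Perm.SameCycle.trans hd h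
  | succ n =>
    obtain ⟨e, he, he'⟩ := hd
    exact ⟨e, he.trans h, he'⟩

theorem t01_sameCycle_nu (d : D) : R.nu.SameCycle d (R.nu d) := ⟨1, by simp⟩

theorem t01_reach_all (r d : D) : ∃ n, t01Reach R r n d := by
  have key : ∀ g ∈ Subgroup.closure {R.nu, R.al}, ∀ d : D,
      (∃ n, t01Reach R r n d) ↔ ∃ n, t01Reach R r n (g d) := by
    intro g hg
    induction hg using Subgroup.closure_induction with
    | mem x hx =>
      intro d
      rcases hx with rfl | hx
      · constructor
        · rintro ⟨n, hn⟩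
          exact ⟨n, t01_reach_congr R (t01_sameCycle_nu R d) hn⟩
        · rintro ⟨n, hn⟩
          exact ⟨n, t01_reach_congr R (t01_sameCycle_nu R d).symm hn⟩
      · have hx' : x = R.al := hx
        subst hx'
        constructor
        · rintro ⟨n, hn⟩
          refine ⟨n + 1, R.al d, Equiv.Perm.SameCycle.refl _ _, ?_⟩
          rw [R.al_al]
          exact hn
        · rintro ⟨n, hn⟩
          exact ⟨n + 1, d, Equiv.Perm.SameCycle.refl _ _, hn⟩
    | one => intro d; rfl
    | mul x y _ _ hx hy =>
      intro d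
      rw [hy d, hx (y d)]
      rfl
    | inv x _ hx =>
      intro d
      rw [hx (x⁻¹ d)]
      have h1 : x (x⁻¹ d) = d := x.apply_symm_apply d
      rw [h1]
  obtain ⟨g, hg, hgd⟩ := R.connected r d
  rw [← hgd]
  exact (key g hg r).1 ⟨0, Equiv.Perm.SameCycle.refl _ _⟩

open Classical in
/-- the level -/
noncomputable def t01Lev (r d : D) : ℕ := Nat.find (t01_reach_all R r d)

theorem t01_lev_spec (r d : D) : t01Reach R r (t01Lev R r d) d := by
  classical
  exact Nat.find_spec (t01_reach_all R r d)

theorem t01_lev_le {r d : D} {n : ℕ} (h : t01Reach R r n d) : t01Lev R r d ≤ n := by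
  classical
  exact Nat.find_min' (t01_reach_all R r d) h

theorem t01_lev_congr {r d d' : D} (h : R.nu.SameCycle d d') : t01Lev R r d = t01Lev R r d' :=
  le_antisymm (t01_lev_le R (t01_reach_congr R h.symm (t01_lev_spec R r d')))
    (t01_lev_le R (t01_reach_congr R h (t01_lev_spec R r d)))

theorem t01_lev_zero {r d : D} (h : t01Lev R r d = 0) : R.nu.SameCycle r d := by
  have := t01_lev_spec R r d
  rw [h] at this
  exact this

theorem t01_parent {r d : D} (h : t01Lev R r d ≠ 0) :
    ∃ e, R.nu.SameCycle e d ∧ t01Lev R r (R.al e) + 1 = t01Lev R r d := by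
  obtain ⟨n, hn⟩ := Nat.exists_eq_succ_of_ne_zero h
  have h1 := t01_lev_spec R r d
  rw [hn] at h1
  obtain ⟨e, he, he'⟩ := h1
  refine ⟨e, he, ?_⟩
  have h2 := t01_lev_le R he'
  have h3 : t01Reach R r (t01Lev R r (R.al e) + 1) d := ⟨e, he, t01_lev_spec R r _⟩
  have h4 := t01_lev_le R h3
  omega

/-- representative of a cycle -/
noncomputable def t01Rep (d : D) : D :=
  Quotient.out (Quotient.mk (Equiv.Perm.SameCycle.setoid R.nu) d)

theorem t01_rep (d : D) : R.nu.SameCycle (t01Rep R d) d :=
  Quotient.mk_out (s := Equiv.Perm.SameCycle.setoid R.nu) d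

theorem t01_rep_congr {d d' : D} (h : R.nu.SameCycle d d') : t01Rep R d = t01Rep R d' := by
  unfold t01Rep
  have : Quotient.mk (Equiv.Perm.SameCycle.setoid R.nu) d =
      Quotient.mk (Equiv.Perm.SameCycle.setoid R.nu) d' := Quotient.sound h
  rw [this]

theorem t01_exists_F (r : D) : ∃ F : D → D, ∀ x, (t01Lev R r x = 0 → F x = r) ∧
    (t01Lev R r x ≠ 0 → R.nu.SameCycle (F x) x ∧ t01Lev R r (R.al (F x)) + 1 = t01Lev R r x) := by
  have h : ∀ x, ∃ e, (t01Lev R r x = 0 → e = r) ∧
      (t01Lev R r x ≠ 0 → R.nu.SameCycle e x ∧ t01Lev R r (R.al e) + 1 = t01Lev R r x) := by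
    intro x
    by_cases hx : t01Lev R r x = 0
    · exact ⟨r, fun _ => rfl, fun h => absurd hx h⟩
    · obtain ⟨e, he⟩ := t01_parent R hx
      exact ⟨e, fun h => absurd h hx, fun _ => he⟩
  choose F hF using h
  exact ⟨F, hF⟩

/-- first dart -/
noncomputable def t01Fst (r d : D) : D := (t01_exists_F R r).choose (t01Rep R d)

theorem t01_fst_congr {r d d' : D} (h : R.nu.SameCycle d d') : t01Fst R r d = t01Fst R r d' := by
  unfold t01Fst
  rw [t01_rep_congr R h]

theorem t01_fst_zero {r d : D} (h : t01Lev R r d = 0) : t01Fst R r d = r := by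
  have h1 := (t01_exists_F R r).choose_spec (t01Rep R d)
  rw [t01_lev_congr R (t01_rep R d)] at h1
  exact h1.1 h

theorem t01_fst_pos {r d : D} (h : t01Lev R r d ≠ 0) :
    t01Lev R r (R.al (t01Fst R r d)) + 1 = t01Lev R r d := by
  have h1 := (t01_exists_F R r).choose_spec (t01Rep R d)
  rw [t01_lev_congr R (t01_rep R d)] at h1
  exact (h1.2 h).2

theorem t01_fst_same (r d : D) : R.nu.SameCycle (t01Fst R r d) d := by
  by_cases h : t01Lev R r d = 0
  · rw [t01_fst_zero R h]
    exact t01_lev_zero R h
  · have h1 := (t01_exists_F R r).choose_spec (t01Rep R d)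
    rw [t01_lev_congr R (t01_rep R d)] at h1
    exact (h1.2 h).1.trans (t01_rep R d)

theorem t01_fst_fst (r d : D) : t01Fst R r (t01Fst R r d) = t01Fst R r d :=
  t01_fst_congr R (t01_fst_same R r d)

theorem t01_lev_fst (r d : D) : t01Lev R r (t01Fst R r d) = t01Lev R r d :=
  t01_lev_congr R (t01_fst_same R r d)

/-- the period -/
noncomputable def t01M (r d : D) : ℕ := Function.minimalPeriod R.nu (t01Fst R r d)

theorem t01_period_pos (x : D) : 0 < Function.minimalPeriod R.nu x := by
  obtain ⟨n, hn, h⟩ := R.vertex_finite x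
  refine Function.IsPeriodicPt.minimalPeriod_pos hn ?_
  change (R.nu)^[n] x = x
  rw [Equiv.Perm.iterate_eq_pow]
  exact h

theorem t01_pow_of_same {x d : D} (h : R.nu.SameCycle x d) :
    ∃ k, k < Function.minimalPeriod R.nu x ∧ (R.nu)^[k] x = d := by
  obtain ⟨i, hi⟩ := h
  set m := Function.minimalPeriod R.nu x with hm
  have hm0 : 0 < m := t01_period_pos R x
  have hmx : (R.nu ^ m) x = x := by
    rw [← Equiv.Perm.iterate_eq_pow]
    exact Function.iterate_minimalPeriod
  have h1 : 0 ≤ i % m := Int.emod_nonneg _ (by omega)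
  have h2 : i % m < m := Int.emod_lt_of_pos _ (by omega)
  refine ⟨(i % m).toNat, by omega, ?_⟩
  rw [Equiv.Perm.iterate_eq_pow, ← hi]
  have h3 : ((R.nu ^ m) ^ (i / m)) x = x :=
    Equiv.Perm.zpow_apply_eq_self_of_apply_eq_self hmx _
  have h4 : R.nu ^ i = R.nu ^ (i % m) * (R.nu ^ m) ^ (i / (m : ℤ)) := by
    rw [← zpow_natCast R.nu m, ← zpow_mul, ← zpow_add]
    congr 1
    exact (Int.emod_add_mul_ediv i m).symm
  rw [h4, Equiv.Perm.mul_apply, h3]
  have h5 : R.nu ^ (i % (m : ℤ)) = R.nu ^ ((i % (m : ℤ)).toNat) := by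
    rw [← zpow_natCast, Int.toNat_of_nonneg h1]
  rw [h5]

/-- the position -/
noncomputable def t01K (r d : D) : ℕ := (t01_pow_of_same R (t01_fst_same R r d)).choose

theorem t01_K_lt (r d : D) : t01K R r d < t01M R r d :=
  (t01_pow_of_same R (t01_fst_same R r d)).choose_spec.1

theorem t01_K_eq (r d : D) : (R.nu)^[t01K R r d] (t01Fst R r d) = d :=
  (t01_pow_of_same R (t01_fst_same R r d)).choose_spec.2

theorem t01_K_unique {r d : D} {k : ℕ} (hk : k < t01M R r d)
    (h : (R.nu)^[k] (t01Fst R r d) = d) : t01K R r d = k := by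
  have h1 := Function.iterate_injOn_Iio_minimalPeriod (f := R.nu) (x := t01Fst R r d)
  refine h1 (t01_K_lt R r d) hk ?_
  change (R.nu)^[t01K R r d] (t01Fst R r d) = (R.nu)^[k] (t01Fst R r d)
  rw [t01_K_eq, h]

theorem t01_same_iterate (x : D) (k : ℕ) : R.nu.SameCycle x ((R.nu)^[k] x) :=
  ⟨k, by rw [Equiv.Perm.iterate_eq_pow, zpow_natCast]⟩

theorem t01_K_iterate {r d : D} {k : ℕ} (hk : k < t01M R r d) :
    t01Fst R r ((R.nu)^[k] (t01Fst R r d)) = t01Fst R r d ∧
      t01K R r ((R.nu)^[k] (t01Fst R r d)) = k := by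
  have h1 : t01Fst R r ((R.nu)^[k] (t01Fst R r d)) = t01Fst R r d := by
    rw [← t01_fst_congr R (t01_same_iterate R (t01Fst R r d) k), t01_fst_fst]
  refine ⟨h1, t01_K_unique R ?_ ?_⟩
  · unfold t01M at hk ⊢
    rw [h1]
    exact hk
  · rw [h1]

theorem t01_cycle_finite (x : D) : {d | R.nu.SameCycle x d}.Finite := by
  refine ((Set.finite_Iio (Function.minimalPeriod R.nu x)).image (fun k => (R.nu)^[k] x)).subset ?_
  intro d hd
  obtain ⟨k, hk, hk'⟩ := t01_pow_of_same R hd
  exact ⟨k, hk, hk'⟩

theorem t01_lev_fin (r : D) (n : ℕ) : {d | t01Lev R r d = n}.Finite := by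
  induction n with
  | zero =>
    refine (t01_cycle_finite R r).subset ?_
    intro d hd
    exact t01_lev_zero R hd
  | succ n ih =>
    refine (ih.biUnion (fun e _ => t01_cycle_finite R (R.al e))).subset ?_
    intro d hd
    have hd' : t01Lev R r d = n + 1 := hd
    obtain ⟨e, he, he'⟩ := t01_parent R (r := r) (d := d) (by omega)
    refine Set.mem_biUnion (show t01Lev R r (R.al e) = n by omega) ?_
    change R.nu.SameCycle (R.al (R.al e)) d
    rw [R.al_al]
    exact he

end T01

theorem exists_tree {D : Type} (R : Ribbon D) (hD : Nonempty D) : Nonempty (RTree R) := by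
  classical
  obtain ⟨r⟩ := hD
  have hK0 : ∀ d, t01K R r (t01Fst R r d) = 0 := by
    intro d
    refine t01_K_unique R (t01_period_pos R _) ?_
    change t01Fst R r (t01Fst R r d) = t01Fst R r d
    exact t01_fst_fst R r d
  have hMf : ∀ {d e}, t01Fst R r d = t01Fst R r e → t01M R r d = t01M R r e := by
    intro d e h
    unfold t01M
    rw [h]
  have hLf : ∀ {d e}, t01Fst R r d = t01Fst R r e → t01Lev R r d = t01Lev R r e := by
    intro d e h
    rw [← t01_lev_fst R r d, h, t01_lev_fst]
  have hfnu : ∀ d, t01Fst R r (R.nu d) = t01Fst R r d := fun d =>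
    (t01_fst_congr R (t01_sameCycle_nu R d)).symm
  have hKnu : ∀ d, t01K R r (R.nu d) =
      if t01K R r d + 1 < t01M R r d then t01K R r d + 1 else 0 := by
    intro d
    have h0 : (R.nu)^[t01K R r d + 1] (t01Fst R r d) = R.nu d := by
      rw [Function.iterate_succ_apply', t01_K_eq]
    split_ifs with h
    · refine t01_K_unique R ?_ ?_
      · rw [hMf (hfnu d)]
        exact h
      · rw [hfnu]
        exact h0
    · have h1 : t01K R r d + 1 = t01M R r d := by
        have := t01_K_lt R r d
        omega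
      refine t01_K_unique R (t01_period_pos R _) ?_
      rw [hfnu]
      rw [h1] at h0
      rw [← h0]
      exact (Function.iterate_minimalPeriod (f := R.nu) (x := t01Fst R r d)).symm
  refine ⟨{
    lev := t01Lev R r
    nn := fun d => if t01Lev R r d = 0 then t01M R r d else t01M R r d - 1
    idx := fun d => if t01Lev R r d = 0 then t01K R r d + 1 else t01K R r d
    fst := t01Fst R r
    lev_nu := fun d => hLf (hfnu d)
    nn_nu := ?_
    fst_nu := hfnu
    lev_fst := t01_lev_fst R r
    nn_fst := ?_
    fst_fst := t01_fst_fst R r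
    idx_fst := ?_
    idx_le := ?_
    idx_root := ?_
    idx_nu := ?_
    inj := ?_
    exists_idx := ?_
    root := ?_
    exists_root := ?_
    tree := ?_
    lev_fin := t01_lev_fin R r }⟩
  · intro d
    simp only [hLf (hfnu d), hMf (hfnu d)]
  · intro d
    simp only [hLf (t01_fst_fst R r d), hMf (t01_fst_fst R r d)]
  · intro d
    simp only [hK0, t01_lev_fst]
  · intro d
    have h1 := t01_K_lt R r d
    split_ifs <;> omega
  · intro d hd
    simp only [hd, if_true]
    omega
  · intro d
    have h1 := t01_K_lt R r d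
    simp only [hLf (hfnu d), hKnu d]
    split_ifs <;> omega
  · intro d e h1 h2
    have h3 := hLf h1
    have h4 : t01K R r d = t01K R r e := by
      simp only [h3] at h2
      split_ifs at h2 <;> omega
    rw [← t01_K_eq R r d, ← t01_K_eq R r e, h4, h1]
  · intro d k h1 h2
    by_cases hd : t01Lev R r d = 0
    · have hk := h2 hd
      rw [if_pos hd] at h1
      have h3 : k - 1 < t01M R r d := by
        have := t01_K_lt R r d
        omega
      obtain ⟨h4, h5⟩ := t01_K_iterate R h3
      refine ⟨(R.nu)^[k - 1] (t01Fst R r d), h4, ?_⟩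
      simp only [hLf h4, h5, hd, if_true]
      omega
    · rw [if_neg hd] at h1
      have h3 : k < t01M R r d := by
        have := t01_K_lt R r d
        omega
      obtain ⟨h4, h5⟩ := t01_K_iterate R h3
      refine ⟨(R.nu)^[k] (t01Fst R r d), h4, ?_⟩
      simp only [hLf h4, h5, hd, if_false]
  · intro d e hd he
    exact t01_fst_congr R ((t01_lev_zero R hd).symm.trans (t01_lev_zero R he))
  · refine ⟨r, ?_⟩
    have : t01Lev R r r ≤ 0 := t01_lev_le R (Equiv.Perm.SameCycle.refl R.nu r)
    omega
  · intro d hd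
    by_cases h0 : t01Lev R r d = 0
    · rw [if_pos h0] at hd
      omega
    · rw [if_neg h0] at hd
      have h1 := t01_K_eq R r d
      rw [hd] at h1
      have h2 : t01Fst R r d = d := h1
      have h3 := t01_fst_pos R h0
      rw [h2] at h3
      exact h3

end Pool.Agent.AllSurf
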