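import Pool.Agent.Lib.MP_7f477e_gt.TDefs

/-!
# T02: first consequences for spanning trees

`al_idx`: otherwise `tree` for `d` and for `R.al d` (`al_al`) gives `lev (al d) + 1 = lev d` and `lev d + 1 = lev (al d)`.
`eqv_lift`: induction on `Relation.EqvGen` (general statement for all `d`); a generator `edge k` lifts with `d' = d`, a generator
`corner k` from `(d, true)` goes to `R.nu d` (`idx_nxt`, `fst_nu`), in the other direction use `exists_idx` for the index `k` and
`inj`; in the transitive case the intermediate index must be valid: note that both sides of a generator are valid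
(`Val`), and chains that start at a valid point stay valid or are trivial.
-/

set_option autoImplicit false

namespace Pool.Agent.AllSurf

theorem nxt_val {N : ℕ} {root : Bool} {k : ℕ} (hk : Val N root k) : Val N root (nxt N root k) := by
  unfold Val nxt at *
  split_ifs with h1 h2
  · exact ⟨h1, fun _ => Nat.succ_le_succ (Nat.zero_le _)⟩
  · exact ⟨(hk.2 h2).trans hk.1, fun _ => le_rfl⟩
  · exact ⟨Nat.zero_le _, fun h => absurd h h2⟩

namespace RTree

variable {D : Type} {R : Ribbon D} (T : RTree R)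

theorem al_idx {d : D} (h : T.idx d = 0) : 1 ≤ T.idx (R.al d) := by
  by_contra h1
  have h2 : T.idx (R.al d) = 0 := by omega
  have h3 := T.tree d h
  have h4 := T.tree (R.al d) h2
  rw [R.al_al] at h4
  omega

theorem rt_iff (d : D) : T.rt d = true ↔ T.lev d = 0 := by
  unfold rt
  exact decide_eq_true_iff

theorem val (d : D) : Val (T.nn d) (T.rt d) (T.idx d) :=
  ⟨T.idx_le d, fun h => T.idx_root d ((T.rt_iff d).1 h)⟩

theorem idx_nxt (d : D) : T.idx (R.nu d) = nxt (T.nn d) (T.rt d) (T.idx d) := by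
  rw [T.idx_nu]
  unfold nxt
  by_cases h : T.lev d = 0
  · rw [if_pos h, if_pos ((T.rt_iff d).2 h)]
  · rw [if_neg h, if_neg (fun h1 => h ((T.rt_iff d).1 h1))]

theorem lev_eq {d e : D} (h : T.fst d = T.fst e) : T.lev d = T.lev e := by
  rw [← T.lev_fst d, h, T.lev_fst]

theorem nn_eq {d e : D} (h : T.fst d = T.fst e) : T.nn d = T.nn e := by
  rw [← T.nn_fst d, h, T.nn_fst]

theorem rt_eq {d e : D} (h : T.fst d = T.fst e) : T.rt d = T.rt e := by
  unfold rt
  rw [T.lev_eq h]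

theorem idx_fst_zero {d : D} (h : 0 < T.lev d) : T.idx (T.fst d) = 0 := by
  rw [T.idx_fst, if_neg (by omega)]

theorem lev_parent {d : D} (h : 0 < T.lev d) : T.lev (R.al (T.fst d)) + 1 = T.lev d := by
  rw [T.tree _ (T.idx_fst_zero h), T.lev_fst]

theorem idx_parent {d : D} (h : 0 < T.lev d) : 1 ≤ T.idx (R.al (T.fst d)) :=
  T.al_idx (T.idx_fst_zero h)

theorem root_nn {d : D} (h : T.lev d = 0) : 1 ≤ T.nn d :=
  (T.idx_root d h).trans (T.idx_le d)

/-- the dart with index `0` is `fst d` -/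
theorem eq_fst {d : D} (h : T.idx d = 0) : d = T.fst d := by
  apply T.inj
  · rw [T.fst_fst]
  · have h1 := T.tree d h
    rw [h, T.idx_fst_zero (by omega)]

/-- a slot which is not a leg is a tree dart, the child is at `R.al d` -/
theorem not_leg {d : D} (h : 1 ≤ T.idx d) (h' : ¬ T.Leg d) :
    T.idx (R.al d) = 0 ∧ T.lev (R.al d) = T.lev d + 1 ∧ T.fst (R.al d) = R.al d := by
  have h1 : T.idx (R.al d) = 0 := by
    by_contra h2
    exact h' ⟨h, by omega⟩
  have h2 := T.tree (R.al d) h1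
  rw [R.al_al] at h2
  exact ⟨h1, h2.symm, (T.eq_fst h1).symm⟩

theorem leg_al {d : D} (h : T.Leg d) : T.Leg (R.al d) := by
  refine ⟨h.2, ?_⟩
  rw [R.al_al]
  exact h.1

theorem t02_step (d0 : D) {a b : ℕ × Bool × Strip} (h : LR (T.nn d0) (T.rt d0) a b) :
    (∀ d, T.fst d = T.fst d0 → T.idx d = a.1 → ∃ d', T.fst d' = T.fst d0 ∧ T.idx d' = b.1 ∧
      Relation.EqvGen R.Rel (d, a.2.1, a.2.2) (d', b.2.1, b.2.2)) ∧
    (∀ d, T.fst d = T.fst d0 → T.idx d = b.1 → ∃ d', T.fst d' = T.fst d0 ∧ T.idx d' = a.1 ∧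
      Relation.EqvGen R.Rel (d, b.2.1, b.2.2) (d', a.2.1, a.2.2)) := by
  cases h with
  | edge k hk s =>
    refine ⟨fun d h1 h2 => ⟨d, h1, h2, Relation.EqvGen.rel _ _ (Ribbon.Rel.edge d s)⟩,
      fun d h1 h2 => ⟨d, h1, h2, Relation.EqvGen.symm _ _ (Relation.EqvGen.rel _ _ (Ribbon.Rel.edge d s))⟩⟩
  | corner k hk u =>
    refine ⟨fun d h1 h2 => ⟨R.nu d, by rw [T.fst_nu, h1], ?_,
      Relation.EqvGen.rel _ _ (Ribbon.Rel.corner d u)⟩, fun d h1 h2 => ?_⟩
    · rw [T.idx_nxt, T.nn_eq h1, T.rt_eq h1, show T.idx d = k from h2]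
    · obtain ⟨d', h3, h4⟩ := T.exists_idx d0 k hk.1 (fun h => hk.2 ((T.rt_iff d0).2 h))
      refine ⟨d', h3, h4, ?_⟩
      have h5 : d = R.nu d' := by
        apply T.inj
        · rw [T.fst_nu, h1, h3]
        · rw [T.idx_nxt, T.nn_eq h3, T.rt_eq h3, h4]
          exact h2
      rw [h5]
      exact Relation.EqvGen.symm _ _ (Relation.EqvGen.rel _ _ (Ribbon.Rel.corner d' u))

/-- local gluings are gluings of the ribbon surface -/
theorem eqv_lift (d0 : D) {k k' : ℕ} {e e' : Bool} {p p' : Strip}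
    (h : Relation.EqvGen (LR (T.nn d0) (T.rt d0)) (k, e, p) (k', e', p')) (d : D)
    (hd : T.fst d = T.fst d0) (hk : T.idx d = k) :
    ∃ d', T.fst d' = T.fst d0 ∧ T.idx d' = k' ∧ Relation.EqvGen R.Rel (d, e, p) (d', e', p') := by
  have key : ∀ a b : ℕ × Bool × Strip, Relation.EqvGen (LR (T.nn d0) (T.rt d0)) a b →
      (∀ d, T.fst d = T.fst d0 → T.idx d = a.1 → ∃ d', T.fst d' = T.fst d0 ∧ T.idx d' = b.1 ∧
        Relation.EqvGen R.Rel (d, a.2.1, a.2.2) (d', b.2.1, b.2.2)) ∧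
      (∀ d, T.fst d = T.fst d0 → T.idx d = b.1 → ∃ d', T.fst d' = T.fst d0 ∧ T.idx d' = a.1 ∧
        Relation.EqvGen R.Rel (d, b.2.1, b.2.2) (d', a.2.1, a.2.2)) := by
    intro a b hab
    induction hab with
    | rel a b h => exact T.t02_step d0 h
    | refl a =>
      exact ⟨fun d h1 h2 => ⟨d, h1, h2, Relation.EqvGen.refl _⟩,
        fun d h1 h2 => ⟨d, h1, h2, Relation.EqvGen.refl _⟩⟩
    | symm a b _ ih => exact ⟨ih.2, ih.1⟩
    | trans a b c _ _ ih1 ih2 =>
      constructor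
      · intro d h1 h2
        obtain ⟨d', h3, h4, h5⟩ := ih1.1 d h1 h2
        obtain ⟨d'', h6, h7, h8⟩ := ih2.1 d' h3 h4
        exact ⟨d'', h6, h7, Relation.EqvGen.trans _ _ _ h5 h8⟩
      · intro d h1 h2
        obtain ⟨d', h3, h4, h5⟩ := ih2.2 d h1 h2
        obtain ⟨d'', h6, h7, h8⟩ := ih1.2 d' h3 h4
        exact ⟨d'', h6, h7, Relation.EqvGen.trans _ _ _ h5 h8⟩
  exact (key _ _ h).1 d hd hk

end RTree

end Pool.Agent.AllSurf
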