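import Pool.Agent.Lib.MP_7f477e_gt.T02

/-!
# T03: intervals of the vertices

`aa_child`: `T.lev d = n + 1`, `vIn (n+1) d = part (vIn n c) (idx c) (nn c)`, `c = R.al (fst d)`, `lev c = n` (`lev_parent`). `aa_lt`: induction on the
level. `slot_disj`: `hi d = a + (b-a) k/N <= a + (b-a) (k'-1)/N` as `k + 1 <= k'`.
-/

set_option autoImplicit false

namespace Pool.Agent.AllSurf

namespace RTree

variable {D : Type} {R : Ribbon D} (T : RTree R)

theorem aa_root {d : D} (h : T.lev d = 0) : T.aa d = 0 ∧ T.ab d = 1 := by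
  unfold aa ab
  rw [h]
  exact ⟨rfl, rfl⟩

theorem aa_child {d : D} (h : 0 < T.lev d) :
    T.aa d = T.lo (R.al (T.fst d)) ∧ T.ab d = T.hi (R.al (T.fst d)) := by
  have h1 := T.lev_parent h
  unfold lo hi
  have h2 : T.vIn (T.lev d) d = part (T.vIn (T.lev (R.al (T.fst d))) (R.al (T.fst d)))
      (T.idx (R.al (T.fst d))) (T.nn (R.al (T.fst d))) := by
    rw [← h1]
    rfl
  constructor
  · unfold aa ab
    rw [h2]
  · unfold aa ab
    rw [h2]

theorem t03_vIn {d e : D} (h : T.fst d = T.fst e) (n : ℕ) : T.vIn n d = T.vIn n e := by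
  cases n with
  | zero => rfl
  | succ n =>
    change part _ _ _ = part _ _ _
    rw [h]

theorem aa_eq {d e : D} (h : T.fst d = T.fst e) : T.aa d = T.aa e ∧ T.ab d = T.ab e := by
  unfold aa ab
  rw [T.lev_eq h, T.t03_vIn h]
  exact ⟨rfl, rfl⟩

/-- formulas for the parts -/
theorem lo_eq (d : D) : T.lo d = T.aa d + (T.ab d - T.aa d) * (((T.idx d : ℝ) - 1) / T.nn d) := rfl

theorem hi_eq (d : D) : T.hi d = T.aa d + (T.ab d - T.aa d) * ((T.idx d : ℝ) / T.nn d) := rfl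

theorem t03_lt {d : D} (hd : T.aa d < T.ab d) (h : 1 ≤ T.idx d) :
    T.aa d ≤ T.lo d ∧ T.lo d < T.hi d ∧ T.hi d ≤ T.ab d := by
  have h1 : (1 : ℝ) ≤ T.idx d := by exact_mod_cast h
  have h2 : (T.idx d : ℝ) ≤ T.nn d := by exact_mod_cast T.idx_le d
  have h3 : (0 : ℝ) < T.nn d := by linarith
  have h4 : 0 < T.ab d - T.aa d := by linarith
  rw [lo_eq, hi_eq]
  refine ⟨?_, ?_, ?_⟩
  · have : 0 ≤ ((T.idx d : ℝ) - 1) / T.nn d := div_nonneg (by linarith) h3.le
    nlinarith [mul_nonneg h4.le this]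
  · have : ((T.idx d : ℝ) - 1) / T.nn d < (T.idx d : ℝ) / T.nn d := by
      apply div_lt_div_of_pos_right _ h3
      linarith
    nlinarith [mul_lt_mul_of_pos_left this h4]
  · have : (T.idx d : ℝ) / T.nn d ≤ 1 := by
      rw [div_le_one h3]
      exact h2
    nlinarith [mul_le_mul_of_nonneg_left this h4.le]

theorem aa_lt (d : D) : 0 ≤ T.aa d ∧ T.aa d < T.ab d ∧ T.ab d ≤ 1 := by
  obtain ⟨n, hn⟩ : ∃ n, T.lev d = n := ⟨_, rfl⟩
  induction n generalizing d with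
  | zero =>
    obtain ⟨h1, h2⟩ := T.aa_root hn
    rw [h1, h2]
    exact ⟨le_rfl, one_pos, le_rfl⟩
  | succ n ih =>
    have h0 : 0 < T.lev d := by omega
    have h1 := T.lev_parent h0
    obtain ⟨h2, h3, h4⟩ := ih (R.al (T.fst d)) (by omega)
    obtain ⟨h5, h6, h7⟩ := T.t03_lt h3 (T.idx_parent h0)
    rw [(T.aa_child h0).1, (T.aa_child h0).2]
    exact ⟨h2.trans h5, h6, h7.trans h4⟩

theorem lo_lt {d : D} (h : 1 ≤ T.idx d) : T.aa d ≤ T.lo d ∧ T.lo d < T.hi d ∧ T.hi d ≤ T.ab d :=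
  T.t03_lt (T.aa_lt d).2.1 h

theorem slot_disj {d e : D} (h : T.fst d = T.fst e) (h1 : 1 ≤ T.idx d) (h2 : T.idx d < T.idx e) :
    T.hi d ≤ T.lo e := by
  obtain ⟨h3, h4⟩ := T.aa_eq h
  rw [hi_eq, lo_eq, ← h3, ← h4, ← T.nn_eq h]
  have h5 : (T.idx d : ℝ) + 1 ≤ T.idx e := by exact_mod_cast h2
  have h6 : (1 : ℝ) ≤ T.idx d := by exact_mod_cast h1
  have h7 : (T.idx d : ℝ) ≤ T.nn d := by exact_mod_cast T.idx_le d
  have h8 : (0 : ℝ) < T.nn d := by linarith
  have h9 : 0 < T.ab d - T.aa d := by linarith [(T.aa_lt d).2.1]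
  have h10 : (T.idx d : ℝ) / T.nn d ≤ ((T.idx e : ℝ) - 1) / T.nn d := by
    apply div_le_div_of_nonneg_right _ h8.le
    linarith
  nlinarith [mul_le_mul_of_nonneg_left h10 h9.le]

theorem sc_pos (d : D) : 0 < T.sc d := by
  unfold sc
  have := (T.aa_lt d).2.1
  have h : 0 < T.ab d - T.aa d := by linarith
  positivity

/-- the interval of the child at a slot which is not a leg -/
theorem aa_al {d : D} (h : 1 ≤ T.idx d) (h' : ¬ T.Leg d) :
    T.aa (R.al d) = T.lo d ∧ T.ab (R.al d) = T.hi d := by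
  obtain ⟨h1, h2, h3⟩ := T.not_leg h h'
  have h4 : 0 < T.lev (R.al d) := by omega
  have h5 := T.aa_child h4
  rw [h3, R.al_al] at h5
  exact h5

end RTree

end Pool.Agent.AllSurf
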