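import Pool.Agent.Lib.MP_7f477e_gt.T03

/-!
# T04: roofs and tents

`tri_continuous`: `|tri x - tri y| <= |x - y|` (`round_le`: `|x - round x| <= |x - z|` for integers `z`), or via the norm of `UnitAddCircle`.
`tri_slot`: for `k - 1 <= w <= k` the nearest integer is `k - 1` or `k`. `beta_slot`: `ξ = (x-a)/(b-a)`, `N ξ` is in `[k-1, k]` and
`(b-a) min (N ξ - (k-1)) (k - N ξ) / (2N) = (1/2) min (x - lo) (hi - x)`. `beta_lt_tau`: `N = 0`: `beta = 0 < tau`; `N >= 1`: `x` is in some closed part `k`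
(`k = ⌈N ξ⌉`), `min (x - lo) (hi - x) <= min (x - a) (b - x)` and the factor `1/2`.
-/

set_option autoImplicit false

namespace Pool.Agent.AllSurf

theorem tri_nonneg (w : ℝ) : 0 ≤ tri w := abs_nonneg _

theorem tri_continuous : Continuous tri := by
  have h : tri = fun w : ℝ => ‖(w : UnitAddCircle)‖ := by
    funext w
    rw [UnitAddCircle.norm_eq]
    rfl
  rw [h]
  exact continuous_norm.comp (AddCircle.continuous_mk' 1)

theorem tri_slot {w : ℝ} {k : ℕ} (h1 : (k : ℝ) - 1 ≤ w) (h2 : w ≤ k) :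
    tri w = min (w - (k - 1)) (k - w) := by
  unfold tri
  rw [abs_sub_round_eq_min]
  rcases h2.lt_or_eq with h2 | h2
  · have hf : Int.floor w = (k : ℤ) - 1 := by
      rw [Int.floor_eq_iff]
      push_cast
      constructor
      · linarith
      · linarith
    have hfr : Int.fract w = w - (k - 1) := by
      unfold Int.fract
      rw [hf]
      push_cast
      ring
    rw [hfr]
    congr 1
    ring
  · rw [h2, Int.fract_natCast]
    rw [min_eq_left (by norm_num), min_eq_right (by linarith)]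
    ring

theorem t04_tri_le_int (w : ℝ) (m : ℤ) : tri w ≤ |w - m| := round_le w m

theorem t04_tri_nat (k : ℕ) : tri (k : ℝ) = 0 := by
  unfold tri
  rw [round_natCast]
  simp

namespace RTree

variable {D : Type} {R : Ribbon D} (T : RTree R)

theorem t04_sc_eq {d e : D} (h : T.fst d = T.fst e) : T.sc d = T.sc e := by
  unfold sc
  rw [T.lev_eq h, (T.aa_eq h).1, (T.aa_eq h).2]

theorem beta_eq {d e : D} (h : T.fst d = T.fst e) (x : ℝ) : T.beta d x = T.beta e x := by
  unfold beta
  rw [T.t04_sc_eq h, T.nn_eq h, (T.aa_eq h).1, (T.aa_eq h).2]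

theorem tau_eq {d e : D} (h : T.fst d = T.fst e) (x : ℝ) : T.tau d x = T.tau e x := by
  unfold tau
  rw [T.lev_eq h, (T.aa_eq h).1, (T.aa_eq h).2]

theorem beta_slot {d : D} {x : ℝ} (h : 1 ≤ T.idx d) (h1 : T.lo d ≤ x) (h2 : x ≤ T.hi d) :
    T.beta d x = T.tent d x := by
  have hN : 0 < T.nn d := lt_of_lt_of_le h (T.idx_le d)
  have hN' : (0 : ℝ) < T.nn d := Nat.cast_pos.2 hN
  have hL : 0 < T.ab d - T.aa d := by
    have := (T.aa_lt d).2.1
    linarith
  have hlo := T.lo_eq d
  have hhi := T.hi_eq d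
  set a := T.aa d with ha
  set b := T.ab d with hb
  set N : ℝ := (T.nn d : ℝ) with hNd
  set k : ℕ := T.idx d with hk
  have e1 : N * ((x - a) / (b - a)) - (k - 1) = N / (b - a) * (x - T.lo d) := by
    rw [hlo]; field_simp; ring
  have e2 : (k : ℝ) - N * ((x - a) / (b - a)) = N / (b - a) * (T.hi d - x) := by
    rw [hhi]; field_simp; ring
  have hc : 0 < N / (b - a) := div_pos hN' hL
  have g1 : (k : ℝ) - 1 ≤ N * ((x - a) / (b - a)) := by
    have : 0 ≤ N / (b - a) * (x - T.lo d) := mul_nonneg hc.le (by linarith)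
    linarith
  have g2 : N * ((x - a) / (b - a)) ≤ k := by
    have : 0 ≤ N / (b - a) * (T.hi d - x) := mul_nonneg hc.le (by linarith)
    linarith
  unfold beta tent sc
  rw [← ha, ← hb, ← hNd, tri_slot g1 g2, e1, e2, ← mul_min_of_nonneg _ _ hc.le, pow_succ]
  field_simp

theorem beta_nonneg (d : D) (x : ℝ) : 0 ≤ T.beta d x := by
  unfold beta
  refine mul_nonneg (T.sc_pos d).le (div_nonneg (tri_nonneg _) ?_)
  positivity

theorem tau_pos {d : D} {x : ℝ} (h1 : T.aa d < x) (h2 : x < T.ab d) : 0 < T.tau d x := by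
  unfold tau
  exact mul_pos (by positivity) (lt_min (by linarith) (by linarith))

theorem beta_lt_tau {d : D} {x : ℝ} (h1 : T.aa d < x) (h2 : x < T.ab d) : T.beta d x < T.tau d x := by
  rcases Nat.eq_zero_or_pos (T.nn d) with hN | hN
  · have h0 : T.beta d x = 0 := by
      unfold beta
      rw [hN]
      simp
    rw [h0]
    exact T.tau_pos h1 h2
  · have hN' : (0 : ℝ) < T.nn d := Nat.cast_pos.2 hN
    have hL : 0 < T.ab d - T.aa d := by linarith
    have hx1 : 0 < x - T.aa d := by linarith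
    have hx2 : 0 < T.ab d - x := by linarith
    have t1 : tri (T.nn d * ((x - T.aa d) / (T.ab d - T.aa d)))
        ≤ T.nn d * ((x - T.aa d) / (T.ab d - T.aa d)) := by
      have := t04_tri_le_int (T.nn d * ((x - T.aa d) / (T.ab d - T.aa d))) 0
      rw [Int.cast_zero, sub_zero, abs_of_nonneg (by positivity)] at this
      exact this
    have t2 : tri (T.nn d * ((x - T.aa d) / (T.ab d - T.aa d)))
        ≤ T.nn d * ((T.ab d - x) / (T.ab d - T.aa d)) := by
      have h3 := t04_tri_le_int (T.nn d * ((x - T.aa d) / (T.ab d - T.aa d))) (T.nn d : ℤ)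
      have h4 : (T.nn d : ℝ) * ((x - T.aa d) / (T.ab d - T.aa d)) - ((T.nn d : ℤ) : ℝ)
          = -(T.nn d * ((T.ab d - x) / (T.ab d - T.aa d))) := by
        push_cast
        field_simp
        ring
      rw [h4, abs_neg, abs_of_nonneg (by positivity)] at h3
      exact h3
    have hle : T.beta d x ≤ (1 / 2) ^ T.lev d * (min (x - T.aa d) (T.ab d - x) / 2) := by
      unfold beta sc
      rw [mul_assoc]
      refine mul_le_mul_of_nonneg_left ?_ (by positivity)
      rcases le_total (x - T.aa d) (T.ab d - x) with hc | hc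
      · rw [min_eq_left hc]
        calc (T.ab d - T.aa d) * (tri (T.nn d * ((x - T.aa d) / (T.ab d - T.aa d))) / (2 * T.nn d))
            ≤ (T.ab d - T.aa d) * (T.nn d * ((x - T.aa d) / (T.ab d - T.aa d)) / (2 * T.nn d)) := by
              gcongr
          _ = (x - T.aa d) / 2 := by field_simp
      · rw [min_eq_right hc]
        calc (T.ab d - T.aa d) * (tri (T.nn d * ((x - T.aa d) / (T.ab d - T.aa d))) / (2 * T.nn d))
            ≤ (T.ab d - T.aa d) * (T.nn d * ((T.ab d - x) / (T.ab d - T.aa d)) / (2 * T.nn d)) := by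
              gcongr
          _ = (T.ab d - x) / 2 := by field_simp
    have hm : 0 < min (x - T.aa d) (T.ab d - x) := lt_min hx1 hx2
    refine lt_of_le_of_lt hle ?_
    unfold tau
    exact mul_lt_mul_of_pos_left (by linarith) (by positivity)

/-- if `beta` is positive then `x` is in an open part -/
theorem beta_pos {d : D} {x : ℝ} (h1 : T.aa d < x) (h2 : x < T.ab d) (h : 0 < T.beta d x) :
    ∃ e, T.fst e = T.fst d ∧ 1 ≤ T.idx e ∧ T.lo e < x ∧ x < T.hi e := by
  have hN : 0 < T.nn d := by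
    rcases Nat.eq_zero_or_pos (T.nn d) with hN | hN
    · exfalso
      unfold beta at h
      rw [hN] at h
      simp at h
    · exact hN
  have hN' : (0 : ℝ) < T.nn d := Nat.cast_pos.2 hN
  have hL : 0 < T.ab d - T.aa d := by linarith
  obtain ⟨w, hw⟩ : ∃ w : ℝ, w = T.nn d * ((x - T.aa d) / (T.ab d - T.aa d)) := ⟨_, rfl⟩
  have hw0 : 0 < w := by
    rw [hw]
    have : 0 < x - T.aa d := by linarith
    positivity
  have hwN : w < T.nn d := by
    rw [hw]
    have h5 : (x - T.aa d) / (T.ab d - T.aa d) < 1 := by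
      rw [div_lt_one hL]; linarith
    calc (T.nn d : ℝ) * ((x - T.aa d) / (T.ab d - T.aa d)) < T.nn d * 1 :=
          mul_lt_mul_of_pos_left h5 hN'
      _ = T.nn d := mul_one _
  have htri : tri w ≠ 0 := by
    intro h0
    unfold beta at h
    rw [← hw, h0] at h
    simp at h
  have hk1 : w ≤ (⌈w⌉₊ : ℝ) := Nat.le_ceil w
  have hk2 : w < (⌈w⌉₊ : ℝ) := by
    refine lt_of_le_of_ne hk1 ?_
    intro he
    apply htri
    rw [he]
    exact t04_tri_nat _
  have hk3 : 1 ≤ ⌈w⌉₊ := Nat.ceil_pos.2 hw0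
  have hk4 : ⌈w⌉₊ ≤ T.nn d := Nat.ceil_le.2 hwN.le
  have hk5 : (⌈w⌉₊ : ℝ) - 1 < w := by
    have := Nat.ceil_lt_add_one hw0.le
    linarith
  have hk6 : (⌈w⌉₊ : ℝ) - 1 ≠ w := hk5.ne
  obtain ⟨e, he1, he2⟩ := T.exists_idx d ⌈w⌉₊ hk4 (fun _ => hk3)
  refine ⟨e, he1, by rw [he2]; exact hk3, ?_, ?_⟩
  · rw [T.lo_eq, (T.aa_eq he1).1, (T.aa_eq he1).2, he2, T.nn_eq he1]
    have h6 : ((⌈w⌉₊ : ℝ) - 1) / T.nn d < (x - T.aa d) / (T.ab d - T.aa d) := by
      rw [div_lt_iff₀ hN']
      rw [mul_comm, ← hw]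
      exact hk5
    have h7 : (T.ab d - T.aa d) * (((⌈w⌉₊ : ℝ) - 1) / T.nn d)
        < (T.ab d - T.aa d) * ((x - T.aa d) / (T.ab d - T.aa d)) := mul_lt_mul_of_pos_left h6 hL
    have h8 : (T.ab d - T.aa d) * ((x - T.aa d) / (T.ab d - T.aa d)) = x - T.aa d := by
      field_simp
    linarith
  · rw [T.hi_eq, (T.aa_eq he1).1, (T.aa_eq he1).2, he2, T.nn_eq he1]
    have h6 : (x - T.aa d) / (T.ab d - T.aa d) < (⌈w⌉₊ : ℝ) / T.nn d := by
      rw [lt_div_iff₀ hN']
      rw [mul_comm, ← hw]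
      exact hk2
    have h7 : (T.ab d - T.aa d) * ((x - T.aa d) / (T.ab d - T.aa d))
        < (T.ab d - T.aa d) * ((⌈w⌉₊ : ℝ) / T.nn d) := mul_lt_mul_of_pos_left h6 hL
    have h8 : (T.ab d - T.aa d) * ((x - T.aa d) / (T.ab d - T.aa d)) = x - T.aa d := by
      field_simp
    linarith

theorem tau_le (d : D) (x : ℝ) : T.tau d x ≤ (1 / 2) ^ T.lev d := by
  unfold tau
  have h := T.aa_lt d
  have hm : min (x - T.aa d) (T.ab d - x) ≤ 1 := by
    have h3 := min_le_left (x - T.aa d) (T.ab d - x)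
    have h4 := min_le_right (x - T.aa d) (T.ab d - x)
    linarith
  calc (1 / 2 : ℝ) ^ T.lev d * min (x - T.aa d) (T.ab d - x) ≤ (1 / 2) ^ T.lev d * 1 :=
        mul_le_mul_of_nonneg_left hm (by positivity)
    _ = (1 / 2) ^ T.lev d := mul_one _

/-- the roof of a child is the tent of the slot of the parent -/
theorem tau_child {d : D} (h : 0 < T.lev d) (x : ℝ) : T.tau d x = T.tent (R.al (T.fst d)) x := by
  unfold tau tent
  rw [(T.aa_child h).1, (T.aa_child h).2, T.lev_parent h]

theorem tau_root {d : D} (h : T.lev d = 0) (x : ℝ) : T.tau d x = min x (1 - x) := by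
  unfold tau
  rw [(T.aa_root h).1, (T.aa_root h).2, h, pow_zero, one_mul, sub_zero]

theorem tau_continuous (d : D) : Continuous (T.tau d) := by
  unfold tau
  fun_prop

theorem beta_continuous (d : D) : Continuous (T.beta d) := by
  have h : T.beta d = fun x => T.sc d *
      (tri (T.nn d * ((x - T.aa d) / (T.ab d - T.aa d))) / (2 * T.nn d)) := rfl
  rw [h]
  have h2 : Continuous (fun x : ℝ => tri (T.nn d * ((x - T.aa d) / (T.ab d - T.aa d)))) :=
    tri_continuous.comp (continuous_const.mul ((continuous_id.sub continuous_const).div_const _))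
  exact continuous_const.mul (h2.div_const _)

theorem tent_continuous (d : D) : Continuous (T.tent d) := by
  unfold tent
  fun_prop

theorem tent_le (d : D) (x : ℝ) (h : 1 ≤ T.idx d) : T.tent d x ≤ (1 / 2) ^ (T.lev d + 1) := by
  unfold tent
  have h0 := T.aa_lt d
  have h1 := T.lo_lt h
  have hm : min (x - T.lo d) (T.hi d - x) ≤ 1 := by
    have h3 := min_le_left (x - T.lo d) (T.hi d - x)
    have h4 := min_le_right (x - T.lo d) (T.hi d - x)
    linarith
  calc (1 / 2 : ℝ) ^ (T.lev d + 1) * min (x - T.lo d) (T.hi d - x) ≤ (1 / 2) ^ (T.lev d + 1) * 1 :=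
        mul_le_mul_of_nonneg_left hm (by positivity)
    _ = (1 / 2) ^ (T.lev d + 1) := mul_one _

end RTree

end Pool.Agent.AllSurf
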