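import Pool.Agent.Lib.MP_7f477e_gt.T04

/-!
# T05: the chain of vertices over a point

`uniq`: induction on the level: the parents have the same level and contain `x` (`aa_child`, `lo_lt`), so they are the same vertex;
`x` is in the open parts of the two slots, so the slots are equal (`slot_disj`, `inj`), so `fst d = fst e` (`al` injective).
`chain`: induction on `lev e`: `x` is in the interval of the parent `c = R.al (fst e)` of `e`; if `lev c = lev d` then `c` is in the vertex of `d` (`uniq`) and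
`tau e x = tent c x = beta c x = beta d x`; otherwise `tau e x = beta c x < tau c x <= beta d x` (`beta_lt_tau`).
`ext`: otherwise construct by induction for all `n` a dart `d` of level `n` with `x` in its interval and `z.2 <= tau d x` (`< ` if ...): if `z.2 < beta d x` then `beta` is
positive, `x` is in an open part of a slot `e` (`beta_pos`), `e` is not a leg (otherwise `tent e x = beta <= z.2`), the child `R.al e` has level + 1 and
`tau (R.al e) x = tent e x = beta d x > z.2`. This contradicts `tau_le` and `0 < z.2`.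
-/

set_option autoImplicit false

namespace Pool.Agent.AllSurf

namespace RTree

variable {D : Type} {R : Ribbon D} (T : RTree R)

theorem parent_mem {e : D} {x : ℝ} (h : 0 < T.lev e) (h3 : T.aa e < x) (h4 : x < T.ab e) :
    T.aa (R.al (T.fst e)) < x ∧ x < T.ab (R.al (T.fst e)) ∧ T.lo (R.al (T.fst e)) < x ∧
      x < T.hi (R.al (T.fst e)) := by
  obtain ⟨h5, h6⟩ := T.aa_child h
  rw [h5] at h3
  rw [h6] at h4
  obtain ⟨h7, -, h8⟩ := T.lo_lt (T.idx_parent h)
  exact ⟨lt_of_le_of_lt h7 h3, lt_of_lt_of_le h4 h8, h3, h4⟩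

/-- slots of the same vertex whose open parts contain the same point are equal -/
theorem t05_slot {d e : D} {x : ℝ} (h : T.fst d = T.fst e) (hd : 1 ≤ T.idx d) (he : 1 ≤ T.idx e)
    (h1 : T.lo d < x) (h2 : x < T.hi d) (h3 : T.lo e < x) (h4 : x < T.hi e) : d = e := by
  apply T.inj d e h
  rcases lt_trichotomy (T.idx d) (T.idx e) with h5 | h5 | h5
  · exact absurd (T.slot_disj h hd h5) (by linarith)
  · exact h5
  · exact absurd (T.slot_disj h.symm he h5) (by linarith)

theorem t05_uniq {x : ℝ} (n : ℕ) : ∀ d e : D, T.lev d = n → T.lev e = n → T.aa d < x →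
    x < T.ab d → T.aa e < x → x < T.ab e → T.fst d = T.fst e := by
  induction n with
  | zero =>
    intro d e hd he _ _ _ _
    exact T.root d e hd he
  | succ n ih =>
    intro d e hd he h1 h2 h3 h4
    have hd0 : 0 < T.lev d := by omega
    have he0 : 0 < T.lev e := by omega
    have hd1 := T.lev_parent hd0
    have he1 := T.lev_parent he0
    obtain ⟨a1, a2, a3, a4⟩ := T.parent_mem hd0 h1 h2
    obtain ⟨b1, b2, b3, b4⟩ := T.parent_mem he0 h3 h4
    have h5 := ih (R.al (T.fst d)) (R.al (T.fst e)) (by omega) (by omega) a1 a2 b1 b2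
    have h6 := T.t05_slot h5 (T.idx_parent hd0) (T.idx_parent he0) a3 a4 b3 b4
    rw [← R.al_al (T.fst d), h6, R.al_al]

theorem uniq {d e : D} {x : ℝ} (h : T.lev d = T.lev e) (h1 : T.aa d < x) (h2 : x < T.ab d)
    (h3 : T.aa e < x) (h4 : x < T.ab e) : T.fst d = T.fst e :=
  T.t05_uniq (T.lev e) d e h rfl h1 h2 h3 h4

theorem t05_tau {e : D} {x : ℝ} (h : 0 < T.lev e) (h3 : T.aa e < x) (h4 : x < T.ab e) :
    T.tau e x = T.beta (R.al (T.fst e)) x := by
  obtain ⟨-, -, a3, a4⟩ := T.parent_mem h h3 h4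
  rw [T.tau_child h, T.beta_slot (T.idx_parent h) a3.le a4.le]

theorem t05_chain {d : D} {x : ℝ} (h1 : T.aa d < x) (h2 : x < T.ab d) (n : ℕ) : ∀ e : D,
    T.lev e = T.lev d + n + 1 → T.aa e < x → x < T.ab e →
    T.tau e x ≤ T.beta d x ∧ (T.tau e x = T.beta d x → T.lev e = T.lev d + 1 ∧
      T.fst (R.al (T.fst e)) = T.fst d) := by
  induction n with
  | zero =>
    intro e he h3 h4
    have he0 : 0 < T.lev e := by omega
    have he1 := T.lev_parent he0
    obtain ⟨a1, a2, a3, a4⟩ := T.parent_mem he0 h3 h4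
    have h5 := T.uniq (d := R.al (T.fst e)) (e := d) (by omega) a1 a2 h1 h2
    have h6 := T.t05_tau he0 h3 h4
    rw [T.beta_eq h5] at h6
    exact ⟨h6.le, fun _ => ⟨by omega, h5⟩⟩
  | succ n ih =>
    intro e he h3 h4
    have he0 : 0 < T.lev e := by omega
    have he1 := T.lev_parent he0
    obtain ⟨a1, a2, a3, a4⟩ := T.parent_mem he0 h3 h4
    have h5 := (ih (R.al (T.fst e)) (by omega) a1 a2).1
    have h6 := T.t05_tau he0 h3 h4
    have h7 := T.beta_lt_tau a1 a2
    rw [← h6] at h7
    exact ⟨by linarith, fun h8 => by linarith⟩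

theorem chain {d e : D} {x : ℝ} (h : T.lev d < T.lev e) (h1 : T.aa d < x) (h2 : x < T.ab d)
    (h3 : T.aa e < x) (h4 : x < T.ab e) :
    T.tau e x ≤ T.beta d x ∧ (T.tau e x = T.beta d x → T.lev e = T.lev d + 1 ∧
      T.fst (R.al (T.fst e)) = T.fst d) :=
  T.t05_chain h1 h2 (T.lev e - T.lev d - 1) e (by omega) h3 h4

theorem t05_top {d : D} {x : ℝ} (hd : T.Leg d) (h1 : T.lo d < x) (h2 : x < T.hi d) (n : ℕ) :
    ∀ e : D, T.lev e = T.lev d + n + 1 → T.aa e < x → x < T.ab e → False := by
  induction n with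
  | zero =>
    intro e he h3 h4
    have he0 : 0 < T.lev e := by omega
    have he1 := T.lev_parent he0
    obtain ⟨a1, a2, a3, a4⟩ := T.parent_mem he0 h3 h4
    obtain ⟨b1, -, b2⟩ := T.lo_lt hd.1
    have h5 := T.uniq (d := R.al (T.fst e)) (e := d) (by omega) a1 a2 (by linarith) (by linarith)
    have h6 := T.t05_slot h5 (T.idx_parent he0) hd.1 a3 a4 h1 h2
    have h7 := hd.2
    rw [← h6, R.al_al, T.idx_fst_zero he0] at h7
    omega
  | succ n ih =>
    intro e he h3 h4
    have he0 : 0 < T.lev e := by omega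
    have he1 := T.lev_parent he0
    obtain ⟨a1, a2, -, -⟩ := T.parent_mem he0 h3 h4
    exact ih (R.al (T.fst e)) (by omega) a1 a2

/-- a point over the open part of a leg is not in the interval of a vertex of higher level -/
theorem leg_top {d e : D} {x : ℝ} (hd : T.Leg d) (h1 : T.lo d < x) (h2 : x < T.hi d)
    (h3 : T.aa e < x) (h4 : x < T.ab e) : T.lev e ≤ T.lev d := by
  by_contra h
  exact T.t05_top hd h1 h2 (T.lev e - T.lev d - 1) e (by omega) h3 h4

/-- slots with overlapping parts in which one is a leg -/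
theorem leg_disj {d e : D} {x : ℝ} (hd : T.Leg d) (he : T.Leg e) (h1 : T.lo d < x) (h2 : x < T.hi d)
    (h3 : T.lo e < x) (h4 : x < T.hi e) : d = e := by
  obtain ⟨a1, -, a2⟩ := T.lo_lt hd.1
  obtain ⟨b1, -, b2⟩ := T.lo_lt he.1
  have h5 := T.leg_top hd h1 h2 (e := e) (by linarith) (by linarith)
  have h6 := T.leg_top he h3 h4 (e := d) (by linarith) (by linarith)
  have h7 := T.uniq (d := d) (e := e) (x := x) (le_antisymm h6 h5) (by linarith) (by linarith)
    (by linarith) (by linarith)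
  exact T.t05_slot h7 hd.1 he.1 h1 h2 h3 h4

theorem ext {z : ℝ × ℝ} (hz : z ∈ T.Om) :
    ∃ d, T.aa d < z.1 ∧ z.1 < T.ab d ∧ T.beta d z.1 ≤ z.2 ∧ z.2 ≤ T.tau d z.1 ∧
      (T.lev d = 0 → z.2 < T.tau d z.1) := by
  obtain ⟨hz1, hz2, hz3, hz4, hz5⟩ := hz
  by_contra hcon
  have key : ∀ n : ℕ, ∃ d, T.lev d = n ∧ T.aa d < z.1 ∧ z.1 < T.ab d ∧ z.2 ≤ T.tau d z.1 ∧
      (T.lev d = 0 → z.2 < T.tau d z.1) := by
    intro n
    induction n with
    | zero =>
      obtain ⟨d, hd⟩ := T.exists_root
      obtain ⟨h1, h2⟩ := T.aa_root hd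
      have h3 := T.tau_root hd z.1
      exact ⟨d, hd, by rw [h1]; exact hz1, by rw [h2]; exact hz2, by rw [h3]; exact hz4.le,
        fun _ => by rw [h3]; exact hz4⟩
    | succ n ih =>
      obtain ⟨d, hd, h1, h2, h3, h4⟩ := ih
      have h5 : z.2 < T.beta d z.1 := by
        by_contra h6
        exact hcon ⟨d, h1, h2, not_lt.1 h6, h3, h4⟩
      obtain ⟨e, he, he1, he2, he3⟩ := T.beta_pos h1 h2 (hz3.trans h5)
      have h6 : T.beta e z.1 = T.beta d z.1 := T.beta_eq he z.1
      have h7 := T.beta_slot he1 he2.le he3.le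
      have h8 : ¬ T.Leg e := by
        intro h9
        have := hz5 e h9 he2 he3
        linarith
      obtain ⟨b1, b2, b3⟩ := T.not_leg he1 h8
      obtain ⟨c1, c2⟩ := T.aa_al he1 h8
      have h9 := T.lev_eq he
      have h10 : T.tau (R.al e) z.1 = T.beta d z.1 := by
        rw [T.tau_child (by omega), b3, R.al_al, ← h7, h6]
      refine ⟨R.al e, by omega, by rw [c1]; exact he2, by rw [c2]; exact he3,
        by rw [h10]; exact h5.le, fun h => by omega⟩
  obtain ⟨n, hn⟩ := exists_pow_lt_of_lt_one hz3 (show (1 / 2 : ℝ) < 1 by norm_num)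
  obtain ⟨d, hd, -, -, h3, -⟩ := key n
  have h4 := T.tau_le d z.1
  rw [hd] at h4
  linarith

end RTree

end Pool.Agent.AllSurf
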