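import Pool.Agent.Lib.MP_7f477e_gt.T05

/-!
# T06: the global map, coordinates

Write `z = star (nn d) (rt d) (idx d) e p` in `QQ (nn d) (rt d)` and `(x, y) = gpt star d e p`: `x = a + (b-a) z.1`, and
`y = (1 - z.2) * beta d x + z.2 * tau d x` (`gpt_snd`: unfold, `(x-a)/(b-a) = z.1`). As `beta < tau` this gives `beta <= y <= tau`,
`y = beta` iff `z.2 = 0`, `y = tau` iff `z.2 = 1`. `y > 0`: if `z.2 > 0` clear; if `z.2 = 0` then `z.1` is in an open part, `tri (N z.1) > 0` (`tri_slot`).
`gpt_mem`: `y < min x (1-x)`: root: `z.2 < 1` and `tau_root`; level > 0: there is a root dart, `y <= tau d x <= beta r x < tau r x` (`chain`, `beta_lt_tau`).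
Legs `l` with `x` in the open part: `lev d <= lev l` (`leg_top`); equal levels: same vertex (`uniq`), `y >= beta d x = tent l x`; smaller level:
`y >= beta d x >= tau l x >= beta l x = tent l x` (`chain`).
-/

set_option autoImplicit false

namespace Pool.Agent.AllSurf

namespace RTree

variable {D : Type} {R : Ribbon D} (T : RTree R) {star : ℕ → Bool → ℕ → Bool → Strip → ℝ × ℝ}

theorem t06_pos (d : D) : 0 < T.ab d - T.aa d := by
  have := T.aa_lt d
  linarith

theorem t06_beta (d : D) (w : ℝ) :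
    T.beta d (T.aa d + (T.ab d - T.aa d) * w) = T.sc d * (tri (T.nn d * w) / (2 * T.nn d)) := by
  have h := T.t06_pos d
  unfold beta
  rw [show (T.aa d + (T.ab d - T.aa d) * w - T.aa d) / (T.ab d - T.aa d) = w by
    rw [add_sub_cancel_left, mul_div_cancel_left₀ _ h.ne']]

theorem t06_tau (d : D) (w : ℝ) :
    T.tau d (T.aa d + (T.ab d - T.aa d) * w) = T.sc d * min w (1 - w) := by
  have h := T.t06_pos d
  unfold tau sc
  rw [show T.aa d + (T.ab d - T.aa d) * w - T.aa d = (T.ab d - T.aa d) * w by ring,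
    show T.ab d - (T.aa d + (T.ab d - T.aa d) * w) = (T.ab d - T.aa d) * (1 - w) by ring,
    ← mul_min_of_nonneg _ _ h.le]
  ring

theorem gpt_snd (hs : IsStar star) (d : D) (e : Bool) (p : Strip) :
    (T.gpt star d e p).2 = (1 - (star (T.nn d) (T.rt d) (T.idx d) e p).2) *
        T.beta d (T.gpt star d e p).1 +
      (star (T.nn d) (T.rt d) (T.idx d) e p).2 * T.tau d (T.gpt star d e p).1 := by
  unfold gpt
  simp only
  rw [t06_beta, t06_tau]
  unfold hh
  ring

theorem gpt_fst_mem (hs : IsStar star) (d : D) (e : Bool) (p : Strip) :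
    T.aa d < (T.gpt star d e p).1 ∧ (T.gpt star d e p).1 < T.ab d := by
  have h := T.t06_pos d
  have hz := hs.mem (T.nn d) (T.rt d) (T.idx d) e p (T.val d)
  obtain ⟨h1, h2, _⟩ := hz
  unfold gpt
  simp only
  constructor
  · have := mul_pos h h1
    linarith
  · have : (T.ab d - T.aa d) * (star (T.nn d) (T.rt d) (T.idx d) e p).1 < (T.ab d - T.aa d) * 1 :=
      mul_lt_mul_of_pos_left h2 h
    linarith

theorem gpt_beta (hs : IsStar star) (d : D) (e : Bool) (p : Strip) :
    T.beta d (T.gpt star d e p).1 ≤ (T.gpt star d e p).2 ∧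
      ((T.gpt star d e p).2 = T.beta d (T.gpt star d e p).1 →
        (star (T.nn d) (T.rt d) (T.idx d) e p).2 = 0) := by
  have hx := T.gpt_fst_mem hs d e p
  have hlt := T.beta_lt_tau hx.1 hx.2
  have hy := T.gpt_snd hs d e p
  obtain ⟨_, _, h3, _, _, _⟩ := hs.mem (T.nn d) (T.rt d) (T.idx d) e p (T.val d)
  constructor
  · have := mul_nonneg h3 (sub_nonneg.2 hlt.le)
    rw [hy]; linarith
  · intro h
    rw [h] at hy
    have : (star (T.nn d) (T.rt d) (T.idx d) e p).2 *
        (T.tau d (T.gpt star d e p).1 - T.beta d (T.gpt star d e p).1) = 0 := by linarith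
    rcases mul_eq_zero.1 this with h | h
    · exact h
    · linarith

theorem gpt_tau (hs : IsStar star) (d : D) (e : Bool) (p : Strip) :
    (T.gpt star d e p).2 ≤ T.tau d (T.gpt star d e p).1 ∧
      ((T.gpt star d e p).2 = T.tau d (T.gpt star d e p).1 →
        (star (T.nn d) (T.rt d) (T.idx d) e p).2 = 1) := by
  have hx := T.gpt_fst_mem hs d e p
  have hlt := T.beta_lt_tau hx.1 hx.2
  have hy := T.gpt_snd hs d e p
  obtain ⟨_, _, _, h4, _, _⟩ := hs.mem (T.nn d) (T.rt d) (T.idx d) e p (T.val d)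
  constructor
  · have := mul_nonneg (sub_nonneg.2 h4) (sub_nonneg.2 hlt.le)
    rw [hy]; linarith
  · intro h
    rw [h] at hy
    have : (1 - (star (T.nn d) (T.rt d) (T.idx d) e p).2) *
        (T.tau d (T.gpt star d e p).1 - T.beta d (T.gpt star d e p).1) = 0 := by linarith
    rcases mul_eq_zero.1 this with h | h
    · linarith
    · linarith

theorem t06_snd_pos (hs : IsStar star) (d : D) (e : Bool) (p : Strip) :
    0 < (T.gpt star d e p).2 := by
  have hx := T.gpt_fst_mem hs d e p
  have hlt := T.beta_lt_tau hx.1 hx.2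
  have hy := T.gpt_snd hs d e p
  have hb := T.beta_nonneg d (T.gpt star d e p).1
  obtain ⟨_, _, h3, h4, _, h6⟩ := hs.mem (T.nn d) (T.rt d) (T.idx d) e p (T.val d)
  rcases h3.eq_or_lt with h0 | hpos
  · obtain ⟨k, hk1, hk2, hk3, hk4⟩ := h6 h0.symm
    unfold gpt
    simp only
    apply mul_pos (T.sc_pos d)
    unfold hh
    rw [← h0]
    have hN : (0 : ℝ) < T.nn d := by
      have : 0 < T.nn d := by omega
      exact_mod_cast this
    have e1 : (k : ℝ) - 1 < T.nn d * (star (T.nn d) (T.rt d) (T.idx d) e p).1 := by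
      rw [div_lt_iff₀ hN] at hk3
      linarith
    have e2 : T.nn d * (star (T.nn d) (T.rt d) (T.idx d) e p).1 < k := by
      rw [lt_div_iff₀ hN] at hk4
      linarith
    rw [tri_slot e1.le e2.le]
    have : 0 < min ((T.nn d : ℝ) * (star (T.nn d) (T.rt d) (T.idx d) e p).1 - (k - 1))
        (k - T.nn d * (star (T.nn d) (T.rt d) (T.idx d) e p).1) := by
      apply lt_min <;> linarith
    positivity
  · have h5 := mul_nonneg (sub_nonneg.2 h4) hb
    have h6 : 0 < (star (T.nn d) (T.rt d) (T.idx d) e p).2 * T.tau d (T.gpt star d e p).1 :=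
      mul_pos hpos (lt_of_le_of_lt hb hlt)
    rw [hy]; linarith

theorem gpt_mem (hs : IsStar star) (d : D) (e : Bool) (p : Strip) : T.gpt star d e p ∈ T.Om := by
  have hx := T.gpt_fst_mem hs d e p
  have hlt := T.beta_lt_tau hx.1 hx.2
  have hy := T.gpt_snd hs d e p
  have hab := T.aa_lt d
  have hbeta := (T.gpt_beta hs d e p).1
  have htau := (T.gpt_tau hs d e p).1
  have hmem := hs.mem (T.nn d) (T.rt d) (T.idx d) e p (T.val d)
  refine ⟨by linarith, by linarith, T.t06_snd_pos hs d e p, ?_, ?_⟩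
  · rcases Nat.eq_zero_or_pos (T.lev d) with h0 | hpos
    · have hr : T.rt d = true := (T.rt_iff d).2 h0
      have ht := hmem.2.2.2.2.1 hr
      rw [← T.tau_root h0]
      have : 0 < (1 - (star (T.nn d) (T.rt d) (T.idx d) e p).2) *
          (T.tau d (T.gpt star d e p).1 - T.beta d (T.gpt star d e p).1) :=
        mul_pos (by linarith) (by linarith)
      linarith
    · obtain ⟨r, hr⟩ := T.exists_root
      have hra := T.aa_root hr
      have hr1 : T.aa r < (T.gpt star d e p).1 := by rw [hra.1]; linarith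
      have hr2 : (T.gpt star d e p).1 < T.ab r := by rw [hra.2]; linarith
      have h1 := (T.chain (d := r) (e := d) (by omega) hr1 hr2 hx.1 hx.2).1
      have h2 := T.beta_lt_tau hr1 hr2
      rw [T.tau_root hr] at h2
      linarith
  · intro l hl hl1 hl2
    have hlo := T.lo_lt hl.1
    have hl3 : T.aa l < (T.gpt star d e p).1 := by linarith
    have hl4 : (T.gpt star d e p).1 < T.ab l := by linarith
    have hle := T.leg_top hl hl1 hl2 hx.1 hx.2
    have hbs := T.beta_slot hl.1 hl1.le hl2.le
    rcases hle.eq_or_lt with heq | hlt'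
    · have hfst := T.uniq heq hx.1 hx.2 hl3 hl4
      rw [← hbs, ← T.beta_eq hfst]
      exact hbeta
    · have h1 := (T.chain hlt' hx.1 hx.2 hl3 hl4).1
      have h2 := T.beta_lt_tau hl3 hl4
      rw [← hbs]
      linarith

theorem gpt_cont (hs : IsStar star) (d : D) (e : Bool) : Continuous (T.gpt star d e) := by
  have hc := hs.cont (T.nn d) (T.rt d) (T.idx d) e (T.val d)
  have h1 : Continuous fun p : Strip => (star (T.nn d) (T.rt d) (T.idx d) e p).1 :=
    continuous_fst.comp hc
  have h2 : Continuous fun p : Strip => (star (T.nn d) (T.rt d) (T.idx d) e p).2 :=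
    continuous_snd.comp hc
  have h3 : Continuous fun p : Strip =>
      tri ((T.nn d : ℝ) * (star (T.nn d) (T.rt d) (T.idx d) e p).1) :=
    tri_continuous.comp (continuous_const.mul h1)
  unfold gpt hh
  refine Continuous.prodMk (continuous_const.add (continuous_const.mul h1)) ?_
  refine continuous_const.mul (((continuous_const.sub h2).mul (h3.div_const _)).add
    (h2.mul (h1.min (continuous_const.sub h1))))

/-- points in the same vertex with the same image have the same star point -/
theorem gpt_same (hs : IsStar star) {d d' : D} {e e' : Bool} {p p' : Strip}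
    (h : T.fst d = T.fst d') (hg : T.gpt star d e p = T.gpt star d' e' p') :
    star (T.nn d) (T.rt d) (T.idx d) e p = star (T.nn d') (T.rt d') (T.idx d') e' p' := by
  have hpos := T.t06_pos d
  have haa := T.aa_eq h
  have hx := T.gpt_fst_mem hs d e p
  have hlt := T.beta_lt_tau hx.1 hx.2
  have hy := T.gpt_snd hs d e p
  have hy' := T.gpt_snd hs d' e' p'
  rw [← hg, ← T.beta_eq h, ← T.tau_eq h, hy] at hy'
  apply Prod.ext
  · have h1 : (T.gpt star d e p).1 = (T.gpt star d' e' p').1 := by rw [hg]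
    unfold gpt at h1
    simp only at h1
    rw [← haa.1, ← haa.2] at h1
    have h2 : (T.ab d - T.aa d) * (star (T.nn d) (T.rt d) (T.idx d) e p).1 =
        (T.ab d - T.aa d) * (star (T.nn d') (T.rt d') (T.idx d') e' p').1 := by linarith
    exact mul_left_cancel₀ hpos.ne' h2
  · have h2 : ((star (T.nn d) (T.rt d) (T.idx d) e p).2 -
        (star (T.nn d') (T.rt d') (T.idx d') e' p').2) *
        (T.tau d (T.gpt star d e p).1 - T.beta d (T.gpt star d e p).1) = 0 := by linarith
    rcases mul_eq_zero.1 h2 with h3 | h3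
    · linarith
    · linarith

theorem t06_hi_lo (d : D) : T.hi d - T.lo d = (T.ab d - T.aa d) / T.nn d := by
  rw [T.lo_eq, T.hi_eq]; ring

theorem t06_slot (hs : IsStar star) {d : D} {e : Bool} {p : Strip} {w : ℝ} (h : 1 ≤ T.idx d)
    (hst : star (T.nn d) (T.rt d) (T.idx d) e p = (((T.idx d : ℝ) - 1 + w) / T.nn d, 0))
    (hw0 : 0 ≤ w) (hw1 : w ≤ 1) :
    T.gpt star d e p = (T.lo d + w * (T.hi d - T.lo d),
      T.tent d (T.lo d + w * (T.hi d - T.lo d))) := by
  have h1 : (T.gpt star d e p).1 = T.lo d + w * (T.hi d - T.lo d) := by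
    unfold gpt
    simp only
    rw [hst, t06_hi_lo, T.lo_eq]
    simp only
    ring
  have hlo := T.lo_lt h
  apply Prod.ext
  · exact h1
  · rw [T.gpt_snd hs, h1, hst]
    simp only [sub_zero, one_mul, zero_mul, add_zero]
    apply T.beta_slot h
    · have := mul_nonneg hw0 (sub_nonneg.2 hlo.2.1.le)
      linarith
    · have := mul_le_mul_of_nonneg_right hw1 (sub_nonneg.2 hlo.2.1.le)
      linarith

/-- the ends `s = 1` of the strips of slots -/
theorem gpt_slot_true (hs : IsStar star) {d : D} (h : 1 ≤ T.idx d) (u : Set.Ico (0 : ℝ) 1) :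
    T.gpt star d true (1, u) = (T.lo d + (1 + u.1) / 2 * (T.hi d - T.lo d),
      T.tent d (T.lo d + (1 + u.1) / 2 * (T.hi d - T.lo d))) := by
  apply T.t06_slot hs h
  · rw [hs.slot_true _ _ _ u h (T.idx_le d)]
    congr 2
    ring
  · linarith [u.2.1]
  · linarith [u.2.2]

theorem gpt_slot_false (hs : IsStar star) {d : D} (h : 1 ≤ T.idx d) (u : Set.Ico (0 : ℝ) 1) :
    T.gpt star d false (1, u) = (T.lo d + (1 - u.1) / 2 * (T.hi d - T.lo d),
      T.tent d (T.lo d + (1 - u.1) / 2 * (T.hi d - T.lo d))) := by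
  apply T.t06_slot hs h
  · rw [hs.slot_false _ _ _ u h (T.idx_le d)]
    congr 2
    ring
  · linarith [u.2.2]
  · linarith [u.2.1]

theorem t06_top (hs : IsStar star) {d : D} {e : Bool} {p : Strip} {w : ℝ} (h : T.idx d = 0)
    (hst : star (T.nn d) false 0 e p = (w, 1)) :
    T.gpt star d e p = (T.lo (R.al d) + w * (T.hi (R.al d) - T.lo (R.al d)),
      T.tent (R.al d) (T.lo (R.al d) + w * (T.hi (R.al d) - T.lo (R.al d)))) := by
  have hlev : 0 < T.lev d := by
    rcases Nat.eq_zero_or_pos (T.lev d) with h0 | h0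
    · have := T.idx_root d h0
      omega
    · exact h0
  have hrt : T.rt d = false := by
    have : ¬ T.rt d = true := fun h1 => by
      have := (T.rt_iff d).1 h1
      omega
    simpa using this
  have hfst : T.fst d = d := (T.eq_fst h).symm
  have haa := T.aa_child hlev
  rw [hfst] at haa
  have hst' : star (T.nn d) (T.rt d) (T.idx d) e p = (w, 1) := by rw [hrt, h]; exact hst
  have h1 : (T.gpt star d e p).1 = T.lo (R.al d) + w * (T.hi (R.al d) - T.lo (R.al d)) := by
    unfold gpt
    simp only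
    rw [hst', haa.1, haa.2]
    simp only
    ring
  apply Prod.ext
  · exact h1
  · rw [T.gpt_snd hs, h1, hst']
    simp only [sub_self, zero_mul, one_mul, zero_add]
    rw [T.tau_child hlev, hfst]

/-- the ends `s = 1` of the strips of parent darts -/
theorem gpt_top_true (hs : IsStar star) {d : D} (h : T.idx d = 0) (u : Set.Ico (0 : ℝ) 1) :
    T.gpt star d true (1, u) = (T.lo (R.al d) + (1 - u.1) / 2 * (T.hi (R.al d) - T.lo (R.al d)),
      T.tent (R.al d) (T.lo (R.al d) + (1 - u.1) / 2 * (T.hi (R.al d) - T.lo (R.al d)))) :=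
  T.t06_top hs h (hs.top_true _ u)

theorem gpt_top_false (hs : IsStar star) {d : D} (h : T.idx d = 0) (u : Set.Ico (0 : ℝ) 1) :
    T.gpt star d false (1, u) = (T.lo (R.al d) + (1 + u.1) / 2 * (T.hi (R.al d) - T.lo (R.al d)),
      T.tent (R.al d) (T.lo (R.al d) + (1 + u.1) / 2 * (T.hi (R.al d) - T.lo (R.al d)))) :=
  T.t06_top hs h (hs.top_false _ u)

end RTree

end Pool.Agent.AllSurf
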