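import Pool.Agent.Lib.MP_7f477e_gt.T06

/-!
# T07: the global map is onto the region

`ext` gives a vertex `d` with `beta d x <= y <= tau d x` (`<` at the root). `t = (y - beta)/(tau - beta)`, `ξ = (x - a)/(b - a)`. `(ξ, t)` is in
`QQ (nn d) (rt d)`: `t = 0` means `y = beta d x > 0`, `beta_pos` gives a slot `e` with `lo e < x < hi e`, so `k = idx e` (`lo_eq`, `hi_eq`). Then
`IsStar.surj` (`root_nn`) and `exists_idx`; `gpt_snd`.
-/

set_option autoImplicit false

namespace Pool.Agent.AllSurf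

namespace RTree

variable {D : Type} {R : Ribbon D} (T : RTree R) {star : ℕ → Bool → ℕ → Bool → Strip → ℝ × ℝ}

theorem gpt_surj (hs : IsStar star) {z : ℝ × ℝ} (hz : z ∈ T.Om) :
    ∃ d e p, T.gpt star d e p = z := by
  obtain ⟨d, h1, h2, h3, h4, h5⟩ := T.ext hz
  have hpos := T.t06_pos d
  have hlt := T.beta_lt_tau h1 h2
  have hD : 0 < T.tau d z.1 - T.beta d z.1 := by linarith
  have hzpos : 0 < z.2 := hz.2.2.1
  set ξ : ℝ := (z.1 - T.aa d) / (T.ab d - T.aa d) with hξ
  set t : ℝ := (z.2 - T.beta d z.1) / (T.tau d z.1 - T.beta d z.1) with ht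
  have hξ1 : (T.ab d - T.aa d) * ξ = z.1 - T.aa d := by
    rw [hξ, mul_div_cancel₀ _ hpos.ne']
  have ht1 : t * (T.tau d z.1 - T.beta d z.1) = z.2 - T.beta d z.1 := by
    rw [ht, div_mul_cancel₀ _ hD.ne']
  have hQ : (ξ, t) ∈ QQ (T.nn d) (T.rt d) := by
    refine ⟨?_, ?_, ?_, ?_, ?_, ?_⟩
    · show 0 < ξ
      rw [hξ]; apply div_pos _ hpos; linarith
    · show ξ < 1
      rw [hξ, div_lt_one hpos]; linarith
    · show 0 ≤ t
      rw [ht]; apply div_nonneg _ hD.le; linarith
    · show t ≤ 1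
      rw [ht, div_le_one hD]; linarith
    · intro hr
      show t < 1
      have := h5 ((T.rt_iff d).1 hr)
      rw [ht, div_lt_one hD]; linarith
    · intro ht0
      have ht0' : t = 0 := ht0
      rw [ht0', zero_mul] at ht1
      have hb : 0 < T.beta d z.1 := by linarith
      obtain ⟨e, he1, he2, he3, he4⟩ := T.beta_pos h1 h2 hb
      have hN : (0 : ℝ) < T.nn d := by
        have := T.idx_le e
        rw [T.nn_eq he1] at this
        have : 0 < T.nn d := by omega
        exact_mod_cast this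
      rw [T.lo_eq, (T.aa_eq he1).1, (T.aa_eq he1).2, T.nn_eq he1] at he3
      rw [T.hi_eq, (T.aa_eq he1).1, (T.aa_eq he1).2, T.nn_eq he1] at he4
      refine ⟨T.idx e, he2, ?_, ?_, ?_⟩
      · rw [← T.nn_eq he1]; exact T.idx_le e
      · show _ < ξ
        refine lt_of_mul_lt_mul_left ?_ hpos.le
        rw [hξ1]; linarith
      · show ξ < _
        refine lt_of_mul_lt_mul_left ?_ hpos.le
        rw [hξ1]; linarith
  obtain ⟨k, e, p, hk, hst⟩ := hs.surj (T.nn d) (T.rt d) (ξ, t)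
    (fun hr => T.root_nn ((T.rt_iff d).1 hr)) hQ
  obtain ⟨d', hd1, hd2⟩ := T.exists_idx d k hk.1 (fun h0 => hk.2 ((T.rt_iff d).2 h0))
  have hst' : star (T.nn d') (T.rt d') (T.idx d') e p = (ξ, t) := by
    rw [T.nn_eq hd1, T.rt_eq hd1, hd2]; exact hst
  refine ⟨d', e, p, ?_⟩
  have hx : (T.gpt star d' e p).1 = z.1 := by
    unfold gpt
    simp only
    rw [hst', (T.aa_eq hd1).1, (T.aa_eq hd1).2]
    simp only
    linarith
  apply Prod.ext
  · exact hx
  · rw [T.gpt_snd hs, hx, hst', T.beta_eq hd1, T.tau_eq hd1]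
    simp only
    linarith

end RTree

end Pool.Agent.AllSurf
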