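import Pool.Agent.Lib.MP_7f477e_gt.T06

/-!
# T08: points with the same image are glued

`x` is in the intervals of both vertices. Equal levels: `uniq`, `gpt_same`, `IsStar.ker`, `eqv_lift`, `inj`. Otherwise say `lev d < lev d'`. `y <= tau d' x <= beta d x <= y`
(`gpt_tau`, `chain`, `gpt_beta`), so all are equal: `lev d' = lev d + 1`, the parent slot `c = R.al (fst d')` is in the vertex of `d`, the star point of
`(d', e', p')` has second coordinate `1`: `idx d' = 0`, `s' = 1` (`IsStar.one`), so `d' = fst d'`, `R.al d' = c`; the star point of `(d, e, p)` has second coordinate `0`: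
`1 <= idx d`, `s = 1`; `x` is in the open part of `d` (`gpt_slot_true/false`) and of `c`, so `d = c` (`slot_disj`, `inj`). The formulas
`gpt_slot_..`, `gpt_top_..` give `(1 ± u)/2 = (1 ∓ u')/2`: either `u = u'` and `e' = !e`, this is `Rel.mid` (for `e = true`: `(d, true, 1, u) ~ (al d, false, 1, u)`; for
`e = false`: `(al d, true, 1, u) ~ (d, false, 1, u)`), or `u = u' = 0`, `e = e'`: use `Rel.edge` in addition.
-/

set_option autoImplicit false

namespace Pool.Agent.AllSurf

namespace RTree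

variable {D : Type} {R : Ribbon D} (T : RTree R) {star : ℕ → Bool → ℕ → Bool → Strip → ℝ × ℝ}

theorem gpt_ker_same (hs : IsStar star) {d d' : D} {e e' : Bool} {p p' : Strip}
    (hl : T.lev d = T.lev d') (h : T.gpt star d e p = T.gpt star d' e' p') :
    Relation.EqvGen R.Rel (d, e, p) (d', e', p') := by
  obtain ⟨h1, h2⟩ := T.gpt_fst_mem hs d e p
  obtain ⟨h3, h4⟩ := T.gpt_fst_mem hs d' e' p'
  rw [← h] at h3 h4
  have h5 : T.fst d = T.fst d' := T.uniq hl h1 h2 h3 h4
  have h6 := T.gpt_same hs h5 h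
  have hv' := T.val d'
  rw [← T.nn_eq h5, ← T.rt_eq h5] at h6 hv'
  have h7 := (hs.ker _ _ _ _ _ _ _ _ (T.val d) hv').1 h6
  obtain ⟨d'', h8, h9, h10⟩ := T.eqv_lift d h7 d rfl rfl
  have h11 : d'' = d' := T.inj d'' d' (h8.trans h5) h9
  rw [h11] at h10
  exact h10

/-- the first coordinate over the end of the strip of a slot is in the open part -/
theorem t08_open (hs : IsStar star) {d : D} (h : 1 ≤ T.idx d) (e : Bool) (u : Set.Ico (0 : ℝ) 1) :
    T.lo d < (T.gpt star d e (1, u)).1 ∧ (T.gpt star d e (1, u)).1 < T.hi d := by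
  obtain ⟨-, h1, -⟩ := T.lo_lt h
  have hu0 := u.2.1
  have hu1 := u.2.2
  cases e
  · rw [T.gpt_slot_false hs h]
    dsimp only
    constructor
    · nlinarith
    · nlinarith
  · rw [T.gpt_slot_true hs h]
    dsimp only
    constructor
    · nlinarith
    · nlinarith

theorem gpt_ker_lt (hs : IsStar star) {d d' : D} {e e' : Bool} {p p' : Strip}
    (hl : T.lev d < T.lev d') (h : T.gpt star d e p = T.gpt star d' e' p') :
    Relation.EqvGen R.Rel (d, e, p) (d', e', p') := by
  obtain ⟨h1, h2⟩ := T.gpt_fst_mem hs d e p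
  obtain ⟨h3, h4⟩ := T.gpt_fst_mem hs d' e' p'
  obtain ⟨b1, b2⟩ := T.gpt_beta hs d e p
  obtain ⟨t1, t2⟩ := T.gpt_tau hs d' e' p'
  rw [← h] at h3 h4 t1 t2
  obtain ⟨c1, c2⟩ := T.chain hl h1 h2 h3 h4
  have e1 : T.tau d' (T.gpt star d e p).1 = T.beta d (T.gpt star d e p).1 := by linarith
  have e2 : (T.gpt star d e p).2 = T.beta d (T.gpt star d e p).1 := by linarith
  have e3 : (T.gpt star d e p).2 = T.tau d' (T.gpt star d e p).1 := by linarith
  obtain ⟨c3, c4⟩ := c2 e1
  obtain ⟨o1, o2⟩ := hs.one _ _ _ _ _ (T.val d') (t2 e3)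
  obtain ⟨z1, z2⟩ := hs.zero _ _ _ _ _ (T.val d) (b2 e2)
  have hd' : d' = T.fst d' := T.eq_fst o1
  obtain ⟨-, -, m1, m2⟩ := T.parent_mem (e := d') (by omega) h3 h4
  have i1 := T.idx_parent (d := d') (by omega)
  rw [← hd'] at m1 m2 c4 i1
  have hp : p = (1, p.2) := Prod.ext z2 rfl
  have hp' : p' = (1, p'.2) := Prod.ext o2 rfl
  have hop := T.t08_open hs z1 e p.2
  rw [← hp] at hop
  have hdd : d = R.al d' := T.t05_slot c4.symm z1 i1 hop.1 hop.2 m1 m2
  have hdd' : R.al d = d' := by rw [hdd, R.al_al]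
  obtain ⟨-, l1, -⟩ := T.lo_lt z1
  have hw : 0 < T.hi d - T.lo d := by linarith
  have hx := congrArg Prod.fst h
  have hu0 := p.2.2.1
  have hu0' := p'.2.2.1
  rw [hp, hp'] at hx ⊢
  have cancel : ∀ a b : ℝ, T.lo d + a * (T.hi d - T.lo d) = T.lo d + b * (T.hi d - T.lo d) →
      a = b := by
    intro a b hab
    have : (a - b) * (T.hi d - T.lo d) = 0 := by linarith
    rcases mul_eq_zero.1 this with h | h
    · linarith
    · linarith
  cases e
  · cases e'
    · rw [T.gpt_slot_false hs z1, T.gpt_top_false hs o1, ← hdd] at hx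
      dsimp only at hx
      have h5 := cancel _ _ hx
      have h6 : p.2 = u0 := Subtype.ext (show (p.2 : ℝ) = 0 by linarith)
      have h7 : p'.2 = u0 := Subtype.ext (show (p'.2 : ℝ) = 0 by linarith)
      rw [h6, h7]
      refine Relation.EqvGen.trans _ (d, true, (1, u0)) _ ?_ ?_
      · exact Relation.EqvGen.symm _ _ (Relation.EqvGen.rel _ _ (Ribbon.Rel.edge d 1))
      · have h8 := Ribbon.Rel.mid (R := R) d u0
        rw [hdd'] at h8
        exact Relation.EqvGen.rel _ _ h8
    · rw [T.gpt_slot_false hs z1, T.gpt_top_true hs o1, ← hdd] at hx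
      dsimp only at hx
      have h5 := cancel _ _ hx
      have h6 : p.2 = p'.2 := Subtype.ext (show (p.2 : ℝ) = p'.2 by linarith)
      rw [h6]
      have h8 := Ribbon.Rel.mid (R := R) d' p'.2
      rw [← hdd] at h8
      exact Relation.EqvGen.symm _ _ (Relation.EqvGen.rel _ _ h8)
  · cases e'
    · rw [T.gpt_slot_true hs z1, T.gpt_top_false hs o1, ← hdd] at hx
      dsimp only at hx
      have h5 := cancel _ _ hx
      have h6 : p.2 = p'.2 := Subtype.ext (show (p.2 : ℝ) = p'.2 by linarith)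
      rw [h6]
      have h8 := Ribbon.Rel.mid (R := R) d p'.2
      rw [hdd'] at h8
      exact Relation.EqvGen.rel _ _ h8
    · rw [T.gpt_slot_true hs z1, T.gpt_top_true hs o1, ← hdd] at hx
      dsimp only at hx
      have h5 := cancel _ _ hx
      have h6 : p.2 = u0 := Subtype.ext (show (p.2 : ℝ) = 0 by linarith)
      have h7 : p'.2 = u0 := Subtype.ext (show (p'.2 : ℝ) = 0 by linarith)
      rw [h6, h7]
      refine Relation.EqvGen.trans _ (d, false, (1, u0)) _ ?_ ?_
      · exact Relation.EqvGen.rel _ _ (Ribbon.Rel.edge d 1)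
      · have h8 := Ribbon.Rel.mid (R := R) d' u0
        rw [← hdd] at h8
        exact Relation.EqvGen.symm _ _ (Relation.EqvGen.rel _ _ h8)

theorem gpt_ker (hs : IsStar star) {d d' : D} {e e' : Bool} {p p' : Strip}
    (h : T.gpt star d e p = T.gpt star d' e' p') :
    Relation.EqvGen R.Rel (d, e, p) (d', e', p') := by
  rcases lt_trichotomy (T.lev d) (T.lev d') with h1 | h1 | h1
  · exact T.gpt_ker_lt hs h1 h
  · exact T.gpt_ker_same hs h1 h
  · exact Relation.EqvGen.symm _ _ (T.gpt_ker_lt hs h1 h.symm)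

end RTree

end Pool.Agent.AllSurf
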