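import Pool.Agent.Lib.MP_7f477e_gt.T06

/-!
# T09: the global map respects the gluings of the tree; points on the tents of the legs

`gpt_edge`, `gpt_corner`: `IsStar.ker` with one generator (`val`, `idx_nxt`, `nn_nu`, ...). `gpt_mid`: `d` is not a leg: either `1 <= idx d` and `idx (al d) = 0`
(`gpt_slot_true` for `d`, `gpt_top_false` for `al d`), or `idx d = 0` (`gpt_top_true` for `d`, `gpt_slot_false` for `al d`, `al_al`).
`gpt_on_tent`: the image is on the tent of the leg `l`: `x` in the open part of `l`, `y = tent l x`. By `leg_top` `lev d <= lev l`. If `lev d < lev l`: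
`y >= beta d x >= tau l x > beta l x = tent l x`, contradiction. So `lev d = lev l`, `fst d = fst l` (`uniq`), `y = beta d x`, so the star point has second coordinate `0`,
`1 <= idx d`, `p.1 = 1`, and `d = l` by `slot_disj`, `inj`.
-/

set_option autoImplicit false

namespace Pool.Agent.AllSurf

namespace RTree

variable {D : Type} {R : Ribbon D} (T : RTree R) {star : ℕ → Bool → ℕ → Bool → Strip → ℝ × ℝ}

theorem gpt_edge (hs : IsStar star) (d : D) (s : unitInterval) :
    T.gpt star d true (s, u0) = T.gpt star d false (s, u0) := by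
  have h := (hs.ker (T.nn d) (T.rt d) (T.idx d) true (s, u0) (T.idx d) false (s, u0)
    (T.val d) (T.val d)).2 (Relation.EqvGen.rel _ _ (LR.edge _ (T.val d) s))
  unfold gpt
  rw [h]

theorem gpt_corner (hs : IsStar star) (d : D) (u : Set.Ico (0 : ℝ) 1) :
    T.gpt star d true (0, u) = T.gpt star (R.nu d) false (0, u) := by
  have h := (hs.ker (T.nn d) (T.rt d) (T.idx d) true (0, u) (nxt (T.nn d) (T.rt d) (T.idx d)) false
    (0, u) (T.val d) (nxt_val (T.val d))).2 (Relation.EqvGen.rel _ _ (LR.corner _ (T.val d) u))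
  have e1 := T.aa_eq (T.fst_nu d)
  unfold gpt sc
  rw [T.nn_nu, T.rt_eq (T.fst_nu d), T.idx_nxt, T.lev_nu, e1.1, e1.2, h]

theorem gpt_mid (hs : IsStar star) {d : D} (h : ¬ T.Leg d) (u : Set.Ico (0 : ℝ) 1) :
    T.gpt star d true (1, u) = T.gpt star (R.al d) false (1, u) := by
  rcases Nat.eq_zero_or_pos (T.idx d) with h0 | h0
  · rw [T.gpt_top_true hs h0, T.gpt_slot_false hs (T.al_idx h0)]
  · have h1 := (T.not_leg h0 h).1
    rw [T.gpt_slot_true hs h0, T.gpt_top_false hs h1, R.al_al]

theorem gpt_on_tent (hs : IsStar star) {d l : D} {e : Bool} {p : Strip} (hl : T.Leg l)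
    (h1 : T.lo l < (T.gpt star d e p).1) (h2 : (T.gpt star d e p).1 < T.hi l)
    (h : (T.gpt star d e p).2 = T.tent l (T.gpt star d e p).1) : d = l ∧ p.1 = 1 := by
  obtain ⟨m1, m2⟩ := T.gpt_fst_mem hs d e p
  have hlev := T.leg_top hl h1 h2 m1 m2
  obtain ⟨l1, l2, l3⟩ := T.lo_lt hl.1
  have n1 : T.aa l < (T.gpt star d e p).1 := lt_of_le_of_lt l1 h1
  have n2 : (T.gpt star d e p).1 < T.ab l := lt_of_lt_of_le h2 l3
  have hb := T.gpt_beta hs d e p
  have hbl := T.beta_slot hl.1 h1.le h2.le
  rcases lt_or_eq_of_le hlev with hlt | heq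
  · exfalso
    have c1 := (T.chain hlt m1 m2 n1 n2).1
    have c2 := T.beta_lt_tau n1 n2
    linarith [hb.1]
  · have hf : T.fst d = T.fst l := T.uniq heq m1 m2 n1 n2
    have c1 : (T.gpt star d e p).2 = T.beta d (T.gpt star d e p).1 := by
      rw [h, ← hbl, T.beta_eq hf]
    obtain ⟨z1, z2⟩ := hs.zero _ _ _ _ _ (T.val d) (hb.2 c1)
    refine ⟨?_, z2⟩
    -- the point is over the open part of `d`
    have hpos : 0 < T.hi d - T.lo d := by have := (T.lo_lt z1).2.1; linarith
    have hx : T.lo d < (T.gpt star d e p).1 ∧ (T.gpt star d e p).1 < T.hi d := by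
      have hp : p = (1, p.2) := Prod.ext z2 rfl
      have u1 := p.2.2.1
      have u2 := p.2.2.2
      rw [hp]
      cases e with
      | true =>
        rw [T.gpt_slot_true hs z1]
        constructor <;> dsimp only <;> nlinarith
      | false =>
        rw [T.gpt_slot_false hs z1]
        constructor <;> dsimp only <;> nlinarith
    refine T.inj d l hf ?_
    rcases lt_trichotomy (T.idx d) (T.idx l) with hi | hi | hi
    · exfalso
      have := T.slot_disj hf z1 hi
      linarith [hx.2]
    · exact hi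
    · exfalso
      have := T.slot_disj hf.symm hl.1 hi
      linarith [hx.1]

end RTree

end Pool.Agent.AllSurf
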