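import Mathlib

/-!
# MP_7f477e_gt: general topology of gluings

`tq_quot_homeo`: a quotient map whose kernel is generated by `r` identifies `Quot r` with the target.
`closed_of_pieces`: a map from a discrete family of pieces is closed if the pieces are mapped by
closed maps and the images are locally finite.
-/

set_option autoImplicit false

open Set Topology

namespace Pool.Agent.AllSurf

theorem tq_quot_homeo {P Y : Type*} [TopologicalSpace P] [TopologicalSpace Y] (r : P → P → Prop)
    (Q : P → Y) (hQ : IsQuotientMap Q) (hk : ∀ p q, Q p = Q q ↔ Relation.EqvGen r p q) :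
    Nonempty (Quot r ≃ₜ Y) := by
  have hr : ∀ p q, r p q → Q p = Q q := fun p q h => (hk p q).2 (Relation.EqvGen.rel _ _ h)
  have hc : Continuous (Quot.lift Q hr) := continuous_quot_lift hr hQ.continuous
  have hq : IsQuotientMap (Quot.lift Q hr) :=
    IsQuotientMap.of_comp continuous_quot_mk hc (by
      have : Quot.lift Q hr ∘ Quot.mk r = Q := rfl
      rw [this]; exact hQ)
  have hi : Function.Injective (Quot.lift Q hr) := by
    intro a b
    induction a using Quot.ind with
    | mk a =>
      induction b using Quot.ind with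
      | mk b =>
        intro h
        exact Quot.eqvGen_sound ((hk a b).1 h)
  exact ⟨(isHomeomorph_iff_isQuotientMap_injective.2 ⟨hq, hi⟩).homeomorph _⟩

theorem closed_of_pieces {D X Y : Type*} [tX : TopologicalSpace X] [TopologicalSpace Y]
    (f : D × X → Y) (hc : ∀ d, IsClosedMap fun x => f (d, x))
    (hl : LocallyFinite fun d => range fun x => f (d, x)) :
    @IsClosedMap (D × X) Y (@instTopologicalSpaceProd D X ⊥ tX) _ f := by
  let _ : TopologicalSpace D := ⊥
  have : DiscreteTopology D := ⟨rfl⟩
  intro C hC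
  have h1 : f '' C = ⋃ d, (fun x => f (d, x)) '' {x | (d, x) ∈ C} := by
    ext y
    constructor
    · rintro ⟨⟨d, x⟩, h, rfl⟩
      exact mem_iUnion.2 ⟨d, x, h, rfl⟩
    · intro h
      obtain ⟨d, x, hx, hy⟩ := mem_iUnion.1 h
      exact ⟨(d, x), hx, hy⟩
  rw [h1]
  refine LocallyFinite.isClosed_iUnion (hl.subset fun d => image_subset_range _ _) fun d => ?_
  exact hc d _ (hC.preimage (by fun_prop))

theorem continuous_of_pieces {D X Y : Type*} [tX : TopologicalSpace X] [TopologicalSpace Y]
    (f : D × X → Y) (hc : ∀ d, Continuous fun x => f (d, x)) :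
    @Continuous (D × X) Y (@instTopologicalSpaceProd D X ⊥ tX) _ f := by
  let _ : TopologicalSpace D := ⊥
  have : DiscreteTopology D := ⟨rfl⟩
  exact continuous_prod_of_discrete_left.2 hc

/-- criterion for closed maps: every point of the target has a neighbourhood whose preimage lies in
a compact set -/
theorem closed_of_compact {X Y : Type*} [TopologicalSpace X] [TopologicalSpace Y] [T2Space Y]
    (f : X → Y) (hf : Continuous f)
    (h : ∀ y : Y, ∃ U ∈ 𝓝 y, ∃ K : Set X, IsCompact K ∧ f ⁻¹' U ⊆ K) : IsClosedMap f := by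
  intro C hC
  rw [← isOpen_compl_iff, isOpen_iff_mem_nhds]
  intro y hy
  obtain ⟨U, hU, K, hK, hUK⟩ := h y
  have h1 : IsClosed (f '' (K ∩ C)) := ((hK.inter_right hC).image hf).isClosed
  have h2 : y ∉ f '' (K ∩ C) := fun h => hy (image_mono inter_subset_right h)
  filter_upwards [hU, h1.isOpen_compl.mem_nhds h2] with z hz hz2
  rintro ⟨x, hx, rfl⟩
  exact hz2 ⟨x, ⟨hUK hz, hx⟩, rfl⟩

end Pool.Agent.AllSurf
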