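import Pool.Agent.Lib.MP_7f477e_gt.T06
import Pool.Agent.Lib.MP_7f477e_gt.TQ

/-!
# T10: the global map is closed

`gpt_low`: `y = sc d * hh`, `0 <= sc d <= (1/2)^lev d <= 1`; level > 0: `IsStar.low`. Level `0`: `sc d = 1`, `a = 0`, `b = 1`, `x = z.1`: `IsStar.low_root`.
`closed_q`: `closed_of_pieces` (pieces indexed by `D`, each a finite union over `Bool`) and `closed_of_compact`: a point `z` of `Om` has
`δ = min z.2 (min z.1 (1 - z.1) - z.2) > 0`, the neighbourhood `U = {δ/2 < y, δ/2 < min x (1-x) - y}`; the preimage of `U` in the strip `(d, e)` lies in `{u <= 1 - δ/4}`, which is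
compact. Local finiteness: if `U` meets the image of `d` then `δ/2 < y <= tau d x <= (1/2)^lev d` (`gpt_tau`, `tau_le`), finitely many levels, `lev_fin`.
-/

set_option autoImplicit false

namespace Pool.Agent.AllSurf

namespace RTree

variable {D : Type} {R : Ribbon D} (T : RTree R) {star : ℕ → Bool → ℕ → Bool → Strip → ℝ × ℝ}

theorem gpt_low (hs : IsStar star) (d : D) (e : Bool) (p : Strip) :
    min (T.gpt star d e p).2 (min (T.gpt star d e p).1 (1 - (T.gpt star d e p).1) -
      (T.gpt star d e p).2) ≤ 2 * (1 - p.2.1) := by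
  have hu : p.2.1 < 1 := p.2.2.2
  by_cases h : T.lev d = 0
  · have hrt : T.rt d = true := by
      unfold RTree.rt
      simp [h]
    obtain ⟨ha, hb⟩ := T.aa_root h
    have hsc : T.sc d = 1 := by
      unfold RTree.sc
      rw [h, ha, hb]
      norm_num
    have h1 : (T.gpt star d e p).1 = (star (T.nn d) true (T.idx d) e p).1 := by
      unfold RTree.gpt
      simp only [ha, hb, hrt]
      ring
    have h2 : (T.gpt star d e p).2 = hh (T.nn d) (star (T.nn d) true (T.idx d) e p) := by
      unfold RTree.gpt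
      simp only [hsc, hrt]
      ring
    rw [h1, h2]
    exact hs.low_root (T.nn d) (T.idx d) e p (T.idx_le d) (T.idx_root d h)
  · have hrt : T.rt d = false := by
      unfold RTree.rt
      simp [h]
    have h2 : (T.gpt star d e p).2 = T.sc d * hh (T.nn d) (star (T.nn d) false (T.idx d) e p) := by
      unfold RTree.gpt
      simp only [hrt]
    refine (min_le_left _ _).trans ?_
    rw [h2]
    have h3 := hs.low (T.nn d) (T.idx d) e p (T.idx_le d)
    have h4 := T.sc_pos d
    have h5 : T.sc d ≤ 1 := by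
      unfold RTree.sc
      obtain ⟨g1, g2, g3⟩ := T.aa_lt d
      have g4 : ((1 : ℝ) / 2) ^ T.lev d ≤ 1 := pow_le_one₀ (by norm_num) (by norm_num)
      have g5 : (0 : ℝ) ≤ (1 / 2) ^ T.lev d := by positivity
      calc ((1 : ℝ) / 2) ^ T.lev d * (T.ab d - T.aa d) ≤ 1 * 1 :=
            mul_le_mul g4 (by linarith) (by linarith) (by norm_num)
        _ = 1 := by norm_num
    calc T.sc d * hh (T.nn d) (star (T.nn d) false (T.idx d) e p) ≤ T.sc d * (2 * (1 - p.2.1)) :=
          mul_le_mul_of_nonneg_left h3 h4.le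
      _ ≤ 1 * (2 * (1 - p.2.1)) := mul_le_mul_of_nonneg_right h5 (by linarith)
      _ = 2 * (1 - p.2.1) := by ring

/-- the global map into the region -/
noncomputable def qq (hm : ∀ d e p, T.gpt star d e p ∈ T.Om) : D × Bool × Strip → T.Om :=
  fun w => ⟨T.gpt star w.1 w.2.1 w.2.2, hm _ _ _⟩

theorem t10_compact (c : ℝ) (hc : c < 1) :
    IsCompact {w : Bool × Strip | w.2.2.1 ≤ c} := by
  have h1 : IsCompact {u : Set.Ico (0 : ℝ) 1 | u.1 ≤ c} := by
    rw [Topology.IsInducing.subtypeVal.isCompact_iff]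
    have h2 : Subtype.val '' {u : Set.Ico (0 : ℝ) 1 | u.1 ≤ c} = Set.Icc 0 c := by
      ext x
      constructor
      · rintro ⟨u, hu, rfl⟩
        exact ⟨u.2.1, hu⟩
      · rintro ⟨h0, h1⟩
        exact ⟨⟨x, h0, lt_of_le_of_lt h1 hc⟩, h1, rfl⟩
    rw [h2]
    exact isCompact_Icc
  have h3 : {w : Bool × Strip | w.2.2.1 ≤ c} =
      (Set.univ : Set Bool) ×ˢ ((Set.univ : Set unitInterval) ×ˢ {u : Set.Ico (0 : ℝ) 1 | u.1 ≤ c}) := by
    ext ⟨e, s, u⟩
    simp
  rw [h3]
  exact isCompact_univ.prod (isCompact_univ.prod h1)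

theorem t10_cont (hs : IsStar star) (hm : ∀ d e p, T.gpt star d e p ∈ T.Om) (d : D) :
    Continuous fun x : Bool × Strip => T.qq hm (d, x) := by
  refine Continuous.subtype_mk ?_ _
  have h1 : ∀ e : Bool, Continuous fun p : Strip => T.gpt star d e p := fun e => T.gpt_cont hs d e
  refine continuous_prod_of_discrete_left.2 ?_
  intro e
  exact h1 e

theorem closed_q (hs : IsStar star) (hm : ∀ d e p, T.gpt star d e p ∈ T.Om) :
    @IsClosedMap (D × Bool × Strip) T.Om (@instTopologicalSpaceProd D (Bool × Strip) ⊥ inferInstance)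
      _ (T.qq hm) := by
  refine closed_of_pieces (D := D) (X := Bool × Strip) (T.qq hm) ?_ ?_
  · intro d
    refine closed_of_compact _ (T.t10_cont hs hm d) ?_
    rintro ⟨z, hz⟩
    obtain ⟨h1, h2, h3, h4, -⟩ := id hz
    set δ : ℝ := min z.2 (min z.1 (1 - z.1) - z.2) with hδ
    have hδ0 : 0 < δ := lt_min h3 (by linarith)
    refine ⟨{w : T.Om | δ / 2 < min w.1.2 (min w.1.1 (1 - w.1.1) - w.1.2)}, ?_, _,
      t10_compact (1 - δ / 4) (by linarith), ?_⟩
    · refine IsOpen.mem_nhds (isOpen_lt continuous_const (by fun_prop)) ?_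
      change δ / 2 < min z.2 (min z.1 (1 - z.1) - z.2)
      rw [← hδ]
      linarith
    · rintro ⟨e, p⟩ hp
      have h5 : δ / 2 < min (T.gpt star d e p).2
        (min (T.gpt star d e p).1 (1 - (T.gpt star d e p).1) - (T.gpt star d e p).2) := hp
      have h6 := T.gpt_low hs d e p
      change p.2.1 ≤ 1 - δ / 4
      linarith
  · rintro ⟨z, hz⟩
    have h3 : 0 < z.2 := hz.2.2.1
    obtain ⟨N, hN⟩ := exists_pow_lt_of_lt_one (show (0 : ℝ) < z.2 / 2 by linarith)
      (show (1 / 2 : ℝ) < 1 by norm_num)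
    refine ⟨{w : T.Om | z.2 / 2 < w.1.2}, ?_, ?_⟩
    · refine IsOpen.mem_nhds (isOpen_lt continuous_const (by fun_prop)) ?_
      change z.2 / 2 < z.2
      linarith
    · refine ((Set.finite_Iio N).biUnion (fun n _ => T.lev_fin n)).subset ?_
      rintro d ⟨_, ⟨⟨e, p⟩, rfl⟩, hw⟩
      have hw' : z.2 / 2 < (T.gpt star d e p).2 := hw
      have h4 := (T.gpt_tau hs d e p).1
      have h5 := T.tau_le d (T.gpt star d e p).1
      refine Set.mem_biUnion (show T.lev d ∈ Set.Iio N from ?_) (show T.lev d = T.lev d from rfl)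
      by_contra hcon
      have hle : N ≤ T.lev d := not_lt.1 hcon
      have h6 : ((1 : ℝ) / 2) ^ T.lev d ≤ (1 / 2) ^ N :=
        pow_le_pow_of_le_one (by norm_num) (by norm_num) hle
      linarith

theorem cont_q (hs : IsStar star) (hm : ∀ d e p, T.gpt star d e p ∈ T.Om) :
    @Continuous (D × Bool × Strip) T.Om (@instTopologicalSpaceProd D (Bool × Strip) ⊥ inferInstance)
      _ (T.qq hm) :=
  continuous_of_pieces (D := D) (X := Bool × Strip) (T.qq hm) (fun d => T.t10_cont hs hm d)

end RTree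

end Pool.Agent.AllSurf
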