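import Pool.Agent.Lib.MP_7f477e_gt.T05

/-!
# T11: straightening the region

`bl x` = tent of the leg over whose open part `x` lies, `0` if there is none. Continuity: `bl` is the uniform limit of the functions with only the legs of
level `<= n` (finitely many, `lev_fin`; error at most `(1/2)^(n+2)`, `tent_le`), and for each leg `max 0 (tent l x)` is continuous and is equal to `tent l x` on the part and
`0` outside; `bl` = sum (or supremum) of these, since the open parts of different legs are disjoint (`leg_disj`).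
`straight`: `(x, y) ↦ (x, (y - bl x)/(min x (1-x) - y))`, inverse `(x, w) ↦ (x, (bl x + w * min x (1-x))/(1 + w))`. `w = 0` iff `y = bl x`, and then `y > 0` gives that `x` is in the open
part of a leg. For the inverse: `w > 0` or `x` in a part gives `y > 0`; `bl x < min x (1 - x)`: for a leg `l` of the vertex `l`: `tent l x = beta l x < tau l x <= min x (1-x)` (`chain` with
a root dart, `tau_root`).
-/

set_option autoImplicit false

open Set Topology

namespace Pool.Agent.AllSurf

namespace RTree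

variable {D : Type} {R : Ribbon D} (T : RTree R)

open Classical in
/-- the tents of the legs -/
noncomputable def bl (x : ℝ) : ℝ :=
  if h : ∃ l, T.Leg l ∧ T.lo l < x ∧ x < T.hi l then T.tent h.choose x else 0

theorem bl_leg {l : D} {x : ℝ} (h : T.Leg l) (h1 : T.lo l < x) (h2 : x < T.hi l) :
    T.bl x = T.tent l x := by
  have hex : ∃ l, T.Leg l ∧ T.lo l < x ∧ x < T.hi l := ⟨l, h, h1, h2⟩
  have hc := hex.choose_spec
  unfold bl
  rw [dif_pos hex]
  rw [T.leg_disj hc.1 h hc.2.1 hc.2.2 h1 h2]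

theorem t11_bl_none {x : ℝ} (h : ¬ ∃ l, T.Leg l ∧ T.lo l < x ∧ x < T.hi l) : T.bl x = 0 := by
  unfold bl
  rw [dif_neg h]

theorem t11_tent_pos {l : D} {x : ℝ} (h1 : T.lo l < x) (h2 : x < T.hi l) : 0 < T.tent l x := by
  unfold tent
  have : 0 < min (x - T.lo l) (T.hi l - x) := lt_min (by linarith) (by linarith)
  positivity

theorem t11_tent_nonpos {l : D} {x : ℝ} (h : ¬ (T.lo l < x ∧ x < T.hi l)) : T.tent l x ≤ 0 := by
  unfold tent
  have h1 : min (x - T.lo l) (T.hi l - x) ≤ 0 := by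
    by_cases h2 : T.lo l < x
    · have h3 : T.hi l ≤ x := not_lt.1 fun h3 => h ⟨h2, h3⟩
      exact (min_le_right _ _).trans (by linarith)
    · exact (min_le_left _ _).trans (by linarith)
  have h2 : (0 : ℝ) < (1 / 2) ^ (T.lev l + 1) := by positivity
  nlinarith

theorem bl_nonneg (x : ℝ) : 0 ≤ T.bl x := by
  by_cases h : ∃ l, T.Leg l ∧ T.lo l < x ∧ x < T.hi l
  · obtain ⟨l, hl, h1, h2⟩ := h
    rw [T.bl_leg hl h1 h2]
    exact (T.t11_tent_pos h1 h2).le
  · rw [T.t11_bl_none h]

theorem bl_pos {x : ℝ} (h : 0 < T.bl x) : ∃ l, T.Leg l ∧ T.lo l < x ∧ x < T.hi l := by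
  by_contra hcon
  rw [T.t11_bl_none hcon] at h
  exact lt_irrefl _ h

theorem bl_lt {x : ℝ} (h0 : 0 < x) (h1 : x < 1) : T.bl x < min x (1 - x) := by
  by_cases h : ∃ l, T.Leg l ∧ T.lo l < x ∧ x < T.hi l
  · obtain ⟨l, hl, hx1, hx2⟩ := h
    rw [T.bl_leg hl hx1 hx2, ← T.beta_slot hl.1 hx1.le hx2.le]
    obtain ⟨e1, e2, e3⟩ := T.lo_lt hl.1
    have h3 : T.aa l < x := lt_of_le_of_lt e1 hx1
    have h4 : x < T.ab l := lt_of_lt_of_le hx2 e3
    have h5 := T.beta_lt_tau h3 h4
    refine lt_of_lt_of_le h5 ?_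
    rcases Nat.eq_zero_or_pos (T.lev l) with h6 | h6
    · rw [T.tau_root h6]
    · obtain ⟨r, hr⟩ := T.exists_root
      obtain ⟨r1, r2⟩ := T.aa_root hr
      have h7 := (T.chain (d := r) (e := l) (x := x) (by omega) (by rw [r1]; exact h0)
        (by rw [r2]; exact h1) h3 h4).1
      have h8 := T.beta_lt_tau (d := r) (x := x) (by rw [r1]; exact h0) (by rw [r2]; exact h1)
      rw [T.tau_root hr] at h8
      linarith
  · rw [T.t11_bl_none h]
    exact lt_min h0 (by linarith)

theorem t11_fin (n : ℕ) : {l | T.Leg l ∧ T.lev l ≤ n}.Finite := by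
  have h1 : (⋃ k ∈ Finset.range (n + 1), {l | T.lev l = k}).Finite := by
    refine Set.Finite.biUnion (Finset.finite_toSet _) (fun k _ => T.lev_fin k)
  refine h1.subset ?_
  rintro l ⟨_, hl⟩
  simp only [mem_iUnion]
  exact ⟨T.lev l, by rw [Finset.mem_range]; omega, rfl⟩

theorem bl_cont : Continuous T.bl := by
  let F : ℕ → ℝ → ℝ := fun n x => ∑ l ∈ (T.t11_fin n).toFinset, max 0 (T.tent l x)
  have hF : ∀ n, Continuous (F n) := fun n =>
    continuous_finsetSum _ fun l _ => continuous_const.max (T.tent_continuous l)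
  have hlim : TendstoUniformly F T.bl Filter.atTop := by
    rw [Metric.tendstoUniformly_iff]
    intro ε hε
    obtain ⟨n0, hn0⟩ := exists_pow_lt_of_lt_one hε (by norm_num : (1 / 2 : ℝ) < 1)
    refine Filter.eventually_atTop.2 ⟨n0, fun n hn x => ?_⟩
    by_cases h : ∃ l, T.Leg l ∧ T.lo l < x ∧ x < T.hi l
    · obtain ⟨l, hl, hx1, hx2⟩ := h
      have hz : ∀ l' : D, T.Leg l' → l' ≠ l → max 0 (T.tent l' x) = 0 := by
        intro l' hl' hne
        refine max_eq_left (T.t11_tent_nonpos fun hcon => hne ?_)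
        exact T.leg_disj hl' hl hcon.1 hcon.2 hx1 hx2
      rw [T.bl_leg hl hx1 hx2]
      by_cases hln : T.lev l ≤ n
      · have hs : F n x = T.tent l x := by
          show (∑ l ∈ (T.t11_fin n).toFinset, max 0 (T.tent l x)) = T.tent l x
          rw [Finset.sum_eq_single l]
          · exact max_eq_right (T.t11_tent_pos hx1 hx2).le
          · intro l' hl' hne
            rw [Set.Finite.mem_toFinset] at hl'
            exact hz l' hl'.1 hne
          · intro hcon
            exact absurd ((T.t11_fin n).mem_toFinset.2 ⟨hl, hln⟩) hcon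
        rw [hs, dist_self]
        exact hε
      · have hs : F n x = 0 := by
          show (∑ l ∈ (T.t11_fin n).toFinset, max 0 (T.tent l x)) = 0
          refine Finset.sum_eq_zero fun l' hl' => ?_
          rw [Set.Finite.mem_toFinset] at hl'
          refine hz l' hl'.1 ?_
          rintro rfl
          exact hln hl'.2
        rw [hs, dist_zero_right, Real.norm_of_nonneg (T.t11_tent_pos hx1 hx2).le]
        have h3 := T.tent_le l x hl.1
        have h4 : ((1 : ℝ) / 2) ^ (T.lev l + 1) ≤ (1 / 2) ^ n0 :=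
          pow_le_pow_of_le_one (by norm_num) (by norm_num) (by omega)
        linarith
    · have hs : F n x = 0 := by
        show (∑ l ∈ (T.t11_fin n).toFinset, max 0 (T.tent l x)) = 0
        refine Finset.sum_eq_zero fun l' hl' => ?_
        rw [Set.Finite.mem_toFinset] at hl'
        exact max_eq_left (T.t11_tent_nonpos fun hcon => h ⟨l', hl'.1, hcon⟩)
      rw [T.t11_bl_none h, hs, dist_self]
      exact hε
  exact hlim.continuous (Filter.Frequently.of_forall hF)

/-- the straightened region -/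
def NI : Set (ℝ × ℝ) :=
  {p | p.1 ∈ Ioo (0 : ℝ) 1 ∧ 0 ≤ p.2 ∧ (p.2 = 0 → ∃ l : {l : D // T.Leg l}, p.1 ∈ Ioo (T.lo l) (T.hi l))}

theorem t11_bl_le {z : ℝ × ℝ} (hz : z ∈ T.Om) : T.bl z.1 ≤ z.2 := by
  by_cases h : ∃ l, T.Leg l ∧ T.lo l < z.1 ∧ z.1 < T.hi l
  · obtain ⟨l, hl, hx1, hx2⟩ := h
    rw [T.bl_leg hl hx1 hx2]
    exact hz.2.2.2.2 l hl hx1 hx2
  · rw [T.t11_bl_none h]
    exact hz.2.2.1.le

theorem t11_to {z : ℝ × ℝ} (hz : z ∈ T.Om) :
    (z.1, (z.2 - T.bl z.1) / (min z.1 (1 - z.1) - z.2)) ∈ T.NI := by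
  have h1 := T.t11_bl_le hz
  obtain ⟨g1, g2, g3, g4, g5⟩ := hz
  have hden : 0 < min z.1 (1 - z.1) - z.2 := by linarith
  refine ⟨⟨g1, g2⟩, div_nonneg (by linarith) hden.le, fun h => ?_⟩
  have h2 : z.2 - T.bl z.1 = 0 := by
    rcases div_eq_zero_iff.1 h with h' | h'
    · exact h'
    · exact absurd h' hden.ne'
  obtain ⟨l, hl, hx1, hx2⟩ := T.bl_pos (x := z.1) (by linarith)
  exact ⟨⟨l, hl⟩, hx1, hx2⟩

theorem t11_from {p : ℝ × ℝ} (hp : p ∈ T.NI) :
    (p.1, (T.bl p.1 + p.2 * min p.1 (1 - p.1)) / (1 + p.2)) ∈ T.Om := by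
  obtain ⟨⟨g1, g2⟩, g3, g4⟩ := hp
  have hm : 0 < min p.1 (1 - p.1) := lt_min g1 (by linarith)
  have hb := T.bl_nonneg p.1
  have hbl := T.bl_lt g1 g2
  have hd : 0 < 1 + p.2 := by linarith
  have hnum : 0 < T.bl p.1 + p.2 * min p.1 (1 - p.1) := by
    rcases eq_or_lt_of_le g3 with h | h
    · obtain ⟨⟨l, hl⟩, hx⟩ := g4 h.symm
      rw [← h, zero_mul, add_zero, T.bl_leg hl hx.1 hx.2]
      exact T.t11_tent_pos hx.1 hx.2
    · have := mul_pos h hm
      linarith
  refine ⟨g1, g2, div_pos hnum hd, ?_, ?_⟩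
  · show (T.bl p.1 + p.2 * min p.1 (1 - p.1)) / (1 + p.2) < min p.1 (1 - p.1)
    rw [div_lt_iff₀ hd]
    linarith
  · intro d hdl hd1 hd2
    show T.tent d p.1 ≤ (T.bl p.1 + p.2 * min p.1 (1 - p.1)) / (1 + p.2)
    rw [← T.bl_leg hdl hd1 hd2, le_div_iff₀ hd]
    have := mul_le_mul_of_nonneg_left hbl.le g3
    linarith

theorem straight : ∃ Φ : T.Om ≃ₜ T.NI, ∀ z : T.Om,
    (Φ z).1 = (z.1.1, (z.1.2 - T.bl z.1.1) / (min z.1.1 (1 - z.1.1) - z.1.2)) := by
  refine ⟨{
    toFun := fun z => ⟨_, T.t11_to z.2⟩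
    invFun := fun p => ⟨_, T.t11_from p.2⟩
    left_inv := ?_
    right_inv := ?_
    continuous_toFun := ?_
    continuous_invFun := ?_ }, fun z => rfl⟩
  · intro z
    apply Subtype.ext
    have h4 := z.2.2.2.2.1
    have h2 := T.bl_lt z.2.1 z.2.2.1
    have hden : 0 < min z.1.1 (1 - z.1.1) - z.1.2 := by linarith
    refine Prod.ext rfl ?_
    show (T.bl z.1.1 + (z.1.2 - T.bl z.1.1) / (min z.1.1 (1 - z.1.1) - z.1.2) *
      min z.1.1 (1 - z.1.1)) / (1 + (z.1.2 - T.bl z.1.1) / (min z.1.1 (1 - z.1.1) - z.1.2)) = z.1.2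
    generalize min z.1.1 (1 - z.1.1) = m at *
    generalize T.bl z.1.1 = b at *
    have e1 : 1 + (z.1.2 - b) / (m - z.1.2) = (m - b) / (m - z.1.2) := by
      field_simp
      ring
    have e2 : b + (z.1.2 - b) / (m - z.1.2) * m = z.1.2 * (m - b) / (m - z.1.2) := by
      field_simp
      ring
    have hmb : 0 < m - b := by linarith
    rw [e1, e2]
    field_simp
  · intro p
    apply Subtype.ext
    have h2 := T.bl_lt p.2.1.1 p.2.1.2
    have h3 := p.2.2.1
    refine Prod.ext rfl ?_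
    show ((T.bl p.1.1 + p.1.2 * min p.1.1 (1 - p.1.1)) / (1 + p.1.2) - T.bl p.1.1) /
      (min p.1.1 (1 - p.1.1) - (T.bl p.1.1 + p.1.2 * min p.1.1 (1 - p.1.1)) / (1 + p.1.2)) = p.1.2
    generalize min p.1.1 (1 - p.1.1) = m at *
    generalize T.bl p.1.1 = b at *
    have hd : 0 < 1 + p.1.2 := by linarith
    have hmb : 0 < m - b := by linarith
    have e1 : (b + p.1.2 * m) / (1 + p.1.2) - b = p.1.2 * (m - b) / (1 + p.1.2) := by
      field_simp
      ring
    have e2 : m - (b + p.1.2 * m) / (1 + p.1.2) = (m - b) / (1 + p.1.2) := by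
      field_simp
      ring
    rw [e1, e2]
    field_simp
  · refine Continuous.subtype_mk ?_ _
    have c1 : Continuous fun z : T.Om => z.1.1 := continuous_fst.comp continuous_subtype_val
    have c2 : Continuous fun z : T.Om => z.1.2 := continuous_snd.comp continuous_subtype_val
    refine c1.prodMk ((c2.sub (T.bl_cont.comp c1)).div
      ((c1.min (continuous_const.sub c1)).sub c2) fun z => ?_)
    have h4 := z.2.2.2.2.1
    exact (by linarith : 0 < min z.1.1 (1 - z.1.1) - z.1.2).ne'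
  · refine Continuous.subtype_mk ?_ _
    have c1 : Continuous fun z : T.NI => z.1.1 := continuous_fst.comp continuous_subtype_val
    have c2 : Continuous fun z : T.NI => z.1.2 := continuous_snd.comp continuous_subtype_val
    refine c1.prodMk ((((T.bl_cont.comp c1)).add (c2.mul (c1.min (continuous_const.sub c1)))).div
      (continuous_const.add c2) fun z => ?_)
    have h4 := z.2.2.1
    exact (by linarith : 0 < 1 + z.1.2).ne'

end RTree

end Pool.Agent.AllSurf
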