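import Pool.Agent.Lib.MP_7f477e_gt.T01
import Pool.Agent.Lib.MP_7f477e_gt.T07
import Pool.Agent.Lib.MP_7f477e_gt.T08
import Pool.Agent.Lib.MP_7f477e_gt.T09
import Pool.Agent.Lib.MP_7f477e_gt.T10
import Pool.Agent.Lib.MP_7f477e_gt.T11

/-!
# T12: assembly of part T

`E` = subtype of the legs, ordered by `lo` (`LinearOrder.lift'`, injective by `leg_disj`); `inv l = R.al l` (`leg_al`); weights: `posSumOfEncodable`. `OrderLemma` with `J = Ioo 0 1`,
`g x = 1/(1-x) - 1/x`, `k l` affine. The composition `Q` = quotient map of `C.Dom` ∘ order homeomorphism ∘ `straight` ∘ `qq` is a quotient map (`closed_q`, `gpt_surj`).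
Kernel: `gpt_ker`, `gpt_mid`, ... for the tree; a glueing of `C.Rel` between `bd l t` and `bd (al l) t'`, `t + t' = 1`: the points of the strips over them are
equivalent to `(l, e, (1, u))` and `(al l, e', (1, u'))`. `tq_quot_homeo`.
-/

set_option autoImplicit false

open Set Topology

namespace Pool.Agent.AllSurf

/-- every function `g` as in `OrderLemma` for `J = (0,1)` -/
theorem T_g : ∃ g : ℝ → ℝ, StrictMonoOn g (Ioo 0 1) ∧ ContinuousOn g (Ioo 0 1) ∧
    g '' Ioo 0 1 = univ := by
  refine ⟨fun x => 1 / (1 - x) - 1 / x, ?_, ?_, ?_⟩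
  · intro x hx y hy hxy
    have h1 : 1 / (1 - x) < 1 / (1 - y) :=
      one_div_lt_one_div_of_lt (by linarith [hy.2]) (by linarith)
    have h2 : 1 / y < 1 / x := one_div_lt_one_div_of_lt hx.1 hxy
    change 1 / (1 - x) - 1 / x < 1 / (1 - y) - 1 / y
    linarith
  · apply ContinuousOn.sub
    · apply ContinuousOn.div continuousOn_const (by fun_prop)
      intro x hx h
      linarith [hx.2]
    · apply ContinuousOn.div continuousOn_const (by fun_prop)
      intro x hx h
      change x = 0 at h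
      linarith [hx.1]
  · apply eq_univ_of_forall
    intro y
    have hs0 : 0 ≤ Real.sqrt (4 + y ^ 2) := Real.sqrt_nonneg _
    have hs1 : Real.sqrt (4 + y ^ 2) ^ 2 = 4 + y ^ 2 := Real.sq_sqrt (by positivity)
    have hs2 : |y| < Real.sqrt (4 + y ^ 2) := by
      rw [← Real.sqrt_sq_eq_abs]
      exact Real.sqrt_lt_sqrt (sq_nonneg y) (by linarith)
    have hs3 : y < Real.sqrt (4 + y ^ 2) := (le_abs_self y).trans_lt hs2
    obtain ⟨s, hs⟩ : ∃ s, s = Real.sqrt (4 + y ^ 2) := ⟨_, rfl⟩
    rw [← hs] at hs0 hs1 hs3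
    obtain ⟨w, hw⟩ : ∃ w, w = (2 - y + s) / 2 := ⟨_, rfl⟩
    have hw1 : 1 < w := by rw [hw]; linarith
    have hw2 : w ^ 2 = (2 - y) * w + y := by
      have h1 : s = 2 * w - 2 + y := by rw [hw]; ring
      rw [h1] at hs1
      nlinarith [hs1]
    refine ⟨1 / w, ⟨by positivity, ?_⟩, ?_⟩
    · rw [div_lt_one (by linarith)]
      exact hw1
    · change 1 / (1 - 1 / w) - 1 / (1 / w) = y
      have h3 : w ≠ 0 := by linarith
      have h4 : w - 1 ≠ 0 := by linarith
      have h5 : 1 - 1 / w = (w - 1) / w := by field_simp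
      rw [h5, one_div_one_div, one_div_div, div_sub' h4, div_eq_iff h4]
      linarith [hw2]

namespace RTree

variable {D : Type} {R : Ribbon D} (T : RTree R)

theorem t12_lo_inj (d e : {d : D // T.Leg d}) (h : T.lo d.1 = T.lo e.1) : d = e := by
  have h1 := (T.lo_lt d.2.1).2.1
  have h2 := (T.lo_lt e.2.1).2.1
  apply Subtype.ext
  have h3 : T.lo d.1 < (T.lo d.1 + min (T.hi d.1) (T.hi e.1)) / 2 := by
    have : T.lo d.1 < min (T.hi d.1) (T.hi e.1) := lt_min h1 (by rw [h]; exact h2)
    linarith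
  have h4 : (T.lo d.1 + min (T.hi d.1) (T.hi e.1)) / 2 < min (T.hi d.1) (T.hi e.1) := by
    have : T.lo d.1 < min (T.hi d.1) (T.hi e.1) := lt_min h1 (by rw [h]; exact h2)
    linarith
  exact T.leg_disj d.2 e.2 h3 (h4.trans_le (min_le_left _ _)) (by rw [← h]; exact h3)
    (h4.trans_le (min_le_right _ _))

theorem t12_hi_le (d e : {d : D // T.Leg d}) (h : T.lo d.1 < T.lo e.1) : T.hi d.1 ≤ T.lo e.1 := by
  by_contra h0
  push Not at h0
  have h1 := (T.lo_lt d.2.1).2.1
  have h2 := (T.lo_lt e.2.1).2.1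
  have h3 : T.lo e.1 < min (T.hi d.1) (T.hi e.1) := lt_min h0 h2
  have h5 : d.1 = e.1 := T.leg_disj (x := (T.lo e.1 + min (T.hi d.1) (T.hi e.1)) / 2) d.2 e.2
    (by linarith) (by linarith [min_le_left (T.hi d.1) (T.hi e.1)]) (by linarith)
    (by linarith [min_le_right (T.hi d.1) (T.hi e.1)])
  rw [h5] at h
  exact lt_irrefl _ h

end RTree

theorem t12_isQ {P X Y : Type*} [TopologicalSpace P] [TopologicalSpace X] [TopologicalSpace Y]
    (f : P → X) (g : X → Y) (h1 : IsClosedMap f) (h2 : Continuous f) (h3 : Function.Surjective f)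
    (h4 : IsQuotientMap g) : IsQuotientMap (g ∘ f) := h4.comp (h1.isQuotientMap h2 h3)

/-- the order of the legs -/
@[reducible] noncomputable def t12_order {D : Type} {R : Ribbon D} (T : RTree R) :
    LinearOrder {d : D // T.Leg d} :=
  LinearOrder.lift' (fun d => T.lo d.1) (fun d e h => T.t12_lo_inj d e h)

theorem rib_of_star (star : ℕ → Bool → ℕ → Bool → Strip → ℝ × ℝ) (hs : IsStar star)
    (hU : OrderLemma) : RibStmt := by
  intro D R hc hne
  obtain ⟨T⟩ := exists_tree R hne
  let iE : LinearOrder {d : D // T.Leg d} := t12_order T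
  have hE : Countable {d : D // T.Leg d} := inferInstance
  have : Encodable {d : D // T.Leg d} := Encodable.ofCountable _
  obtain ⟨wt, hwt, c, hsum, -⟩ := posSumOfEncodable (zero_lt_one (α := ℝ)) {d : D // T.Leg d}
  let C : ChordDiag {d : D // T.Leg d} :=
    { inv := fun d => ⟨R.al d.1, T.leg_al d.2⟩
      inv_inv := fun d => Subtype.ext (R.al_al d.1)
      inv_ne := fun d h => R.al_ne d.1 (congrArg Subtype.val h)
      wt := wt
      wt_pos := hwt
      wt_summable := hsum.summable }
  refine ⟨{d : D // T.Leg d}, iE, C, hE, ?_⟩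
  obtain ⟨g, hg1, hg2, hg3⟩ := T_g
  obtain ⟨Φ1, hΦ1⟩ := T.straight
  have hlt : ∀ d : {d : D // T.Leg d}, T.lo d.1 < T.hi d.1 := fun d => (T.lo_lt d.2.1).2.1
  obtain ⟨Φ2, hΦ2⟩ := hU {d : D // T.Leg d} iE C (Ioo 0 1) g (fun d => T.lo d.1) (fun d => T.hi d.1)
    (fun d x => (x - T.lo d.1) / (T.hi d.1 - T.lo d.1)) isOpen_Ioo hg1 hg2 hg3 hlt
    (fun d => by
      apply Ioo_subset_Ioo
      · exact (T.aa_lt d.1).1.trans (T.lo_lt d.2.1).1
      · exact (T.lo_lt d.2.1).2.2.trans (T.aa_lt d.1).2.2)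
    (fun d e hde => T.t12_hi_le d e hde)
    (fun d => by
      have h1 := hlt d
      have h2 : 0 < T.hi d.1 - T.lo d.1 := by linarith
      constructor
      · intro x _ y _ hxy
        exact div_lt_div_of_pos_right (by linarith) h2
      · ext t
        constructor
        · rintro ⟨x, hx, rfl⟩
          exact ⟨div_pos (by linarith [hx.1]) h2, by
            change (x - T.lo d.1) / (T.hi d.1 - T.lo d.1) < 1
            rw [div_lt_one h2]; linarith [hx.2]⟩
        · intro ht
          refine ⟨T.lo d.1 + t * (T.hi d.1 - T.lo d.1), ⟨?_, ?_⟩, ?_⟩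
          · nlinarith [mul_pos ht.1 h2]
          · nlinarith [mul_lt_mul_of_pos_right ht.2 h2]
          · change (T.lo d.1 + t * (T.hi d.1 - T.lo d.1) - T.lo d.1) / (T.hi d.1 - T.lo d.1) = t
            rw [add_sub_cancel_left, mul_div_cancel_right₀ _ h2.ne'])
  have hm : ∀ d e p, T.gpt star d e p ∈ T.Om := fun d e p => T.gpt_mem hs d e p
  -- the composition into the domain of the chord diagram
  let ψ : D × Bool × Strip → C.Dom := fun w => Φ2 (Φ1 (T.qq hm w))
  have hψ_def : ∀ w, ψ w = Φ2 (Φ1 (T.qq hm w)) := fun w => rfl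
  let Q : D × Bool × Strip → C.Surface := fun w => Quot.mk C.Rel (ψ w)
  have hψ_inj : ∀ d e p d' e' p', ψ (d, e, p) = ψ (d', e', p') →
      Relation.EqvGen R.Rel (d, e, p) (d', e', p') := by
    intro d e p d' e' p' h
    have h1 : T.qq hm (d, e, p) = T.qq hm (d', e', p') := Φ1.injective (Φ2.injective h)
    exact T.gpt_ker hs (congrArg Subtype.val h1)
  have hψ_congr : ∀ d e p d' e' p', T.gpt star d e p = T.gpt star d' e' p' →
      ψ (d, e, p) = ψ (d', e', p') := by
    intro d e p d' e' p' h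
    have h1 : T.qq hm (d, e, p) = T.qq hm (d', e', p') := Subtype.ext h
    rw [hψ_def, hψ_def, h1]
  have hψ_surj : Function.Surjective ψ := by
    intro y
    obtain ⟨p, rfl⟩ := Φ2.surjective y
    obtain ⟨z, rfl⟩ := Φ1.surjective p
    obtain ⟨d, e, p, h⟩ := T.gpt_surj hs z.2
    exact ⟨(d, e, p), by rw [hψ_def]; congr 2; exact Subtype.ext h⟩
  -- points over the boundary
  have hψ_bd : ∀ (l : {d : D // T.Leg d}) (w : D × Bool × Strip) (t : Ioo (0 : ℝ) 1),
      T.gpt star w.1 w.2.1 w.2.2 = (T.lo l.1 + t.1 * (T.hi l.1 - T.lo l.1),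
        T.tent l.1 (T.lo l.1 + t.1 * (T.hi l.1 - T.lo l.1))) → ψ w = C.bd l t := by
    intro l w t h
    have h1 := hlt l
    have h2 : 0 < T.hi l.1 - T.lo l.1 := by linarith
    have h3 : T.lo l.1 < T.lo l.1 + t.1 * (T.hi l.1 - T.lo l.1) := by
      nlinarith [mul_pos t.2.1 h2]
    have h4 : T.lo l.1 + t.1 * (T.hi l.1 - T.lo l.1) < T.hi l.1 := by
      nlinarith [mul_lt_mul_of_pos_right t.2.2 h2]
    have h5 : (Φ1 (T.qq hm w)).1 = (T.lo l.1 + t.1 * (T.hi l.1 - T.lo l.1), 0) := by
      rw [hΦ1]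
      have h6 : (T.qq hm w).1 = (T.lo l.1 + t.1 * (T.hi l.1 - T.lo l.1),
        T.tent l.1 (T.lo l.1 + t.1 * (T.hi l.1 - T.lo l.1))) := h
      rw [h6]
      change (_, (T.tent l.1 (T.lo l.1 + t.1 * (T.hi l.1 - T.lo l.1)) -
        T.bl (T.lo l.1 + t.1 * (T.hi l.1 - T.lo l.1))) / _) = _
      rw [T.bl_leg l.2 h3 h4, sub_self, zero_div]
    apply Subtype.ext
    have h7 := hΦ2 (Φ1 (T.qq hm w)) l (by rw [h5]) (by rw [h5]; exact ⟨h3, h4⟩)
    rw [h5] at h7
    have h8 : (T.lo l.1 + t.1 * (T.hi l.1 - T.lo l.1) - T.lo l.1) / (T.hi l.1 - T.lo l.1) = t.1 := by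
      rw [add_sub_cancel_left, mul_div_cancel_right₀ _ h2.ne']
    dsimp only at h7
    rw [h8] at h7
    exact h7
  have hQ : @IsQuotientMap (D × Bool × Strip) C.Surface
      (@instTopologicalSpaceProd D (Bool × Strip) ⊥ inferInstance) _ Q := by
    have h1 : Function.Surjective (T.qq hm) := by
      intro z
      obtain ⟨d, e, p, h⟩ := T.gpt_surj hs z.2
      exact ⟨(d, e, p), Subtype.ext h⟩
    have h2 : IsQuotientMap (Quot.mk C.Rel) := isQuotientMap_quot_mk
    exact @t12_isQ (D × Bool × Strip) T.Om C.Surface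
      (@instTopologicalSpaceProd D (Bool × Strip) ⊥ inferInstance) _ _ (T.qq hm) _
      (T.closed_q hs hm) (T.cont_q hs hm) h1 ((h2.comp Φ2.isQuotientMap).comp Φ1.isQuotientMap)
  have hker1 : ∀ p q, Relation.EqvGen R.Rel p q → Q p = Q q := by
    intro p q h
    induction h with
    | rel a b h =>
      cases h with
      | edge d s => exact congrArg (Quot.mk C.Rel) (hψ_congr _ _ _ _ _ _ (T.gpt_edge hs d s))
      | corner d u => exact congrArg (Quot.mk C.Rel) (hψ_congr _ _ _ _ _ _ (T.gpt_corner hs d u))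
      | mid d u =>
        by_cases hl : T.Leg d
        · have hu0 : 0 ≤ u.1 := u.2.1
          have hu1 : u.1 < 1 := u.2.2
          have e1 := hψ_bd ⟨d, hl⟩ (d, true, (1, u)) ⟨(1 + u.1) / 2, by constructor <;> linarith⟩
            (T.gpt_slot_true hs hl.1 u)
          have e2 := hψ_bd ⟨R.al d, T.leg_al hl⟩ (R.al d, false, (1, u))
            ⟨(1 - u.1) / 2, by constructor <;> linarith⟩ (T.gpt_slot_false hs (T.leg_al hl).1 u)
          change Quot.mk C.Rel (ψ (d, true, (1, u))) = Quot.mk C.Rel (ψ (R.al d, false, (1, u)))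
          rw [e1, e2]
          exact Quot.sound (ChordDiag.Rel.glue (C := C) ⟨d, hl⟩ _ _ (by ring))
        · exact congrArg (Quot.mk C.Rel) (hψ_congr _ _ _ _ _ _ (T.gpt_mid hs hl u))
    | refl a => rfl
    | symm a b _ ih => exact ih.symm
    | trans a b c _ _ ih1 ih2 => exact ih1.trans ih2
  have hker2 : ∀ a b : C.Dom, Relation.EqvGen C.Rel a b → ∀ p q, ψ p = a → ψ q = b →
      Relation.EqvGen R.Rel p q := by
    intro a b h
    induction h with
    | rel a b h =>
      intro p q hp hq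
      cases h with
      | glue l t t' htt =>
        have ht := t.2
        have ht' := t'.2
        by_cases h2 : 1 / 2 ≤ t.1
        · let u : Set.Ico (0 : ℝ) 1 := ⟨2 * t.1 - 1, by constructor <;> linarith [ht.2]⟩
          have hu : u.1 = 2 * t.1 - 1 := rfl
          have e1 : ψ (l.1, true, (1, u)) = C.bd l t := by
            apply hψ_bd l (l.1, true, (1, u)) t
            change T.gpt star l.1 true (1, u) = _
            rw [T.gpt_slot_true hs l.2.1 u]
            have : (1 + u.1) / 2 = t.1 := by rw [hu]; ring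
            rw [this]
          have e2 : ψ (R.al l.1, false, (1, u)) = C.bd (C.inv l) t' := by
            apply hψ_bd (C.inv l) (R.al l.1, false, (1, u)) t'
            change T.gpt star (R.al l.1) false (1, u) = _
            rw [T.gpt_slot_false hs (T.leg_al l.2).1 u]
            have : (1 - u.1) / 2 = t'.1 := by rw [hu]; linarith
            rw [this]
          have e3 := hψ_inj _ _ _ _ _ _ (hp.trans e1.symm)
          have e4 := hψ_inj _ _ _ _ _ _ (e2.trans hq.symm)
          exact Relation.EqvGen.trans _ _ _ e3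
            (Relation.EqvGen.trans _ _ _ (Relation.EqvGen.rel _ _ (Ribbon.Rel.mid l.1 u)) e4)
        · let u : Set.Ico (0 : ℝ) 1 := ⟨1 - 2 * t.1, by constructor <;> linarith [ht.1]⟩
          have hu : u.1 = 1 - 2 * t.1 := rfl
          have e1 : ψ (l.1, false, (1, u)) = C.bd l t := by
            apply hψ_bd l (l.1, false, (1, u)) t
            change T.gpt star l.1 false (1, u) = _
            rw [T.gpt_slot_false hs l.2.1 u]
            have : (1 - u.1) / 2 = t.1 := by rw [hu]; ring
            rw [this]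
          have e2 : ψ (R.al l.1, true, (1, u)) = C.bd (C.inv l) t' := by
            apply hψ_bd (C.inv l) (R.al l.1, true, (1, u)) t'
            change T.gpt star (R.al l.1) true (1, u) = _
            rw [T.gpt_slot_true hs (T.leg_al l.2).1 u]
            have : (1 + u.1) / 2 = t'.1 := by rw [hu]; linarith
            rw [this]
          have e3 := hψ_inj _ _ _ _ _ _ (hp.trans e1.symm)
          have e4 := hψ_inj _ _ _ _ _ _ (e2.trans hq.symm)
          have e5 := Ribbon.Rel.mid (R := R) (R.al l.1) u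
          rw [R.al_al] at e5
          exact Relation.EqvGen.trans _ _ _ e3
            (Relation.EqvGen.trans _ _ _ (Relation.EqvGen.symm _ _ (Relation.EqvGen.rel _ _ e5)) e4)
    | refl a =>
      intro p q hp hq
      exact hψ_inj _ _ _ _ _ _ (hp.trans hq.symm)
    | symm a b _ ih =>
      intro p q hp hq
      exact Relation.EqvGen.symm _ _ (ih q p hq hp)
    | trans a b c _ _ ih1 ih2 =>
      intro p q hp hq
      obtain ⟨r, hr⟩ := hψ_surj b
      exact Relation.EqvGen.trans _ _ _ (ih1 p r hp hr) (ih2 r q hr hq)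
  have hk : ∀ p q, Q p = Q q ↔ Relation.EqvGen R.Rel p q := by
    intro p q
    constructor
    · intro h
      exact hker2 _ _ (Quot.eqvGen_exact h) p q rfl rfl
    · exact hker1 p q
  exact @tq_quot_homeo (D × Bool × Strip) C.Surface
    (@instTopologicalSpaceProd D (Bool × Strip) ⊥ inferInstance) _ R.Rel Q hQ hk

end Pool.Agent.AllSurf
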