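import Pool.Agent.Lib.MP_7f477e_gt.Iface

/-!
# MP_7f477e_gt, part T (ribbon surface = chord surface): definitions

Plan (all planar geometry is fibrewise over the first coordinate, proposal of helper9):
* a spanning tree of the ribbon graph (`RTree`): every vertex has a level, its darts are numbered
  `idx`: `0` is the parent dart (not at the root), `1, ..., nn` are the slots;
* every vertex has an open interval `J = (a, b)` in `(0, 1)`; the slots divide it into `nn` equal parts; the
  child at a slot has this part as its interval;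
* `tau` = roof of the vertex = `2^-level * dist(x, complement of J)`, `beta` = the tents over the parts with half
  the slope = the roofs of the children;
* the vertex piece is mapped to `beta <= y <= tau` (flat star, `IsStar`), the intervals
  `[beta_v(x), tau_v(x)]` of the vertices `v` over a point `x` are consecutive and shrink to `0`.
-/

set_option autoImplicit false

open Set Topology

namespace Pool.Agent.AllSurf

/-! ### the flat star -/

/-- distance to the nearest integer -/
noncomputable def tri (w : ℝ) : ℝ := |w - round w|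

/-- valid indices: `0` is the parent dart, only if the vertex is not the root -/
def Val (N : ℕ) (root : Bool) (k : ℕ) : Prop := k ≤ N ∧ (root = true → 1 ≤ k)

/-- the next index -/
def nxt (N : ℕ) (root : Bool) (k : ℕ) : ℕ := if k < N then k + 1 else if root = true then 1 else 0

/-- the star region in flat coordinates `(x, t)`: `t = 1` is the roof, `t = 0` the bottom with its `N`
open parts -/
def QQ (N : ℕ) (root : Bool) : Set (ℝ × ℝ) :=
  {z | 0 < z.1 ∧ z.1 < 1 ∧ 0 ≤ z.2 ∧ z.2 ≤ 1 ∧ (root = true → z.2 < 1) ∧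
    (z.2 = 0 → ∃ k : ℕ, 1 ≤ k ∧ k ≤ N ∧ ((k : ℝ) - 1) / N < z.1 ∧ z.1 < k / N)}

/-- height above a point of the star (interval `(0,1)`, level `0`) -/
noncomputable def hh (N : ℕ) (z : ℝ × ℝ) : ℝ :=
  (1 - z.2) * (tri (N * z.1) / (2 * N)) + z.2 * min z.1 (1 - z.1)

/-- gluing of the strips of one vertex -/
inductive LR (N : ℕ) (root : Bool) : ℕ × Bool × Strip → ℕ × Bool × Strip → Prop
  | edge (k : ℕ) (hk : Val N root k) (s : unitInterval) :
      LR N root (k, true, (s, u0)) (k, false, (s, u0))
  | corner (k : ℕ) (hk : Val N root k) (u : Set.Ico (0 : ℝ) 1) :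
      LR N root (k, true, (0, u)) (nxt N root k, false, (0, u))

/-- the flat star map -/
structure IsStar (star : ℕ → Bool → ℕ → Bool → Strip → ℝ × ℝ) : Prop where
  mem : ∀ N root k e p, Val N root k → star N root k e p ∈ QQ N root
  cont : ∀ N root k e, Val N root k → Continuous (star N root k e)
  surj : ∀ N root z, (root = true → 1 ≤ N) → z ∈ QQ N root →
    ∃ k e p, Val N root k ∧ star N root k e p = z
  ker : ∀ N root k e p k' e' p', Val N root k → Val N root k' →
    (star N root k e p = star N root k' e' p' ↔ Relation.EqvGen (LR N root) (k, e, p) (k', e', p'))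
  slot_true : ∀ N root (k : ℕ) (u : Set.Ico (0 : ℝ) 1), 1 ≤ k → k ≤ N →
    star N root k true (1, u) = (((k : ℝ) - 1 / 2 + u.1 / 2) / N, 0)
  slot_false : ∀ N root (k : ℕ) (u : Set.Ico (0 : ℝ) 1), 1 ≤ k → k ≤ N →
    star N root k false (1, u) = (((k : ℝ) - 1 / 2 - u.1 / 2) / N, 0)
  top_true : ∀ N (u : Set.Ico (0 : ℝ) 1), star N false 0 true (1, u) = ((1 - u.1) / 2, 1)
  top_false : ∀ N (u : Set.Ico (0 : ℝ) 1), star N false 0 false (1, u) = ((1 + u.1) / 2, 1)
  zero : ∀ N root k e p, Val N root k → (star N root k e p).2 = 0 → 1 ≤ k ∧ p.1 = 1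
  one : ∀ N root k e p, Val N root k → (star N root k e p).2 = 1 → k = 0 ∧ p.1 = 1
  low : ∀ N k e (p : Strip), k ≤ N → hh N (star N false k e p) ≤ 2 * (1 - p.2.1)
  low_root : ∀ N k e (p : Strip), k ≤ N → 1 ≤ k →
    min (hh N (star N true k e p))
      (min (star N true k e p).1 (1 - (star N true k e p).1) - hh N (star N true k e p)) ≤
        2 * (1 - p.2.1)

/-! ### spanning trees -/

/-- A spanning tree of a ribbon graph. `fst d` is the first dart of the vertex of `d` (the parent dart,
or the dart with index `1` at the root). -/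
structure RTree {D : Type} (R : Ribbon D) where
  lev : D → ℕ
  nn : D → ℕ
  idx : D → ℕ
  fst : D → D
  lev_nu : ∀ d, lev (R.nu d) = lev d
  nn_nu : ∀ d, nn (R.nu d) = nn d
  fst_nu : ∀ d, fst (R.nu d) = fst d
  lev_fst : ∀ d, lev (fst d) = lev d
  nn_fst : ∀ d, nn (fst d) = nn d
  fst_fst : ∀ d, fst (fst d) = fst d
  idx_fst : ∀ d, idx (fst d) = if lev d = 0 then 1 else 0
  idx_le : ∀ d, idx d ≤ nn d
  idx_root : ∀ d, lev d = 0 → 1 ≤ idx d
  idx_nu : ∀ d, idx (R.nu d) = if idx d < nn d then idx d + 1 else if lev d = 0 then 1 else 0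
  inj : ∀ d e, fst d = fst e → idx d = idx e → d = e
  exists_idx : ∀ d k, k ≤ nn d → (lev d = 0 → 1 ≤ k) → ∃ e, fst e = fst d ∧ idx e = k
  root : ∀ d e, lev d = 0 → lev e = 0 → fst d = fst e
  exists_root : ∃ d, lev d = 0
  tree : ∀ d, idx d = 0 → lev (R.al d) + 1 = lev d
  lev_fin : ∀ n, {d | lev d = n}.Finite

namespace RTree

variable {D : Type} {R : Ribbon D} (T : RTree R)

/-- is the vertex of `d` the root? -/
def rt (d : D) : Bool := decide (T.lev d = 0)

/-- the `k`-th of `N` equal parts of an interval -/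
noncomputable def part (I : ℝ × ℝ) (k N : ℕ) : ℝ × ℝ :=
  (I.1 + (I.2 - I.1) * (((k : ℝ) - 1) / N), I.1 + (I.2 - I.1) * ((k : ℝ) / N))

/-- interval of the vertex of `d`, recursion on the level -/
noncomputable def vIn : ℕ → D → ℝ × ℝ
  | 0, _ => (0, 1)
  | n + 1, d => part (vIn n (R.al (T.fst d))) (T.idx (R.al (T.fst d))) (T.nn (R.al (T.fst d)))

/-- end points of the interval of the vertex of `d` -/
noncomputable def aa (d : D) : ℝ := (T.vIn (T.lev d) d).1
noncomputable def ab (d : D) : ℝ := (T.vIn (T.lev d) d).2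

/-- end points of the part of the slot `d` -/
noncomputable def lo (d : D) : ℝ := (part (T.aa d, T.ab d) (T.idx d) (T.nn d)).1
noncomputable def hi (d : D) : ℝ := (part (T.aa d, T.ab d) (T.idx d) (T.nn d)).2

/-- scale of the vertex of `d` -/
noncomputable def sc (d : D) : ℝ := (1 / 2) ^ T.lev d * (T.ab d - T.aa d)

/-- roof of the vertex of `d` -/
noncomputable def tau (d : D) (x : ℝ) : ℝ := (1 / 2) ^ T.lev d * min (x - T.aa d) (T.ab d - x)

/-- bottom of the vertex of `d` -/
noncomputable def beta (d : D) (x : ℝ) : ℝ :=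
  T.sc d * (tri (T.nn d * ((x - T.aa d) / (T.ab d - T.aa d))) / (2 * T.nn d))

/-- tent over the part of the slot `d` -/
noncomputable def tent (d : D) (x : ℝ) : ℝ :=
  (1 / 2) ^ (T.lev d + 1) * min (x - T.lo d) (T.hi d - x)

/-- legs: darts which are not in the tree -/
def Leg (d : D) : Prop := 1 ≤ T.idx d ∧ 1 ≤ T.idx (R.al d)

/-- the region between the tents of the legs and the roof of the root -/
def Om : Set (ℝ × ℝ) :=
  {z | 0 < z.1 ∧ z.1 < 1 ∧ 0 < z.2 ∧ z.2 < min z.1 (1 - z.1) ∧
    ∀ d, T.Leg d → T.lo d < z.1 → z.1 < T.hi d → T.tent d z.1 ≤ z.2}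

/-- the global map on the strips -/
noncomputable def gpt (star : ℕ → Bool → ℕ → Bool → Strip → ℝ × ℝ) (d : D) (e : Bool) (p : Strip) :
    ℝ × ℝ :=
  (T.aa d + (T.ab d - T.aa d) * (star (T.nn d) (T.rt d) (T.idx d) e p).1,
    T.sc d * hh (T.nn d) (star (T.nn d) (T.rt d) (T.idx d) e p))

end RTree

end Pool.Agent.AllSurf
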