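import Pool.Agent.Lib.MP_7f477e_gt.TK

/-! Flat stars: the pieces and their identities, in real coordinates. -/

set_option autoImplicit false

namespace Pool.Agent.AllSurf

/-- piece of the fan: triangle with vertices `(1/2,1/2)`, the middle and one end point of slot `k` -/
noncomputable def fanF (N k : ℕ) (e : Bool) (q : ℝ × ℝ) : ℝ × ℝ :=
  ((1 - q.2) * ((1 - q.1) / 2 + q.1 * (((k : ℝ) - 1 / 2) / N)) +
      q.2 * ((if e then (k : ℝ) else (k : ℝ) - 1) / N),
    (1 - q.2) * (1 - q.1) / 2)

/-- the two pieces of the parent dart -/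
noncomputable def parF (e : Bool) (q : ℝ × ℝ) : ℝ × ℝ :=
  (if e then (1 - q.2) / 2 else (1 + q.2) / 2, q.1 + (1 - q.1) * (1 - q.2) / 2)

/-- the two pieces of a leaf, after opening the corner -/
noncomputable def leafF (e : Bool) (q : ℝ × ℝ) : ℝ × ℝ :=
  (if e then (1 - q.2) / 2 else (1 + q.2) / 2, (1 + q.1) / 2)

/-- the two special pieces of the root, after opening the corner -/
noncomputable def spF (N k : ℕ) (e : Bool) (q : ℝ × ℝ) : ℝ × ℝ :=
  if 0 ≤ q.1 then fanF N k e q else parF (!e) (-q.1, q.2)

/-- all pieces -/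
noncomputable def starF (N : ℕ) (root : Bool) (k : ℕ) (e : Bool) (q : ℝ × ℝ) : ℝ × ℝ :=
  if k = 0 then (if N = 0 then leafF e (tkFun q) else parF e q)
  else if root = true ∧ ((k = 1 ∧ e = false) ∨ (k = N ∧ e = true)) then spF N k e (tkFun q)
  else fanF N k e q

theorem fanF_r (N k : ℕ) (e : Bool) (s u : ℝ) :
    1 - 2 * (fanF N k e (s, u)).2 = s * (1 - u) + u := by
  unfold fanF
  simp only
  ring

theorem fanF_w_false {N : ℕ} (hN : 1 ≤ N) (k : ℕ) (s u : ℝ) :
    2 * N * ((fanF N k false (s, u)).1 - (fanF N k false (s, u)).2) =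
      (2 * (k : ℝ) - 2) * (s * (1 - u) + u) + s * (1 - u) := by
  have hN' : (N : ℝ) ≠ 0 := by positivity
  unfold fanF
  simp only [Bool.false_eq_true, if_false]
  field_simp
  ring

theorem fanF_w_true {N : ℕ} (hN : 1 ≤ N) (k : ℕ) (s u : ℝ) :
    2 * N * ((fanF N k true (s, u)).1 - (fanF N k true (s, u)).2) =
      (2 * (k : ℝ) - 1) * (s * (1 - u) + u) + u := by
  have hN' : (N : ℝ) ≠ 0 := by positivity
  unfold fanF
  simp only [if_true]
  field_simp
  ring

/-- the corner, written once -/
def Z2 (q q' : ℝ × ℝ) : Prop := q = (0, 0) ∧ q' = (0, 0)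

theorem zero_of_r {s u : ℝ} (h0 : 0 ≤ s) (h2 : 0 ≤ u) (h3 : u < 1) (h : s * (1 - u) + u = 0) :
    s = 0 ∧ u = 0 := by
  have h4 : 0 ≤ s * (1 - u) := mul_nonneg h0 (by linarith)
  have h5 : u = 0 := by linarith
  subst h5
  constructor
  · linarith
  · rfl

theorem eq_of_a {s s' u : ℝ} (h3 : u < 1) (h : s * (1 - u) = s' * (1 - u)) : s = s' :=
  mul_right_cancel₀ (by linarith) h

/-- collision of two fan pieces -/
theorem fan_fan {N k k' : ℕ} {e e' : Bool} {s u s' u' : ℝ} (hN : 1 ≤ N)
    (h0 : 0 ≤ s) (h1 : s ≤ 1) (h2 : 0 ≤ u) (h3 : u < 1)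
    (h0' : 0 ≤ s') (h1' : s' ≤ 1) (h2' : 0 ≤ u') (h3' : u' < 1)
    (h : fanF N k e (s, u) = fanF N k' e' (s', u')) :
    (s = 0 ∧ u = 0 ∧ s' = 0 ∧ u' = 0) ∨ (k = k' ∧ e = e' ∧ s = s' ∧ u = u') ∨
    (k = k' ∧ e ≠ e' ∧ u = 0 ∧ u' = 0 ∧ s = s') ∨
    (k' = k + 1 ∧ e = true ∧ e' = false ∧ s = 0 ∧ s' = 0 ∧ u = u') ∨
    (k = k' + 1 ∧ e' = true ∧ e = false ∧ s = 0 ∧ s' = 0 ∧ u = u') := by
  have hr := fanF_r N k e s u
  have hr' := fanF_r N k' e' s' u'
  rw [h] at hr
  have hrr : s * (1 - u) + u = s' * (1 - u') + u' := by rw [← hr, ← hr']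
  have ha : 0 ≤ s * (1 - u) := mul_nonneg h0 (by linarith)
  have ha' : 0 ≤ s' * (1 - u') := mul_nonneg h0' (by linarith)
  rcases eq_or_lt_of_le (show 0 ≤ s * (1 - u) + u by linarith) with h4 | h4
  · left
    obtain ⟨h5, h6⟩ := zero_of_r h0 h2 h3 h4.symm
    obtain ⟨h5', h6'⟩ := zero_of_r h0' h2' h3' (hrr ▸ h4.symm)
    exact ⟨h5, h6, h5', h6'⟩
  · right
    set r : ℝ := s * (1 - u) + u with hrdef
    -- integer comparison
    have hint : ∀ m : ℤ, ∀ c : ℝ, (m : ℝ) * r = c → -r ≤ c → c ≤ r → -1 ≤ m ∧ m ≤ 1 := by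
      intro m c hm h5 h6
      constructor
      · by_contra hcon
        have : (m : ℝ) ≤ -2 := by exact_mod_cast (by omega : m ≤ -2)
        nlinarith
      · by_contra hcon
        have : (2 : ℝ) ≤ m := by exact_mod_cast (by omega : 2 ≤ m)
        nlinarith
    cases e <;> cases e'
    · -- false false
      have hw := fanF_w_false hN k s u
      have hw' := fanF_w_false hN k' s' u'
      rw [h] at hw
      rw [hw, ← hrr] at hw'
      left
      obtain ⟨h5, h6⟩ := hint (2 * k - 2 * k') (s' * (1 - u') - s * (1 - u))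
        (by push_cast; linarith) (by linarith) (by linarith)
      have h7 : k = k' := by omega
      subst h7
      have h8 : s * (1 - u) = s' * (1 - u') := by linarith
      have h9 : u = u' := by linarith
      subst h9
      exact ⟨rfl, rfl, eq_of_a h3 h8, rfl⟩
    · -- false true
      have hw := fanF_w_false hN k s u
      have hw' := fanF_w_true hN k' s' u'
      rw [h] at hw
      rw [hw, ← hrr] at hw'
      right
      obtain ⟨h5, h6⟩ := hint (2 * k - 2 * k' - 1) (u' - s * (1 - u))
        (by push_cast; linarith) (by linarith) (by linarith)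
      rcases (by omega : k = k' ∨ k = k' + 1) with h7 | h7
      · subst h7
        left
        have h8 : u' - s * (1 - u) = -r := by linarith
        have h9 : u' = 0 := by linarith
        have h10 : u = 0 := by linarith
        subst h9 h10
        exact ⟨rfl, by decide, rfl, rfl, by linarith⟩
      · subst h7
        right; right
        have h8 : u' - s * (1 - u) = r := by push_cast at hw'; linarith
        have h9 : s * (1 - u) = 0 := by linarith
        have h10 : u' = r := by linarith
        have h11 : s = 0 := by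
          rcases mul_eq_zero.1 h9 with h | h
          · exact h
          · linarith
        have h12 : s' * (1 - u') = 0 := by linarith
        have h13 : s' = 0 := by
          rcases mul_eq_zero.1 h12 with h | h
          · exact h
          · linarith
        exact ⟨rfl, rfl, rfl, h11, h13, by linarith⟩
    · -- true false
      have hw := fanF_w_true hN k s u
      have hw' := fanF_w_false hN k' s' u'
      rw [h] at hw
      rw [hw, ← hrr] at hw'
      right
      obtain ⟨h5, h6⟩ := hint (2 * k' - 2 * k - 1) (u - s' * (1 - u'))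
        (by push_cast; linarith) (by linarith) (by linarith)
      rcases (by omega : k = k' ∨ k' = k + 1) with h7 | h7
      · subst h7
        left
        have h8 : u - s' * (1 - u') = -r := by linarith
        have h9 : u = 0 := by linarith
        have h10 : u' = 0 := by linarith
        subst h9 h10
        exact ⟨rfl, by decide, rfl, rfl, by linarith⟩
      · subst h7
        right; left
        have h8 : u - s' * (1 - u') = r := by push_cast at hw'; linarith
        have h9 : s' * (1 - u') = 0 := by linarith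
        have h11 : s' = 0 := by
          rcases mul_eq_zero.1 h9 with h | h
          · exact h
          · linarith
        have h12 : s * (1 - u) = 0 := by linarith
        have h13 : s = 0 := by
          rcases mul_eq_zero.1 h12 with h | h
          · exact h
          · linarith
        exact ⟨rfl, rfl, rfl, h13, h11, by linarith⟩
    · -- true true
      have hw := fanF_w_true hN k s u
      have hw' := fanF_w_true hN k' s' u'
      rw [h] at hw
      rw [hw, ← hrr] at hw'
      left
      obtain ⟨h5, h6⟩ := hint (2 * k - 2 * k') (u' - u)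
        (by push_cast; linarith) (by linarith) (by linarith)
      have h7 : k = k' := by omega
      subst h7
      have h9 : u = u' := by linarith
      subst h9
      exact ⟨rfl, rfl, eq_of_a h3 (by linarith), rfl⟩

/-- collision of a parent piece and a fan piece -/
theorem par_fan {N k : ℕ} {e e' : Bool} {s u s' u' : ℝ} (hN : 1 ≤ N) (hk : 1 ≤ k) (hkN : k ≤ N)
    (h0 : 0 ≤ s) (h2 : 0 ≤ u) (h3 : u < 1)
    (h0' : 0 ≤ s') (h1' : s' ≤ 1) (h2' : 0 ≤ u') (h3' : u' < 1)
    (h : parF e (s, u) = fanF N k e' (s', u')) :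
    s = 0 ∧ ((u = 0 ∧ s' = 0 ∧ u' = 0) ∨
      (e = true ∧ k = 1 ∧ e' = false ∧ s' = 0 ∧ u = u') ∨
      (e = false ∧ k = N ∧ e' = true ∧ s' = 0 ∧ u = u')) := by
  have hk' : (1 : ℝ) ≤ k := by exact_mod_cast hk
  have hkN' : (k : ℝ) ≤ N := by exact_mod_cast hkN
  have hN' : (1 : ℝ) ≤ N := by exact_mod_cast hN
  have hr' := fanF_r N k e' s' u'
  have ha' : 0 ≤ s' * (1 - u') := mul_nonneg h0' (by linarith)
  rw [← h] at hr'
  have hz2 : (parF e (s, u)).2 = s + (1 - s) * (1 - u) / 2 := rfl
  set r : ℝ := s' * (1 - u') + u' with hrdef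
  have hr0 : 0 ≤ r := by linarith
  have hrd : 1 - 2 * (s + (1 - s) * (1 - u) / 2) = r := by rw [← hr', hz2]
  have hs0 : ∀ v : ℝ, 0 ≤ v → s * (1 + v) / 2 ≤ 0 → s = 0 := by
    intro v hv h5
    have h6 : 0 ≤ s * v := mul_nonneg h0 hv
    nlinarith
  cases e
  · -- e = false
    have hz1 : (parF false (s, u)).1 = (1 + u) / 2 := by simp [parF]
    have key : 2 * N * ((parF false (s, u)).1 - (parF false (s, u)).2) =
        2 * N * r + 2 * N * (s * (1 + u) / 2) := by
      rw [hz1, hz2, ← hrd]
      ring
    have hru : s = 0 → r = u := by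
      intro h5
      rw [← hrd, h5]
      ring
    cases e'
    · have hw := fanF_w_false hN k s' u'
      rw [← h, key] at hw
      have h6 : ((k : ℝ) - N) * r ≤ 0 := by nlinarith
      have h7 : 2 * (N : ℝ) * (s * (1 + u) / 2) ≤ -r := by nlinarith
      have h8 : s * (1 + u) / 2 ≤ 0 := by
        by_contra hcon
        push Not at hcon
        have : 0 < 2 * (N : ℝ) * (s * (1 + u) / 2) := by positivity
        linarith
      have h9 := hs0 u h2 h8
      have h10 := hru h9
      subst h9
      have h11 : r = 0 := by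
        have : 2 * (N : ℝ) * (0 * (1 + u) / 2) = 0 := by ring
        linarith
      obtain ⟨h12, h13⟩ := zero_of_r h0' h2' h3' h11
      exact ⟨rfl, Or.inl ⟨by linarith, h12, h13⟩⟩
    · have hw := fanF_w_true hN k s' u'
      rw [← h, key] at hw
      have h6 : ((k : ℝ) - N) * r ≤ 0 := by nlinarith
      have h7 : 2 * (N : ℝ) * (s * (1 + u) / 2) ≤ 0 := by nlinarith
      have h8 : s * (1 + u) / 2 ≤ 0 := by
        by_contra hcon
        push Not at hcon
        have : 0 < 2 * (N : ℝ) * (s * (1 + u) / 2) := by positivity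
        linarith
      have h9 := hs0 u h2 h8
      have h10 := hru h9
      subst h9
      refine ⟨rfl, ?_⟩
      have h11 : 2 * (N : ℝ) * r = (2 * (k : ℝ) - 1) * r + u' := by
        have : 2 * (N : ℝ) * (0 * (1 + u) / 2) = 0 := by ring
        linarith
      rcases eq_or_lt_of_le hr0 with h12 | h12
      · obtain ⟨h13, h14⟩ := zero_of_r h0' h2' h3' h12.symm
        exact Or.inl ⟨by linarith, h13, h14⟩
      · right; right
        have h13 : (N : ℝ) ≤ k := by
          by_contra hcon
          have h14 : (k : ℝ) + 1 ≤ N := by exact_mod_cast (by exact_mod_cast not_le.1 hcon : k < N)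
          nlinarith
        have h14 : k = N := le_antisymm hkN (by exact_mod_cast h13)
        subst h14
        have h15 : u' = r := by linarith
        have h16 : s' * (1 - u') = 0 := by linarith
        have h17 : s' = 0 := by
          rcases mul_eq_zero.1 h16 with h | h
          · exact h
          · linarith
        exact ⟨rfl, rfl, rfl, h17, by linarith⟩
  · -- e = true
    have hz1 : (parF true (s, u)).1 = (1 - u) / 2 := by simp [parF]
    have key : 2 * N * ((parF true (s, u)).1 - (parF true (s, u)).2) =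
        -(2 * N * (s * (1 + u) / 2)) := by
      rw [hz1, hz2]
      ring
    have hru : s = 0 → r = u := by
      intro h5
      rw [← hrd, h5]
      ring
    cases e'
    · have hw := fanF_w_false hN k s' u'
      rw [← h, key] at hw
      have h6 : 0 ≤ ((k : ℝ) - 1) * r := mul_nonneg (by linarith) hr0
      have h7 : 2 * (N : ℝ) * (s * (1 + u) / 2) ≤ 0 := by nlinarith
      have h8 : s * (1 + u) / 2 ≤ 0 := by
        by_contra hcon
        push Not at hcon
        have : 0 < 2 * (N : ℝ) * (s * (1 + u) / 2) := by positivity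
        linarith
      have h9 := hs0 u h2 h8
      have h10 := hru h9
      subst h9
      refine ⟨rfl, ?_⟩
      have h11 : 0 = (2 * (k : ℝ) - 2) * r + s' * (1 - u') := by
        have : 2 * (N : ℝ) * (0 * (1 + u) / 2) = 0 := by ring
        linarith
      rcases eq_or_lt_of_le hr0 with h12 | h12
      · obtain ⟨h13, h14⟩ := zero_of_r h0' h2' h3' h12.symm
        exact Or.inl ⟨by linarith, h13, h14⟩
      · right; left
        have h13 : (k : ℝ) ≤ 1 := by
          by_contra hcon
          push Not at hcon
          nlinarith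
        have h14 : k = 1 := le_antisymm (by exact_mod_cast h13) hk
        subst h14
        have h16 : s' * (1 - u') = 0 := by push_cast at h11; linarith
        have h17 : s' = 0 := by
          rcases mul_eq_zero.1 h16 with h | h
          · exact h
          · linarith
        exact ⟨rfl, rfl, rfl, h17, by linarith⟩
    · have hw := fanF_w_true hN k s' u'
      rw [← h, key] at hw
      have h6 : 0 ≤ ((k : ℝ) - 1) * r := mul_nonneg (by linarith) hr0
      have h7 : 2 * (N : ℝ) * (s * (1 + u) / 2) ≤ -r := by nlinarith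
      have h8 : s * (1 + u) / 2 ≤ 0 := by
        by_contra hcon
        push Not at hcon
        have : 0 < 2 * (N : ℝ) * (s * (1 + u) / 2) := by positivity
        linarith
      have h9 := hs0 u h2 h8
      have h10 := hru h9
      subst h9
      have h11 : r = 0 := by
        have : 2 * (N : ℝ) * (0 * (1 + u) / 2) = 0 := by ring
        linarith
      obtain ⟨h12, h13⟩ := zero_of_r h0' h2' h3' h11
      exact ⟨rfl, Or.inl ⟨by linarith, h12, h13⟩⟩

/-- collision of two parent pieces -/
theorem par_par {e e' : Bool} {s u s' u' : ℝ} (h2 : 0 ≤ u) (h2' : 0 ≤ u')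
    (h : parF e (s, u) = parF e' (s', u')) :
    (e = e' ∧ s = s' ∧ u = u') ∨ (e ≠ e' ∧ u = 0 ∧ u' = 0 ∧ s = s') := by
  have h1 := congrArg Prod.fst h
  have h3 := congrArg Prod.snd h
  unfold parF at h1 h3
  simp only at h1 h3
  cases e <;> cases e'
  · left
    simp only [Bool.false_eq_true, if_false] at h1
    have hu : u = u' := by linarith
    subst hu
    refine ⟨rfl, ?_, rfl⟩
    have : (s - s') * (1 + u) = 0 := by linarith
    rcases mul_eq_zero.1 this with h4 | h4 <;> linarith
  · right
    simp only [Bool.false_eq_true, if_false, if_true] at h1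
    have hu : u = 0 := by linarith
    have hu' : u' = 0 := by linarith
    subst hu hu'
    exact ⟨by decide, rfl, rfl, by linarith⟩
  · right
    simp only [Bool.false_eq_true, if_false, if_true] at h1
    have hu : u = 0 := by linarith
    have hu' : u' = 0 := by linarith
    subst hu hu'
    exact ⟨by decide, rfl, rfl, by linarith⟩
  · left
    simp only [if_true] at h1
    have hu : u = u' := by linarith
    subst hu
    refine ⟨rfl, ?_, rfl⟩
    have : (s - s') * (1 + u) = 0 := by linarith
    rcases mul_eq_zero.1 this with h4 | h4 <;> linarith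

/-- collision of two leaf pieces -/
theorem leaf_leaf {e e' : Bool} {q q' : ℝ × ℝ} (h2 : 0 ≤ q.2) (h2' : 0 ≤ q'.2)
    (h : leafF e q = leafF e' q') :
    (e = e' ∧ q = q') ∨ (e ≠ e' ∧ q.2 = 0 ∧ q'.2 = 0 ∧ q.1 = q'.1) := by
  have h1 := congrArg Prod.fst h
  have h3 := congrArg Prod.snd h
  unfold leafF at h1 h3
  simp only at h1 h3
  have h4 : q.1 = q'.1 := by linarith
  cases e <;> cases e'
  · left
    simp only [Bool.false_eq_true, if_false] at h1
    exact ⟨rfl, Prod.ext h4 (by linarith)⟩
  · right
    simp only [Bool.false_eq_true, if_false, if_true] at h1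
    exact ⟨by decide, by linarith, by linarith, h4⟩
  · right
    simp only [Bool.false_eq_true, if_false, if_true] at h1
    exact ⟨by decide, by linarith, by linarith, h4⟩
  · left
    simp only [if_true] at h1
    exact ⟨rfl, Prod.ext h4 (by linarith)⟩

theorem tkFun_inj {q q' : ℝ × ℝ} (hq : q ∈ HsSet) (hq' : q' ∈ HsSet) (h : tkFun q = tkFun q') :
    q = q' := by
  rw [← tk_left hq, ← tk_left hq', h]

/-- points with `u' = 0` and `s' ≥ 0` -/
theorem tk_pos {s u σ : ℝ} (h0 : 0 ≤ s) (hu : 0 ≤ u) (hσ : 0 ≤ σ) (h : tkFun (s, u) = (σ, 0)) :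
    s = σ ∧ u = 0 := by
  have h1 := congrArg Prod.fst h
  have h2 := congrArg Prod.snd h
  unfold tkFun at h1 h2
  simp only at h1 h2
  rw [h2, sub_zero, div_one] at h1
  rcases mul_eq_zero.1 h2 with h3 | h3
  · have : u = 0 := by linarith
    exact ⟨by linarith, this⟩
  · exact ⟨by linarith, h3⟩

/-- points with `u' = 0` and `s' ≤ 0` -/
theorem tk_neg {s u σ : ℝ} (h0 : 0 ≤ s) (hu : 0 ≤ u) (hσ : 0 ≤ σ) (h : tkFun (s, u) = (-σ, 0)) :
    s = 0 ∧ u = σ := by
  have h1 := congrArg Prod.fst h
  have h2 := congrArg Prod.snd h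
  unfold tkFun at h1 h2
  simp only at h1 h2
  rw [h2, sub_zero, div_one] at h1
  rcases mul_eq_zero.1 h2 with h3 | h3
  · exact ⟨h3, by linarith⟩
  · have : s = 0 := by linarith
    exact ⟨this, by linarith⟩

end Pool.Agent.AllSurf
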