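import Pool.Agent.Lib.MP_7f477e_gt.TFlat
import Pool.Agent.Lib.MP_7f477e_gt.TDefs

/-! Flat stars: membership, continuity, surjectivity, heights. -/

set_option autoImplicit false

open Set Topology

namespace Pool.Agent.AllSurf

theorem fan_mem {N k : ℕ} {root e : Bool} (hk : 1 ≤ k) (hkN : k ≤ N) {q : ℝ × ℝ}
    (hq : q ∈ HsSet) : fanF N k e q ∈ QQ N root := by
  obtain ⟨s, u⟩ := q
  obtain ⟨h0, h1, h2, h3⟩ := hq
  simp only at h0 h1 h2 h3
  have hN : 1 ≤ N := hk.trans hkN
  have hk' : (1 : ℝ) ≤ k := by exact_mod_cast hk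
  have hkN' : (k : ℝ) ≤ N := by exact_mod_cast hkN
  have hN' : (1 : ℝ) ≤ N := by exact_mod_cast hN
  have hN0 : (0 : ℝ) < N := by linarith
  -- the two end points
  set m : ℝ := ((k : ℝ) - 1 / 2) / N with hm
  set b : ℝ := (if e then (k : ℝ) else (k : ℝ) - 1) / N with hb
  have hm0 : 0 < m := div_pos (by linarith) hN0
  have hm1 : m < 1 := by rw [hm, div_lt_one hN0]; linarith
  have hb0 : 0 ≤ b := by
    apply div_nonneg _ hN0.le
    cases e
    · simp only [Bool.false_eq_true, if_false]; linarith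
    · simp only [if_true]; linarith
  have hb1 : b ≤ 1 := by
    rw [hb, div_le_one hN0]
    cases e
    · simp only [Bool.false_eq_true, if_false]; linarith
    · simp only [if_true]; linarith
  have hx : (fanF N k e (s, u)).1 = (1 - u) * ((1 - s) / 2 + s * m) + u * b := rfl
  have ht : (fanF N k e (s, u)).2 = (1 - u) * (1 - s) / 2 := rfl
  have hc0 : 0 < (1 - s) / 2 + s * m := by
    rcases eq_or_lt_of_le h1 with h | h
    · rw [h]; linarith
    · have : 0 ≤ s * m := mul_nonneg h0 hm0.le
      linarith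
  have hc1 : (1 - s) / 2 + s * m < 1 := by
    rcases eq_or_lt_of_le h1 with h | h
    · rw [h]; linarith
    · nlinarith
  refine ⟨?_, ?_, ?_, ?_, ?_, ?_⟩
  · rw [hx]
    have : 0 < (1 - u) * ((1 - s) / 2 + s * m) := mul_pos (by linarith) hc0
    have : 0 ≤ u * b := mul_nonneg h2 hb0
    linarith
  · rw [hx]
    nlinarith
  · rw [ht]
    have : 0 ≤ (1 - u) * (1 - s) := mul_nonneg (by linarith) (by linarith)
    linarith
  · rw [ht]
    nlinarith
  · intro _
    rw [ht]
    nlinarith
  · intro h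
    rw [ht] at h
    have hs : s = 1 := by
      have : (1 - u) * (1 - s) = 0 := by linarith
      rcases mul_eq_zero.1 this with h4 | h4 <;> linarith
    refine ⟨k, hk, hkN, ?_, ?_⟩
    · rw [hx, hs]
      have h5 : ((k : ℝ) - 1) / N ≤ b := by
        rw [hb]
        apply div_le_div_of_nonneg_right _ hN0.le
        cases e
        · simp
        · simp
      have h6 : ((k : ℝ) - 1) / N < m := by
        rw [hm]
        apply div_lt_div_of_pos_right _ hN0
        linarith
      nlinarith
    · rw [hx, hs]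
      have h5 : b ≤ (k : ℝ) / N := by
        rw [hb]
        apply div_le_div_of_nonneg_right _ hN0.le
        cases e
        · simp
        · simp
      have h6 : m < (k : ℝ) / N := by
        rw [hm]
        apply div_lt_div_of_pos_right _ hN0
        linarith
      nlinarith

theorem par_mem {N : ℕ} {root e : Bool} {q : ℝ × ℝ} (hq : q ∈ HsSet) (hr : root = true → q.1 < 1) :
    parF e q ∈ QQ N root := by
  obtain ⟨s, u⟩ := q
  obtain ⟨h0, h1, h2, h3⟩ := hq
  simp only at h0 h1 h2 h3 hr
  have ht : (parF e (s, u)).2 = s + (1 - s) * (1 - u) / 2 := rfl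
  have ht0 : 0 < s + (1 - s) * (1 - u) / 2 := by nlinarith
  refine ⟨?_, ?_, ?_, ?_, ?_, ?_⟩
  · cases e
    · simp only [parF, Bool.false_eq_true, if_false]; linarith
    · simp only [parF, if_true]; linarith
  · cases e
    · simp only [parF, Bool.false_eq_true, if_false]; linarith
    · simp only [parF, if_true]; linarith
  · rw [ht]; exact ht0.le
  · rw [ht]; nlinarith
  · intro h
    rw [ht]
    have := hr h
    nlinarith
  · intro h
    rw [ht] at h
    linarith

theorem leaf_mem {e : Bool} {q : ℝ × ℝ} (hq : q ∈ KsSet) : leafF e q ∈ QQ 0 false := by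
  obtain ⟨s, u⟩ := q
  obtain ⟨h0, h1, h2, h3⟩ := hq
  simp only at h0 h1 h2 h3
  have ht : (leafF e (s, u)).2 = (1 + s) / 2 := rfl
  refine ⟨?_, ?_, ?_, ?_, ?_, ?_⟩
  · cases e
    · simp only [leafF, Bool.false_eq_true, if_false]; linarith
    · simp only [leafF, if_true]; linarith
  · cases e
    · simp only [leafF, Bool.false_eq_true, if_false]; linarith
    · simp only [leafF, if_true]; linarith
  · rw [ht]; linarith
  · rw [ht]; linarith
  · intro h; cases h
  · intro h
    rw [ht] at h
    linarith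

theorem sp_cases {N k : ℕ} {e : Bool} {q : ℝ × ℝ} (hq : q ∈ KsSet) :
    (0 ≤ q.1 ∧ q ∈ HsSet ∧ spF N k e q = fanF N k e q) ∨
    (q.1 < 0 ∧ (-q.1, q.2) ∈ HsSet ∧ -q.1 < 1 ∧ spF N k e q = parF (!e) (-q.1, q.2)) := by
  obtain ⟨h0, h1, h2, h3⟩ := hq
  rcases le_or_gt 0 q.1 with h | h
  · left
    refine ⟨h, ⟨h, h1, h2, h3⟩, ?_⟩
    unfold spF
    rw [if_pos h]
  · right
    refine ⟨h, ⟨?_, ?_, h2, h3⟩, ?_, ?_⟩
    · show 0 ≤ -q.1
      linarith
    · show -q.1 ≤ 1
      linarith
    · linarith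
    · unfold spF
      rw [if_neg (not_le.2 h)]

theorem sp_mem {N k : ℕ} {root e : Bool} (hk : 1 ≤ k) (hkN : k ≤ N) {q : ℝ × ℝ}
    (hq : q ∈ KsSet) : spF N k e q ∈ QQ N root := by
  rcases sp_cases (N := N) (k := k) (e := e) hq with ⟨_, h2, h3⟩ | ⟨_, h2, h3, h4⟩
  · rw [h3]
    exact fan_mem hk hkN h2
  · rw [h4]
    exact par_mem h2 fun _ => h3

theorem star_mem {N k : ℕ} {root e : Bool} (hv : Val N root k) {q : ℝ × ℝ} (hq : q ∈ HsSet) :
    starF N root k e q ∈ QQ N root := by
  unfold starF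
  split_ifs with h1 h2 h3
  · subst h1 h2
    have hr : root = false := by
      cases root
      · rfl
      · exact absurd (hv.2 rfl) (by norm_num)
    subst hr
    exact leaf_mem (tkFun_mem hq)
  · have hr : root = false := by
      cases root
      · rfl
      · exact absurd (hv.2 rfl) (by omega)
    subst hr
    exact par_mem hq fun h => by cases h
  · exact sp_mem (Nat.one_le_iff_ne_zero.2 h1) hv.1 (tkFun_mem hq)
  · exact fan_mem (Nat.one_le_iff_ne_zero.2 h1) hv.1 hq

theorem fan_cont (N k : ℕ) (e : Bool) : Continuous (fanF N k e) := by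
  unfold fanF
  fun_prop

theorem par_cont (e : Bool) : Continuous (parF e) := by
  unfold parF
  cases e
  · simp only [Bool.false_eq_true, if_false]; fun_prop
  · simp only [if_true]; fun_prop

theorem leaf_cont (e : Bool) : Continuous (leafF e) := by
  unfold leafF
  cases e
  · simp only [Bool.false_eq_true, if_false]; fun_prop
  · simp only [if_true]; fun_prop

/-- the two special pieces fit together on the seam -/
theorem seam {N k : ℕ} {e : Bool} (hN : 1 ≤ N) (h : (k = 1 ∧ e = false) ∨ (k = N ∧ e = true))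
    (u : ℝ) : fanF N k e (0, u) = parF (!e) (0, u) := by
  have hN' : (N : ℝ) ≠ 0 := by positivity
  rcases h with ⟨rfl, rfl⟩ | ⟨rfl, rfl⟩
  · unfold fanF parF
    ext
    · simp
      ring
    · simp
  · unfold fanF parF
    ext
    · simp
      field_simp
      ring
    · simp

theorem sp_cont {N k : ℕ} {e : Bool} (hN : 1 ≤ N)
    (h : (k = 1 ∧ e = false) ∨ (k = N ∧ e = true)) : Continuous (spF N k e) := by
  unfold spF
  apply Continuous.if_le (fan_cont N k e) ((par_cont (!e)).comp (by fun_prop)) continuous_const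
    continuous_fst
  intro q hq
  have h1 : q = (0, q.2) := Prod.ext hq.symm rfl
  rw [h1]
  simp only [Function.comp, neg_zero]
  exact seam hN h q.2

/-- strip coordinates -/
def sc2 (p : Strip) : ℝ × ℝ := (p.1.1, p.2.1)

theorem sc2_mem (p : Strip) : sc2 p ∈ HsSet :=
  ⟨p.1.2.1, p.1.2.2, p.2.2.1, p.2.2.2⟩

theorem sc2_cont : Continuous sc2 := by
  unfold sc2
  fun_prop

theorem sc2_inj {p p' : Strip} (h : sc2 p = sc2 p') : p = p' := by
  have h1 := congrArg Prod.fst h
  have h2 := congrArg Prod.snd h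
  exact Prod.ext (Subtype.ext h1) (Subtype.ext h2)

theorem sc2_surj {q : ℝ × ℝ} (hq : q ∈ HsSet) : ∃ p : Strip, sc2 p = q :=
  ⟨(⟨q.1, hq.1, hq.2.1⟩, ⟨q.2, hq.2.2⟩), rfl⟩

theorem tk_sc2_cont : Continuous fun p : Strip => tkFun (sc2 p) := by
  have h : (fun p : Strip => tkFun (sc2 p)) =
      fun p : Strip => ((tkHomeo ⟨sc2 p, sc2_mem p⟩ : KsSet) : ℝ × ℝ) := rfl
  rw [h]
  exact continuous_subtype_val.comp (tkHomeo.continuous.comp (sc2_cont.subtype_mk _))

theorem star_cont {N k : ℕ} {root e : Bool} (hv : Val N root k) :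
    Continuous fun p : Strip => starF N root k e (sc2 p) := by
  unfold starF
  by_cases h1 : k = 0
  · by_cases h2 : N = 0
    · simp only [h1, h2, if_true]
      exact (leaf_cont e).comp tk_sc2_cont
    · simp only [h1, h2, if_true, if_false]
      exact (par_cont e).comp sc2_cont
  · have hN : 1 ≤ N := (Nat.one_le_iff_ne_zero.2 h1).trans hv.1
    by_cases h3 : root = true ∧ ((k = 1 ∧ e = false) ∨ (k = N ∧ e = true))
    · have h4 := (sp_cont hN h3.2).comp tk_sc2_cont
      refine h4.congr fun p => ?_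
      rw [if_neg h1, if_pos h3]
      rfl
    · refine ((fan_cont N k e).comp sc2_cont).congr fun p => ?_
      rw [if_neg h1, if_neg h3]
      rfl

/-! ### surjectivity -/

theorem tk_surj {q : ℝ × ℝ} (hq : q ∈ KsSet) : ∃ q' ∈ HsSet, tkFun q' = q :=
  ⟨tkInv q, tkInv_mem hq, tk_right hq⟩

theorem par_surj_true {x t : ℝ} (h0 : 0 < x) (h1 : x ≤ 1 / 2) (h2 : x ≤ t) (h3 : t ≤ 1) :
    ∃ q ∈ HsSet, parF true q = (x, t) ∧ q = ((t - x) / (1 - x), 1 - 2 * x) := by
  have h4 : 0 < 1 - x := by linarith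
  refine ⟨((t - x) / (1 - x), 1 - 2 * x), ⟨?_, ?_, ?_, ?_⟩, ?_, rfl⟩
  · exact div_nonneg (by linarith) h4.le
  · show (t - x) / (1 - x) ≤ 1
    rw [div_le_one h4]
    linarith
  · show 0 ≤ 1 - 2 * x
    linarith
  · show 1 - 2 * x < 1
    linarith
  · unfold parF
    ext
    · simp only [if_true]
      ring
    · simp only
      field_simp
      ring

theorem par_surj_false {x t : ℝ} (h0 : x < 1) (h1 : 1 / 2 ≤ x) (h2 : 1 - x ≤ t) (h3 : t ≤ 1) :
    ∃ q ∈ HsSet, parF false q = (x, t) ∧ q = ((t - (1 - x)) / x, 2 * x - 1) := by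
  have h4 : 0 < x := by linarith
  refine ⟨((t - (1 - x)) / x, 2 * x - 1), ⟨?_, ?_, ?_, ?_⟩, ?_, rfl⟩
  · exact div_nonneg (by linarith) h4.le
  · show (t - (1 - x)) / x ≤ 1
    rw [div_le_one h4]
    linarith
  · show 0 ≤ 2 * x - 1
    linarith
  · show 2 * x - 1 < 1
    linarith
  · unfold parF
    ext
    · simp only [Bool.false_eq_true, if_false]
      ring
    · simp only
      field_simp
      ring

theorem fan_surj {N : ℕ} (hN : 1 ≤ N) {x t : ℝ} (h0 : 0 ≤ t) (h1 : t ≤ x) (h2 : t ≤ 1 - x)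
    (ht : t < 1 / 2)
    (hz : t = 0 → ∃ k : ℕ, 1 ≤ k ∧ k ≤ N ∧ ((k : ℝ) - 1) / N < x ∧ x < k / N) :
    ∃ k e, 1 ≤ k ∧ k ≤ N ∧ ∃ q ∈ HsSet, fanF N k e q = (x, t) := by
  have hN0 : (0 : ℝ) < N := by exact_mod_cast hN
  set r : ℝ := 1 - 2 * t with hr
  set w : ℝ := 2 * N * (x - t) with hw
  have hr0 : 0 < r := by linarith
  have hr1 : r ≤ 1 := by linarith
  have hw0 : 0 ≤ w := mul_nonneg (by positivity) (by linarith)
  have hw1 : w ≤ 2 * N * r := by
    rw [hw, hr]
    nlinarith
  -- the index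
  obtain ⟨j, hj, hjw, hjw'⟩ : ∃ j : ℕ, j < 2 * N ∧ (j : ℝ) * r ≤ w ∧ w ≤ ((j : ℝ) + 1) * r := by
    have h3 : 0 ≤ w / r := div_nonneg hw0 hr0.le
    have h4 := Nat.floor_le h3
    have h5 := Nat.lt_floor_add_one (w / r)
    rw [le_div_iff₀ hr0] at h4
    rw [div_lt_iff₀ hr0] at h5
    rcases Nat.lt_or_ge ⌊w / r⌋₊ (2 * N) with h6 | h6
    · exact ⟨_, h6, h4, h5.le⟩
    · refine ⟨2 * N - 1, by omega, ?_, ?_⟩
      · have h7 : ((2 * N - 1 : ℕ) : ℝ) ≤ (⌊w / r⌋₊ : ℝ) := by exact_mod_cast (by omega)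
        nlinarith
      · have h7 : ((2 * N - 1 : ℕ) : ℝ) + 1 = 2 * N := by
          rw [Nat.cast_sub (by omega)]
          push_cast
          ring
        rw [h7]
        exact hw1
  -- if `r = 1`, the point is not over an end of a slot
  have hend : ∀ k : ℕ, r = 1 → w = 2 * (k : ℝ) → False := by
    intro k h3 h4
    have h5 : t = 0 := by linarith
    obtain ⟨k', _, _, h6, h7⟩ := hz h5
    rw [div_lt_iff₀ hN0] at h6
    rw [lt_div_iff₀ hN0] at h7
    rw [h5] at hw
    have h8 : x * N = k := by linarith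
    rw [h8] at h6 h7
    have h9 : k' < k + 1 := by exact_mod_cast (by linarith : (k' : ℝ) < (k : ℝ) + 1)
    have h10 : k < k' := by exact_mod_cast h7
    omega
  rcases Nat.even_or_odd' j with ⟨i, hi | hi⟩
  · -- even: right strip of slot i + 1
    have hjr : (j : ℝ) = 2 * i := by rw [hi]; push_cast; ring
    set u : ℝ := ((j : ℝ) + 1) * r - w with hu
    have hu0 : 0 ≤ u := by linarith
    have hu1 : u < 1 := by
      rcases lt_or_eq_of_le (show u ≤ r by linarith) with h3 | h3
      · linarith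
      · rcases lt_or_eq_of_le hr1 with h4 | h4
        · linarith
        · exfalso
          refine hend i h4 ?_
          rw [h4] at hjw hu
          rw [hu, h4] at h3
          linarith
    have h1u : 0 < 1 - u := by linarith
    set s : ℝ := (w - j * r) / (1 - u) with hs
    have hsu : s * (1 - u) = w - j * r := div_mul_cancel₀ _ h1u.ne'
    refine ⟨i + 1, false, by omega, by omega, (s, u), ⟨?_, ?_, hu0, hu1⟩, ?_⟩
    · exact div_nonneg (by linarith) h1u.le
    · show s ≤ 1
      rw [hs, div_le_one h1u]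
      linarith
    · have h5 := fanF_r N (i + 1) false s u
      have h6 := fanF_w_false hN (i + 1) s u
      have h7 : s * (1 - u) + u = r := by rw [hsu, hu]; ring
      rw [h7] at h5 h6
      have h8 : (fanF N (i + 1) false (s, u)).2 = t := by linarith
      rw [h8, hsu] at h6
      have h9 : (fanF N (i + 1) false (s, u)).1 = x := by
        have : 2 * (N : ℝ) * ((fanF N (i + 1) false (s, u)).1 - t) = 2 * N * (x - t) := by
          rw [h6, ← hw, hjr]
          push_cast
          ring
        have h10 := mul_left_cancel₀ (by positivity) this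
        linarith
      exact Prod.ext h9 h8
  · -- odd: left strip of slot i + 1
    have hjr : (j : ℝ) = 2 * i + 1 := by rw [hi]; push_cast; ring
    set u : ℝ := w - j * r with hu
    have hu0 : 0 ≤ u := by linarith
    have hu1 : u < 1 := by
      rcases lt_or_eq_of_le (show u ≤ r by linarith) with h3 | h3
      · linarith
      · rcases lt_or_eq_of_le hr1 with h4 | h4
        · linarith
        · exfalso
          refine hend (i + 1) h4 ?_
          rw [hu, h4] at h3
          push_cast
          linarith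
    have h1u : 0 < 1 - u := by linarith
    set s : ℝ := (((j : ℝ) + 1) * r - w) / (1 - u) with hs
    have hsu : s * (1 - u) = ((j : ℝ) + 1) * r - w := div_mul_cancel₀ _ h1u.ne'
    refine ⟨i + 1, true, by omega, by omega, (s, u), ⟨?_, ?_, hu0, hu1⟩, ?_⟩
    · exact div_nonneg (by linarith) h1u.le
    · show s ≤ 1
      rw [hs, div_le_one h1u]
      linarith
    · have h5 := fanF_r N (i + 1) true s u
      have h6 := fanF_w_true hN (i + 1) s u
      have h7 : s * (1 - u) + u = r := by rw [hsu, hu]; ring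
      rw [h7] at h5 h6
      have h8 : (fanF N (i + 1) true (s, u)).2 = t := by linarith
      rw [h8] at h6
      have h9 : (fanF N (i + 1) true (s, u)).1 = x := by
        have : 2 * (N : ℝ) * ((fanF N (i + 1) true (s, u)).1 - t) = 2 * N * (x - t) := by
          rw [h6, ← hw, hu, hjr]
          push_cast
          ring
        have h10 := mul_left_cancel₀ (by positivity) this
        linarith
      exact Prod.ext h9 h8

end Pool.Agent.AllSurf
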