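import Pool.Agent.Lib.MP_7f477e_gt.TFlat2

/-! Flat stars: surjectivity and kernel. -/

set_option autoImplicit false

open Set Topology

namespace Pool.Agent.AllSurf

/-- special pieces -/
def Spc (N : ℕ) (root : Bool) (k : ℕ) (e : Bool) : Prop :=
  root = true ∧ ((k = 1 ∧ e = false) ∨ (k = N ∧ e = true))

theorem hs_ks {q : ℝ × ℝ} (hq : q ∈ HsSet) : q ∈ KsSet :=
  ⟨by have := hq.1; linarith, hq.2.1, hq.2.2.1, hq.2.2.2⟩

theorem star_zero0 (root e : Bool) (q : ℝ × ℝ) : starF 0 root 0 e q = leafF e (tkFun q) := by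
  unfold starF; rw [if_pos rfl, if_pos rfl]

theorem star_zeroN {N : ℕ} (hN : 1 ≤ N) (root e : Bool) (q : ℝ × ℝ) :
    starF N root 0 e q = parF e q := by
  unfold starF; rw [if_pos rfl, if_neg (by omega)]

theorem star_sp {N k : ℕ} {root e : Bool} (hk : 1 ≤ k) (h : Spc N root k e) (q : ℝ × ℝ) :
    starF N root k e q = spF N k e (tkFun q) := by
  have h' : root = true ∧ ((k = 1 ∧ e = false) ∨ (k = N ∧ e = true)) := h
  unfold starF; rw [if_neg (by omega), if_pos h']

theorem star_fan {N k : ℕ} {root e : Bool} (hk : 1 ≤ k) (h : ¬ Spc N root k e) (q : ℝ × ℝ) :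
    starF N root k e q = fanF N k e q := by
  have h' : ¬ (root = true ∧ ((k = 1 ∧ e = false) ∨ (k = N ∧ e = true))) := h
  unfold starF; rw [if_neg (by omega), if_neg h']

theorem star_surj (N : ℕ) (root : Bool) (z : ℝ × ℝ) (hr : root = true → 1 ≤ N)
    (hz : z ∈ QQ N root) : ∃ k e, Val N root k ∧ ∃ q ∈ HsSet, starF N root k e q = z := by
  obtain ⟨x, t⟩ := z
  obtain ⟨hx0, hx1, ht0, ht1, htr, hz0⟩ := hz
  simp only at hx0 hx1 ht0 ht1 htr hz0
  rcases Nat.eq_zero_or_pos N with hN | hN
  · subst hN
    have hroot : root = false := by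
      cases root
      · rfl
      · exact absurd (hr rfl) (by norm_num)
    subst hroot
    have htpos : 0 < t := by
      rcases lt_or_eq_of_le ht0 with h | h
      · exact h
      · obtain ⟨k, h1, h2, _⟩ := hz0 h.symm
        omega
    rcases le_total x (1 / 2) with h | h
    · obtain ⟨q, hq, hq'⟩ := tk_surj (q := (2 * t - 1, 1 - 2 * x))
        ⟨by show -1 < 2 * t - 1; linarith, by show 2 * t - 1 ≤ 1; linarith,
          by show 0 ≤ 1 - 2 * x; linarith, by show 1 - 2 * x < 1; linarith⟩
      refine ⟨0, true, ⟨le_rfl, fun h => by cases h⟩, q, hq, ?_⟩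
      rw [star_zero0, hq']
      unfold leafF
      ext
      · simp only [if_true]; ring
      · simp only; ring
    · obtain ⟨q, hq, hq'⟩ := tk_surj (q := (2 * t - 1, 2 * x - 1))
        ⟨by show -1 < 2 * t - 1; linarith, by show 2 * t - 1 ≤ 1; linarith,
          by show 0 ≤ 2 * x - 1; linarith, by show 2 * x - 1 < 1; linarith⟩
      refine ⟨0, false, ⟨le_rfl, fun h => by cases h⟩, q, hq, ?_⟩
      rw [star_zero0, hq']
      unfold leafF
      ext
      · simp only [Bool.false_eq_true, if_false]; ring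
      · simp only; ring
  · -- the fan region
    have hfan : t < 1 / 2 → t ≤ x → t ≤ 1 - x →
        ∃ k e, Val N root k ∧ ∃ q ∈ HsSet, starF N root k e q = (x, t) := by
      intro h1 h2 h3
      obtain ⟨k, e, hk, hkN, q, hq, hq'⟩ := fan_surj hN ht0 h2 h3 h1 hz0
      by_cases hsp : Spc N root k e
      · obtain ⟨q2, hq2, hq3⟩ := tk_surj (hs_ks hq)
        refine ⟨k, e, ⟨hkN, fun _ => hk⟩, q2, hq2, ?_⟩
        rw [star_sp hk hsp, hq3]
        unfold spF
        rw [if_pos hq.1, hq']
      · exact ⟨k, e, ⟨hkN, fun _ => hk⟩, q, hq, by rw [star_fan hk hsp, hq']⟩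
    -- the upper region
    have hup : ∀ (k : ℕ) (e : Bool), 1 ≤ k → k ≤ N → (k = 1 ∧ e = false ∨ k = N ∧ e = true) →
        ∀ q ∈ HsSet, parF (!e) q = (x, t) → (root = true → q.1 < 1) →
        ∃ k e, Val N root k ∧ ∃ q ∈ HsSet, starF N root k e q = (x, t) := by
      intro k e hk hkN hke q hq hq' hq1
      cases hroot : root
      · refine ⟨0, !e, ⟨by omega, fun h => by cases h⟩, q, hq, ?_⟩
        rw [star_zeroN hN, hq']
      · have hKs : (-q.1, q.2) ∈ KsSet :=
          ⟨by have := hq1 hroot; show -1 < -q.1; linarith, by have := hq.1; show -q.1 ≤ 1; linarith,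
            hq.2.2.1, hq.2.2.2⟩
        obtain ⟨q2, hq2, hq3⟩ := tk_surj hKs
        refine ⟨k, e, ⟨hkN, fun _ => hk⟩, q2, hq2, ?_⟩
        rw [star_sp hk ⟨rfl, hke⟩, hq3]
        unfold spF
        split_ifs with h5
        · have h6 : q.1 = 0 := by
            have := hq.1
            simp only at h5
            linarith
          have h7 : q = (0, q.2) := Prod.ext h6 rfl
          have h8 : ((-q.1, q.2) : ℝ × ℝ) = (0, q.2) := by rw [h6, neg_zero]
          rw [h8, seam hN hke q.2, ← h7, hq']
        · simp only [neg_neg]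
          exact hq'
    rcases le_total x (1 / 2) with h | h
    · rcases le_or_gt x t with h' | h'
      · obtain ⟨q, hq, hq', hq2⟩ := par_surj_true hx0 h h' ht1
        refine hup 1 false le_rfl hN (Or.inl ⟨rfl, rfl⟩) q hq hq' fun hroot => ?_
        rw [hq2]
        show (t - x) / (1 - x) < 1
        have := htr hroot
        rw [div_lt_one (by linarith)]
        linarith
      · exact hfan (by linarith) h'.le (by linarith)
    · rcases le_or_gt (1 - x) t with h' | h'
      · obtain ⟨q, hq, hq', hq2⟩ := par_surj_false hx1 h h' ht1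
        refine hup N true hN le_rfl (Or.inr ⟨rfl, rfl⟩) q hq hq' fun hroot => ?_
        rw [hq2]
        show (t - (1 - x)) / x < 1
        have := htr hroot
        rw [div_lt_one (by linarith)]
        linarith
      · exact hfan (by linarith) (by linarith) h'.le

/-! ### the kernel -/

theorem lr_edge {N k : ℕ} {root : Bool} (hk : Val N root k) {p p' : Strip}
    (h : (sc2 p).2 = 0) (h' : (sc2 p').2 = 0) (hs : (sc2 p).1 = (sc2 p').1) :
    Relation.EqvGen (LR N root) (k, true, p) (k, false, p') := by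
  have hp : p = (p.1, u0) := Prod.ext rfl (Subtype.ext h)
  have hp' : p' = (p.1, u0) := Prod.ext (Subtype.ext hs.symm) (Subtype.ext h')
  rw [hp, hp']
  exact Relation.EqvGen.rel _ _ (LR.edge k hk p.1)

theorem lr_corner {N k : ℕ} {root : Bool} (hk : Val N root k) {p p' : Strip}
    (h : (sc2 p).1 = 0) (h' : (sc2 p').1 = 0) (hs : (sc2 p).2 = (sc2 p').2) :
    Relation.EqvGen (LR N root) (k, true, p) (nxt N root k, false, p') := by
  have hp : p = (0, p.2) := Prod.ext (Subtype.ext h) rfl
  have hp' : p' = (0, p.2) := Prod.ext (Subtype.ext h') (Subtype.ext hs.symm)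
  rw [hp, hp']
  exact Relation.EqvGen.rel _ _ (LR.corner k hk p.2)

theorem lr_edge' {N k : ℕ} {root e e' : Bool} (hk : Val N root k) (hne : e ≠ e') {p p' : Strip}
    (h : (sc2 p).2 = 0) (h' : (sc2 p').2 = 0) (hs : (sc2 p).1 = (sc2 p').1) :
    Relation.EqvGen (LR N root) (k, e, p) (k, e', p') := by
  cases e <;> cases e'
  · exact absurd rfl hne
  · exact (lr_edge hk h' h hs.symm).symm
  · exact lr_edge hk h h' hs
  · exact absurd rfl hne

theorem lr_zero_aux {N : ℕ} {root : Bool} (k0 : ℕ) (hk0 : Val N root k0) (p : Strip)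
    (hp : sc2 p = (0, 0)) : ∀ j, k0 + j ≤ N →
      Relation.EqvGen (LR N root) (k0, true, p) (k0 + j, true, p) := by
  intro j
  induction j with
  | zero => intro _; exact Relation.EqvGen.refl _
  | succ j ih =>
    intro hj
    have h1 := ih (by omega)
    have hv : Val N root (k0 + j) := ⟨by omega, fun h => by have := hk0.2 h; omega⟩
    have hv' : Val N root (k0 + (j + 1)) := ⟨hj, fun h => by have := hk0.2 h; omega⟩
    have h2 := lr_corner hv (p := p) (p' := p) (by rw [hp]) (by rw [hp]) rfl
    have h3 : nxt N root (k0 + j) = k0 + (j + 1) := by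
      unfold nxt
      rw [if_pos (by omega)]
      rfl
    rw [h3] at h2
    have h4 := lr_edge hv' (p := p) (p' := p) (by rw [hp]) (by rw [hp]) rfl
    exact Relation.EqvGen.trans _ _ _ h1 (Relation.EqvGen.trans _ _ _ h2 h4.symm)

theorem lr_zero {N k k' : ℕ} {root e e' : Bool} (hk : Val N root k) (hk' : Val N root k')
    {p p' : Strip} (hp : sc2 p = (0, 0)) (hp' : sc2 p' = (0, 0)) :
    Relation.EqvGen (LR N root) (k, e, p) (k', e', p') := by
  have hpp : p' = p := sc2_inj (hp'.trans hp.symm)
  subst hpp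
  -- everything is equivalent to the smallest index
  have key : ∀ k e, Val N root k →
      Relation.EqvGen (LR N root) ((if root = true then 1 else 0 : ℕ), true, p') (k, e, p') := by
    intro k e hk
    have h0 : Val N root (if root = true then 1 else 0 : ℕ) := by
      cases root
      · exact ⟨by simp, fun h => by cases h⟩
      · have := hk.2 rfl
        exact ⟨by simp only [if_true]; exact this.trans hk.1, fun _ => by simp⟩
    have h1 : (if root = true then 1 else 0 : ℕ) ≤ k := by
      cases root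
      · simp
      · simpa using hk.2 rfl
    obtain ⟨j, rfl⟩ := Nat.exists_eq_add_of_le h1
    have h2 := lr_zero_aux _ h0 p' hp' j hk.1
    cases e
    · exact Relation.EqvGen.trans _ _ _ h2
        (lr_edge hk (p := p') (p' := p') (by rw [hp']) (by rw [hp']) rfl)
    · exact h2
  exact Relation.EqvGen.trans _ _ _ (key k e hk).symm (key k' e' hk')

theorem star_desc {N k : ℕ} {root e : Bool} (hN : 1 ≤ N) (hv : Val N root k) {q : ℝ × ℝ}
    (hq : q ∈ HsSet) :
    (k = 0 ∧ root = false ∧ starF N root k e q = parF e q) ∨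
    (1 ≤ k ∧ ∃ q' ∈ HsSet, starF N root k e q = fanF N k e q' ∧
      ((¬ Spc N root k e ∧ q = q') ∨ (Spc N root k e ∧ tkFun q = q'))) ∨
    (1 ≤ k ∧ Spc N root k e ∧ ∃ q' ∈ HsSet, 0 < q'.1 ∧ tkFun q = (-q'.1, q'.2) ∧
      starF N root k e q = parF (!e) q') := by
  rcases Nat.eq_zero_or_pos k with hk | hk
  · left
    subst hk
    refine ⟨rfl, ?_, star_zeroN hN _ _ _⟩
    cases root
    · rfl
    · exact absurd (hv.2 rfl) (by norm_num)
  · right
    by_cases hsp : Spc N root k e
    · rcases sp_cases (N := N) (k := k) (e := e) (tkFun_mem hq) with ⟨h1, h2, h3⟩ | ⟨h1, h2, h3, h4⟩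
      · left
        exact ⟨hk, tkFun q, h2, by rw [star_sp hk hsp, h3], Or.inr ⟨hsp, rfl⟩⟩
      · right
        refine ⟨hk, hsp, _, h2, ?_, ?_, ?_⟩
        · show 0 < -(tkFun q).1
          linarith
        · show tkFun q = (- -(tkFun q).1, (tkFun q).2)
          rw [neg_neg]
        · rw [star_sp hk hsp, h4]
    · left
      exact ⟨hk, q, hq, star_fan hk hsp q, Or.inl ⟨hsp, rfl⟩⟩

/-- from `q' = (σ, 0)` back to `q` -/
theorem desc_back {N k : ℕ} {root e : Bool} {q q' : ℝ × ℝ} (hq : q ∈ HsSet) (hq' : q' ∈ HsSet)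
    (h : (¬ Spc N root k e ∧ q = q') ∨ (Spc N root k e ∧ tkFun q = q')) (h0 : q'.2 = 0) :
    q = q' := by
  rcases h with ⟨_, h⟩ | ⟨_, h⟩
  · exact h
  · have h1 : tkFun (q.1, q.2) = (q'.1, 0) := by
      rw [Prod.mk.eta, h]
      exact Prod.ext rfl h0
    obtain ⟨h2, h3⟩ := tk_pos hq.1 hq.2.2.1 hq'.1 h1
    exact Prod.ext h2 (h3.trans h0.symm)

theorem star_ker_mp {N k k' : ℕ} {root e e' : Bool} (hv : Val N root k) (hv' : Val N root k')
    {p p' : Strip} (h : starF N root k e (sc2 p) = starF N root k' e' (sc2 p')) :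
    Relation.EqvGen (LR N root) (k, e, p) (k', e', p') := by
  have hq := sc2_mem p
  have hq' := sc2_mem p'
  rcases Nat.eq_zero_or_pos N with hN | hN
  · -- leaf
    subst hN
    have hk : k = 0 := by have := hv.1; omega
    have hk' : k' = 0 := by have := hv'.1; omega
    subst hk hk'
    have hroot : root = false := by
      cases root
      · rfl
      · exact absurd (hv.2 rfl) (by norm_num)
    subst hroot
    rw [star_zero0, star_zero0] at h
    have hm := tkFun_mem hq
    have hm' := tkFun_mem hq'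
    rcases leaf_leaf hm.2.2.1 hm'.2.2.1 h with ⟨h1, h2⟩ | ⟨h1, h2, h3, h4⟩
    · have h5 := sc2_inj (tkFun_inj hq hq' h2)
      rw [h1, h5]
      exact Relation.EqvGen.refl _
    · have h5 : tkFun (sc2 p) = tkFun (sc2 p') := Prod.ext h4 (h2.trans h3.symm)
      have h6 := sc2_inj (tkFun_inj hq hq' h5)
      subst h6
      rcases le_total 0 (tkFun (sc2 p)).1 with h7 | h7
      · obtain ⟨h8, h9⟩ := tk_pos (s := (sc2 p).1) (u := (sc2 p).2) (σ := (tkFun (sc2 p)).1)
          hq.1 hq.2.2.1 h7 (Prod.ext rfl h2)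
        exact lr_edge' hv h1 h9 h9 rfl
      · obtain ⟨h8, h9⟩ := tk_neg (s := (sc2 p).1) (u := (sc2 p).2) (σ := -(tkFun (sc2 p)).1)
          hq.1 hq.2.2.1 (by linarith) (Prod.ext (by rw [neg_neg]) h2)
        have h10 : nxt 0 false 0 = 0 := rfl
        have h11 := lr_corner hv (p := p) (p' := p) h8 h8 rfl
        rw [h10] at h11
        cases e <;> cases e'
        · exact absurd rfl h1
        · exact h11.symm
        · exact h11
        · exact absurd rfl h1
  · -- parent and fan
    have parfan : ∀ {k k' : ℕ} {e e' : Bool} {p p' : Strip} {q2 : ℝ × ℝ}, Val N root k →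
        Val N root k' → k = 0 → root = false → 1 ≤ k' → q2 ∈ HsSet →
        ((¬ Spc N root k' e' ∧ sc2 p' = q2) ∨ (Spc N root k' e' ∧ tkFun (sc2 p') = q2)) →
        parF e (sc2 p) = fanF N k' e' q2 →
        Relation.EqvGen (LR N root) (k, e, p) (k', e', p') := by
      intro k k' e e' p p' q2 hv hv' hk hroot hk' hq2 hd heq
      have hq := sc2_mem p
      have hnsp : ¬ Spc N root k' e' := by
        intro hs
        rw [hroot] at hs
        exact absurd hs.1 (by decide)
      have hq3 : sc2 p' = q2 := by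
        rcases hd with ⟨_, h1⟩ | ⟨h1, _⟩
        · exact h1
        · exact absurd h1 hnsp
      rw [← hq3] at heq hq2
      obtain ⟨h1, h2⟩ := par_fan (e := e) (e' := e') (s := (sc2 p).1) (u := (sc2 p).2)
        (s' := (sc2 p').1) (u' := (sc2 p').2) hN hk' hv'.1 hq.1 hq.2.2.1 hq.2.2.2
        hq2.1 hq2.2.1 hq2.2.2.1 hq2.2.2.2 heq
      subst hk
      rcases h2 with ⟨h3, h4, h5⟩ | ⟨h3, h4, h5, h6, h7⟩ | ⟨h3, h4, h5, h6, h7⟩
      · exact lr_zero hv hv' (Prod.ext h1 h3) (Prod.ext h4 h5)
      · subst h3 h4 h5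
        have h8 := lr_corner hv h1 h6 h7
        have h9 : nxt N root 0 = 1 := by
          unfold nxt
          rw [if_pos (by omega)]
        rw [h9] at h8
        exact h8
      · subst h3 h4 h5
        have h8 := lr_corner hv' h6 h1 h7.symm
        have h9 : nxt k' root k' = 0 := by
          unfold nxt
          rw [if_neg (by omega), hroot, if_neg (by decide)]
        rw [h9] at h8
        exact h8.symm
    -- fan against the upper part of a special piece: impossible
    have fansp : ∀ {k k' : ℕ} {e e' : Bool} {q1 q2 : ℝ × ℝ}, 1 ≤ k → k ≤ N →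
        q1 ∈ HsSet → q2 ∈ HsSet → 0 < q2.1 → fanF N k e q1 = parF (!e') q2 → False := by
      intro k k' e e' q1 q2 hk hkN hq1 hq2 h0 heq
      obtain ⟨h1, -⟩ := par_fan (e := !e') (e' := e) (s := q2.1) (u := q2.2)
        (s' := q1.1) (u' := q1.2) hN hk hkN hq2.1 hq2.2.2.1 hq2.2.2.2
        hq1.1 hq1.2.1 hq1.2.2.1 hq1.2.2.2 heq.symm
      linarith
    rcases star_desc (e := e) hN hv hq with ⟨a1, a2, a3⟩ | ⟨a1, q1, a2, a3, a4⟩ | ⟨a1, a2, q1, a3, a4, a5, a6⟩
    · rcases star_desc (e := e') hN hv' hq' with ⟨b1, b2, b3⟩ | ⟨b1, q2, b2, b3, b4⟩ |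
        ⟨b1, b2, q2, b3, b4, b5, b6⟩
      · -- parent, parent
        rw [a3, b3] at h
        rcases par_par (s := (sc2 p).1) (u := (sc2 p).2) (s' := (sc2 p').1) (u' := (sc2 p').2)
          hq.2.2.1 hq'.2.2.1 h with ⟨h1, h2, h3⟩ | ⟨h1, h2, h3, h4⟩
        · have h5 := sc2_inj (Prod.ext h2 h3)
          rw [h1, h5, a1, b1]
          exact Relation.EqvGen.refl _
        · rw [a1] at hv
          rw [a1, b1]
          exact lr_edge' hv h1 h2 h3 h4
      · exact parfan hv hv' a1 a2 b1 b2 b4 (by rw [← a3, h, b3])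
      · rw [a2] at b2
        exact absurd b2.1 (by decide)
    · rcases star_desc (e := e') hN hv' hq' with ⟨b1, b2, b3⟩ | ⟨b1, q2, b2, b3, b4⟩ |
        ⟨b1, b2, q2, b3, b4, b5, b6⟩
      · exact (parfan hv' hv b1 b2 a1 a2 a4 (by rw [← b3, ← h, a3])).symm
      · -- fan, fan
        rw [a3, b3] at h
        rcases fan_fan (s := q1.1) (u := q1.2) (s' := q2.1) (u' := q2.2) hN a2.1 a2.2.1 a2.2.2.1
          a2.2.2.2 b2.1 b2.2.1 b2.2.2.1 b2.2.2.2 h with
          ⟨h1, h2, h3, h4⟩ | ⟨h1, h2, h3, h4⟩ | ⟨h1, h2, h3, h4, h5⟩ | ⟨h1, h2, h3, h4, h5, h6⟩ |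
          ⟨h1, h2, h3, h4, h5, h6⟩
        · have h5 := desc_back hq a2 a4 h2
          have h6 := desc_back hq' b2 b4 h4
          exact lr_zero hv hv' (h5.trans (Prod.ext h1 h2)) (h6.trans (Prod.ext h3 h4))
        · subst h1 h2
          have h5 : q1 = q2 := Prod.ext h3 h4
          have h6 : sc2 p = sc2 p' := by
            rcases a4 with ⟨c1, c2⟩ | ⟨c1, c2⟩
            · rcases b4 with ⟨d1, d2⟩ | ⟨d1, d2⟩
              · rw [c2, d2, h5]
              · exact absurd d1 c1
            · rcases b4 with ⟨d1, d2⟩ | ⟨d1, d2⟩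
              · exact absurd c1 d1
              · exact tkFun_inj hq hq' (by rw [c2, d2, h5])
          rw [sc2_inj h6]
          exact Relation.EqvGen.refl _
        · have h6 := desc_back hq a2 a4 h3
          have h7 := desc_back hq' b2 b4 h4
          subst h1
          exact lr_edge' hv h2 (by rw [h6, h3]) (by rw [h7, h4]) (by rw [h6, h7, h5])
        · subst h2 h3
          have h7 : sc2 p = q1 := by
            rcases a4 with ⟨c1, c2⟩ | ⟨c1, c2⟩
            · exact c2
            · rcases c1.2 with ⟨_, c3⟩ | ⟨c3, _⟩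
              · exact absurd c3 (by decide)
              · have := hv'.1; omega
          have h8 : sc2 p' = q2 := by
            rcases b4 with ⟨c1, c2⟩ | ⟨c1, c2⟩
            · exact c2
            · rcases c1.2 with ⟨c3, _⟩ | ⟨_, c3⟩
              · omega
              · exact absurd c3 (by decide)
          have h9 := lr_corner hv (p := p) (p' := p') (by rw [h7, h4]) (by rw [h8, h5])
            (by rw [h7, h8, h6])
          have h10 : nxt N root k = k' := by
            unfold nxt
            rw [if_pos (by have := hv'.1; omega), h1]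
          rw [h10] at h9
          exact h9
        · subst h2 h3
          have h7 : sc2 p' = q2 := by
            rcases b4 with ⟨c1, c2⟩ | ⟨c1, c2⟩
            · exact c2
            · rcases c1.2 with ⟨_, c3⟩ | ⟨c3, _⟩
              · exact absurd c3 (by decide)
              · have := hv.1; omega
          have h8 : sc2 p = q1 := by
            rcases a4 with ⟨c1, c2⟩ | ⟨c1, c2⟩
            · exact c2
            · rcases c1.2 with ⟨c3, _⟩ | ⟨_, c3⟩
              · omega
              · exact absurd c3 (by decide)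
          have h9 := lr_corner hv' (p := p') (p' := p) (by rw [h7, h5]) (by rw [h8, h4])
            (by rw [h7, h8, h6])
          have h10 : nxt N root k' = k := by
            unfold nxt
            rw [if_pos (by have := hv.1; omega), h1]
          rw [h10] at h9
          exact h9.symm
      · exact (fansp (k' := k') a1 hv.1 a2 b3 b4 (by rw [← a3, h, b6])).elim
    · rcases star_desc (e := e') hN hv' hq' with ⟨b1, b2, b3⟩ | ⟨b1, q2, b2, b3, b4⟩ |
        ⟨b1, b2, q2, b3, b4, b5, b6⟩
      · rw [b2] at a2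
        exact absurd a2.1 (by decide)
      · exact (fansp (k' := k) b1 hv'.1 b2 a3 a4 (by rw [← b3, ← h, a6])).elim
      · -- special, special
        rw [a6, b6] at h
        rcases par_par (s := q1.1) (u := q1.2) (s' := q2.1) (u' := q2.2)
          a3.2.2.1 b3.2.2.1 h with ⟨h1, h2, h3⟩ | ⟨h1, h2, h3, h4⟩
        · have h5 : q1 = q2 := Prod.ext h2 h3
          have h6 := sc2_inj (tkFun_inj hq hq' (by rw [a5, b5, h5]))
          have h7 : e = e' := by
            cases e <;> cases e' <;> first | rfl | exact absurd h1 (by decide)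
          subst h7
          have h8 : k = k' := by
            rcases a2.2 with ⟨c1, c2⟩ | ⟨c1, c2⟩
            · rcases b2.2 with ⟨d1, d2⟩ | ⟨d1, d2⟩
              · rw [c1, d1]
              · rw [c2] at d2; exact absurd d2 (by decide)
            · rcases b2.2 with ⟨d1, d2⟩ | ⟨d1, d2⟩
              · rw [c2] at d2; exact absurd d2 (by decide)
              · rw [c1, d1]
          rw [h6, h8]
          exact Relation.EqvGen.refl _
        · have h5 := tk_neg (s := (sc2 p).1) (u := (sc2 p).2) (σ := q1.1) hq.1 hq.2.2.1 a4.le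
            (by rw [Prod.mk.eta, a5, h2])
          have h6 := tk_neg (s := (sc2 p').1) (u := (sc2 p').2) (σ := q2.1) hq'.1 hq'.2.2.1 b4.le
            (by rw [Prod.mk.eta, b5, h3])
          have hne : e ≠ e' := fun h => h1 (by rw [h])
          have h7 : nxt N root N = 1 := by
            unfold nxt
            rw [if_neg (by omega), if_pos a2.1]
          have hvN : Val N root N := ⟨le_rfl, fun _ => hN⟩
          rcases a2.2 with ⟨c1, c2⟩ | ⟨c1, c2⟩
          · rcases b2.2 with ⟨d1, d2⟩ | ⟨d1, d2⟩
            · exact absurd (c2.trans d2.symm) hne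
            · have h8 := lr_corner (p := p') (p' := p) hvN h6.1 h5.1
                (by rw [h6.2, h5.2, h4])
              rw [h7] at h8
              rw [c1, c2, d1, d2]
              exact h8.symm
          · rcases b2.2 with ⟨d1, d2⟩ | ⟨d1, d2⟩
            · have h8 := lr_corner (p := p) (p' := p') hvN h5.1 h6.1
                (by rw [h6.2, h5.2, h4])
              rw [h7] at h8
              rw [c1, c2, d1, d2]
              exact h8
            · exact absurd (c2.trans d2.symm) hne

end Pool.Agent.AllSurf
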