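import Mathlib

/-! General lemmas on glued spaces. -/

set_option autoImplicit false

open Topology

namespace Pool.Agent.AllSurf

/-- A locally finite family of closed continuous maps which covers is a quotient map. -/
theorem isQuotientMap_sigma {ι : Type*} {X : ι → Type*} [∀ i, TopologicalSpace (X i)]
    {Y : Type*} [TopologicalSpace Y] (f : ∀ i, X i → Y) (hc : ∀ i, Continuous (f i))
    (hcl : ∀ i, IsClosedMap (f i)) (hlf : LocallyFinite fun i => Set.range (f i))
    (hs : ∀ y, ∃ i x, f i x = y) : IsQuotientMap (fun p : Σ i, X i => f p.1 p.2) := by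
  apply IsClosedMap.isQuotientMap
  · intro S hS
    have h1 : (fun p : Σ i, X i => f p.1 p.2) '' S = ⋃ i, f i '' (Sigma.mk i ⁻¹' S) := by
      ext y
      simp only [Set.mem_image, Set.mem_iUnion, Set.mem_preimage]
      constructor
      · rintro ⟨⟨i, x⟩, hx, rfl⟩
        exact ⟨i, x, hx, rfl⟩
      · rintro ⟨i, x, hx, rfl⟩
        exact ⟨⟨i, x⟩, hx, rfl⟩
    rw [h1]
    apply LocallyFinite.isClosed_iUnion
    · refine hlf.subset fun i => ?_
      rintro y ⟨x, -, rfl⟩
      exact ⟨x, rfl⟩
    · intro i
      exact hcl i _ (hS.preimage continuous_sigmaMk)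
  · exact continuous_sigma fun i => hc i
  · intro y
    obtain ⟨i, x, hx⟩ := hs y
    exact ⟨⟨i, x⟩, hx⟩

/-- The same for a discrete index set and one fixed piece, as a product. -/
theorem isQuotientMap_prod {ι : Type*} {X : Type*} [TopologicalSpace ι] [DiscreteTopology ι]
    [TopologicalSpace X] {Y : Type*} [TopologicalSpace Y] (f : ι → X → Y)
    (hc : ∀ i, Continuous (f i)) (hcl : ∀ i, IsClosedMap (f i))
    (hlf : LocallyFinite fun i => Set.range (f i))
    (hs : ∀ y, ∃ i x, f i x = y) : IsQuotientMap (fun p : ι × X => f p.1 p.2) := by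
  apply IsClosedMap.isQuotientMap
  · intro S hS
    have h1 : (fun p : ι × X => f p.1 p.2) '' S = ⋃ i, f i '' (Prod.mk i ⁻¹' S) := by
      ext y
      simp only [Set.mem_image, Set.mem_iUnion, Set.mem_preimage]
      constructor
      · rintro ⟨⟨i, x⟩, hx, rfl⟩
        exact ⟨i, x, hx, rfl⟩
      · rintro ⟨i, x, hx, rfl⟩
        exact ⟨⟨i, x⟩, hx, rfl⟩
    rw [h1]
    apply LocallyFinite.isClosed_iUnion
    · refine hlf.subset fun i => ?_
      rintro y ⟨x, -, rfl⟩
      exact ⟨x, rfl⟩
    · intro i
      exact hcl i _ (hS.preimage (by fun_prop))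
  · rw [continuous_iff_continuousAt]
    rintro ⟨i, x⟩
    rw [ContinuousAt, nhds_prod_eq, nhds_discrete, Filter.pure_prod, Filter.tendsto_map'_iff]
    exact (hc i).continuousAt
  · intro y
    obtain ⟨i, x, hx⟩ := hs y
    exact ⟨⟨i, x⟩, hx⟩

theorem eqvGen_map {A B : Type*} {r : A → A → Prop} {r' : B → B → Prop} (f : A → B)
    (h : ∀ a b, r a b → Relation.EqvGen r' (f a) (f b)) {a b : A} (hab : Relation.EqvGen r a b) :
    Relation.EqvGen r' (f a) (f b) := by
  induction hab with
  | rel x y hxy => exact h x y hxy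
  | refl x => exact Relation.EqvGen.refl _
  | symm x y _ ih => exact Relation.EqvGen.symm _ _ ih
  | trans x y z _ _ ih1 ih2 => exact Relation.EqvGen.trans _ _ _ ih1 ih2

/-- Two quotients are homeomorphic if a quotient map induces a bijection between them. -/
theorem quot_homeo {A B : Type*} [TopologicalSpace A] [TopologicalSpace B]
    {r : A → A → Prop} {r' : B → B → Prop} (f : A → B) (hf : IsQuotientMap f)
    (h1 : ∀ a b, r a b → Relation.EqvGen r' (f a) (f b))
    (h2 : ∀ a b, f a = f b → Relation.EqvGen r a b)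
    (h3 : ∀ x y, r' x y → ∃ a b, f a = x ∧ f b = y ∧ Relation.EqvGen r a b) :
    ∃ e : Quot r ≃ₜ Quot r', ∀ a, e (Quot.mk r a) = Quot.mk r' (f a) := by
  -- the map
  let F : Quot r → Quot r' := Quot.lift (fun a => Quot.mk r' (f a)) fun a b hab =>
    Quot.eqvGen_sound (h1 a b hab)
  have hF : ∀ a, F (Quot.mk r a) = Quot.mk r' (f a) := fun _ => rfl
  have hq : IsQuotientMap (fun a => Quot.mk r' (f a)) := isQuotientMap_quot_mk.comp hf
  have hcont : Continuous F := continuous_quot_lift _ hq.continuous
  have hlift : ∀ x y, Relation.EqvGen r' x y → ∀ a b, f a = x → f b = y →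
      Relation.EqvGen r a b := by
    intro x y hxy
    induction hxy with
    | rel x y hxy =>
      intro a b ha hb
      obtain ⟨a', b', ha', hb', hab⟩ := h3 x y hxy
      exact Relation.EqvGen.trans _ _ _ (h2 a a' (ha.trans ha'.symm))
        (Relation.EqvGen.trans _ _ _ hab (h2 b' b (hb'.trans hb.symm)))
    | refl x =>
      intro a b ha hb
      exact h2 a b (ha.trans hb.symm)
    | symm x y _ ih =>
      intro a b ha hb
      exact Relation.EqvGen.symm _ _ (ih b a hb ha)
    | trans x y z _ _ ih1 ih2 =>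
      intro a b ha hb
      obtain ⟨c, hc⟩ := hf.surjective y
      exact Relation.EqvGen.trans _ _ _ (ih1 a c ha hc) (ih2 c b hc hb)
  have hinj : Function.Injective F := by
    intro p q
    induction p using Quot.ind with | _ a => ?_
    induction q using Quot.ind with | _ b => ?_
    intro hab
    exact Quot.eqvGen_sound (hlift _ _ (Quot.eqvGen_exact hab) a b rfl rfl)
  have hsurj : Function.Surjective F := by
    intro q
    induction q using Quot.ind with | _ y => ?_
    obtain ⟨a, rfl⟩ := hf.surjective y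
    exact ⟨Quot.mk r a, rfl⟩
  have hFq : IsQuotientMap F := by
    apply IsQuotientMap.of_comp continuous_quot_mk hcont
    exact hq
  exact ⟨(isHomeomorph_iff_isQuotientMap_injective.2 ⟨hFq, hinj⟩).homeomorph F, fun a => rfl⟩

end Pool.Agent.AllSurf
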