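import Mathlib

/-! The corner opening homeomorphism `K (s, u) = ((s - u) / (1 - s u), s u)`. -/

set_option autoImplicit false

namespace Pool.Agent.AllSurf

/-- the half strip `[0,1] x [0,1)` -/
def HsSet : Set (ℝ × ℝ) := {p | 0 ≤ p.1 ∧ p.1 ≤ 1 ∧ 0 ≤ p.2 ∧ p.2 < 1}

/-- the opened half strip `(-1,1] x [0,1)` -/
def KsSet : Set (ℝ × ℝ) := {p | -1 < p.1 ∧ p.1 ≤ 1 ∧ 0 ≤ p.2 ∧ p.2 < 1}

theorem tk_den {s u : ℝ} (h0 : 0 ≤ s) (h1 : s ≤ 1) (h2 : 0 ≤ u) (h3 : u < 1) : 0 < 1 - s * u := by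
  nlinarith

/-- the map -/
noncomputable def tkFun (p : ℝ × ℝ) : ℝ × ℝ := ((p.1 - p.2) / (1 - p.1 * p.2), p.1 * p.2)

/-- discriminant root -/
noncomputable def tkR (p : ℝ × ℝ) : ℝ := Real.sqrt ((p.1 * (1 - p.2)) ^ 2 + 4 * p.2)

/-- the inverse map -/
noncomputable def tkInv (p : ℝ × ℝ) : ℝ × ℝ :=
  ((p.1 * (1 - p.2) + tkR p) / 2, (-(p.1 * (1 - p.2)) + tkR p) / 2)

theorem tkFun_mem {p : ℝ × ℝ} (hp : p ∈ HsSet) : tkFun p ∈ KsSet := by
  obtain ⟨s, u⟩ := p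
  obtain ⟨h0, h1, h2, h3⟩ := hp
  simp only at h0 h1 h2 h3
  have hd := tk_den h0 h1 h2 h3
  refine ⟨?_, ?_, ?_, ?_⟩
  · show -1 < (s - u) / (1 - s * u)
    rw [lt_div_iff₀ hd]
    nlinarith
  · show (s - u) / (1 - s * u) ≤ 1
    rw [div_le_iff₀ hd]
    nlinarith
  · show 0 ≤ s * u
    positivity
  · show s * u < 1
    linarith

theorem tkR_nonneg (p : ℝ × ℝ) : 0 ≤ tkR p := Real.sqrt_nonneg _

theorem tkR_sq {p : ℝ × ℝ} (hp : 0 ≤ p.2) : tkR p ^ 2 = (p.1 * (1 - p.2)) ^ 2 + 4 * p.2 := by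
  unfold tkR
  rw [Real.sq_sqrt]
  positivity

theorem tkInv_mem {p : ℝ × ℝ} (hp : p ∈ KsSet) : tkInv p ∈ HsSet := by
  have hR := tkR_nonneg p
  have hR2 := tkR_sq hp.2.2.1
  obtain ⟨a, b⟩ := p
  obtain ⟨h0, h1, h2, h3⟩ := hp
  simp only at h0 h1 h2 h3 hR hR2
  set r := tkR (a, b) with hr
  have hb : 0 < 1 - b := by linarith
  have hq1 : a * (1 - b) ≤ 1 - b := by nlinarith
  have hq2 : -(1 - b) < a * (1 - b) := by nlinarith
  set q := a * (1 - b) with hq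
  have hle : |q| ≤ r := by
    apply abs_le_of_sq_le_sq _ hR
    nlinarith
  obtain ⟨hle1, hle2⟩ := abs_le.1 hle
  refine ⟨?_, ?_, ?_, ?_⟩
  · show 0 ≤ (q + r) / 2
    linarith
  · show (q + r) / 2 ≤ 1
    have : r ≤ 2 - q := by
      apply le_of_sq_le_sq _ (by linarith)
      nlinarith
    linarith
  · show 0 ≤ (-q + r) / 2
    linarith
  · show (-q + r) / 2 < 1
    have : r < 2 + q := by
      apply lt_of_pow_lt_pow_left₀ 2 (by linarith)
      nlinarith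
    linarith

theorem tk_left {p : ℝ × ℝ} (hp : p ∈ HsSet) : tkInv (tkFun p) = p := by
  obtain ⟨s, u⟩ := p
  obtain ⟨h0, h1, h2, h3⟩ := hp
  simp only at h0 h1 h2 h3
  have hd := tk_den h0 h1 h2 h3
  have hq : (s - u) / (1 - s * u) * (1 - s * u) = s - u := div_mul_cancel₀ _ hd.ne'
  have hr : tkR (tkFun (s, u)) = s + u := by
    unfold tkR tkFun
    simp only
    rw [hq]
    have : (s - u) ^ 2 + 4 * (s * u) = (s + u) ^ 2 := by ring
    rw [this, Real.sqrt_sq (by linarith)]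
  unfold tkInv
  rw [hr]
  unfold tkFun
  simp only
  rw [hq]
  ext <;> simp <;> ring

theorem tk_right {p : ℝ × ℝ} (hp : p ∈ KsSet) : tkFun (tkInv p) = p := by
  have hR2 := tkR_sq hp.2.2.1
  obtain ⟨a, b⟩ := p
  obtain ⟨h0, h1, h2, h3⟩ := hp
  simp only at h0 h1 h2 h3 hR2
  have hb : 1 - b ≠ 0 := by linarith
  unfold tkFun tkInv
  simp only
  set r := tkR (a, b) with hr
  have h4 : (a * (1 - b) + r) / 2 * ((-(a * (1 - b)) + r) / 2) = b := by nlinarith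
  rw [h4]
  ext
  · show ((a * (1 - b) + r) / 2 - (-(a * (1 - b)) + r) / 2) / (1 - b) = a
    field_simp
    ring
  · rfl

/-- corner opening -/
noncomputable def tkHomeo : HsSet ≃ₜ KsSet where
  toFun p := ⟨tkFun p, tkFun_mem p.2⟩
  invFun p := ⟨tkInv p, tkInv_mem p.2⟩
  left_inv p := Subtype.ext (tk_left p.2)
  right_inv p := Subtype.ext (tk_right p.2)
  continuous_toFun := by
    apply Continuous.subtype_mk
    unfold tkFun
    refine Continuous.prodMk ?_ (by fun_prop)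
    refine Continuous.div (by fun_prop) (by fun_prop) fun p => ?_
    obtain ⟨h0, h1, h2, h3⟩ := p.2
    exact (tk_den h0 h1 h2 h3).ne'
  continuous_invFun := by
    apply Continuous.subtype_mk
    unfold tkInv tkR
    fun_prop

end Pool.Agent.AllSurf
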