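import Pool.Agent.Lib.MP_7f477e_gt.U00

/-!
# MP_7f477e_gt, U01: heights

For every slot an increasing function `h d`, `0` left of the slot and `w d` right of it, such that
the gluing maps become affine.

If `d < inv d` take the clipped affine function `h d x = w d * (x - l d) / (r d - l d)` on
`[l d, r d]`; if `inv d < d` put `h d x = w d * (1 - h (inv d) (f d x) / w (inv d))` on `(l d, r d)`.
`h d` restricted to the open interval is an increasing bijection onto `(0, w d)` (a decreasing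
bijection `f d` between open intervals composed with an affine one), extended by `0` and `w d`;
a monotone function whose range is `[0, w d]` is continuous
(`Monotone.continuous_of_surjective` for the order `[0, w d]`, or
`StrictMonoOn.orderIso`, or `Monotone.continuous_of_dense_range`).
-/

set_option autoImplicit false

open Set Topology

namespace Pool.Agent.AllSurf

/-- the clamped function: `0` left of the interval, `k` on the interval, `1` right of it -/
noncomputable def U01_K (lo hi : ℝ) (k : ℝ → ℝ) (x : ℝ) : ℝ :=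
  if x ≤ lo then 0 else if hi ≤ x then 1 else k x

theorem U01_K_left {lo hi : ℝ} (k : ℝ → ℝ) {x : ℝ} (h : x ≤ lo) : U01_K lo hi k x = 0 := by
  unfold U01_K; rw [if_pos h]

theorem U01_K_right {lo hi : ℝ} (k : ℝ → ℝ) {x : ℝ} (hlh : lo < hi) (h : hi ≤ x) :
    U01_K lo hi k x = 1 := by
  unfold U01_K; rw [if_neg (by linarith), if_pos h]

theorem U01_K_mid {lo hi : ℝ} (k : ℝ → ℝ) {x : ℝ} (h : x ∈ Ioo lo hi) :
    U01_K lo hi k x = k x := by
  unfold U01_K; rw [if_neg (by linarith [h.1]), if_neg (by linarith [h.2])]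

theorem U01_k_mem {lo hi : ℝ} {k : ℝ → ℝ} (hk : k '' Ioo lo hi = Ioo 0 1) {x : ℝ}
    (h : x ∈ Ioo lo hi) : k x ∈ Ioo (0 : ℝ) 1 := by
  rw [← hk]; exact mem_image_of_mem k h

theorem U01_K_mem {lo hi : ℝ} {k : ℝ → ℝ} (hk : k '' Ioo lo hi = Ioo 0 1) (x : ℝ) :
    U01_K lo hi k x ∈ Icc (0 : ℝ) 1 := by
  unfold U01_K
  split_ifs with h1 h2
  · exact ⟨le_refl _, zero_le_one⟩
  · exact ⟨zero_le_one, le_refl _⟩
  · have := U01_k_mem hk (x := x) ⟨not_le.1 h1, not_le.1 h2⟩
    exact ⟨this.1.le, this.2.le⟩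

theorem U01_K_mono {lo hi : ℝ} {k : ℝ → ℝ} (hlh : lo < hi)
    (hm : StrictMonoOn k (Ioo lo hi)) (hk : k '' Ioo lo hi = Ioo 0 1) :
    Monotone (U01_K lo hi k) := by
  intro x y hxy
  by_cases h1 : x ≤ lo
  · rw [U01_K_left k h1]; exact (U01_K_mem hk y).1
  · by_cases h2 : hi ≤ y
    · rw [U01_K_right k hlh h2]; exact (U01_K_mem hk x).2
    · push Not at h1 h2
      rw [U01_K_mid k ⟨h1, lt_of_le_of_lt hxy h2⟩, U01_K_mid k ⟨lt_of_lt_of_le h1 hxy, h2⟩]
      exact hm.monotoneOn ⟨h1, lt_of_le_of_lt hxy h2⟩ ⟨lt_of_lt_of_le h1 hxy, h2⟩ hxy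

theorem U01_K_strict {lo hi : ℝ} {k : ℝ → ℝ} (hlh : lo < hi)
    (hm : StrictMonoOn k (Ioo lo hi)) (hk : k '' Ioo lo hi = Ioo 0 1) :
    StrictMonoOn (U01_K lo hi k) (Icc lo hi) := by
  intro x hx y hy hxy
  rcases eq_or_lt_of_le hx.1 with h1 | h1
  · rw [U01_K_left k h1.ge]
    rcases eq_or_lt_of_le hy.2 with h2 | h2
    · rw [U01_K_right k hlh h2.ge]; exact zero_lt_one
    · have hy' : y ∈ Ioo lo hi := ⟨lt_of_le_of_lt hx.1 hxy, h2⟩
      rw [U01_K_mid k hy']; exact (U01_k_mem hk hy').1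
  · have hx' : x ∈ Ioo lo hi := ⟨h1, lt_of_lt_of_le hxy hy.2⟩
    rw [U01_K_mid k hx']
    rcases eq_or_lt_of_le hy.2 with h2 | h2
    · rw [U01_K_right k hlh h2.ge]; exact (U01_k_mem hk hx').2
    · have hy' : y ∈ Ioo lo hi := ⟨lt_of_le_of_lt hx.1 hxy, h2⟩
      rw [U01_K_mid k hy']
      exact hm hx' hy' hxy

theorem U01_K_cont {lo hi : ℝ} {k : ℝ → ℝ} (hlh : lo < hi)
    (hm : StrictMonoOn k (Ioo lo hi)) (hk : k '' Ioo lo hi = Ioo 0 1) :
    Continuous (U01_K lo hi k) := by
  let K' : ℝ → Icc (0 : ℝ) 1 := fun x => ⟨U01_K lo hi k x, U01_K_mem hk x⟩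
  have hmono : Monotone K' := fun x y hxy => U01_K_mono hlh hm hk hxy
  have hsurj : Function.Surjective K' := by
    rintro ⟨y, hy⟩
    rcases eq_or_lt_of_le hy.1 with h0 | h0
    · refine ⟨lo, Subtype.ext ?_⟩
      show U01_K lo hi k lo = y
      rw [U01_K_left k le_rfl, h0]
    · rcases eq_or_lt_of_le hy.2 with h1 | h1
      · refine ⟨hi, Subtype.ext ?_⟩
        show U01_K lo hi k hi = y
        rw [U01_K_right k hlh le_rfl, h1]
      · have : y ∈ k '' Ioo lo hi := by rw [hk]; exact ⟨h0, h1⟩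
        obtain ⟨x, hx, rfl⟩ := this
        refine ⟨x, Subtype.ext ?_⟩
        show U01_K lo hi k x = k x
        exact U01_K_mid k hx
  have hc : Continuous K' := hmono.continuous_of_surjective hsurj
  exact continuous_subtype_val.comp hc

namespace Slots

variable {E : Type} [LinearOrder E] {C : Chords E} (S : Slots C)

/-- the relative position in the slot of `d`; for one half of the slots it is affine, for the other
half it is transported by the gluing map -/
noncomputable def U01_k (d : E) (x : ℝ) : ℝ :=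
  if d < C.inv d then (x - S.l d) / (S.r d - S.l d)
  else 1 - (S.f d x - S.l (C.inv d)) / (S.r (C.inv d) - S.l (C.inv d))

theorem U01_aff {l r : ℝ} (h : l < r) :
    StrictMonoOn (fun x => (x - l) / (r - l)) (Ioo l r) ∧
      (fun x => (x - l) / (r - l)) '' Ioo l r = Ioo 0 1 := by
  have h' : 0 < r - l := by linarith
  constructor
  · intro x _ y _ hxy
    exact div_lt_div_of_pos_right (by linarith) h'
  · ext y
    constructor
    · rintro ⟨x, hx, rfl⟩
      exact ⟨div_pos (by linarith [hx.1]) h', by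
        dsimp only; rw [div_lt_one h']; linarith [hx.2]⟩
    · rintro ⟨h1, h2⟩
      refine ⟨l + (r - l) * y, ⟨by nlinarith, by nlinarith⟩, ?_⟩
      dsimp only
      field_simp
      ring

theorem U01_f_image (d : E) : S.f d '' Ioo (S.l d) (S.r d) = Ioo (S.l (C.inv d)) (S.r (C.inv d)) := by
  ext y
  constructor
  · rintro ⟨x, hx, rfl⟩
    exact S.maps d x hx
  · intro hy
    have h1 := S.maps (C.inv d) y hy
    have h2 := S.finv (C.inv d) y hy
    rw [C.inv_inv] at h1 h2
    exact ⟨S.f (C.inv d) y, h1, h2⟩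

theorem U01_k_spec (d : E) : StrictMonoOn (S.U01_k d) (Ioo (S.l d) (S.r d)) ∧
    S.U01_k d '' Ioo (S.l d) (S.r d) = Ioo 0 1 := by
  by_cases hd : d < C.inv d
  · have : S.U01_k d = fun x => (x - S.l d) / (S.r d - S.l d) := by
      funext x; unfold U01_k; rw [if_pos hd]
    rw [this]
    exact U01_aff (S.lt d)
  · have e1 : S.U01_k d = fun x =>
        1 - (fun z => (z - S.l (C.inv d)) / (S.r (C.inv d) - S.l (C.inv d))) (S.f d x) := by
      funext x; unfold U01_k; rw [if_neg hd]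
    obtain ⟨m1, m2⟩ := U01_aff (S.lt (C.inv d))
    rw [e1]
    constructor
    · intro x hx y hy hxy
      have h1 := S.anti d hx hy hxy
      have h2 := m1 (S.maps d y hy) (S.maps d x hx) h1
      dsimp only at h2 ⊢
      linarith
    · ext y
      constructor
      · rintro ⟨x, hx, rfl⟩
        have h3 : (fun z => (z - S.l (C.inv d)) / (S.r (C.inv d) - S.l (C.inv d))) (S.f d x) ∈
            Ioo (0 : ℝ) 1 := by
          rw [← m2]; exact mem_image_of_mem _ (S.maps d x hx)
        dsimp only at h3 ⊢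
        exact ⟨by linarith [h3.2], by linarith [h3.1]⟩
      · rintro ⟨h1, h2⟩
        have h3 : 1 - y ∈ Ioo (0 : ℝ) 1 := ⟨by linarith, by linarith⟩
        rw [← m2] at h3
        obtain ⟨z, hz, hze⟩ := h3
        rw [← S.U01_f_image d] at hz
        obtain ⟨x, hx, rfl⟩ := hz
        refine ⟨x, hx, ?_⟩
        dsimp only at hze ⊢
        rw [hze]; ring

theorem exists_heights : ∃ h : E → ℝ → ℝ,
    (∀ d, Continuous (h d)) ∧ (∀ d, Monotone (h d)) ∧
    (∀ d x, x ≤ S.l d → h d x = 0) ∧ (∀ d x, S.r d ≤ x → h d x = C.w d) ∧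
    (∀ d, StrictMonoOn (h d) (Icc (S.l d) (S.r d))) ∧
    ∀ d x, x ∈ Ioo (S.l d) (S.r d) →
      h (C.inv d) (S.f d x) = C.w (C.inv d) * (1 - h d x / C.w d) := by
  refine ⟨fun d x => C.w d * U01_K (S.l d) (S.r d) (S.U01_k d) x, fun d => ?_, fun d => ?_,
    fun d x hx => ?_, fun d x hx => ?_, fun d => ?_, fun d x hx => ?_⟩
  · exact continuous_const.mul (U01_K_cont (S.lt d) (S.U01_k_spec d).1 (S.U01_k_spec d).2)
  · intro x y hxy
    exact mul_le_mul_of_nonneg_left
      (U01_K_mono (S.lt d) (S.U01_k_spec d).1 (S.U01_k_spec d).2 hxy) (C.w_pos d).le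
  · dsimp only; rw [U01_K_left _ hx, mul_zero]
  · dsimp only; rw [U01_K_right _ (S.lt d) hx, mul_one]
  · intro x hx y hy hxy
    exact mul_lt_mul_of_pos_left
      (U01_K_strict (S.lt d) (S.U01_k_spec d).1 (S.U01_k_spec d).2 hx hy hxy) (C.w_pos d)
  · dsimp only
    rw [U01_K_mid _ (S.maps d x hx), U01_K_mid _ hx, mul_div_cancel_left₀ _ (C.w_pos d).ne']
    congr 1
    unfold U01_k
    rw [C.inv_inv]
    by_cases hd : d < C.inv d
    · rw [if_neg (not_lt.2 hd.le), if_pos hd, S.finv d x hx]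
    · have hd' : C.inv d < d := lt_of_le_of_ne (not_lt.1 hd) (C.inv_ne d)
      rw [if_pos hd', if_neg hd]
      ring

end Slots

end Pool.Agent.AllSurf
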