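import Pool.Agent.Lib.MP_7f477e_gt.U00

/-!
# MP_7f477e_gt, U02: the collapsing function

`K x = ∑' d, h d x`: continuous (`continuous_tsum`, `0 ≤ h d x ≤ w d`), monotone, and equal to
`kap d + h d x` on `[l d, r d]` (for `e < d`: `r e ≤ l d ≤ x`, so `h e x = w e`; for `e > d`:
`x ≤ r d ≤ l e`, so `h e x = 0`).
-/

set_option autoImplicit false

open Set Topology

namespace Pool.Agent.AllSurf

theorem collapse {E : Type} [LinearOrder E] (w : E → ℝ) (hw : ∀ d, 0 < w d) (hw1 : Summable w)
    (l r : E → ℝ) (hlt : ∀ d, l d < r d) (hsep : ∀ d e, d < e → r d ≤ l e)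
    (h : E → ℝ → ℝ) (hc : ∀ d, Continuous (h d)) (hm : ∀ d, Monotone (h d))
    (h0 : ∀ d x, x ≤ l d → h d x = 0) (h1 : ∀ d x, r d ≤ x → h d x = w d) :
    ∃ K : ℝ → ℝ, Continuous K ∧ Monotone K ∧ (∃ B, ∀ x, 0 ≤ K x ∧ K x ≤ B) ∧
      ∀ d x, x ∈ Icc (l d) (r d) → K x = (∑' e, if e < d then w e else 0) + h d x := by
  have _ := hlt
  have hn : ∀ d x, 0 ≤ h d x := fun d x => by
    rw [← h0 d (min x (l d)) (min_le_right _ _)]
    exact hm d (min_le_left _ _)
  have hle : ∀ d x, h d x ≤ w d := fun d x => by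
    rw [← h1 d (max x (r d)) (le_max_right _ _)]
    exact hm d (le_max_left _ _)
  have hsum : ∀ x, Summable fun d => h d x := fun x =>
    Summable.of_nonneg_of_le (fun d => hn d x) (fun d => hle d x) hw1
  refine ⟨fun x => ∑' d, h d x, ?_, ?_, ⟨∑' d, w d, fun x => ⟨?_, ?_⟩⟩, ?_⟩
  · refine continuous_tsum (u := w) hc hw1 (fun d x => ?_)
    rw [Real.norm_of_nonneg (hn d x)]
    exact hle d x
  · intro x y hxy
    exact (hsum x).tsum_le_tsum (fun d => hm d hxy) (hsum y)
  · exact tsum_nonneg fun d => hn d x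
  · exact (hsum x).tsum_le_tsum (fun d => hle d x) hw1
  · intro d x hx
    have hs1 : Summable fun e : E => if e < d then w e else 0 := by
      refine Summable.of_nonneg_of_le (fun e => ?_) (fun e => ?_) hw1
      · split_ifs
        · exact (hw e).le
        · exact le_rfl
      · split_ifs
        · exact le_rfl
        · exact (hw e).le
    have hs2 : Summable fun e : E => if e = d then h d x else 0 :=
      summable_of_ne_finset_zero (s := {d}) (fun b hb => if_neg (by simpa using hb))
    have key : ∀ e, h e x = (if e < d then w e else 0) + (if e = d then h d x else 0) := by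
      intro e
      rcases lt_trichotomy e d with h' | h' | h'
      · rw [if_pos h', if_neg h'.ne, add_zero]
        exact h1 e x (by have := hsep e d h'; linarith [hx.1])
      · subst h'
        rw [if_neg (lt_irrefl _), if_pos rfl, zero_add]
      · rw [if_neg (not_lt.2 h'.le), if_neg h'.ne', add_zero]
        exact h0 e x (by have := hsep d e h'; linarith [hx.2])
    show (∑' e, h e x) = (∑' e, if e < d then w e else 0) + h d x
    rw [tsum_congr key, hs1.tsum_add hs2, tsum_ite_eq]

theorem Slots.exists_collapse {E : Type} [LinearOrder E] {C : Chords E} (S : Slots C)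
    (h : E → ℝ → ℝ) (hc : ∀ d, Continuous (h d)) (hm : ∀ d, Monotone (h d))
    (h0 : ∀ d x, x ≤ S.l d → h d x = 0) (h1 : ∀ d x, S.r d ≤ x → h d x = C.w d) :
    ∃ K : ℝ → ℝ, Continuous K ∧ Monotone K ∧ (∃ B, ∀ x, 0 ≤ K x ∧ K x ≤ B) ∧
      ∀ d x, x ∈ Icc (S.l d) (S.r d) → K x = C.kap d + h d x :=
  collapse C.w C.w_pos C.w_sum S.l S.r S.lt S.sep h hc hm h0 h1

end Pool.Agent.AllSurf
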