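import Pool.Agent.Lib.MP_7f477e_gt.U02

/-!
# MP_7f477e_gt, U03: the base does not depend on the slots

`Φ (x, y) = (K x + y * x, y)` is a homeomorphism `S.Base ≃ₜ C.Base` (`exists_homeo`).
* for `y > 0` the function `x ↦ K x + y * x` is strictly increasing, continuous, unbounded on both
  sides (K is bounded): a bijection of `ℝ`;
* for `y = 0` and `x` in the slot of `d`: `K x = kap d + h d x`, a bijection onto the slot of `d` of `C`
  (`h d` is continuous and strictly increasing on `[l d, r d]`, from `0` to `w d`);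
* the inverse is continuous at `(u₀, y₀) = Φ (x₀, y₀)`: for `ε > 0`
  `K (x₀ - ε) + y₀ (x₀ - ε) < u₀ < K (x₀ + ε) + y₀ (x₀ + ε)` (strict: if `y₀ = 0` then `x₀` is in a slot,
  where `K` is strictly increasing), this stays true for `(u, y)` near `(u₀, y₀)`, and then
  `|x - x₀| < ε` by monotonicity of `x ↦ K x + y * x`.

-/

set_option autoImplicit false

open Set Topology Filter

namespace Pool.Agent.AllSurf

namespace Slots

variable {E : Type} [LinearOrder E] {C : Chords E} (S : Slots C)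

theorem U03_mono (K : ℝ → ℝ) (hK : Monotone K) (y : ℝ) (hy : 0 ≤ y) :
    Monotone (fun x => K x + y * x) := by
  intro a b hab
  have h1 := hK hab
  have h2 := mul_le_mul_of_nonneg_left hab hy
  simp only
  linarith

theorem U03_strict (K : ℝ → ℝ) (hK : Monotone K) (y : ℝ) (hy : 0 < y) :
    StrictMono (fun x => K x + y * x) := by
  intro a b hab
  have h1 := hK hab.le
  have h2 := mul_lt_mul_of_pos_left hab hy
  simp only
  linarith

theorem U03_surj (K : ℝ → ℝ) (hc : Continuous K) (B : ℝ) (hB : ∀ x, 0 ≤ K x ∧ K x ≤ B) (y : ℝ)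
    (hy : 0 < y) : Function.Surjective (fun x => K x + y * x) := by
  apply Continuous.surjective
  · fun_prop
  · apply tendsto_atTop_mono (f := fun x => y * x)
    · intro x
      have := (hB x).1
      linarith
    · exact tendsto_id.const_mul_atTop hy
  · apply tendsto_atBot_mono (f := fun x => B + y * x)
    · intro x
      have := (hB x).2
      linarith
    · apply tendsto_atBot_add_const_left
      exact tendsto_id.const_mul_atBot hy

theorem U03_slot (h : E → ℝ → ℝ)
    (h0 : ∀ d x, x ≤ S.l d → h d x = 0) (h1 : ∀ d x, S.r d ≤ x → h d x = C.w d)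
    (hs : ∀ d, StrictMonoOn (h d) (Icc (S.l d) (S.r d))) (d : E) (x : ℝ)
    (hx : x ∈ Ioo (S.l d) (S.r d)) : 0 < h d x ∧ h d x < C.w d := by
  have hl : S.l d ∈ Icc (S.l d) (S.r d) := ⟨le_rfl, (S.lt d).le⟩
  have hr : S.r d ∈ Icc (S.l d) (S.r d) := ⟨(S.lt d).le, le_rfl⟩
  have hx' : x ∈ Icc (S.l d) (S.r d) := ⟨hx.1.le, hx.2.le⟩
  have a := hs d hl hx' hx.1
  have b := hs d hx' hr hx.2
  rw [h0 d (S.l d) le_rfl] at a
  rw [h1 d (S.r d) le_rfl] at b
  exact ⟨a, b⟩

/-- strictness of `K x + y * x` at the points of the base -/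
theorem U03_lt (h : E → ℝ → ℝ) (hs : ∀ d, StrictMonoOn (h d) (Icc (S.l d) (S.r d)))
    (K : ℝ → ℝ) (hK : Monotone K)
    (hKh : ∀ d x, x ∈ Icc (S.l d) (S.r d) → K x = C.kap d + h d x) (p : S.Base) :
    (∀ x, p.1.1 < x → K p.1.1 + p.1.2 * p.1.1 < K x + p.1.2 * x) ∧
    (∀ x, x < p.1.1 → K x + p.1.2 * x < K p.1.1 + p.1.2 * p.1.1) := by
  obtain ⟨⟨a, y⟩, hy, hp⟩ := p
  simp only at hy hp ⊢
  rcases hy.lt_or_eq with hy0 | hy0
  · exact ⟨fun x hx => U03_strict K hK y hy0 hx, fun x hx => U03_strict K hK y hy0 hx⟩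
  · subst hy0
    obtain ⟨d, hd⟩ : ∃ d, a ∈ Ioo (S.l d) (S.r d) := by
      rcases hp with hp | hp
      · exact absurd hp (lt_irrefl _)
      · exact hp
    have ha' : a ∈ Icc (S.l d) (S.r d) := ⟨hd.1.le, hd.2.le⟩
    constructor
    · intro x hx
      have hm : min x (S.r d) ∈ Icc (S.l d) (S.r d) :=
        ⟨le_min (hd.1.le.trans hx.le) (S.lt d).le, min_le_right _ _⟩
      have h2 := hs d ha' hm (lt_min hx hd.2)
      have h3 := hK (min_le_left x (S.r d))
      rw [hKh d _ hm] at h3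
      rw [hKh d a ha']
      linarith
    · intro x hx
      have hm : max x (S.l d) ∈ Icc (S.l d) (S.r d) :=
        ⟨le_max_right _ _, max_le (hx.le.trans hd.2.le) (S.lt d).le⟩
      have h2 := hs d hm ha' (max_lt hx hd.1)
      have h3 := hK (le_max_left x (S.l d))
      rw [hKh d _ hm] at h3
      rw [hKh d a ha']
      linarith

theorem exists_homeo (h : E → ℝ → ℝ) (hc : ∀ d, Continuous (h d)) (hm : ∀ d, Monotone (h d))
    (h0 : ∀ d x, x ≤ S.l d → h d x = 0) (h1 : ∀ d x, S.r d ≤ x → h d x = C.w d)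
    (hs : ∀ d, StrictMonoOn (h d) (Icc (S.l d) (S.r d))) :
    ∃ Φ : S.Base ≃ₜ C.Base, (∀ p, (Φ p).1.2 = p.1.2) ∧
      ∀ (p : S.Base) (d : E), p.1.2 = 0 → p.1.1 ∈ Ioo (S.l d) (S.r d) →
        (Φ p).1.1 = C.kap d + h d p.1.1 := by
  obtain ⟨K, hKc, hKm, ⟨B, hB⟩, hKh⟩ := S.exists_collapse h hc hm h0 h1
  have hwd : ∀ p : S.Base, 0 ≤ p.1.2 ∧ (0 < p.1.2 ∨ ∃ d, K p.1.1 + p.1.2 * p.1.1 ∈
      Ioo (C.kap d) (C.kap d + C.w d)) := by
    rintro ⟨⟨a, y⟩, hy, hp⟩
    simp only at hy hp ⊢
    refine ⟨hy, ?_⟩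
    rcases hy.lt_or_eq with hy0 | hy0
    · exact Or.inl hy0
    · subst hy0
      obtain ⟨d, hd⟩ : ∃ d, a ∈ Ioo (S.l d) (S.r d) := by
        rcases hp with hp | hp
        · exact absurd hp (lt_irrefl _)
        · exact hp
      obtain ⟨i1, i2⟩ := U03_slot S h h0 h1 hs d a hd
      refine Or.inr ⟨d, ?_⟩
      rw [hKh d a ⟨hd.1.le, hd.2.le⟩]
      constructor <;> linarith
  let f : S.Base → C.Base := fun p => ⟨(K p.1.1 + p.1.2 * p.1.1, p.1.2), hwd p⟩
  have hf1 : ∀ p, (f p).1.1 = K p.1.1 + p.1.2 * p.1.1 := fun p => rfl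
  have hf2 : ∀ p, (f p).1.2 = p.1.2 := fun p => rfl
  have hlt := U03_lt S h hs K hKm hKh
  have hinj : Function.Injective f := by
    intro p q hpq
    have e2 : p.1.2 = q.1.2 := by rw [← hf2 p, ← hf2 q, hpq]
    have e1 : K p.1.1 + p.1.2 * p.1.1 = K q.1.1 + q.1.2 * q.1.1 := by
      rw [← hf1 p, ← hf1 q, hpq]
    apply Subtype.ext
    apply Prod.ext _ e2
    rcases lt_trichotomy p.1.1 q.1.1 with hh | hh | hh
    · have := (hlt p).1 _ hh
      rw [e1, e2] at this
      exact absurd this (lt_irrefl _)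
    · exact hh
    · have := (hlt p).2 _ hh
      rw [e1, e2] at this
      exact absurd this (lt_irrefl _)
  have hsurj : Function.Surjective f := by
    rintro ⟨⟨u, y⟩, hy, hp⟩
    simp only at hy hp
    rcases hy.lt_or_eq with hy0 | hy0
    · obtain ⟨x, hx⟩ := U03_surj K hKc B hB y hy0 u
      refine ⟨⟨(x, y), hy, Or.inl hy0⟩, ?_⟩
      apply Subtype.ext
      exact Prod.ext hx rfl
    · subst hy0
      obtain ⟨d, hd⟩ : ∃ d, u ∈ Ioo (C.kap d) (C.kap d + C.w d) := by
        rcases hp with hp | hp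
        · exact absurd hp (lt_irrefl _)
        · exact hp
      have hiv := intermediate_value_Ioo (S.lt d).le (hc d).continuousOn
      rw [h0 d _ le_rfl, h1 d _ le_rfl] at hiv
      have hu : u - C.kap d ∈ Ioo 0 (C.w d) := by
        constructor <;> linarith [hd.1, hd.2]
      obtain ⟨x, hx, hxu⟩ := hiv hu
      refine ⟨⟨(x, 0), le_rfl, Or.inr ⟨d, hx⟩⟩, ?_⟩
      apply Subtype.ext
      refine Prod.ext ?_ rfl
      show K x + 0 * x = u
      rw [hKh d x ⟨hx.1.le, hx.2.le⟩, hxu]
      ring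
  have hcv : Continuous (fun p : S.Base => p.1) := continuous_subtype_val
  have hcw : Continuous (fun p : C.Base => p.1) := continuous_subtype_val
  have hfc : Continuous f := by
    apply Continuous.subtype_mk
    fun_prop
  let e : S.Base ≃ C.Base := Equiv.ofBijective f ⟨hinj, hsurj⟩
  have he : ∀ p, e p = f p := fun p => rfl
  have hs1 : ∀ q : C.Base, K (e.symm q).1.1 + q.1.2 * (e.symm q).1.1 = q.1.1 := by
    intro q
    have h3 : f (e.symm q) = q := e.apply_symm_apply q
    have h4 := hf1 (e.symm q)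
    have h5 := hf2 (e.symm q)
    rw [h3] at h4 h5
    rw [h5, ← h4]
  have hs2 : ∀ q : C.Base, (e.symm q).1.2 = q.1.2 := by
    intro q
    have h3 : f (e.symm q) = q := e.apply_symm_apply q
    have h5 := hf2 (e.symm q)
    rw [h3] at h5
    exact h5.symm
  have hec : Continuous e.symm := by
    have hx : Continuous (fun q : C.Base => (e.symm q).1.1) := by
      rw [continuous_iff_continuousAt]
      intro q₀
      rw [ContinuousAt, Metric.tendsto_nhds]
      intro ε hε
      have hp := hlt (e.symm q₀)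
      have a1 := hp.1 ((e.symm q₀).1.1 + ε) (by linarith)
      have a2 := hp.2 ((e.symm q₀).1.1 - ε) (by linarith)
      rw [hs2 q₀, hs1 q₀] at a1 a2
      have b1 : ∀ᶠ q : C.Base in 𝓝 q₀, q.1.1 <
          K ((e.symm q₀).1.1 + ε) + q.1.2 * ((e.symm q₀).1.1 + ε) := by
        apply ContinuousAt.eventually_lt _ _ a1
        · exact (continuous_fst.comp hcw).continuousAt
        · exact (continuous_const.add ((continuous_snd.comp hcw).mul
            continuous_const)).continuousAt
      have b2 : ∀ᶠ q : C.Base in 𝓝 q₀,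
          K ((e.symm q₀).1.1 - ε) + q.1.2 * ((e.symm q₀).1.1 - ε) < q.1.1 := by
        apply ContinuousAt.eventually_lt _ _ a2
        · exact (continuous_const.add ((continuous_snd.comp hcw).mul
            continuous_const)).continuousAt
        · exact (continuous_fst.comp hcw).continuousAt
      filter_upwards [b1, b2] with q c1 c2
      have hmq := U03_mono K hKm q.1.2 q.2.1
      rw [← hs1 q] at c1 c2
      have d1 : (e.symm q).1.1 < (e.symm q₀).1.1 + ε := hmq.reflect_lt c1
      have d2 : (e.symm q₀).1.1 - ε < (e.symm q).1.1 := hmq.reflect_lt c2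
      rw [Real.dist_eq, abs_lt]
      constructor <;> linarith
    have hy : Continuous (fun q : C.Base => (e.symm q).1.2) := by
      have : (fun q : C.Base => (e.symm q).1.2) = fun q => q.1.2 := funext hs2
      rw [this]
      exact continuous_snd.comp hcw
    have hxy : Continuous (fun q : C.Base => (e.symm q).1) := hx.prodMk hy
    exact hxy.subtype_mk (fun q => (e.symm q).2)
  refine ⟨⟨e, hfc, hec⟩, fun p => rfl, ?_⟩
  intro p d hp0 hpd
  show K p.1.1 + p.1.2 * p.1.1 = _
  rw [hp0, hKh d _ ⟨hpd.1.le, hpd.2.le⟩]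
  ring

end Slots

end Pool.Agent.AllSurf
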