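import Pool.Agent.Lib.MP_7f477e_gt.U01
import Pool.Agent.Lib.MP_7f477e_gt.U03

/-!
# MP_7f477e_gt, U05: the chord surface does not depend on the slots

`surf_homeo`: the homeomorphism `Φ` of U03 for the heights of U01 carries the gluing relation of `S`
to the one of `C` (in both directions): `(x, 0)`, `(f d x, 0)` go to `(kap d + h d x, 0)` and
`(kap (inv d) + w (inv d) (1 - h d x / w d), 0)`; put `s = h d x / w d`; conversely `h d` is a bijection
of `(l d, r d)` onto `(0, w d)`. So the quotients are homeomorphic (`quot_homeo`: `Quot.map`,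
continuity by `continuous_quot_mk`, `Continuous.quotient_lift`-like lemmas for `Quot`).
-/

set_option autoImplicit false

open Set Topology

namespace Pool.Agent.AllSurf

/-- a homeomorphism which respects two relations induces one of the quotients -/
theorem quot_homeo {X Y : Type} [TopologicalSpace X] [TopologicalSpace Y] (e : X ≃ₜ Y)
    (r : X → X → Prop) (s : Y → Y → Prop) (h : ∀ x x', r x x' ↔ s (e x) (e x')) :
    Nonempty (Quot r ≃ₜ Quot s) := by
  have h' : ∀ y y', s y y' → r (e.symm y) (e.symm y') := fun y y' hy =>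
    (h _ _).2 (by simpa using hy)
  have c1 : Continuous (Quot.map (ra := r) (rb := s) e (fun x x' hx => (h x x').1 hx)) :=
    continuous_quot_lift _ (continuous_quot_mk.comp e.continuous)
  have c2 : Continuous (Quot.map (ra := s) (rb := r) e.symm h') :=
    continuous_quot_lift _ (continuous_quot_mk.comp e.symm.continuous)
  refine ⟨{ toFun := Quot.map e (fun x x' hx => (h x x').1 hx), invFun := Quot.map e.symm h',
            left_inv := ?_, right_inv := ?_, continuous_toFun := c1, continuous_invFun := c2 }⟩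
  · rintro ⟨x⟩
    exact congrArg (Quot.mk r) (e.symm_apply_apply x)
  · rintro ⟨y⟩
    exact congrArg (Quot.mk s) (e.apply_symm_apply y)

theorem Slots.surf_homeo {E : Type} [LinearOrder E] {C : Chords E} (S : Slots C) :
    Nonempty (S.Surf ≃ₜ C.Surf) := by
  obtain ⟨h, hc, hm, h0, h1, hs, hf⟩ := S.exists_heights
  obtain ⟨Φ, hΦ2, hΦ1⟩ := S.exists_homeo h hc hm h0 h1 hs
  have hl : ∀ d, h d (S.l d) = 0 := fun d => h0 d _ le_rfl
  have hr : ∀ d, h d (S.r d) = C.w d := fun d => h1 d _ le_rfl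
  have hpos : ∀ d x, x ∈ Ioo (S.l d) (S.r d) → 0 < h d x := by
    intro d x hx
    have := hs d (left_mem_Icc.2 (S.lt d).le) ⟨hx.1.le, hx.2.le⟩ hx.1
    rwa [hl] at this
  have hlt : ∀ d x, x ∈ Ioo (S.l d) (S.r d) → h d x < C.w d := by
    intro d x hx
    have := hs d ⟨hx.1.le, hx.2.le⟩ (right_mem_Icc.2 (S.lt d).le) hx.2
    rwa [hr] at this
  -- image of a glued pair
  have key : ∀ (d : E) (x : ℝ), x ∈ Ioo (S.l d) (S.r d) → ∀ p p' : S.Base,
      p.1 = (x, 0) → p'.1 = (S.f d x, 0) →
      (Φ p).1 = (C.kap d + C.w d * (h d x / C.w d), 0) ∧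
      (Φ p').1 = (C.kap (C.inv d) + C.w (C.inv d) * (1 - h d x / C.w d), 0) := by
    intro d x hx p p' hp hp'
    have hw : C.w d ≠ 0 := (C.w_pos d).ne'
    have e1 : p.1.1 = x := by rw [hp]
    have e2 : p.1.2 = 0 := by rw [hp]
    have e1' : p'.1.1 = S.f d x := by rw [hp']
    have e2' : p'.1.2 = 0 := by rw [hp']
    have a1 := hΦ1 p d e2 (by rw [e1]; exact hx)
    have a1' := hΦ1 p' (C.inv d) e2' (by rw [e1']; exact S.maps d x hx)
    rw [e1] at a1
    rw [e1', hf d x hx] at a1'
    constructor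
    · refine Prod.ext ?_ ?_
      · change (Φ p).1.1 = C.kap d + C.w d * (h d x / C.w d)
        rw [a1]; field_simp
      · change (Φ p).1.2 = 0
        rw [hΦ2, e2]
    · refine Prod.ext ?_ ?_
      · exact a1'
      · change (Φ p').1.2 = 0
        rw [hΦ2, e2']
  refine quot_homeo Φ S.Glue C.Glue ?_
  intro p p'
  constructor
  · rintro ⟨d, x, hx, _, _, hp, hp'⟩
    obtain ⟨k1, k2⟩ := key d x hx p p' hp hp'
    exact Chords.Glue.mk d (h d x / C.w d) (div_pos (hpos d x hx) (C.w_pos d))
      ((div_lt_one (C.w_pos d)).2 (hlt d x hx)) _ _ k1 k2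
  · intro hg
    generalize hq : Φ p = q at hg
    generalize hq' : Φ p' = q' at hg
    obtain ⟨d, s, s0, s1, _, _, e, e'⟩ := hg
    have hmem : C.w d * s ∈ Ioo (h d (S.l d)) (h d (S.r d)) := by
      rw [hl, hr]
      exact ⟨mul_pos (C.w_pos d) s0, by nlinarith [C.w_pos d]⟩
    obtain ⟨x, hx, hxs⟩ := intermediate_value_Ioo (S.lt d).le (hc d).continuousOn hmem
    have hds : h d x / C.w d = s := by
      rw [hxs]; field_simp [(C.w_pos d).ne']
    let p0 : S.Base := ⟨(x, 0), le_rfl, Or.inr ⟨d, hx⟩⟩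
    let p0' : S.Base := ⟨(S.f d x, 0), le_rfl, Or.inr ⟨C.inv d, S.maps d x hx⟩⟩
    obtain ⟨k1, k2⟩ := key d x hx p0 p0' rfl rfl
    rw [hds] at k1 k2
    have ep : p = p0 := Φ.injective (by rw [hq]; exact Subtype.ext (e.trans k1.symm))
    have ep' : p' = p0' := Φ.injective (by rw [hq']; exact Subtype.ext (e'.trans k2.symm))
    rw [ep, ep']
    exact Slots.Glue.mk d x hx _ _ rfl rfl

end Pool.Agent.AllSurf
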