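import Pool.Agent.Lib.MP_7f477e_gt.OL

/-!
# MP_7f477e_gt, U06: the order lemma of Iface.lean

The order lemma itself, `orderLemma : OrderLemma`, is proved in OL.lean. Here: another form of the
left end points.
-/

set_option autoImplicit false

open Set Topology

namespace Pool.Agent.AllSurf

theorem left_eq {E : Type} [LinearOrder E] (C : ChordDiag E) (d : E) :
    C.left d = ∑' e, if e < d then C.wt e else 0 := by
  classical
  have e1 : (∑' e : {e : E // e < d}, C.wt e) = ∑' e, ({e : E | e < d}.indicator C.wt e) := by
    rw [← tsum_subtype]; rfl
  unfold ChordDiag.left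
  rw [e1]
  refine tsum_congr fun e => ?_
  by_cases h : e < d
  · rw [if_pos h, indicator_of_mem (by exact h)]
  · rw [if_neg h, indicator_of_notMem (by exact h)]

end Pool.Agent.AllSurf
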